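import Pool.Agent.Lib.MP_cfc9ed_co.T1

/-!
# MP_cfc9ed_co: connected sets, ties over a fixed set, assembling a minor from consecutive cells
-/

set_option autoImplicit false

namespace TWk

open SimpleGraph Relation

variable {V : Type*}

/-- closed sets -/
theorem RI.closed {G : SimpleGraph V} {s C : Set V} {c x : V} (h : RI G s c x) (hc : c ∈ C)
    (hcl : ∀ v ∈ C, v ∈ s → ∀ w ∈ s, G.Adj v w → w ∈ C) : x ∈ C := by
  obtain ⟨h1, h2, h3⟩ := h
  rw [reachable_iff_reflTransGen] at h3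
  have key : ∀ y : s, ReflTransGen (G.induce s).Adj ⟨c, h1⟩ y → y.1 ∈ C := by
    intro y hy
    induction hy with
    | refl => exact hc
    | @tail b d _ hadj ih => exact hcl _ ih b.2 _ d.2 hadj
  exact key ⟨x, h2⟩ h3

theorem conn_union {G : SimpleGraph V} {s t : Set V} (hs : (G.induce s).Connected)
    (ht : (G.induce t).Connected) {u v : V} (hu : u ∈ s) (hv : v ∈ t) (h : u = v ∨ G.Adj u v) :
    (G.induce (s ∪ t)).Connected := by
  have huv : RI G (s ∪ t) u v := by
    rcases h with h | h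
    · subst h; exact RI.refl (Or.inl hu)
    · exact RI.adj (Or.inl hu) (Or.inr hv) h
  refine conn_of_RI (c := u) (Or.inl hu) ?_
  rintro x (hx | hx)
  · exact (RI_of_conn hs hu hx).mono Set.subset_union_left
  · exact huv.trans ((RI_of_conn ht hv hx).mono Set.subset_union_right)

theorem conn_list {G : SimpleGraph V} : ∀ (l : List V), l ≠ [] → l.IsChain G.Adj →
    (G.induce {v | v ∈ l}).Connected := by
  intro l
  induction l with
  | nil => intro h; exact absurd rfl h
  | cons a t ih =>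
    intro _ hc
    cases t with
    | nil =>
      have : {v | v ∈ [a]} = ({a} : Set V) := by ext v; simp
      rw [this]
      exact conn_singleton a
    | cons b l =>
      rw [List.isChain_cons_cons] at hc
      have ih' := ih (by simp) hc.2
      have : {v | v ∈ a :: b :: l} = ({a} : Set V) ∪ {v | v ∈ b :: l} := by
        ext v; simp
      rw [this]
      exact conn_union (conn_singleton a) ih' (u := a) (v := b) rfl (by simp) (Or.inr hc.1)

theorem list_of_RI {G : SimpleGraph V} {s : Set V} {x y : V} (h : RI G s x y) :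
    ∃ l : List V, l.IsChain G.Adj ∧ l.head? = some x ∧ l.getLast? = some y ∧
      ∀ v ∈ l, v ∈ s := by
  obtain ⟨h1, h2, h3⟩ := h
  rw [reachable_iff_reflTransGen] at h3
  have key : ∀ y : s, ReflTransGen (G.induce s).Adj ⟨x, h1⟩ y → ∃ l : List V,
      l.IsChain G.Adj ∧ l.head? = some x ∧ l.getLast? = some y.1 ∧ ∀ v ∈ l, v ∈ s := by
    intro y hy
    induction hy with
    | refl => exact ⟨[x], by simp, rfl, rfl, by simpa using h1⟩
    | @tail b d _ hadj ih =>
      obtain ⟨l, e1, e2, e3, e4⟩ := ih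
      refine ⟨l ++ [d.1], ?_, ?_, by simp, ?_⟩
      · rw [List.isChain_append]
        refine ⟨e1, by simp, ?_⟩
        intro u hu v hv
        rw [e3] at hu
        simp only [List.head?_cons, Option.mem_def, Option.some.injEq] at hu hv
        subst hu; subst hv
        exact hadj
      · rw [List.head?_append, e2]; rfl
      · intro v hv
        rcases List.mem_append.1 hv with h | h
        · exact e4 v h
        · rw [List.mem_singleton.1 h]; exact d.2
  exact key ⟨y, h2⟩ h3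

/-- many ties over a fixed finite set -/
theorem ties_Z {G : SimpleGraph V} (Z : Finset V) {a k n : ℕ} (T : ℕ → Set V)
    (hn : 2 ^ Z.card * k < n)
    (hc : ∀ t < n, (G.induce (T t)).Connected)
    (hd : ∀ t < n, ∀ t' < n, t ≠ t' → Disjoint (T t) (T t'))
    (hz : ∀ t < n, ∀ z ∈ Z, z ∉ T t)
    (hA : ∀ t < n, ∃ A ⊆ Z, A.card = a ∧ ∀ z ∈ A, ∃ v ∈ T t, G.Adj z v) : HasK G a k := by
  classical
  have hA' : ∀ t, ∃ A : Finset V, t < n → A ⊆ Z ∧ A.card = a ∧ ∀ z ∈ A, ∃ v ∈ T t, G.Adj z v := by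
    intro t
    by_cases ht : t < n
    · obtain ⟨A, h1, h2, h3⟩ := hA t ht
      exact ⟨A, fun _ => ⟨h1, h2, h3⟩⟩
    · exact ⟨∅, fun h => absurd h ht⟩
  choose A hA' using hA'
  have hmaps : ∀ t ∈ Finset.range n, A t ∈ Z.powerset := by
    intro t ht
    rw [Finset.mem_powerset]
    exact (hA' t (Finset.mem_range.1 ht)).1
  obtain ⟨S, -, hS⟩ := Finset.exists_lt_card_fiber_of_mul_lt_card_of_maps_to hmaps
    (n := k) (by rw [Finset.card_powerset, Finset.card_range]; exact hn)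
  set F := (Finset.range n).filter fun t => A t = S with hF
  have hmem : ∀ t ∈ F, t < n ∧ A t = S := by
    intro t ht
    rw [hF, Finset.mem_filter, Finset.mem_range] at ht
    exact ht
  obtain ⟨t₀, ht₀⟩ : F.Nonempty := Finset.card_pos.1 (by omega)
  have hSZ : S ⊆ Z := by
    rw [← (hmem t₀ ht₀).2]
    exact (hA' t₀ (hmem t₀ ht₀).1).1
  have hScard : S.card = a := by
    rw [← (hmem t₀ ht₀).2]
    exact (hA' t₀ (hmem t₀ ht₀).1).2.1
  obtain ⟨g, hg⟩ : ∃ g : Fin k → ℕ, Function.Injective g ∧ ∀ i, g i ∈ F := by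
    obtain ⟨S', h1, h2⟩ := Finset.exists_subset_card_eq (s := F) (n := k) (by omega)
    refine ⟨fun i => (S'.equivFinOfCardEq h2).symm i, ?_, fun i => h1 (Finset.coe_mem _)⟩
    intro i j hij
    exact (S'.equivFinOfCardEq h2).symm.injective (Subtype.ext hij)
  let f : Fin a → V := fun i => (S.equivFinOfCardEq hScard).symm i
  have hf1 : Function.Injective f := fun i j hij =>
    (S.equivFinOfCardEq hScard).symm.injective (Subtype.ext hij)
  have hf2 : ∀ i, f i ∈ S := fun i => Finset.coe_mem _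
  refine hasK_of (fun i => {f i}) (fun j => T (g j)) (fun i => conn_singleton _)
    (fun j => hc _ (hmem _ (hg.2 j)).1) ?_ ?_ ?_ ?_
  · intro i i' hne
    rw [Set.disjoint_singleton]
    exact fun h => hne (hf1 h)
  · intro j j' hne
    exact hd _ (hmem _ (hg.2 j)).1 _ (hmem _ (hg.2 j')).1 fun h => hne (hg.1 h)
  · intro i j
    rw [Set.disjoint_singleton_left]
    exact hz _ (hmem _ (hg.2 j)).1 _ (hSZ (hf2 i))
  · intro i j
    obtain ⟨h1, h2⟩ := hmem _ (hg.2 j)
    obtain ⟨v, hv, hv'⟩ := (hA' _ h1).2.2 (f i) (by rw [h2]; exact hf2 i)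
    exact ⟨f i, rfl, v, hv, hv'⟩

/-- assembling a minor from consecutive cells -/
theorem assemble {G : SimpleGraph V} {ι : Type*} [Fintype ι] {a k : ℕ} (hι : Fintype.card ι = a)
    (α : ℕ → ι → V) (I : ℕ → Set V) (H : ℕ → ι → Set V) (W : ℕ → Set V)
    (h1 : ∀ t < k, ∀ x, (G.induce (H t x)).Connected)
    (h2 : ∀ t < k, ∀ x, α t x ∈ H t x ∧ α (t + 1) x ∈ H t x)
    (h3 : ∀ t < k, ∀ x, ∀ v ∈ H t x, v = α t x ∨ v = α (t + 1) x ∨ v ∈ I t)
    (h4 : ∀ t < k, (G.induce (W t)).Connected ∧ W t ⊆ I t)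
    (h5 : ∀ t < k, ∀ x y, x ≠ y → Disjoint (H t x) (H t y))
    (h6 : ∀ t < k, ∀ x, Disjoint (H t x) (W t) ∧ ∃ u ∈ H t x, ∃ v ∈ W t, G.Adj u v)
    (h7 : ∀ t < k, ∀ t' < k, t ≠ t' → Disjoint (I t) (I t'))
    (h8 : ∀ t ≤ k, ∀ t' < k, ∀ x, α t x ∉ I t')
    (h9 : ∀ t ≤ k, ∀ t' ≤ k, ∀ x y, α t x = α t' y → x = y) : HasK G a k := by
  classical
  let e := Fintype.equivFinOfCardEq hι
  let R : ι → Set V := fun x => {α 0 x} ∪ {v | ∃ t < k, v ∈ H t x}
  have hR : ∀ x, (G.induce (R x)).Connected := by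
    intro x
    refine conn_of_RI (c := α 0 x) (Or.inl rfl) ?_
    have key : ∀ t ≤ k, RI G (R x) (α 0 x) (α t x) := by
      intro t
      induction t with
      | zero => intro _; exact RI.refl (Or.inl rfl)
      | succ t ih =>
        intro ht
        refine (ih (by omega)).trans ?_
        exact (RI_of_conn (h1 t (by omega) x) (h2 t (by omega) x).1 (h2 t (by omega) x).2).mono
          fun v hv => Or.inr ⟨t, by omega, hv⟩
    rintro v (hv | ⟨t, ht, hv⟩)
    · rw [Set.mem_singleton_iff.1 hv]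
      exact RI.refl (Or.inl rfl)
    · refine (key t ht.le).trans ?_
      exact (RI_of_conn (h1 t ht x) (h2 t ht x).1 hv).mono fun v hv => Or.inr ⟨t, ht, hv⟩
  -- every vertex of a rail is an anchor or lies in a cell
  have hRm : ∀ x, ∀ v ∈ R x, (∃ t ≤ k, v = α t x) ∨ ∃ t < k, v ∈ H t x ∧ v ∈ I t := by
    rintro x v (hv | ⟨t, ht, hv⟩)
    · exact Or.inl ⟨0, by omega, hv⟩
    · rcases h3 t ht x v hv with h | h | h
      · exact Or.inl ⟨t, ht.le, h⟩
      · exact Or.inl ⟨t + 1, ht, h⟩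
      · exact Or.inr ⟨t, ht, hv, h⟩
  have heq : ∀ t < k, ∀ t' < k, ∀ v, v ∈ I t → v ∈ I t' → t = t' := by
    intro t ht t' ht' v hv hv'
    by_contra hne
    exact Set.disjoint_left.1 (h7 t ht t' ht' hne) hv hv'
  refine hasK_of (fun i => R (e.symm i)) (fun j => W j) (fun i => hR _)
    (fun j => (h4 j j.2).1) ?_ ?_ ?_ ?_
  · intro i i' hne
    have hne' : e.symm i ≠ e.symm i' := fun h => hne (e.symm.injective h)
    rw [Set.disjoint_left]
    intro v hv hv'
    rcases hRm _ v hv with ⟨t, ht, rfl⟩ | ⟨t, ht, hv1, hv2⟩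
    · rcases hRm _ _ hv' with ⟨t', ht', h⟩ | ⟨t', ht', -, hv2'⟩
      · exact hne' (h9 t ht t' ht' _ _ h)
      · exact h8 t ht t' ht' _ hv2'
    · rcases hRm _ v hv' with ⟨t', ht', h⟩ | ⟨t', ht', hv1', hv2'⟩
      · rw [h] at hv2
        exact h8 t' ht' t ht _ hv2
      · have := heq t ht t' ht' v hv2 hv2'
        subst this
        exact Set.disjoint_left.1 (h5 t ht _ _ hne') hv1 hv1'
  · intro j j' hne
    refine Set.disjoint_of_subset (h4 j j.2).2 (h4 j' j'.2).2 (h7 j j.2 j' j'.2 ?_)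
    exact fun h => hne (Fin.ext h)
  · intro i j
    rw [Set.disjoint_left]
    intro v hv hv'
    have hvI := (h4 j j.2).2 hv'
    rcases hRm _ v hv with ⟨t, ht, rfl⟩ | ⟨t, ht, hv1, hv2⟩
    · exact h8 t ht j j.2 _ hvI
    · have := heq t ht j j.2 v hv2 hvI
      subst this
      exact Set.disjoint_left.1 (h6 j ht _).1 hv1 hv'
  · intro i j
    obtain ⟨u, hu, v, hv, huv⟩ := (h6 j j.2 (e.symm i)).2
    exact ⟨u, Or.inr ⟨j, j.2, hu⟩, v, hv, huv⟩

end TWk
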