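import Pool.Agent.Lib.MP_cfc9ed_co.D1

/-!
# MP_cfc9ed_co: dense graphs contain many disjoint connected sets with many common neighbours
-/

set_option autoImplicit false

namespace TWk

open SimpleGraph Relation

variable {V : Type*}

open Classical in
/-- degree of `v` inside `W` -/
noncomputable def dW (G : SimpleGraph V) (W : Finset V) (v : V) : ℕ :=
  (W.filter fun u => G.Adj v u).card

/-- twice the number of edges inside `W` -/
noncomputable def sg (G : SimpleGraph V) (W : Finset V) : ℕ := ∑ v ∈ W, dW G W v

open Classical in
theorem sg_erase (G : SimpleGraph V) {S : Finset V} {y : V} (hy : y ∈ S) :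
    sg G S = sg G (S.erase y) + 2 * dW G S y := by
  unfold sg
  rw [← Finset.add_sum_erase S _ hy]
  have h1 : ∀ v ∈ S.erase y, dW G S v = dW G (S.erase y) v + if G.Adj v y then 1 else 0 := by
    intro v _
    unfold dW
    split_ifs with h
    · have : (S.filter fun u => G.Adj v u) = insert y ((S.erase y).filter fun u => G.Adj v u) := by
        ext u
        simp only [Finset.mem_filter, Finset.mem_insert, Finset.mem_erase]
        constructor
        · rintro ⟨h1, h2⟩
          by_cases h3 : u = y
          · exact Or.inl h3
          · exact Or.inr ⟨⟨h3, h1⟩, h2⟩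
        · rintro (rfl | ⟨⟨-, h1⟩, h2⟩)
          · exact ⟨hy, h⟩
          · exact ⟨h1, h2⟩
      rw [this, Finset.card_insert_of_notMem (by simp)]
    · have : (S.filter fun u => G.Adj v u) = ((S.erase y).filter fun u => G.Adj v u) := by
        ext u
        simp only [Finset.mem_filter, Finset.mem_erase]
        constructor
        · rintro ⟨h1, h2⟩
          refine ⟨⟨?_, h1⟩, h2⟩
          rintro rfl
          exact h h2
        · rintro ⟨⟨-, h1⟩, h2⟩
          exact ⟨h1, h2⟩
      rw [this, add_zero]
  rw [Finset.sum_congr rfl h1, Finset.sum_add_distrib]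
  have h2 : (∑ v ∈ S.erase y, if G.Adj v y then 1 else 0) = dW G S y := by
    rw [← Finset.card_filter]
    unfold dW
    congr 1
    ext u
    simp only [Finset.mem_filter, Finset.mem_erase]
    constructor
    · rintro ⟨⟨-, h1⟩, h2⟩
      exact ⟨h1, h2.symm⟩
    · rintro ⟨h1, h2⟩
      exact ⟨⟨h2.ne', h1⟩, h2.symm⟩
  rw [h2]
  ring

open Classical in
/-- neighbours of `U` in `W` -/
noncomputable def nU (G : SimpleGraph V) (W U : Finset V) : Finset V :=
  (W \ U).filter fun v => ∃ u ∈ U, G.Adj u v

open Classical in
theorem mem_nU {G : SimpleGraph V} {W U : Finset V} {v : V} :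
    v ∈ nU G W U ↔ (v ∈ W ∧ v ∉ U) ∧ ∃ u ∈ U, G.Adj u v := by
  unfold nU
  rw [Finset.mem_filter, Finset.mem_sdiff]

open Classical in
theorem mader (G : SimpleGraph V) {c : ℕ} (hc : 1 ≤ c) : ∀ (n : ℕ) (W : Finset V), W.card = n →
    W.Nonempty → 2 * c * W.card ≤ sg G W → ∃ U N : Finset V, U ⊆ W ∧ N ⊆ W ∧ Disjoint U N ∧
      (G.induce (U : Set V)).Connected ∧ N.Nonempty ∧ (∀ v ∈ N, ∃ u ∈ U, G.Adj u v) ∧
      ∀ v ∈ N, c ≤ dW G N v := by
  intro n
  induction n using Nat.strong_induction_on with
  | _ n ih =>
    intro W hWn hW hsg
    let Good : Finset V → Prop := fun U => U ⊆ W ∧ (G.induce (U : Set V)).Connected ∧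
      2 * c * ((W \ U).card + 1) ≤ sg G (W \ U) + 2 * (nU G W U).card
    obtain ⟨v₀, hv₀⟩ := hW
    have hstart : Good {v₀} := by
      refine ⟨by simpa using hv₀, ?_, ?_⟩
      · rw [Finset.coe_singleton]; exact conn_singleton v₀
      · have h1 : W \ {v₀} = W.erase v₀ := by rw [Finset.sdiff_singleton_eq_erase]
        have h2 : (nU G W {v₀}).card = dW G W v₀ := by
          unfold dW
          congr 1
          ext u
          rw [mem_nU, Finset.mem_filter]
          constructor
          · rintro ⟨⟨h3, -⟩, w, h4, h5⟩
            rw [Finset.mem_singleton.1 h4] at h5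
            exact ⟨h3, h5⟩
          · rintro ⟨h3, h4⟩
            exact ⟨⟨h3, by rw [Finset.mem_singleton]; exact h4.ne'⟩, v₀, by simp, h4⟩
        rw [h1, h2, Finset.card_erase_of_mem hv₀, ← sg_erase G hv₀]
        have h3 : 0 < W.card := Finset.card_pos.2 ⟨v₀, hv₀⟩
        rw [Nat.sub_add_cancel h3]
        exact hsg
    obtain ⟨U, hU, hmax⟩ := Finset.exists_max_image ((W.powerset).filter Good) Finset.card
      ⟨{v₀}, Finset.mem_filter.2 ⟨Finset.mem_powerset.2 hstart.1, hstart⟩⟩
    have hUg : Good U := (Finset.mem_filter.1 hU).2
    obtain ⟨hUW, hUc, hUs⟩ := hUg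
    by_cases hN : (nU G W U).Nonempty
    · refine ⟨U, nU G W U, hUW, ?_, ?_, hUc, hN, ?_, ?_⟩
      · intro v hv
        exact (mem_nU.1 hv).1.1
      · rw [Finset.disjoint_left]
        intro v hv hv'
        exact (mem_nU.1 hv').1.2 hv
      · intro v hv
        exact (mem_nU.1 hv).2
      · intro y hy
        obtain ⟨⟨hyW, hyU⟩, u, hu, huy⟩ := mem_nU.1 hy
        by_contra hcon
        push Not at hcon
        have hcon' : Good (insert y U) := by
          refine ⟨Finset.insert_subset hyW hUW, ?_, ?_⟩
          · have : ((insert y U : Finset V) : Set V) = {y} ∪ (U : Set V) := by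
              ext v; simp
            rw [this]
            exact conn_union (conn_singleton y) hUc (u := y) (v := u) rfl hu (Or.inr huy.symm)
          · have e1 : W \ insert y U = (W \ U).erase y := by
              ext v
              simp only [Finset.mem_sdiff, Finset.mem_insert, Finset.mem_erase]
              tauto
            have hyS : y ∈ W \ U := Finset.mem_sdiff.2 ⟨hyW, hyU⟩
            have e2 := sg_erase G hyS
            have e3 : (nU G W U).card + dW G (W \ U) y ≤
                (nU G W (insert y U)).card + 1 + dW G (nU G W U) y := by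
              -- `nU U ∪ N(y)` is contained in `nU (insert y U) ∪ {y}`
              have f1 : (nU G W U) ∪ ((W \ U).filter fun u => G.Adj y u) ⊆
                  insert y (nU G W (insert y U)) := by
                intro v hv
                rw [Finset.mem_insert, mem_nU]
                by_cases hvy : v = y
                · exact Or.inl hvy
                · right
                  rcases Finset.mem_union.1 hv with h | h
                  · obtain ⟨⟨g1, g2⟩, w, g3, g4⟩ := mem_nU.1 h
                    exact ⟨⟨g1, by simp [hvy, g2]⟩, w, by simp [g3], g4⟩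
                  · rw [Finset.mem_filter, Finset.mem_sdiff] at h
                    exact ⟨⟨h.1.1, by simp [hvy, h.1.2]⟩, y, by simp, h.2⟩
              have f2 : (nU G W U) ∩ ((W \ U).filter fun u => G.Adj y u) =
                  (nU G W U).filter fun u => G.Adj y u := by
                ext v
                simp only [Finset.mem_inter, Finset.mem_filter, mem_nU, Finset.mem_sdiff]
                tauto
              have f3 := Finset.card_union_add_card_inter (nU G W U)
                ((W \ U).filter fun u => G.Adj y u)
              rw [f2] at f3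
              have f4 := (Finset.card_le_card f1).trans (Finset.card_insert_le _ _)
              show (nU G W U).card + ((W \ U).filter fun u => G.Adj y u).card ≤
                (nU G W (insert y U)).card + 1 + ((nU G W U).filter fun u => G.Adj y u).card
              omega
            have e4 : ((W \ U).erase y).card + 1 = (W \ U).card := by
              rw [Finset.card_erase_of_mem hyS]
              have : 0 < (W \ U).card := Finset.card_pos.2 ⟨y, hyS⟩
              omega
            rw [e1]
            rw [e4]
            rw [mul_add, mul_one] at hUs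
            omega
        have h1 := hmax (insert y U) (Finset.mem_filter.2
          ⟨Finset.mem_powerset.2 hcon'.1, hcon'⟩)
        rw [Finset.card_insert_of_notMem hyU] at h1
        omega
    · rw [Finset.not_nonempty_iff_eq_empty] at hN
      rw [hN, Finset.card_empty, mul_zero, add_zero] at hUs
      have hUne : U.Nonempty := by
        obtain ⟨⟨x, hx⟩⟩ := hUc.nonempty
        exact ⟨x, hx⟩
      have hne : (W \ U).Nonempty := by
        rw [Finset.nonempty_iff_ne_empty]
        intro h
        rw [h] at hUs
        unfold sg at hUs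
        rw [Finset.sum_empty, Finset.card_empty] at hUs
        omega
      have hlt : (W \ U).card < n := by
        rw [← hWn]
        have h1 := Finset.card_sdiff_of_subset hUW
        have h2 := Finset.card_pos.2 hUne
        have h3 := Finset.card_le_card hUW
        omega
      obtain ⟨U', N', g1, g2, g3⟩ := ih _ hlt (W \ U) rfl hne (by
        refine le_trans ?_ hUs
        exact Nat.mul_le_mul_left _ (by omega))
      exact ⟨U', N', g1.trans Finset.sdiff_subset, g2.trans Finset.sdiff_subset, g3⟩

/-- the gadget -/
theorem gadget (G : SimpleGraph V) {c : ℕ} (hc : 1 ≤ c) : ∀ (N : ℕ) (W : Finset V), W.Nonempty →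
    2 ^ (N + 1) * c * W.card ≤ sg G W → ∃ (X : Finset V) (U : ℕ → Finset V), X ⊆ W ∧
      2 * c + 1 ≤ X.card ∧ (∀ i < N, U i ⊆ W ∧ (G.induce (U i : Set V)).Connected ∧
        Disjoint (U i) X ∧ ∀ x ∈ X, ∃ u ∈ U i, G.Adj u x) ∧
      ∀ i < N, ∀ j < N, i ≠ j → Disjoint (U i) (U j) := by
  classical
  intro N
  induction N with
  | zero =>
    intro W hW hsg
    refine ⟨W, fun _ => ∅, subset_rfl, ?_, by simp, by simp⟩
    rw [zero_add, pow_one] at hsg
    obtain ⟨v, hv, hv'⟩ : ∃ v ∈ W, 2 * c ≤ dW G W v := by
      by_contra hcon
      push Not at hcon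
      have h1 : sg G W < ∑ _v ∈ W, 2 * c := Finset.sum_lt_sum_of_nonempty hW hcon
      rw [Finset.sum_const, smul_eq_mul, mul_comm] at h1
      omega
    have h1 : (W.filter fun u => G.Adj v u) ⊆ W.erase v := by
      intro u hu
      rw [Finset.mem_filter] at hu
      exact Finset.mem_erase.2 ⟨hu.2.ne', hu.1⟩
    have h2 := Finset.card_le_card h1
    rw [Finset.card_erase_of_mem hv] at h2
    have h3 : 2 * c ≤ (W.filter fun u => G.Adj v u).card := by
      unfold dW at hv'
      convert hv'
    omega
  | succ N ih =>
    intro W hW hsg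
    have hc' : 1 ≤ 2 ^ (N + 1) * c := Nat.mul_pos (by positivity) hc
    obtain ⟨U₀, N', h1, h2, h3, h4, h5, h6, h7⟩ := mader G hc' _ W rfl hW (by
      refine le_trans (le_of_eq ?_) hsg
      rw [pow_succ]
      ring)
    have hsg' : 2 ^ (N + 1) * c * N'.card ≤ sg G N' := by
      unfold sg
      rw [mul_comm, ← smul_eq_mul]
      exact Finset.card_nsmul_le_sum _ _ _ h7
    obtain ⟨X, U, k1, k2, k3, k4⟩ := ih N' h5 hsg'
    refine ⟨X, fun i => Nat.rec U₀ (fun n _ => U n) i, k1.trans h2, k2, ?_, ?_⟩
    · intro i hi
      cases i with
      | zero => exact ⟨h1, h4, Finset.disjoint_of_subset_right k1 h3, fun x hx => h6 x (k1 hx)⟩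
      | succ i =>
        obtain ⟨m1, m2, m3, m4⟩ := k3 i (by omega)
        exact ⟨m1.trans h2, m2, m3, m4⟩
    · intro i hi j hj hij
      cases i with
      | zero =>
        cases j with
        | zero => exact absurd rfl hij
        | succ j => exact Finset.disjoint_of_subset_right (k3 j (by omega)).1 h3
      | succ i =>
        cases j with
        | zero => exact (Finset.disjoint_of_subset_right (k3 i (by omega)).1 h3).symm
        | succ j => exact k4 i (by omega) j (by omega) (by omega)

end TWk
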