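import Pool.Agent.Lib.MP_cfc9ed_co.D1
import Pool.Agent.Lib.MP_cfc9ed_co.D2
import Pool.Agent.Lib.MP_699f60_co.Menger

section

/-!
# MP_cfc9ed_co: strips

A strip of length `m` over the finite set `Z`: an increasing sequence of sets `O 0, ..., O m` and
disjoint cuts `M 0, ..., M m`; the region between two cuts is attached to the rest of the graph only
at these cuts and at `Z`.
-/

set_option autoImplicit false

namespace TWk

open SimpleGraph Relation

variable {V : Type*}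

structure Strip (G : SimpleGraph V) (Z : Finset V) (m : ℕ) (O : ℕ → Set V) (M : ℕ → Finset V) :
    Prop where
  disj : ∀ i ≤ m, ∀ v ∈ M i, v ∉ O i
  nest : ∀ i < m, ∀ v, v ∈ O i ∨ v ∈ M i → v ∈ O (i + 1)
  zd : ∀ z ∈ Z, z ∉ O m ∧ z ∉ M m
  sep : ∀ j ≤ m, ∀ v w, v ∈ O j → v ∉ O 0 → w ∉ O 0 → (w ∈ O m ∨ w ∈ M m) → G.Adj v w →
    w ∈ O j ∨ w ∈ M j
  bd : ∀ v w, v ∈ O m → v ∉ O 0 → v ∉ M 0 → G.Adj v w → w ∉ Z → (w ∈ O m ∨ w ∈ M m) ∧ w ∉ O 0
  ne : ∀ i < m, ∃ v, v ∈ O (i + 1) ∧ v ∉ O i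

/-- closed region between two cuts -/
def Rg (O : ℕ → Set V) (M : ℕ → Finset V) (i j : ℕ) : Set V :=
  {v | (v ∈ O j ∨ v ∈ M j) ∧ v ∉ O i}

/-- open region between two cuts -/
def Rn (O : ℕ → Set V) (M : ℕ → Finset V) (i j : ℕ) : Set V :=
  {v | v ∈ O j ∧ v ∉ O i ∧ v ∉ M i}

/-- the two cuts cannot be separated by fewer than `p` vertices -/
def PC (G : SimpleGraph V) (O : ℕ → Set V) (M : ℕ → Finset V) (i j p : ℕ) : Prop :=
  ∀ X : Finset V, X.card < p → ∃ x ∈ M i, ∃ y ∈ M j, RI G (Rg O M i j \ (X : Set V)) x y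

section

variable {G : SimpleGraph V} {Z : Finset V} {m : ℕ} {O : ℕ → Set V} {M : ℕ → Finset V}

theorem Strip.O_mono (S : Strip G Z m O M) {i j : ℕ} (hij : i ≤ j) (hj : j ≤ m) {v : V}
    (h : v ∈ O i) : v ∈ O j := by
  induction j, hij using Nat.le_induction with
  | base => exact h
  | succ j hij ih => exact S.nest j (by omega) v (Or.inl (ih (by omega)))

theorem Strip.M_O (S : Strip G Z m O M) {i j : ℕ} (hij : i < j) (hj : j ≤ m) {v : V}
    (h : v ∈ M i) : v ∈ O j :=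
  S.O_mono (i := i + 1) hij hj (S.nest i (by omega) v (Or.inr h))

theorem Strip.OM (S : Strip G Z m O M) {i j : ℕ} (hij : i ≤ j) (hj : j ≤ m) {v : V}
    (h : v ∈ O i ∨ v ∈ M i) : v ∈ O j ∨ v ∈ M j := by
  rcases Nat.eq_or_lt_of_le hij with h1 | h1
  · rw [← h1]; exact h
  · left
    rcases h with h | h
    · exact S.O_mono hij hj h
    · exact S.M_O h1 hj h

theorem Strip.OM_lt (S : Strip G Z m O M) {i j : ℕ} (hij : i < j) (hj : j ≤ m) {v : V}
    (h : v ∈ O i ∨ v ∈ M i) : v ∈ O j := by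
  rcases h with h | h
  · exact S.O_mono hij.le hj h
  · exact S.M_O hij hj h

theorem Strip.Rn_sub (S : Strip G Z m O M) {i j : ℕ} : Rn O M i j ⊆ Rg O M i j :=
  fun _ h => ⟨Or.inl h.1, h.2.1⟩

theorem Strip.Rg_mono (S : Strip G Z m O M) {i j i' j' : ℕ} (hi : i' ≤ i) (him : i ≤ m)
    (hj : j ≤ j') (hjm : j' ≤ m) : Rg O M i j ⊆ Rg O M i' j' :=
  fun _ h => ⟨S.OM hj hjm h.1, fun h' => h.2 (S.O_mono hi him h')⟩

theorem Strip.Rg_disj (S : Strip G Z m O M) {i j i' j' : ℕ} (h : j < i') (hi : i' ≤ m) {v : V}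
    (h1 : v ∈ Rg O M i j) (h2 : v ∈ Rg O M i' j') : False :=
  h2.2 (S.OM_lt h hi h1.1)

theorem Strip.M_Rg (S : Strip G Z m O M) {i l j : ℕ} (hil : i ≤ l) (hlj : l ≤ j) (hj : j ≤ m)
    {v : V} (h : v ∈ M l) : v ∈ Rg O M i j :=
  ⟨S.OM hlj hj (Or.inr h), fun h' => S.disj l (by omega) v h (S.O_mono hil (by omega) h')⟩

theorem Strip.M_Rn (S : Strip G Z m O M) {i l j : ℕ} (hil : i < l) (hlj : l < j) (hj : j ≤ m)
    {v : V} (h : v ∈ M l) : v ∈ Rn O M i j :=
  ⟨S.M_O hlj hj h, fun h' => S.disj l (by omega) v h (S.O_mono hil.le (by omega) h'),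
    fun h' => S.disj l (by omega) v h (S.M_O hil (by omega) h')⟩

theorem Strip.M_disj (S : Strip G Z m O M) {i j : ℕ} (hi : i ≤ m) (hj : j ≤ m) {v : V}
    (h : v ∈ M i) (h' : v ∈ M j) : i = j := by
  rcases lt_trichotomy i j with h1 | h1 | h1
  · exact absurd (S.M_O h1 hj h) (S.disj j hj v h')
  · exact h1
  · exact absurd (S.M_O h1 hi h') (S.disj i hi v h)

theorem Strip.z_not (S : Strip G Z m O M) {i j : ℕ} (hj : j ≤ m) {z : V} (hz : z ∈ Z) :
    z ∉ Rg O M i j := by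
  intro h
  rcases S.OM hj le_rfl h.1 with h1 | h1
  · exact (S.zd z hz).1 h1
  · exact (S.zd z hz).2 h1

/-- the open region is attached only to the two cuts and to `Z` -/
theorem Strip.adjR (S : Strip G Z m O M) {i j : ℕ} (hij : i ≤ j) (hj : j ≤ m) {v w : V}
    (hv : v ∈ Rn O M i j) (hvw : G.Adj v w) (hw : w ∉ Z) : w ∈ Rg O M i j := by
  obtain ⟨h1, h2, h3⟩ := hv
  have h0 : v ∉ O 0 := fun h => h2 (S.O_mono (Nat.zero_le i) (by omega) h)
  have hM0 : v ∉ M 0 := by
    intro h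
    rcases Nat.eq_zero_or_pos i with h4 | h4
    · rw [h4] at h3; exact h3 h
    · exact h2 (S.M_O h4 (by omega) h)
  have hvm := S.O_mono hj le_rfl h1
  obtain ⟨h5, h6⟩ := S.bd v w hvm h0 hM0 hvw hw
  refine ⟨S.sep j hj v w h1 h0 h6 h5 hvw, fun h7 => ?_⟩
  rcases S.sep i (by omega) w v h7 h6 h0 (Or.inl hvm) hvw.symm with h8 | h8
  · exact h2 h8
  · exact h3 h8

theorem Strip.sub (S : Strip G Z m O M) {m' : ℕ} (f : ℕ → ℕ) (hf : StrictMono f)
    (hm : f m' ≤ m) : Strip G Z m' (fun i => O (f i)) fun i => M (f i) := by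
  have hle : ∀ i ≤ m', f i ≤ m := fun i hi => (hf.monotone hi).trans hm
  have h0 : ∀ v, v ∉ O (f 0) → v ∉ O 0 := fun v h h' =>
    h (S.O_mono (Nat.zero_le _) (hle 0 (Nat.zero_le _)) h')
  refine ⟨fun i hi => S.disj _ (hle i hi), fun i hi v hv => ?_, fun z hz => ⟨fun h => ?_, fun h => ?_⟩,
    fun j hj v w h1 h2 h3 h4 h5 => ?_, fun v w h1 h2 h3 h4 h5 => ?_, fun i hi => ?_⟩
  · exact S.OM_lt (hf (Nat.lt_succ_self i)) (hle _ hi) hv
  · exact (S.zd z hz).1 (S.O_mono hm le_rfl h)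
  · rcases S.OM hm le_rfl (Or.inr h) with h1 | h1
    · exact (S.zd z hz).1 h1
    · exact (S.zd z hz).2 h1
  · exact S.sep _ (hle j hj) v w h1 (h0 v h2) (h0 w h3) (S.OM hm le_rfl h4) h5
  · exact S.adjR (hf.monotone (Nat.zero_le _)) hm ⟨h1, h2, h3⟩ h4 h5
  · obtain ⟨v, h1, h2⟩ := S.ne (f i) (lt_of_lt_of_le (hf (Nat.lt_succ_self i)) (hle _ hi))
    exact ⟨v, S.O_mono (hf (Nat.lt_succ_self i)) (hle _ hi) h1, h2⟩

theorem PC.sub (S : Strip G Z m O M) {p : ℕ} (h : PC G O M 0 m p) {i j : ℕ} (hij : i ≤ j)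
    (hj : j ≤ m) : PC G O M i j p := by
  intro X hX
  by_contra hcon
  push Not at hcon
  obtain ⟨x₀, hx₀, y₀, hy₀, hr⟩ := h X hX
  have hmem : ∀ x v, RI G (Rg O M i j \ (X : Set V)) x v → v ∈ Rg O M i j \ (X : Set V) :=
    fun x v h => h.2.1
  have h1 : y₀ ∈ {v | v ∈ O i ∨ ∃ x ∈ M i, RI G (Rg O M i j \ (X : Set V)) x v} := by
    refine hr.closed ?_ ?_
    · rcases Nat.eq_zero_or_pos i with h4 | h4
      · right
        refine ⟨x₀, h4 ▸ hx₀, RI.refl ⟨S.M_Rg (l := 0) (by omega) (by omega) hj hx₀, ?_⟩⟩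
        obtain ⟨h5, -, -⟩ := hr
        exact h5.2
      · exact Or.inl (S.M_O h4 (by omega) hx₀)
    · rintro v (hv | ⟨x, hx, hv⟩) hvR w hwR hvw
      · rcases S.sep i (by omega) v w hv hvR.1.2 hwR.1.2 hwR.1.1 hvw with h5 | h5
        · exact Or.inl h5
        · exact Or.inr ⟨w, h5, RI.refl ⟨S.M_Rg le_rfl hij hj h5, hwR.2⟩⟩
      · have hvM : v ∉ M j := fun h => hcon x hx v h hv
        have hvO : v ∈ O j := (hmem x v hv).1.1.resolve_right hvM
        by_cases hwi : w ∈ O i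
        · exact Or.inl hwi
        · right
          refine ⟨x, hx, hv.trans (RI.adj (hmem x v hv) ⟨⟨?_, hwi⟩, hwR.2⟩ hvw)⟩
          exact S.sep j hj v w hvO hvR.1.2 hwR.1.2 hwR.1.1 hvw
  have hyO : y₀ ∉ O m := S.disj m le_rfl y₀ hy₀
  rcases h1 with h1 | ⟨x, hx, h1⟩
  · exact hyO (S.O_mono (by omega) le_rfl h1)
  · have h2 : y₀ ∈ O j := (hmem x y₀ h1).1.1.resolve_right fun h => hcon x hx y₀ h h1
    exact hyO (S.O_mono hj le_rfl h2)

theorem PC.card {p i j : ℕ} (h : PC G O M i j p) : p ≤ (M i).card := by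
  by_contra hcon
  push Not at hcon
  obtain ⟨x, hx, y, hy, h1, -, -⟩ := h (M i) hcon
  exact h1.2 (Finset.mem_coe.2 hx)

theorem PC.card' {p i j : ℕ} (h : PC G O M i j p) : p ≤ (M j).card := by
  by_contra hcon
  push Not at hcon
  obtain ⟨x, hx, y, hy, -, h1, -⟩ := h (M j) hcon
  exact h1.2 (Finset.mem_coe.2 hy)

/-- every track vertex is joined to every later cut -/
theorem PC.fwd [DecidableEq V] (S : Strip G Z m O M) {p i j : ℕ} (h : PC G O M i j p)
    (hM : (M i).card ≤ p) {x : V} (hx : x ∈ M i) : ∃ y ∈ M j, RI G (Rg O M i j) x y := by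
  obtain ⟨x', hx', y, hy, hr⟩ := h ((M i).erase x)
    (lt_of_lt_of_le (Finset.card_erase_lt_of_mem hx) hM)
  have : x' = x := by
    by_contra hne
    obtain ⟨h1, -, -⟩ := hr
    exact h1.2 (Finset.mem_coe.2 (Finset.mem_erase.2 ⟨hne, hx'⟩))
  subst this
  exact ⟨y, hy, hr.mono Set.sdiff_subset⟩

theorem PC.bwd [DecidableEq V] (S : Strip G Z m O M) {p i j : ℕ} (h : PC G O M i j p)
    (hM : (M j).card ≤ p) {y : V} (hy : y ∈ M j) : ∃ x ∈ M i, RI G (Rg O M i j) x y := by
  obtain ⟨x, hx, y', hy', hr⟩ := h ((M j).erase y)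
    (lt_of_lt_of_le (Finset.card_erase_lt_of_mem hy) hM)
  have : y' = y := by
    by_contra hne
    obtain ⟨-, h1, -⟩ := hr
    exact h1.2 (Finset.mem_coe.2 (Finset.mem_erase.2 ⟨hne, hy'⟩))
  subst this
  exact ⟨x, hx, hr.mono Set.sdiff_subset⟩

/-- the strip given by separators -/
theorem Strip.seps (S : Strip G Z m O M) {m' : ℕ} (α β : ℕ → ℕ) (X : ℕ → Finset V)
    (hαβ : ∀ t ≤ m', α t ≤ β t) (hβα : ∀ t < m', β t < α (t + 1)) (hβ : ∀ t ≤ m', β t ≤ m)
    (hX : ∀ t ≤ m', ∀ v ∈ X t, v ∈ Rg O M (α t) (β t))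
    (hsep : ∀ t ≤ m', ∀ x ∈ M (α t), ∀ y ∈ M (β t),
      ¬ RI G (Rg O M (α t) (β t) \ (X t : Set V)) x y) :
    Strip G Z m' (fun t => {v | v ∈ O (α t) ∨ ∃ x ∈ M (α t),
      RI G (Rg O M (α t) (β t) \ (X t : Set V)) x v}) X := by
  have hα : ∀ t ≤ m', α t ≤ m := fun t ht => (hαβ t ht).trans (hβ t ht)
  have hα0 : ∀ t ≤ m', ∀ v, v ∉ O (α t) → v ∉ O 0 := fun t ht v h h' =>
    h (S.O_mono (Nat.zero_le _) (hα t ht) h')
  -- (a)
  have ha : ∀ t ≤ m', ∀ v, (∃ x ∈ M (α t), RI G (Rg O M (α t) (β t) \ (X t : Set V)) x v) →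
      v ∈ O (β t) ∧ v ∉ O (α t) ∧ v ∉ X t := by
    rintro t ht v ⟨x, hx, hr⟩
    obtain ⟨-, h1, -⟩ := id hr
    exact ⟨h1.1.1.resolve_right fun h => hsep t ht x hx v h hr, h1.1.2, h1.2⟩
  -- (b)
  have hb : ∀ t ≤ m', ∀ v ∈ M (α t), v ∉ X t →
      ∃ x ∈ M (α t), RI G (Rg O M (α t) (β t) \ (X t : Set V)) x v := fun t ht v hv hvX =>
    ⟨v, hv, RI.refl ⟨S.M_Rg le_rfl (hαβ t ht) (hβ t ht) hv, hvX⟩⟩
  -- (c)
  have hc : ∀ t ≤ m', ∀ v, (v ∈ O (α t) ∨ ∃ x ∈ M (α t),
      RI G (Rg O M (α t) (β t) \ (X t : Set V)) x v) → v ∈ O (β t) := by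
    rintro t ht v (h | h)
    · exact S.O_mono (hαβ t ht) (hβ t ht) h
    · exact (ha t ht v h).1
  -- the core of `sep`
  have hcore : ∀ t ≤ m', ∀ v w, (v ∈ O (α t) ∨ ∃ x ∈ M (α t),
      RI G (Rg O M (α t) (β t) \ (X t : Set V)) x v) → v ∉ O 0 → w ∉ O 0 →
      (w ∈ O m ∨ w ∈ M m) → G.Adj v w → (w ∈ O (α t) ∨ ∃ x ∈ M (α t),
      RI G (Rg O M (α t) (β t) \ (X t : Set V)) x w) ∨ w ∈ X t := by
    intro t ht v w hv hv0 hw0 hwm hvw
    by_cases hwX : w ∈ X t
    · exact Or.inr hwX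
    left
    by_cases hwα : w ∈ O (α t)
    · exact Or.inl hwα
    right
    rcases hv with hv | hv
    · rcases S.sep _ (hα t ht) v w hv hv0 hw0 hwm hvw with h | h
      · exact absurd h hwα
      · exact hb t ht w h hwX
    · obtain ⟨h1, h2, h3⟩ := ha t ht v hv
      obtain ⟨x, hx, hr⟩ := hv
      refine ⟨x, hx, hr.trans (RI.adj ⟨⟨Or.inl h1, h2⟩, h3⟩ ⟨⟨?_, hwα⟩, hwX⟩ hvw)⟩
      exact S.sep _ (hβ t ht) v w h1 hv0 hw0 hwm hvw
  refine ⟨?_, ?_, ?_, ?_, ?_, ?_⟩
  · rintro t ht v hv (h | h)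
    · exact (hX t ht v hv).2 h
    · exact (ha t ht v h).2.2 hv
  · rintro t ht v (h | h)
    · exact Or.inl (S.O_mono (hβα t ht).le (hα _ ht) (hc t ht.le v h))
    · exact Or.inl (S.OM_lt (hβα t ht) (hα _ ht) (hX t ht.le v h).1)
  · intro z hz
    refine ⟨fun h => ?_, fun h => ?_⟩
    · exact (S.zd z hz).1 (S.O_mono (hβ m' le_rfl) le_rfl (hc m' le_rfl z h))
    · rcases S.OM (hβ m' le_rfl) le_rfl (hX m' le_rfl z h).1 with h1 | h1
      · exact (S.zd z hz).1 h1
      · exact (S.zd z hz).2 h1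
  · intro t ht v w h1 h2 h3 h4 h5
    refine hcore t ht v w h1 ?_ ?_ ?_ h5
    · exact hα0 0 (Nat.zero_le _) v fun h => h2 (Or.inl h)
    · exact hα0 0 (Nat.zero_le _) w fun h => h3 (Or.inl h)
    · rcases h4 with h4 | h4
      · exact Or.inl (S.O_mono (hβ m' le_rfl) le_rfl (hc m' le_rfl w h4))
      · exact S.OM (hβ m' le_rfl) le_rfl (hX m' le_rfl w h4).1
  · intro v w h1 h2 h3 h4 h5
    have hv0 : v ∉ O (α 0) := fun h => h2 (Or.inl h)
    have hvM : v ∉ M (α 0) := fun h => h2 (Or.inr (hb 0 (Nat.zero_le _) v h h3))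
    have hvβ := hc m' le_rfl v h1
    have hαβ' : ∀ t ≤ m', α 0 ≤ β t := by
      intro t
      induction t with
      | zero => intro _; exact hαβ 0 (Nat.zero_le _)
      | succ t ih =>
        intro ht
        exact (ih (by omega)).trans ((hβα t (by omega)).le.trans (hαβ _ ht))
    have hw := S.adjR (hαβ' m' le_rfl) (hβ m' le_rfl) (v := v) (w := w) ⟨hvβ, hv0, hvM⟩ h4 h5
    have hv00 := hα0 0 (Nat.zero_le _) v hv0
    have hw00 := hα0 0 (Nat.zero_le _) w hw.2
    have hwm := S.OM (hβ m' le_rfl) le_rfl hw.1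
    refine ⟨hcore m' le_rfl v w h1 hv00 hw00 hwm h4, ?_⟩
    rintro (h6 | h6)
    · exact hw.2 h6
    · obtain ⟨h7, h8, h9⟩ := ha 0 (Nat.zero_le _) w h6
      obtain ⟨x, hx, hr⟩ := h6
      have h10 := S.sep _ (hβ 0 (Nat.zero_le _)) w v h7 hw00 hv00
        (Or.inl (S.O_mono (hβ m' le_rfl) le_rfl hvβ)) h4.symm
      exact h2 (Or.inr ⟨x, hx, hr.trans (RI.adj ⟨⟨Or.inl h7, h8⟩, h9⟩ ⟨⟨h10, hv0⟩, h3⟩ h4.symm)⟩)
  · intro t ht
    obtain ⟨v, h1, h2⟩ := S.ne (β t) (lt_of_lt_of_le (hβα t ht) (hα _ ht))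
    exact ⟨v, Or.inl (S.O_mono (hβα t ht) (hα _ ht) h1), fun h => h2 (hc t ht.le v h)⟩

open Classical in
/-- the strip of a component -/
theorem Strip.comp (S : Strip G Z m O M) {α m' : ℕ} (hα : α + m' ≤ m) (Y : Set V)
    (hY : Y ⊆ Rg O M α (α + m')) (hcl : ∀ v ∈ Y, ∀ w ∈ Rg O M α (α + m'), G.Adj v w → w ∈ Y)
    (hne : ∀ i < m', ∃ v ∈ M (α + i), v ∈ Y) :
    Strip G Z m' (fun i => {v | v ∈ O (α + i) ∧ v ∈ Y}) fun i => (M (α + i)).filter (· ∈ Y) := by
  have hY0 : ∀ v ∈ Y, v ∉ O 0 := fun v hv h =>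
    (hY hv).2 (S.O_mono (Nat.zero_le _) (by omega) h)
  refine ⟨?_, ?_, ?_, ?_, ?_, ?_⟩
  · intro i hi v hv h
    exact S.disj _ (by omega) v (Finset.mem_filter.1 hv).1 h.1
  · rintro i hi v (h | h)
    · exact ⟨S.O_mono (by omega) (by omega) h.1, h.2⟩
    · rw [Finset.mem_filter] at h
      exact ⟨S.M_O (by omega) (by omega) h.1, h.2⟩
  · intro z hz
    refine ⟨fun h => S.z_not hα hz (hY h.2), fun h => S.z_not hα hz (hY (Finset.mem_filter.1 h).2)⟩
  · intro j hj v w h1 h2 h3 h4 h5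
    have hwY : w ∈ Y := by
      rcases h4 with h4 | h4
      · exact h4.2
      · exact (Finset.mem_filter.1 h4).2
    have h6 := S.sep (α + j) (by omega) v w h1.1 (hY0 v h1.2) (hY0 w hwY)
      (S.OM hα le_rfl (hY hwY).1) h5
    rcases h6 with h6 | h6
    · exact Or.inl ⟨h6, hwY⟩
    · exact Or.inr (Finset.mem_filter.2 ⟨h6, hwY⟩)
  · intro v w h1 h2 h3 h4 h5
    have h6 : v ∉ M α := fun h => h3 (Finset.mem_filter.2 ⟨h, h1.2⟩)
    have h7 := S.adjR (i := α) (j := α + m') (by omega) hα (v := v) (w := w)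
      ⟨h1.1, (hY h1.2).2, h6⟩ h4 h5
    have h8 := hcl v h1.2 w h7 h4
    refine ⟨?_, fun h => h7.2 h.1⟩
    rcases h7.1 with h9 | h9
    · exact Or.inl ⟨h9, h8⟩
    · exact Or.inr (Finset.mem_filter.2 ⟨h9, h8⟩)
  · intro i hi
    obtain ⟨v, h1, h2⟩ := hne i hi
    refine ⟨v, ⟨?_, h2⟩, fun h => S.disj _ (by omega) v h1 h.1⟩
    exact S.M_O (by omega : α + i < α + (i + 1)) (by omega) h1

/-- dropping a vertex of `Z` -/
theorem Strip.drop [DecidableEq V] (S : Strip G Z m O M) {z : V}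
    (hz : ∀ v ∈ Rn O M 0 m, ¬ G.Adj z v) : Strip G (Z.erase z) m O M := by
  refine ⟨S.disj, S.nest, fun y hy => S.zd y (Finset.mem_of_mem_erase hy), S.sep, ?_, S.ne⟩
  intro v w h1 h2 h3 h4 h5
  refine S.bd v w h1 h2 h3 h4 fun h6 => ?_
  by_cases hwz : w = z
  · subst hwz
    exact hz v ⟨h1, h2, h3⟩ h4.symm
  · exact h5 (Finset.mem_erase.2 ⟨hwz, h6⟩)

end

end TWk
end

section

section

/-!
# MP_cfc9ed_co: a linkage to a dense gadget which avoids most of the connected sets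
-/

set_option autoImplicit false

namespace TWk

open SimpleGraph Relation Pool.Agent.Lib.MP_699f60_co

variable {V : Type*}

open Classical in
/-- number of steps of the list which are not in `K` -/
noncomputable def cost (K : V → V → Prop) : List V → ℕ
  | [] => 0
  | [_] => 0
  | a :: b :: l => (if K a b then 0 else 1) + cost K (b :: l)

theorem cost_append (K : V → V → Prop) (l1 : List V) (z : V) (l2 : List V) :
    cost K (l1 ++ z :: l2) = cost K (l1 ++ [z]) + cost K (z :: l2) := by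
  induction l1 with
  | nil => simp [cost]
  | cons a t ih =>
    cases t with
    | nil =>
      show cost K (a :: z :: l2) = cost K (a :: [z]) + cost K (z :: l2)
      simp [cost]
    | cons b t =>
      show cost K (a :: b :: (t ++ z :: l2)) = cost K (a :: b :: (t ++ [z])) + cost K (z :: l2)
      rw [cost, cost]
      have : cost K (b :: (t ++ z :: l2)) = cost K (b :: (t ++ [z])) + cost K (z :: l2) := ih
      rw [this, add_assoc]

theorem cost_zero {K : V → V → Prop} : ∀ {l : List V}, cost K l = 0 ↔ l.IsChain K := by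
  intro l
  induction l with
  | nil => simp [cost]
  | cons a t ih =>
    cases t with
    | nil => simp [cost]
    | cons b t =>
      rw [cost, List.isChain_cons_cons, ← ih]
      by_cases h : K a b
      · simp [h]
      · simp [h]

/-- a system of disjoint paths from `A` to `X`, each meeting `X` only in its end -/
def Sys {s : ℕ} (G : SimpleGraph V) (A X : Set V) (w : Fin s → List V) : Prop :=
  (∀ i, ∃ l x, w i = l ++ [x] ∧ x ∈ X ∧ (∀ v ∈ l, v ∉ X) ∧ PL G A X (w i)) ∧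
    ∀ i j, i ≠ j → List.Disjoint (w i) (w j)

theorem exists_sys {G : SimpleGraph V} {A X : Set V} {s : ℕ} (h : Linked G A X s) :
    ∃ w : Fin s → List V, Sys G A X w := by
  obtain ⟨w, h1, h2⟩ := h
  have key : ∀ i, ∃ l1 z l2, w i = l1 ++ z :: l2 ∧ z ∈ X ∧ ∀ v ∈ l1, v ∉ X := by
    intro i
    apply first_split
    obtain ⟨b, hb, hb'⟩ := (h1 i).2.2
    exact ⟨b, List.mem_of_getLast? hb', hb⟩
  choose l1 z l2 hw hz hl using key
  refine ⟨fun i => l1 i ++ [z i], fun i => ⟨l1 i, z i, rfl, hz i, hl i, ?_⟩, fun i j hij => ?_⟩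
  · have := h1 i
    rw [hw i] at this
    exact this.cut.mono subset_rfl (by simpa using hz i)
  · intro v hv hv'
    refine h2 i j hij (a := v) ?_ ?_
    · rw [hw i]
      rcases List.mem_append.1 hv with h | h
      · simp [h]
      · simp [List.mem_singleton.1 h]
    · rw [hw j]
      rcases List.mem_append.1 hv' with h | h
      · simp [h]
      · simp [List.mem_singleton.1 h]

/-- the gadget graph -/
def KG (G : SimpleGraph V) (X : Set V) (U : ℕ → Set V) (N : ℕ) (u v : V) : Prop :=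
  G.Adj u v ∧ ∃ i < N, (u ∈ U i ∧ (v ∈ U i ∨ v ∈ X)) ∨ (v ∈ U i ∧ u ∈ X)

theorem KG.symm {G : SimpleGraph V} {X : Set V} {U : ℕ → Set V} {N : ℕ} {u v : V}
    (h : KG G X U N u v) : KG G X U N v u := by
  obtain ⟨h1, i, hi, h2⟩ := h
  refine ⟨h1.symm, i, hi, ?_⟩
  rcases h2 with ⟨h2, h3 | h3⟩ | ⟨h2, h3⟩
  · exact Or.inl ⟨h3, Or.inl h2⟩
  · exact Or.inr ⟨h2, h3⟩
  · exact Or.inl ⟨h2, Or.inr h3⟩

/-- the gadget hypotheses -/
structure Gad (G : SimpleGraph V) (X : Set V) (U : ℕ → Set V) (N : ℕ) : Prop where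
  conn : ∀ i < N, (G.induce (U i)).Connected
  disX : ∀ i < N, ∀ v ∈ U i, v ∉ X
  adj : ∀ i < N, ∀ x ∈ X, ∃ u ∈ U i, G.Adj u x
  dis : ∀ i < N, ∀ j < N, ∀ v, v ∈ U i → v ∈ U j → i = j

theorem tail_U {G : SimpleGraph V} {X : Set V} {U : ℕ → Set V} {N : ℕ} (H : Gad G X U N) {i : ℕ}
    (hi : i < N) : ∀ (l : List V) (z : V), (z :: l).IsChain (KG G X U N) → z ∈ U i →
    ∀ (l0 : List V) (x : V), z :: l = l0 ++ [x] → x ∈ X → (∀ v ∈ l0, v ∉ X) →
    ∃ l1 y, l0 = l1 ++ [y] ∧ y ∈ U i := by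
  intro l
  induction l with
  | nil =>
    intro z _ hz l0 x hl hx _
    cases l0 with
    | nil =>
      simp only [List.nil_append, List.cons.injEq, and_true] at hl
      subst hl
      exact absurd hx (H.disX i hi _ hz)
    | cons a t =>
      simp only [List.cons_append, List.cons.injEq] at hl
      have := congrArg List.length hl.2
      simp at this
  | cons b l ih =>
    intro z hc hz l0 x hl hx hl0
    rw [List.isChain_cons_cons] at hc
    cases l0 with
    | nil =>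
      simp at hl
    | cons a t =>
      simp only [List.cons_append, List.cons.injEq] at hl
      obtain ⟨h1, h2⟩ := hl
      subst h1
      have hb : b ∈ U i ∨ b ∈ X := by
        obtain ⟨-, j, hj, h3⟩ := hc.1
        rcases h3 with ⟨h3, h4⟩ | ⟨-, h3⟩
        · have := H.dis j hj i hi z h3 hz
          subst this
          exact h4
        · exact absurd h3 (H.disX i hi _ hz)
      rcases hb with hb | hb
      · obtain ⟨l1, y, h3, h4⟩ := ih b hc.2 hb t x h2 hx fun v hv => hl0 v (List.mem_cons_of_mem _ hv)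
        exact ⟨z :: l1, y, by rw [h3]; rfl, h4⟩
      · cases t with
        | nil => exact ⟨[], z, rfl, hz⟩
        | cons c t =>
          simp only [List.cons_append, List.cons.injEq] at h2
          exact absurd hb (hl0 b (by rw [h2.1]; simp))

theorem exists_fresh {G : SimpleGraph V} {A X : Set V} {s : ℕ} {w : Fin s → List V}
    (hw : Sys G A X w) {X' : Finset V} (hX : (X' : Set V) ⊆ X) (hcard : s < X'.card) :
    ∃ x ∈ X, ∀ j, x ∉ w j := by
  classical
  by_contra hcon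
  push Not at hcon
  choose l x h1 h2 h3 h4 using hw.1
  have hsub : X' ⊆ Finset.univ.image x := by
    intro y hy
    obtain ⟨j, hj⟩ := hcon y (hX hy)
    rw [h1 j] at hj
    rcases List.mem_append.1 hj with h | h
    · exact absurd (hX hy) (h3 j y h)
    · rw [List.mem_singleton.1 h]
      exact Finset.mem_image_of_mem _ (Finset.mem_univ j)
  have := (Finset.card_le_card hsub).trans Finset.card_image_le
  rw [Finset.card_univ, Fintype.card_fin] at this
  omega

/-- the exchange argument -/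
theorem exchange {G : SimpleGraph V} {A X : Set V} {U : ℕ → Set V} {N s : ℕ}
    (H : Gad G X U N) {w : Fin s → List V} (hw : Sys G A X w)
    (hmin : ∀ w' : Fin s → List V, Sys G A X w' →
      ∑ j, cost (KG G X U N) (w j) ≤ ∑ j, cost (KG G X U N) (w' j))
    {x' : V} (hx' : x' ∈ X) (hfr : ∀ j, x' ∉ w j) {i : ℕ} (hi : i < N) {v : V} (hv : v ∈ U i)
    {j₀ : Fin s} (hvj : v ∈ w j₀) : ∃ j l y x, w j = (l ++ [y]) ++ [x] ∧ y ∈ U i := by
  classical
  obtain ⟨u, hu, hux⟩ := H.adj i hi x' hx'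
  obtain ⟨L, hL1, hL2, hL3, hL4⟩ := list_of_RI (RI_of_conn (H.conn i hi) hu hv)
  have hLK : L.IsChain (KG G X U N) := by
    have aux : ∀ l : List V, l.IsChain G.Adj → (∀ v ∈ l, v ∈ U i) →
        l.IsChain (KG G X U N) := by
      intro l
      induction l with
      | nil => intro _ _; simp
      | cons a t ih =>
        intro hc hm
        cases t with
        | nil => simp
        | cons b t =>
          rw [List.isChain_cons_cons] at hc ⊢
          exact ⟨⟨hc.1, i, hi, Or.inl ⟨hm a (by simp), Or.inl (hm b (by simp))⟩⟩,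
            ih hc.2 fun v hv => hm v (List.mem_cons_of_mem _ hv)⟩
    exact aux L hL1 hL4
  have hcL : (x' :: L).IsChain (KG G X U N) := by
    rw [List.isChain_cons]
    refine ⟨fun y hy => ?_, hLK⟩
    rw [hL2] at hy
    simp only [Option.mem_def, Option.some.injEq] at hy
    subst hy
    exact ⟨hux.symm, i, hi, Or.inr ⟨hu, hx'⟩⟩
  obtain ⟨L1, z, L2, e1, ⟨j, hzj⟩, e3⟩ := first_split (fun z => ∃ j, z ∈ w j) (x' :: L)
    ⟨v, List.mem_cons_of_mem _ (List.mem_of_getLast? hL3), j₀, hvj⟩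
  -- `L1` starts with `x'`
  obtain ⟨L1', hL1'⟩ : ∃ L1', L1 = x' :: L1' := by
    cases L1 with
    | nil =>
      simp only [List.nil_append, List.cons.injEq] at e1
      rw [← e1.1] at hzj
      exact absurd hzj (hfr j)
    | cons c t =>
      simp only [List.cons_append, List.cons.injEq] at e1
      exact ⟨t, by rw [e1.1]⟩
  subst hL1'
  simp only [List.cons_append, List.cons.injEq, true_and] at e1
  have hzU : z ∈ U i := hL4 z (by rw [e1]; simp)
  have hL1U : ∀ y ∈ L1', y ∈ U i := fun y hy => hL4 y (by rw [e1]; simp [hy])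
  obtain ⟨P1, P2, hP⟩ := List.append_of_mem hzj
  obtain ⟨l, x, g1, g2, g3, g4⟩ := hw.1 j
  -- the vertices of `P1 ++ [z]` are not in `X`
  have hzX : z ∉ X := H.disX i hi z hzU
  have hP2 : P2 ≠ [] := by
    rintro rfl
    rw [hP] at g1
    have := congrArg List.getLast? g1
    simp only [List.getLast?_append, List.getLast?_singleton, Option.some_or,
      Option.some.injEq] at this
    rw [this] at hzX
    exact hzX g2
  obtain ⟨P3, q, hP3⟩ : ∃ P3 q, P2 = P3 ++ [q] := by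
    rcases List.eq_nil_or_concat P2 with h | ⟨P3, q, h⟩
    · exact absurd h hP2
    · exact ⟨P3, q, by rw [h, List.concat_eq_append]⟩
  have hl : l = P1 ++ z :: P3 ∧ x = q := by
    have : l ++ [x] = (P1 ++ z :: P3) ++ [q] := by
      rw [← g1, hP, hP3]
      simp
    have h1 := List.append_inj' this rfl
    exact ⟨h1.1, by simpa using h1.2⟩
  have hPX : ∀ y ∈ P1, y ∉ X := fun y hy => g3 y (by rw [hl.1]; simp [hy])
  -- the new walk
  set w' : List V := P1 ++ z :: (L1'.reverse ++ [x']) with hw'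
  have hrev : (z :: (L1'.reverse ++ [x'])).IsChain (KG G X U N) := by
    have h1 : (x' :: (L1' ++ [z])).IsChain (KG G X U N) := by
      rw [e1] at hcL
      have : x' :: (L1' ++ z :: L2) = (x' :: (L1' ++ [z])) ++ L2 := by simp
      rw [this] at hcL
      exact hcL.left_of_append
    have h2 : (x' :: (L1' ++ [z])).reverse = z :: (L1'.reverse ++ [x']) := by simp
    rw [← h2, List.isChain_reverse]
    exact h1.imp fun a b hab => hab.symm
  have hPLw := g4
  rw [hP] at hPLw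
  obtain ⟨c1, ⟨a₀, ha₀, c2⟩, -⟩ := hPLw
  have hw'PL : PL G A X w' := by
    refine ⟨?_, ⟨a₀, ha₀, ?_⟩, ⟨x', hx', ?_⟩⟩
    · rw [hw']
      refine List.isChain_split.2 ⟨(List.isChain_split.1 c1).1, ?_⟩
      exact hrev.imp fun a b hab => hab.1
    · rw [hw']
      cases P1 with
      | nil => simpa using c2
      | cons c t => simpa using c2
    · rw [hw']
      have : P1 ++ z :: (L1'.reverse ++ [x']) = (P1 ++ z :: L1'.reverse) ++ [x'] := by simp
      rw [this, List.getLast?_concat]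
  have hw'mem : ∀ y ∈ w', y ∈ w j ∨ ∀ k, y ∉ w k := by
    intro y hy
    rw [hw'] at hy
    simp only [List.mem_append, List.mem_cons, List.mem_reverse, List.mem_singleton,
      List.not_mem_nil, or_false] at hy
    rcases hy with h | h | h | h
    · left; rw [hP]; simp [h]
    · left; rw [hP]; simp [h]
    · right
      intro k hk
      exact e3 y (List.mem_cons_of_mem _ h) ⟨k, hk⟩
    · right
      rw [h]
      exact hfr
  have hsys : Sys G A X (Function.update w j w') := by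
    constructor
    · intro k
      by_cases hk : k = j
      · subst hk
        rw [Function.update_self]
        refine ⟨P1 ++ z :: L1'.reverse, x', by rw [hw']; simp, hx', ?_, hw'PL⟩
        intro y hy
        simp only [List.mem_append, List.mem_cons, List.mem_reverse] at hy
        rcases hy with h | h | h
        · exact hPX y h
        · rw [h]; exact hzX
        · exact H.disX i hi y (hL1U y h)
      · rw [Function.update_of_ne hk]
        exact hw.1 k
    · intro k k' hkk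
      have aux : ∀ k, k ≠ j → List.Disjoint w' (w k) := by
        intro k hk y hy hy'
        rcases hw'mem y hy with h | h
        · exact hw.2 j k (Ne.symm hk) h hy'
        · exact h k hy'
      by_cases hk : k = j
      · subst hk
        rw [Function.update_self, Function.update_of_ne (Ne.symm hkk)]
        exact aux k' (Ne.symm hkk)
      · by_cases hk' : k' = j
        · subst hk'
          rw [Function.update_self, Function.update_of_ne hk]
          exact (aux k hk).symm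
        · rw [Function.update_of_ne hk, Function.update_of_ne hk']
          exact hw.2 k k' hkk
  have hcost := hmin _ hsys
  rw [← Finset.add_sum_erase Finset.univ (fun j => cost (KG G X U N) (w j)) (Finset.mem_univ j),
    ← Finset.add_sum_erase Finset.univ
      (fun k => cost (KG G X U N) (Function.update w j w' k)) (Finset.mem_univ j)] at hcost
  have hsame : ∑ k ∈ Finset.univ.erase j, cost (KG G X U N) (Function.update w j w' k) =
      ∑ k ∈ Finset.univ.erase j, cost (KG G X U N) (w k) := by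
    refine Finset.sum_congr rfl fun k hk => ?_
    rw [Function.update_of_ne (Finset.ne_of_mem_erase hk)]
  rw [hsame, Function.update_self] at hcost
  have hcost' : cost (KG G X U N) (w j) ≤ cost (KG G X U N) w' := by omega
  rw [hP, hw', cost_append _ P1 z P2, cost_append _ P1 z (L1'.reverse ++ [x']),
    cost_zero.2 hrev] at hcost'
  have hz0 : cost (KG G X U N) (z :: P2) = 0 := by omega
  rw [cost_zero] at hz0
  obtain ⟨l1, y, k1, k2⟩ := tail_U H hi P2 z hz0 hzU (z :: P3) q (by rw [hP3]; rfl)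
    (hl.2 ▸ g2) (fun v hv => g3 v (by rw [hl.1]; exact List.mem_append_right _ hv))
  refine ⟨j, P1 ++ l1, y, q, ?_, k2⟩
  rw [hP, hP3]
  have : z :: (P3 ++ [q]) = (z :: P3) ++ [q] := rfl
  rw [this, k1]
  simp

/-- a linkage which avoids all but `s` of the sets `U i` -/
theorem free_sets {G : SimpleGraph V} {A X : Set V} {U : ℕ → Set V} {N s : ℕ}
    (H : Gad G X U N) (hL : Linked G A X s) {X' : Finset V} (hX : (X' : Set V) ⊆ X)
    (hcard : s < X'.card) : ∃ w : Fin s → List V, Sys G A X w ∧ ∃ F : Finset ℕ,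
      N ≤ F.card + s ∧ ∀ i ∈ F, i < N ∧ ∀ j, ∀ v ∈ w j, v ∉ U i := by
  classical
  have hex : ∃ n, ∃ w : Fin s → List V, Sys G A X w ∧ ∑ j, cost (KG G X U N) (w j) = n := by
    obtain ⟨w, hw⟩ := exists_sys hL
    exact ⟨_, w, hw, rfl⟩
  obtain ⟨w, hw, hwn⟩ := Nat.find_spec hex
  have hmin : ∀ w' : Fin s → List V, Sys G A X w' →
      ∑ j, cost (KG G X U N) (w j) ≤ ∑ j, cost (KG G X U N) (w' j) := by
    intro w' hw'
    rw [hwn]
    exact Nat.find_min' hex ⟨w', hw', rfl⟩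
  obtain ⟨x', hx', hfr⟩ := exists_fresh hw hX hcard
  refine ⟨w, hw, (Finset.range N).filter fun i => ∀ j, ∀ v ∈ w j, v ∉ U i, ?_, ?_⟩
  · have h1 := Finset.card_filter_add_card_filter_not (s := Finset.range N)
      (fun i => ∀ j, ∀ v ∈ w j, v ∉ U i)
    rw [Finset.card_range] at h1
    have h2 : ((Finset.range N).filter fun i => ¬ ∀ j, ∀ v ∈ w j, v ∉ U i).card ≤ s := by
      set B := (Finset.range N).filter fun i => ¬ ∀ j, ∀ v ∈ w j, v ∉ U i with hB
      have hBm : ∀ i ∈ B, ∃ j l y x, w j = (l ++ [y]) ++ [x] ∧ y ∈ U i := by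
        intro i hi
        rw [hB, Finset.mem_filter, Finset.mem_range] at hi
        obtain ⟨hi1, hi2⟩ := hi
        push Not at hi2
        obtain ⟨j, v, hv, hv'⟩ := hi2
        exact exchange H hw hmin hx' hfr hi1 hv' hv
      have hBm' : ∀ i, ∃ j : Fin (s + 1), i ∈ B → ∃ (h : (j : ℕ) < s) (l : List V) (y x : V),
          w ⟨j, h⟩ = (l ++ [y]) ++ [x] ∧ y ∈ U i := by
        intro i
        by_cases hi : i ∈ B
        · obtain ⟨j, l, y, x, h3⟩ := hBm i hi
          exact ⟨⟨j, by omega⟩, fun _ => ⟨j.2, l, y, x, h3⟩⟩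
        · exact ⟨0, fun h => absurd h hi⟩
      choose J hJ using hBm'
      have hinj : Set.InjOn (fun i => (J i : ℕ)) (B : Set ℕ) := by
        intro i hi i' hi' hJJ
        obtain ⟨h3, l, y, x, h4, h5⟩ := hJ i hi
        obtain ⟨h3', l', y', x'', h4', h5'⟩ := hJ i' hi'
        have hJJ' : (J i : ℕ) = J i' := hJJ
        have e : (⟨J i, h3⟩ : Fin s) = ⟨J i', h3'⟩ := Fin.ext hJJ'
        rw [e, h4'] at h4
        have h6 := List.append_inj' h4 rfl
        have h7 := List.append_inj' h6.1 rfl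
        have h8 : y' = y := by simpa using h7.2
        subst h8
        exact H.dis i (Finset.mem_range.1 (Finset.mem_filter.1 hi).1) i'
          (Finset.mem_range.1 (Finset.mem_filter.1 hi').1) _ h5 h5'
      have h4 : (B.image fun i => (J i : ℕ)) ⊆ Finset.range s := by
        intro n hn
        obtain ⟨i, hi, rfl⟩ := Finset.mem_image.1 hn
        obtain ⟨h3, -⟩ := hJ i hi
        exact Finset.mem_range.2 h3
      have h5 := Finset.card_le_card h4
      rw [Finset.card_range, Finset.card_image_of_injOn hinj] at h5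
      exact h5
    omega
  · intro i hi
    rw [Finset.mem_filter, Finset.mem_range] at hi
    exact hi

end TWk
end

section

/-!
# MP_cfc9ed_co: in a good strip no small set separates the roots from the middle of a cell
-/

set_option autoImplicit false

namespace TWk

open SimpleGraph Relation Pool.Agent.Lib.MP_699f60_co

variable {V : Type*}

/-- a good strip -/
structure Good (G : SimpleGraph V) (Z : Finset V) (m : ℕ) (O : ℕ → Set V) (M : ℕ → Finset V)
    (p n : ℕ) : Prop extends Strip G Z m O M where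
  card : ∀ i ≤ m, (M i).card ≤ p
  pc : PC G O M 0 m p
  npos : 0 < n
  conn : ∀ i, i + n ≤ m → (G.induce (Rg O M i (i + n))).Connected
  seen : ∀ i, i + n ≤ m → ∀ z ∈ Z, ∃ v ∈ Rn O M i (i + n), G.Adj z v

section

variable {G : SimpleGraph V} {Z : Finset V} {m : ℕ} {O : ℕ → Set V} {M : ℕ → Finset V} {p n : ℕ}

theorem free_interval (S : Strip G Z m O M) (X : Finset V) (e q : ℕ) (hq : X.card < q)
    (he : e + q * (n + 1) ≤ m + 1) : ∃ r < q, ∀ v ∈ Rg O M (e + r * (n + 1)) (e + r * (n + 1) + n),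
      v ∉ X := by
  classical
  by_contra hcon
  push Not at hcon
  have h1 : ∀ r, ∃ v, r < q → v ∈ Rg O M (e + r * (n + 1)) (e + r * (n + 1) + n) ∧ v ∈ X := by
    intro r
    by_cases hr : r < q
    · obtain ⟨v, h1, h2⟩ := hcon r hr
      exact ⟨v, fun _ => ⟨h1, h2⟩⟩
    · have h0 : 0 < q := by omega
      obtain ⟨v, -, -⟩ := hcon 0 h0
      exact ⟨v, fun h => absurd h hr⟩
  choose f hf using h1
  have h2 : (Finset.range q).image f ⊆ X := by
    intro v hv
    obtain ⟨r, hr, rfl⟩ := Finset.mem_image.1 hv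
    exact (hf r (Finset.mem_range.1 hr)).2
  have hlt : ∀ r < q, ∀ r' < q, r < r' → f r ≠ f r' := by
    intro r hr r' hr' hrr h
    have h3 := (hf r hr).1
    have h4 := (hf r' hr').1
    rw [h] at h3
    have h5 : (r + 1) * (n + 1) ≤ r' * (n + 1) := Nat.mul_le_mul_right _ hrr
    have h6 : (r' + 1) * (n + 1) ≤ q * (n + 1) := Nat.mul_le_mul_right _ hr'
    rw [add_mul, one_mul] at h5 h6
    exact S.Rg_disj (by omega) (by omega) h3 h4
  have h3 : Set.InjOn f (Finset.range q : Set ℕ) := by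
    intro r hr r' hr' h
    have hr1 := Finset.mem_range.1 (Finset.mem_coe.1 hr)
    have hr2 := Finset.mem_range.1 (Finset.mem_coe.1 hr')
    rcases lt_trichotomy r r' with h5 | h5 | h5
    · exact absurd h (hlt r hr1 r' hr2 h5)
    · exact h5
    · exact absurd h.symm (hlt r' hr2 r hr1 h5)
  have h4 := Finset.card_le_card h2
  rw [Finset.card_image_of_injOn h3, Finset.card_range] at h4
  omega

theorem card3 {X : Finset V} {P1 P2 P3 : V → Prop} [DecidablePred P1] [DecidablePred P2]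
    [DecidablePred P3] (h12 : ∀ v, P1 v → P2 v → False) (h13 : ∀ v, P1 v → P3 v → False)
    (h23 : ∀ v, P2 v → P3 v → False) :
    (X.filter P1).card + (X.filter P2).card + (X.filter P3).card ≤ X.card := by
  classical
  have h1 : Disjoint (X.filter P1) (X.filter P2) := by
    rw [Finset.disjoint_left]
    intro v hv hv'
    exact h12 v (Finset.mem_filter.1 hv).2 (Finset.mem_filter.1 hv').2
  have h2 : Disjoint (X.filter P1 ∪ X.filter P2) (X.filter P3) := by
    rw [Finset.disjoint_left]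
    intro v hv hv'
    rcases Finset.mem_union.1 hv with h | h
    · exact h13 v (Finset.mem_filter.1 h).2 (Finset.mem_filter.1 hv').2
    · exact h23 v (Finset.mem_filter.1 h).2 (Finset.mem_filter.1 hv').2
  rw [← Finset.card_union_of_disjoint h1, ← Finset.card_union_of_disjoint h2]
  refine Finset.card_le_card fun v hv => ?_
  simp only [Finset.mem_union, Finset.mem_filter] at hv
  tauto

/-- the vertices which may be used in a cell -/
def QQ (O : ℕ → Set V) (M : ℕ → Finset V) (Z : Finset V) (c c' : ℕ) (T T' : Finset V) : Set V :=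
  {v | v ∈ Z ∨ (v ∈ Rg O M c c' ∧ (v ∈ M c → v ∈ T) ∧ (v ∈ M c' → v ∈ T'))}

theorem Good.mid_sub (S : Good G Z m O M p n) {c c' i j : ℕ} {T T' : Finset V} (hc : c < i)
    (him : i ≤ m) (hj : j < c') (hcm : c' ≤ m) : Rg O M i j ⊆ QQ O M Z c c' T T' := by
  intro v hv
  right
  refine ⟨S.Rg_mono hc.le him hj.le hcm hv, fun h => ?_, fun h => ?_⟩
  · exact absurd (S.M_O hc him h) hv.2
  · exact absurd (S.OM_lt hj hcm hv.1) (S.disj c' hcm v h)

/-- one end of a cell: a set which separates the roots from a track-rich region is large -/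
theorem Good.end_left (S : Good G Z m O M p n) {c c' i g : ℕ} {T T' : Finset V} (hTM : T ⊆ M c)
    (hTg : T.card = g) (hci : c < i) (hi : i < c') (hcm : c' ≤ m) (X : Finset V) {Y : Set V}
    (hcl : ∀ y ∈ Y, ∀ w ∈ QQ O M Z c c' T T', w ∉ X → RI G (QQ O M Z c c' T T' \ (X : Set V)) w y →
      w ∈ Y)
    (hYT : ∀ t ∈ T, t ∉ Y) (hM : ∀ v ∈ M i, v ∈ Y) [DecidablePred (· ∈ Rg O M c i)] :
    g ≤ (X.filter (· ∈ Rg O M c i)).card := by
  classical
  by_contra hcon
  push Not at hcon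
  have hcp := S.card c (by omega)
  have hpc := PC.sub S.toStrip S.pc (i := c) (j := i) hci.le (by omega)
  have h1 : (X.filter (· ∈ Rg O M c i) ∪ (M c \ T)).card < p := by
    have h2 := Finset.card_union_le (X.filter (· ∈ Rg O M c i)) (M c \ T)
    have h3 := Finset.card_sdiff_of_subset hTM
    have h4 := Finset.card_le_card hTM
    omega
  obtain ⟨x, hx, y, hy, hr⟩ := hpc _ h1
  obtain ⟨hx1, -, -⟩ := id hr
  have hxT : x ∈ T := by
    by_contra h
    exact hx1.2 (Finset.mem_coe.2 (Finset.mem_union_right _ (Finset.mem_sdiff.2 ⟨hx, h⟩)))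
  have hsub : Rg O M c i \ ((X.filter (· ∈ Rg O M c i) ∪ (M c \ T) : Finset V) : Set V) ⊆
      QQ O M Z c c' T T' \ (X : Set V) := by
    rintro v ⟨hv1, hv2⟩
    rw [Finset.mem_coe, Finset.mem_union, Finset.mem_filter, Finset.mem_sdiff] at hv2
    push Not at hv2
    refine ⟨Or.inr ⟨S.Rg_mono le_rfl (by omega) hi.le hcm hv1, hv2.2, fun h => ?_⟩, fun h => ?_⟩
    · exact absurd (S.OM_lt hi hcm hv1.1) (S.disj c' hcm v h)
    · exact hv2.1 h hv1
  have hr' := hr.mono hsub
  obtain ⟨h5, -, -⟩ := id hr'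
  exact hYT x hxT (hcl y (hM y hy) x h5.1 h5.2 hr')

theorem Good.end_right (S : Good G Z m O M p n) {c c' j g : ℕ} {T T' : Finset V}
    (hTM : T' ⊆ M c') (hTg : T'.card = g) (hcj : c < j) (hj : j < c') (hcm : c' ≤ m)
    (X : Finset V) {Y : Set V}
    (hcl : ∀ y ∈ Y, ∀ w ∈ QQ O M Z c c' T T', w ∉ X → RI G (QQ O M Z c c' T T' \ (X : Set V)) w y →
      w ∈ Y)
    (hYT : ∀ t ∈ T', t ∉ Y) (hM : ∀ v ∈ M j, v ∈ Y) [DecidablePred (· ∈ Rg O M j c')] :
    g ≤ (X.filter (· ∈ Rg O M j c')).card := by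
  classical
  by_contra hcon
  push Not at hcon
  have hcp := S.card c' hcm
  have hpc := PC.sub S.toStrip S.pc (i := j) (j := c') hj.le hcm
  have h1 : (X.filter (· ∈ Rg O M j c') ∪ (M c' \ T')).card < p := by
    have h2 := Finset.card_union_le (X.filter (· ∈ Rg O M j c')) (M c' \ T')
    have h3 := Finset.card_sdiff_of_subset hTM
    have h4 := Finset.card_le_card hTM
    omega
  obtain ⟨x, hx, y, hy, hr⟩ := hpc _ h1
  obtain ⟨-, hy1, -⟩ := id hr
  have hyT : y ∈ T' := by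
    by_contra h
    exact hy1.2 (Finset.mem_coe.2 (Finset.mem_union_right _ (Finset.mem_sdiff.2 ⟨hy, h⟩)))
  have hsub : Rg O M j c' \ ((X.filter (· ∈ Rg O M j c') ∪ (M c' \ T') : Finset V) : Set V) ⊆
      QQ O M Z c c' T T' \ (X : Set V) := by
    rintro v ⟨hv1, hv2⟩
    rw [Finset.mem_coe, Finset.mem_union, Finset.mem_filter, Finset.mem_sdiff] at hv2
    push Not at hv2
    refine ⟨Or.inr ⟨S.Rg_mono hcj.le (by omega) le_rfl hcm hv1, fun h => ?_, hv2.2⟩, fun h => ?_⟩
    · exact absurd (S.M_O hcj (by omega) h) hv1.2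
    · exact hv2.1 h hv1
  have hr' := (hr.mono hsub).symm
  obtain ⟨h5, -, -⟩ := id hr'
  exact hYT y hyT (hcl x (hM x hx) y h5.1 h5.2 hr')

/-- the two halves of a cell are well connected to each other -/
theorem Good.middle (S : Good G Z m O M p n) {c c' i j : ℕ} {T T' : Finset V}
    (hci : c < i) (hij : i ≤ j) (hj : j < c') (hcm : c' ≤ m) (X : Finset V) {Y : Set V}
    (hcl : ∀ y ∈ Y, ∀ w ∈ QQ O M Z c c' T T', w ∉ X → RI G (QQ O M Z c c' T T' \ (X : Set V)) w y →
      w ∈ Y)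
    (hM : (∀ v ∈ M i, v ∈ Y) ∧ (∀ v ∈ M j, v ∉ Y) ∨ (∀ v ∈ M i, v ∉ Y) ∧ (∀ v ∈ M j, v ∈ Y))
    [DecidablePred (· ∈ Rg O M i j)] :
    p ≤ (X.filter (· ∈ Rg O M i j)).card := by
  classical
  by_contra hcon
  push Not at hcon
  obtain ⟨x, hx, y, hy, hr⟩ := PC.sub S.toStrip S.pc (i := i) (j := j) hij (by omega) _ hcon
  have hsub : Rg O M i j \ ((X.filter (· ∈ Rg O M i j) : Finset V) : Set V) ⊆
      QQ O M Z c c' T T' \ (X : Set V) := by
    rintro v ⟨hv1, hv2⟩
    rw [Finset.mem_coe, Finset.mem_filter] at hv2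
    push Not at hv2
    exact ⟨S.mid_sub hci (by omega) hj hcm hv1, fun h => hv2 h hv1⟩
  have hr' := hr.mono hsub
  obtain ⟨h5, h6, -⟩ := id hr'
  rcases hM with ⟨h7, h8⟩ | ⟨h7, h8⟩
  · exact h8 y hy (hcl x (h7 x hx) y h6.1 h6.2 hr'.symm)
  · exact h7 x hx (hcl y (h8 y hy) x h5.1 h5.2 hr')

/-- a small separator confines the middle -/
theorem Good.nosep_or {a g s B c c' : ℕ}
    (S : Good G Z m O M p n) (hp0 : 0 < p) (hp : a ≤ p + Z.card) (hg : g + Z.card = a)
    (hs : s + Z.card ≤ 2 * a) (hB : B = 1 + 2 * a * (n + 1)) (hc' : c' = c + 2 * B + 4)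
    (hcm : c' ≤ m) {T T' : Finset V} (hT : T ⊆ M c) (hT' : T' ⊆ M c') (hTg : T.card = g)
    (hTg' : T'.card = g) (X : Finset V) (hX : X.card < s) {x : V}
    (hx : x ∈ Rg O M (c + B) (c + B + 3)) (hxX : x ∉ X) :
    (∃ t, (t ∈ T ∨ t ∈ T' ∨ t ∈ Z) ∧ RI G (QQ O M Z c c' T T' \ (X : Set V)) t x) ∨
    ∃ e f, c < e ∧ e ≤ f ∧ f < c' ∧
      (∀ y, RI G (QQ O M Z c c' T T' \ (X : Set V)) x y → y ∈ Rn O M e f ∧
        ∀ w, G.Adj y w → w ∈ X ∨ RI G (QQ O M Z c c' T T' \ (X : Set V)) x w) ∧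
      ∃ z₀, z₀ ∉ X ∧ ¬ RI G (QQ O M Z c c' T T' \ (X : Set V)) x z₀ := by
  classical
  rw [or_iff_not_imp_left]
  intro hcon
  push Not at hcon
  set Q := QQ O M Z c c' T T' with hQ
  have hst := S.toStrip
  have hxQ : x ∈ Q := S.mid_sub (by omega) (by omega) (by omega) hcm hx
  set Y : Set V := {y | RI G (Q \ (X : Set V)) x y} with hY
  have hYm : ∀ y ∈ Y, y ∈ Q ∧ y ∉ X := by
    rintro y ⟨-, h, -⟩
    exact ⟨h.1, h.2⟩
  have hxY : x ∈ Y := RI.refl ⟨hxQ, hxX⟩
  have hYcl : ∀ y ∈ Y, ∀ w ∈ Q, w ∉ X → G.Adj y w → w ∈ Y := by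
    intro y hy w hw hwX hyw
    exact RI.trans hy (RI.adj (hYm y hy) ⟨hw, hwX⟩ hyw)
  have hcl : ∀ y ∈ Y, ∀ w ∈ Q, w ∉ X → RI G (Q \ (X : Set V)) w y → w ∈ Y := by
    intro y hy w _ _ hr
    exact RI.trans hy hr.symm
  have hYT : ∀ t ∈ T, t ∉ Y := fun t ht h => hcon t (Or.inl ht) (RI.symm h)
  have hYT' : ∀ t ∈ T', t ∉ Y := fun t ht h => hcon t (Or.inr (Or.inl ht)) (RI.symm h)
  have hYZ : ∀ t ∈ Z, t ∉ Y := fun t ht h => hcon t (Or.inr (Or.inr ht)) (RI.symm h)
  -- free intervals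
  have hmul : 2 * a * (n + 1) + 1 = B := by omega
  obtain ⟨r, hr, hfr⟩ := free_interval (n := n) hst X (c + 1) (2 * a) (by omega) (by omega)
  obtain ⟨r', hr', hfr'⟩ := free_interval (n := n) hst X (c + B + 4) (2 * a) (by omega) (by omega)
  have hr1 : (r + 1) * (n + 1) ≤ 2 * a * (n + 1) := Nat.mul_le_mul_right _ hr
  have hr1' : (r' + 1) * (n + 1) ≤ 2 * a * (n + 1) := Nat.mul_le_mul_right _ hr'
  rw [add_mul, one_mul] at hr1 hr1'
  set i := c + 1 + r * (n + 1) with hi
  set i' := c + B + 4 + r' * (n + 1) with hi'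
  have hn := S.npos
  have b1 : c < i := by omega
  have b2 : i + n < c + B := by omega
  have b3 : c + B + 3 < i' := by omega
  have b4 : i' + n < c' := by omega
  have hLQ : Rg O M i (i + n) ⊆ Q := S.mid_sub b1 (by omega) (by omega) hcm
  have hRQ : Rg O M i' (i' + n) ⊆ Q := S.mid_sub (by omega) (by omega) b4 hcm
  have hall : ∀ e, (∀ v ∈ Rg O M e (e + n), v ∉ X) → Rg O M e (e + n) ⊆ Q → e + n ≤ m →
      (∀ v ∈ Rg O M e (e + n), v ∈ Y) ∨ ∀ v ∈ Rg O M e (e + n), v ∉ Y := by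
    intro e he1 he2 he3
    by_cases h : ∃ v ∈ Rg O M e (e + n), v ∈ Y
    · left
      obtain ⟨v, hv, hv'⟩ := h
      intro u hu
      refine RI.trans hv' ((RI_of_conn (S.conn e he3) hv hu).mono fun y hy => ?_)
      exact ⟨he2 hy, he1 y hy⟩
    · right
      push Not at h
      exact h
  have hML : ∀ v ∈ M i, v ∈ Rg O M i (i + n) := fun v hv =>
    hst.M_Rg le_rfl (by omega) (by omega) hv
  have hML' : ∀ v ∈ M (i + n), v ∈ Rg O M i (i + n) := fun v hv =>
    hst.M_Rg (by omega) le_rfl (by omega) hv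
  have hMR : ∀ v ∈ M i', v ∈ Rg O M i' (i' + n) := fun v hv =>
    hst.M_Rg le_rfl (by omega) (by omega) hv
  have hMR' : ∀ v ∈ M (i' + n), v ∈ Rg O M i' (i' + n) := fun v hv =>
    hst.M_Rg (by omega) le_rfl (by omega) hv
  have hZX : ∀ e, e + n ≤ m → (∀ v ∈ Rg O M e (e + n), v ∈ Y) → ∀ z ∈ Z, z ∈ X := by
    intro e he1 he2 z hz
    by_contra hzX
    obtain ⟨v, hv1, hv2⟩ := S.seen e he1 z hz
    exact hYZ z hz (hYcl v (he2 v (hst.Rn_sub hv1)) z (Or.inl hz) hzX hv2.symm)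
  have hZcard : (∀ z ∈ Z, z ∈ X) → Z.card ≤ (X.filter (· ∈ Z)).card := by
    intro h
    refine Finset.card_le_card fun z hz => Finset.mem_filter.2 ⟨h z hz, hz⟩
  have dZ : ∀ e f, f ≤ m → ∀ v, v ∈ Rg O M e f → v ∈ Z → False := fun e f hf v h1 h2 =>
    hst.z_not hf h2 h1
  rcases hall i hfr hLQ (by omega) with hL | hL
  · have h1 := S.end_left hT hTg b1 (by omega : i < c') hcm X hcl hYT (fun v hv => hL v (hML v hv))
    have h2 := hZcard (hZX i (by omega) hL)
    rcases hall i' hfr' hRQ (by omega) with hR | hR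
    · have h3 := S.end_right hT' hTg' (by omega : c < i' + n) b4 hcm X hcl hYT'
        (fun v hv => hR v (hMR' v hv))
      have h4 := card3 (X := X) (P1 := (· ∈ Rg O M c i)) (P2 := (· ∈ Rg O M (i' + n) c'))
        (P3 := (· ∈ Z)) (fun v h h' => hst.Rg_disj (by omega) (by omega) h h')
        (dZ _ _ (by omega)) (dZ _ _ (by omega))
      omega
    · have h3 := S.middle (i := i + n) (j := i') (by omega : c < i + n) (by omega)
        (by omega) hcm X hcl
        (Or.inl ⟨fun v hv => hL v (hML' v hv), fun v hv => hR v (hMR v hv)⟩)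
      have h4 := card3 (X := X) (P1 := (· ∈ Rg O M c i)) (P2 := (· ∈ Rg O M (i + n) i'))
        (P3 := (· ∈ Z)) (fun v h h' => hst.Rg_disj (by omega) (by omega) h h')
        (dZ _ _ (by omega)) (dZ _ _ (by omega))
      omega
  · rcases hall i' hfr' hRQ (by omega) with hR | hR
    · have h2 := hZcard (hZX i' (by omega) hR)
      have h3 := S.end_right hT' hTg' (by omega : c < i' + n) b4 hcm X hcl hYT'
        (fun v hv => hR v (hMR' v hv))
      have h1 := S.middle (i := i + n) (j := i') (by omega : c < i + n) (by omega)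
        (by omega) hcm X hcl
        (Or.inr ⟨fun v hv => hL v (hML' v hv), fun v hv => hR v (hMR v hv)⟩)
      have h4 := card3 (X := X) (P1 := (· ∈ Rg O M (i + n) i')) (P2 := (· ∈ Rg O M (i' + n) c'))
        (P3 := (· ∈ Z)) (fun v h h' => hst.Rg_disj (by omega) (by omega) h h')
        (dZ _ _ (by omega)) (dZ _ _ (by omega))
      omega
    · -- `Y` is confined between the two free intervals
      have hxn : x ∈ Rn O M (i + n) i' := by
        refine ⟨hst.OM_lt b3 (by omega) hx.1, fun h => hx.2 ?_, fun h => hx.2 ?_⟩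
        · exact hst.O_mono b2.le (by omega) h
        · exact hst.M_O b2 (by omega) h
      have hstep : ∀ y ∈ Y, y ∈ Rn O M (i + n) i' → ∀ w, G.Adj y w → w ∈ X ∨
          (w ∈ Y ∧ w ∈ Rn O M (i + n) i') := by
        intro y hy hyR w hyw
        by_cases hwX : w ∈ X
        · exact Or.inl hwX
        · right
          by_cases hwZ : w ∈ Z
          · exact absurd (hYcl y hy w (Or.inl hwZ) hwX hyw) (hYZ w hwZ)
          · have h1 := hst.adjR (by omega) (by omega) hyR hyw hwZ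
            have h2 : w ∈ Q := S.mid_sub (by omega) (by omega) (by omega) hcm h1
            have h3 := hYcl y hy w h2 hwX hyw
            refine ⟨h3, h1.1.resolve_right fun h => hR w (hMR w h) h3, h1.2, fun h => ?_⟩
            exact hL w (hML' w h) h3
      have hYR : ∀ y ∈ Y, y ∈ Rn O M (i + n) i' := by
        intro y hy
        have h1 : y ∈ {v | v ∈ Y ∧ v ∈ Rn O M (i + n) i'} := by
          refine RI.closed hy ⟨hxY, hxn⟩ ?_
          rintro v ⟨hv1, hv2⟩ _ w hw hvw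
          rcases hstep v hv1 hv2 w hvw with h | h
          · exact absurd h hw.2
          · exact h
        exact h1.2
      obtain ⟨z₀, hz₀⟩ : (M i).Nonempty := by
        have h1 := (PC.sub hst S.pc (i := i) (j := m) (by omega) le_rfl).card
        exact Finset.card_pos.1 (by omega)
      refine ⟨i + n, i', by omega, by omega, by omega, fun y hy => ⟨hYR y hy, fun w hyw => ?_⟩,
        z₀, hfr z₀ (hML z₀ hz₀), hL z₀ (hML z₀ hz₀)⟩
      rcases hstep y hy (hYR y hy) w hyw with h | h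
      · exact Or.inl h
      · exact Or.inr h.1

/-- no small separator -/
theorem Good.nosep [Fintype V] {κ a g s B c c' : ℕ} (hG : Conn G κ)
    (S : Good G Z m O M p n) (hp0 : 0 < p) (hp : a ≤ p + Z.card) (hg : g + Z.card = a)
    (hs : s + Z.card ≤ 2 * a) (hB : B = 1 + 2 * a * (n + 1)) (hc' : c' = c + 2 * B + 4)
    (hcm : c' ≤ m) {T T' : Finset V} (hT : T ⊆ M c) (hT' : T' ⊆ M c') (hTg : T.card = g)
    (hTg' : T'.card = g) (X : Finset V) (hX : X.card < s) (hXκ : X.card < κ) {x : V}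
    (hx : x ∈ Rg O M (c + B) (c + B + 3)) (hxX : x ∉ X) :
    ∃ t, (t ∈ T ∨ t ∈ T' ∨ t ∈ Z) ∧ RI G (QQ O M Z c c' T T' \ (X : Set V)) t x := by
  rcases S.nosep_or hp0 hp hg hs hB hc' hcm hT hT' hTg hTg' X hX hx hxX with
    h | ⟨e, f, -, -, -, h1, z₀, h2, h3⟩
  · exact h
  · exfalso
    have hxQ : x ∈ QQ O M Z c c' T T' := S.mid_sub (by omega) (by omega) (by omega) hcm hx
    have h4 := TWk.sep hG {y | RI G (QQ O M Z c c' T T' \ (X : Set V)) x y} X
      (RI.refl ⟨hxQ, hxX⟩) hxX (fun y hy w hyw => ((h1 y hy).2 w hyw).symm) h3 h2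
    omega

end

end TWk
end

section

/-!
# MP_cfc9ed_co: a cell of a good strip contains the pieces of the hubs and a tie
-/

set_option autoImplicit false

namespace TWk

open SimpleGraph Relation Pool.Agent.Lib.MP_699f60_co

variable {V : Type*}

/-- the graph on `Q` -/
def Gr (G : SimpleGraph V) (Q : Set V) : SimpleGraph V where
  Adj u v := G.Adj u v ∧ u ∈ Q ∧ v ∈ Q
  symm := ⟨fun _ _ h => ⟨h.1.symm, h.2.2, h.2.1⟩⟩
  loopless := ⟨fun _ h => h.1.ne rfl⟩

theorem Gr_induce {G : SimpleGraph V} {Q U : Set V} (h : U ⊆ Q) :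
    (Gr G Q).induce U = G.induce U := by
  ext ⟨x, hx⟩ ⟨y, hy⟩
  constructor
  · intro h1
    exact h1.1
  · intro h1
    exact ⟨h1, h hx, h hy⟩

theorem list_Gr {G : SimpleGraph V} {Q : Set V} : ∀ (l : List V), l.IsChain (Gr G Q).Adj →
    (∀ a, l.head? = some a → a ∈ Q) → ∀ v ∈ l, v ∈ Q := by
  intro l
  induction l with
  | nil => intro _ _ v hv; simp at hv
  | cons a t ih =>
    intro hc hh v hv
    rcases List.mem_cons.1 hv with h | h
    · rw [h]; exact hh a rfl
    · rw [List.isChain_cons] at hc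
      refine ih hc.2 (fun b hb => ?_) v h
      exact (hc.1 b (by rw [hb]; rfl)).2.2

theorem list_Gr' {G : SimpleGraph V} {Q : Set V} : ∀ (l : List V), l.IsChain G.Adj →
    (∀ v ∈ l, v ∈ Q) → l.IsChain (Gr G Q).Adj := by
  intro l
  induction l with
  | nil => intro _ _; simp
  | cons a t ih =>
    intro hc hm
    rw [List.isChain_cons] at hc ⊢
    refine ⟨fun b hb => ⟨hc.1 b hb, hm a (by simp), hm b ?_⟩,
      ih hc.2 fun v hv => hm v (List.mem_cons_of_mem _ hv)⟩
    exact List.mem_cons_of_mem _ (List.mem_of_mem_head? hb)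

/-- paths from all the roots -/
theorem root_paths [DecidableEq V] {G : SimpleGraph V} {X : Set V} {A : Finset V} {s : ℕ}
    (hA : A.card = s) {w : Fin s → List V} (hw : Sys G (A : Set V) X w) :
    ∃ P : V → List V, (∀ a ∈ A, (P a).head? = some a ∧ (P a).IsChain G.Adj ∧
      (∃ x ∈ X, x ∈ P a) ∧ ∃ j, P a = w j) ∧
      ∀ a ∈ A, ∀ b ∈ A, a ≠ b → List.Disjoint (P a) (P b) := by
  choose l x h1 h2 h3 h4 using hw.1
  choose hd hd1 hd2 using fun i => (h4 i).2.1
  have hinj : Function.Injective hd := by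
    intro i j hij
    by_contra hne
    have hw2 := hw.2 i j hne
    refine hw2 (a := hd i) (List.mem_of_head? (hd2 i)) ?_
    rw [hij]
    exact List.mem_of_head? (hd2 j)
  have himg : Finset.univ.image hd = A := by
    refine Finset.eq_of_subset_of_card_le (fun a ha => ?_) ?_
    · obtain ⟨i, -, rfl⟩ := Finset.mem_image.1 ha
      exact hd1 i
    · rw [Finset.card_image_of_injective _ hinj, Finset.card_univ, Fintype.card_fin, hA]
  have hex : ∀ a, ∃ l : List V, a ∈ A → ∃ j, hd j = a ∧ l = w j := by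
    intro a
    by_cases ha : a ∈ A
    · rw [← himg] at ha
      obtain ⟨j, -, hj⟩ := Finset.mem_image.1 ha
      exact ⟨w j, fun _ => ⟨j, hj, rfl⟩⟩
    · exact ⟨[], fun h => absurd h ha⟩
  choose P hP using hex
  refine ⟨P, fun a ha => ?_, fun a ha b hb hab => ?_⟩
  · obtain ⟨j, hj, hPj⟩ := hP a ha
    rw [hPj]
    refine ⟨by rw [hd2 j, hj], (h4 j).1, ⟨x j, h2 j, by rw [h1 j]; simp⟩, j, rfl⟩
  · obtain ⟨j, hj, hPj⟩ := hP a ha
    obtain ⟨k, hk, hPk⟩ := hP b hb
    rw [hPj, hPk]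
    refine hw.2 j k ?_
    rintro rfl
    exact hab (hj.symm.trans hk)

theorem RI.map {G G' : SimpleGraph V} {s s' : Set V} {t x : V} (h : RI G s t x)
    (hs : ∀ v ∈ s, v ∈ s') (hadj : ∀ v ∈ s, ∀ w ∈ s, G.Adj v w → G'.Adj v w) : RI G' s' t x := by
  have hts : t ∈ s := h.1
  have h1 : x ∈ {v | RI G' s' t v} := by
    refine RI.closed h (RI.refl (hs t hts)) fun v hv hvs w hws hvw => ?_
    exact RI.trans hv (RI.adj (hs v hvs) (hs w hws) (hadj v hvs w hws hvw))
  exact h1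

/-- sets which cannot be separated by few vertices are linked -/
theorem linked_of [Fintype V] {G' : SimpleGraph V} (A X : Set V) (s : ℕ)
    (h : ∀ S : Finset V, S.card < s → ∃ t ∈ A, ∃ x ∈ X, RI G' {v | v ∉ S} t x) :
    Linked G' A X s := by
  classical
  refine menger_walk _ G' le_rfl _ _ s fun Y hY => ?_
  by_contra hcon
  push Not at hcon
  obtain ⟨t, ht, x, hx, hr⟩ := h Y hcon
  obtain ⟨l, hl1, hl2, hl3, hl4⟩ := list_of_RI hr
  obtain ⟨v, hv, hvY⟩ := hY l ⟨hl1, ⟨t, ht, hl2⟩, ⟨x, hx, hl3⟩⟩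
  exact hl4 v hv hvY

/-- disjoint paths from a set of roots to a gadget and many free sets -/
theorem fan [Fintype V] [DecidableEq V] {G : SimpleGraph V} {Q : Set V} {A W₀ : Finset V}
    {a s r : ℕ} (ha : 1 ≤ a) (hAs : A.card = s) (hs : s ≤ 2 * a) (hAQ : ∀ v ∈ A, v ∈ Q)
    (hWQ : ∀ v ∈ W₀, v ∈ Q) (hne : W₀.Nonempty)
    (hdense : 2 ^ (s + r + 1) * a * W₀.card ≤ sg G W₀)
    (hsep : ∀ S : Finset V, S.card < s → ∀ x ∈ W₀, x ∉ S → ∃ t ∈ A, RI G (Q \ (S : Set V)) t x) :
    ∃ (P : V → Set V) (U : Fin r → Set V),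
      (∀ t ∈ A, (G.induce (P t)).Connected ∧ t ∈ P t ∧ P t ⊆ Q) ∧
      (∀ t ∈ A, ∀ t' ∈ A, t ≠ t' → Disjoint (P t) (P t')) ∧
      (∀ j, (G.induce (U j)).Connected ∧ ∀ v ∈ U j, v ∈ W₀) ∧
      (∀ j j', j ≠ j' → Disjoint (U j) (U j')) ∧
      ∀ t ∈ A, ∀ j, Disjoint (P t) (U j) ∧ ∃ u ∈ P t, ∃ v ∈ U j, G.Adj u v := by
  classical
  obtain ⟨X, U, hX1, hX2, hU1, hU2⟩ := gadget G ha (s + r) W₀ hne hdense
  have hgad : Gad (Gr G Q) (X : Set V) (fun i => (U i : Set V)) (s + r) := by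
    refine ⟨fun i hi => ?_, fun i hi v hv hv' => ?_, fun i hi x hx => ?_, fun i hi j hj v hv hv' => ?_⟩
    · rw [Gr_induce fun v hv => hWQ v ((hU1 i hi).1 hv)]
      exact (hU1 i hi).2.1
    · exact Finset.disjoint_left.1 (hU1 i hi).2.2.1 hv hv'
    · obtain ⟨u, hu, hux⟩ := (hU1 i hi).2.2.2 x hx
      exact ⟨u, hu, hux, hWQ u ((hU1 i hi).1 hu), hWQ x (hX1 hx)⟩
    · by_contra hne
      exact Finset.disjoint_left.1 (hU2 i hi j hj hne) hv hv'
  have hlink : Linked (Gr G Q) (A : Set V) (X : Set V) s := by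
    refine linked_of _ _ _ fun Y hY => ?_
    obtain ⟨x, hx, hxY⟩ : ∃ x ∈ X, x ∉ Y := by
      by_contra h
      push Not at h
      have := Finset.card_le_card (show X ⊆ Y from h)
      omega
    obtain ⟨t, ht, hr⟩ := hsep Y hY x (hX1 hx) hxY
    exact ⟨t, ht, x, hx, hr.map (fun v hv => hv.2) fun v hv w hw hvw => ⟨hvw, hv.1, hw.1⟩⟩
  obtain ⟨w, hw, F, hF1, hF2⟩ := free_sets hgad hlink (X' := X) subset_rfl (by omega)
  obtain ⟨P, hP1, hP2⟩ := root_paths hAs hw
  obtain ⟨f, hf1, hf2⟩ : ∃ f : Fin r → ℕ, Function.Injective f ∧ ∀ i, f i ∈ F := by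
    obtain ⟨S', h1, h2⟩ := Finset.exists_subset_card_eq (s := F) (n := r) (by omega)
    refine ⟨fun i => (S'.equivFinOfCardEq h2).symm i, ?_, fun i => h1 (Finset.coe_mem _)⟩
    intro i j hij
    exact (S'.equivFinOfCardEq h2).symm.injective (Subtype.ext hij)
  have hfN : ∀ i, f i < s + r := fun i => (hF2 _ (hf2 i)).1
  have hPself : ∀ a ∈ A, a ∈ P a := fun a ha => List.mem_of_head? (hP1 a ha).1
  refine ⟨fun t => {v | v ∈ P t}, fun j => (U (f j) : Set V), fun t ht => ⟨?_, hPself t ht, ?_⟩,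
    fun t ht t' ht' hne => ?_, fun j => ⟨(hU1 _ (hfN j)).2.1, fun v hv => (hU1 _ (hfN j)).1 hv⟩,
    fun j j' hne => ?_, fun t ht j => ⟨?_, ?_⟩⟩
  · refine conn_list (P t) ?_ ((hP1 t ht).2.1.imp fun u v h => h.1)
    intro h
    have := hPself t ht
    rw [h] at this
    simp at this
  · intro v hv
    refine list_Gr (P t) (hP1 t ht).2.1 (fun b hb => ?_) v hv
    rw [(hP1 t ht).1] at hb
    simp only [Option.some.injEq] at hb
    rw [← hb]
    exact hAQ t ht
  · rw [Set.disjoint_left]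
    intro v hv hv'
    exact hP2 t ht t' ht' hne hv hv'
  · exact Finset.disjoint_coe.2 (hU2 _ (hfN j) _ (hfN j') fun h => hne (hf1 h))
  · rw [Set.disjoint_left]
    intro v hv hv'
    obtain ⟨i, hi⟩ := (hP1 t ht).2.2.2
    have hv2 : v ∈ P t := hv
    rw [hi] at hv2
    exact (hF2 _ (hf2 j)).2 i v hv2 hv'
  · obtain ⟨x, hx, hxP⟩ := (hP1 t ht).2.2.1
    obtain ⟨u, hu, hux⟩ := (hU1 _ (hfN j)).2.2.2 x hx
    exact ⟨x, hxP, u, hu, hux.symm⟩

/-- the pieces of the minor in a cell -/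
structure CellOK (G : SimpleGraph V) {ι : Type*} (α β : ι → V) (I : Set V) (H : ι → Set V)
    (W : Set V) : Prop where
  conn : ∀ x, (G.induce (H x)).Connected
  mem : ∀ x, α x ∈ H x ∧ β x ∈ H x
  sub : ∀ x, ∀ v ∈ H x, v = α x ∨ v = β x ∨ v ∈ I
  tie : (G.induce W).Connected ∧ W ⊆ I
  dis : ∀ x y, x ≠ y → Disjoint (H x) (H y)
  adj : ∀ x, Disjoint (H x) W ∧ ∃ u ∈ H x, ∃ v ∈ W, G.Adj u v

theorem mkCell {G : SimpleGraph V} {ι : Type*} (α : Bool → ι → V) (I : Set V)
    (F : Bool → ι → Set V) (U : Option ι → Set V)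
    (h1 : ∀ b x, (G.induce (F b x)).Connected ∧ α b x ∈ F b x ∧
      ∀ v ∈ F b x, v = α false x ∨ v = α true x ∨ v ∈ I)
    (h2 : ∀ b x o, Disjoint (F b x) (U o) ∧ ∃ u ∈ F b x, ∃ v ∈ U o, G.Adj u v)
    (h3 : ∀ o, (G.induce (U o)).Connected ∧ U o ⊆ I)
    (h4 : ∀ o o', o ≠ o' → Disjoint (U o) (U o'))
    (h5 : ∀ x y, x ≠ y → ∀ b b', Disjoint (F b x) (F b' y)) :
    ∃ H W, CellOK G (α false) (α true) I H W := by
  refine ⟨fun x => F false x ∪ U (some x) ∪ F true x, U none, ?_, ?_, ?_, h3 none, ?_, ?_⟩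
  · intro x
    obtain ⟨u, hu, v, hv, huv⟩ := (h2 false x (some x)).2
    obtain ⟨u', hu', v', hv', huv'⟩ := (h2 true x (some x)).2
    have h := conn_union (h1 false x).1 (h3 (some x)).1 (u := u) (v := v) hu hv (Or.inr huv)
    exact conn_union h (h1 true x).1 (u := v') (v := u') (Or.inr hv') hu' (Or.inr huv'.symm)
  · intro x
    exact ⟨Or.inl (Or.inl (h1 false x).2.1), Or.inr (h1 true x).2.1⟩
  · rintro x v ((hv | hv) | hv)
    · exact (h1 false x).2.2 v hv
    · exact Or.inr (Or.inr ((h3 _).2 hv))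
    · exact (h1 true x).2.2 v hv
  · intro x y hxy
    have hs : (some x : Option ι) ≠ some y := fun h => hxy (Option.some.inj h)
    rw [Set.disjoint_left]
    rintro v ((hv | hv) | hv) ((hv' | hv') | hv')
    · exact Set.disjoint_left.1 (h5 x y hxy false false) hv hv'
    · exact Set.disjoint_left.1 (h2 false x (some y)).1 hv hv'
    · exact Set.disjoint_left.1 (h5 x y hxy false true) hv hv'
    · exact Set.disjoint_left.1 (h2 false y (some x)).1 hv' hv
    · exact Set.disjoint_left.1 (h4 _ _ hs) hv hv'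
    · exact Set.disjoint_left.1 (h2 true y (some x)).1 hv' hv
    · exact Set.disjoint_left.1 (h5 x y hxy true false) hv hv'
    · exact Set.disjoint_left.1 (h2 true x (some y)).1 hv hv'
    · exact Set.disjoint_left.1 (h5 x y hxy true true) hv hv'
  · intro x
    refine ⟨?_, ?_⟩
    · rw [Set.disjoint_left]
      rintro v ((hv | hv) | hv) hv'
      · exact Set.disjoint_left.1 (h2 false x none).1 hv hv'
      · exact Set.disjoint_left.1 (h4 _ _ (by simp)) hv hv'
      · exact Set.disjoint_left.1 (h2 true x none).1 hv hv'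
    · obtain ⟨u, hu, v, hv, huv⟩ := (h2 false x none).2
      exact ⟨u, Or.inl (Or.inl hu), v, hv, huv⟩

section

variable {G : SimpleGraph V} {Z : Finset V} {m : ℕ} {O : ℕ → Set V} {M : ℕ → Finset V} {p n : ℕ}

open Classical in
/-- the middle of a cell is dense -/
theorem Good.dense [Fintype V] (S : Good G Z m O M p n) {e D b : ℕ} (he : e + 3 ≤ m)
    (hdeg : ∀ v ∈ Rn O M e (e + 3), D ≤ (Finset.univ.filter fun u => G.Adj v u).card)
    (hb : Z.card ≤ b)
    {K : ℕ} (hK : 2 * K + b ≤ D) :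
    K * (Finset.univ.filter (· ∈ Rg O M e (e + 3))).card ≤
      sg G (Finset.univ.filter (· ∈ Rg O M e (e + 3))) := by
  have hst := S.toStrip
  set W := Finset.univ.filter (· ∈ Rg O M e (e + 3)) with hW
  set W' := Finset.univ.filter (· ∈ Rn O M e (e + 3)) with hW'
  have h1 : ∀ v ∈ W', 2 * K ≤ dW G W v := by
    intro v hv
    rw [hW', Finset.mem_filter] at hv
    have h2 : (Finset.univ.filter fun u => G.Adj v u) ⊆ (W.filter fun u => G.Adj v u) ∪ Z := by
      intro u hu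
      rw [Finset.mem_filter] at hu
      rw [Finset.mem_union]
      by_cases hz : u ∈ Z
      · exact Or.inr hz
      · left
        rw [Finset.mem_filter, hW, Finset.mem_filter]
        exact ⟨⟨Finset.mem_univ _, hst.adjR (by omega) he hv.2 hu.2 hz⟩, hu.2⟩
    have h3 := (Finset.card_le_card h2).trans (Finset.card_union_le _ _)
    have h4 := hdeg v hv.2
    show 2 * K ≤ (W.filter fun u => G.Adj v u).card
    omega
  have hsub : W' ⊆ W := by
    intro v hv
    rw [hW', Finset.mem_filter] at hv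
    exact Finset.mem_filter.2 ⟨Finset.mem_univ _, hst.Rn_sub hv.2⟩
  have h5 : 2 * K * W'.card ≤ sg G W := by
    unfold sg
    refine le_trans ?_ (Finset.sum_le_sum_of_subset hsub)
    rw [mul_comm, ← smul_eq_mul]
    exact Finset.card_nsmul_le_sum _ _ _ h1
  have h6 : W ⊆ W' ∪ (M e ∪ M (e + 3)) := by
    intro v hv
    rw [hW, Finset.mem_filter] at hv
    rw [Finset.mem_union, Finset.mem_union, hW', Finset.mem_filter]
    by_cases h7 : v ∈ M e
    · exact Or.inr (Or.inl h7)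
    · rcases hv.2.1 with h8 | h8
      · exact Or.inl ⟨Finset.mem_univ _, h8, hv.2.2, h7⟩
      · exact Or.inr (Or.inr h8)
  have h7 : M (e + 1) ∪ M (e + 2) ⊆ W' := by
    intro v hv
    rw [hW', Finset.mem_filter]
    refine ⟨Finset.mem_univ _, ?_⟩
    rcases Finset.mem_union.1 hv with h | h
    · exact hst.M_Rn (by omega) (by omega) he h
    · exact hst.M_Rn (by omega) (by omega) he h
  have h8 : Disjoint (M (e + 1)) (M (e + 2)) := by
    rw [Finset.disjoint_left]
    intro v hv hv'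
    have := hst.M_disj (by omega) (by omega) hv hv'
    omega
  have h9 := Finset.card_le_card h7
  rw [Finset.card_union_of_disjoint h8] at h9
  have e1 := (PC.sub hst S.pc (i := e + 1) (j := m) (by omega) le_rfl).card
  have e2 := (PC.sub hst S.pc (i := e + 2) (j := m) (by omega) le_rfl).card
  have e3 := S.card e (by omega)
  have e4 := S.card (e + 3) he
  have e5 := (Finset.card_le_card h6).trans (Finset.card_union_le _ _)
  have e6 := Finset.card_union_le (M e) (M (e + 3))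
  have e7 : W.card ≤ 2 * W'.card := by omega
  calc K * W.card ≤ K * (2 * W'.card) := Nat.mul_le_mul_left _ e7
    _ = 2 * K * W'.card := by ring
    _ ≤ sg G W := h5

/-- the cut vertices used in a cell -/
theorem QQ_Rn {c c' : ℕ} {T T' : Finset V} {v : V} (h : v ∈ QQ O M Z c c' T T') :
    v ∈ T ∨ v ∈ T' ∨ v ∈ Z ∨ v ∈ Rn O M c c' := by
  rcases h with h | ⟨h1, h2, h3⟩
  · exact Or.inr (Or.inr (Or.inl h))
  · by_cases h4 : v ∈ M c
    · exact Or.inl (h2 h4)
    · by_cases h5 : v ∈ M c'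
      · exact Or.inr (Or.inl (h3 h5))
      · exact Or.inr (Or.inr (Or.inr ⟨h1.1.resolve_right h5, h1.2, h4⟩))

/-- labelled free sets -/
theorem relabel {ι : Type*} [Fintype ι] {r : ℕ} (h : Fintype.card ι + 1 = r) :
    ∃ f : Option ι → Fin r, Function.Injective f := by
  have : Fintype.card (Option ι) = r := by rw [Fintype.card_option, h]
  exact ⟨Fintype.equivFinOfCardEq this, Equiv.injective _⟩

/-- first case: the roots cannot be separated from the dense middle -/
theorem Good.cellA [Fintype V] [DecidableEq V] {a g s c c' : ℕ} {W₀ : Finset V}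
    (S : Good G Z m O M p n) (ha : 1 ≤ a) (hg : g + Z.card = a)
    (hs : s + Z.card = 2 * a) (hcc : c < c') (hcm : c' ≤ m)
    (hW₀ : ∀ v ∈ W₀, v ∈ Rn O M c c') (hne : W₀.Nonempty)
    (hdense : 2 ^ (s + (a + 1) + 1) * a * W₀.card ≤ sg G W₀)
    (τ : Bool → Fin g → V) (hτi : ∀ b, Function.Injective (τ b)) (hτ : ∀ i, τ false i ∈ M c)
    (hτ' : ∀ i, τ true i ∈ M c')
    (hsep : ∀ S : Finset V, S.card < s → ∀ x ∈ W₀, x ∉ S → ∃ t,
      (t ∈ Finset.univ.image (τ false) ∨ t ∈ Finset.univ.image (τ true) ∨ t ∈ Z) ∧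
      RI G (QQ O M Z c c' (Finset.univ.image (τ false)) (Finset.univ.image (τ true)) \
        (S : Set V)) t x) :
    ∃ H W, CellOK G (ι := Fin g ⊕ Z) (Sum.elim (τ false) fun z => z.1)
      (Sum.elim (τ true) fun z => z.1) (Rn O M c c') H W := by
  classical
  have hst := S.toStrip
  set T := Finset.univ.image (τ false) with hTdef
  set T' := Finset.univ.image (τ true) with hTdef'
  have hT : T ⊆ M c := by
    intro v hv
    obtain ⟨i, -, rfl⟩ := Finset.mem_image.1 hv
    exact hτ i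
  have hT' : T' ⊆ M c' := by
    intro v hv
    obtain ⟨i, -, rfl⟩ := Finset.mem_image.1 hv
    exact hτ' i
  have hTg : T.card = g := by
    rw [hTdef, Finset.card_image_of_injective _ (hτi _), Finset.card_univ, Fintype.card_fin]
  have hTg' : T'.card = g := by
    rw [hTdef', Finset.card_image_of_injective _ (hτi _), Finset.card_univ, Fintype.card_fin]
  set Q := QQ O M Z c c' T T' with hQ
  set A := T ∪ T' ∪ Z with hA
  have dTT : ∀ v, v ∈ T → v ∈ T' → False := by
    intro v hv hv'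
    have := hst.M_disj (by omega) hcm (hT hv) (hT' hv')
    omega
  have dTZ : ∀ v, v ∈ T → v ∈ Z → False := fun v hv hv' =>
    hst.z_not (i := c) (j := c) (by omega) hv' (hst.M_Rg le_rfl le_rfl (by omega) (hT hv))
  have dTZ' : ∀ v, v ∈ T' → v ∈ Z → False := fun v hv hv' =>
    hst.z_not (i := c') (j := c') hcm hv' (hst.M_Rg le_rfl le_rfl hcm (hT' hv))
  have hAcard : A.card = s := by
    have h1 : Disjoint T T' := Finset.disjoint_left.2 fun v hv hv' => dTT v hv hv'
    have h2 : Disjoint (T ∪ T') Z := by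
      rw [Finset.disjoint_left]
      intro v hv hv'
      rcases Finset.mem_union.1 hv with h | h
      · exact dTZ v h hv'
      · exact dTZ' v h hv'
    rw [hA, Finset.card_union_of_disjoint h2, Finset.card_union_of_disjoint h1]
    omega
  have hAm : ∀ v, v ∈ A ↔ v ∈ T ∨ v ∈ T' ∨ v ∈ Z := by
    intro v
    rw [hA, Finset.mem_union, Finset.mem_union, or_assoc]
  have hAQ : ∀ v ∈ A, v ∈ Q := by
    intro v hv
    rcases (hAm v).1 hv with h | h | h
    · right
      exact ⟨hst.M_Rg le_rfl (by omega) hcm (hT h), fun _ => h, fun h' =>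
        absurd (hst.M_disj (by omega) hcm (hT h) h') (by omega)⟩
    · right
      exact ⟨hst.M_Rg (by omega) le_rfl hcm (hT' h), fun h' =>
        absurd (hst.M_disj (by omega) hcm h' (hT' h)) (by omega), fun _ => h⟩
    · exact Or.inl h
  have hRnA : ∀ v ∈ Rn O M c c', v ∈ Q := by
    intro v hv
    exact Or.inr ⟨hst.Rn_sub hv, fun h => absurd h hv.2.2, fun h =>
      absurd hv.1 (hst.disj c' hcm v h)⟩
  obtain ⟨P, U, k1, k2, k3, k4, k5⟩ := fan (r := a + 1) ha hAcard (by omega) hAQ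
    (fun v hv => hRnA v (hW₀ v hv)) hne hdense (fun Y hY x hx hxY => by
      obtain ⟨t, ht, hr⟩ := hsep Y hY x hx hxY
      exact ⟨t, (hAm t).2 ht, hr⟩)
  have hι : Fintype.card (Fin g ⊕ Z) + 1 = a + 1 := by
    rw [Fintype.card_sum, Fintype.card_fin, Fintype.card_coe, hg]
  obtain ⟨f, hf⟩ := relabel hι
  let α : Bool → Fin g ⊕ Z → V := fun b => Sum.elim (τ b) fun z => z.1
  have hαA : ∀ b x, α b x ∈ A := by
    rintro (_ | _) (i | z)
    · exact (hAm _).2 (Or.inl (Finset.mem_image_of_mem _ (Finset.mem_univ _)))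
    · exact (hAm _).2 (Or.inr (Or.inr z.2))
    · exact (hAm _).2 (Or.inr (Or.inl (Finset.mem_image_of_mem _ (Finset.mem_univ _))))
    · exact (hAm _).2 (Or.inr (Or.inr z.2))
  have hαT : ∀ i, τ false i ∈ T := fun i => Finset.mem_image_of_mem _ (Finset.mem_univ _)
  have hαT' : ∀ i, τ true i ∈ T' := fun i => Finset.mem_image_of_mem _ (Finset.mem_univ _)
  have e1 : ∀ i j, τ false i ≠ τ true j := fun i j h =>
    dTT _ (hαT i) (by rw [h]; exact hαT' j)
  have e2 : ∀ b i (z : Z), τ b i ≠ z.1 := by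
    rintro (_ | _) i z h
    · exact dTZ _ (hαT i) (by rw [h]; exact z.2)
    · exact dTZ' _ (hαT' i) (by rw [h]; exact z.2)
  have hαne : ∀ x y, x ≠ y → ∀ b b', α b x ≠ α b' y := by
    rintro (i | z) (j | z') hne b b' h
    · have hij : i ≠ j := fun h => hne (by rw [h])
      rcases b with _ | _ <;> rcases b' with _ | _
      · exact hij (hτi _ h)
      · exact e1 i j h
      · exact e1 j i h.symm
      · exact hij (hτi _ h)
    · exact e2 b i z' h
    · exact e2 b' j z h.symm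
    · exact hne (by rw [Subtype.ext h])
  refine mkCell α (Rn O M c c') (fun b x => P (α b x)) (fun o => U (f o)) ?_ ?_ ?_ ?_ ?_
  · intro b x
    obtain ⟨h1, h2, h3⟩ := k1 _ (hαA b x)
    refine ⟨h1, h2, fun v hv => ?_⟩
    have h4 : v ∈ A → v = α b x := by
      intro hvA
      by_contra hne
      exact Set.disjoint_left.1 (k2 v hvA _ (hαA b x) hne) (k1 v hvA).2.1 hv
    have h5 : v ∈ A ∨ v ∈ Rn O M c c' := by
      rcases QQ_Rn (h3 hv) with h | h | h | h
      · exact Or.inl ((hAm v).2 (Or.inl h))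
      · exact Or.inl ((hAm v).2 (Or.inr (Or.inl h)))
      · exact Or.inl ((hAm v).2 (Or.inr (Or.inr h)))
      · exact Or.inr h
    rcases h5 with h5 | h5
    · rcases b with _ | _
      · exact Or.inl (h4 h5)
      · exact Or.inr (Or.inl (h4 h5))
    · exact Or.inr (Or.inr h5)
  · intro b x o
    exact k5 _ (hαA b x) _
  · intro o
    exact ⟨(k3 _).1, fun v hv => hW₀ v ((k3 _).2 v hv)⟩
  · intro o o' hne
    exact k4 _ _ fun h => hne (hf h)
  · intro x y hxy b b'
    exact k2 _ (hαA b x) _ (hαA b' y) (hαne x y hxy b b')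

end

end TWk
end
end
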