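import Pool.Agent.Lib.MP_cfc9ed_co.T4

/-!
# MP_cfc9ed_co: tree decompositions give elimination schemes
-/

set_option autoImplicit false

namespace TWk

open SimpleGraph Relation

section tree

variable {ι : Type*} {T : SimpleGraph ι}

/-- the parent in a rooted tree is unique -/
theorem parent_unique (hT : T.IsTree) (r : ι) {x y z : ι} (hy : T.Adj x y) (hz : T.Adj x z)
    (hy' : T.dist r y < T.dist r x) (hz' : T.dist r z < T.dist r x) : y = z := by
  classical
  obtain ⟨p, hp, hp'⟩ := (hT.connected r x).exists_path_of_dist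
  have key : ∀ y, T.Adj x y → T.dist r y < T.dist r x → y = p.penultimate := by
    intro y hy hy'
    obtain ⟨q, hq, hq'⟩ := (hT.connected r y).exists_path_of_dist
    have hx : x ∉ q.support := by
      intro h
      have h1 := dist_le (q.takeUntil x h)
      have h2 := q.length_takeUntil_le_length h
      omega
    exact hT.isAcyclic.eq_penultimate_of_adj_end hp hy
      (hT.isAcyclic.mem_support_of_ne_mem_support_of_adj_of_isPath hp hq hy hx)
  rw [key y hy hy', key z hz hz']

/-- in a connected set, a vertex which is not the highest has its parent in the set -/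
theorem exists_up (hT : T.IsTree) (r : ι) {S : Set ι} (hS : (T.induce S).Connected) {s t : ι}
    (hs : s ∈ S) (ht : t ∈ S) (hne : s ≠ t) (hd : T.dist r t ≤ T.dist r s) :
    ∃ y ∈ S, T.Adj s y ∧ T.dist r y < T.dist r s := by
  by_contra hcon
  push Not at hcon
  have hr := hS.preconnected ⟨s, hs⟩ ⟨t, ht⟩
  rw [reachable_iff_reflTransGen] at hr
  -- descending chains
  have key : ∀ x : S, ReflTransGen (T.induce S).Adj ⟨s, hs⟩ x →
      ReflTransGen (fun a b : ι => T.Adj a b ∧ T.dist r a < T.dist r b) s x.1 := by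
    intro x hx
    induction hx with
    | refl => exact ReflTransGen.refl
    | @tail b c _ hadj ih =>
      have hadj' : T.Adj b.1 c.1 := hadj
      rcases hT.dist_eq_dist_add_one_of_adj r hadj' with h1 | h1
      · -- `c` is the parent of `b`
        rcases ReflTransGen.cases_tail ih with h2 | ⟨d, h2, h3⟩
        · have h4 := hcon c.1 c.2 (by rw [← h2]; exact hadj')
          rw [← h2] at h4
          omega
        · have : c.1 = d := parent_unique hT r hadj' h3.1.symm (by omega) h3.2
          rw [this]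
          exact h2
      · exact ReflTransGen.tail ih ⟨hadj', by omega⟩
  have h1 := key _ hr
  rcases ReflTransGen.cases_head h1 with h2 | ⟨b, h2, h3⟩
  · exact hne h2
  · have h4 : ∀ x, ReflTransGen (fun a b : ι => T.Adj a b ∧ T.dist r a < T.dist r b) b x →
        T.dist r b ≤ T.dist r x := by
      intro x hx
      induction hx with
      | refl => exact le_rfl
      | tail _ h5 ih => exact ih.trans h5.2.le
    have h5 := h4 _ h3
    have h6 := h2.2
    have h7 : T.dist r b ≤ T.dist r t := h5
    omega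

/-- the highest vertex of the lower set belongs to the other set -/
theorem top_mem (hT : T.IsTree) (r : ι) {S S' : Set ι} (hS : (T.induce S).Connected)
    (hS' : (T.induce S').Connected) {t0 τ τ' : ι} (h0 : t0 ∈ S) (h0' : t0 ∈ S') (hτ : τ ∈ S)
    (hτ' : τ' ∈ S') (hmin' : ∀ s ∈ S', T.dist r τ' ≤ T.dist r s)
    (hle : T.dist r τ ≤ T.dist r τ') : τ' ∈ S := by
  have key : ∀ (n : ℕ) (t0 : ι), T.dist r t0 = n → t0 ∈ S → t0 ∈ S' → τ' ∈ S := by
    intro n
    induction n using Nat.strong_induction_on with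
    | _ n ih =>
      intro t0 hn h0 h0'
      by_cases h1 : t0 = τ'
      · rw [← h1]; exact h0
      · obtain ⟨y, hy, hy1, hy2⟩ := exists_up hT r hS' h0' hτ' h1 (hmin' t0 h0')
        have h3 := hmin' y hy
        have h2 : t0 ≠ τ := by
          rintro rfl
          omega
        obtain ⟨z, hz, hz1, hz2⟩ := exists_up hT r hS h0 hτ h2 (by omega)
        have : y = z := parent_unique hT r hy1 hz1 hy2 hz2
        subst this
        exact ih _ (by omega) y rfl hz hy
  exact key _ t0 rfl h0 h0'

end tree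

/-- `G` has a tree-decomposition of width at most `n` -/
def TreewidthLE {V : Type} (G : SimpleGraph V) (n : ℕ) : Prop :=
  ∃ (ι : Type) (T : SimpleGraph ι) (B : ι → Finset V), T.IsTree ∧
    (∀ u v, G.Adj u v → ∃ t, u ∈ B t ∧ v ∈ B t) ∧
    (∀ v, (T.induce {t | v ∈ B t}).Connected) ∧ ∀ t, (B t).card ≤ n + 1

theorem exists_elim {V : Type} [Fintype V] (G : SimpleGraph V) (n : ℕ) (h : TreewidthLE G n) :
    ∃ (ord : V → ℕ) (K : V → Finset V), Elim G n ord K := by
  classical
  obtain ⟨ι, T, B, hT, hedge, hconn, hcard⟩ := h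
  obtain ⟨r⟩ := hT.connected.nonempty
  have htop : ∀ v, ∃ t, v ∈ B t ∧ ∀ s, v ∈ B s → T.dist r t ≤ T.dist r s := by
    intro v
    obtain ⟨⟨t₀, ht₀⟩⟩ := (hconn v).nonempty
    have hex : ∃ n, ∃ t, v ∈ B t ∧ T.dist r t = n := ⟨_, t₀, ht₀, rfl⟩
    obtain ⟨t, ht1, ht2⟩ := Nat.find_spec hex
    refine ⟨t, ht1, fun s hs => ?_⟩
    rw [ht2]
    exact Nat.find_min' hex ⟨s, hs, rfl⟩
  choose τ hτ1 hτ2 using htop
  let e := Fintype.equivFin V
  set N := Fintype.card V with hN
  let ord : V → ℕ := fun v => T.dist r (τ v) * N + (e v : ℕ)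
  have hlt : ∀ v, (e v : ℕ) < N := fun v => (e v).2
  have hord : ∀ u v, ord u < ord v → T.dist r (τ u) ≤ T.dist r (τ v) := by
    intro u v h
    by_contra hcon
    push Not at hcon
    have h1 : (T.dist r (τ v) + 1) * N ≤ T.dist r (τ u) * N := Nat.mul_le_mul_right _ hcon
    have h2 := hlt v
    simp only [ord] at h
    rw [add_mul, one_mul] at h1
    omega
  have hinj : Function.Injective ord := by
    intro u v h
    have h1 : (ord u) % N = (ord v) % N := by rw [h]
    simp only [ord, Nat.mul_add_mod_self_right, Nat.mod_eq_of_lt (hlt _)] at h1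
    exact e.injective (Fin.ext h1)
  have hmem : ∀ u v t, u ∈ B t → v ∈ B t → ord u < ord v → u ∈ B (τ v) := by
    intro u v t hu hv huv
    exact top_mem (S := {t | u ∈ B t}) (S' := {t | v ∈ B t}) (t0 := t) (τ := τ u) hT r (hconn u)
      (hconn v) hu hv (hτ1 u) (hτ1 v) (hτ2 v) (hord u v huv)
  refine ⟨ord, fun v => (B (τ v)).filter fun u => ord u < ord v, hinj, ?_, ?_, ?_, ?_⟩
  · intro u v h
    exact (Finset.mem_filter.1 h).2
  · intro u v h huv
    obtain ⟨t, h1, h2⟩ := hedge u v h
    exact Finset.mem_filter.2 ⟨hmem u v t h1 h2 huv, huv⟩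
  · intro u u' v h h' huu'
    exact Finset.mem_filter.2 ⟨hmem u u' (τ v) (Finset.mem_filter.1 h).1 (Finset.mem_filter.1 h').1
      huu', huu'⟩
  · intro v
    have h1 : ((B (τ v)).filter fun u => ord u < ord v) ⊆ (B (τ v)).erase v := by
      intro u hu
      rw [Finset.mem_filter] at hu
      refine Finset.mem_erase.2 ⟨?_, hu.1⟩
      rintro rfl
      exact lt_irrefl _ hu.2
    have h2 := Finset.card_le_card h1
    rw [Finset.card_erase_of_mem (hτ1 v)] at h2
    have h3 := hcard (τ v)
    omega

/-- large `κ`-connected graphs of tree-width at most `κ` have `K_{a,k}` minors, `κ ≥ 2a+1` -/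
theorem main (a κ k : ℕ) (ha : 2 * a + 1 ≤ κ) :
    ∃ N : ℕ, ∀ (V : Type) [Fintype V] (G : SimpleGraph V),
      Conn G κ → TreewidthLE G κ → N ≤ Fintype.card V → HasK G a k := by
  obtain ⟨N, hN⟩ := main_elim a κ k ha
  refine ⟨N, fun V _ G hG hT hcard => ?_⟩
  obtain ⟨ord, K, H⟩ := exists_elim G κ hT
  exact hN V G ord K hG H hcard

end TWk
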