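import Pool.Agent.Lib.MP_cfc9ed_co.D6
import Pool.Agent.Lib.MP_cfc9ed_co.T5

section

/-!
# MP_cfc9ed_co: two applications of Menger's theorem

`A1`, `A2` (with `a` elements each) and `X0` (with `2 a - 1` elements): there are disjoint connected sets
joining the vertices of `X0` to the roots, one of them joined to a vertex of `A1` and to a vertex of
`A2`.
-/

set_option autoImplicit false

namespace TWk

open SimpleGraph Relation Pool.Agent.Lib.MP_699f60_co

variable {V : Type*}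

/-- disjoint paths as connected sets -/
theorem sys_sets [DecidableEq V] {G' : SimpleGraph V} {X : Set V} {A : Finset V} {s : ℕ}
    (hA : A.card = s) (hL : Linked G' (A : Set V) X s) :
    ∃ (P : V → Set V) (t : V → V), (∀ x ∈ A, (G'.induce (P x)).Connected ∧ x ∈ P x ∧ t x ∈ X ∧
      t x ∈ P x ∧ (∀ v ∈ P x, v ∈ X → v = t x) ∧ (x = t x ∨ ∃ Q : Set V,
        (G'.induce Q).Connected ∧ x ∈ Q ∧ Q ⊆ P x ∧ (∀ v ∈ Q, v ∉ X) ∧ ∃ u ∈ Q, G'.Adj u (t x))) ∧
      ∀ x ∈ A, ∀ y ∈ A, x ≠ y → Disjoint (P x) (P y) := by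
  obtain ⟨w, hw⟩ := exists_sys hL
  obtain ⟨P, hP1, hP2⟩ := root_paths hA hw
  have key : ∀ x, ∃ (l : List V) (e : V), x ∈ A → P x = l ++ [e] ∧ e ∈ X ∧ ∀ v ∈ l, v ∉ X := by
    intro x
    by_cases hx : x ∈ A
    · obtain ⟨j, hj⟩ := (hP1 x hx).2.2.2
      obtain ⟨l, e, h1, h2, h3, -⟩ := hw.1 j
      exact ⟨l, e, fun _ => ⟨hj.trans h1, h2, h3⟩⟩
    · exact ⟨[], x, fun h => absurd h hx⟩
  choose l t hlt using key
  refine ⟨fun x => {v | v ∈ P x}, t, fun x hx => ?_, fun x hx y hy hxy => ?_⟩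
  · obtain ⟨h1, h2, h3⟩ := hlt x hx
    obtain ⟨g1, g2, -, -⟩ := hP1 x hx
    have hne : P x ≠ [] := by
      rw [h1]
      simp
    refine ⟨conn_list _ hne g2, List.mem_of_head? g1, h2, ?_, ?_, ?_⟩
    · show t x ∈ P x
      rw [h1]
      simp
    · intro v hv hvX
      have hv' : v ∈ P x := hv
      rw [h1] at hv'
      rcases List.mem_append.1 hv' with h | h
      · exact absurd hvX (h3 v h)
      · exact List.mem_singleton.1 h
    · rcases hl : l x with _ | ⟨b, l'⟩
      · left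
        rw [h1, hl] at g1
        simp only [List.nil_append, List.head?_cons, Option.some.injEq] at g1
        exact g1.symm
      · right
        rw [h1] at g1 g2
        rw [List.isChain_append] at g2
        have hne' : l x ≠ [] := by rw [hl]; simp
        refine ⟨{v | v ∈ l x}, conn_list _ hne' g2.1, ?_, ?_, h3, ?_⟩
        · rw [hl] at g1
          simp only [List.cons_append, List.head?_cons, Option.some.injEq] at g1
          show x ∈ l x
          rw [hl, g1]
          simp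
        · intro v hv
          show v ∈ P x
          rw [h1]
          exact List.mem_append_left _ hv
        · obtain ⟨u, hu⟩ : ∃ u, (l x).getLast? = some u := by
            cases h : (l x).getLast? with
            | none => exact absurd (List.getLast?_eq_none_iff.1 h) hne'
            | some u => exact ⟨u, rfl⟩
          exact ⟨u, List.mem_of_getLast? hu, g2.2.2 u hu (t x) rfl⟩
  · rw [Set.disjoint_left]
    intro v hv hv'
    exact hP2 x hx y hy hxy hv hv'

/-- `G` on `Ω'`, and a vertex `l0` joined to all neighbours of `VL` -/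
def Gc (G : SimpleGraph V) (Ω' VL : Set V) (l0 : V) : SimpleGraph V where
  Adj u v := u ≠ v ∧ ((G.Adj u v ∧ u ∈ Ω' ∧ v ∈ Ω') ∨ (u = l0 ∧ v ∈ Ω' ∧ ∃ y ∈ VL, G.Adj y v) ∨
    (v = l0 ∧ u ∈ Ω' ∧ ∃ y ∈ VL, G.Adj y u))
  symm := ⟨fun _ _ h => by
    refine ⟨h.1.symm, ?_⟩
    rcases h.2 with h | h | h
    · exact Or.inl ⟨h.1.symm, h.2.2, h.2.1⟩
    · exact Or.inr (Or.inr h)
    · exact Or.inr (Or.inl h)⟩
  loopless := ⟨fun _ h => h.1 rfl⟩

theorem Gc_sub {G : SimpleGraph V} {Ω' VL : Set V} {l0 : V} {P : Set V} {x : V}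
    (hP : ((Gc G Ω' VL l0).induce P).Connected) (hx : x ∈ P) (hx' : x ∈ Ω') (hl : l0 ∉ P) :
    P ⊆ Ω' ∧ (G.induce P).Connected := by
  have h1 : P ⊆ Ω' := by
    intro v hv
    refine RI.closed (RI_of_conn hP hx hv) hx' fun u hu huP w hw huw => ?_
    rcases huw.2 with h | h | h
    · exact h.2.2
    · exact h.2.1
    · exact absurd (h.1 ▸ hw) hl
  refine ⟨h1, ?_⟩
  refine conn_of_RI hx fun v hv => ?_
  refine (RI_of_conn hP hx hv).map (fun _ h => h) fun u hu w hw huw => ?_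
  rcases huw.2 with h | h | h
  · exact h.1
  · exact absurd (h.1 ▸ hu) hl
  · exact absurd (h.1 ▸ hw) hl

/-- the final form of the sets -/
def TS (G : SimpleGraph V) (Ω : Set V) (A1 A2 X0 : Finset V) (e1 e2 : V) (F : V → Set V)
    (ε : V → V) : Prop :=
  e1 ∈ A1 ∧ e2 ∈ A2 ∧
    (∀ t, (t ∈ A1 ∨ t ∈ A2) → (G.induce (F t)).Connected ∧ t ∈ F t ∧ F t ⊆ Ω ∧ ε t ∈ X0 ∧
      ε t ∈ F t ∧ ∀ v ∈ F t, v ∈ X0 → v = ε t) ∧
    ∀ t t', (t ∈ A1 ∨ t ∈ A2) → (t' ∈ A1 ∨ t' ∈ A2) → t ≠ t' → ¬ (t = e1 ∧ t' = e2) →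
      ¬ (t = e2 ∧ t' = e1) → Disjoint (F t) (F t')

theorem TS.swap {G : SimpleGraph V} {Ω : Set V} {A1 A2 X0 : Finset V} {e1 e2 : V}
    {F : V → Set V} {ε : V → V} (h : TS G Ω A1 A2 X0 e1 e2 F ε) : TS G Ω A2 A1 X0 e2 e1 F ε := by
  obtain ⟨h1, h2, h3, h4⟩ := h
  exact ⟨h2, h1, fun t ht => h3 t ht.symm, fun t t' ht ht' hne h5 h6 =>
    h4 t t' ht.symm ht'.symm hne h6 h5⟩

/-- merging two adjacent sets -/
theorem merge [DecidableEq V] {G : SimpleGraph V} {Ω : Set V} {A1 A2 X0 : Finset V} {e1 e2 : V}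
    {B : V → Set V} {ε : V → V} (he1 : e1 ∈ A1) (he2 : e2 ∈ A2)
    (h1 : ∀ t, (t ∈ A1 ∨ t ∈ A2) → (G.induce (B t)).Connected ∧ t ∈ B t ∧ B t ⊆ Ω)
    (h2 : ∀ t, (t ∈ A1 ∨ t ∈ A2) → t ≠ e2 → ε t ∈ X0 ∧ ε t ∈ B t ∧ ∀ v ∈ B t, v ∈ X0 → v = ε t)
    (h3 : ∀ v ∈ B e2, v ∉ X0) (h4 : ∃ u ∈ B e1, ∃ v ∈ B e2, G.Adj u v) (hne : e1 ≠ e2)
    (h5 : ∀ t t', (t ∈ A1 ∨ t ∈ A2) → (t' ∈ A1 ∨ t' ∈ A2) → t ≠ t' → Disjoint (B t) (B t')) :
    ∃ F ε', TS G Ω A1 A2 X0 e1 e2 F ε' := by
  classical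
  obtain ⟨u, hu, v, hv, huv⟩ := h4
  have he1' : e1 ∈ A1 ∨ e1 ∈ A2 := Or.inl he1
  have he2' : e2 ∈ A1 ∨ e2 ∈ A2 := Or.inr he2
  obtain ⟨F, hF1, hF2⟩ : ∃ F : V → Set V, (∀ t, (t = e1 ∨ t = e2) → F t = B e1 ∪ B e2) ∧
      ∀ t, ¬ (t = e1 ∨ t = e2) → F t = B t :=
    ⟨fun t => if t = e1 ∨ t = e2 then B e1 ∪ B e2 else B t, fun t h => if_pos h,
      fun t h => if_neg h⟩
  refine ⟨F, fun t => if t = e2 then ε e1 else ε t, he1, he2, fun t ht => ?_,
    fun t t' ht ht' htt h6 h7 => ?_⟩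
  · obtain ⟨k1, k2, k3⟩ := h2 e1 he1' hne
    by_cases ht1 : t = e1 ∨ t = e2
    · have e3 : (if t = e2 then ε e1 else ε t) = ε e1 := by
        rcases ht1 with h | h
        · rw [h, if_neg hne]
        · rw [if_pos h]
      simp only [e3]
      rw [hF1 t ht1]
      refine ⟨conn_union (h1 e1 he1').1 (h1 e2 he2').1 hu hv (Or.inr huv), ?_,
        Set.union_subset (h1 e1 he1').2.2 (h1 e2 he2').2.2, k1, Or.inl k2, ?_⟩
      · rcases ht1 with h | h
        · rw [h]; exact Or.inl (h1 e1 he1').2.1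
        · rw [h]; exact Or.inr (h1 e2 he2').2.1
      · rintro x (hx | hx) hxX
        · exact k3 x hx hxX
        · exact absurd hxX (h3 x hx)
    · have ht2 : t ≠ e2 := fun h => ht1 (Or.inr h)
      simp only [if_neg ht2]
      rw [hF2 t ht1]
      obtain ⟨m1, m2, m3⟩ := h2 t ht ht2
      exact ⟨(h1 t ht).1, (h1 t ht).2.1, (h1 t ht).2.2, m1, m2, m3⟩
  · by_cases ht1 : t = e1 ∨ t = e2
    · by_cases ht2 : t' = e1 ∨ t' = e2
      · exfalso
        rcases ht1 with h | h <;> rcases ht2 with h' | h'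
        · exact htt (h.trans h'.symm)
        · exact h6 ⟨h, h'⟩
        · exact h7 ⟨h, h'⟩
        · exact htt (h.trans h'.symm)
      · rw [hF1 t ht1, hF2 t' ht2, Set.disjoint_union_left]
        exact ⟨h5 _ _ he1' ht' fun h => ht2 (Or.inl h.symm),
          h5 _ _ he2' ht' fun h => ht2 (Or.inr h.symm)⟩
    · by_cases ht2 : t' = e1 ∨ t' = e2
      · rw [hF2 t ht1, hF1 t' ht2, Set.disjoint_union_right]
        exact ⟨h5 _ _ ht he1' fun h => ht1 (Or.inl h), h5 _ _ ht he2' fun h => ht1 (Or.inr h)⟩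
      · rw [hF2 t ht1, hF2 t' ht2]
        exact h5 _ _ ht ht' htt

/-- second stage: all roots in `A1` are reached from `X0` -/
theorem two_stage_core [Fintype V] [DecidableEq V] {G : SimpleGraph V} {Ω : Set V}
    {A1 A2 X0 : Finset V} {a : ℕ} (ha : 1 ≤ a) (h1 : A1.card = a) (h2 : A2.card = a)
    (h0 : X0.card + 1 = 2 * a) (hd : Disjoint A1 A2) (hA2 : ∀ v ∈ A2, v ∈ Ω)
    (hno2 : ∀ S : Finset V, S.card < a → ∃ t ∈ A2, ∃ u, (u ∈ A1 ∨ u ∈ X0) ∧
      RI G (Ω \ (S : Set V)) t u)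
    (P : V → Set V) (e : V → V)
    (hP : ∀ x ∈ X0, (G.induce (P x)).Connected ∧ x ∈ P x ∧ P x ⊆ Ω ∧ (e x ∈ A1 ∨ e x ∈ A2) ∧
      e x ∈ P x ∧ ∀ v ∈ P x, (v ∈ A1 ∨ v ∈ A2) → v = e x)
    (hPd : ∀ x ∈ X0, ∀ y ∈ X0, x ≠ y → Disjoint (P x) (P y))
    (hcov : ∀ t ∈ A1, ∃ x ∈ X0, e x = t) :
    ∃ e1 e2 F ε, TS G Ω A1 A2 X0 e1 e2 F ε := by
  classical
  have hnd : ∀ v, v ∈ A1 → v ∈ A2 → False := fun v h h' => Finset.disjoint_left.1 hd h h'
  have hPe : ∀ x ∈ X0, ∀ y ∈ X0, ∀ v, v ∈ P x → v ∈ P y → x = y := by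
    intro x hx y hy v hv hv'
    by_contra hne
    exact Set.disjoint_left.1 (hPd x hx y hy hne) hv hv'
  have einj : ∀ x ∈ X0, ∀ y ∈ X0, e x = e y → x = y := by
    intro x hx y hy h
    refine hPe x hx y hy (e x) (hP x hx).2.2.2.2.1 ?_
    rw [h]
    exact (hP y hy).2.2.2.2.1
  have hex : ∀ t, ∃ x, t ∈ A1 → x ∈ X0 ∧ e x = t := by
    intro t
    by_cases ht : t ∈ A1
    · obtain ⟨x, hx, hx'⟩ := hcov t ht
      exact ⟨x, fun _ => ⟨hx, hx'⟩⟩
    · exact ⟨t, fun h => absurd h ht⟩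
  choose lx hlx using hex
  set VL : Set V := {v | ∃ t ∈ A1, v ∈ P (lx t)} with hVL
  have hPA1 : ∀ t ∈ A1, t ∈ P (lx t) := by
    intro t ht
    have := (hP _ (hlx t ht).1).2.2.2.2.1
    rwa [(hlx t ht).2] at this
  obtain ⟨l0, hl0⟩ : A1.Nonempty := Finset.card_pos.1 (by omega)
  have hl0V : l0 ∈ VL := ⟨l0, hl0, hPA1 l0 hl0⟩
  set XR := X0.filter fun x => e x ∉ A1 with hXR
  have hXRm : ∀ x, x ∈ XR ↔ x ∈ X0 ∧ e x ∉ A1 := fun x => Finset.mem_filter
  have hXRc : XR.card + 1 = a := by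
    have h3 : (X0.filter fun x => e x ∈ A1).card = a := by
      rw [← h1]
      refine Finset.card_bij (fun x _ => e x) (fun x hx => (Finset.mem_filter.1 hx).2)
        (fun x hx y hy h => einj x (Finset.mem_filter.1 hx).1 y (Finset.mem_filter.1 hy).1 h)
        (fun t ht => ?_)
      obtain ⟨x, hx, hx'⟩ := hcov t ht
      exact ⟨x, Finset.mem_filter.2 ⟨hx, by rw [hx']; exact ht⟩, hx'⟩
    have h4 := Finset.card_filter_add_card_filter_not (s := X0) (fun x => e x ∈ A1)
    have h5 : XR.card = (X0.filter fun x => ¬ e x ∈ A1).card := rfl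
    omega
  set Ω' : Set V := Ω \ VL with hΩ'
  have hPR : ∀ x ∈ XR, P x ⊆ Ω' := by
    intro x hx v hv
    obtain ⟨hx1, hx2⟩ := (hXRm x).1 hx
    refine ⟨(hP x hx1).2.2.1 hv, ?_⟩
    rintro ⟨t, ht, hvt⟩
    have := hPe x hx1 _ (hlx t ht).1 v hv hvt
    rw [this, (hlx t ht).2] at hx2
    exact hx2 ht
  have hXL : ∀ v ∈ X0, v ∉ XR → v ∈ VL := by
    intro v hv hvR
    have h3 : e v ∈ A1 := by
      by_contra h
      exact hvR ((hXRm v).2 ⟨hv, h⟩)
    refine ⟨e v, h3, ?_⟩
    rw [einj _ (hlx _ h3).1 v hv (hlx _ h3).2]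
    exact (hP v hv).2.1
  have hl0Ω : l0 ∉ Ω' := fun h => h.2 hl0V
  have hl0R : l0 ∉ XR := fun h => hl0Ω (hPR l0 h (hP l0 ((hXRm _).1 h).1).2.1)
  have hA2V : ∀ t ∈ A2, t ∈ Ω' := by
    intro t ht
    refine ⟨hA2 t ht, ?_⟩
    rintro ⟨t', ht', hv⟩
    have h3 := (hP _ (hlx t' ht').1).2.2.2.2.2 t hv (Or.inr ht)
    rw [(hlx t' ht').2] at h3
    rw [h3] at ht
    exact hnd _ ht' ht
  set X2 := insert l0 XR with hX2
  have hX2c : X2.card = a := by
    rw [hX2, Finset.card_insert_of_notMem hl0R, hXRc]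
  have hlink : Linked (Gc G Ω' VL l0) (A2 : Set V) (X2 : Set V) a := by
    refine linked_of _ _ _ fun S hS => ?_
    by_cases hlS : l0 ∈ S
    · obtain ⟨x, hx, hxS⟩ : ∃ x ∈ XR, ∀ v ∈ P x, v ∉ S := by
        by_contra hcon
        push Not at hcon
        have hcon' : ∀ x, ∃ v, x ∈ XR → v ∈ P x ∧ v ∈ S := by
          intro x
          by_cases hx : x ∈ XR
          · obtain ⟨v, h3, h4⟩ := hcon x hx
            exact ⟨v, fun _ => ⟨h3, h4⟩⟩
          · exact ⟨x, fun h => absurd h hx⟩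
        choose f hf using hcon'
        have h3 : XR.card ≤ (S.erase l0).card := by
          refine Finset.card_le_card_of_injOn f (fun x hx => ?_) (fun x hx y hy h => ?_)
          · have hx' := Finset.mem_coe.1 hx
            rw [Finset.mem_coe, Finset.mem_erase]
            refine ⟨fun h => hl0Ω ?_, (hf x hx').2⟩
            rw [← h]
            exact hPR x hx' (hf x hx').1
          · have hx' := Finset.mem_coe.1 hx
            have hy' := Finset.mem_coe.1 hy
            refine hPe x ((hXRm x).1 hx').1 y ((hXRm y).1 hy').1 (f x) (hf x hx').1 ?_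
            rw [h]
            exact (hf y hy').1
        rw [Finset.card_erase_of_mem hlS] at h3
        have h4 := Finset.card_pos.2 ⟨l0, hlS⟩
        omega
      obtain ⟨hx1, hx2⟩ := (hXRm x).1 hx
      obtain ⟨k1, k2, k3, k4, k5, -⟩ := hP x hx1
      refine ⟨e x, Finset.mem_coe.2 (k4.resolve_left hx2), x,
        Finset.mem_coe.2 (Finset.mem_insert_of_mem hx), ?_⟩
      refine (RI_of_conn k1 k5 k2).map (fun v hv => hxS v hv) fun v hv w hw hvw => ?_
      exact ⟨hvw.ne, Or.inl ⟨hvw, hPR x hx hv, hPR x hx hw⟩⟩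
    · obtain ⟨t, ht, u, hu, hr⟩ := hno2 S hS
      by_contra hcon
      push Not at hcon
      have hA : ¬ RI (Gc G Ω' VL l0) {v | v ∉ S} t l0 := hcon t (Finset.mem_coe.2 ht) l0
        (Finset.mem_coe.2 (Finset.mem_insert_self _ _))
      have htS : t ∉ S := by
        obtain ⟨h3, -, -⟩ := hr
        exact fun h => h3.2 (Finset.mem_coe.2 h)
      have h3 : u ∈ {v | v ∈ Ω' ∧ RI (Gc G Ω' VL l0) {v | v ∉ S} t v} := by
        refine RI.closed hr ⟨hA2V t ht, RI.refl htS⟩ ?_
        rintro v ⟨hv1, hv2⟩ hv w hw hvw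
        by_cases hwV : w ∈ VL
        · exfalso
          apply hA
          refine RI.trans hv2 (RI.adj (fun h => hv.2 (Finset.mem_coe.2 h)) hlS ⟨?_, Or.inr (Or.inr
            ⟨rfl, hv1, w, hwV, hvw.symm⟩)⟩)
          rintro rfl
          exact hl0Ω hv1
        · have hw' : w ∈ Ω' := ⟨hw.1, hwV⟩
          refine ⟨hw', RI.trans hv2 (RI.adj (fun h => hv.2 (Finset.mem_coe.2 h))
            (fun h => hw.2 (Finset.mem_coe.2 h)) ⟨hvw.ne, Or.inl ⟨hvw, hv1, hw'⟩⟩)⟩
      have h4 : u ∈ XR := by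
        rcases hu with hu | hu
        · exact absurd ⟨u, hu, hPA1 u hu⟩ h3.1.2
        · by_contra h
          exact h3.1.2 (hXL u hu h)
      exact hcon t (Finset.mem_coe.2 ht) u (Finset.mem_coe.2 (Finset.mem_insert_of_mem h4)) h3.2
  obtain ⟨P2, t2, hP2, hP2d⟩ := sys_sets h2 hlink
  have hP2e : ∀ x ∈ A2, ∀ y ∈ A2, ∀ v, v ∈ P2 x → v ∈ P2 y → x = y := by
    intro x hx y hy v hv hv'
    by_contra hne
    exact Set.disjoint_left.1 (hP2d x hx y hy hne) hv hv'
  have t2inj : ∀ x ∈ A2, ∀ y ∈ A2, t2 x = t2 y → x = y := by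
    intro x hx y hy h
    refine hP2e x hx y hy (t2 x) (hP2 x hx).2.2.2.1 ?_
    rw [h]
    exact (hP2 y hy).2.2.2.1
  obtain ⟨e2, he2, he2'⟩ : ∃ e2 ∈ A2, t2 e2 = l0 := by
    have h3 : A2.image t2 = X2 := by
      refine Finset.eq_of_subset_of_card_le (fun v hv => ?_) ?_
      · obtain ⟨x, hx, rfl⟩ := Finset.mem_image.1 hv
        exact Finset.mem_coe.1 (hP2 x hx).2.2.1
      · rw [Finset.card_image_of_injOn fun x hx y hy h => t2inj x hx y hy h, h2, hX2c]
    have h4 : l0 ∈ A2.image t2 := by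
      rw [h3]
      exact Finset.mem_insert_self _ _
    obtain ⟨x, hx, hx'⟩ := Finset.mem_image.1 h4
    exact ⟨x, hx, hx'⟩
  have hne0 : e2 ≠ l0 := by
    rintro rfl
    exact hnd _ hl0 he2
  obtain ⟨Q, q1, q2, q3, q4, u, hu, huadj⟩ :=
    ((hP2 e2 he2).2.2.2.2.2).resolve_left (by rw [he2']; exact hne0)
  have hQl : l0 ∉ Q := fun h => q4 l0 h (Finset.mem_coe.2 (Finset.mem_insert_self _ _))
  obtain ⟨hQΩ, hQc⟩ := Gc_sub q1 q2 (hA2V e2 he2) hQl
  rw [he2'] at huadj
  obtain ⟨e1, he1, y, hy, hyu⟩ : ∃ e1 ∈ A1, ∃ y ∈ P (lx e1), G.Adj y u := by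
    rcases huadj.2 with h | h | h
    · exact absurd h.2.2 hl0Ω
    · exact absurd (h.1 ▸ hu) hQl
    · obtain ⟨-, -, y, ⟨t, ht, hy⟩, hyu⟩ := h
      exact ⟨t, ht, y, hy, hyu⟩
  have h12 : e1 ≠ e2 := by
    rintro rfl
    exact hnd _ he1 he2
  -- the sets of the second stage
  have hP2n : ∀ t ∈ A2, t ≠ e2 → P2 t ⊆ Ω' ∧ (G.induce (P2 t)).Connected := by
    intro t ht hte
    refine Gc_sub (hP2 t ht).1 (hP2 t ht).2.1 (hA2V t ht) fun h => hte ?_
    have h3 := (hP2 t ht).2.2.2.2.1 l0 h (Finset.mem_coe.2 (Finset.mem_insert_self _ _))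
    exact t2inj t ht e2 he2 (h3.symm.trans he2'.symm)
  have hVLs : ∀ t ∈ A1, P (lx t) ⊆ VL := fun t ht v hv => ⟨t, ht, hv⟩
  have hXv : ∀ x ∈ X0, ∀ v ∈ P x, v ∈ X0 → v = x := fun x hx v hv hvX =>
    (hPe x hx v hvX v hv (hP v hvX).2.1).symm
  obtain ⟨B, hB1, hB2, hB3⟩ : ∃ B : V → Set V, (∀ t ∈ A1, B t = P (lx t)) ∧
      (∀ t, t ∉ A1 → t = e2 → B t = Q) ∧ ∀ t, t ∉ A1 → t ≠ e2 → B t = P2 t :=
    ⟨fun t => if t ∈ A1 then P (lx t) else if t = e2 then Q else P2 t, fun t h => if_pos h,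
      fun t h h' => by simp only [if_neg h, if_pos h'], fun t h h' => by
        simp only [if_neg h, if_neg h']⟩
  have h3 : e2 ∉ A1 := fun h => hnd _ h he2
  refine ⟨e1, e2, merge (B := B) (ε := fun t => if t ∈ A1 then lx t else t2 t) he1 he2
    ?_ ?_ ?_ ?_ h12 ?_⟩
  · intro t ht
    by_cases ht1 : t ∈ A1
    · rw [hB1 t ht1]
      obtain ⟨k1, k2, k3, k4, k5, -⟩ := hP _ (hlx t ht1).1
      exact ⟨k1, hPA1 t ht1, k3⟩
    · have ht2 := ht.resolve_left ht1
      by_cases hte : t = e2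
      · rw [hB2 t ht1 hte]
        exact ⟨hQc, hte ▸ q2, fun v hv => (hQΩ hv).1⟩
      · rw [hB3 t ht1 hte]
        exact ⟨(hP2n t ht2 hte).2, (hP2 t ht2).2.1, fun v hv => ((hP2n t ht2 hte).1 hv).1⟩
  · intro t ht hte
    by_cases ht1 : t ∈ A1
    · rw [hB1 t ht1]
      simp only [if_pos ht1]
      obtain ⟨k1, k2, k3, k4, k5, -⟩ := hP _ (hlx t ht1).1
      exact ⟨(hlx t ht1).1, k2, hXv _ (hlx t ht1).1⟩
    · have ht2 := ht.resolve_left ht1
      rw [hB3 t ht1 hte]
      simp only [if_neg ht1]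
      obtain ⟨k1, k2, k3, k4, k5, -⟩ := hP2 t ht2
      have h3 : t2 t ∈ XR := by
        rcases Finset.mem_insert.1 (Finset.mem_coe.1 k3) with h | h
        · exact absurd (t2inj t ht2 e2 he2 (h.trans he2'.symm)) hte
        · exact h
      refine ⟨((hXRm _).1 h3).1, k4, fun v hv hvX => ?_⟩
      by_cases hvR : v ∈ XR
      · exact k5 v hv (Finset.mem_coe.2 (Finset.mem_insert_of_mem hvR))
      · exact absurd (hXL v hvX hvR) ((hP2n t ht2 hte).1 hv).2
  · rw [hB2 e2 h3 rfl]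
    intro v hv hvX
    by_cases hvR : v ∈ XR
    · exact q4 v hv (Finset.mem_coe.2 (Finset.mem_insert_of_mem hvR))
    · exact (hQΩ hv).2 (hXL v hvX hvR)
  · rw [hB1 e1 he1, hB2 e2 h3 rfl]
    exact ⟨y, hy, u, hu, hyu⟩
  · -- disjointness
    have hB : ∀ t, t ∈ A2 → t ∉ A1 → B t ⊆ Ω' ∩ P2 t := by
      intro t ht ht1
      by_cases hte : t = e2
      · rw [hB2 t ht1 hte, hte]
        exact fun v hv => ⟨hQΩ hv, q3 hv⟩
      · rw [hB3 t ht1 hte]
        exact fun v hv => ⟨(hP2n t ht hte).1 hv, hv⟩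
    intro t t' ht ht' htt
    rw [Set.disjoint_left]
    intro v hv hv'
    by_cases ht1 : t ∈ A1
    · rw [hB1 t ht1] at hv
      by_cases ht1' : t' ∈ A1
      · rw [hB1 t' ht1'] at hv'
        have h3 := hPe _ (hlx t ht1).1 _ (hlx t' ht1').1 v hv hv'
        apply htt
        rw [← (hlx t ht1).2, ← (hlx t' ht1').2, h3]
      · exact (hB t' (ht'.resolve_left ht1') ht1' hv').1.2 (hVLs t ht1 hv)
    · have h3 := hB t (ht.resolve_left ht1) ht1 hv
      by_cases ht1' : t' ∈ A1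
      · rw [hB1 t' ht1'] at hv'
        exact h3.1.2 (hVLs t' ht1' hv')
      · exact htt (hP2e t (ht.resolve_left ht1) t' (ht'.resolve_left ht1') v h3.2
          (hB t' (ht'.resolve_left ht1') ht1' hv').2)

theorem two_stage [Fintype V] [DecidableEq V] {G : SimpleGraph V} {Ω : Set V}
    {A1 A2 X0 : Finset V} {a : ℕ} (ha : 1 ≤ a) (h1 : A1.card = a) (h2 : A2.card = a)
    (h0 : X0.card + 1 = 2 * a) (hd : Disjoint A1 A2) (hA1 : ∀ v ∈ A1, v ∈ Ω)
    (hA2 : ∀ v ∈ A2, v ∈ Ω) (hX0 : ∀ v ∈ X0, v ∈ Ω)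
    (hno1 : ∀ S : Finset V, S.card < X0.card → ∃ x ∈ X0, ∃ t, (t ∈ A1 ∨ t ∈ A2) ∧
      RI G (Ω \ (S : Set V)) x t)
    (hno2 : ∀ S : Finset V, S.card < a → ∃ t ∈ A2, ∃ u, (u ∈ A1 ∨ u ∈ X0) ∧
      RI G (Ω \ (S : Set V)) t u)
    (hno2' : ∀ S : Finset V, S.card < a → ∃ t ∈ A1, ∃ u, (u ∈ A2 ∨ u ∈ X0) ∧
      RI G (Ω \ (S : Set V)) t u) :
    ∃ e1 e2 F ε, TS G Ω A1 A2 X0 e1 e2 F ε := by
  classical
  have hlink : Linked (Gr G Ω) (X0 : Set V) {v | v ∈ A1 ∨ v ∈ A2} X0.card := by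
    refine linked_of _ _ _ fun S hS => ?_
    obtain ⟨x, hx, t, ht, hr⟩ := hno1 S hS
    exact ⟨x, Finset.mem_coe.2 hx, t, ht,
      hr.map (fun v hv => hv.2) fun v hv w hw hvw => ⟨hvw, hv.1, hw.1⟩⟩
  obtain ⟨P, e, hP, hPd⟩ := sys_sets rfl hlink
  have hP' : ∀ x ∈ X0, (G.induce (P x)).Connected ∧ x ∈ P x ∧ P x ⊆ Ω ∧ (e x ∈ A1 ∨ e x ∈ A2) ∧
      e x ∈ P x ∧ ∀ v ∈ P x, (v ∈ A1 ∨ v ∈ A2) → v = e x := by
    intro x hx
    obtain ⟨k1, k2, k3, k4, k5, -⟩ := hP x hx
    have h3 : P x ⊆ Ω := by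
      intro v hv
      exact RI.closed (RI_of_conn k1 k2 hv) (hX0 x hx) fun u _ _ w _ huw => huw.2.2
    refine ⟨?_, k2, h3, k3, k4, k5⟩
    rw [← Gr_induce h3]
    exact k1
  have einj : ∀ x ∈ X0, ∀ y ∈ X0, e x = e y → x = y := by
    intro x hx y hy h
    by_contra hne
    refine Set.disjoint_left.1 (hPd x hx y hy hne) (hP' x hx).2.2.2.2.1 ?_
    rw [h]
    exact (hP' y hy).2.2.2.2.1
  have himg : (X0.image e).card = X0.card :=
    Finset.card_image_of_injOn fun x hx y hy h => einj x hx y hy h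
  have hAc : (A1 ∪ A2).card = 2 * a := by
    rw [Finset.card_union_of_disjoint hd, h1, h2]
    ring
  have hsub : X0.image e ⊆ A1 ∪ A2 := by
    intro v hv
    obtain ⟨x, hx, rfl⟩ := Finset.mem_image.1 hv
    exact Finset.mem_union.2 (hP' x hx).2.2.2.1
  obtain ⟨r, hr, hr'⟩ : ∃ r ∈ A1 ∪ A2, r ∉ X0.image e := by
    by_contra hcon
    push Not at hcon
    have := Finset.card_le_card hcon
    omega
  have hcov : ∀ t ∈ A1 ∪ A2, t ≠ r → ∃ x ∈ X0, e x = t := by
    intro t ht htr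
    have h3 : X0.image e = (A1 ∪ A2).erase r := by
      refine Finset.eq_of_subset_of_card_le (fun v hv => Finset.mem_erase.2 ⟨?_, hsub hv⟩) ?_
      · rintro rfl
        exact hr' hv
      · rw [Finset.card_erase_of_mem hr]
        omega
    have h4 : t ∈ X0.image e := by
      rw [h3]
      exact Finset.mem_erase.2 ⟨htr, ht⟩
    obtain ⟨x, hx, hx'⟩ := Finset.mem_image.1 h4
    exact ⟨x, hx, hx'⟩
  rcases Finset.mem_union.1 hr with hr1 | hr2
  · -- the missing root is in `A1`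
    obtain ⟨e1, e2, F, ε, h⟩ := two_stage_core ha h2 h1 h0 hd.symm hA1 hno2' P e
      (fun x hx => by
        obtain ⟨k1, k2, k3, k4, k5, k6⟩ := hP' x hx
        exact ⟨k1, k2, k3, k4.symm, k5, fun v hv hv' => k6 v hv hv'.symm⟩) hPd
      (fun t ht => hcov t (Finset.mem_union_right _ ht) fun h =>
        Finset.disjoint_left.1 hd hr1 (h ▸ ht))
    exact ⟨e2, e1, F, ε, h.swap⟩
  · exact two_stage_core ha h1 h2 h0 hd hA2 hno2 P e hP' hPd
      (fun t ht => hcov t (Finset.mem_union_left _ ht) fun h =>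
        Finset.disjoint_left.1 hd ht (h ▸ hr2))

end TWk
end

section

section

/-!
# MP_cfc9ed_co: the second case of a cell: the dense part is cut off by `2 a - 1` vertices
-/

set_option autoImplicit false

namespace TWk

open SimpleGraph Relation Pool.Agent.Lib.MP_699f60_co

variable {V : Type*}

theorem first_hit {G : SimpleGraph V} {s Y : Set V} {X0 : Finset V} {x y : V} (h : RI G s x y)
    (hx : x ∉ Y) (hN : ∀ v, v ∉ Y → ∀ w ∈ Y, G.Adj v w → v ∈ X0) :
    RI G (s \ Y) x y ∨ ∃ u ∈ X0, RI G (s \ Y) x u := by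
  by_contra hcon
  push Not at hcon
  have hxs : x ∈ s := h.1
  have h1 : y ∈ {v | RI G (s \ Y) x v} := by
    refine RI.closed h (RI.refl ⟨hxs, hx⟩) fun v hv hvs w hws hvw => ?_
    have hv' : RI G (s \ Y) x v := hv
    obtain ⟨-, hvm, -⟩ := id hv'
    by_cases hwY : w ∈ Y
    · exact absurd hv' (hcon.2 v (hN v hvm.2 w hwY hvw))
    · exact RI.trans hv' (RI.adj hvm ⟨hws, hwY⟩ hvw)
  exact hcon.1 h1

section

variable {G : SimpleGraph V} {Z : Finset V} {m : ℕ} {O : ℕ → Set V} {M : ℕ → Finset V} {p n : ℕ}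

/-- fewer than `a` vertices do not separate the roots on the left from the roots on the right -/
theorem Good.across [Fintype V] {a B c c' : ℕ} (S : Good G Z m O M p n) (hp : a ≤ p) (ha : 1 ≤ a)
    (hB : B = 1 + 2 * a * (n + 1)) (hc' : c' = c + 2 * B + 4) (hcm : c' ≤ m) {T T' : Finset V}
    (hT : T ⊆ M c) (hT' : T' ⊆ M c') (hTg : T.card = a) (hTg' : T'.card = a) (X : Finset V)
    (hX : X.card < a) : ∃ t ∈ T, ∃ t' ∈ T', RI G (QQ O M Z c c' T T' \ (X : Set V)) t t' := by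
  classical
  have hst := S.toStrip
  have hmul : 2 * a * (n + 1) + 1 = B := by omega
  obtain ⟨r, hr, hfr⟩ := free_interval (n := n) hst X (c + 1) (2 * a) (by omega) (by omega)
  have hr1 : (r + 1) * (n + 1) ≤ 2 * a * (n + 1) := Nat.mul_le_mul_right _ hr
  rw [add_mul, one_mul] at hr1
  set i := c + 1 + r * (n + 1) with hi
  have hn := S.npos
  have b1 : c < i := by omega
  have b2 : i + n < c + B := by omega
  have hLQ : Rg O M i (i + n) ⊆ QQ O M Z c c' T T' := S.mid_sub b1 (by omega) (by omega) hcm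
  obtain ⟨v₀, hv₀⟩ : (M i).Nonempty := by
    have h1 := (PC.sub hst S.pc (i := i) (j := m) (by omega) le_rfl).card
    exact Finset.card_pos.1 (by omega)
  have hML : ∀ v ∈ M i, v ∈ Rg O M i (i + n) := fun v hv =>
    hst.M_Rg le_rfl (by omega) (by omega) hv
  set Y : Set V := {y | RI G (QQ O M Z c c' T T' \ (X : Set V)) v₀ y} with hY
  have hMY : ∀ v ∈ M i, v ∈ Y := by
    intro v hv
    refine (RI_of_conn (S.conn i (by omega)) (hML v₀ hv₀) (hML v hv)).mono fun y hy => ?_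
    exact ⟨hLQ hy, hfr y hy⟩
  have hcl : ∀ y ∈ Y, ∀ w ∈ QQ O M Z c c' T T', w ∉ X →
      RI G (QQ O M Z c c' T T' \ (X : Set V)) w y → w ∈ Y := by
    intro y hy w _ _ hr
    exact RI.trans hy hr.symm
  obtain ⟨t, ht, htY⟩ : ∃ t ∈ T, t ∈ Y := by
    by_contra hcon
    push Not at hcon
    have h1 := S.end_left hT hTg b1 (by omega : i < c') hcm X hcl hcon hMY
    have h2 := Finset.card_filter_le X (· ∈ Rg O M c i)
    omega
  obtain ⟨t', ht', htY'⟩ : ∃ t' ∈ T', t' ∈ Y := by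
    by_contra hcon
    push Not at hcon
    have h1 := S.end_right hT' hTg' b1 (by omega : i < c') hcm X hcl hcon hMY
    have h2 := Finset.card_filter_le X (· ∈ Rg O M i c')
    omega
  exact ⟨t, ht, t', ht', RI.trans (RI.symm htY) htY'⟩

/-- a labelling of the right roots -/
theorem relabel_roots {a : ℕ} {T' : Finset V} (hT : T'.card = a) {e2 : V} (he2 : e2 ∈ T')
    (i₀ : Fin a) : ∃ β : Fin a → V, Function.Injective β ∧ (∀ i, β i ∈ T') ∧
      ∀ i, β i = e2 ↔ i = i₀ := by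
  classical
  let b := (T'.equivFinOfCardEq hT).symm
  have hβ : Function.Injective fun i => ((b (Equiv.swap i₀ (b.symm ⟨e2, he2⟩) i) : T') : V) := by
    intro i j hij
    exact (Equiv.swap i₀ (b.symm ⟨e2, he2⟩)).injective (b.injective (Subtype.ext hij))
  have h0 : ((b (Equiv.swap i₀ (b.symm ⟨e2, he2⟩) i₀) : T') : V) = e2 := by
    rw [Equiv.swap_apply_left, Equiv.apply_symm_apply]
  refine ⟨_, hβ, fun i => Finset.coe_mem _, fun i => ⟨fun h => hβ (h.trans h0.symm), ?_⟩⟩
  rintro rfl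
  exact h0

open Classical in
/-- second case: the dense middle is cut off by `2 a - 1` vertices -/
theorem Good.caseB [Fintype V] {κ a B c c' : ℕ} (hG : Conn G κ)
    (hκ : 2 * a ≤ κ + 1) (ha : 1 ≤ a)
    (hdeg : ∀ v ∈ Rg O M 0 m, 2 ^ (3 * a + 3) * a + a ≤ (G.neighborSet v).ncard)
    (S : Good G Z m O M p n) (hZ : Z = ∅) (hp : a ≤ p) (hB : B = 1 + 2 * a * (n + 1))
    (hc' : c' = c + 2 * B + 4) (hcm : c' ≤ m) (τ : Fin a → V) (hτi : Function.Injective τ)
    (hτ : ∀ i, τ i ∈ M c) {T' : Finset V} (hT' : T' ⊆ M c') (hTg' : T'.card = a)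
    (X : Finset V) (hX : X.card < 2 * a) {x : V} (hx : x ∈ Rg O M (c + B) (c + B + 3))
    (hxX : x ∉ X) (hfail : ¬ ∃ t, (t ∈ Finset.univ.image τ ∨ t ∈ T' ∨ t ∈ Z) ∧
      RI G (QQ O M Z c c' (Finset.univ.image τ) T' \ (X : Set V)) t x) :
    ∃ β : Fin a → V, Function.Injective β ∧ (∀ i, β i ∈ M c') ∧
      ∃ H W, CellOK G (ι := Fin a ⊕ Z) (Sum.elim τ fun z => z.1) (Sum.elim β fun z => z.1)
        (Rn O M c c') H W := by
  have hst := S.toStrip
  have hZc : Z.card = 0 := by rw [hZ]; rfl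
  have hZn : ∀ v, v ∉ Z := by
    intro v
    rw [hZ]
    exact Finset.notMem_empty v
  set T := Finset.univ.image τ with hTdef
  have hT : T ⊆ M c := by
    intro v hv
    obtain ⟨i, -, rfl⟩ := Finset.mem_image.1 hv
    exact hτ i
  have hTg : T.card = a := by
    rw [hTdef, Finset.card_image_of_injective _ hτi, Finset.card_univ, Fintype.card_fin]
  set Q := QQ O M Z c c' T T' with hQ
  obtain ⟨e, f, hce, hef, hfc, hYp, z₀, hz₀X, hz₀Y⟩ := (S.nosep_or (s := 2 * a) (g := a) (by omega)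
    (by omega) (by omega) (by omega) hB hc' hcm hT hT' hTg hTg' X hX hx hxX).resolve_left hfail
  have hxQ : x ∈ Q := S.mid_sub (by omega) (by omega) (by omega) hcm hx
  set Y : Set V := {y | RI G (Q \ (X : Set V)) x y} with hY
  have hxY : x ∈ Y := RI.refl ⟨hxQ, hxX⟩
  have hYn : ∀ y ∈ Y, y ∈ Rn O M e f := fun y hy => (hYp y hy).1
  have hYX' : ∀ y ∈ Y, y ∉ X := by
    rintro y ⟨-, h, -⟩
    exact h.2
  set X0 := X.filter fun v => ∃ y ∈ Y, G.Adj y v with hX0
  have hX0m : ∀ v, v ∈ X0 ↔ v ∈ X ∧ ∃ y ∈ Y, G.Adj y v := fun v => Finset.mem_filter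
  have hN : ∀ y ∈ Y, ∀ w, G.Adj y w → w ∈ Y ∨ w ∈ X0 := by
    intro y hy w hyw
    rcases (hYp y hy).2 w hyw with h | h
    · exact Or.inr ((hX0m w).2 ⟨h, y, hy, hyw⟩)
    · exact Or.inl h
  have hX0Y : ∀ v ∈ X0, v ∉ Y := fun v hv h => hYX' v h ((hX0m v).1 hv).1
  have hκ0 : κ ≤ X0.card := TWk.sep hG Y X0 hxY (fun h => hxX ((hX0m x).1 h).1) hN hz₀Y
    fun h => hz₀X ((hX0m z₀).1 h).1
  have hX0le : X0.card ≤ X.card := Finset.card_le_card (Finset.filter_subset _ _)
  have h0 : X0.card + 1 = 2 * a := by omega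
  have hX0R : ∀ v ∈ X0, v ∈ Rg O M e f := by
    intro v hv
    obtain ⟨-, y, hy, hyv⟩ := (hX0m v).1 hv
    exact hst.adjR hef (by omega) (hYn y hy) hyv (hZn v)
  have hefQ : Rg O M e f ⊆ Q := S.mid_sub hce (by omega) hfc hcm
  have hefn : Rg O M e f ⊆ Rn O M c c' := by
    intro v hv
    exact ⟨hst.OM_lt hfc hcm hv.1, fun h => hv.2 (hst.O_mono hce.le (by omega) h),
      fun h => hv.2 (hst.M_O hce (by omega) h)⟩
  have hX0Ω : ∀ v ∈ X0, v ∈ Q \ Y := fun v hv => ⟨hefQ (hX0R v hv), hX0Y v hv⟩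
  have dTT : ∀ v, v ∈ T → v ∈ T' → False := by
    intro v hv hv'
    have := hst.M_disj (by omega) hcm (hT hv) (hT' hv')
    omega
  have hTY : ∀ t ∈ T, t ∉ Y := fun t ht h =>
    (hYn t h).2.1 (hst.M_O hce (by omega) (hT ht))
  have hTY' : ∀ t ∈ T', t ∉ Y := fun t ht h =>
    hst.disj c' hcm t (hT' ht) (hst.O_mono hfc.le hcm (hYn t h).1)
  have hTQ : ∀ t ∈ T, t ∈ Q := fun t ht => Or.inr ⟨hst.M_Rg le_rfl (by omega) hcm (hT ht),
    fun _ => ht, fun h' => absurd (hst.M_disj (by omega) hcm (hT ht) h') (by omega)⟩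
  have hTQ' : ∀ t ∈ T', t ∈ Q := fun t ht => Or.inr ⟨hst.M_Rg (by omega) le_rfl hcm (hT' ht),
    fun h' => absurd (hst.M_disj (by omega) hcm h' (hT' ht)) (by omega), fun _ => ht⟩
  have hN' : ∀ v, v ∉ Y → ∀ w ∈ Y, G.Adj v w → v ∈ X0 := fun v hv w hw hvw =>
    (hN w hw v hvw.symm).resolve_left hv
  have hsub : ∀ S' : Finset V, (Q \ ((S'.filter fun v => v ∉ Y : Finset V) : Set V)) \ Y ⊆
      (Q \ Y) \ (S' : Set V) := by
    rintro S' v ⟨⟨h1, h2⟩, h3⟩
    exact ⟨⟨h1, h3⟩, fun h4 => h2 (Finset.mem_coe.2 (Finset.mem_filter.2 ⟨h4, h3⟩))⟩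
  have hfle : ∀ S' : Finset V, (S'.filter fun v => v ∉ Y).card ≤ S'.card := fun S' =>
    Finset.card_filter_le _ _
  -- the three connectivity conditions
  have hno1 : ∀ S' : Finset V, S'.card < X0.card → ∃ x ∈ X0, ∃ t, (t ∈ T ∨ t ∈ T') ∧
      RI G ((Q \ Y) \ (S' : Set V)) x t := by
    intro S' hS'
    have h1 := hfle S'
    obtain ⟨t, ht, hr⟩ := S.nosep (s := 2 * a) (g := a) hG (by omega) (by omega) (by omega)
      (by omega) hB hc' hcm hT hT' hTg hTg' (S'.filter fun v => v ∉ Y) (by omega) (by omega) hx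
      (fun h => (Finset.mem_filter.1 h).2 hxY)
    have ht' : t ∈ T ∨ t ∈ T' := by
      rcases ht with h | h | h
      · exact Or.inl h
      · exact Or.inr h
      · exact absurd h (hZn t)
    have htY : t ∉ Y := by
      rcases ht' with h | h
      · exact hTY t h
      · exact hTY' t h
    rcases first_hit hr htY hN' with h | ⟨u, hu, h⟩
    · obtain ⟨-, h2, -⟩ := h
      exact absurd hxY h2.2
    · exact ⟨u, hu, t, ht', h.symm.mono (hsub S')⟩
  have hno2 : ∀ S' : Finset V, S'.card < a → ∃ t ∈ T', ∃ u, (u ∈ T ∨ u ∈ X0) ∧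
      RI G ((Q \ Y) \ (S' : Set V)) t u := by
    intro S' hS'
    have h1 := hfle S'
    obtain ⟨t, ht, t', ht', hr⟩ := S.across hp ha hB hc' hcm hT hT' hTg hTg'
      (S'.filter fun v => v ∉ Y) (by omega)
    rcases first_hit hr.symm (hTY' t' ht') hN' with h | ⟨u, hu, h⟩
    · exact ⟨t', ht', t, Or.inl ht, h.mono (hsub S')⟩
    · exact ⟨t', ht', u, Or.inr hu, h.mono (hsub S')⟩
  have hno2' : ∀ S' : Finset V, S'.card < a → ∃ t ∈ T, ∃ u, (u ∈ T' ∨ u ∈ X0) ∧
      RI G ((Q \ Y) \ (S' : Set V)) t u := by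
    intro S' hS'
    have h1 := hfle S'
    obtain ⟨t, ht, t', ht', hr⟩ := S.across hp ha hB hc' hcm hT hT' hTg hTg'
      (S'.filter fun v => v ∉ Y) (by omega)
    rcases first_hit hr (hTY t ht) hN' with h | ⟨u, hu, h⟩
    · exact ⟨t, ht, t', Or.inl ht', h.mono (hsub S')⟩
    · exact ⟨t, ht, u, Or.inr hu, h.mono (hsub S')⟩
  obtain ⟨e1, e2, F, ε, he1, he2, hF, hFd⟩ := two_stage (G := G) (Ω := Q \ Y) ha hTg hTg' h0
    (Finset.disjoint_left.2 fun v hv hv' => dTT v hv hv') (fun v hv => ⟨hTQ v hv, hTY v hv⟩)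
    (fun v hv => ⟨hTQ' v hv, hTY' v hv⟩) hX0Ω hno1 hno2 hno2'
  -- the fan inside the dense part
  set W₀ := Finset.univ.filter (· ∈ Y) with hW₀
  have hW₀m : ∀ v, v ∈ W₀ ↔ v ∈ Y := fun v => by simp [hW₀]
  have hdense : 2 ^ (X0.card + (a + 1) + 1) * a * W₀.card ≤ sg G W₀ := by
    unfold sg
    rw [mul_comm, ← smul_eq_mul]
    refine Finset.card_nsmul_le_sum _ _ _ fun v hv => ?_
    have hvY := (hW₀m v).1 hv
    have h1 : (Finset.univ.filter fun u => G.Adj v u) ⊆ (W₀.filter fun u => G.Adj v u) ∪ X0 := by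
      intro u hu
      have hu' : G.Adj v u := (Finset.mem_filter.1 hu).2
      rcases hN v hvY u hu' with h | h
      · exact Finset.mem_union_left _ (Finset.mem_filter.2 ⟨(hW₀m u).2 h, hu'⟩)
      · exact Finset.mem_union_right _ h
    have h2 := (Finset.card_le_card h1).trans (Finset.card_union_le _ _)
    have h3 : 2 ^ (3 * a + 3) * a + a ≤ (Finset.univ.filter fun u => G.Adj v u).card := by
      refine (hdeg v (hst.Rg_mono (Nat.zero_le _) (by omega) (by omega) le_rfl
        (hst.Rn_sub (hYn v hvY)))).trans (le_of_eq ?_)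
      rw [← Set.ncard_coe_finset]
      congr 1
      ext u
      simp
    have h4 : X0.card + (a + 1) + 1 = 3 * a + 1 := by omega
    rw [h4]
    have h5 : 2 ^ (3 * a + 3) * a = 4 * (2 ^ (3 * a + 1) * a) := by
      rw [pow_succ 2 (3 * a + 2), pow_succ 2 (3 * a + 1)]
      ring
    have h6 : a ≤ 2 ^ (3 * a + 1) * a := Nat.le_mul_of_pos_left _ (by positivity)
    show 2 ^ (3 * a + 1) * a ≤ (W₀.filter fun u => G.Adj v u).card
    omega
  obtain ⟨P, U, k1, k2, k3, k4, k5⟩ := fan (Q := Y ∪ (X0 : Set V)) (A := X0) (W₀ := W₀)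
    (r := a + 1) (s := X0.card) ha rfl (by omega) (fun v hv => Or.inr (Finset.mem_coe.2 hv))
    (fun v hv => Or.inl ((hW₀m v).1 hv)) ⟨x, (hW₀m x).2 hxY⟩ hdense (fun S' hS' y hy hyS => by
      by_contra hcon
      push Not at hcon
      have hyY := (hW₀m y).1 hy
      set C : Set V := {v | RI G ((Y ∪ (X0 : Set V)) \ (S' : Set V)) y v} with hC
      have hyC : y ∈ C := RI.refl ⟨Or.inl hyY, hyS⟩
      have hCX : ∀ v ∈ C, v ∉ X0 := fun v hv h => hcon v h (RI.symm hv)
      have hCm : ∀ v ∈ C, (v ∈ Y ∨ v ∈ X0) ∧ v ∉ S' := by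
        rintro v ⟨-, h, -⟩
        exact ⟨h.1, h.2⟩
      obtain ⟨z, hz, hzS⟩ : ∃ z ∈ X0, z ∉ S' := by
        by_contra h
        push Not at h
        have := Finset.card_le_card (show X0 ⊆ S' from h)
        omega
      have h1 := TWk.sep hG C S' hyC hyS (fun v hv w hvw => by
        obtain ⟨h2, h3⟩ := hCm v hv
        have hvY := h2.resolve_right (hCX v hv)
        by_cases hwS : w ∈ S'
        · exact Or.inr hwS
        · left
          exact RI.trans hv (RI.adj ⟨Or.inl hvY, h3⟩ ⟨hN v hvY w hvw, hwS⟩ hvw))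
        (fun h => hCX z h hz) hzS
      omega)
  -- the labels
  obtain ⟨i₀, hi₀⟩ : ∃ i, τ i = e1 := by
    obtain ⟨i, -, hi⟩ := Finset.mem_image.1 he1
    exact ⟨i, hi⟩
  obtain ⟨β, hβi, hβ, hβe⟩ := relabel_roots hTg' he2 i₀
  have hτe : ∀ i, τ i = e1 ↔ i = i₀ := fun i =>
    ⟨fun h => hτi (h.trans hi₀.symm), fun h => by rw [h]; exact hi₀⟩
  refine ⟨β, hβi, fun i => hT' (hβ i), ?_⟩
  have hτT : ∀ i, τ i ∈ T := fun i => Finset.mem_image_of_mem _ (Finset.mem_univ _)
  obtain ⟨σ, hσ0, hσ1⟩ : ∃ σ : Bool → Fin a → V, σ false = τ ∧ σ true = β :=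
    ⟨fun b => bif b then β else τ, rfl, rfl⟩
  rw [← hσ0, ← hσ1]
  have hσm : ∀ b i, σ b i ∈ T ∨ σ b i ∈ T' := by
    rintro (_ | _) i
    · rw [hσ0]; exact Or.inl (hτT i)
    · rw [hσ1]; exact Or.inr (hβ i)
  have hσe1 : ∀ b i, σ b i = e1 → i = i₀ := by
    rintro (_ | _) i h
    · rw [hσ0] at h; exact (hτe i).1 h
    · rw [hσ1] at h
      exact absurd (h ▸ hβ i) fun h' => dTT _ he1 h'
  have hσe2 : ∀ b i, σ b i = e2 → i = i₀ := by
    rintro (_ | _) i h
    · rw [hσ0] at h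
      exact absurd (h ▸ hτT i) fun h' => dTT _ h' he2
    · rw [hσ1] at h; exact (hβe i).1 h
  have hσne : ∀ i j, i ≠ j → ∀ b b', σ b i ≠ σ b' j := by
    rintro i j hij (_ | _) (_ | _) h
    · rw [hσ0] at h; exact hij (hτi h)
    · rw [hσ0, hσ1] at h
      exact dTT _ (hτT i) (h ▸ hβ j)
    · rw [hσ0, hσ1] at h
      exact dTT _ (hτT j) (h ▸ hβ i)
    · rw [hσ1] at h; exact hij (hβi h)
  have hσd : ∀ i j, i ≠ j → ∀ b b', Disjoint (F (σ b i)) (F (σ b' j)) := by
    intro i j hij b b'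
    refine hFd _ _ (hσm b i) (hσm b' j) (hσne i j hij b b') (fun h => hij ?_) fun h => hij ?_
    · rw [hσe1 b i h.1, hσe2 b' j h.2]
    · rw [hσe2 b i h.1, hσe1 b' j h.2]
  have hYc : ∀ v ∈ Y, v ∈ Rn O M c c' := fun v hv => hefn (hst.Rn_sub (hYn v hv))
  have hPY : ∀ r ∈ X0, ∀ v ∈ P r, v ∈ Y ∨ v = r := by
    intro r hr v hv
    rcases (k1 r hr).2.2 hv with h | h
    · exact Or.inl h
    · right
      by_contra hne
      exact Set.disjoint_left.1 (k2 v (Finset.mem_coe.1 h) r hr hne) (k1 v h).2.1 hv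
  have hι : Fintype.card (Fin a ⊕ Z) + 1 = a + 1 := by
    rw [Fintype.card_sum, Fintype.card_fin, Fintype.card_coe, hZc]
  obtain ⟨g, hg⟩ := relabel hι
  refine mkCell (fun b => Sum.elim (σ b) fun z => z.1) (Rn O M c c')
    (fun b => Sum.elim (fun i => F (σ b i) ∪ P (ε (σ b i))) fun _ => ∅) (fun o => U (g o))
    ?_ ?_ ?_ ?_ ?_
  · rintro b (i | z)
    · obtain ⟨m1, m2, m3, m4, m5, m6⟩ := hF _ (hσm b i)
      refine ⟨conn_union m1 (k1 _ m4).1 (u := ε (σ b i)) (v := ε (σ b i)) m5 (k1 _ m4).2.1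
        (Or.inl rfl), Or.inl m2, ?_⟩
      rintro v (hv | hv)
      · have h1 : v ∈ T ∨ v ∈ T' ∨ v ∈ Rn O M c c' := by
          rcases QQ_Rn (m3 hv).1 with h | h | h | h
          · exact Or.inl h
          · exact Or.inr (Or.inl h)
          · exact absurd h (hZn v)
          · exact Or.inr (Or.inr h)
        rw [← or_assoc] at h1
        rcases h1 with h1 | h1
        · -- a root in `F r` is one of the two roots of the label
          show v = σ false i ∨ v = σ true i ∨ _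
          have h2 : ∃ b' j, v = σ b' j := by
            rcases h1 with h1 | h1
            · obtain ⟨j, -, hj⟩ := Finset.mem_image.1 h1
              exact ⟨false, j, by rw [hσ0]; exact hj.symm⟩
            · have h3 : Finset.univ.image β = T' := by
                refine Finset.eq_of_subset_of_card_le (fun w hw => ?_) ?_
                · obtain ⟨j, -, rfl⟩ := Finset.mem_image.1 hw
                  exact hβ j
                · rw [Finset.card_image_of_injective _ hβi, Finset.card_univ, Fintype.card_fin,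
                    hTg']
              rw [← h3] at h1
              obtain ⟨j, -, hj⟩ := Finset.mem_image.1 h1
              exact ⟨true, j, by rw [hσ1]; exact hj.symm⟩
          obtain ⟨b', j, rfl⟩ := h2
          have h3 : j = i := by
            by_contra hne
            exact Set.disjoint_left.1 (hσd j i hne b' b) (hF _ (hσm b' j)).2.1 hv
          subst h3
          rcases b' with _ | _
          · exact Or.inl rfl
          · exact Or.inr (Or.inl rfl)
        · exact Or.inr (Or.inr h1)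
      · refine Or.inr (Or.inr ?_)
        rcases hPY _ m4 v hv with h | h
        · exact hYc v h
        · rw [h]
          exact hefn (hX0R _ m4)
    · exact absurd z.2 (hZn _)
  · rintro b (i | z) o
    · obtain ⟨m1, m2, m3, m4, m5, m6⟩ := hF _ (hσm b i)
      refine ⟨?_, ?_⟩
      · show Disjoint (F (σ b i) ∪ P (ε (σ b i))) (U (g o))
        rw [Set.disjoint_union_left]
        refine ⟨?_, (k5 _ m4 _).1⟩
        rw [Set.disjoint_left]
        intro v hv hv'
        exact (m3 hv).2 ((hW₀m v).1 ((k3 _).2 v hv'))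
      · obtain ⟨u, hu, v, hv, huv⟩ := (k5 _ m4 (g o)).2
        exact ⟨u, Or.inr hu, v, hv, huv⟩
    · exact absurd z.2 (hZn _)
  · intro o
    exact ⟨(k3 _).1, fun v hv => hYc v ((hW₀m v).1 ((k3 _).2 v hv))⟩
  · intro o o' hne
    exact k4 _ _ fun h => hne (hg h)
  · rintro (i | z) (j | z') hne b b'
    · have hij : i ≠ j := fun h => hne (by rw [h])
      obtain ⟨m1, m2, m3, m4, m5, m6⟩ := hF _ (hσm b i)
      obtain ⟨n1, n2, n3, n4, n5, n6⟩ := hF _ (hσm b' j)
      have hd := hσd i j hij b b'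
      have hεne : ε (σ b i) ≠ ε (σ b' j) := fun h =>
        Set.disjoint_left.1 hd m5 (h ▸ n5)
      show Disjoint (F (σ b i) ∪ P (ε (σ b i))) (F (σ b' j) ∪ P (ε (σ b' j)))
      rw [Set.disjoint_left]
      rintro v (hv | hv) (hv' | hv')
      · exact Set.disjoint_left.1 hd hv hv'
      · rcases hPY _ n4 v hv' with h | h
        · exact (m3 hv).2 h
        · subst h
          exact hεne (m6 _ hv n4).symm
      · rcases hPY _ m4 v hv with h | h
        · exact (n3 hv').2 h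
        · subst h
          exact hεne (n6 _ hv' m4)
      · exact Set.disjoint_left.1 (k2 _ m4 _ n4 hεne) hv hv'
    · exact absurd z'.2 (hZn _)
    · exact absurd z.2 (hZn _)
    · exact absurd z.2 (hZn _)

end

end TWk
end

section

/-!
# MP_cfc9ed_co: the pieces in a cell
-/

set_option autoImplicit false

namespace TWk

open SimpleGraph Relation Pool.Agent.Lib.MP_699f60_co

variable {V : Type*} {G : SimpleGraph V} {Z : Finset V} {m : ℕ} {O : ℕ → Set V}
  {M : ℕ → Finset V} {p n : ℕ}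

/-- for every labelling of the roots on the left there is a labelling on the right -/
theorem Good.cell [Fintype V] {κ a g B c c' : ℕ} (hG : Conn G κ)
    (hκ : 2 * a ≤ κ + 1)
    (hdeg : ∀ v ∈ Rg O M 0 m, 2 ^ (3 * a + 3) * a + a ≤ (G.neighborSet v).ncard)
    (S : Good G Z m O M p n) (hp0 : 0 < p) (hp : a ≤ p + Z.card) (hg : g + Z.card = a)
    (hg0 : 0 < g) (hB : B = 1 + 2 * a * (n + 1)) (hc' : c' = c + 2 * B + 4)
    (hcm : c' ≤ m) (τ : Fin g → V) (hτi : Function.Injective τ) (hτ : ∀ i, τ i ∈ M c) :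
    ∃ β : Fin g → V, Function.Injective β ∧ (∀ i, β i ∈ M c') ∧
      ∃ H W, CellOK G (ι := Fin g ⊕ Z) (Sum.elim τ fun z => z.1) (Sum.elim β fun z => z.1)
        (Rn O M c c') H W := by
  classical
  have hst := S.toStrip
  have ha : 1 ≤ a := by omega
  have hcard := fun i (hi : i ≤ m) => (PC.sub hst S.pc (i := i) (j := m) hi le_rfl).card
  obtain ⟨τ', hτi', hτ'⟩ : ∃ τ' : Fin g → V, Function.Injective τ' ∧ ∀ i, τ' i ∈ M c' := by
    have h1 := hcard c' hcm
    obtain ⟨S', h2, h3⟩ := Finset.exists_subset_card_eq (s := M c') (n := g) (by omega)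
    refine ⟨fun i => (S'.equivFinOfCardEq h3).symm i, ?_, fun i => h2 (Finset.coe_mem _)⟩
    intro i j hij
    exact (S'.equivFinOfCardEq h3).symm.injective (Subtype.ext hij)
  set T := Finset.univ.image τ with hTdef
  set T' := Finset.univ.image τ' with hTdef'
  have hT : T ⊆ M c := by
    intro v hv
    obtain ⟨i, -, rfl⟩ := Finset.mem_image.1 hv
    exact hτ i
  have hT' : T' ⊆ M c' := by
    intro v hv
    obtain ⟨i, -, rfl⟩ := Finset.mem_image.1 hv
    exact hτ' i
  have hTg : T.card = g := by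
    rw [hTdef, Finset.card_image_of_injective _ hτi, Finset.card_univ, Fintype.card_fin]
  have hTg' : T'.card = g := by
    rw [hTdef', Finset.card_image_of_injective _ hτi', Finset.card_univ, Fintype.card_fin]
  obtain ⟨s, hs⟩ : ∃ s, s + Z.card = 2 * a := ⟨2 * a - Z.card, by omega⟩
  set W₀ := Finset.univ.filter (· ∈ Rg O M (c + B) (c + B + 3)) with hW₀
  have hW₀m : ∀ v, v ∈ W₀ ↔ v ∈ Rg O M (c + B) (c + B + 3) := fun v => by simp [hW₀]
  have hdense : 2 ^ (s + (a + 1) + 1) * a * W₀.card ≤ sg G W₀ := by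
    refine S.dense (D := 2 ^ (3 * a + 3) * a + a) (b := a) (by omega) (fun v hv => ?_) (by omega) ?_
    · refine (hdeg v (hst.Rg_mono (Nat.zero_le _) (by omega) (by omega) le_rfl
        (hst.Rn_sub hv))).trans (le_of_eq ?_)
      rw [← Set.ncard_coe_finset]
      congr 1
      ext u
      simp
    · have h1 : 2 ^ (s + (a + 1) + 2) ≤ 2 ^ (3 * a + 3) :=
        Nat.pow_le_pow_right (by norm_num) (by omega)
      have h2 : 2 * (2 ^ (s + (a + 1) + 1) * a) = 2 ^ (s + (a + 1) + 2) * a := by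
        rw [pow_succ 2 (s + (a + 1) + 1)]
        ring
      rw [h2]
      exact Nat.add_le_add_right (Nat.mul_le_mul_right _ h1) _
  have hne : W₀.Nonempty := by
    have h1 := hcard (c + B) (by omega)
    obtain ⟨v, hv⟩ := Finset.card_pos.1 (by omega : 0 < (M (c + B)).card)
    exact ⟨v, (hW₀m v).2 (hst.M_Rg le_rfl (by omega) (by omega) hv)⟩
  have hW₀n : ∀ v ∈ W₀, v ∈ Rn O M c c' := by
    intro v hv
    have h1 := (hW₀m v).1 hv
    refine ⟨hst.OM_lt (by omega) hcm h1.1, fun h => h1.2 ?_, fun h => h1.2 ?_⟩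
    · exact hst.O_mono (by omega) (by omega) h
    · exact hst.M_O (by omega) (by omega) h
  by_cases hsep : ∀ X : Finset V, X.card < s → ∀ x ∈ W₀, x ∉ X → ∃ t,
      (t ∈ T ∨ t ∈ T' ∨ t ∈ Z) ∧ RI G (QQ O M Z c c' T T' \ (X : Set V)) t x
  · obtain ⟨σ, hσ0, hσ1⟩ : ∃ σ : Bool → Fin g → V, σ false = τ ∧ σ true = τ' :=
      ⟨fun b => bif b then τ' else τ, rfl, rfl⟩
    refine ⟨τ', hτi', hτ', ?_⟩
    rw [← hσ0, ← hσ1]
    refine S.cellA ha hg hs (by omega) hcm hW₀n hne hdense σ ?_ ?_ ?_ ?_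
    · rintro (_ | _)
      · rw [hσ0]; exact hτi
      · rw [hσ1]; exact hτi'
    · rw [hσ0]; exact hτ
    · rw [hσ1]; exact hτ'
    · rw [hσ0, hσ1]; exact hsep
  · push Not at hsep
    obtain ⟨X, hX, x, hx, hxX, hfail⟩ := hsep
    have hxR := (hW₀m x).1 hx
    have hfail' : ¬ ∃ t, (t ∈ T ∨ t ∈ T' ∨ t ∈ Z) ∧
        RI G (QQ O M Z c c' T T' \ (X : Set V)) t x := by
      rintro ⟨t, ht, hr⟩
      exact hfail t ht hr
    rcases Nat.eq_zero_or_pos Z.card with hZ | hZ
    · have hga : g = a := by omega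
      subst hga
      exact S.caseB hG hκ ha hdeg (Finset.card_eq_zero.1 hZ) (by omega) hB hc' hcm τ hτi hτ hT' hTg'
        X (by omega) hxR hxX hfail'
    · exact absurd (S.nosep hG hp0 hp hg hs.le hB hc' hcm hT hT' hTg hTg' X hX (by omega) hxR hxX)
        hfail'

end TWk
end

section

/-!
# MP_cfc9ed_co: long strips give `K_{a,k}` minors
-/

set_option autoImplicit false

namespace TWk

open SimpleGraph Relation Pool.Agent.Lib.MP_699f60_co

section

variable {V : Type} [Fintype V] {G : SimpleGraph V} {Z : Finset V} {m : ℕ} {O : ℕ → Set V}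
  {M : ℕ → Finset V} {p n a k κ : ℕ}

/-- a component which misses both cuts is a tie over `Z` -/
theorem Strip.compTie (S : Strip G Z m O M) (hG : Conn G κ) (hκa : a ≤ κ) {i j : ℕ} (hij : i ≤ j)
    (hj : j ≤ m) {x : V} (hx : x ∈ Rg O M i j) (hi' : ∀ y ∈ M i, ¬ RI G (Rg O M i j) x y)
    (hj' : ∀ y ∈ M j, ¬ RI G (Rg O M i j) x y) {z₀ : V} (hz₀ : ¬ RI G (Rg O M i j) x z₀)
    (hz₀' : z₀ ∉ Z) : κ ≤ Z.card ∧ ∃ A ⊆ Z, A.card = a ∧
      ∀ z ∈ A, ∃ v ∈ {y | RI G (Rg O M i j) x y}, G.Adj z v := by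
  classical
  set Y : Set V := {y | RI G (Rg O M i j) x y} with hY
  set N := Z.filter fun z => ∃ v ∈ Y, G.Adj z v with hN
  have hxY : x ∈ Y := RI.refl hx
  have hxZ : x ∉ Z := fun h => S.z_not hj h hx
  have h1 : κ ≤ N.card := by
    refine TWk.sep hG Y N hxY (fun h => hxZ (Finset.mem_filter.1 h).1) (fun y hy w hyw => ?_)
      hz₀ fun h => hz₀' (Finset.mem_filter.1 h).1
    by_cases hwZ : w ∈ Z
    · exact Or.inr (Finset.mem_filter.2 ⟨hwZ, y, hy, hyw.symm⟩)
    · left
      have hyR : y ∈ Rg O M i j := hy.2.1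
      have hyn : y ∈ Rn O M i j :=
        ⟨hyR.1.resolve_right fun h => hj' y h hy, hyR.2, fun h => hi' y h hy⟩
      exact RI.trans hy (RI.adj hyR (S.adjR hij hj hyn hyw hwZ) hyw)
  have h2 : N.card ≤ Z.card := Finset.card_le_card (Finset.filter_subset _ _)
  refine ⟨h1.trans h2, ?_⟩
  obtain ⟨A, hA1, hA2⟩ := Finset.exists_subset_card_eq (s := N) (n := a) (by omega)
  exact ⟨A, fun z hz => (Finset.mem_filter.1 (hA1 hz)).1, hA2,
    fun z hz => (Finset.mem_filter.1 (hA1 hz)).2⟩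

omit [Fintype V] in
theorem conn_comp {s : Set V} {x : V} (hx : x ∈ s) :
    (G.induce {y | RI G s x y}).Connected := by
  refine conn_of_RI (c := x) (RI.refl hx) ?_
  intro y hy
  obtain ⟨l, hl1, hl2, hl3, hl4⟩ := list_of_RI (show RI G s x y from hy)
  have hne : l ≠ [] := by
    rintro rfl
    simp at hl2
  have h1 := conn_list l hne hl1
  have hxl : x ∈ {v | v ∈ l} := List.mem_of_head? hl2
  have hyl : y ∈ {v | v ∈ l} := List.mem_of_getLast? hl3
  refine (RI_of_conn h1 hxl hyl).mono fun v hv => ?_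
  -- every vertex of `l` is reachable
  have key : ∀ (l : List V), l.IsChain G.Adj → (∀ v ∈ l, v ∈ s) → (∀ b, l.head? = some b →
      RI G s x b) → ∀ v ∈ l, RI G s x v := by
    intro l
    induction l with
    | nil => intro _ _ _ v hv; simp at hv
    | cons b t ih =>
      intro hc hm hh v hv
      rcases List.mem_cons.1 hv with h | h
      · rw [h]; exact hh b rfl
      · rw [List.isChain_cons] at hc
        refine ih hc.2 (fun v hv => hm v (List.mem_cons_of_mem _ hv)) (fun d hd => ?_) v h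
        refine (hh b rfl).trans (RI.adj (hm b (by simp)) (hm d ?_) (hc.1 d (by rw [hd]; rfl)))
        exact List.mem_cons_of_mem _ (List.mem_of_head? hd)
  exact key l hl1 hl4 (fun b hb => by
    rw [hl2] at hb
    simp only [Option.some.injEq] at hb
    subst hb
    exact RI.refl hx) v hv

/-- empty cuts -/
theorem Strip.case0 (S : Strip G Z m O M) (hG : Conn G κ) (hκa : a ≤ κ)
    (hcard : ∀ i ≤ m, (M i).card ≤ 0) (hm : 2 ^ Z.card * k + 2 ≤ m) : HasK G a k := by
  classical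
  have hM : ∀ i ≤ m, ∀ v, v ∉ M i := by
    intro i hi v hv
    have := Finset.card_pos.2 ⟨v, hv⟩
    have := hcard i hi
    omega
  have hne : ∀ t, ∃ v, t < m → v ∈ O (t + 1) ∧ v ∉ O t := by
    intro t
    by_cases ht : t < m
    · obtain ⟨v, h1, h2⟩ := S.ne t ht
      exact ⟨v, fun _ => ⟨h1, h2⟩⟩
    · obtain ⟨v, -, -⟩ := S.ne 0 (by omega)
      exact ⟨v, fun h => absurd h ht⟩
  choose v hv using hne
  have hvR : ∀ t < m, v t ∈ Rg O M t (t + 1) := fun t ht => ⟨Or.inl (hv t ht).1, (hv t ht).2⟩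
  refine ties_Z Z (n := m) (fun t => {y | RI G (Rg O M t (t + 1)) (v t) y}) (by omega)
    (fun t ht => conn_comp (hvR t ht)) ?_ ?_ ?_
  · intro t ht t' ht' hne
    rw [Set.disjoint_left]
    intro y hy hy'
    have h1 : y ∈ Rg O M t (t + 1) := hy.2.1
    have h2 : y ∈ Rg O M t' (t' + 1) := hy'.2.1
    have h3 : y ∈ O (t + 1) := h1.1.resolve_right (hM _ (by omega) y)
    have h4 : y ∈ O (t' + 1) := h2.1.resolve_right (hM _ (by omega) y)
    rcases Nat.lt_or_ge t t' with h5 | h5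
    · exact h2.2 (S.O_mono h5 (by omega) h3)
    · exact h1.2 (S.O_mono (by omega : t' + 1 ≤ t) (by omega) h4)
  · intro t ht z hz h
    exact S.z_not (by omega) hz h.2.1
  · intro t ht
    obtain ⟨t', ht', hne⟩ : ∃ t' < m, t' ≠ t := by
      by_cases h : t = 0
      · exact ⟨1, by omega, by omega⟩
      · exact ⟨0, by omega, by omega⟩
    refine (S.compTie hG hκa (by omega) (by omega) (hvR t ht) (fun y hy => absurd hy (hM _ (by omega) y))
      (fun y hy => absurd hy (hM _ (by omega) y)) (z₀ := v t') ?_ ?_).2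
    · intro h
      have h1 : v t' ∈ Rg O M t (t + 1) := h.2.1
      have h2 := hvR t' ht'
      have h3 : v t' ∈ O (t + 1) := h1.1.resolve_right (hM _ (by omega) _)
      have h4 : v t' ∈ O (t' + 1) := (hv t' ht').1
      rcases Nat.lt_or_ge t t' with h5 | h5
      · exact h2.2 (S.O_mono h5 (by omega) h3)
      · exact h1.2 (S.O_mono (by omega : t' + 1 ≤ t) (by omega) h4)
    · intro h
      exact S.z_not (by omega) h (hvR t' ht')

/-- strips with all the good properties -/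
theorem Strip.goodK (S : Strip G Z m O M) (hG : Conn G κ) (hκ : 2 * a ≤ κ + 1) (hκ0 : 0 < κ)
    (hdeg : ∀ v ∈ Rg O M 0 m, 2 ^ (3 * a + 3) * a + a ≤ (G.neighborSet v).ncard)
    (hcard : ∀ i ≤ m, (M i).card ≤ p) (hp : 0 < p) (hn : 0 < n) (hPC : PC G O M 0 m p)
    (hII : ∀ i, i + n ≤ m → ∀ x ∈ M i, ∀ y ∈ M i, RI G (Rg O M i (i + n)) x y)
    (hIII : ∀ i, i + n ≤ m → ∀ z ∈ Z, ∃ v ∈ Rn O M i (i + n), G.Adj z v)
    (hm3 : 3 ≤ m) (hm1 : (2 ^ Z.card * k + 1) * (n + 1) ≤ m)
    (hm2 : k * (2 * (1 + 2 * a * (n + 1)) + 4) ≤ m) : HasK G a k := by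
  classical
  have hMne : ∀ i ≤ m, p ≤ (M i).card := fun i hi =>
    (PC.sub S hPC (i := i) (j := m) hi le_rfl).card
  have halt : ∀ i, i + n ≤ m → (G.induce (Rg O M i (i + n))).Connected ∨
      (κ ≤ Z.card ∧ ∃ Y ⊆ Rg O M i (i + n), (G.induce Y).Connected ∧ ∃ A ⊆ Z,
        A.card = a ∧ ∀ z ∈ A, ∃ v ∈ Y, G.Adj z v) := by
    intro i hi
    obtain ⟨x₀, hx₀⟩ := Finset.card_pos.1 (lt_of_lt_of_le hp (hMne i (by omega)))
    have hx₀R : x₀ ∈ Rg O M i (i + n) := S.M_Rg le_rfl (by omega) hi hx₀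
    by_cases h : ∀ x ∈ Rg O M i (i + n), RI G (Rg O M i (i + n)) x₀ x
    · exact Or.inl (conn_of_RI hx₀R h)
    · right
      push Not at h
      obtain ⟨x, hx, hxn⟩ := h
      have h1 : ∀ y ∈ M i, ¬ RI G (Rg O M i (i + n)) x y := fun y hy h =>
        hxn ((hII i hi x₀ hx₀ y hy).trans h.symm)
      have h2 : ∀ y ∈ M (i + n), ¬ RI G (Rg O M i (i + n)) x y := by
        intro y hy h
        obtain ⟨x', hx', hr⟩ := (PC.sub S hPC (i := i) (j := i + n) (by omega) hi).bwd S
          (hcard _ hi) hy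
        exact h1 x' hx' (h.trans hr.symm)
      obtain ⟨h3, h4⟩ := S.compTie (a := a) hG (by omega) (by omega : i ≤ i + n) hi hx h1 h2 (z₀ := x₀)
        (fun h => hxn h.symm) (fun h => S.z_not hi h hx₀R)
      exact ⟨h3, _, fun y hy => hy.2.1, conn_comp hx, h4⟩
  by_cases hZ : a ≤ Z.card
  · -- ties over `Z`
    have hT : ∀ i, ∃ Y : Set V, i + n ≤ m → Y ⊆ Rg O M i (i + n) ∧ (G.induce Y).Connected ∧
        ∃ A ⊆ Z, A.card = a ∧ ∀ z ∈ A, ∃ v ∈ Y, G.Adj z v := by
      intro i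
      by_cases hi : i + n ≤ m
      · rcases halt i hi with h | ⟨-, Y, h1, h2, h3⟩
        · refine ⟨Rg O M i (i + n), fun _ => ⟨subset_rfl, h, ?_⟩⟩
          obtain ⟨A, hA1, hA2⟩ := Finset.exists_subset_card_eq hZ
          refine ⟨A, hA1, hA2, fun z hz => ?_⟩
          obtain ⟨v, hv, hv'⟩ := hIII i hi z (hA1 hz)
          exact ⟨v, S.Rn_sub hv, hv'⟩
        · exact ⟨Y, fun _ => ⟨h1, h2, h3⟩⟩
      · exact ⟨∅, fun h => absurd h hi⟩
    choose T hT using hT
    have hle : ∀ t < 2 ^ Z.card * k + 1, t * (n + 1) + n ≤ m := by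
      intro t ht
      have : (t + 1) * (n + 1) ≤ (2 ^ Z.card * k + 1) * (n + 1) := Nat.mul_le_mul_right _ ht
      rw [add_mul, one_mul] at this
      omega
    refine ties_Z Z (n := 2 ^ Z.card * k + 1) (fun t => T (t * (n + 1))) (by omega)
      (fun t ht => (hT _ (hle t ht)).2.1) ?_ ?_ (fun t ht => (hT _ (hle t ht)).2.2)
    · have key : ∀ t < 2 ^ Z.card * k + 1, ∀ t' < 2 ^ Z.card * k + 1, t < t' →
          Disjoint (T (t * (n + 1))) (T (t' * (n + 1))) := by
        intro t ht t' ht' htt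
        rw [Set.disjoint_left]
        intro y hy hy'
        have h1 : (t + 1) * (n + 1) ≤ t' * (n + 1) := Nat.mul_le_mul_right _ htt
        rw [add_mul, one_mul] at h1
        have h2 := hle t' ht'
        exact S.Rg_disj (by omega) (by omega) ((hT _ (hle t ht)).1 hy) ((hT _ h2).1 hy')
      intro t ht t' ht' hne
      rcases Nat.lt_or_ge t t' with h | h
      · exact key t ht t' ht' h
      · exact (key t' ht' t ht (by omega)).symm
    · intro t ht z hz h
      exact S.z_not (hle t ht) hz ((hT _ (hle t ht)).1 h)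
  · push Not at hZ
    have hgood : Good G Z m O M p n := by
      refine ⟨S, hcard, hPC, hn, fun i hi => ?_, hIII⟩
      rcases halt i hi with h | ⟨h, -⟩
      · exact h
      · omega
    -- the size of the cuts
    have hpZ : κ ≤ 2 * p + Z.card := by
      obtain ⟨x₁, hx₁⟩ := Finset.card_pos.1 (lt_of_lt_of_le hp (hMne 1 (by omega)))
      obtain ⟨x₃, hx₃⟩ := Finset.card_pos.1 (lt_of_lt_of_le hp (hMne 3 (by omega)))
      have h1 : x₁ ∈ Rn O M 0 2 := S.M_Rn (by omega) (by omega) (by omega) hx₁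
      have h2 : ∀ v ∈ Rn O M 0 2, v ∉ M 0 ∪ M 2 ∪ Z := by
        intro v hv h
        rw [Finset.mem_union, Finset.mem_union] at h
        rcases h with (h | h) | h
        · exact hv.2.2 h
        · exact S.disj 2 (by omega) v h hv.1
        · exact S.z_not (by omega) h (S.Rn_sub hv)
      have h3 := TWk.sep hG (Rn O M 0 2) (M 0 ∪ M 2 ∪ Z) h1 (h2 _ h1) (fun y hy w hyw => by
        by_cases hwZ : w ∈ Z
        · exact Or.inr (Finset.mem_union_right _ hwZ)
        · have h4 := S.adjR (by omega) (by omega) hy hyw hwZ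
          rw [Finset.mem_union, Finset.mem_union]
          by_cases h5 : w ∈ M 0
          · exact Or.inr (Or.inl (Or.inl h5))
          · rcases h4.1 with h6 | h6
            · exact Or.inl ⟨h6, h4.2, h5⟩
            · exact Or.inr (Or.inl (Or.inr h6))) (z := x₃)
        (fun h => S.disj 3 (by omega) x₃ hx₃ (S.O_mono (by omega) (by omega) h.1)) (by
          intro h
          rw [Finset.mem_union, Finset.mem_union] at h
          rcases h with (h | h) | h
          · have := S.M_disj (by omega) (by omega) h hx₃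
            omega
          · have := S.M_disj (by omega) (by omega) h hx₃
            omega
          · exact S.z_not (i := 3) (j := 3) (by omega) h (S.M_Rg le_rfl le_rfl (by omega) hx₃))
      have h4 := (Finset.card_union_le (M 0 ∪ M 2) Z)
      have h5 := (Finset.card_union_le (M 0) (M 2))
      have h6 := hcard 0 (by omega)
      have h7 := hcard 2 (by omega)
      omega
    -- roots
    obtain ⟨g, hg⟩ : ∃ g, g + Z.card = a := ⟨a - Z.card, by omega⟩
    obtain ⟨τ0, hτ0, hτ0m⟩ : ∃ τ : Fin g → V, Function.Injective τ ∧ ∀ i, τ i ∈ M 0 := by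
      have h1 := hMne 0 (by omega)
      obtain ⟨S', h2, h3⟩ := Finset.exists_subset_card_eq (s := M 0) (n := g) (by omega)
      refine ⟨fun i => (S'.equivFinOfCardEq h3).symm i, ?_, fun i => h2 (Finset.coe_mem _)⟩
      intro i j hij
      exact (S'.equivFinOfCardEq h3).symm.injective (Subtype.ext hij)
    set L := 2 * (1 + 2 * a * (n + 1)) + 4 with hL
    have hle : ∀ t ≤ k, t * L ≤ m := fun t ht => (Nat.mul_le_mul_right _ ht).trans hm2
    have hcell : ∀ (t : ℕ) (τ : Fin g → V), ∃ (β : Fin g → V) (H : Fin g ⊕ Z → Set V) (W : Set V),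
        t < k → Function.Injective τ → (∀ i, τ i ∈ M (t * L)) →
        Function.Injective β ∧ (∀ i, β i ∈ M ((t + 1) * L)) ∧
        CellOK G (Sum.elim τ fun z => z.1) (Sum.elim β fun z => z.1)
          (Rn O M (t * L) ((t + 1) * L)) H W := by
      intro t τ
      by_cases ht : t < k ∧ Function.Injective τ ∧ ∀ i, τ i ∈ M (t * L)
      · obtain ⟨ht, hτi, hτm⟩ := ht
        have h2 := hle (t + 1) ht
        have h3 : (t + 1) * L = t * L + 2 * (1 + 2 * a * (n + 1)) + 4 := by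
          rw [add_mul, one_mul, hL]
          ring
        obtain ⟨β, h4, h5, H, W, h6⟩ := hgood.cell hG hκ hdeg hp (by omega) hg (by omega)
          (B := 1 + 2 * a * (n + 1)) rfl h3 h2 τ hτi hτm
        exact ⟨β, H, W, fun _ _ _ => ⟨h4, h5, h6⟩⟩
      · exact ⟨τ, fun _ => ∅, ∅, fun h h' h'' => absurd ⟨h, h', h''⟩ ht⟩
    choose nx Hf Wf hcell using hcell
    let τ : ℕ → Fin g → V := fun t => Nat.rec τ0 (fun t τ => nx t τ) t
    have hτs : ∀ t, τ (t + 1) = nx t (τ t) := fun t => rfl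
    have hτ : ∀ t ≤ k, Function.Injective (τ t) ∧ ∀ i, τ t i ∈ M (t * L) := by
      intro t
      induction t with
      | zero =>
        intro _
        refine ⟨hτ0, ?_⟩
        rw [zero_mul]
        exact hτ0m
      | succ t ih =>
        intro ht
        obtain ⟨h1, h2⟩ := ih (by omega)
        obtain ⟨h3, h4, -⟩ := hcell t (τ t) (by omega) h1 h2
        exact ⟨h3, h4⟩
    have hHW : ∀ t < k, CellOK G (Sum.elim (τ t) fun z => z.1) (Sum.elim (τ (t + 1)) fun z => z.1)
        (Rn O M (t * L) ((t + 1) * L)) (Hf t (τ t)) (Wf t (τ t)) := fun t ht =>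
      (hcell t (τ t) ht (hτ t ht.le).1 (hτ t ht.le).2).2.2
    have hι : Fintype.card (Fin g ⊕ Z) = a := by
      rw [Fintype.card_sum, Fintype.card_fin, Fintype.card_coe]
      exact hg
    have hLpos : 0 < L := by omega
    have hτZ : ∀ t ≤ k, ∀ (i : Fin g) (z : Z), τ t i ≠ z.1 := by
      intro t ht i z h
      have h1 := S.M_Rg (i := t * L) (j := t * L) le_rfl le_rfl (hle t ht) ((hτ _ ht).2 i)
      rw [h] at h1
      exact S.z_not (hle t ht) z.2 h1
    refine assemble hι (fun t => Sum.elim (τ t) fun z => z.1)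
      (fun t => Rn O M (t * L) ((t + 1) * L)) (fun t => Hf t (τ t)) (fun t => Wf t (τ t))
      (fun t ht => (hHW t ht).conn) (fun t ht => (hHW t ht).mem) (fun t ht => (hHW t ht).sub)
      (fun t ht => (hHW t ht).tie) (fun t ht => (hHW t ht).dis)
      (fun t ht => (hHW t ht).adj) ?_ ?_ ?_
    · have key : ∀ t < k, ∀ t' < k, t < t' →
          Disjoint (Rn O M (t * L) ((t + 1) * L)) (Rn O M (t' * L) ((t' + 1) * L)) := by
        intro t ht t' ht' htt
        rw [Set.disjoint_left]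
        intro y hy hy'
        exact hy'.2.1 (S.O_mono (Nat.mul_le_mul_right _ htt) (hle t' ht'.le) hy.1)
      intro t ht t' ht' hne
      rcases Nat.lt_or_ge t t' with h | h
      · exact key t ht t' ht' h
      · exact (key t' ht' t ht (by omega)).symm
    · rintro t ht t' ht' (i | z) h
      · have h1 := (hτ _ ht).2 i
        have h2 : τ t i ∈ Rn O M (t' * L) ((t' + 1) * L) := h
        rcases Nat.lt_or_ge t' t with h3 | h3
        · exact S.disj _ (hle t ht) _ h1 (S.O_mono (Nat.mul_le_mul_right _ h3) (hle t ht) h2.1)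
        · rcases S.OM (Nat.mul_le_mul_right L h3) (hle t' ht'.le) (Or.inr h1) with h4 | h4
          · exact h2.2.1 h4
          · exact h2.2.2 h4
      · exact S.z_not (hle (t' + 1) ht') z.2 (S.Rn_sub h)
    · rintro t ht t' ht' (i | z) (j | z') h
      · have h1 := (hτ _ ht).2 i
        have h2 := (hτ _ ht').2 j
        have h3 : τ t i = τ t' j := h
        rw [← h3] at h2
        have h4 := S.M_disj (hle t ht) (hle t' ht') h1 h2
        have h5 : t = t' := Nat.eq_of_mul_eq_mul_right hLpos h4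
        subst h5
        rw [(hτ _ ht).1 h3]
      · exact absurd h (hτZ t ht i z')
      · exact absurd h.symm (hτZ t' ht' j z)
      · have : z = z' := Subtype.ext h
        rw [this]

end

/-- long strips give minors -/
theorem big (a κ k : ℕ) (hκ : 2 * a ≤ κ + 1) (hκ0 : 0 < κ) : ∀ q : ℕ, ∃ n, 0 < n ∧ ∀ (V : Type) [Fintype V] (G : SimpleGraph V)
    (Z : Finset V) (O : ℕ → Set V) (M : ℕ → Finset V) (p : ℕ), Conn G κ →
    (∀ v ∈ Rg O M 0 n, 2 ^ (3 * a + 3) * a + a ≤ (G.neighborSet v).ncard) → Strip G Z n O M →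
    (∀ i ≤ n, (M i).card ≤ p) → p + Z.card ≤ q → HasK G a k := by
  classical
  intro q
  induction q with
  | zero =>
    refine ⟨2 ^ 0 * k + 2, by omega, fun V _ G Z O M p hG hdeg S hc hq => ?_⟩
    have hp : p = 0 := by omega
    have hZ : Z.card = 0 := by omega
    subst hp
    exact S.case0 hG (by omega) hc (by rw [hZ])
  | succ q ih =>
    obtain ⟨n, hn, ih⟩ := ih
    set K1 := 2 ^ (q + 1) * k + 1 with hK1
    set l := k * (2 * (1 + 2 * a * (n + 1)) + 4) + K1 * (n + 1) + 3 with hl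
    refine ⟨(n + 1) * (l + 1) + 2 ^ (q + 1) * k + 2, by omega,
      fun V _ G Z O M p hG hdeg S hc hq => ?_⟩
    have hpow : 2 ^ Z.card * k ≤ 2 ^ (q + 1) * k :=
      Nat.mul_le_mul_right _ (Nat.pow_le_pow_right (by norm_num) (by omega))
    rcases Nat.eq_zero_or_pos p with hp | hp
    · subst hp
      exact S.case0 hG (by omega) hc (by omega)
    -- a well linked interval
    have hαm : ∀ t ≤ n, t * (l + 1) + l ≤ (n + 1) * (l + 1) + 2 ^ (q + 1) * k + 2 := by
      intro t ht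
      have : (t + 1) * (l + 1) ≤ (n + 1) * (l + 1) := Nat.mul_le_mul_right _ (by omega)
      rw [add_mul, one_mul] at this
      omega
    by_cases hpc : ∃ t ≤ n, PC G O M (t * (l + 1)) (t * (l + 1) + l) p
    swap
    · push Not at hpc
      have hX : ∀ t, ∃ X : Finset V, t ≤ n → (∀ v ∈ X, v ∈ Rg O M (t * (l + 1)) (t * (l + 1) + l)) ∧
          X.card < p ∧ ∀ x ∈ M (t * (l + 1)), ∀ y ∈ M (t * (l + 1) + l),
          ¬ RI G (Rg O M (t * (l + 1)) (t * (l + 1) + l) \ (X : Set V)) x y := by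
        intro t
        by_cases ht : t ≤ n
        · have h1 := hpc t ht
          unfold PC at h1
          push Not at h1
          obtain ⟨X, hX1, hX2⟩ := h1
          refine ⟨X.filter (· ∈ Rg O M (t * (l + 1)) (t * (l + 1) + l)), fun _ =>
            ⟨fun v hv => (Finset.mem_filter.1 hv).2,
              lt_of_le_of_lt (Finset.card_le_card (Finset.filter_subset _ _)) hX1,
              fun x hx y hy hr => hX2 x hx y hy (hr.mono ?_)⟩⟩
          rintro v ⟨h2, h3⟩
          exact ⟨h2, fun h4 => h3 (Finset.mem_coe.2 (Finset.mem_filter.2 ⟨h4, h2⟩))⟩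
        · exact ⟨∅, fun h => absurd h ht⟩
      choose X hX using hX
      have hSX := S.seps (m' := n) (fun t => t * (l + 1))
        (fun t => t * (l + 1) + l) X (fun t _ => Nat.le_add_right _ _) (fun t _ => by
          show t * (l + 1) + l < (t + 1) * (l + 1)
          rw [add_mul, one_mul]
          omega) hαm
        (fun t ht => (hX t ht).1) (fun t ht => (hX t ht).2.2)
      refine ih V G Z _ X (p - 1) hG (fun v hv => hdeg v ?_) hSX (fun t ht => ?_) (by omega)
      · refine ⟨?_, fun h0 => hv.2 (Or.inl (S.O_mono (Nat.zero_le _) (by omega) h0))⟩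
        rcases hv.1 with (h1 | ⟨x, -, h1⟩) | h1
        · exact S.OM (by have := hαm n le_rfl; omega) le_rfl (Or.inl h1)
        · exact S.OM (hαm n le_rfl) le_rfl h1.2.1.1.1
        · exact S.OM (hαm n le_rfl) le_rfl ((hX n le_rfl).1 v h1).1
      · have := (hX t ht).2.1
        omega
    · obtain ⟨t, ht, hpc⟩ := hpc
      have hmono : StrictMono fun i => t * (l + 1) + i := fun i j hij => by
        show t * (l + 1) + i < t * (l + 1) + j
        omega
      have S1 := S.sub (m' := l) (fun i => t * (l + 1) + i) hmono (hαm t ht)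
      set O1 : ℕ → Set V := fun i => O (t * (l + 1) + i) with hO1
      set M1 : ℕ → Finset V := fun i => M (t * (l + 1) + i) with hM1
      have hpc1 : PC G O1 M1 0 l p := hpc
      have hc1 : ∀ i ≤ l, (M1 i).card ≤ p := fun i hi => hc _ (by have := hαm t ht; omega)
      have hdeg1 : ∀ v ∈ Rg O1 M1 0 l,
          2 ^ (3 * a + 3) * a + a ≤ (G.neighborSet v).ncard := fun v hv => by
        refine hdeg v (S.Rg_mono (Nat.zero_le _) ?_ (hαm t ht) le_rfl hv)
        have := hαm t ht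
        omega
      by_cases hII : ∀ i, i + n ≤ l → ∀ x ∈ M1 i, ∀ y ∈ M1 i, RI G (Rg O1 M1 i (i + n)) x y
      swap
      · push Not at hII
        obtain ⟨i, hi, x, hx, y, hy, hxy⟩ := hII
        have hfwd : ∀ j ≤ n, ∀ u ∈ M1 i, ∃ v ∈ M1 (i + j), RI G (Rg O1 M1 i (i + n)) u v := by
          intro j hj u hu
          obtain ⟨v, hv, hr⟩ := (PC.sub S1 hpc1 (i := i) (j := i + j) (by omega) (by omega)).fwd S1
            (hc1 _ (by omega)) hu
          exact ⟨v, hv, hr.mono (S1.Rg_mono le_rfl (by omega) (by omega) hi)⟩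
        have hSY := S1.comp (α := i) (m' := n) hi
          {v | RI G (Rg O1 M1 i (i + n)) x v} (fun v hv => hv.2.1)
          (fun v hv w hw hvw => RI.trans hv (RI.adj hv.2.1 hw hvw)) (fun j hj => by
            obtain ⟨v, hv, hr⟩ := hfwd j hj.le x hx
            exact ⟨v, hv, hr⟩)
        refine ih V G Z _ _ (p - 1) hG (fun v hv => hdeg1 v ?_) hSY (fun j hj => ?_) (by omega)
        · have hvY : RI G (Rg O1 M1 i (i + n)) x v := by
            rcases hv.1 with h1 | h1
            · exact h1.2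
            · exact (Finset.mem_filter.1 h1).2
          exact S1.Rg_mono (Nat.zero_le _) (by omega) hi le_rfl hvY.2.1
        · obtain ⟨v, hv, hr⟩ := hfwd j hj y hy
          have h1 : (M1 (i + j)).filter (· ∈ {v | RI G (Rg O1 M1 i (i + n)) x v}) ⊆
              (M1 (i + j)).erase v := by
            intro u hu
            rw [Finset.mem_filter] at hu
            refine Finset.mem_erase.2 ⟨?_, hu.1⟩
            rintro rfl
            exact hxy (RI.trans hu.2 hr.symm)
          have h2 := Finset.card_le_card h1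
          rw [Finset.card_erase_of_mem hv] at h2
          have h3 := hc1 (i + j) (by omega)
          refine le_trans ?_ (h2.trans (Nat.sub_le_sub_right h3 1))
          refine le_of_eq ?_
          congr 1
      by_cases hIII : ∀ i, i + n ≤ l → ∀ z ∈ Z, ∃ v ∈ Rn O1 M1 i (i + n), G.Adj z v
      swap
      · push Not at hIII
        obtain ⟨i, hi, z, hz, hzn⟩ := hIII
        have hmono' : StrictMono fun j => i + j := fun j j' hij => by
          show i + j < i + j'
          omega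
        have S2 := (S1.sub (m' := n) (fun j => i + j) hmono' hi).drop (z := z) hzn
        refine ih V G _ _ _ p hG (fun v hv => hdeg1 v ?_) S2 (fun j hj => hc1 _ (by omega)) ?_
        · exact S1.Rg_mono (Nat.zero_le _) (by omega) hi le_rfl hv
        rw [Finset.card_erase_of_mem hz]
        have := Finset.card_pos.2 ⟨z, hz⟩
        omega
      refine S1.goodK hG hκ hκ0 hdeg1 hc1 hp hn hpc1 hII hIII (by omega) ?_ (by omega)
      have h1 : (2 ^ Z.card * k + 1) * (n + 1) ≤ K1 * (n + 1) :=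
        Nat.mul_le_mul_right _ (by omega)
      omega

end TWk
end

section

/-!
# MP_cfc9ed_co: large graphs of bounded tree-width contain ties or long strips
-/

set_option autoImplicit false

namespace TWk

open SimpleGraph Relation

/-- selecting cuts with constant pairwise intersections -/
theorem sun (n : ℕ) : ∀ r : ℕ, ∃ g, 0 < g ∧ ∀ (V : Type) [DecidableEq V]
    (K : ℕ → Finset V) (Z : Finset V) (α : ℕ), (∀ i ≤ g, Z ⊆ K (α + i)) →
    (∀ i ≤ g, (K (α + i) \ Z).card ≤ r) →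
    (∀ i j l, α ≤ i → i ≤ j → j ≤ l → l ≤ α + g → K i ∩ K l ⊆ K j) →
    ∃ (Z' : Finset V) (f : ℕ → ℕ), StrictMono f ∧ (∀ i ≤ n, α ≤ f i ∧ f i ≤ α + g) ∧
      ∀ i j, i < j → j ≤ n → K (f i) ∩ K (f j) = Z' := by
  intro r
  induction r with
  | zero =>
    refine ⟨n + 1, by omega, fun V _ K Z α h1 h2 _ => ⟨Z, fun i => α + i, ?_, ?_, ?_⟩⟩
    · intro i j hij
      show α + i < α + j
      omega
    · intro i hi
      show α ≤ α + i ∧ α + i ≤ α + (n + 1)
      omega
    · intro i j hij hj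
      have h3 : ∀ i ≤ n + 1, K (α + i) = Z := by
        intro i hi
        have h4 := Finset.card_eq_zero.1 (Nat.le_zero.1 (h2 i hi))
        rw [Finset.sdiff_eq_empty_iff_subset] at h4
        exact Finset.Subset.antisymm h4 (h1 i hi)
      show K (α + i) ∩ K (α + j) = Z
      rw [h3 i (by omega), h3 j (by omega), Finset.inter_self]
  | succ r ih =>
    obtain ⟨g, hg, ih⟩ := ih
    refine ⟨n * g + g, by omega, fun V _ K Z α h1 h2 h3 => ?_⟩
    by_cases hex : ∃ i, α ≤ i ∧ i + g ≤ α + (n * g + g) ∧ ∃ v ∈ K i ∩ K (i + g), v ∉ Z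
    · obtain ⟨i, hi1, hi2, v, hv, hvZ⟩ := hex
      have hvj : ∀ j ≤ g, v ∈ K (i + j) := fun j hj =>
        h3 i (i + j) (i + g) hi1 (by omega) (by omega) hi2 hv
      have hidx : ∀ j ≤ g, ∃ t ≤ n * g + g, i + j = α + t := fun j hj =>
        ⟨i + j - α, by omega, by omega⟩
      obtain ⟨Z', f, e1, e2, e3⟩ := ih V K (insert v Z) i (fun j hj => by
        obtain ⟨t, ht, ht'⟩ := hidx j hj
        refine Finset.insert_subset (hvj j hj) ?_
        rw [ht']
        exact h1 t ht) (fun j hj => by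
        obtain ⟨t, ht, ht'⟩ := hidx j hj
        have h4 : K (i + j) \ insert v Z ⊆ (K (i + j) \ Z).erase v := by
          intro u hu
          rw [Finset.mem_sdiff, Finset.mem_insert] at hu
          push Not at hu
          exact Finset.mem_erase.2 ⟨hu.2.1, Finset.mem_sdiff.2 ⟨hu.1, hu.2.2⟩⟩
        have h5 := Finset.card_le_card h4
        rw [Finset.card_erase_of_mem (Finset.mem_sdiff.2 ⟨hvj j hj, hvZ⟩)] at h5
        have h6 := h2 t ht
        rw [← ht'] at h6
        omega) (fun x y z hx hxy hyz hz => h3 x y z (by omega) hxy hyz (by omega))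
      refine ⟨Z', f, e1, fun j hj => ?_, e3⟩
      have := e2 j hj
      omega
    · push Not at hex
      refine ⟨Z, fun i => α + i * g, ?_, ?_, ?_⟩
      · intro i j hij
        show α + i * g < α + j * g
        have := Nat.mul_lt_mul_of_pos_right hij hg
        omega
      · intro i hi
        show α ≤ α + i * g ∧ α + i * g ≤ α + (n * g + g)
        have := Nat.mul_le_mul_right g hi
        omega
      · intro i j hij hj
        show K (α + i * g) ∩ K (α + j * g) = Z
        have h4 : (i + 1) * g ≤ j * g := Nat.mul_le_mul_right _ hij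
        have h5 : j * g ≤ n * g := Nat.mul_le_mul_right _ hj
        rw [add_mul, one_mul] at h4
        apply Finset.Subset.antisymm
        · intro v hv
          have h6 := h3 (α + i * g) (α + i * g + g) (α + j * g) (by omega) (by omega) (by omega)
            (by omega) hv
          exact hex (α + i * g) (by omega) (by omega) v
            (Finset.mem_inter.2 ⟨(Finset.mem_inter.1 hv).1, h6⟩)
        · intro v hv
          exact Finset.mem_inter.2 ⟨h1 _ (by omega) hv, h1 _ (by omega) hv⟩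

section

variable {V : Type} [Fintype V] {G : SimpleGraph V} {κ w : ℕ} {ord : V → ℕ} {K : V → Finset V}

theorem Late.card_K' (hG : Conn G κ) (H : Elim G w ord K) {v : V} (h : Late w ord v) :
    κ ≤ (K v).card := by
  obtain ⟨z, hz1, hz2⟩ := h.exists_out H
  exact sep hG (Ds ord K v) (K v) (self_mem_Ds v) (fun h1 => lt_irrefl _ (H.lt h1))
    (fun x hx y hy => nbr_Ds H hx hy) hz1 hz2

theorem many_children' (hG : Conn G κ) (H : Elim G w ord K) {a k : ℕ} (ha : a ≤ κ) (v : V)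
    (C : Finset V) (hC : ∀ c ∈ C, Late w ord c ∧ Par ord K v c) (hcard : 2 ^ (w + 1) * k < C.card) :
    HasK G a k := by
  classical
  obtain ⟨c, hc1, hc2⟩ : ∃ c : ℕ → V, (∀ t < C.card, c t ∈ C) ∧
      ∀ t < C.card, ∀ t' < C.card, c t = c t' → t = t' := by
    refine ⟨fun t => if h : t < C.card then (C.equivFin.symm ⟨t, h⟩ : V) else v, ?_, ?_⟩
    · intro t ht
      simp only [dif_pos ht]
      exact Finset.coe_mem _
    · intro t ht t' ht' h
      simp only [dif_pos ht, dif_pos ht'] at h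
      have := C.equivFin.symm.injective (Subtype.ext h)
      exact congrArg Fin.val this
  have hZ : (insert v (K v)).card ≤ w + 1 :=
    (Finset.card_insert_le _ _).trans (Nat.succ_le_succ (H.card v))
  have hpow : 2 ^ (insert v (K v)).card * k ≤ 2 ^ (w + 1) * k :=
    Nat.mul_le_mul_right _ (Nat.pow_le_pow_right (by norm_num) hZ)
  refine ties_Z (insert v (K v)) (n := C.card)
    (fun t => {y | RI G (Ds ord K (c t)) (c t) y}) (by omega)
    (fun t _ => conn_comp (self_mem_Ds _)) ?_ ?_ ?_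
  · intro t ht t' ht' hne
    refine Set.disjoint_of_subset (fun y hy => hy.2.1) (fun y hy => hy.2.1)
      (Ds_disj_of_sib H (hC _ (hc1 t ht)).2 (hC _ (hc1 t' ht')).2 fun h => hne (hc2 t ht t' ht' h))
  · intro t ht z hz h
    have h1 := ord_le_of_Ds H h.2.1
    have h2 := H.lt (hC _ (hc1 t ht)).2.1
    rcases Finset.mem_insert.1 hz with h3 | h3
    · rw [h3] at h1
      omega
    · have := H.lt h3
      omega
  · intro t ht
    set T : Set V := {y | RI G (Ds ord K (c t)) (c t) y} with hT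
    set N := (K (c t)).filter fun z => ∃ y ∈ T, G.Adj z y with hN
    have hcT : c t ∈ T := RI.refl (self_mem_Ds _)
    obtain ⟨z, hz1, hz2⟩ := (hC _ (hc1 t ht)).1.exists_out H
    have h1 : κ ≤ N.card := by
      refine TWk.sep hG T N hcT (fun h => lt_irrefl _ (H.lt (Finset.mem_filter.1 h).1))
        (fun y hy x hyx => ?_) (fun h => hz1 h.2.1) fun h => hz2 (Finset.mem_filter.1 h).1
      rcases nbr_Ds H hy.2.1 hyx with h | h
      · exact Or.inl (RI.trans hy (RI.adj hy.2.1 h hyx))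
      · exact Or.inr (Finset.mem_filter.2 ⟨h, y, hy, hyx.symm⟩)
    obtain ⟨A, hA1, hA2⟩ := Finset.exists_subset_card_eq (s := N) (n := a) (by omega)
    refine ⟨A, fun z hz => ?_, hA2, fun z hz => (Finset.mem_filter.1 (hA1 hz)).2⟩
    rcases K_sub_par H (hC _ (hc1 t ht)).2 (Finset.mem_filter.1 (hA1 hz)).1 with h | h
    · rw [h]; exact Finset.mem_insert_self _ _
    · exact Finset.mem_insert_of_mem h

theorem exists_chain' (hG : Conn G κ) (H : Elim G w ord K) {a k m : ℕ} (ha : a ≤ κ) (hκ : 0 < κ)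
    (hcard : (w + 1) * (2 ^ (w + 1) * k + 1) ^ m < Fintype.card V) :
    HasK G a k ∨ ∃ u, Chain w ord K m u := by
  classical
  by_contra hcon
  push Not at hcon
  obtain ⟨hcon1, hcon2⟩ := hcon
  have hpar : ∀ v, Late w ord v → ∃ p, Par ord K p v := fun v hv =>
    exists_par (Finset.card_pos.1 (lt_of_lt_of_le hκ (hv.card_K' hG H)))
  let p : V → V := fun v => if h : Late w ord v then (hpar v h).choose else v
  have hp1 : ∀ v, Late w ord v → Par ord K (p v) v := by
    intro v hv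
    simp only [p, dif_pos hv]
    exact (hpar v hv).choose_spec
  have hp2 : ∀ v, ¬ Late w ord v → p v = v := fun v hv => by simp only [p, dif_neg hv]
  have hfib : ∀ x, (Finset.univ.filter fun v => p v = x).card ≤ 2 ^ (w + 1) * k + 1 := by
    intro x
    have h1 : (Finset.univ.filter fun v => p v = x) ⊆
        insert x (Finset.univ.filter fun v => Late w ord v ∧ Par ord K x v) := by
      intro v hv
      simp only [Finset.mem_filter, Finset.mem_univ, true_and, Finset.mem_insert] at hv ⊢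
      by_cases hl : Late w ord v
      · right
        refine ⟨hl, ?_⟩
        rw [← hv]
        exact hp1 v hl
      · left
        rw [← hv, hp2 v hl]
    have h2 : (Finset.univ.filter fun v => Late w ord v ∧ Par ord K x v).card ≤
        2 ^ (w + 1) * k := by
      by_contra h3
      push Not at h3
      exact hcon1 (many_children' hG H ha x _ (fun w hw => by simpa using hw) h3)
    exact (Finset.card_le_card h1).trans ((Finset.card_insert_le _ _).trans (by omega))
  have hstay : ∀ (n : ℕ) (v : V), ¬ Late w ord v → p^[n] v = v := by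
    intro n v hv
    induction n with
    | zero => rfl
    | succ n ih => rw [Function.iterate_succ_apply', ih, hp2 v hv]
  obtain ⟨v, hv⟩ : ∃ v, Late w ord (p^[m] v) := by
    by_contra h
    push Not at h
    have h1 : ∀ v ∈ (Finset.univ : Finset V), p^[m] v ∈
        (Finset.univ.filter fun v : V => ¬ Late w ord v) := by
      intro v _
      simpa using h v
    have h2 := Finset.card_le_mul_card_image_of_maps_to h1 ((2 ^ (w + 1) * k + 1) ^ m)
      (fun b _ => card_fiber_iterate p hfib m b)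
    rw [Finset.card_univ] at h2
    have h3 := card_not_late H
    have h4 := h2.trans (Nat.mul_le_mul_left _ h3)
    rw [mul_comm] at h4
    omega
  have hlate : ∀ j ≤ m, Late w ord (p^[j] v) := by
    intro j hj
    by_contra h
    have h1 : p^[m] v = p^[j] v := by
      have : m = (m - j) + j := by omega
      rw [this, Function.iterate_add_apply, hstay _ _ h]
    rw [h1] at hv
    exact h hv
  refine hcon2 (fun i => p^[m - i] v) ⟨fun i _ => hlate _ (by omega), fun i hi => ?_⟩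
  have h1 : m - i = (m - (i + 1)) + 1 := by omega
  show Par ord K (p^[m - i] v) (p^[m - (i + 1)] v)
  rw [h1, Function.iterate_succ_apply']
  exact hp1 _ (hlate _ (by omega))

theorem chain_Ds {m : ℕ} {u : ℕ → V} (C : Chain w ord K m u) {i j : ℕ} (hij : i ≤ j)
    (hj : j ≤ m) : u j ∈ Ds ord K (u i) := by
  induction j, hij using Nat.le_induction with
  | base => exact self_mem_Ds _
  | succ j hij ih => exact ReflTransGen.tail (ih (by omega)) (C.2 j (by omega))

theorem K_not_Ds' (H : Elim G w ord K) {v x : V} (hx : x ∈ K v) : x ∉ Ds ord K v := fun h => by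
  have h1 := ord_le_of_Ds H h
  have h2 := H.lt hx
  omega

open Classical in
/-- a chain with constant pairwise intersections of the cuts is a strip -/
theorem chain_strip (H : Elim G w ord K) {m n : ℕ} {u : ℕ → V} (C : Chain w ord K m u)
    {Z : Finset V} {f : ℕ → ℕ} (hf : StrictMono f) (hfm : f (n + 1) ≤ m)
    (hZ : ∀ i j, i < j → j ≤ n + 1 → K (u (f i)) ∩ K (u (f j)) = Z) :
    Strip G Z n (fun i => {v | v ∉ Ds ord K (u (f (i + 1))) ∧ v ∉ K (u (f (i + 1)))})
      fun i => K (u (f (i + 1))) \ Z := by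
  have hle : ∀ i ≤ n, f (i + 1) ≤ m := fun i hi => (hf.monotone (by omega)).trans hfm
  have hZK : ∀ i ≤ n, Z ⊆ K (u (f (i + 1))) := by
    intro i hi
    rw [← hZ 0 (i + 1) (by omega) (by omega)]
    exact Finset.inter_subset_right
  have hZ0 : Z ⊆ K (u (f 0)) := by
    rw [← hZ 0 1 (by omega) (by omega)]
    exact Finset.inter_subset_left
  have hDs : ∀ i j, i ≤ j → j ≤ n → Ds ord K (u (f (j + 1))) ⊆ Ds ord K (u (f (i + 1))) :=
    fun i j hij hj => Ds_subset (chain_Ds C (hf.monotone (by omega)) (hle j hj))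
  have hK : ∀ i j, i ≤ j → j ≤ n → ∀ v ∈ K (u (f (j + 1))),
      v ∈ Ds ord K (u (f (i + 1))) ∨ v ∈ K (u (f (i + 1))) := fun i j hij hj v hv =>
    K_Ds H (chain_Ds C (hf.monotone (by omega)) (hle j hj)) hv
  -- no edge from the outside to the descendants
  have hout : ∀ i v x, v ∉ Ds ord K (u (f (i + 1))) → v ∉ K (u (f (i + 1))) → G.Adj v x →
      x ∉ Ds ord K (u (f (i + 1))) := by
    intro i v x h1 h2 h3 h4
    rcases nbr_Ds H h4 h3.symm with h5 | h5
    · exact h1 h5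
    · exact h2 h5
  refine ⟨?_, ?_, ?_, ?_, ?_, ?_⟩
  · intro i _ v hv h
    exact h.2 (Finset.mem_sdiff.1 hv).1
  · rintro i hi v (h | h)
    · refine ⟨fun h1 => h.1 (hDs i (i + 1) (by omega) hi h1), fun h1 => ?_⟩
      rcases hK i (i + 1) (by omega) hi v h1 with h2 | h2
      · exact h.1 h2
      · exact h.2 h2
    · rw [Finset.mem_sdiff] at h
      refine ⟨fun h1 => K_not_Ds' H h.1 (hDs i (i + 1) (by omega) hi h1), fun h1 => h.2 ?_⟩
      rw [← hZ (i + 1) (i + 1 + 1) (by omega) (by omega)]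
      exact Finset.mem_inter.2 ⟨h.1, h1⟩
  · intro z hz
    exact ⟨fun h => h.2 (hZK n le_rfl hz), fun h => (Finset.mem_sdiff.1 h).2 hz⟩
  · intro j hj v x h1 h2 h3 h4 h5
    have h6 := hout j v x h1.1 h1.2 h5
    by_cases hx : x ∈ K (u (f (j + 1)))
    · right
      refine Finset.mem_sdiff.2 ⟨hx, fun hxZ => ?_⟩
      rcases h4 with h4 | h4
      · exact h4.2 (hZK n le_rfl hxZ)
      · exact (Finset.mem_sdiff.1 h4).2 hxZ
    · exact Or.inl ⟨h6, hx⟩
  · intro v x h1 h2 h3 h4 h5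
    have h6 := hout n v x h1.1 h1.2 h4
    refine ⟨?_, fun h7 => ?_⟩
    · by_cases hx : x ∈ K (u (f (n + 1)))
      · exact Or.inr (Finset.mem_sdiff.2 ⟨hx, h5⟩)
      · exact Or.inl ⟨h6, hx⟩
    · have h8 := hout 0 x v h7.1 h7.2 h4.symm
      have h9 : v ∈ K (u (f (0 + 1))) := by
        by_contra h
        exact h2 ⟨h8, h⟩
      refine h3 (Finset.mem_sdiff.2 ⟨h9, fun h10 => ?_⟩)
      exact h1.2 (hZK n le_rfl h10)
  · intro i hi
    -- the parent of `u (f (i+1))` is in the cut and not in `Z`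
    have hpos : f i < f (i + 1) := hf (Nat.lt_succ_self i)
    have h0 : f 0 ≤ f i := hf.monotone (Nat.zero_le i)
    obtain ⟨l, hl⟩ : ∃ l, f (i + 1) = l + 1 := ⟨f (i + 1) - 1, by omega⟩
    have hlm : l < m := by have := hle i hi.le; omega
    have hpar : u l ∈ K (u (f (i + 1))) := by
      rw [hl]
      exact (C.2 l hlm).1
    have hnZ : u l ∉ Z := by
      intro h
      exact K_not_Ds' H (hZ0 h) (chain_Ds C (by omega) (by omega))
    refine ⟨u l, ?_, fun h => h.2 hpar⟩
    refine ⟨fun h1 => K_not_Ds' H hpar (hDs i (i + 1) (by omega) hi h1), fun h1 => hnZ ?_⟩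
    rw [← hZ (i + 1) (i + 1 + 1) (by omega) (by omega)]
    exact Finset.mem_inter.2 ⟨hpar, h1⟩

end

/-- main theorem for elimination schemes -/
theorem main_elim' (a κ w c k : ℕ) (hκ : 2 * a ≤ κ + 1) (hκ0 : 0 < κ) :
    ∃ N : ℕ, ∀ (V : Type) [Fintype V] (G : SimpleGraph V) (ord : V → ℕ) (K : V → Finset V),
      Conn G κ →
      {v | (G.neighborSet v).ncard < 2 ^ (3 * a + 3) * a + a}.ncard ≤ c →
      Elim G w ord K → N ≤ Fintype.card V → HasK G a k := by
  classical
  obtain ⟨n, hn, hbig⟩ := big a κ k hκ hκ0 w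
  set m := (c + 1) * (n + 1) with hm
  obtain ⟨g, hg, hsun⟩ := sun (m + 1) w
  refine ⟨(w + 1) * (2 ^ (w + 1) * k + 1) ^ g + 1, fun V _ G ord K hG hE H hN => ?_⟩
  rcases exists_chain' hG H (a := a) (k := k) (m := g) (by omega) (by omega) (by omega) with
    h | ⟨u, C⟩
  · exact h
  obtain ⟨Z, f, h1, h2, h3⟩ := hsun V (fun i => K (u i)) ∅ 0 (fun i _ => Finset.empty_subset _)
    (fun i _ => by rw [Finset.sdiff_empty]; exact H.card _) (fun i j l _ hij hjl hl => by
      intro v hv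
      rw [Finset.mem_inter] at hv
      rcases K_Ds H (chain_Ds C hjl (by omega)) hv.2 with h4 | h4
      · exact absurd (Ds_subset (chain_Ds C hij (by omega)) h4) (K_not_Ds' H hv.1)
      · exact h4)
  have S := chain_strip H C (n := m) h1 (by have := (h2 (m + 1) le_rfl).2; omega) h3
  have hZle : Z.card ≤ w := by
    rw [← h3 0 1 (by omega) (by omega)]
    exact (Finset.card_le_card Finset.inter_subset_left).trans (H.card _)
  -- an interval without vertices of small degree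
  set E := (Finset.univ.filter fun v => (G.neighborSet v).ncard < 2 ^ (3 * a + 3) * a + a) with hEd
  have hEc : E.card < c + 1 := by
    have : (E : Set V) = {v | (G.neighborSet v).ncard < 2 ^ (3 * a + 3) * a + a} := by
      ext v
      simp [hEd]
    rw [← this, Set.ncard_coe_finset] at hE
    omega
  obtain ⟨r, hr, hfr⟩ := free_interval (n := n) S E 0 (c + 1) hEc (by omega)
  have hr1 : (r + 1) * (n + 1) ≤ (c + 1) * (n + 1) := Nat.mul_le_mul_right _ hr
  rw [add_mul, one_mul] at hr1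
  have hmono : StrictMono fun i => 0 + r * (n + 1) + i := fun i j hij => by
    show 0 + r * (n + 1) + i < 0 + r * (n + 1) + j
    omega
  have S1 := S.sub (m' := n) (fun i => 0 + r * (n + 1) + i) hmono (by
    show 0 + r * (n + 1) + n ≤ m
    omega)
  refine hbig V G Z _ _ (w - Z.card) hG (fun v hv => ?_) S1 (fun i hi => ?_) (by omega)
  · by_contra hcon
    push Not at hcon
    exact hfr v hv (Finset.mem_filter.2 ⟨Finset.mem_univ _, hcon⟩)
  have hi' : 0 + r * (n + 1) + i + 1 ≤ m + 1 := by omega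
  have hZK : Z ⊆ K (u (f (0 + r * (n + 1) + i + 1))) := by
    rw [← h3 0 (0 + r * (n + 1) + i + 1) (by omega) hi']
    exact Finset.inter_subset_right
  have h4 := Finset.card_sdiff_of_subset hZK
  have h5 := H.card (u (f (0 + r * (n + 1) + i + 1)))
  refine le_trans (le_of_eq ?_) (Nat.sub_le_sub_right h5 Z.card)
  rw [← h4]

/-- `κ`-connected graphs, `2 a ≤ κ + 1`, of bounded tree-width with few vertices of small degree -/
theorem main' (a κ w c k : ℕ) (hκ : 2 * a ≤ κ + 1) (hκ0 : 0 < κ) :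
    ∃ N : ℕ, ∀ (V : Type) [Fintype V] (G : SimpleGraph V),
      Conn G κ → TreewidthLE G w →
      {v | (G.neighborSet v).ncard < 2 ^ (3 * a + 3) * a + a}.ncard ≤ c →
      N ≤ Fintype.card V → HasK G a k := by
  obtain ⟨N, hN⟩ := main_elim' a κ w c k hκ hκ0
  refine ⟨N, fun V _ G hG hT hE hcard => ?_⟩
  obtain ⟨ord, K, H⟩ := exists_elim G w hT
  exact hN V G ord K hG hE H hcard

end TWk
end
end
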