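import Mathlib

section

section

/-!
# MP_cfc9ed_co, abelian Cayley graphs: constructions of `K_{4,k}` minors

`HasK G k`: the graph `G` has `K_{4,k}` as a minor (branch sets).
-/

set_option autoImplicit false

namespace AbCay

open SimpleGraph

/-- `G` has a `K_{4,k}` minor, given by branch sets -/
def HasK {V : Type*} (G : SimpleGraph V) (k : ℕ) : Prop :=
  ∃ φ : (Fin 4 ⊕ Fin k) → Set V,
    (∀ w, (G.induce (φ w)).Connected) ∧
    (∀ w w', w ≠ w' → Disjoint (φ w) (φ w')) ∧
    (∀ w w', (completeBipartiteGraph (Fin 4) (Fin k)).Adj w w' →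
      ∃ u ∈ φ w, ∃ v ∈ φ w', G.Adj u v)

/-- assemble a minor from rails `R` and ties `T` -/
theorem hasK_of {V : Type*} {G : SimpleGraph V} {k : ℕ} (R : Fin 4 → Set V) (T : Fin k → Set V)
    (hR : ∀ i, (G.induce (R i)).Connected) (hT : ∀ j, (G.induce (T j)).Connected)
    (hRR : ∀ i i', i ≠ i' → Disjoint (R i) (R i')) (hTT : ∀ j j', j ≠ j' → Disjoint (T j) (T j'))
    (hRT : ∀ i j, Disjoint (R i) (T j)) (hadj : ∀ i j, ∃ u ∈ R i, ∃ v ∈ T j, G.Adj u v) :
    HasK G k := by
  refine ⟨Sum.elim R T, ?_, ?_, ?_⟩
  · rintro (i | j)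
    · exact hR i
    · exact hT j
  · rintro (i | j) (i' | j') hne
    · exact hRR i i' fun h => hne (by rw [h])
    · exact hRT i j'
    · exact (hRT i' j).symm
    · exact hTT j j' fun h => hne (by rw [h])
  · rintro (i | j) (i' | j') hadj'
    · simp at hadj'
    · exact hadj i j'
    · obtain ⟨u, hu, v, hv, huv⟩ := hadj i' j
      exact ⟨v, hv, u, hu, huv.symm⟩
    · simp at hadj'

/-- an induced subgraph is connected if every vertex is reachable from a centre -/
theorem conn_of_center {V : Type*} {G : SimpleGraph V} {s : Set V} {c : V} (hc : c ∈ s)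
    (h : ∀ x (hx : x ∈ s), (G.induce s).Reachable ⟨c, hc⟩ ⟨x, hx⟩) : (G.induce s).Connected := by
  have : Nonempty s := ⟨⟨c, hc⟩⟩
  refine ⟨fun a b => ?_⟩
  exact ((h a.1 a.2).symm).trans (h b.1 b.2)

theorem conn_singleton {V : Type*} {G : SimpleGraph V} (x : V) :
    (G.induce ({x} : Set V)).Connected := by
  refine conn_of_center (c := x) rfl ?_
  intro y hy
  have : y = x := hy
  subst this
  exact Reachable.refl _

/-- a star is connected -/
theorem conn_star {V : Type*} {G : SimpleGraph V} {s : Set V} {c : V} (hc : c ∈ s)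
    (h : ∀ x ∈ s, x = c ∨ G.Adj c x) : (G.induce s).Connected := by
  refine conn_of_center hc ?_
  intro x hx
  rcases h x hx with rfl | h1
  · exact Reachable.refl _
  · exact Adj.reachable (by simpa using h1)

/-- a finite path indexed by `0, ..., m` is connected -/
theorem conn_path {V : Type*} {G : SimpleGraph V} (p : ℕ → V) (m : ℕ)
    (h : ∀ j < m, G.Adj (p j) (p (j + 1))) :
    (G.induce {x | ∃ j ≤ m, x = p j}).Connected := by
  have hc : p 0 ∈ {x | ∃ j ≤ m, x = p j} := ⟨0, Nat.zero_le _, rfl⟩
  refine conn_of_center hc ?_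
  have key : ∀ j (hj : j ≤ m), (G.induce {x | ∃ j ≤ m, x = p j}).Reachable ⟨p 0, hc⟩
      ⟨p j, ⟨j, hj, rfl⟩⟩ := by
    intro j
    induction j with
    | zero => intro _; exact Reachable.refl _
    | succ j ih =>
      intro hj
      refine (ih (by omega)).trans (Adj.reachable ?_)
      simpa using h j (by omega)
  rintro x ⟨j, hj, rfl⟩
  exact key j hj

section group

variable {A : Type*} [AddCommGroup A]

theorem adj_of_mem {S : Set A} {a b : A} (hab : a ≠ b) (h : b - a ∈ S) :
    (circulantGraph S).Adj a b := by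
  rw [circulantGraph_adj]
  exact ⟨hab, Or.inr h⟩

/-- **Lemma M.**  Minor from a long direction `g`. -/
theorem hasK_of_direction {S : Set A} {k : ℕ} {g y : A} {r : Fin 4 → A} (hg : g ∈ S)
    (h0 : ∀ m : ℤ, m ≠ 0 → |m| ≤ k → m • g ≠ 0)
    (hy0 : ∀ m : ℤ, m ≠ 0 → |m| ≤ k → m • g ≠ y)
    (hyS : y = 0 ∨ (y ∈ S ∧ y ≠ 0))
    (hr : ∀ i, r i ∈ S ∨ r i - y ∈ S)
    (hr0 : ∀ i, ∀ m : ℤ, |m| ≤ k → m • g ≠ r i ∧ m • g ≠ r i - y)
    (hrr : ∀ i j, i ≠ j → ∀ m : ℤ, |m| ≤ k → m • g ≠ r i - r j) :
    HasK (circulantGraph S) k := by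
  have hbd : ∀ a b : ℕ, a ≤ k → b ≤ k → |(a : ℤ) - b| ≤ k := by
    intro a b ha hb
    rw [abs_le]
    constructor <;> omega
  have hsub : ∀ a b : ℕ, ((a : ℤ) - b) • g = a • g - b • g := by
    intro a b
    rw [sub_smul, natCast_zsmul, natCast_zsmul]
  refine hasK_of (fun i => {x | ∃ j ≤ k, x = r i + j • g})
    (fun j => {x | x = (j : ℕ) • g ∨ x = y + (j : ℕ) • g}) ?_ ?_ ?_ ?_ ?_ ?_
  · intro i
    refine conn_path (fun j => r i + j • g) k ?_
    intro j hj
    have hg0 : g ≠ 0 := by
      have := h0 1 (by norm_num) (by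
        rw [abs_one]
        exact_mod_cast (by omega : 1 ≤ k))
      simpa using this
    refine adj_of_mem ?_ ?_
    · intro h
      apply hg0
      rw [succ_nsmul] at h
      have := congrArg (fun z => z - (r i + j • g)) h
      simp only [sub_self] at this
      rw [this]
      abel
    · have : r i + (j + 1) • g - (r i + j • g) = g := by
        rw [succ_nsmul]
        abel
      rw [this]
      exact hg
  · intro j
    refine conn_star (c := (j : ℕ) • g) (Or.inl rfl) ?_
    rintro x (rfl | rfl)
    · exact Or.inl rfl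
    · rcases hyS with rfl | ⟨hyS, hy⟩
      · left
        rw [zero_add]
      · right
        refine adj_of_mem ?_ ?_
        · intro h
          apply hy
          have := congrArg (fun z => z - (j : ℕ) • g) h
          simp only [sub_self] at this
          rw [this]
          abel
        · have : y + (j : ℕ) • g - (j : ℕ) • g = y := by abel
          rw [this]
          exact hyS
  · intro i i' hne
    rw [Set.disjoint_left]
    rintro x ⟨a, ha, rfl⟩ ⟨b, hb, hab⟩
    refine hrr i i' hne ((b : ℤ) - a) (hbd b a hb ha) ?_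
    rw [hsub]
    have := congrArg (fun z => z - r i' - a • g) hab
    calc b • g - a • g = r i' + b • g - r i' - a • g := by abel
      _ = r i + a • g - r i' - a • g := this.symm
      _ = r i - r i' := by abel
  · intro j j' hne
    have hjj : ((j : ℕ) : ℤ) - (j' : ℕ) ≠ 0 := by
      intro h
      apply hne
      ext
      omega
    have hjj' : ((j' : ℕ) : ℤ) - (j : ℕ) ≠ 0 := by
      intro h
      apply hne
      ext
      omega
    have hj : (j : ℕ) ≤ k := j.2.le
    have hj' : (j' : ℕ) ≤ k := j'.2.le
    rw [Set.disjoint_left]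
    rintro x (h1 | h1) (h2 | h2)
    · refine h0 _ hjj (hbd _ _ hj hj') ?_
      rw [hsub, sub_eq_zero, ← h1, ← h2]
    · refine hy0 _ hjj (hbd _ _ hj hj') ?_
      rw [hsub, ← h1, h2]
      abel
    · refine hy0 _ hjj' (hbd _ _ hj' hj) ?_
      rw [hsub, ← h2, h1]
      abel
    · refine h0 _ hjj (hbd _ _ hj hj') ?_
      rw [hsub, sub_eq_zero]
      rw [h1] at h2
      exact add_left_cancel h2
  · intro i j
    have hj : (j : ℕ) ≤ k := j.2.le
    rw [Set.disjoint_left]
    rintro x ⟨a, ha, rfl⟩ (h2 | h2)
    · refine (hr0 i _ (hbd j a hj ha)).1 ?_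
      rw [hsub, ← h2]
      abel
    · refine (hr0 i _ (hbd j a hj ha)).2 ?_
      rw [hsub]
      have := congrArg (fun z => z - y - a • g) h2
      calc (j : ℕ) • g - a • g = y + (j : ℕ) • g - y - a • g := by abel
        _ = r i + a • g - y - a • g := this.symm
        _ = r i - y := by abel
  · intro i j
    have hj : (j : ℕ) ≤ k := j.2.le
    refine ⟨r i + (j : ℕ) • g, ⟨j, hj, rfl⟩, ?_⟩
    rcases hr i with h1 | h1
    · refine ⟨(j : ℕ) • g, Or.inl rfl, ?_⟩
      refine (adj_of_mem ?_ ?_).symm
      · intro h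
        refine (hr0 i 0 (by simp)).1 ?_
        have := congrArg (fun z => z - (j : ℕ) • g) h
        simp only [sub_self] at this
        rw [zero_smul, this]
        abel
      · have : r i + (j : ℕ) • g - (j : ℕ) • g = r i := by abel
        rw [this]
        exact h1
    · refine ⟨y + (j : ℕ) • g, Or.inr rfl, ?_⟩
      refine (adj_of_mem ?_ ?_).symm
      · intro h
        refine (hr0 i 0 (by simp)).2 ?_
        have := congrArg (fun z => z - (j : ℕ) • g - y) h
        rw [zero_smul]
        calc (0 : A) = y + (j : ℕ) • g - (j : ℕ) • g - y := by abel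
          _ = r i + (j : ℕ) • g - (j : ℕ) • g - y := this
          _ = r i - y := by abel
      · have : r i + (j : ℕ) • g - (y + (j : ℕ) • g) = r i - y := by abel
        rw [this]
        exact h1

/-- choose `k` elements of `S'` with pairwise differences outside a small symmetric set `F` -/
theorem exists_spread [DecidableEq A] (S' F : Finset A) (hF : ∀ x ∈ F, -x ∈ F) (hF0 : (0 : A) ∈ F)
    (c : ℕ) (hFc : F.card ≤ c) : ∀ k : ℕ, c * k < S'.card →
    ∃ T : Finset A, T ⊆ S' ∧ T.card = k ∧ (∀ t ∈ T, t ∉ F) ∧
      ∀ t ∈ T, ∀ t' ∈ T, t ≠ t' → t - t' ∉ F := by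
  intro k
  induction k with
  | zero => intro _; exact ⟨∅, by simp, by simp, by simp, by simp⟩
  | succ k ih =>
    intro hk
    obtain ⟨T, hTS, hTc, hT1, hT2⟩ := ih (by
      have : c * k ≤ c * (k + 1) := Nat.mul_le_mul_left c (by omega)
      omega)
    set B : Finset A := F ∪ T.biUnion (fun t => F.image (fun f => t + f)) with hB
    have hBc : B.card ≤ c * (k + 1) := by
      have h1 : (T.biUnion (fun t => F.image (fun f => t + f))).card ≤ T.card * c :=
        Finset.card_biUnion_le_card_mul _ _ _ fun t _ => Finset.card_image_le.trans hFc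
      have h2 := Finset.card_union_le F (T.biUnion (fun t => F.image (fun f => t + f)))
      rw [← hB] at h2
      rw [hTc] at h1
      calc B.card ≤ c + k * c := by omega
        _ = c * (k + 1) := by ring
    obtain ⟨x, hxS, hxB⟩ := Finset.exists_mem_notMem_of_card_lt_card (hBc.trans_lt hk)
    have hxF : x ∉ F := fun h => hxB (Finset.mem_union_left _ h)
    have hxT : ∀ t ∈ T, x - t ∉ F := by
      intro t ht h
      apply hxB
      refine Finset.mem_union_right _ (Finset.mem_biUnion.2 ⟨t, ht, Finset.mem_image.2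
        ⟨x - t, h, by abel⟩⟩)
    have hxT' : x ∉ T := fun h => hxT x h (by rw [sub_self]; exact hF0)
    refine ⟨insert x T, ?_, ?_, ?_, ?_⟩
    · intro z hz
      rcases Finset.mem_insert.1 hz with rfl | hz
      · exact hxS
      · exact hTS hz
    · rw [Finset.card_insert_of_notMem hxT', hTc]
    · intro z hz
      rcases Finset.mem_insert.1 hz with rfl | hz
      · exact hxF
      · exact hT1 z hz
    · intro z hz z' hz' hne
      rcases Finset.mem_insert.1 hz with h1 | h1 <;> rcases Finset.mem_insert.1 hz' with h2 | h2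
      · exact absurd (h1.trans h2.symm) hne
      · rw [h1]
        exact hxT z' h2
      · rw [h2]
        intro h
        apply hxT z h1
        have := hF _ h
        rwa [neg_sub] at this
      · exact hT2 z h1 z' h2 hne

/-- **Large degree.** -/
theorem hasK_of_large_degree (S' : Finset A) (h0 : (0 : A) ∉ S') (k : ℕ)
    (hk : 15 * (k + 1) < S'.card) : HasK (circulantGraph (S' : Set A)) k := by
  classical
  -- three elements
  obtain ⟨u, hu1, hu2⟩ : ∃ u : Fin 3 → A, (∀ i, u i ∈ S') ∧ Function.Injective u := by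
    obtain ⟨t, ht, htc⟩ := Finset.exists_subset_card_eq (s := S') (n := 3) (by omega)
    have e := (Finset.equivFinOfCardEq htc).symm
    exact ⟨fun i => (e i).1, fun i => ht (e i).2, fun a b hab => e.injective (Subtype.ext hab)⟩
  set F : Finset A := (Finset.univ.image (fun p : Fin 3 × Fin 3 => u p.1 - u p.2) ∪
    Finset.univ.image u) ∪ Finset.univ.image (fun i => -u i) with hF
  have hFd : ∀ a b, u a - u b ∈ F := fun a b => by simp [hF]
  have hFu : ∀ a, u a ∈ F := fun a => by simp [hF]
  have hFn : ∀ a, -u a ∈ F := fun a => by simp [hF]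
  have hFs : ∀ x ∈ F, -x ∈ F := by
    intro x hx
    rw [hF, Finset.mem_union, Finset.mem_union, Finset.mem_image, Finset.mem_image,
      Finset.mem_image] at hx
    rcases hx with (⟨p, -, rfl⟩ | ⟨i, -, rfl⟩) | ⟨i, -, rfl⟩
    · rw [neg_sub]
      exact hFd _ _
    · exact hFn i
    · rw [neg_neg]
      exact hFu i
  have hF0 : (0 : A) ∈ F := by
    have := hFd 0 0
    rwa [sub_self] at this
  have hFc : F.card ≤ 15 := by
    have h1 : (Finset.univ.image (fun p : Fin 3 × Fin 3 => u p.1 - u p.2)).card ≤ 9 :=
      Finset.card_image_le.trans (by simp)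
    have h2 : (Finset.univ.image u).card ≤ 3 := Finset.card_image_le.trans (by simp)
    have h3 : (Finset.univ.image (fun i => -u i)).card ≤ 3 := Finset.card_image_le.trans (by simp)
    have h4 := Finset.card_union_le (Finset.univ.image (fun p : Fin 3 × Fin 3 => u p.1 - u p.2))
      (Finset.univ.image u)
    have h5 := Finset.card_union_le (Finset.univ.image (fun p : Fin 3 × Fin 3 => u p.1 - u p.2) ∪
      Finset.univ.image u) (Finset.univ.image (fun i => -u i))
    rw [← hF] at h5
    omega
  obtain ⟨T, hTS, hTc, hT1, hT2⟩ := exists_spread S' F hFs hF0 15 hFc k (by omega)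
  obtain ⟨s, hs1, hs2⟩ : ∃ s : Fin k → A, (∀ j, s j ∈ T) ∧ Function.Injective s := by
    have e := (Finset.equivFinOfCardEq hTc).symm
    exact ⟨fun i => (e i).1, fun i => (e i).2, fun a b hab => e.injective (Subtype.ext hab)⟩
  have hsS : ∀ j, s j ∈ S' := fun j => hTS (hs1 j)
  have hsF : ∀ j, s j ∉ F := fun j => hT1 _ (hs1 j)
  have hsd : ∀ j l, j ≠ l → s j - s l ∉ F := fun j l hjl => hT2 _ (hs1 j) _ (hs1 l)
    fun h => hjl (hs2 h)
  have hu0 : ∀ a, u a ≠ 0 := fun a h => h0 (h ▸ hu1 a)
  have hs0 : ∀ j, s j ≠ 0 := fun j h => h0 (h ▸ hsS j)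
  -- rails
  let R : Fin 4 → Set A := Fin.cons {0} (fun a => {x | x = u a ∨ ∃ j, x = u a + s j})
  refine hasK_of R (fun j => {s j}) ?_ ?_ ?_ ?_ ?_ ?_
  · intro i
    refine Fin.cases ?_ (fun a => ?_) i
    · exact conn_singleton 0
    · refine conn_star (c := u a) (Or.inl rfl) ?_
      rintro x (rfl | ⟨j, rfl⟩)
      · exact Or.inl rfl
      · right
        refine adj_of_mem ?_ ?_
        · intro h
          exact hs0 j (by simpa using h)
        · have : u a + s j - u a = s j := by abel
          rw [this]
          exact hsS j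
  · intro j
    exact conn_singleton _
  · -- disjointness of the rails
    have key0 : ∀ a, Disjoint ({0} : Set A) {x | x = u a ∨ ∃ j, x = u a + s j} := by
      intro a
      rw [Set.disjoint_left]
      rintro x hx (h1 | ⟨j, h1⟩)
      · rw [Set.mem_singleton_iff] at hx
        exact hu0 a (by rw [← h1, hx])
      · rw [Set.mem_singleton_iff] at hx
        apply hsF j
        have : s j = -u a := by
          rw [hx] at h1
          exact (neg_eq_of_add_eq_zero_right h1.symm).symm
        rw [this]
        exact hFn a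
    have key : ∀ a b, a ≠ b → Disjoint ({x | x = u a ∨ ∃ j, x = u a + s j} : Set A)
        {x | x = u b ∨ ∃ j, x = u b + s j} := by
      intro a b hab
      rw [Set.disjoint_left]
      rintro x (h1 | ⟨j, h1⟩) (h2 | ⟨l, h2⟩)
      · exact hab (hu2 (h1.symm.trans h2))
      · apply hsF l
        have : s l = u a - u b := by rw [← h1, h2]; abel
        rw [this]
        exact hFd a b
      · apply hsF j
        have : s j = u b - u a := by rw [← h2, h1]; abel
        rw [this]
        exact hFd b a
      · have h3 : u a + s j = u b + s l := h1.symm.trans h2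
        by_cases hjl : j = l
        · subst hjl
          exact hab (hu2 (add_right_cancel h3))
        · apply hsd j l hjl
          have : s j - s l = u b - u a := by
            have := congrArg (fun z => z - u a - s l) h3
            calc s j - s l = u a + s j - u a - s l := by abel
              _ = u b + s l - u a - s l := this
              _ = u b - u a := by abel
          rw [this]
          exact hFd b a
    intro i i'
    refine Fin.cases ?_ (fun a => ?_) i
    · refine Fin.cases ?_ (fun b => ?_) i'
      · intro h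
        exact absurd rfl h
      · intro _
        exact key0 b
    · refine Fin.cases ?_ (fun b => ?_) i'
      · intro _
        exact (key0 a).symm
      · intro h
        exact key a b fun hab => h (by rw [hab])
  · intro j j' hne
    rw [Set.disjoint_singleton]
    exact fun h => hne (hs2 h)
  · intro i j
    rw [Set.disjoint_singleton_right]
    revert i
    refine Fin.cases ?_ (fun a => ?_)
    · intro h
      exact hs0 j h
    · rintro (h1 | ⟨l, h1⟩)
      · apply hsF j
        rw [h1]
        exact hFu a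
      · by_cases hjl : j = l
        · subst hjl
          exact hu0 a (by simpa using h1)
        · apply hsd j l hjl
          have : s j - s l = u a := by rw [h1]; abel
          rw [this]
          exact hFu a
  · intro i j
    revert i
    refine Fin.cases ?_ (fun a => ?_)
    · refine ⟨0, rfl, s j, rfl, adj_of_mem (hs0 j).symm ?_⟩
      rw [sub_zero]
      exact hsS j
    · refine ⟨u a + s j, Or.inr ⟨j, rfl⟩, s j, rfl, (adj_of_mem ?_ ?_).symm⟩
      · intro h
        exact hu0 a (by simpa using h)
      · have : u a + s j - s j = u a := by abel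
        rw [this]
        exact hu1 a

end group

end AbCay
end

section

/-!
# MP_cfc9ed_co, abelian Cayley graphs: the infinite case
-/

set_option autoImplicit false

namespace AbCay

/-- data for Lemma M, in an infinite group -/
structure Good {A : Type*} [AddCommGroup A] (S : Set A) (g y : A) (r : Fin 4 → A) : Prop where
  hg : g ∈ S
  h0 : ∀ m : ℤ, m ≠ 0 → m • g ≠ 0
  hy0 : ∀ m : ℤ, m ≠ 0 → m • g ≠ y
  hyS : y = 0 ∨ (y ∈ S ∧ y ≠ 0)
  hr : ∀ i, r i ∈ S ∨ r i - y ∈ S
  hr0 : ∀ i, ∀ m : ℤ, m • g ≠ r i ∧ m • g ≠ r i - y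
  hrr : ∀ i j, i ≠ j → ∀ m : ℤ, m • g ≠ r i - r j

section quot

variable {Q : Type*} [AddCommGroup Q]

theorem small_one {x : Q} (h4 : (4 : ℤ) • x = 0) (hx : ∀ q : Q, ∃ m : ℤ, q = m • x) (q : Q) :
    q = 0 ∨ q = x ∨ q = (2 : ℤ) • x ∨ q = (3 : ℤ) • x := by
  obtain ⟨m, rfl⟩ := hx q
  have h1 : m • x = (m % 4) • x := by
    have h2 : m = 4 * (m / 4) + m % 4 := (Int.mul_ediv_add_emod m 4).symm
    conv_lhs => rw [h2]
    rw [add_smul, mul_comm, mul_smul, h4, smul_zero, zero_add]
  rw [h1]
  have h3 : 0 ≤ m % 4 := Int.emod_nonneg _ (by norm_num)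
  have h5 : m % 4 < 4 := Int.emod_lt_of_pos _ (by norm_num)
  interval_cases (m % 4)
  · left; simp
  · right; left; simp
  · right; right; left; rfl
  · right; right; right; rfl

theorem small_two {a b : Q} (ha : (2 : ℤ) • a = 0) (hb : (2 : ℤ) • b = 0)
    (hx : ∀ q : Q, ∃ m n : ℤ, q = m • a + n • b) (q : Q) :
    q = 0 ∨ q = a ∨ q = b ∨ q = a + b := by
  obtain ⟨m, n, rfl⟩ := hx q
  have key : ∀ (m : ℤ) (x : Q), (2 : ℤ) • x = 0 → m • x = (m % 2) • x := by
    intro m x h
    have h2 : m = 2 * (m / 2) + m % 2 := (Int.mul_ediv_add_emod m 2).symm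
    conv_lhs => rw [h2]
    rw [add_smul, mul_comm, mul_smul, h, smul_zero, zero_add]
  rw [key m a ha, key n b hb]
  have h3 : 0 ≤ m % 2 := Int.emod_nonneg _ (by norm_num)
  have h5 : m % 2 < 2 := Int.emod_lt_of_pos _ (by norm_num)
  have h3' : 0 ≤ n % 2 := Int.emod_nonneg _ (by norm_num)
  have h5' : n % 2 < 2 := Int.emod_lt_of_pos _ (by norm_num)
  interval_cases (m % 2) <;> interval_cases (n % 2) <;> simp

/-- **Lemma C.**  In a group with at least `5` elements, a symmetric generating set with three
nonzero elements has a vertex or an edge with four neighbours. -/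
theorem lemC {S : Set Q} (hS : ∀ x ∈ S, -x ∈ S) (hgen : AddSubgroup.closure S = ⊤)
    (h5 : ∀ a b c d : Q, ∃ q : Q, q ≠ a ∧ q ≠ b ∧ q ≠ c ∧ q ≠ d)
    {x1 x2 x3 : Q} (h1 : x1 ∈ S) (h2 : x2 ∈ S) (h3 : x3 ∈ S) (h10 : x1 ≠ 0) (h20 : x2 ≠ 0)
    (h30 : x3 ≠ 0) (h12 : x1 ≠ x2) (h13 : x1 ≠ x3) (h23 : x2 ≠ x3) :
    ∃ (y : Q) (r : Fin 4 → Q), (y = 0 ∨ (y ∈ S ∧ y ≠ 0)) ∧ (∀ i, r i ∈ S ∨ r i - y ∈ S) ∧
      (∀ i, r i ≠ 0 ∧ r i ≠ y) ∧ Function.Injective r := by
  classical
  have inj4 : ∀ {a b c d : Q}, a ≠ b → a ≠ c → a ≠ d → b ≠ c → b ≠ d → c ≠ d →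
      Function.Injective ![a, b, c, d] := by
    intro a b c d hab hac had hbc hbd hcd i j hij
    fin_cases i <;> fin_cases j <;> simp_all
  have all4 : ∀ {a b c d : Q} {P : Q → Prop}, P a → P b → P c → P d →
      ∀ i : Fin 4, P (![a, b, c, d] i) := by
    intro a b c d P ha hb hc hd i
    fin_cases i <;> assumption
  by_cases h4 : ∃ x4 ∈ S, x4 ≠ 0 ∧ x4 ≠ x1 ∧ x4 ≠ x2 ∧ x4 ≠ x3
  · obtain ⟨x4, h4, h40, h41, h42, h43⟩ := h4
    refine ⟨0, ![x1, x2, x3, x4], Or.inl rfl, ?_, ?_, inj4 h12 h13 h41.symm h23 h42.symm h43.symm⟩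
    · exact all4 (P := fun z => z ∈ S ∨ z - 0 ∈ S) (Or.inl h1) (Or.inl h2) (Or.inl h3) (Or.inl h4)
    · exact all4 (P := fun z => z ≠ 0 ∧ z ≠ 0) ⟨h10, h10⟩ ⟨h20, h20⟩ ⟨h30, h30⟩ ⟨h40, h40⟩
  push Not at h4
  have hcl : ∀ z ∈ S, z ≠ 0 → z ∈ ({x1, x2, x3} : Finset Q) := by
    intro z hz hz0
    simp only [Finset.mem_insert, Finset.mem_singleton]
    by_cases e1 : z = x1
    · exact Or.inl e1
    by_cases e2 : z = x2
    · exact Or.inr (Or.inl e2)
    exact Or.inr (Or.inr (h4 z hz hz0 e1 e2))
  by_cases hself : ∀ z ∈ S, z ≠ 0 → -z = z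
  · -- three involutions
    have e1 := hself x1 h1 h10
    have e2 := hself x2 h2 h20
    have e3 := hself x3 h3 h30
    by_cases hex : x1 = x2 + x3
    · exfalso
      have t2 : (2 : ℤ) • x2 = 0 := by
        rw [two_smul]
        nth_rewrite 1 [← e2]
        abel
      have t3 : (2 : ℤ) • x3 = 0 := by
        rw [two_smul]
        nth_rewrite 1 [← e3]
        abel
      have hx : ∀ q : Q, ∃ m n : ℤ, q = m • x2 + n • x3 := by
        intro q
        have hq : q ∈ AddSubgroup.closure ({x2, x3} : Set Q) := by
          have hle : AddSubgroup.closure S ≤ AddSubgroup.closure ({x2, x3} : Set Q) := by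
            rw [AddSubgroup.closure_le]
            intro z hz
            have m2 : x2 ∈ AddSubgroup.closure ({x2, x3} : Set Q) :=
              AddSubgroup.subset_closure (by simp)
            have m3 : x3 ∈ AddSubgroup.closure ({x2, x3} : Set Q) :=
              AddSubgroup.subset_closure (by simp)
            by_cases hz0 : z = 0
            · rw [hz0]
              exact zero_mem _
            have := hcl z hz hz0
            simp only [Finset.mem_insert, Finset.mem_singleton] at this
            rcases this with rfl | rfl | rfl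
            · rw [hex]
              exact add_mem m2 m3
            · exact m2
            · exact m3
          rw [hgen] at hle
          exact hle (AddSubgroup.mem_top q)
        obtain ⟨m, n, h⟩ := AddSubgroup.mem_closure_pair.1 hq
        exact ⟨m, n, h.symm⟩
      obtain ⟨q, q1, q2, q3, q4⟩ := h5 0 x2 x3 (x2 + x3)
      rcases small_two t2 t3 hx q with h | h | h | h
      · exact q1 h
      · exact q2 h
      · exact q3 h
      · exact q4 h
    · refine ⟨x3, ![x1, x2, x1 + x3, x2 + x3], Or.inr ⟨h3, h30⟩, ?_, ?_, ?_⟩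
      · refine all4 (P := fun z => z ∈ S ∨ z - x3 ∈ S) (Or.inl h1) (Or.inl h2) (Or.inr ?_)
          (Or.inr ?_)
        · rw [add_sub_cancel_right]; exact h1
        · rw [add_sub_cancel_right]; exact h2
      · refine all4 (P := fun z => z ≠ 0 ∧ z ≠ x3) ⟨h10, h13⟩ ⟨h20, h23⟩ ⟨?_, ?_⟩ ⟨?_, ?_⟩
        · intro h
          apply h13
          rw [← e3]
          exact eq_neg_of_add_eq_zero_left h
        · intro h
          exact h10 (by simpa using h)
        · intro h
          apply h23
          rw [← e3]
          exact eq_neg_of_add_eq_zero_left h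
        · intro h
          exact h20 (by simpa using h)
      · refine inj4 h12 ?_ hex ?_ ?_ ?_
        · intro h
          exact h30 (by simpa using h)
        · intro h
          apply hex
          rw [h]
          have : x3 + x3 = 0 := by
            nth_rewrite 1 [← e3]
            abel
          rw [add_assoc, this, add_zero]
        · intro h
          exact h30 (by simpa using h)
        · intro h
          exact h12 (add_right_cancel h)
  · push Not at hself
    obtain ⟨x, hx, hx0, hxn⟩ := hself
    have hxn' : -x ∈ S := hS x hx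
    have hxn0 : -x ≠ 0 := neg_ne_zero.2 hx0
    have hx3 := hcl x hx hx0
    have hxn3 := hcl (-x) hxn' hxn0
    -- the third element
    obtain ⟨y, hyP, hy1, hy2⟩ : ∃ y ∈ ({x1, x2, x3} : Finset Q), y ≠ x ∧ y ≠ -x := by
      by_contra hcon
      push Not at hcon
      have hsub : ({x1, x2, x3} : Finset Q) ⊆ {x, -x} := by
        intro z hz
        by_cases h : z = x
        · rw [h]; exact Finset.mem_insert_self _ _
        · have := hcon z hz h
          rw [this]
          exact Finset.mem_insert_of_mem (Finset.mem_singleton_self _)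
      have c1 : ({x1, x2, x3} : Finset Q).card = 3 :=
        Finset.card_eq_three.2 ⟨x1, x2, x3, h12, h13, h23, rfl⟩
      have c2 := Finset.card_le_card hsub
      have c3 : ({x, -x} : Finset Q).card ≤ 2 := Finset.card_le_two
      omega
    have hyS : y ∈ S ∧ y ≠ 0 := by
      simp only [Finset.mem_insert, Finset.mem_singleton] at hyP
      rcases hyP with rfl | rfl | rfl
      · exact ⟨h1, h10⟩
      · exact ⟨h2, h20⟩
      · exact ⟨h3, h30⟩
    have hyy : -y = y := by
      by_contra hne
      have hyn3 := hcl (-y) (hS y hyS.1) (neg_ne_zero.2 hyS.2)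
      have hsub : ({x, -x, y, -y} : Finset Q) ⊆ {x1, x2, x3} := by
        intro z hz
        simp only [Finset.mem_insert, Finset.mem_singleton] at hz
        rcases hz with rfl | rfl | rfl | rfl
        · exact hx3
        · exact hxn3
        · exact hyP
        · exact hyn3
      have c2 := Finset.card_le_card hsub
      have c3 : ({x1, x2, x3} : Finset Q).card ≤ 3 := Finset.card_le_three
      have c4 : ({x, -x, y, -y} : Finset Q).card = 4 := by
        rw [Finset.card_insert_of_notMem, Finset.card_insert_of_notMem,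
          Finset.card_insert_of_notMem, Finset.card_singleton]
        · simp only [Finset.mem_singleton]
          exact fun h => hne h.symm
        · simp only [Finset.mem_insert, Finset.mem_singleton]
          rintro (h | h)
          · exact hy2 h.symm
          · exact hy1 (neg_injective h).symm
        · simp only [Finset.mem_insert, Finset.mem_singleton]
          rintro (h | h | h)
          · exact hxn h.symm
          · exact hy1 h.symm
          · exact hy2 (by rw [h, neg_neg])
      omega
    by_cases hex : x + x = y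
    · exfalso
      have t4 : (4 : ℤ) • x = 0 := by
        have : (4 : ℤ) • x = (x + x) + (x + x) := by
          rw [show (4 : ℤ) = 2 + 2 by norm_num, add_smul, two_smul]
        rw [this, hex]
        nth_rewrite 1 [← hyy]
        abel
      have hxq : ∀ q : Q, ∃ m : ℤ, q = m • x := by
        intro q
        have hle : AddSubgroup.closure S ≤ AddSubgroup.zmultiples x := by
          rw [AddSubgroup.closure_le]
          intro z hz
          have mx : x ∈ AddSubgroup.zmultiples x := AddSubgroup.mem_zmultiples x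
          by_cases hz0 : z = 0
          · rw [hz0]
            exact zero_mem _
          by_cases hz1 : z = x
          · rw [hz1]; exact mx
          by_cases hz2 : z = -x
          · rw [hz2]; exact neg_mem mx
          by_cases hz3 : z = y
          · rw [hz3, ← hex]; exact add_mem mx mx
          exfalso
          have hsub : ({x, -x, y, z} : Finset Q) ⊆ {x1, x2, x3} := by
            intro z' hz'
            simp only [Finset.mem_insert, Finset.mem_singleton] at hz'
            rcases hz' with rfl | rfl | rfl | rfl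
            · exact hx3
            · exact hxn3
            · exact hyP
            · exact hcl _ hz hz0
          have c2 := Finset.card_le_card hsub
          have c3 : ({x1, x2, x3} : Finset Q).card ≤ 3 := Finset.card_le_three
          have c4 : ({x, -x, y, z} : Finset Q).card = 4 := by
            rw [Finset.card_insert_of_notMem, Finset.card_insert_of_notMem,
              Finset.card_insert_of_notMem, Finset.card_singleton]
            · simp only [Finset.mem_singleton]
              exact fun h => hz3 h.symm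
            · simp only [Finset.mem_insert, Finset.mem_singleton]
              rintro (h | h)
              · exact hy2 h.symm
              · exact hz2 h.symm
            · simp only [Finset.mem_insert, Finset.mem_singleton]
              rintro (h | h | h)
              · exact hxn h.symm
              · exact hy1 h.symm
              · exact hz1 h.symm
          omega
        rw [hgen] at hle
        obtain ⟨m, hm⟩ := AddSubgroup.mem_zmultiples_iff.1 (hle (AddSubgroup.mem_top q))
        exact ⟨m, hm.symm⟩
      obtain ⟨q, q1, q2, q3, q4⟩ := h5 0 x ((2 : ℤ) • x) ((3 : ℤ) • x)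
      rcases small_one t4 hxq q with h | h | h | h
      · exact q1 h
      · exact q2 h
      · exact q3 h
      · exact q4 h
    · refine ⟨y, ![x, -x, x + y, -x + y], Or.inr hyS, ?_, ?_, ?_⟩
      · refine all4 (P := fun z => z ∈ S ∨ z - y ∈ S) (Or.inl hx) (Or.inl hxn') (Or.inr ?_)
          (Or.inr ?_)
        · rw [add_sub_cancel_right]; exact hx
        · rw [add_sub_cancel_right]; exact hxn'
      · refine all4 (P := fun z => z ≠ 0 ∧ z ≠ y) ⟨hx0, hy1.symm⟩ ⟨hxn0, hy2.symm⟩ ⟨?_, ?_⟩
          ⟨?_, ?_⟩
        · intro h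
          apply hy1
          rw [← hyy]
          exact (eq_neg_of_add_eq_zero_left h).symm
        · intro h
          exact hx0 (by simpa using h)
        · intro h
          apply hy2
          rw [← hyy]
          exact (eq_neg_of_add_eq_zero_left h).symm
        · intro h
          exact hx0 (by simpa using h)
      · refine inj4 (Ne.symm hxn) ?_ ?_ ?_ ?_ ?_
        · intro h
          exact hyS.2 (by simpa using h)
        · intro h
          apply hex
          have := congrArg (fun z => z + x) h
          calc x + x = x + x := rfl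
            _ = -x + y + x := this
            _ = y := by abel
        · intro h
          apply hex
          have h' := congrArg (fun z => z + x - y) h
          have h6 : -y = x + x := by
            calc -y = -x + x - y := by abel
              _ = x + y + x - y := h'
              _ = x + x := by abel
          rw [← h6, hyy]
        · intro h
          exact hyS.2 (by simpa using h)
        · intro h
          exact hxn (add_right_cancel h).symm

end quot

end AbCay
end
end

section

section

/-!
# MP_cfc9ed_co, abelian Cayley graphs: the infinite case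
-/

set_option autoImplicit false

namespace AbCay

variable {A : Type*} [AddCommGroup A]

/-- lifting Lemma C from `A / ⟨g⟩` -/
theorem good_of_three {S : Set A} (hS : ∀ x ∈ S, -x ∈ S) (hgen : AddSubgroup.closure S = ⊤)
    {g : A} (hg : g ∈ S) (hinf : ∀ m : ℤ, m ≠ 0 → m • g ≠ 0)
    (w : Fin 5 → A) (hw : ∀ i j, i ≠ j → ∀ m : ℤ, m • g ≠ w i - w j)
    (s : Fin 3 → A) (hsS : ∀ i, s i ∈ S) (hs0 : ∀ i, ∀ m : ℤ, m • g ≠ s i)
    (hss : ∀ i j, i ≠ j → ∀ m : ℤ, m • g ≠ s i - s j) :
    ∃ (y : A) (r : Fin 4 → A), Good S g y r := by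
  classical
  let H : AddSubgroup A := AddSubgroup.zmultiples g
  let π : A →+ A ⧸ H := QuotientAddGroup.mk' H
  have hπs : Function.Surjective π := QuotientAddGroup.mk'_surjective H
  have hπ : ∀ a b : A, π a = π b ↔ ∃ m : ℤ, m • g = a - b := by
    intro a b
    rw [← sub_eq_zero, ← map_sub]
    have : π (a - b) = 0 ↔ a - b ∈ H := QuotientAddGroup.eq_zero_iff (a - b)
    rw [this]
    exact AddSubgroup.mem_zmultiples_iff
  have hπ0 : ∀ a : A, π a = 0 ↔ ∃ m : ℤ, m • g = a := by
    intro a
    have := hπ a 0
    rwa [map_zero, sub_zero] at this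
  -- the image of `S`
  have hS' : ∀ x ∈ π '' S, -x ∈ π '' S := by
    rintro _ ⟨x, hx, rfl⟩
    exact ⟨-x, hS x hx, map_neg _ _⟩
  have hgen' : AddSubgroup.closure (π '' S) = ⊤ := by
    have h1 := AddMonoidHom.map_closure π S
    rw [hgen, ← AddMonoidHom.range_eq_map, AddMonoidHom.range_eq_top.2 hπs] at h1
    exact h1.symm
  have h5 : ∀ a b c d : A ⧸ H, ∃ q : A ⧸ H, q ≠ a ∧ q ≠ b ∧ q ≠ c ∧ q ≠ d := by
    intro a b c d
    by_contra hcon
    push Not at hcon
    have hinj : Function.Injective (fun i => π (w i)) := by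
      intro i j hij
      by_contra hne
      obtain ⟨m, hm⟩ := (hπ _ _).1 hij
      exact hw i j hne m hm
    have hsub : (Finset.univ.image fun i => π (w i)) ⊆ ({a, b, c, d} : Finset (A ⧸ H)) := by
      intro z hz
      simp only [Finset.mem_insert, Finset.mem_singleton]
      by_cases h1 : z = a
      · exact Or.inl h1
      by_cases h2 : z = b
      · exact Or.inr (Or.inl h2)
      by_cases h3 : z = c
      · exact Or.inr (Or.inr (Or.inl h3))
      · exact Or.inr (Or.inr (Or.inr (hcon z h1 h2 h3)))
    have h6 := Finset.card_le_card hsub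
    rw [Finset.card_image_of_injective _ hinj, Finset.card_univ, Fintype.card_fin] at h6
    have h7 : ({a, b, c, d} : Finset (A ⧸ H)).card ≤ 4 := Finset.card_le_four
    omega
  have hne0 : ∀ i, π (s i) ≠ 0 := by
    intro i h
    obtain ⟨m, hm⟩ := (hπ0 _).1 h
    exact hs0 i m hm
  have hne : ∀ i j, i ≠ j → π (s i) ≠ π (s j) := by
    intro i j hij h
    obtain ⟨m, hm⟩ := (hπ _ _).1 h
    exact hss i j hij m hm
  obtain ⟨y', r', hy', hr', hr0', hinj'⟩ := lemC hS' hgen' h5 ⟨s 0, hsS 0, rfl⟩ ⟨s 1, hsS 1, rfl⟩
    ⟨s 2, hsS 2, rfl⟩ (hne0 0) (hne0 1) (hne0 2) (hne 0 1 (by decide)) (hne 0 2 (by decide))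
    (hne 1 2 (by decide))
  -- lift `y`
  obtain ⟨y, hyy, hyS⟩ : ∃ y : A, π y = y' ∧ (y = 0 ∨ (y ∈ S ∧ π y ≠ 0)) := by
    rcases hy' with h | ⟨⟨y, hyS, hy⟩, h0⟩
    · exact ⟨0, by rw [h, map_zero], Or.inl rfl⟩
    · exact ⟨y, hy, Or.inr ⟨hyS, by rw [hy]; exact h0⟩⟩
  -- lift `r`
  have hlift : ∀ i, ∃ x : A, π x = r' i ∧ (x ∈ S ∨ x - y ∈ S) := by
    intro i
    rcases hr' i with ⟨x, hx, hxr⟩ | ⟨x, hx, hxr⟩
    · exact ⟨x, hxr, Or.inl hx⟩
    · refine ⟨y + x, ?_, Or.inr ?_⟩
      · rw [map_add, hxr, hyy]
        abel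
      · have : y + x - y = x := by abel
        rw [this]
        exact hx
  choose r hr1 hr2 using hlift
  refine ⟨y, r, hg, hinf, ?_, ?_, hr2, ?_, ?_⟩
  · intro m hm h
    rcases hyS with h1 | ⟨-, h1⟩
    · rw [h1] at h
      exact hinf m hm h
    · exact h1 ((hπ0 _).2 ⟨m, h⟩)
  · rcases hyS with h1 | ⟨h1, h2⟩
    · exact Or.inl h1
    · refine Or.inr ⟨h1, ?_⟩
      rintro rfl
      exact h2 (map_zero _)
  · intro i m
    constructor
    · intro h
      apply (hr0' i).1
      rw [← hr1 i]
      exact (hπ0 _).2 ⟨m, h⟩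
    · intro h
      apply (hr0' i).2
      rw [← hr1 i, ← hyy]
      exact (hπ _ _).2 ⟨m, h⟩
  · intro i j hij m h
    apply hij
    apply hinj'
    rw [← hr1 i, ← hr1 j]
    exact (hπ _ _).2 ⟨m, h⟩

/-- Case R2: two independent generators and at least nine generators. -/
theorem good_of_rank_two {S : Set A} (hfin : S.Finite) (hS : ∀ x ∈ S, -x ∈ S)
    (h0 : (0 : A) ∉ S) (hgen : AddSubgroup.closure S = ⊤) (h9 : 9 ≤ S.ncard)
    {g X : A} (hg : g ∈ S) (hX : X ∈ S) (hinf : ∀ m : ℤ, m ≠ 0 → m • g ≠ 0)
    (hind : ∀ m n : ℤ, m • X = n • g → m = 0) :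
    ∃ (g' y : A) (r : Fin 4 → A), Good S g' y r := by
  classical
  have hind2 : ∀ m n : ℤ, m • X = n • g → m = 0 ∧ n = 0 := by
    intro m n h
    have hm := hind m n h
    refine ⟨hm, ?_⟩
    by_contra hn
    apply hinf n hn
    rw [← h, hm, zero_smul]
  -- any `h = a X + b g ∈ S`, nonzero multiples are nonzero
  by_contra hcon
  push Not at hcon
  -- Step 1: every element of `S` is in `⟨g⟩ ∪ ± X + ⟨g⟩`
  have hlines : ∀ s ∈ S, ∃ j : ℤ, s = j • g ∨ s = X + j • g ∨ s = -X + j • g := by
    intro s hs
    by_contra hs'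
    push Not at hs'
    obtain ⟨y, r, hgood⟩ := good_of_three hS hgen hg hinf (fun i : Fin 5 => (i : ℤ) • X) (by
        intro i j hij m hm
        rw [← sub_smul] at hm
        have := (hind2 _ _ hm.symm).1
        apply hij
        ext
        omega) ![X, -X, s] (by
        intro i
        fin_cases i
        · exact hX
        · exact hS X hX
        · exact hs) (by
        intro i m hm
        fin_cases i
        · have := hind 1 m (by simpa using hm.symm)
          omega
        · have := hind (-1) m (by simpa using hm.symm)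
          omega
        · exact (hs' m).1 hm.symm) (by
        intro i j hij m hm
        fin_cases i <;> fin_cases j
        · exact hij rfl
        · have := hind 2 m (by
            rw [hm, two_smul]
            simp)
          omega
        · -- m g = X - s
          apply (hs' (-m)).2.1
          have hm' : m • g = X - s := hm
          rw [neg_smul, hm']
          abel
        · have := hind (-2) m (by
            rw [hm]
            simp only [neg_smul, two_smul]
            simp
            abel)
          omega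
        · exact hij rfl
        · apply (hs' (-m)).2.2
          have hm' : m • g = -X - s := hm
          rw [neg_smul, hm']
          abel
        · apply (hs' m).2.1
          have hm' : m • g = s - X := hm
          rw [hm']
          abel
        · apply (hs' m).2.2
          have hm' : m • g = s - -X := hm
          rw [hm']
          abel
        · exact hij rfl)
    exact hcon g y r hgood
  -- Step 2: the only multiples of `g` in `S` are `± g`
  have hmult : ∀ j : ℤ, j • g ∈ S → j = 1 ∨ j = -1 := by
    intro j hj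
    by_contra hj1
    push Not at hj1
    have hj0 : j ≠ 0 := by
      rintro rfl
      exact h0 (by simpa using hj)
    have hjn : ∀ m : ℤ, m * j ≠ 1 := by
      intro m hm
      rcases Int.eq_one_or_neg_one_of_mul_eq_one' hm with h | h
      · exact hj1.1 h.2
      · exact hj1.2 h.2
    obtain ⟨y, r, hgood⟩ := good_of_three hS hgen hj (fun m hm => by
        rw [← mul_smul]
        exact hinf _ (mul_ne_zero hm hj0)) (fun i : Fin 5 => (i : ℤ) • X) (by
        intro i i' hij m hm
        rw [← sub_smul, ← mul_smul] at hm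
        have := (hind2 _ _ hm.symm).1
        apply hij
        ext
        omega) ![X, -X, g] (by
        intro i
        fin_cases i
        · exact hX
        · exact hS X hX
        · exact hg) (by
        intro i m hm
        rw [← mul_smul] at hm
        fin_cases i
        · have := hind 1 (m * j) (by simpa using hm.symm)
          omega
        · have := hind (-1) (m * j) (by simpa using hm.symm)
          omega
        · have hm' : (m * j) • g = g := hm
          apply hinf (m * j - 1) (sub_ne_zero.2 (hjn m))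
          rw [sub_smul, hm', one_smul, sub_self]) (by
        intro i i' hij m hm
        rw [← mul_smul] at hm
        fin_cases i <;> fin_cases i'
        · exact hij rfl
        · have := hind 2 (m * j) (by
            rw [hm, two_smul]
            simp)
          omega
        · have hm' : (m * j) • g = X - g := hm
          have := hind 1 (m * j + 1) (by
            rw [add_smul, hm']
            simp)
          omega
        · have := hind (-2) (m * j) (by
            rw [hm]
            simp only [neg_smul, two_smul]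
            simp
            abel)
          omega
        · exact hij rfl
        · have hm' : (m * j) • g = -X - g := hm
          have := hind (-1) (m * j + 1) (by
            rw [add_smul, hm']
            simp)
          omega
        · have hm' : (m * j) • g = g - X := hm
          have := hind 1 (-(m * j) + 1) (by
            rw [add_smul, neg_smul, hm']
            simp)
          omega
        · have hm' : (m * j) • g = g - -X := hm
          have := hind 1 (m * j - 1) (by
            rw [sub_smul, hm']
            simp)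
          omega
        · exact hij rfl)
    exact hcon (j • g) y r hgood
  -- Step 3: many elements in `X + ⟨g⟩`
  have hinj : Function.Injective (fun b : ℤ => X + b • g) := by
    intro a b hab
    have h1 : a • g = b • g := add_left_cancel hab
    by_contra hne
    apply hinf (a - b) (sub_ne_zero.2 hne)
    rw [sub_smul, h1, sub_self]
  have hBf : {b : ℤ | X + b • g ∈ S}.Finite := hfin.preimage hinj.injOn
  set B : Finset ℤ := hBf.toFinset with hB
  have hBm : ∀ b : ℤ, b ∈ B ↔ X + b • g ∈ S := fun b => by rw [hB, Set.Finite.mem_toFinset]; rfl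
  have hcard : 2 < B.card := by
    have hsub : hfin.toFinset ⊆ ({g, -g} ∪ B.image (fun b => X + b • g)) ∪
        B.image (fun b => -(X + b • g)) := by
      intro s hs
      rw [Set.Finite.mem_toFinset] at hs
      obtain ⟨j, hj | hj | hj⟩ := hlines s hs
      · rw [hj] at hs ⊢
        rcases hmult j hs with rfl | rfl <;> simp
      · apply Finset.mem_union_left
        apply Finset.mem_union_right
        rw [Finset.mem_image]
        exact ⟨j, (hBm j).2 (hj ▸ hs), hj.symm⟩
      · apply Finset.mem_union_right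
        rw [Finset.mem_image]
        refine ⟨-j, (hBm _).2 ?_, ?_⟩
        · have := hS s hs
          rw [hj] at this
          have e : -(-X + j • g) = X + -j • g := by
            rw [neg_smul]
            abel
          rwa [e] at this
        · rw [hj, neg_smul]
          abel
    have h1 := Finset.card_le_card hsub
    have h2 := Finset.card_union_le ({g, -g} ∪ B.image (fun b => X + b • g))
      (B.image (fun b => -(X + b • g)))
    have h3 := Finset.card_union_le ({g, -g} : Finset A) (B.image (fun b => X + b • g))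
    have h4 : ({g, -g} : Finset A).card ≤ 2 := Finset.card_le_two
    have h5 : (B.image (fun b => X + b • g)).card ≤ B.card := Finset.card_image_le
    have h6 : (B.image (fun b => -(X + b • g))).card ≤ B.card := Finset.card_image_le
    rw [Set.ncard_eq_toFinset_card S hfin] at h9
    omega
  obtain ⟨b, δ, hb, hbδ, hδ⟩ : ∃ b δ : ℤ, X + b • g ∈ S ∧ X + (b + δ) • g ∈ S ∧
      (2 ≤ δ ∨ δ ≤ -2) := by
    obtain ⟨a1, m1, a2, m2, a3, m3, n12, n13, n23⟩ := Finset.two_lt_card.1 hcard
    have e : ∀ x y : ℤ, x + (y - x) = y := fun x y => by ring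
    by_cases c1 : 2 ≤ a2 - a1 ∨ a2 - a1 ≤ -2
    · exact ⟨a1, a2 - a1, (hBm _).1 m1, by rw [e]; exact (hBm _).1 m2, c1⟩
    by_cases c2 : 2 ≤ a3 - a1 ∨ a3 - a1 ≤ -2
    · exact ⟨a1, a3 - a1, (hBm _).1 m1, by rw [e]; exact (hBm _).1 m3, c2⟩
    exact ⟨a2, a3 - a2, (hBm _).1 m2, by rw [e]; exact (hBm _).1 m3, by omega⟩
  -- Step 4: the direction `X + b g`
  set h : A := X + b • g with hh
  have hi : ∀ m n : ℤ, m • h = n • g → m = 0 ∧ n = 0 := by
    intro m n hmn
    have h1 : m • X = (n - m * b) • g := by
      rw [sub_smul, ← hmn, hh, smul_add, mul_smul]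
      abel
    obtain ⟨h2, h3⟩ := hind2 _ _ h1
    subst h2
    refine ⟨rfl, ?_⟩
    simpa using h3
  have hδh : X + (b + δ) • g = h + δ • g := by
    rw [hh, add_smul]
    abel
  rw [hδh] at hbδ
  obtain ⟨y, r, hgood⟩ := good_of_three hS hgen hb (fun m hm hm0 =>
      hm (hi m 0 (by rw [hm0, zero_smul])).1) (fun i : Fin 5 => (i : ℤ) • g) (by
      intro i i' hij m hm
      rw [← sub_smul] at hm
      have := (hi _ _ hm).2
      apply hij
      ext
      omega) ![g, -g, h + δ • g] (by
      intro i
      fin_cases i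
      · exact hg
      · exact hS g hg
      · exact hbδ) (by
      intro i m hm
      fin_cases i
      · have := (hi m 1 (by rw [one_smul]; exact hm)).2
        omega
      · have := (hi m (-1) (by rw [neg_smul, one_smul]; exact hm)).2
        omega
      · have hm' : m • h = h + δ • g := hm
        have := (hi (m - 1) δ (by rw [sub_smul, one_smul, hm']; abel)).2
        omega) (by
      intro i i' hij m hm
      fin_cases i <;> fin_cases i'
      · exact hij rfl
      · have hm' : m • h = g - -g := hm
        have := (hi m 2 (by rw [hm', two_smul]; abel)).2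
        omega
      · have hm' : m • h = g - (h + δ • g) := hm
        have := (hi (m + 1) (1 - δ) (by
          rw [add_smul, sub_smul, one_smul, one_smul, hm']
          abel)).2
        omega
      · have hm' : m • h = -g - g := hm
        have := (hi m (-2) (by rw [hm', neg_smul, two_smul]; abel)).2
        omega
      · exact hij rfl
      · have hm' : m • h = -g - (h + δ • g) := hm
        have := (hi (m + 1) (-1 - δ) (by
          rw [add_smul, sub_smul, neg_smul, one_smul, one_smul, hm']
          abel)).2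
        omega
      · have hm' : m • h = h + δ • g - g := hm
        have := (hi (m - 1) (δ - 1) (by
          rw [sub_smul, sub_smul, one_smul, one_smul, hm']
          abel)).2
        omega
      · have hm' : m • h = h + δ • g - -g := hm
        have := (hi (m - 1) (δ + 1) (by
          rw [sub_smul, add_smul, one_smul, one_smul, hm']
          abel)).2
        omega
      · exact hij rfl)
  exact hcon h y r hgood

end AbCay
end

section

/-!
# MP_cfc9ed_co, abelian Cayley graphs: the infinite case, rank one
-/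

set_option autoImplicit false

namespace AbCay

variable {A : Type*} [AddCommGroup A]

theorem finite_quot {S : Set A} (hfin : S.Finite) (hgen : AddSubgroup.closure S = ⊤)
    {g : A} (hR : ∀ X ∈ S, ∃ m n : ℤ, m ≠ 0 ∧ m • X = n • g) :
    Finite (A ⧸ AddSubgroup.zmultiples g) := by
  let H : AddSubgroup A := AddSubgroup.zmultiples g
  let π : A →+ A ⧸ H := QuotientAddGroup.mk' H
  have hπs : Function.Surjective π := QuotientAddGroup.mk'_surjective H
  have hπ0 : ∀ a : A, π a = 0 ↔ ∃ m : ℤ, m • g = a := by
    intro a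
    have : π a = 0 ↔ a ∈ H := QuotientAddGroup.eq_zero_iff a
    rw [this]
    exact AddSubgroup.mem_zmultiples_iff
  have hgen' : AddSubgroup.closure (π '' S) = ⊤ := by
    have h1 := AddMonoidHom.map_closure π S
    rw [hgen, ← AddMonoidHom.range_eq_map, AddMonoidHom.range_eq_top.2 hπs] at h1
    exact h1.symm
  have : AddGroup.FG (A ⧸ H) := by
    rw [AddGroup.fg_iff]
    exact ⟨π '' S, hgen', hfin.image _⟩
  refine AddCommGroup.finite_of_fg_isAddTorsion (A ⧸ H) ?_
  intro q
  have hq : q ∈ AddSubgroup.closure (π '' S) := by rw [hgen']; exact AddSubgroup.mem_top q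
  induction hq using AddSubgroup.closure_induction with
  | mem x hx =>
    obtain ⟨X, hX, rfl⟩ := hx
    obtain ⟨m, n, hm, hmn⟩ := hR X hX
    rw [isOfFinAddOrder_iff_zsmul_eq_zero]
    refine ⟨m, hm, ?_⟩
    rw [← map_zsmul]
    exact (hπ0 _).2 ⟨n, hmn.symm⟩
  | zero => exact IsOfFinAddOrder.zero
  | add x y _ _ hx hy => exact hx.add hy
  | neg x _ hx => exact hx.neg

/-- Case R1 -/
theorem good_of_rank_one {S : Set A} (hfin : S.Finite) (hS : ∀ x ∈ S, -x ∈ S)
    (h0 : (0 : A) ∉ S) (hgen : AddSubgroup.closure S = ⊤)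
    (h9 : ∀ W N : Finset A, W.Nonempty → (∀ w ∈ W, ∀ s ∈ S, w + s ∈ W ∨ w + s ∈ N) → 9 ≤ N.card)
    (h9' : 9 ≤ S.ncard)
    (hex : ∃ g ∈ S, ∀ m : ℤ, m ≠ 0 → m • g ≠ 0)
    (hR : ∀ g ∈ S, (∀ m : ℤ, m ≠ 0 → m • g ≠ 0) → ∀ X ∈ S, ∃ m n : ℤ, m ≠ 0 ∧ m • X = n • g) :
    ∃ (g' y : A) (r : Fin 4 → A), Good S g' y r := by
  classical
  -- choose `g`
  obtain ⟨g, ⟨hg, hinf⟩, hmax⟩ := Set.exists_max_image {g | g ∈ S ∧ ∀ m : ℤ, m ≠ 0 → m • g ≠ 0}
    (fun g => Nat.card (A ⧸ AddSubgroup.zmultiples g)) (hfin.subset fun x hx => hx.1)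
    (by obtain ⟨g, h1, h2⟩ := hex; exact ⟨g, h1, h2⟩)
  have hinj : ∀ m n : ℤ, m • g = n • g → m = n := by
    intro m n hmn
    by_contra hne
    apply hinf (m - n) (sub_ne_zero.2 hne)
    rw [sub_smul, hmn, sub_self]
  let H : AddSubgroup A := AddSubgroup.zmultiples g
  let π : A →+ A ⧸ H := QuotientAddGroup.mk' H
  have hπs : Function.Surjective π := QuotientAddGroup.mk'_surjective H
  have hπ : ∀ a b : A, π a = π b ↔ ∃ m : ℤ, m • g = a - b := by
    intro a b
    rw [← sub_eq_zero, ← map_sub]
    have : π (a - b) = 0 ↔ a - b ∈ H := QuotientAddGroup.eq_zero_iff (a - b)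
    rw [this]
    exact AddSubgroup.mem_zmultiples_iff
  have hπ0 : ∀ a : A, π a = 0 ↔ ∃ m : ℤ, m • g = a := by
    intro a
    have := hπ a 0
    rwa [map_zero, sub_zero] at this
  have hfQ : Finite (A ⧸ H) := finite_quot hfin hgen (hR g hg hinf)
  have : Fintype (A ⧸ H) := Fintype.ofFinite _
  set q : ℕ := Nat.card (A ⧸ H) with hq
  have hqpos : 0 < q := Nat.card_pos
  have hμex : ∀ y : A, ∃ m : ℤ, m • g = (q : ℤ) • y := by
    intro y
    rw [← hπ0, map_zsmul, natCast_zsmul]
    exact card_nsmul_eq_zero'
  choose μ hμ using hμex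
  have hμadd : ∀ y z, μ (y + z) = μ y + μ z := by
    intro y z
    apply hinj
    rw [hμ, add_smul, hμ, hμ, smul_add]
  have hμsmul : ∀ (m : ℤ) y, μ (m • y) = m * μ y := by
    intro m y
    apply hinj
    rw [hμ, mul_smul, hμ, smul_comm]
  have hμg : μ g = q := hinj _ _ (hμ g)
  have hμneg : ∀ y, μ (-y) = -μ y := by
    intro y
    have := hμsmul (-1) y
    simpa using this
  have hμsub : ∀ y z, μ (y - z) = μ y - μ z := by
    intro y z
    rw [sub_eq_add_neg, hμadd, hμneg]
    ring
  -- representatives
  have hrep : ∀ c : A ⧸ H, ∃ y : A, π y = c ∧ 0 ≤ μ y ∧ μ y < q := by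
    intro c
    obtain ⟨y, rfl⟩ := hπs c
    refine ⟨y - (μ y / q) • g, ?_, ?_, ?_⟩
    · rw [hπ]
      refine ⟨-(μ y / q), ?_⟩
      rw [neg_smul]
      abel
    · rw [hμsub, hμsmul, hμg]
      have := Int.emod_nonneg (μ y) (by exact_mod_cast hqpos.ne' : (q : ℤ) ≠ 0)
      have h2 := Int.mul_ediv_add_emod (μ y) q
      have h3 : μ y / q * q = q * (μ y / q) := mul_comm _ _
      omega
    · rw [hμsub, hμsmul, hμg]
      have := Int.emod_lt_of_pos (μ y) (by exact_mod_cast hqpos : (0 : ℤ) < q)
      have h2 := Int.mul_ediv_add_emod (μ y) q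
      have h3 : μ y / q * q = q * (μ y / q) := mul_comm _ _
      omega
  choose rep hrep1 hrep2 hrep3 using hrep
  have huniq : ∀ y z, π y = π z → μ y < μ z + q → μ z < μ y + q → y = z := by
    intro y z hyz h1 h2
    obtain ⟨j, hj⟩ := (hπ _ _).1 hyz
    have h3 : μ y - μ z = j * q := by
      rw [← hμsub, ← hj, hμsmul, hμg]
    have hj0 : j = 0 := by
      by_contra hne
      rcases lt_or_gt_of_ne hne with h | h
      · have : j * (q : ℤ) ≤ -1 * q := by
          apply mul_le_mul_of_nonneg_right (by omega) (by positivity)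
        omega
      · have : 1 * (q : ℤ) ≤ j * q := by
          apply mul_le_mul_of_nonneg_right (by omega) (by positivity)
        omega
    rw [hj0, zero_smul] at hj
    exact (sub_eq_zero.1 hj.symm)
  -- Claim 1
  have hbd : ∀ h ∈ S, μ h ≤ q := by
    intro h hh
    by_contra hlt
    push Not at hlt
    have hhinf : ∀ m : ℤ, m ≠ 0 → m • h ≠ 0 := by
      intro m hm hm0
      have h1 : μ (m • h) = m * μ h := hμsmul m h
      rw [hm0] at h1
      have h2 : μ (0 : A) = 0 := by simpa using hμsmul 0 (0 : A)
      rw [h2] at h1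
      rcases mul_eq_zero.1 h1.symm with h3 | h3
      · exact hm h3
      · omega
    have : Finite (A ⧸ AddSubgroup.zmultiples h) := finite_quot hfin hgen (hR h hh hhinf)
    let F : Option (A ⧸ H) → A := fun o => o.elim g rep
    have hF1 : ∀ o, 0 ≤ μ (F o) ∧ μ (F o) ≤ q := by
      rintro (_ | c)
      · change 0 ≤ μ g ∧ μ g ≤ q
        rw [hμg]
        exact ⟨by positivity, le_refl _⟩
      · exact ⟨hrep2 c, (hrep3 c).le⟩
    have hF2 : Function.Injective F := by
      rintro (_ | c) (_ | c') hcc
      · rfl
      · exfalso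
        have h1 : g = rep c' := hcc
        have h2 := hrep3 c'
        rw [← h1, hμg] at h2
        exact lt_irrefl _ h2
      · exfalso
        have h1 : rep c = g := hcc
        have h2 := hrep3 c
        rw [h1, hμg] at h2
        exact lt_irrefl _ h2
      · have h1 : rep c = rep c' := hcc
        rw [← hrep1 c, ← hrep1 c', h1]
    have hF3 : Function.Injective (fun o => (QuotientAddGroup.mk (F o) :
        A ⧸ AddSubgroup.zmultiples h)) := by
      intro o o' hoo
      apply hF2
      have h1 : (QuotientAddGroup.mk (F o - F o') : A ⧸ AddSubgroup.zmultiples h) = 0 := by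
        rw [QuotientAddGroup.mk_sub]
        exact sub_eq_zero.2 hoo
      rw [QuotientAddGroup.eq_zero_iff, AddSubgroup.mem_zmultiples_iff] at h1
      obtain ⟨m, hm⟩ := h1
      have h2 : μ (F o) - μ (F o') = m * μ h := by
        rw [← hμsub, ← hm, hμsmul]
      have h3 := hF1 o
      have h4 := hF1 o'
      have hm0 : m = 0 := by
        by_contra hne
        rcases lt_or_gt_of_ne hne with hn | hn
        · have : m * μ h ≤ -1 * μ h := mul_le_mul_of_nonneg_right (by omega : m ≤ -1)
            (by omega : 0 ≤ μ h)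
          rw [← h2] at this
          omega
        · have : 1 * μ h ≤ m * μ h := mul_le_mul_of_nonneg_right (by omega : 1 ≤ m)
            (by omega : 0 ≤ μ h)
          rw [← h2] at this
          omega
      rw [hm0, zero_smul] at hm
      exact sub_eq_zero.1 hm.symm
    have h1 := Nat.card_le_card_of_injective _ hF3
    rw [Finite.card_option] at h1
    have h2 : Nat.card (A ⧸ AddSubgroup.zmultiples h) ≤ q := hmax h ⟨hh, hhinf⟩
    omega
  have hbd' : ∀ h ∈ S, -(q : ℤ) ≤ μ h := by
    intro h hh
    have := hbd (-h) (hS h hh)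
    rw [hμneg] at this
    omega
  -- Claim 2
  have hq5 : 5 ≤ q := by
    by_contra hlt
    push Not at hlt
    set W : Finset A := Finset.univ.image rep with hW
    have hWm : ∀ y, 0 ≤ μ y → μ y < q → y ∈ W := by
      intro y h1 h2
      rw [hW, Finset.mem_image]
      refine ⟨π y, Finset.mem_univ _, ?_⟩
      apply huniq _ _ (hrep1 _)
      · have := hrep3 (π y)
        omega
      · have := hrep2 (π y)
        omega
    have hWm' : ∀ y ∈ W, 0 ≤ μ y ∧ μ y < q := by
      intro y hy
      rw [hW, Finset.mem_image] at hy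
      obtain ⟨c, -, rfl⟩ := hy
      exact ⟨hrep2 c, hrep3 c⟩
    have hWc : W.card ≤ q := by
      refine Finset.card_image_le.trans ?_
      rw [Finset.card_univ, hq, Nat.card_eq_fintype_card]
    have h1 := h9 W (W.image (fun x => x + g) ∪ W.image (fun x => x - g))
      (Finset.univ_nonempty.image _) (by
        intro w hw s hs
        obtain ⟨h1, h2⟩ := hWm' w hw
        have h3 := hbd s hs
        have h4 := hbd' s hs
        by_cases c1 : μ (w + s) < 0
        · right
          apply Finset.mem_union_right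
          rw [Finset.mem_image]
          refine ⟨w + s + g, hWm _ ?_ ?_, by abel⟩
          · rw [hμadd, hμg]
            rw [hμadd] at c1 ⊢
            omega
          · rw [hμadd, hμg]
            omega
        by_cases c2 : μ (w + s) < q
        · left
          exact hWm _ (by omega) c2
        · right
          apply Finset.mem_union_left
          rw [Finset.mem_image]
          refine ⟨w + s - g, hWm _ ?_ ?_, by abel⟩
          · rw [hμsub, hμg]
            omega
          · rw [hμsub, hμg]
            rw [hμadd] at c2 ⊢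
            omega)
    have h2 := Finset.card_union_le (W.image (fun x => x + g)) (W.image (fun x => x - g))
    have h3 : (W.image (fun x => x + g)).card ≤ W.card := Finset.card_image_le
    have h4 : (W.image (fun x => x - g)).card ≤ W.card := Finset.card_image_le
    omega
  -- Claim 3
  have hthree : 2 < ((hfin.toFinset.filter (fun s => π s ≠ 0)).image π).card := by
    set F := hfin.toFinset with hFdef
    have hFc : 9 ≤ F.card := by
      rw [hFdef, ← Set.ncard_eq_toFinset_card S hfin]
      exact h9'
    have hsplit := Finset.card_filter_add_card_filter_not (s := F) (fun s => π s ≠ 0)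
    have hz : (F.filter (fun s => ¬ π s ≠ 0)).card ≤ 2 := by
      refine (Finset.card_le_card (t := {g, -g}) ?_).trans Finset.card_le_two
      intro s hs
      rw [Finset.mem_filter, not_not, hFdef, Set.Finite.mem_toFinset] at hs
      obtain ⟨hsS, hs0⟩ := hs
      obtain ⟨j, rfl⟩ := (hπ0 s).1 hs0
      have h1 := hbd _ hsS
      have h2 := hbd' _ hsS
      rw [hμsmul, hμg] at h1 h2
      have hj0 : j ≠ 0 := by
        rintro rfl
        exact h0 (by simpa using hsS)
      have hj1 : j ≤ 1 := by
        by_contra hc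
        have : 2 * (q : ℤ) ≤ j * q := mul_le_mul_of_nonneg_right (by omega) (by positivity)
        omega
      have hj2 : -1 ≤ j := by
        by_contra hc
        have : j * (q : ℤ) ≤ -2 * q := mul_le_mul_of_nonneg_right (by omega) (by positivity)
        omega
      have : j = 1 ∨ j = -1 := by omega
      rcases this with rfl | rfl <;> simp
    have hfib := Finset.card_le_mul_card_image (f := π) (F.filter (fun s => π s ≠ 0)) 3 (by
      intro c _
      have hmaps : ∀ s ∈ (F.filter (fun s => π s ≠ 0)).filter (fun s => π s = c),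
          μ s / q ∈ ({-1, 0, 1} : Finset ℤ) := by
        intro s hs
        rw [Finset.mem_filter, Finset.mem_filter, hFdef, Set.Finite.mem_toFinset] at hs
        have h1 := hbd _ hs.1.1
        have h2 := hbd' _ hs.1.1
        have h3 : -1 ≤ μ s / q := by
          rw [Int.le_ediv_iff_mul_le (by exact_mod_cast hqpos)]
          omega
        have h4 : μ s / q < 2 := by
          rw [Int.ediv_lt_iff_lt_mul (by exact_mod_cast hqpos)]
          omega
        simp only [Finset.mem_insert, Finset.mem_singleton]
        omega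
      refine (Finset.card_le_card_of_injOn _ hmaps ?_).trans (by simp)
      intro s hs s' hs' hss
      rw [Finset.mem_coe, Finset.mem_filter] at hs hs'
      apply huniq s s' (hs.2.trans hs'.2.symm)
      · have h1 := Int.emod_lt_of_pos (μ s) (by exact_mod_cast hqpos : (0 : ℤ) < q)
        have h2 := Int.emod_nonneg (μ s') (by exact_mod_cast hqpos.ne' : (q : ℤ) ≠ 0)
        have h3 := Int.mul_ediv_add_emod (μ s) q
        have h4 := Int.mul_ediv_add_emod (μ s') q
        have h5 : μ s / (q : ℤ) = μ s' / q := hss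
        rw [h5] at h3
        omega
      · have h1 := Int.emod_lt_of_pos (μ s') (by exact_mod_cast hqpos : (0 : ℤ) < q)
        have h2 := Int.emod_nonneg (μ s) (by exact_mod_cast hqpos.ne' : (q : ℤ) ≠ 0)
        have h3 := Int.mul_ediv_add_emod (μ s) q
        have h4 := Int.mul_ediv_add_emod (μ s') q
        have h5 : μ s / (q : ℤ) = μ s' / q := hss
        rw [h5] at h3
        omega)
    omega
  obtain ⟨c1, m1, c2, m2, c3, m3, n12, n13, n23⟩ := Finset.two_lt_card.1 hthree
  rw [Finset.mem_image] at m1 m2 m3
  obtain ⟨s1, k1, rfl⟩ := m1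
  obtain ⟨s2, k2, rfl⟩ := m2
  obtain ⟨s3, k3, rfl⟩ := m3
  rw [Finset.mem_filter, Set.Finite.mem_toFinset] at k1 k2 k3
  let e : A ⧸ H ≃ Fin q := Finite.equivFin (A ⧸ H)
  obtain ⟨y, r, hgood⟩ := good_of_three hS hgen hg hinf
    (fun i : Fin 5 => rep (e.symm (Fin.castLE hq5 i))) (by
      intro i j hij m hm
      apply hij
      have h1 := (hπ _ _).2 ⟨m, hm⟩
      rw [hrep1, hrep1] at h1
      exact Fin.castLE_injective hq5 (e.symm.injective h1)) ![s1, s2, s3] (by
      intro i
      fin_cases i
      · exact k1.1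
      · exact k2.1
      · exact k3.1) (by
      intro i m hm
      fin_cases i
      · exact k1.2 ((hπ0 _).2 ⟨m, hm⟩)
      · exact k2.2 ((hπ0 _).2 ⟨m, hm⟩)
      · exact k3.2 ((hπ0 _).2 ⟨m, hm⟩)) (by
      intro i j hij m hm
      fin_cases i <;> fin_cases j
      · exact hij rfl
      · exact n12 ((hπ _ _).2 ⟨m, hm⟩)
      · exact n13 ((hπ _ _).2 ⟨m, hm⟩)
      · exact n12 ((hπ _ _).2 ⟨m, hm⟩).symm
      · exact hij rfl
      · exact n23 ((hπ _ _).2 ⟨m, hm⟩)
      · exact n13 ((hπ _ _).2 ⟨m, hm⟩).symm
      · exact n23 ((hπ _ _).2 ⟨m, hm⟩).symm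
      · exact hij rfl)
  exact ⟨g, y, r, hgood⟩

/-- **Infinite case.** -/
theorem good_of_infinite [Infinite A] {S : Set A} (hfin : S.Finite) (hS : ∀ x ∈ S, -x ∈ S)
    (h0 : (0 : A) ∉ S) (hgen : AddSubgroup.closure S = ⊤)
    (h9 : ∀ W N : Finset A, W.Nonempty → (∀ w ∈ W, ∀ s ∈ S, w + s ∈ W ∨ w + s ∈ N) →
      9 ≤ N.card) :
    ∃ (g' y : A) (r : Fin 4 → A), Good S g' y r := by
  classical
  have h9' : 9 ≤ S.ncard := by
    rw [Set.ncard_eq_toFinset_card S hfin]
    refine h9 {0} hfin.toFinset (Finset.singleton_nonempty _) ?_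
    intro w hw s hs
    rw [Finset.mem_singleton] at hw
    right
    rw [hw, zero_add, Set.Finite.mem_toFinset]
    exact hs
  have hex : ∃ g ∈ S, ∀ m : ℤ, m ≠ 0 → m • g ≠ 0 := by
    by_contra hcon
    push Not at hcon
    have : AddGroup.FG A := by
      rw [AddGroup.fg_iff]
      exact ⟨S, hgen, hfin⟩
    have : Finite A := by
      refine AddCommGroup.finite_of_fg_isAddTorsion A ?_
      intro q
      have hq : q ∈ AddSubgroup.closure S := by rw [hgen]; exact AddSubgroup.mem_top q
      induction hq using AddSubgroup.closure_induction with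
      | mem x hx =>
        obtain ⟨m, hm, hm0⟩ := hcon x hx
        rw [isOfFinAddOrder_iff_zsmul_eq_zero]
        exact ⟨m, hm, hm0⟩
      | zero => exact IsOfFinAddOrder.zero
      | add x y _ _ hx hy => exact hx.add hy
      | neg x _ hx => exact hx.neg
    exact not_finite A
  by_cases hR : ∀ g ∈ S, (∀ m : ℤ, m ≠ 0 → m • g ≠ 0) → ∀ X ∈ S,
      ∃ m n : ℤ, m ≠ 0 ∧ m • X = n • g
  · exact good_of_rank_one hfin hS h0 hgen h9 h9' hex hR
  · push Not at hR
    obtain ⟨g, hg, hinf, X, hX, hXi⟩ := hR
    refine good_of_rank_two hfin hS h0 hgen h9' hg hX hinf ?_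
    intro m n hmn
    by_contra hm
    exact hXi m n hm hmn

end AbCay
end

section

/-!
# MP_cfc9ed_co, abelian Cayley graphs: from large finite groups to an infinite group
-/

set_option autoImplicit false

namespace AbCay

open SimpleGraph Filter

/-- the connectivity hypothesis, for `9` -/
def Conn9 {V : Type*} [Fintype V] (G : SimpleGraph V) : Prop :=
  9 < Fintype.card V ∧
    ∀ X : Finset V, X.card < 9 → (G.induce ((↑X : Set V)ᶜ)).Connected

/-- the isoperimetric consequence of connectivity -/
theorem nine_le {A : Type*} [AddCommGroup A] [Fintype A] {S : Set A}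
    (hc : Conn9 (circulantGraph S)) (hS : ∀ x ∈ S, -x ∈ S) (W N : Finset A) (hW : W.Nonempty)
    (hcl : ∀ w ∈ W, ∀ s ∈ S, w + s ∈ W ∨ w + s ∈ N) (hdis : Disjoint W N)
    (hcard : W.card + N.card < Fintype.card A) : 9 ≤ N.card := by
  classical
  by_contra hlt
  push Not at hlt
  have hconn := hc.2 N hlt
  obtain ⟨w0, hw0⟩ := hW
  obtain ⟨z, hz⟩ : ∃ z : A, z ∉ W ∪ N := by
    by_contra hcon
    push Not at hcon
    have h1 : (Finset.univ : Finset A) ⊆ W ∪ N := fun z _ => hcon z
    have h2 := Finset.card_le_card h1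
    have h3 := Finset.card_union_le W N
    rw [Finset.card_univ] at h2
    omega
  rw [Finset.mem_union, not_or] at hz
  have hw0N : w0 ∈ ((↑N : Set A)ᶜ) := fun h => (Finset.disjoint_left.1 hdis) hw0 h
  have hzN : z ∈ ((↑N : Set A)ᶜ) := fun h => hz.2 h
  have hreach : ((circulantGraph S).induce ((↑N : Set A)ᶜ)).Reachable ⟨w0, hw0N⟩ ⟨z, hzN⟩ :=
    hconn.preconnected _ _
  obtain ⟨p⟩ := hreach
  have key : ∀ (a b : ((↑N : Set A)ᶜ : Set A))
      (_ : ((circulantGraph S).induce ((↑N : Set A)ᶜ)).Walk a b), (a : A) ∈ W → (b : A) ∈ W := by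
    intro a b p
    induction p with
    | nil => exact id
    | @cons a b c hab _ ih =>
      intro ha
      apply ih
      have h1 : (circulantGraph S).Adj (a : A) (b : A) := by simpa using hab
      rw [circulantGraph_adj] at h1
      have h2 : (b : A) - a ∈ S := by
        rcases h1.2 with h | h
        · have := hS _ h
          rwa [neg_sub] at this
        · exact h
      rcases hcl a ha _ h2 with h | h
      · rwa [add_sub_cancel] at h
      · rw [add_sub_cancel] at h
        exact absurd h b.2
  exact hz.1 (key _ _ p hw0)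

theorem circ_eq {A : Type*} [AddCommGroup A] (S : Set A) :
    circulantGraph S = circulantGraph {x | x ≠ 0 ∧ (x ∈ S ∨ -x ∈ S)} := by
  ext u v
  simp only [circulantGraph_adj, Set.mem_ofPred_eq, neg_sub]
  constructor
  · rintro ⟨huv, h | h⟩
    · exact ⟨huv, Or.inl ⟨sub_ne_zero.2 huv, Or.inl h⟩⟩
    · exact ⟨huv, Or.inr ⟨sub_ne_zero.2 (Ne.symm huv), Or.inl h⟩⟩
  · rintro ⟨huv, ⟨-, h | h⟩ | ⟨-, h | h⟩⟩
    · exact ⟨huv, Or.inl h⟩
    · exact ⟨huv, Or.inr h⟩
    · exact ⟨huv, Or.inr h⟩
    · exact ⟨huv, Or.inl h⟩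

theorem exists_enum {α : Type*} (T : Finset α) (hT : T.Nonempty) {D : ℕ} (hD : T.card ≤ D) :
    ∃ e : Fin D → α, Set.range e = (T : Set α) := by
  classical
  obtain ⟨t0, ht0⟩ := hT
  refine ⟨fun i => if h : (i : ℕ) < T.card then (T.equivFin.symm ⟨i, h⟩).1 else t0, ?_⟩
  ext x
  constructor
  · rintro ⟨i, rfl⟩
    by_cases h : (i : ℕ) < T.card
    · simp only [h, dif_pos]
      exact (T.equivFin.symm ⟨i, h⟩).2
    · simp only [h, dif_neg, not_false_iff]
      exact ht0
  · intro hx
    have h := (T.equivFin ⟨x, hx⟩).2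
    refine ⟨⟨(T.equivFin ⟨x, hx⟩ : ℕ), by omega⟩, ?_⟩
    simp [h]

/-- **Theorem (fixed `k`)** -/
theorem exists_bound (k : ℕ) : ∃ N : ℕ, ∀ (A : Type) [AddCommGroup A] [Fintype A] (S : Set A),
    Conn9 (circulantGraph S) → N ≤ Fintype.card A → HasK (circulantGraph S) k := by
  classical
  by_contra hcon
  push Not at hcon
  choose A iA iF S hc0 hN hK0 using hcon
  -- symmetric generating sets
  let T : ∀ N, Finset (A N) := fun N => Finset.univ.filter fun x => x ≠ 0 ∧ (x ∈ S N ∨ -x ∈ S N)
  have hTset : ∀ N, ((T N : Finset (A N)) : Set (A N)) = {x | x ≠ 0 ∧ (x ∈ S N ∨ -x ∈ S N)} := by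
    intro N
    ext x
    simp [T]
  have hc : ∀ N, Conn9 (circulantGraph ((T N : Finset (A N)) : Set (A N))) := by
    intro N
    rw [hTset, ← circ_eq]
    exact hc0 N
  have hK : ∀ N, ¬ HasK (circulantGraph ((T N : Finset (A N)) : Set (A N))) k := by
    intro N
    rw [hTset, ← circ_eq]
    exact hK0 N
  have hT0 : ∀ N, (0 : A N) ∉ T N := by
    intro N
    simp [T]
  have hTs : ∀ N, ∀ x ∈ T N, -x ∈ T N := by
    intro N x hx
    simp only [T, Finset.mem_filter, Finset.mem_univ, true_and, neg_neg] at hx ⊢
    exact ⟨neg_ne_zero.2 hx.1, hx.2.symm⟩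
  set D : ℕ := 15 * (k + 1) with hD
  have hTc : ∀ N, (T N).card ≤ D := by
    intro N
    by_contra hlt
    push Not at hlt
    exact hK N (hasK_of_large_degree (T N) (hT0 N) k hlt)
  have hTne : ∀ N, (T N).Nonempty := by
    intro N
    by_contra hne
    rw [Finset.not_nonempty_iff_eq_empty] at hne
    have h1 := nine_le (hc N) (fun x hx => hTs N x hx) {0} ∅ (Finset.singleton_nonempty _) (by
      intro w _ s hs
      rw [hne] at hs
      simp at hs) (by simp) (by
      have := (hc N).1
      simp
      omega)
    simp at h1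
  have hen : ∀ N, ∃ e : Fin D → A N, Set.range e = ((T N : Finset (A N)) : Set (A N)) :=
    fun N => exists_enum (T N) (hTne N) (hTc N)
  choose e he using hen
  have heT : ∀ N i, e N i ∈ T N := by
    intro N i
    have : e N i ∈ Set.range (e N) := ⟨i, rfl⟩
    rw [he] at this
    exact this
  have heT' : ∀ N, ∀ x ∈ T N, ∃ i, e N i = x := by
    intro N x hx
    have : x ∈ Set.range (e N) := by
      rw [he]
      exact hx
    exact this
  -- the homomorphisms
  let φ : ∀ N, (Fin D → ℤ) →+ A N := fun N =>
    (Fintype.linearCombination ℤ (e N)).toAddMonoidHom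
  have hφs : ∀ N i, φ N (Pi.single i 1) = e N i := by
    intro N i
    change Fintype.linearCombination ℤ (e N) (Pi.single i 1) = e N i
    rw [Fintype.linearCombination_apply_single, one_smul]
  let U : Ultrafilter ℕ := hyperfilter ℕ
  let Λ : AddSubgroup (Fin D → ℤ) :=
    { carrier := {v | ∀ᶠ N in (U : Filter ℕ), φ N v = 0}
      zero_mem' := Eventually.of_forall fun N => map_zero _
      add_mem' := by
        intro v w hv hw
        filter_upwards [hv, hw] with N h1 h2
        rw [map_add, h1, h2, add_zero]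
      neg_mem' := by
        intro v hv
        filter_upwards [hv] with N h1
        rw [map_neg, h1, neg_zero] }
  let mk : (Fin D → ℤ) →+ (Fin D → ℤ) ⧸ Λ := QuotientAddGroup.mk' Λ
  have hmks : Function.Surjective mk := QuotientAddGroup.mk'_surjective Λ
  have hmk : ∀ v w, mk v = mk w ↔ ∀ᶠ N in (U : Filter ℕ), φ N v = φ N w := by
    intro v w
    rw [← sub_eq_zero, ← map_sub]
    have h1 : mk (v - w) = 0 ↔ v - w ∈ Λ := QuotientAddGroup.eq_zero_iff (v - w)
    rw [h1]
    change (∀ᶠ N in (U : Filter ℕ), φ N (v - w) = 0) ↔ _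
    refine eventually_congr (Eventually.of_forall fun N => ?_)
    rw [map_sub, sub_eq_zero]
  have hmkne : ∀ v w, mk v ≠ mk w → ∀ᶠ N in (U : Filter ℕ), φ N v ≠ φ N w := by
    intro v w h
    rw [Ne, hmk, ← Ultrafilter.eventually_not] at h
    exact h
  let s : Fin D → (Fin D → ℤ) ⧸ Λ := fun i => mk (Pi.single i 1)
  have hfinS : (Set.range s).Finite := Set.finite_range s
  have hsymm : ∀ x ∈ Set.range s, -x ∈ Set.range s := by
    rintro _ ⟨i, rfl⟩
    have h1 : ∀ᶠ N in (U : Filter ℕ), ∃ i', e N i' = -e N i :=
      Eventually.of_forall fun N => heT' N _ (hTs N _ (heT N i))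
    rw [Ultrafilter.eventually_exists_iff] at h1
    obtain ⟨i', hi'⟩ := h1
    refine ⟨i', ?_⟩
    change mk (Pi.single i' 1) = -mk (Pi.single i 1)
    rw [← map_neg, hmk]
    filter_upwards [hi'] with N h2
    rw [map_neg, hφs, hφs, h2]
  have hs0 : (0 : (Fin D → ℤ) ⧸ Λ) ∉ Set.range s := by
    rintro ⟨i, hi⟩
    have h1 : mk (Pi.single i 1) = mk 0 := by
      rw [map_zero]
      exact hi
    rw [hmk] at h1
    obtain ⟨N, h2⟩ := h1.exists
    rw [hφs, map_zero] at h2
    exact hT0 N (h2 ▸ heT N i)
  have hgen : AddSubgroup.closure (Set.range s) = ⊤ := by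
    rw [eq_top_iff]
    intro x _
    obtain ⟨v, rfl⟩ := hmks x
    have hv : v = ∑ i, v i • (Pi.single i (1 : ℤ) : Fin D → ℤ) := by
      ext j
      simp [Finset.sum_apply, Pi.single_apply]
    rw [hv, map_sum]
    refine sum_mem fun i _ => ?_
    rw [map_zsmul]
    exact zsmul_mem (AddSubgroup.subset_closure (Set.mem_range_self (f := s) i)) _
  -- lifts
  choose o ho using hmks
  have h9 : ∀ W N0 : Finset ((Fin D → ℤ) ⧸ Λ), W.Nonempty →
      (∀ w ∈ W, ∀ x ∈ Set.range s, w + x ∈ W ∨ w + x ∈ N0) → 9 ≤ N0.card := by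
    intro W N0 hW hcl
    have h1 : ∀ᶠ N in (U : Filter ℕ), ∀ x ∈ W ∪ N0, ∀ y ∈ W ∪ N0, x ≠ y →
        φ N (o x) ≠ φ N (o y) := by
      rw [eventually_all_finset]
      intro x _
      rw [eventually_all_finset]
      intro y _
      by_cases hxy : x = y
      · exact Eventually.of_forall fun N h => absurd hxy h
      · filter_upwards [hmkne (o x) (o y) (by rw [ho, ho]; exact hxy)] with N h _
        exact h
    have h2 : ∀ᶠ N in (U : Filter ℕ), ∀ w ∈ W, ∀ i, φ N (o w) + e N i = φ N (o (w + s i)) := by
      rw [eventually_all_finset]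
      intro w _
      rw [eventually_all]
      intro i
      have : mk (o w + Pi.single i 1) = mk (o (w + s i)) := by
        rw [map_add, ho, ho]
      rw [hmk] at this
      filter_upwards [this] with N h
      rw [← h, map_add, hφs]
    have h3 : ∀ᶠ N in (U : Filter ℕ), W.card + N0.card < N :=
      (eventually_gt_atTop _).filter_mono Nat.hyperfilter_le_atTop
    obtain ⟨N, k1, k2, k3⟩ := (h1.and (h2.and h3)).exists
    have h4 := nine_le (hc N) (fun x hx => hTs N x hx) (W.image fun x => φ N (o x))
      ((N0 \ W).image fun x => φ N (o x)) (hW.image _) (by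
        intro w' hw' x' hx'
        rw [Finset.mem_image] at hw'
        obtain ⟨w, hw, rfl⟩ := hw'
        obtain ⟨i, rfl⟩ := heT' N x' hx'
        rw [k2 w hw i]
        by_cases hmem : w + s i ∈ W
        · left
          exact Finset.mem_image_of_mem _ hmem
        · right
          refine Finset.mem_image_of_mem _ ?_
          rw [Finset.mem_sdiff]
          exact ⟨(hcl w hw (s i) (Set.mem_range_self i)).resolve_left hmem, hmem⟩) (by
        rw [Finset.disjoint_left]
        intro z hz hz'
        rw [Finset.mem_image] at hz hz'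
        obtain ⟨x, hx, rfl⟩ := hz
        obtain ⟨y, hy, hxy⟩ := hz'
        rw [Finset.mem_sdiff] at hy
        refine k1 y (Finset.mem_union_right _ hy.1) x (Finset.mem_union_left _ hx) ?_ hxy
        rintro rfl
        exact hy.2 hx) (by
        have c1 : (W.image fun x => φ N (o x)).card ≤ W.card := Finset.card_image_le
        have c2 : ((N0 \ W).image fun x => φ N (o x)).card ≤ N0.card :=
          Finset.card_image_le.trans (Finset.card_le_card Finset.sdiff_subset)
        have c3 := hN N
        omega)
    exact h4.trans (Finset.card_image_le.trans (Finset.card_le_card Finset.sdiff_subset))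
  have hinf : Infinite ((Fin D → ℤ) ⧸ Λ) := by
    by_contra hni
    rw [not_infinite_iff_finite] at hni
    have : Fintype ((Fin D → ℤ) ⧸ Λ) := Fintype.ofFinite _
    have := h9 Finset.univ ∅ Finset.univ_nonempty (fun w _ x _ => Or.inl (Finset.mem_univ _))
    simp at this
  obtain ⟨g, y, r, hgood⟩ := good_of_infinite hfinS hsymm hs0 hgen h9
  obtain ⟨a, rfl⟩ := hgood.hg
  obtain ⟨y', hy', hy0'⟩ : ∃ y' : Fin D → ℤ, mk y' = y ∧ (y = 0 → y' = 0) := by
    by_cases hy : y = 0
    · exact ⟨0, by rw [hy, map_zero], fun _ => rfl⟩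
    · exact ⟨o y, ho y, fun h => absurd h hy⟩
  have hmkg : ∀ m : ℤ, mk (m • Pi.single a 1) = m • s a := fun m => map_zsmul mk m _
  have hφg : ∀ N (m : ℤ), φ N (m • Pi.single a 1) = m • e N a := by
    intro N m
    rw [map_zsmul, hφs]
  have hall : ∀ {P : ℤ → ℕ → Prop}, (∀ m : ℤ, ∀ᶠ N in (U : Filter ℕ), P m N) →
      ∀ᶠ N in (U : Filter ℕ), ∀ m : ℤ, |m| ≤ k → P m N := by
    intro P hP
    have h1 : ∀ᶠ N in (U : Filter ℕ), ∀ m ∈ Finset.Icc (-(k : ℤ)) k, P m N := by
      rw [eventually_all_finset]
      intro m _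
      exact hP m
    filter_upwards [h1] with N h m hm
    exact h m (Finset.mem_Icc.2 (abs_le.1 hm))
  have E1 : ∀ᶠ N in (U : Filter ℕ), ∀ m : ℤ, |m| ≤ k → (m ≠ 0 → m • e N a ≠ 0) := by
    refine hall fun m => ?_
    by_cases hm : m = 0
    · exact Eventually.of_forall fun N h => absurd hm h
    · have h1 := hmkne (m • Pi.single a 1) 0 (by
        rw [hmkg, map_zero]
        exact hgood.h0 m hm)
      filter_upwards [h1] with N h _
      rwa [hφg, map_zero] at h
  have E2 : ∀ᶠ N in (U : Filter ℕ), ∀ m : ℤ, |m| ≤ k → (m ≠ 0 → m • e N a ≠ φ N y') := by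
    refine hall fun m => ?_
    by_cases hm : m = 0
    · exact Eventually.of_forall fun N h => absurd hm h
    · have h1 := hmkne (m • Pi.single a 1) y' (by
        rw [hmkg, hy']
        exact hgood.hy0 m hm)
      filter_upwards [h1] with N h _
      rwa [hφg] at h
  have hmemS : ∀ v, mk v ∈ Set.range s → ∀ᶠ N in (U : Filter ℕ), φ N v ∈ T N := by
    rintro v ⟨i, hi⟩
    have h1 : mk v = mk (Pi.single i 1) := hi.symm
    rw [hmk] at h1
    filter_upwards [h1] with N h
    rw [h, hφs]
    exact heT N i
  have E3 : ∀ᶠ N in (U : Filter ℕ), φ N y' = 0 ∨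
      (φ N y' ∈ ((T N : Finset (A N)) : Set (A N)) ∧ φ N y' ≠ 0) := by
    rcases hgood.hyS with h | ⟨h, -⟩
    · rw [hy0' h]
      exact Eventually.of_forall fun N => Or.inl (map_zero _)
    · filter_upwards [hmemS y' (by rw [hy']; exact h)] with N h2
      exact Or.inr ⟨h2, fun h3 => hT0 N (h3 ▸ h2)⟩
  have E4 : ∀ᶠ N in (U : Filter ℕ), ∀ i : Fin 4,
      φ N (o (r i)) ∈ ((T N : Finset (A N)) : Set (A N)) ∨
        φ N (o (r i)) - φ N y' ∈ ((T N : Finset (A N)) : Set (A N)) := by
    rw [eventually_all]
    intro i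
    rcases hgood.hr i with h | h
    · filter_upwards [hmemS (o (r i)) (by rw [ho]; exact h)] with N h2
      exact Or.inl h2
    · filter_upwards [hmemS (o (r i) - y') (by rw [map_sub, ho, hy']; exact h)] with N h2
      rw [map_sub] at h2
      exact Or.inr h2
  have E5 : ∀ᶠ N in (U : Filter ℕ), ∀ i : Fin 4, ∀ m : ℤ, |m| ≤ k →
      (m • e N a ≠ φ N (o (r i)) ∧ m • e N a ≠ φ N (o (r i)) - φ N y') := by
    rw [eventually_all]
    intro i
    refine hall fun m => ?_
    have h1 := hmkne (m • Pi.single a 1) (o (r i)) (by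
      rw [hmkg, ho]
      exact (hgood.hr0 i m).1)
    have h2 := hmkne (m • Pi.single a 1) (o (r i) - y') (by
      rw [hmkg, map_sub, ho, hy']
      exact (hgood.hr0 i m).2)
    filter_upwards [h1, h2] with N h3 h4
    rw [hφg] at h3 h4
    rw [map_sub] at h4
    exact ⟨h3, h4⟩
  have E6 : ∀ᶠ N in (U : Filter ℕ), ∀ i j : Fin 4, ∀ m : ℤ, |m| ≤ k →
      (i ≠ j → m • e N a ≠ φ N (o (r i)) - φ N (o (r j))) := by
    rw [eventually_all]
    intro i
    rw [eventually_all]
    intro j
    refine hall fun m => ?_
    by_cases hij : i = j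
    · exact Eventually.of_forall fun N h => absurd hij h
    · have h1 := hmkne (m • Pi.single a 1) (o (r i) - o (r j)) (by
        rw [hmkg, map_sub, ho, ho]
        exact hgood.hrr i j hij m)
      filter_upwards [h1] with N h _
      rwa [hφg, map_sub] at h
  obtain ⟨N, k1, k2, k3, k4, k5, k6⟩ := (E1.and (E2.and (E3.and (E4.and (E5.and E6))))).exists
  exact hK N (hasK_of_direction (g := e N a) (y := φ N y') (r := fun i => φ N (o (r i)))
    (heT N a) (fun m hm hmk => k1 m hmk hm) (fun m hm hmk => k2 m hmk hm) k3 k4 k5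
    (fun i j hij m hm => k6 i j m hm hij))

end AbCay
end
end
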