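import Pool.Agent.Lib.MP_cfc9ed_co.R8
import Pool.Agent.Lib.MP_cfc9ed_co.D2

section

/-!
# MP_cfc9ed_co: large 6-connected graphs have `K_{2,q}` minors
-/

set_option autoImplicit false

namespace TWk

open SimpleGraph Relation

section

variable {V : Type*} {G : SimpleGraph V}

/-- degrees in `κ`-connected graphs -/
theorem deg_ge [Fintype V] {κ : ℕ} (hG : Conn G κ) (v : V) : κ ≤ (G.neighborSet v).ncard := by
  classical
  by_contra hcon
  push Not at hcon
  set N : Finset V := (Set.toFinite (G.neighborSet v)).toFinset with hN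
  have hNc : N.card = (G.neighborSet v).ncard := by
    rw [Set.ncard_eq_toFinset_card _ (Set.toFinite _)]
  have hNm : ∀ x, x ∈ N ↔ G.Adj v x := by
    intro x
    rw [hN, Set.Finite.mem_toFinset, mem_neighborSet]
  obtain ⟨z, hz⟩ : ∃ z, z ∉ insert v N := by
    by_contra h
    push Not at h
    have h1 : Finset.univ ⊆ insert v N := fun x _ => h x
    have h2 := Finset.card_le_card h1
    have h3 := Finset.card_insert_le v N
    rw [Finset.card_univ] at h2
    have := hG.1
    omega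
  rw [Finset.mem_insert, not_or] at hz
  have h1 := sep hG {v} N (d := v) (z := z) rfl (fun h => G.irrefl ((hNm v).1 h))
    (fun x hx y hxy => Or.inr ((hNm y).2 (by rw [← Set.mem_singleton_iff.1 hx]; exact hxy)))
    hz.1 hz.2
  omega

/-- counting neighbours on a path -/
theorem nbrs_on [Fintype V] {κ n : ℕ} (hG : Conn G κ) {A : Set V} {p : ℕ → V} {L : ℕ}
    (hA : ∀ v ∈ A, ∃ i ≤ L, v = p i) {v x y : V} (h : ∀ w, G.Adj v w → w ∈ A ∨ w = x ∨ w = y)
    (hn : n + 2 ≤ κ) : ∃ T : Finset ℕ, T.card = n ∧ ∀ i ∈ T, i ≤ L ∧ G.Adj v (p i) := by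
  classical
  set T : Finset ℕ := (Finset.range (L + 1)).filter fun i => G.Adj v (p i) with hT
  have h1 : G.neighborSet v ⊆ ↑(T.image p ∪ {x, y}) := by
    intro w hw
    rw [Finset.mem_coe, Finset.mem_union]
    rcases h w hw with hw' | hw' | hw'
    · left
      obtain ⟨i, hi, rfl⟩ := hA w hw'
      exact Finset.mem_image.2 ⟨i, Finset.mem_filter.2 ⟨Finset.mem_range.2 (by omega), hw⟩, rfl⟩
    · right; rw [hw']; simp
    · right; rw [hw']; simp
  have h2 := Set.ncard_le_ncard h1 (Set.toFinite _)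
  rw [Set.ncard_coe_finset] at h2
  have h3 := Finset.card_union_le (T.image p) {x, y}
  have h4 := Finset.card_image_le (s := T) (f := p)
  have h5 := Finset.card_le_two (a := x) (b := y)
  have h6 := deg_ge hG v
  obtain ⟨T', hT', hT'c⟩ := Finset.exists_subset_card_eq (s := T) (n := n) (by omega)
  refine ⟨T', hT'c, fun i hi => ?_⟩
  have h7 := Finset.mem_filter.1 (hT' hi)
  exact ⟨Nat.lt_succ_iff.1 (Finset.mem_range.1 h7.1), h7.2⟩

theorem pick3 {T : Finset ℕ} (hT : T.card = 3) :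
    ∃ a1 a2 a3, a1 ∈ T ∧ a2 ∈ T ∧ a3 ∈ T ∧ a1 < a2 ∧ a2 < a3 := by
  let σ := T.orderEmbOfFin hT
  exact ⟨σ 0, σ 1, σ 2, Finset.orderEmbOfFin_mem T hT 0, Finset.orderEmbOfFin_mem T hT 1,
    Finset.orderEmbOfFin_mem T hT 2, σ.strictMono (by decide), σ.strictMono (by decide)⟩

/-- bounds -/
def M5 (q : ℕ) : ℕ := 2 ^ (q + q)
def M4 (q : ℕ) : ℕ := M5 q * (2 * q)
def M3 (q : ℕ) : ℕ := q * (2 * q + 1) + q + M4 q
def M2 (q : ℕ) : ℕ := M3 q * (2 * q)
def M1 (q : ℕ) : ℕ := q * (2 * q + 1) + q + M2 q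

/-- two paths with many neighbours -/
theorem two_paths [Fintype V] (hG : Conn G 6) {s r : V} {L L' : ℕ} {p u : ℕ → V} {W : Set V}
    (P : PD G W s L p) (U : PD G (seg p 0 L)ᶜ r L' u) (q : ℕ) (hq : 0 < q)
    (hS : 3 * M1 q ≤ cS {v | ∃ a ∈ seg p 0 L, G.Adj a v} u L') : HasK G 2 q := by
  classical
  by_contra hK
  have hG3 : Conn G 3 := ⟨by have := hG.1; omega, fun X hX => hG.2 X (by omega)⟩
  obtain ⟨l, c, m, h1, h2, h3⟩ := exists_triples (M1 q) hS
  have hd : ∀ i j : Fin (M1 q), i ≠ j → m i < l j ∨ m j < l i := by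
    intro i j hij
    rcases lt_or_gt_of_ne (fun h => hij (Fin.ext h) : i.1 ≠ j.1) with h | h
    · exact Or.inl (h3 i j h)
    · exact Or.inr (h3 j i h)
  have hA1 : (G.induce (seg p 0 L)).Connected := seg_conn P (Nat.zero_le _) le_rfl
  rcases stage hG3 hA1 U q (M2 q) (M1 q) le_rfl l c m h1 hd
    (fun j => ⟨(h2 j).1, (h2 j).2.2⟩) with h | ⟨g, hg, hgp⟩
  · exact hK h
  -- neighbours of `u (c (g j))` on `p`
  have hex : ∀ j : Fin (M2 q), ∃ a1 a2 a3, a1 < a2 ∧ a2 < a3 ∧ a3 ≤ L ∧
      G.Adj (u (c (g j))) (p a1) ∧ G.Adj (u (c (g j))) (p a2) ∧ G.Adj (u (c (g j))) (p a3) := by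
    intro j
    obtain ⟨T, hT, hT'⟩ := nbrs_on (n := 3) hG (A := seg p 0 L) (p := p) (L := L)
      (fun v hv => by
        obtain ⟨i, _, hi, rfl⟩ := hv
        exact ⟨i, hi, rfl⟩) (hgp j (c (g j)) (h1 _).1 (h1 _).2.1) (by omega)
    obtain ⟨a1, a2, a3, e1, e2, e3, e4, e5⟩ := pick3 hT
    exact ⟨a1, a2, a3, e4, e5, (hT' a3 e3).1, (hT' a1 e1).2, (hT' a2 e2).2, (hT' a3 e3).2⟩
  choose a1 a2 a3 ha1 ha2 ha3 hb1 hb2 hb3 using hex
  have hcne : ∀ i j : Fin (M2 q), i ≠ j → c (g i) ≠ c (g j) := by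
    intro i j hij h
    have e1 := h1 (g i)
    have e2 := h1 (g j)
    rcases hd _ _ (hg.ne hij) with h' | h' <;> omega
  rcases split_or P q (M3 q) (M2 q) hq le_rfl (fun j => {u (c (g j))}) a1 a3
    (fun j => ⟨(ha1 j).trans (ha2 j), ha3 j⟩) (fun j => conn_singleton _) (by
      intro i j hij
      rw [Set.disjoint_singleton]
      intro h
      exact hcne i j hij (U.inj _ (by have := h1 (g i); omega) _ (by have := h1 (g j); omega) h))
    (by
      intro j
      rw [Set.disjoint_singleton_right]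
      exact U.mem _ (by have := h1 (g j); omega)) (fun j => ⟨⟨_, rfl, (hb1 j).symm⟩,
        ⟨_, rfl, (hb3 j).symm⟩⟩) with h | ⟨g2, hg2, hg2p⟩
  · exact hK h
  -- second stage
  have hdis : ∀ i ≤ L, ∀ j ≤ L', p i ≠ u j := by
    intro i hi j hj h
    exact U.mem j hj (by rw [← h]; exact mem_seg (Nat.zero_le _) hi)
  have hA2 : (G.induce (seg u 0 L')).Connected := seg_conn U (Nat.zero_le _) le_rfl
  have hP2 : PD G (seg u 0 L')ᶜ s L p := ⟨P.zero, by
    rintro i hi ⟨j, _, hj, h⟩
    exact hdis i hi j hj h, P.adj, P.inj⟩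
  have hcm : ∀ j, u (c j) ∈ seg u 0 L' := fun j =>
    mem_seg (Nat.zero_le _) (by have := h1 j; omega)
  rcases stage hG3 hA2 hP2 q (M4 q) (M3 q) le_rfl (fun j => a1 (g2 j)) (fun j => a2 (g2 j))
    (fun j => a3 (g2 j)) (fun j => ⟨ha1 _, ha2 _, ha3 _⟩) hg2p
    (fun j => ⟨⟨_, hcm _, hb1 _⟩, ⟨_, hcm _, hb3 _⟩⟩) with h | ⟨g3, hg3, hg3p⟩
  · exact hK h
  -- the index maps
  have hexb : ∀ j : Fin (M4 q), ∃ b, b ≤ L' ∧ (b + 2 ≤ c (g (g2 (g3 j))) ∨
      c (g (g2 (g3 j))) + 2 ≤ b) ∧ G.Adj (p (a2 (g2 (g3 j)))) (u b) := by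
    intro j
    obtain ⟨T, hT, hT'⟩ := nbrs_on (n := 4) hG (A := seg u 0 L') (p := u) (L := L')
      (fun v hv => by
        obtain ⟨i, _, hi, rfl⟩ := hv
        exact ⟨i, hi, rfl⟩) (hg3p j (a2 (g2 (g3 j))) (ha1 _) (ha2 _)) (by omega)
    by_contra hcon
    push Not at hcon
    have hsub : T ⊆ {c (g (g2 (g3 j))) - 1, c (g (g2 (g3 j))), c (g (g2 (g3 j))) + 1} := by
      intro b hb
      have e1 := hT' b hb
      have e2 := hcon b e1.1
      by_cases e3 : b + 2 ≤ c (g (g2 (g3 j))) ∨ c (g (g2 (g3 j))) + 2 ≤ b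
      · exact absurd e1.2 (e2 e3)
      · rw [Finset.mem_insert, Finset.mem_insert, Finset.mem_singleton]
        omega
    have e4 := Finset.card_le_card hsub
    have e5 := Finset.card_le_three (a := c (g (g2 (g3 j))) - 1) (b := c (g (g2 (g3 j))))
      (c := c (g (g2 (g3 j))) + 1)
    omega
  choose b hbL hbc hbadj using hexb
  have hinj : ∀ i j : Fin (M4 q), i ≠ j → g2 (g3 i) ≠ g2 (g3 j) := fun i j hij =>
    hg2.ne (hg3.ne hij)
  have hcL : ∀ j, c j ≤ L' := fun j => by have := h1 j; omega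
  rcases split_or U q (M5 q) (M4 q) hq le_rfl (fun j => {p (a2 (g2 (g3 j)))})
    (fun j => min (b j) (c (g (g2 (g3 j))))) (fun j => max (b j) (c (g (g2 (g3 j)))))
    (by
      intro j
      have e1 := hbc j
      have e2 := hbL j
      have e3 := hcL (g (g2 (g3 j)))
      show min (b j) (c (g (g2 (g3 j)))) < max (b j) (c (g (g2 (g3 j)))) ∧
        max (b j) (c (g (g2 (g3 j)))) ≤ L'
      omega) (fun j => conn_singleton _) (by
      intro i j hij
      rw [Set.disjoint_singleton]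
      intro h
      have e1 := ha1 (g2 (g3 i))
      have e2 := ha2 (g2 (g3 i))
      have e3 := ha3 (g2 (g3 i))
      have e4 := ha1 (g2 (g3 j))
      have e5 := ha2 (g2 (g3 j))
      have e6 := ha3 (g2 (g3 j))
      have e7 := P.inj _ (by omega) _ (by omega) h
      rcases hg2p _ _ (hg3.ne hij) with h' | h' <;> omega)
    (by
      intro j
      rw [Set.disjoint_singleton_right]
      exact hP2.mem _ (by have := ha2 (g2 (g3 j)); have := ha3 (g2 (g3 j)); omega))
    (by
      intro j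
      refine ⟨⟨_, rfl, ?_⟩, ⟨_, rfl, ?_⟩⟩
      · show G.Adj (u (min (b j) (c (g (g2 (g3 j)))))) _
        rcases le_total (b j) (c (g (g2 (g3 j)))) with h | h
        · rw [min_eq_left h]; exact (hbadj j).symm
        · rw [min_eq_right h]; exact hb2 _
      · show G.Adj (u (max (b j) (c (g (g2 (g3 j)))))) _
        rcases le_total (b j) (c (g (g2 (g3 j)))) with h | h
        · rw [max_eq_right h]; exact hb2 _
        · rw [max_eq_left h]; exact (hbadj j).symm) with h | ⟨g4, hg4, hg4p⟩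
  · exact hK h
  -- crossing cells
  apply hK
  refine cross P U hdis q (M5 q) le_rfl (fun j => a1 (g2 (g3 (g4 j)))) (fun j => a2 (g2 (g3 (g4 j))))
    (fun j => a3 (g2 (g3 (g4 j)))) (fun j => b (g4 j)) (fun j => c (g (g2 (g3 (g4 j)))))
    (fun j => ⟨ha1 _, ha2 _, ha3 _, hbL _, hcL _, hbc _, hb1 _, hb3 _, hbadj _⟩) ?_ hg4p
  intro i j hij
  exact hg2p _ _ (hg3.ne (hg4.ne hij))

end

end TWk
end

section

section

/-!
# MP_cfc9ed_co: quotient graphs of graphs without `K_{a,k}` minor are sparse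
-/

set_option autoImplicit false

namespace TWk

open SimpleGraph Relation

/-- the quotient graph of a family of sets -/
def Qt {V ι : Type*} (G : SimpleGraph V) (F : ι → Set V) : SimpleGraph ι where
  Adj i j := i ≠ j ∧ ∃ x ∈ F i, ∃ y ∈ F j, G.Adj x y
  symm := ⟨fun _ _ h => ⟨h.1.symm, by
    obtain ⟨x, hx, y, hy, hxy⟩ := h.2
    exact ⟨y, hy, x, hx, hxy.symm⟩⟩⟩
  loopless := ⟨fun _ h => h.1 rfl⟩

/-- minors of the quotient are minors of `G`.
Proof: branch sets `⋃ i ∈ φ w, F i`; connected because `F i` is connected and adjacent indices have adjacent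
sets (use `RI.closed`, `conn_of_RI`); disjoint because the `F i` are pairwise disjoint. -/
theorem hasK_of_Qt {V ι : Type*} {G : SimpleGraph V} {F : ι → Set V} {a k : ℕ}
    (hF : ∀ i, (G.induce (F i)).Connected) (hd : ∀ i j, i ≠ j → Disjoint (F i) (F j))
    (h : HasK (Qt G F) a k) : HasK G a k := by
  obtain ⟨φ, h1, h2, h3⟩ := h
  refine ⟨fun w => {v | ∃ i ∈ φ w, v ∈ F i}, ?_, ?_, ?_⟩
  · intro w
    obtain ⟨⟨i₀, hi₀⟩⟩ := (h1 w).nonempty
    obtain ⟨⟨x₀, hx₀⟩⟩ := (hF i₀).nonempty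
    have hsub : ∀ i ∈ φ w, F i ⊆ {v | ∃ i ∈ φ w, v ∈ F i} := fun i hi v hv => ⟨i, hi, hv⟩
    refine conn_of_RI (c := x₀) ⟨i₀, hi₀, hx₀⟩ ?_
    rintro v ⟨i, hi, hv⟩
    have key : i ∈ {i | ∀ v ∈ F i, RI G {v | ∃ i ∈ φ w, v ∈ F i} x₀ v} := by
      refine RI.closed (RI_of_conn (h1 w) hi₀ hi) ?_ ?_
      · intro v hv
        exact (RI_of_conn (hF i₀) hx₀ hv).mono (hsub i₀ hi₀)
      · intro j hj hjw l hlw hadj v hv
        obtain ⟨x, hx, y, hy, hxy⟩ := hadj.2
        exact ((hj x hx).trans (RI.adj ⟨j, hjw, hx⟩ ⟨l, hlw, hy⟩ hxy)).trans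
          ((RI_of_conn (hF l) hy hv).mono (hsub l hlw))
    exact key v hv
  · intro w w' hne
    rw [Set.disjoint_left]
    rintro v ⟨i, hi, hv⟩ ⟨j, hj, hv'⟩
    by_cases hij : i = j
    · subst hij
      exact Set.disjoint_left.1 (h2 w w' hne) hi hj
    · exact Set.disjoint_left.1 (hd i j hij) hv hv'
  · intro w w' hadj
    obtain ⟨i, hi, j, hj, hij⟩ := h3 w w' hadj
    obtain ⟨x, hx, y, hy, hxy⟩ := hij.2
    exact ⟨x, ⟨i, hi, hx⟩, y, ⟨j, hj, hy⟩, hxy⟩

/-- Proof: otherwise `gadget` (file D2) for the graph `Qt G F` with `N = a`, `c = k` gives `X` with at least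
`2 k + 1` elements and `a` disjoint connected sets `U i`, disjoint from `X` and completely joined to it:
`HasK (Qt G F) a k` (`hasK_of` with `k` elements of `X` as singletons), then `hasK_of_Qt`. -/
theorem Qt_sparse {V ι : Type*} {G : SimpleGraph V} {F : ι → Set V} {a k : ℕ} (hk : 1 ≤ k)
    (hF : ∀ i, (G.induce (F i)).Connected) (hd : ∀ i j, i ≠ j → Disjoint (F i) (F j))
    (hK : ¬ HasK G a k) (W : Finset ι) (hW : W.Nonempty) :
    sg (Qt G F) W < 2 ^ (a + 1) * k * W.card := by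
  by_contra hcon
  obtain ⟨X, U, -, hX, hU, hUU⟩ := gadget (Qt G F) hk a W hW (not_lt.1 hcon)
  apply hK
  apply hasK_of_Qt hF hd
  obtain ⟨g, hg1, hg2⟩ : ∃ g : Fin k → ι, Function.Injective g ∧ ∀ i, g i ∈ X := by
    obtain ⟨S', h1, h2⟩ := Finset.exists_subset_card_eq (s := X) (n := k) (by omega)
    refine ⟨fun i => (S'.equivFinOfCardEq h2).symm i, ?_, fun i => h1 (Finset.coe_mem _)⟩
    intro i j hij
    exact (S'.equivFinOfCardEq h2).symm.injective (Subtype.ext hij)
  refine hasK_of (fun i => (U i : Set ι)) (fun j => {g j}) (fun i => (hU i i.2).2.1)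
    (fun j => conn_singleton _) ?_ ?_ ?_ ?_
  · intro i i' hne
    exact Finset.disjoint_coe.2 (hUU i i.2 i' i'.2 fun h => hne (Fin.ext h))
  · intro j j' hne
    rw [Set.disjoint_singleton]
    exact fun h => hne (hg1 h)
  · intro i j
    rw [Set.disjoint_singleton_right]
    intro h
    exact Finset.disjoint_left.1 (hU i i.2).2.2.1 (Finset.mem_coe.1 h) (hg2 j)
  · intro i j
    obtain ⟨u, hu, hux⟩ := (hU i i.2).2.2.2 (g j) (hg2 j)
    exact ⟨u, Finset.mem_coe.2 hu, g j, rfl, hux⟩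

open Classical in
/-- the vertices of `X` with a neighbour in `F` -/
noncomputable def nS {V : Type*} (G : SimpleGraph V) (X : Finset V) (F : Set V) : Finset V :=
  X.filter fun x => ∃ y ∈ F, G.Adj x y

theorem mem_nS {V : Type*} {G : SimpleGraph V} {X : Finset V} {F : Set V} {x : V} :
    x ∈ nS G X F ↔ x ∈ X ∧ ∃ y ∈ F, G.Adj x y := by
  simp [nS]

/-- few adjacent pairs between `X` and the sets `F i`.
Proof: if `X.card + n = 0` both sides are `0`. Otherwise `Qt_sparse` for the family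
`Sum.elim (fun x : X => {x.1}) F` on `X ⊕ Fin n` (with `W = Finset.univ`); in `sg` every pair `(x, i)` with
`x ∈ nS G X (F i)` is counted in `dW _ univ (Sum.inr i)` (already once is enough). -/
theorem pairs_sparse {V : Type*} {G : SimpleGraph V} {a k : ℕ} (hk : 1 ≤ k) (hK : ¬ HasK G a k)
    (X : Finset V) {n : ℕ} (F : Fin n → Set V) (hF : ∀ i, (G.induce (F i)).Connected)
    (hd : ∀ i j, i ≠ j → Disjoint (F i) (F j)) (hX : ∀ i, ∀ x ∈ F i, x ∉ X) :
    ∑ i, (nS G X (F i)).card ≤ 2 ^ (a + 1) * k * (X.card + n) := by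
  classical
  let F' : X ⊕ Fin n → Set V := Sum.elim (fun x : X => ({x.1} : Set V)) F
  have hF' : ∀ i, (G.induce (F' i)).Connected := by
    rintro (x | i)
    · exact conn_singleton x.1
    · exact hF i
  have hd' : ∀ i j, i ≠ j → Disjoint (F' i) (F' j) := by
    rintro (x | i) (y | j) hne
    · refine Set.disjoint_singleton.2 fun h => hne ?_
      rw [Subtype.ext h]
    · exact Set.disjoint_singleton_left.2 fun h => hX j x.1 h x.2
    · exact Set.disjoint_singleton_right.2 fun h => hX i y.1 h y.2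
    · exact hd i j fun h => hne (by rw [h])
  have hcard : (Finset.univ : Finset (X ⊕ Fin n)).card = X.card + n := by
    rw [Finset.card_univ, Fintype.card_sum, Fintype.card_coe, Fintype.card_fin]
  by_cases h0 : X.card + n = 0
  · have hn : n = 0 := by omega
    subst hn
    simp
  have hne : (Finset.univ : Finset (X ⊕ Fin n)).Nonempty := by
    rw [← Finset.card_pos, hcard]
    omega
  have h1 := Qt_sparse hk hF' hd' hK Finset.univ hne
  rw [hcard] at h1
  refine le_trans ?_ h1.le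
  have h2 : ∀ i : Fin n, (nS G X (F i)).card ≤ dW (Qt G F') Finset.univ (Sum.inr i) := by
    intro i
    unfold dW
    refine Finset.card_le_card_of_injOn
      (fun x => if hx : x ∈ X then Sum.inl ⟨x, hx⟩ else Sum.inr i) ?_ ?_
    · intro x hx
      obtain ⟨hxX, y, hy, hxy⟩ := mem_nS.1 (Finset.mem_coe.1 hx)
      rw [Finset.mem_coe, Finset.mem_filter]
      refine ⟨Finset.mem_univ _, ?_⟩
      simp only [hxX, dif_pos]
      exact ⟨by simp, y, hy, x, rfl, hxy.symm⟩
    · intro x hx y hy hxy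
      have hx' := (mem_nS.1 (Finset.mem_coe.1 hx)).1
      have hy' := (mem_nS.1 (Finset.mem_coe.1 hy)).1
      simpa [hx', hy'] using hxy
  unfold sg
  rw [Fintype.sum_sum_type]
  exact (Finset.sum_le_sum fun i _ => h2 i).trans (Nat.le_add_left _ _)

end TWk
end

section

/-!
# MP_cfc9ed_co: large 6-connected graphs have `K_{2,q}` minors, conclusion
-/

set_option autoImplicit false

namespace TWk

open SimpleGraph Relation

/-- vertices of large degree -/
theorem large_degree (q : ℕ) : ∃ N, ∀ (V : Type) [Fintype V] (G : SimpleGraph V), Conn G 4 →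
    ∀ x : V, N ≤ (G.neighborSet x).ncard → HasK G 2 q := by
  obtain ⟨N, hN⟩ := rooted q
  refine ⟨N, ?_⟩
  intro V _ G hG x hx
  classical
  obtain ⟨B, C, h⟩ := hN V G {v | ∃ a ∈ ({x} : Set V), G.Adj a v} ({x}ᶜ) (by
    intro u v
    have h1 := hG.2 {x, u, v} (lt_of_le_of_lt Finset.card_le_three (by omega))
    have h2 : (↑({x, u, v} : Finset V) : Set V)ᶜ = {x}ᶜ \ {u, v} := by
      ext w
      simp only [Finset.coe_insert, Finset.coe_singleton, Set.mem_compl_iff, Set.mem_insert_iff,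
        Set.mem_singleton_iff, Set.mem_sdiff]
      tauto
    rw [h2] at h1
    exact h1) (by
    refine hx.trans (Set.ncard_le_ncard ?_ (Set.toFinite _))
    intro w hw
    exact ⟨⟨x, rfl, hw⟩, fun h => G.irrefl (by
      rw [Set.mem_singleton_iff.1 h] at hw
      exact hw)⟩)
  exact hasK_of_RK (conn_singleton x) (fun v hv => hv) h

/-- balls -/
theorem exists_far {V : Type} [Fintype V] (G : SimpleGraph V) (Δ D : ℕ)
    (hΔ : ∀ v, (G.neighborSet v).ncard ≤ Δ) (hV : (Δ + 1) ^ D < Fintype.card V) (s : V) :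
    ∃ t, t ≠ s ∧ ∀ (W : Set V) (L : ℕ) (p : ℕ → V), PD G W s L p → p L = t → D < L := by
  classical
  have hball : ∀ n : ℕ, ∃ B : Finset V, B.card ≤ (Δ + 1) ^ n ∧ s ∈ B ∧
      ∀ (p : ℕ → V) (L : ℕ), L ≤ n → p 0 = s → (∀ i < L, G.Adj (p i) (p (i + 1))) → p L ∈ B := by
    intro n
    induction n with
    | zero =>
      refine ⟨{s}, by simp, Finset.mem_singleton_self _, ?_⟩
      intro p L hL h0 _
      rw [show L = 0 by omega, h0]
      exact Finset.mem_singleton_self _
    | succ n ih =>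
      obtain ⟨B, hB, hs, hB'⟩ := ih
      refine ⟨B ∪ B.biUnion fun v => (Set.toFinite (G.neighborSet v)).toFinset, ?_,
        Finset.mem_union_left _ hs, ?_⟩
      · have h1 := Finset.card_union_le B
          (B.biUnion fun v => (Set.toFinite (G.neighborSet v)).toFinset)
        have h2 : (B.biUnion fun v => (Set.toFinite (G.neighborSet v)).toFinset).card ≤
            B.card * Δ := by
          refine Finset.card_biUnion_le_card_mul _ _ _ fun v _ => ?_
          rw [← Set.ncard_eq_toFinset_card _ (Set.toFinite _)]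
          exact hΔ v
        have h3 : B.card + B.card * Δ = B.card * (Δ + 1) := by ring
        rw [pow_succ]
        calc _ ≤ B.card + B.card * Δ := by omega
          _ = B.card * (Δ + 1) := h3
          _ ≤ (Δ + 1) ^ n * (Δ + 1) := Nat.mul_le_mul_right _ hB
      · intro p L hL h0 hadj
        rw [Finset.mem_union, Finset.mem_biUnion]
        by_cases h : L ≤ n
        · exact Or.inl (hB' p L h h0 hadj)
        · right
          refine ⟨p n, hB' p n le_rfl h0 fun i hi => hadj i (by omega), ?_⟩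
          rw [Set.Finite.mem_toFinset, mem_neighborSet, show L = n + 1 by omega]
          exact hadj n (by omega)
  obtain ⟨B, hB, hs, hB'⟩ := hball D
  obtain ⟨t, ht⟩ : ∃ t, t ∉ B := by
    by_contra h
    push Not at h
    have h1 := Finset.card_le_card (fun x _ => h x : Finset.univ ⊆ B)
    rw [Finset.card_univ] at h1
    omega
  refine ⟨t, fun h => ht (by rw [h]; exact hs), ?_⟩
  intro W L p P hpt
  by_contra hcon
  apply ht
  rw [← hpt]
  exact hB' p L (by omega) P.zero P.adj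

/-- **large 6-connected graphs have `K_{2,q}` minors** -/
theorem six_two (q : ℕ) (hq : 0 < q) : ∃ N, ∀ (V : Type) [Fintype V] (G : SimpleGraph V),
    Conn G 6 → N ≤ Fintype.card V → HasK G 2 q := by
  obtain ⟨N1, hN1⟩ := large_degree q
  obtain ⟨N2, hN2⟩ := greedy (3 * M1 q) q
  refine ⟨(N1 + 1) ^ (N1 * N2 + 3) + 3, ?_⟩
  intro V _ G hG hV
  classical
  by_contra hK
  have hΔ : ∀ v, (G.neighborSet v).ncard ≤ N1 := by
    intro v
    by_contra h
    exact hK (hN1 V G ⟨by have := hG.1; omega, fun X hX => hG.2 X (by omega)⟩ v (by omega))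
  obtain ⟨s⟩ : Nonempty V := by
    rw [← Fintype.card_pos_iff]
    omega
  obtain ⟨t, hts, hfar⟩ := exists_far G N1 (N1 * N2 + 3) hΔ (by omega) s
  obtain ⟨z, hz⟩ : ∃ z, z ∉ ({s, t} : Finset V) := by
    by_contra h
    push Not at h
    have h1 := Finset.card_le_card (fun x _ => h x : Finset.univ ⊆ ({s, t} : Finset V))
    rw [Finset.card_univ] at h1
    have := Finset.card_le_two (a := s) (b := t)
    omega
  rw [Finset.mem_insert, Finset.mem_singleton, not_or] at hz
  have hG3 : Conn G 3 := ⟨by have := hG.1; omega, fun X hX => hG.2 X (by omega)⟩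
  obtain ⟨L, p, P, hpt, hch, hW⟩ := nonsep hG3 (s := s) (t := t) (z := z) (Ne.symm hz.1)
    (Ne.symm hz.2)
  have hL := hfar _ L p P hpt
  have hA : (G.induce (seg p 0 L)).Connected := seg_conn P (Nat.zero_le _) le_rfl
  -- neighbours outside of the path
  have hout : ∀ i : ℕ, 0 < i → i < L → ∃ w, G.Adj (p i) w ∧ w ∉ seg p 0 L := by
    intro i hi hiL
    by_contra hcon
    push Not at hcon
    have h1 : G.neighborSet (p i) ⊆ ↑({p (i - 1), p (i + 1)} : Finset V) := by
      intro w hw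
      obtain ⟨j, _, hj, rfl⟩ := hcon w hw
      have hij : i ≠ j := fun h => G.irrefl (by
        rw [← h] at hw
        exact hw)
      rw [Finset.mem_coe, Finset.mem_insert, Finset.mem_singleton]
      by_cases h2 : j + 2 ≤ i
      · exact absurd hw.symm (hch j i h2 (by omega))
      · by_cases h3 : i + 2 ≤ j
        · exact absurd hw (hch i j h3 hj)
        · by_cases h4 : j < i
          · exact Or.inl (by rw [show j = i - 1 by omega])
          · exact Or.inr (by rw [show j = i + 1 by omega])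
    have h2 := Set.ncard_le_ncard h1 (Set.toFinite _)
    rw [Set.ncard_coe_finset] at h2
    have h3 := Finset.card_le_two (a := p (i - 1)) (b := p (i + 1))
    have h4 := deg_ge hG (p i)
    omega
  have hex : ∀ i : ℕ, ∃ w, 0 < i → i < L → G.Adj (p i) w ∧ w ∉ seg p 0 L := by
    intro i
    by_cases h : 0 < i ∧ i < L
    · obtain ⟨w, hw⟩ := hout i h.1 h.2
      exact ⟨w, fun _ _ => hw⟩
    · exact ⟨s, fun h1 h2 => absurd ⟨h1, h2⟩ h⟩
  choose w hw using hex
  have hcard : N2 ≤ ({v | ∃ a ∈ seg p 0 L, G.Adj a v} ∩ (seg p 0 L)ᶜ).ncard := by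
    have h1 := Finset.card_le_mul_card_image (f := w) (Finset.Ico 1 L) N1 (by
      intro v _
      have h2 : ((Finset.Ico 1 L).filter fun i => w i = v).image p ⊆
          (Set.toFinite (G.neighborSet v)).toFinset := by
        intro x hx
        obtain ⟨i, hi, rfl⟩ := Finset.mem_image.1 hx
        obtain ⟨hi1, hi2⟩ := Finset.mem_filter.1 hi
        have hi3 := Finset.mem_Ico.1 hi1
        rw [Set.Finite.mem_toFinset, mem_neighborSet, ← hi2]
        exact (hw i (by omega) (by omega)).1.symm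
      have h3 := Finset.card_le_card h2
      rw [← Set.ncard_eq_toFinset_card _ (Set.toFinite _)] at h3
      rw [Finset.card_image_of_injOn] at h3
      · exact h3.trans (hΔ v)
      · intro i hi j hj hij
        have hi' := Finset.mem_Ico.1 (Finset.mem_filter.1 (Finset.mem_coe.1 hi)).1
        have hj' := Finset.mem_Ico.1 (Finset.mem_filter.1 (Finset.mem_coe.1 hj)).1
        exact P.inj i (by omega) j (by omega) hij)
    rw [Nat.card_Ico] at h1
    have h2 : N2 ≤ ((Finset.Ico 1 L).image w).card := by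
      by_contra h
      push Not at h
      have h3 : N1 * ((Finset.Ico 1 L).image w).card ≤ N1 * N2 := Nat.mul_le_mul_left _ h.le
      omega
    refine h2.trans ?_
    rw [← Set.ncard_coe_finset]
    refine Set.ncard_le_ncard ?_ (Set.toFinite _)
    intro v hv
    obtain ⟨i, hi, rfl⟩ := Finset.mem_image.1 (Finset.mem_coe.1 hv)
    have hi' := Finset.mem_Ico.1 hi
    have h3 := hw i (by omega) (by omega)
    exact ⟨⟨p i, mem_seg (Nat.zero_le _) (by omega), h3.1⟩, h3.2⟩
  obtain ⟨⟨r, hr⟩⟩ := hW.nonempty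
  rcases hN2 V G _ _ r hW hr hcard with ⟨L', u, U, hu⟩ | ⟨B, C, -, h⟩
  · exact hK (two_paths hG P U q hq hu)
  · exact hK (hasK_of_RK hA (fun v hv => hv) h)

end TWk
end

section

/-!
# MP_cfc9ed_co: torsos, upgrading over a bounded set
-/

set_option autoImplicit false

namespace TWk

open SimpleGraph Relation

theorem Conn.mono {V : Type*} [Fintype V] {G : SimpleGraph V} {κ κ' : ℕ} (hG : Conn G κ)
    (h : κ' ≤ κ) : Conn G κ' :=
  ⟨h.trans_lt hG.1, fun X hX => hG.2 X (hX.trans_le h)⟩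

/-- upgrading over a bounded set -/
theorem upgrade_over (s k c : ℕ) (hs : 1 ≤ s) : ∃ N, ∀ (b : ℕ) (V : Type) [Fintype V]
    (G : SimpleGraph V), Conn G (b + 2 * s + 2) → ∀ (X : Finset V), X.card ≤ c →
    ∀ (n : ℕ) (F : Fin n → Finset V), N ≤ n →
    (∀ i, (∀ x ∈ F i, x ∉ X) ∧ (F i).card ≤ s ∧ (G.induce (↑(F i) : Set V)).Connected) →
    (∀ i j, i ≠ j → Disjoint (F i) (F j)) →
    (∀ i, ∃ A ⊆ X, A.card = b + 1 ∧ ∀ x ∈ A, ∃ y ∈ F i, G.Adj x y) → HasK G (b + 2) k := by
  obtain ⟨N0, hN0⟩ := upgrade s k hs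
  refine ⟨2 ^ c * N0 + 1, ?_⟩
  intro b V _ G hG X hX n F hn hF hFd hA
  classical
  choose A hAX hAc hAadj using hA
  have hmaps : ∀ i ∈ (Finset.univ : Finset (Fin n)), A i ∈ X.powerset := fun i _ =>
    Finset.mem_powerset.2 (hAX i)
  obtain ⟨T, -, hT⟩ := Finset.exists_lt_card_fiber_of_mul_lt_card_of_maps_to hmaps
    (n := N0) (by
      rw [Finset.card_powerset, Finset.card_fin]
      have h1 : 2 ^ X.card * N0 ≤ 2 ^ c * N0 :=
        Nat.mul_le_mul_right _ (Nat.pow_le_pow_right (by norm_num) hX)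
      omega)
  obtain ⟨g, hg, hgT⟩ := exists_sub hT.le
  have hTc : T.card = b + 1 := by
    obtain ⟨i, hi⟩ := Finset.card_pos.1 (show 0 < (Finset.univ.filter fun i => A i = T).card by
      omega)
    rw [← (Finset.mem_filter.1 hi).2]
    exact hAc i
  let e := Finset.equivFinOfCardEq hTc
  refine hN0 (b + 1) (b + 1) V G (hG.mono (by omega)) T hTc.le
    (fun i => {((e.symm i : T) : V)}) (fun i => ⟨?_, conn_singleton _⟩) ?_ N0 (fun j => F (g j))
    le_rfl (fun j => ⟨fun x hx hxT => ?_, (hF _).2.1, (hF _).2.2⟩)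
    (fun i j hij => hFd _ _ (hg.ne hij)) ?_
  · exact Set.singleton_subset_iff.2 (e.symm i).2
  · intro i j hij
    rw [Set.disjoint_singleton]
    exact fun h => hij (e.symm.injective (Subtype.ext h))
  · refine (hF _).1 x hx ?_
    rw [← hgT j] at hxT
    exact hAX _ hxT
  · intro i j
    have h1 : ((e.symm i : T) : V) ∈ A (g j) := by
      rw [hgT j]
      exact (e.symm i).2
    obtain ⟨y, hy, hxy⟩ := hAadj _ _ h1
    exact ⟨_, rfl, y, hy, hxy⟩

section

variable {V : Type} (G : SimpleGraph V) (K : Set V) (Z : Finset V)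

/-- the torso -/
def Tor : SimpleGraph {v : V // v ∈ K ∨ v ∈ Z} where
  Adj u v := u ≠ v ∧ (G.Adj u.1 v.1 ∨ (u.1 ∈ Z ∧ v.1 ∈ Z))
  symm := ⟨fun _ _ ⟨h, h'⟩ => ⟨h.symm, h'.elim (fun h => Or.inl h.symm)
    fun h => Or.inr ⟨h.2, h.1⟩⟩⟩
  loopless := ⟨fun _ h => h.1 rfl⟩

variable {G K Z}

/-- torsos are highly connected -/
theorem Tor_conn [Fintype V] [Fintype {v : V // v ∈ K ∨ v ∈ Z}] {b κ : ℕ} (hG : Conn G (b + κ))
    (T : Finset V) (hT : T.card ≤ b) (hTn : ∀ v ∈ T, v ∉ K ∧ v ∉ Z)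
    (hN : ∀ v ∈ K, ∀ w, G.Adj v w → w ∈ K ∨ w ∈ Z ∨ w ∈ T)
    (hc : κ < Fintype.card {v : V // v ∈ K ∨ v ∈ Z}) : Conn (Tor G K Z) κ := by
  classical
  refine ⟨hc, ?_⟩
  intro Y hY
  have hc1 := hG.2 (Y.map (Function.Embedding.subtype _) ∪ T) (by
    have := Finset.card_union_le (Y.map (Function.Embedding.subtype _)) T
    rw [Finset.card_map] at this
    omega)
  have hmem : ∀ v : V, v ∈ (↑(Y.map (Function.Embedding.subtype _) ∪ T) : Set V)ᶜ ↔
      v ∉ T ∧ ∀ h : v ∈ K ∨ v ∈ Z, (⟨v, h⟩ : {v : V // v ∈ K ∨ v ∈ Z}) ∉ Y := by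
    intro v
    rw [Set.mem_compl_iff, Finset.mem_coe, Finset.mem_union, not_or, Finset.mem_map]
    constructor
    · rintro ⟨h1, h2⟩
      exact ⟨h2, fun h h3 => h1 ⟨_, h3, rfl⟩⟩
    · rintro ⟨h1, h2⟩
      refine ⟨?_, h1⟩
      rintro ⟨w, hw, rfl⟩
      exact h2 w.2 hw
  obtain ⟨x, hx⟩ : ∃ x, x ∉ Y := by
    by_contra h
    push Not at h
    have h1 := Finset.card_le_card (fun x _ => h x : Finset.univ ⊆ Y)
    rw [Finset.card_univ] at h1
    omega
  have hnT : ∀ v : {v : V // v ∈ K ∨ v ∈ Z}, v.1 ∉ T := by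
    intro v hv
    exact v.2.elim (hTn v.1 hv).1 (hTn v.1 hv).2
  have hx' : x.1 ∈ (↑(Y.map (Function.Embedding.subtype _) ∪ T) : Set V)ᶜ :=
    (hmem _).2 ⟨hnT x, fun _ => hx⟩
  refine conn_of_RI (c := x) (by simpa using hx) ?_
  intro y hy
  have hyY : y ∉ Y := by simpa using hy
  have hy' : y.1 ∈ (↑(Y.map (Function.Embedding.subtype _) ∪ T) : Set V)ᶜ :=
    (hmem _).2 ⟨hnT y, fun _ => hyY⟩
  set Ω : Set {v : V // v ∈ K ∨ v ∈ Z} := (↑Y : Set _)ᶜ with hΩ
  have hxΩ : x ∈ Ω := by simpa [hΩ] using hx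
  have key : y.1 ∈ {w : V | (∃ h : w ∈ K ∨ w ∈ Z, RI (Tor G K Z) Ω x ⟨w, h⟩) ∨
      ((¬ (w ∈ K ∨ w ∈ Z)) ∧ ∃ z : {v : V // v ∈ K ∨ v ∈ Z}, z.1 ∈ Z ∧
        RI (Tor G K Z) Ω x z)} := by
    refine RI.closed (RI_of_conn hc1 hx' hy') (Or.inl ⟨x.2, RI.refl hxΩ⟩) ?_
    intro v hv hvs w hws hvw
    have hwm := (hmem w).1 hws
    by_cases hw : w ∈ K ∨ w ∈ Z
    · left
      have hwΩ : (⟨w, hw⟩ : {v : V // v ∈ K ∨ v ∈ Z}) ∈ Ω := by
        have := hwm.2 hw
        simpa [hΩ] using this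
      rcases hv with ⟨hv', hv⟩ | ⟨hv', z, hzZ, hz⟩
      · refine ⟨hw, hv.trans (RI.adj hv.2.1 hwΩ ⟨?_, Or.inl hvw⟩)⟩
        intro h
        exact hvw.ne (congrArg Subtype.val h)
      · have hwZ : w ∈ Z := by
          rcases hw with hwK | hwZ
          · rcases hN w hwK v hvw.symm with h | h | h
            · exact absurd (Or.inl h) hv'
            · exact absurd (Or.inr h) hv'
            · exact absurd h ((hmem v).1 hvs).1
          · exact hwZ
        refine ⟨hw, ?_⟩
        by_cases hzw : z = ⟨w, hw⟩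
        · rw [← hzw]; exact hz
        · exact hz.trans (RI.adj hz.2.1 hwΩ ⟨hzw, Or.inr ⟨hzZ, hwZ⟩⟩)
    · right
      refine ⟨hw, ?_⟩
      rcases hv with ⟨hv', hv⟩ | ⟨hv', z, hzZ, hz⟩
      · refine ⟨⟨v, hv'⟩, ?_, hv⟩
        rcases hv' with hvK | hvZ
        · rcases hN v hvK w hvw with h | h | h
          · exact absurd (Or.inl h) hw
          · exact absurd (Or.inr h) hw
          · exact absurd h hwm.1
        · exact hvZ
      · exact ⟨z, hzZ, hz⟩
  rcases key with ⟨_, h⟩ | ⟨h, _⟩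
  · exact h
  · exact absurd y.2 h

/-- from a minor of the torso to a structure in `G` -/
theorem Tor_extract {k q' : ℕ} (hk : 0 < k) (hKZ : ∀ v ∈ K, v ∉ Z)
    (hq : Z.card + (Z.card + 1) ^ 2 * k ≤ q') (h : HasK (Tor G K Z) 2 q') :
    ∃ (A B : Set V) (C : Fin k → Set V), (∀ v ∈ A, v ∈ K ∨ v ∈ Z) ∧ (∀ v ∈ B, v ∈ K ∨ v ∈ Z) ∧
      (G.induce A).Connected ∧ (G.induce B).Connected ∧ Disjoint A B ∧ (∀ j, C j ⊆ K) ∧
      (∀ j, (G.induce (C j)).Connected) ∧ (∀ j, Disjoint A (C j)) ∧ (∀ j, Disjoint B (C j)) ∧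
      (∀ i j, i ≠ j → Disjoint (C i) (C j)) ∧ (∀ j, ∃ x ∈ A, ∃ y ∈ C j, G.Adj x y) ∧
      ∀ j, ∃ x ∈ B, ∃ y ∈ C j, G.Adj x y := by
  classical
  obtain ⟨φ, hφc, hφd, hφa⟩ := h
  set img : Set {v : V // v ∈ K ∨ v ∈ Z} → Set V := fun S => Subtype.val '' S with himg
  have himgd : ∀ S S' : Set {v : V // v ∈ K ∨ v ∈ Z}, Disjoint S S' → Disjoint (img S) (img S') := by
    intro S S' hd
    rw [Set.disjoint_left]
    rintro _ ⟨x, hx, rfl⟩ ⟨y, hy, hxy⟩
    rw [Subtype.ext hxy] at hy
    exact Set.disjoint_left.1 hd hx hy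
  -- leaves without vertices of `Z`
  set J := Finset.univ.filter fun j : Fin q' => ∀ z ∈ Z, z ∉ img (φ (Sum.inr j)) with hJ
  have hJc : q' ≤ J.card + Z.card := by
    set J' := Finset.univ.filter fun j : Fin q' => ¬ ∀ z ∈ Z, z ∉ img (φ (Sum.inr j)) with hJ'
    have h1 : J.card + J'.card = q' := by
      have := Finset.card_filter_add_card_filter_not (s := (Finset.univ : Finset (Fin q')))
        (fun j : Fin q' => ∀ z ∈ Z, z ∉ img (φ (Sum.inr j)))
      rw [Finset.card_fin] at this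
      exact this
    have h2 : ∀ j : Fin q', ∃ z, j ∈ J' → z ∈ Z ∧ z ∈ img (φ (Sum.inr j)) := by
      intro j
      by_cases hj : j ∈ J'
      · have h3 := (Finset.mem_filter.1 hj).2
        push Not at h3
        obtain ⟨z, hz, hz'⟩ := h3
        exact ⟨z, fun _ => ⟨hz, hz'⟩⟩
      · obtain ⟨⟨x, _⟩⟩ := (hφc (Sum.inr j)).nonempty
        exact ⟨x.1, fun h => absurd h hj⟩
    choose z hz using h2
    have h3 : J'.card ≤ Z.card := by
      refine Finset.card_le_card_of_injOn z (fun j hj => (hz j hj).1) ?_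
      intro i hi j hj hij
      by_contra hne
      exact Set.disjoint_left.1 (himgd _ _ (hφd (Sum.inr i) (Sum.inr j) fun h => hne
        (Sum.inr.inj h))) (hz i hi).2 (by rw [hij]; exact (hz j hj).2)
    omega
  have hLK : ∀ j ∈ J, ∀ v ∈ φ (Sum.inr j), v.1 ∈ K := by
    intro j hj v hv
    rcases v.2 with h | h
    · exact h
    · exact absurd ⟨v, hv, rfl⟩ ((Finset.mem_filter.1 hj).2 v.1 h)
  have hLc : ∀ j ∈ J, (G.induce (img (φ (Sum.inr j)))).Connected := by
    intro j hj
    obtain ⟨⟨x, hx⟩⟩ := (hφc (Sum.inr j)).nonempty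
    refine conn_of_RI (c := x.1) ⟨x, hx, rfl⟩ ?_
    rintro _ ⟨y, hy, rfl⟩
    have key : y ∈ {w | RI G (img (φ (Sum.inr j))) x.1 w.1} := by
      refine RI.closed (RI_of_conn (hφc (Sum.inr j)) hx hy) (RI.refl ⟨x, hx, rfl⟩) ?_
      intro v hv hvs w hws hvw
      refine RI.trans hv (RI.adj ⟨v, hvs, rfl⟩ ⟨w, hws, rfl⟩ ?_)
      rcases hvw.2 with h | h
      · exact h
      · exact absurd h.1 (hKZ _ (hLK j hj v hvs))
    exact key
  -- attachments
  have hatt : ∀ (i : Fin 2) (j : Fin q'), ∃ x ∈ φ (Sum.inl i), j ∈ J →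
      ∃ y ∈ img (φ (Sum.inr j)), G.Adj x.1 y := by
    intro i j
    by_cases hj : j ∈ J
    · obtain ⟨x, hx, y, hy, hxy⟩ := hφa (Sum.inl i) (Sum.inr j) (by simp)
      refine ⟨x, hx, fun _ => ⟨y.1, ⟨y, hy, rfl⟩, ?_⟩⟩
      rcases hxy.2 with h | h
      · exact h
      · exact absurd h.2 (hKZ _ (hLK j hj y hy))
    · obtain ⟨⟨x, hx⟩⟩ := (hφc (Sum.inl i)).nonempty
      exact ⟨x, hx, fun h => absurd h hj⟩
  choose x hx hxa using hatt
  -- representatives of the components
  have hrep : ∀ (i : Fin 2) (j : Fin q'), ∃ o : Option V, (o ∈ insert none (Z.image some)) ∧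
      (∀ z, o = some z → RI G (img (φ (Sum.inl i))) (x i j).1 z) ∧
      (o = none → ∀ y ∈ img (φ (Sum.inl i)), RI G (img (φ (Sum.inl i))) (x i j).1 y) := by
    intro i j
    by_cases h : ∃ z ∈ Z, RI G (img (φ (Sum.inl i))) (x i j).1 z
    · obtain ⟨z, hz, hz'⟩ := h
      refine ⟨some z, ?_, ?_, ?_⟩
      · exact Finset.mem_insert_of_mem (Finset.mem_image_of_mem _ hz)
      · intro z' h'
        rw [← Option.some.inj h']
        exact hz'
      · intro h'
        simp at h'
    · push Not at h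
      refine ⟨none, Finset.mem_insert_self _ _, fun z h' => by simp at h', fun _ => ?_⟩
      rintro _ ⟨y, hy, rfl⟩
      have key : y ∈ {w | RI G (img (φ (Sum.inl i))) (x i j).1 w.1} := by
        refine RI.closed (RI_of_conn (hφc (Sum.inl i)) (hx i j) hy)
          (RI.refl ⟨x i j, hx i j, rfl⟩) ?_
        intro v hv hvs w hws hvw
        refine RI.trans hv (RI.adj ⟨v, hvs, rfl⟩ ⟨w, hws, rfl⟩ ?_)
        rcases hvw.2 with h' | h'
        · exact h'
        · exact absurd hv (h _ h'.1)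
      exact key
  choose o ho1 ho2 ho3 using hrep
  obtain ⟨t, -, ht⟩ := Finset.exists_le_card_fiber_of_mul_le_card_of_maps_to (s := J)
    (t := insert none (Z.image some) ×ˢ insert none (Z.image some))
    (f := fun j => (o 0 j, o 1 j)) (n := k)
    (fun j _ => Finset.mem_product.2 ⟨ho1 0 j, ho1 1 j⟩)
    ⟨(none, none), Finset.mem_product.2 ⟨Finset.mem_insert_self _ _,
      Finset.mem_insert_self _ _⟩⟩ (by
      have h1 : (insert none (Z.image some)).card ≤ Z.card + 1 :=
        (Finset.card_insert_le _ _).trans (Nat.succ_le_succ Finset.card_image_le)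
      rw [Finset.card_product]
      have h2 : (insert none (Z.image some)).card * (insert none (Z.image some)).card * k ≤
          (Z.card + 1) ^ 2 * k := by
        rw [sq]
        exact Nat.mul_le_mul_right _ (Nat.mul_le_mul h1 h1)
      omega)
  obtain ⟨J1, hJ1, hJ1c⟩ := Finset.exists_subset_card_eq ht
  let e := Finset.equivFinOfCardEq hJ1c
  let g : Fin k → Fin q' := fun j => (e.symm j : Fin q')
  have hg : ∀ i j, i ≠ j → g i ≠ g j := fun i j h h' => h (e.symm.injective (Subtype.ext h'))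
  have hgJ : ∀ j, g j ∈ J ∧ (o 0 (g j), o 1 (g j)) = t := fun j =>
    Finset.mem_filter.1 (hJ1 (e.symm j).2)
  have hsame : ∀ (i : Fin 2) (j j' : Fin k),
      RI G (img (φ (Sum.inl i))) (x i (g j)).1 (x i (g j')).1 := by
    intro i j j'
    have h1 : o i (g j) = o i (g j') := by
      have h2 := (hgJ j).2.trans (hgJ j').2.symm
      rw [Prod.mk.injEq] at h2
      fin_cases i
      · exact h2.1
      · exact h2.2
    cases h3 : o i (g j) with
    | none => exact ho3 i (g j) h3 _ ⟨_, hx i (g j'), rfl⟩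
    | some z =>
      exact (ho2 i (g j) z h3).trans (ho2 i (g j') z (h1 ▸ h3)).symm
  let j0 : Fin k := ⟨0, hk⟩
  have hD : ∀ i : Fin 2, (G.induce {y | RI G (img (φ (Sum.inl i))) (x i (g j0)).1 y}).Connected :=
    fun i => comp_conn ⟨_, hx i _, rfl⟩
  refine ⟨{y | RI G (img (φ (Sum.inl 0))) (x 0 (g j0)).1 y},
    {y | RI G (img (φ (Sum.inl 1))) (x 1 (g j0)).1 y}, fun j => img (φ (Sum.inr (g j))),
    ?_, ?_, hD 0, hD 1, ?_, ?_, fun j => hLc _ (hgJ j).1, ?_, ?_, ?_, ?_, ?_⟩
  · intro v hv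
    obtain ⟨w, _, rfl⟩ := hv.2.1
    exact w.2
  · intro v hv
    obtain ⟨w, _, rfl⟩ := hv.2.1
    exact w.2
  · refine Set.disjoint_of_subset (fun v hv => hv.2.1) (fun v hv => hv.2.1)
      (himgd _ _ (hφd (Sum.inl 0) (Sum.inl 1) (by simp)))
  · rintro j _ ⟨y, hy, rfl⟩
    exact hLK _ (hgJ j).1 y hy
  · intro j
    exact Set.disjoint_of_subset_left (fun v hv => hv.2.1)
      (himgd _ _ (hφd (Sum.inl 0) (Sum.inr (g j)) (by simp)))
  · intro j
    exact Set.disjoint_of_subset_left (fun v hv => hv.2.1)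
      (himgd _ _ (hφd (Sum.inl 1) (Sum.inr (g j)) (by simp)))
  · intro i j hij
    exact himgd _ _ (hφd _ _ fun h => hg i j hij (Sum.inr.inj h))
  · intro j
    obtain ⟨y, hy, hxy⟩ := hxa 0 (g j) (hgJ j).1
    exact ⟨_, hsame 0 j0 j, y, hy, hxy⟩
  · intro j
    obtain ⟨y, hy, hxy⟩ := hxa 1 (g j) (hgJ j).1
    exact ⟨_, hsame 1 j0 j, y, hy, hxy⟩

end

end TWk
end

section

/-!
# MP_cfc9ed_co: many connected sets with `r` neighbours in a small set
-/

set_option autoImplicit false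

namespace TWk

open SimpleGraph Relation

/-- cliques in degenerate graphs: if every nonempty subset of `X` has a vertex of degree at most `D` inside
the subset, and more than `2 ^ D * N * X.card` indices `i ∈ I` carry nonempty cliques `T i ⊆ X`, then `N` of
the cliques are equal.
Proof by induction on `X.card`: let `x ∈ X` have degree at most `D` in `X`. The `T i` with `x ∈ T i` are
contained in `insert x (neighbours of x in X)` and contain `x`, so there are at most `2 ^ D` different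
ones; if more than `2 ^ D * N` indices (at least that) have `x ∈ T i`, pigeonhole. Otherwise delete `x` and
these indices. -/
theorem clique_types {V ι : Type*} [DecidableEq V] (J : SimpleGraph V) (D N : ℕ) :
    ∀ (X : Finset V) (I : Finset ι) (T : ι → Finset V),
    (∀ W ⊆ X, W.Nonempty → ∃ x ∈ W, dW J W x ≤ D) →
    (∀ i ∈ I, T i ⊆ X ∧ (T i).Nonempty ∧ ∀ x ∈ T i, ∀ y ∈ T i, x ≠ y → J.Adj x y) →
    2 ^ D * N * X.card < I.card →
    ∃ (T0 : Finset V) (g : Fin N → ι), Function.Injective g ∧ ∀ j, g j ∈ I ∧ T (g j) = T0 := by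
  classical
  intro X
  induction hn : X.card generalizing X with
  | zero =>
    intro I T _ hT hcard
    have hX : X = ∅ := Finset.card_eq_zero.1 hn
    have hI : I.Nonempty := by
      rw [← Finset.card_pos]
      omega
    obtain ⟨i, hi⟩ := hI
    obtain ⟨h1, ⟨x, hx⟩, -⟩ := hT i hi
    rw [hX] at h1
    exact absurd (h1 hx) (Finset.notMem_empty x)
  | succ m ih =>
    intro I T hdeg hT hcard
    have hXne : X.Nonempty := by
      rw [← Finset.card_pos]
      omega
    obtain ⟨x, hxX, hx⟩ := hdeg X (Finset.Subset.refl X) hXne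
    by_cases hA : 2 ^ D * N ≤ (I.filter fun i => x ∈ T i).card
    · have hmaps : ∀ i ∈ I.filter fun i => x ∈ T i,
          (T i).erase x ∈ (X.filter fun u => J.Adj x u).powerset := by
        intro i hi
        obtain ⟨hiI, hxi⟩ := Finset.mem_filter.1 hi
        obtain ⟨h1, -, h3⟩ := hT i hiI
        rw [Finset.mem_powerset]
        intro y hy
        obtain ⟨hyx, hyi⟩ := Finset.mem_erase.1 hy
        exact Finset.mem_filter.2 ⟨h1 hyi, h3 x hxi y hyi (Ne.symm hyx)⟩
      have hpc : (X.filter fun u => J.Adj x u).powerset.card * N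
          ≤ (I.filter fun i => x ∈ T i).card := by
        refine le_trans (Nat.mul_le_mul_right N ?_) hA
        rw [Finset.card_powerset]
        exact Nat.pow_le_pow_right (by norm_num) hx
      obtain ⟨Y, -, hY⟩ := Finset.exists_le_card_fiber_of_mul_le_card_of_maps_to hmaps
        ⟨∅, Finset.empty_mem_powerset _⟩ hpc
      obtain ⟨S, hS1, hS2⟩ := Finset.exists_subset_card_eq hY
      refine ⟨insert x Y, fun j => (S.equivFinOfCardEq hS2).symm j, ?_, ?_⟩
      · intro i j hij
        exact (S.equivFinOfCardEq hS2).symm.injective (Subtype.ext hij)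
      · intro j
        have hj := hS1 (Finset.coe_mem ((S.equivFinOfCardEq hS2).symm j))
        obtain ⟨hj1, hj2⟩ := Finset.mem_filter.1 hj
        obtain ⟨hj3, hj4⟩ := Finset.mem_filter.1 hj1
        refine ⟨hj3, ?_⟩
        rw [← hj2, Finset.insert_erase hj4]
    · push Not at hA
      have hsplit : (I.filter fun i => x ∈ T i).card + (I.filter fun i => ¬ x ∈ T i).card = I.card :=
        Finset.card_filter_add_card_filter_not _
      have hXe : (X.erase x).card = m := by
        rw [Finset.card_erase_of_mem hxX]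
        omega
      have hcard' : 2 ^ D * N * m < (I.filter fun i => ¬ x ∈ T i).card := by
        rw [Nat.mul_succ] at hcard
        omega
      obtain ⟨T0, g, hg1, hg2⟩ := ih (X.erase x) hXe (I.filter fun i => ¬ x ∈ T i) T
        (fun W hW => hdeg W (hW.trans (Finset.erase_subset x X))) (by
          intro i hi
          obtain ⟨hiI, hxi⟩ := Finset.mem_filter.1 hi
          obtain ⟨h1, h2, h3⟩ := hT i hiI
          refine ⟨fun y hy => Finset.mem_erase.2 ⟨?_, h1 hy⟩, h2, h3⟩
          rintro rfl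
          exact hxi hy) hcard'
      exact ⟨T0, g, hg1, fun j => ⟨(Finset.mem_filter.1 (hg2 j).1).1, (hg2 j).2⟩⟩

/-- the set `{x}` with the sets `F i` attached to `x` -/
private def NBset {V : Type*} (X : Finset V) {n : ℕ} (F : Fin n → Set V) (φ : Fin n → Option X)
    (x : X) : Set V :=
  {v | v = x.1 ∨ ∃ i, φ i = some x ∧ v ∈ F i}

private theorem NBset_conn {V : Type*} {G : SimpleGraph V} {X : Finset V} {n : ℕ}
    {F : Fin n → Set V} (hF : ∀ i, (G.induce (F i)).Connected) {φ : Fin n → Option X}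
    (hφ : ∀ i x, φ i = some x → x.1 ∈ nS G X (F i)) (x : X) :
    (G.induce (NBset X F φ x)).Connected := by
  refine conn_of_RI (c := x.1) (Or.inl rfl) ?_
  rintro v (rfl | ⟨i, hi, hv⟩)
  · exact RI.refl (Or.inl rfl)
  · obtain ⟨-, y, hy, hxy⟩ := mem_nS.1 (hφ i x hi)
    have hsub : F i ⊆ NBset X F φ x := fun z hz => Or.inr ⟨i, hi, hz⟩
    have e1 : RI G (NBset X F φ x) x.1 y := RI.adj (Or.inl rfl) (hsub hy) hxy
    exact e1.trans ((RI_of_conn (hF i) hy hv).mono hsub)

private theorem NBset_disj {V : Type*} {X : Finset V} {n : ℕ}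
    {F : Fin n → Set V} (hd : ∀ i j, i ≠ j → Disjoint (F i) (F j)) (hX : ∀ i, ∀ x ∈ F i, x ∉ X)
    (φ : Fin n → Option X) (x y : X) (hne : x ≠ y) :
    Disjoint (NBset X F φ x) (NBset X F φ y) := by
  rw [Set.disjoint_left]
  rintro v (rfl | ⟨i, hi, hv⟩) (h | ⟨j, hj, hw⟩)
  · exact hne (Subtype.ext h)
  · exact hX j _ hw x.2
  · rw [h] at hv
    exact hX i _ hv y.2
  · have hij : i ≠ j := by
      rintro rfl
      rw [hi] at hj
      exact hne (Option.some.inj hj)
    exact Set.disjoint_left.1 (hd i j hij) hv hw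

private theorem NB_dW_mono {V : Type*} {G H : SimpleGraph V} (h : G ≤ H) (W : Finset V) (v : V) :
    dW G W v ≤ dW H W v := by
  classical
  unfold dW
  refine Finset.card_le_card ?_
  intro u hu
  obtain ⟨h1, h2⟩ := Finset.mem_filter.1 hu
  exact Finset.mem_filter.2 ⟨h1, h h2⟩

private theorem NB_dW_lt {V : Type*} {G H : SimpleGraph V} (h : G ≤ H) (W : Finset V) {v w : V}
    (hw : w ∈ W) (h1 : ¬ G.Adj v w) (h2 : H.Adj v w) :
    dW G W v < dW H W v := by
  classical
  unfold dW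
  refine Finset.card_lt_card ?_
  rw [Finset.ssubset_iff_of_subset]
  · exact ⟨w, Finset.mem_filter.2 ⟨hw, h2⟩, fun hc => h1 (Finset.mem_filter.1 hc).2⟩
  · intro u hu
    obtain ⟨h3, h4⟩ := Finset.mem_filter.1 hu
    exact Finset.mem_filter.2 ⟨h3, h h4⟩

private theorem NB_sg_add {V : Type*} {G H : SimpleGraph V} (h : G ≤ H) (W : Finset V) {x y : V}
    (hx : x ∈ W) (hy : y ∈ W) (hne : x ≠ y) (h1 : ¬ G.Adj x y) (h2 : H.Adj x y) :
    sg G W + 2 ≤ sg H W := by
  classical
  unfold sg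
  rw [← Finset.add_sum_erase W _ hx, ← Finset.add_sum_erase W (dW H W) hx,
    ← Finset.add_sum_erase (W.erase x) _ (Finset.mem_erase.2 ⟨hne.symm, hy⟩),
    ← Finset.add_sum_erase (W.erase x) (dW H W) (Finset.mem_erase.2 ⟨hne.symm, hy⟩)]
  have e1 := NB_dW_lt h W hy h1 h2
  have e2 := NB_dW_lt h W hx (fun hc => h1 hc.symm) h2.symm
  have e3 : ∑ v ∈ (W.erase x).erase y, dW G W v ≤ ∑ v ∈ (W.erase x).erase y, dW H W v :=
    Finset.sum_le_sum fun v _ => NB_dW_mono h W v
  omega

/-- **many connected sets with `r` neighbours in a small set**: `N` of them have `r` common neighbours.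
Proof. `C0 = 2 ^ (a + 1) * k`. For a partial map `φ : Fin n → Option X` with `x ∈ nS G X (F i)` if
`φ i = some x`, let `B φ x = {x} ∪ ⋃ (φ i = some x), F i` (`x : X`): pairwise disjoint connected sets, and
`J φ = Qt G (B φ)` (a graph on the subtype `X`). By `Qt_sparse` (X nonempty, else there is no `i`)
`sg (J φ) W < C0 * W.card` for all nonempty `W`; in particular every nonempty `W` has a vertex with
`dW (J φ) W x < C0`. Choose `φ` with `2 * |dom φ| ≤ sg (J φ) univ` such that `sg (J φ) univ` is maximal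
(`φ = none` everywhere is allowed). If `i ∉ dom φ` and `x ≠ y` are in `nS G X (F i)` then `x`, `y` are
adjacent in `J φ`: otherwise put `φ i = some x`: all adjacencies remain (the sets grow) and the pair `x y` is
new, so `sg` grows by at least `2` and `|dom φ|` by `1`, contradiction. So `nS G X (F i)` is a clique of
`J φ` for the at least `n - C0 * X.card` indices outside of `dom φ`; choose `T i ⊆ nS G X (F i)` with `r`
elements and apply `clique_types` with `D = C0`. `C = C0 + 2 ^ C0 * N` works. -/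
theorem many_types (a k r N : ℕ) (hk : 1 ≤ k) (hr : 1 ≤ r) : ∃ C, ∀ (V : Type) [Fintype V]
    (G : SimpleGraph V), ¬ HasK G a k → ∀ (X : Finset V) (n : ℕ) (F : Fin n → Set V),
    (∀ i, (G.induce (F i)).Connected) → (∀ i j, i ≠ j → Disjoint (F i) (F j)) →
    (∀ i, ∀ x ∈ F i, x ∉ X) → (∀ i, r ≤ (nS G X (F i)).card) → C * X.card < n →
    ∃ T ⊆ X, T.card = r ∧ ∃ g : Fin N → Fin n, Function.Injective g ∧
      ∀ j, T ⊆ nS G X (F (g j)) := by
  classical
  refine ⟨2 ^ (a + 1) * k + 2 ^ (2 ^ (a + 1) * k) * (N + 1), ?_⟩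
  intro V _ G hK X n F hF hd hX hr' hn
  have hnpos : 0 < n := by omega
  have hXne : X.Nonempty := by
    have h1 := hr' ⟨0, hnpos⟩
    have h2 : 0 < (nS G X (F ⟨0, hnpos⟩)).card := by omega
    obtain ⟨x, hx⟩ := Finset.card_pos.1 h2
    exact ⟨x, (mem_nS.1 hx).1⟩
  have huniv : (Finset.univ : Finset X).card = X.card := by
    rw [Finset.card_univ, Fintype.card_coe]
  have hune : (Finset.univ : Finset X).Nonempty := by
    rw [← Finset.card_pos, huniv, Finset.card_pos]
    exact hXne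
  -- the valid partial maps
  let P : (Fin n → Option X) → Prop := fun φ =>
    (∀ i x, φ i = some x → x.1 ∈ nS G X (F i)) ∧
      2 * (Finset.univ.filter fun i => φ i ≠ none).card ≤ sg (Qt G (NBset X F φ)) Finset.univ
  have hsparse : ∀ φ, P φ → ∀ W : Finset X, W.Nonempty →
      sg (Qt G (NBset X F φ)) W < 2 ^ (a + 1) * k * W.card := fun φ hφ W hW =>
    Qt_sparse hk (NBset_conn hF hφ.1) (NBset_disj hd hX φ) hK W hW
  have hP0 : P fun _ => none := by
    refine ⟨fun i x h => by simp at h, ?_⟩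
    simp
  obtain ⟨φ, hφmem, hφmax⟩ := Finset.exists_max_image
    ((Finset.univ : Finset (Fin n → Option X)).filter P)
    (fun φ => sg (Qt G (NBset X F φ)) Finset.univ)
    ⟨_, Finset.mem_filter.2 ⟨Finset.mem_univ _, hP0⟩⟩
  have hφ : P φ := (Finset.mem_filter.1 hφmem).2
  have hclique : ∀ i, φ i = none → ∀ x y : X, x.1 ∈ nS G X (F i) → y.1 ∈ nS G X (F i) → x ≠ y →
      (Qt G (NBset X F φ)).Adj x y := by
    intro i hi x y hx hy hxy
    by_contra hnadj
    have hsub : ∀ z, NBset X F φ z ⊆ NBset X F (Function.update φ i (some x)) z := by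
      rintro z v (h | ⟨j, hj, hv⟩)
      · exact Or.inl h
      · refine Or.inr ⟨j, ?_, hv⟩
        rw [Function.update_of_ne]
        · exact hj
        · rintro rfl
          rw [hi] at hj
          simp at hj
    have hle : Qt G (NBset X F φ) ≤ Qt G (NBset X F (Function.update φ i (some x))) := by
      rintro u v ⟨h1, p, hp, q, hq, hpq⟩
      exact ⟨h1, p, hsub u hp, q, hsub v hq, hpq⟩
    have hadj : (Qt G (NBset X F (Function.update φ i (some x)))).Adj x y := by
      obtain ⟨-, w, hw, hyw⟩ := mem_nS.1 hy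
      exact ⟨hxy, w, Or.inr ⟨i, Function.update_self .., hw⟩, y.1, Or.inl rfl, hyw.symm⟩
    have h2 := NB_sg_add hle Finset.univ (Finset.mem_univ x) (Finset.mem_univ y) hxy hnadj hadj
    have hcard : (Finset.univ.filter fun j => Function.update φ i (some x) j ≠ none).card
        ≤ (Finset.univ.filter fun j => φ j ≠ none).card + 1 := by
      refine le_trans (Finset.card_le_card (t := insert i (Finset.univ.filter fun j => φ j ≠ none))
        ?_) (Finset.card_insert_le _ _)
      intro j hj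
      by_cases hji : j = i
      · exact Finset.mem_insert.2 (Or.inl hji)
      · have hj' := (Finset.mem_filter.1 hj).2
        rw [Function.update_of_ne hji] at hj'
        exact Finset.mem_insert.2 (Or.inr (Finset.mem_filter.2 ⟨Finset.mem_univ _, hj'⟩))
    have hP' : P (Function.update φ i (some x)) := by
      refine ⟨?_, ?_⟩
      · intro j z hj
        by_cases hji : j = i
        · subst hji
          rw [Function.update_self] at hj
          rw [← Option.some.inj hj]
          exact hx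
        · rw [Function.update_of_ne hji] at hj
          exact hφ.1 j z hj
      · have h3 := hφ.2
        omega
    have h4 := hφmax _ (Finset.mem_filter.2 ⟨Finset.mem_univ _, hP'⟩)
    omega
  -- choose the sets of size `r`
  choose S hS1 hS2 using fun i => Finset.exists_subset_card_eq (hr' i)
  have hSX : ∀ i, S i ⊆ X := fun i x hx => (mem_nS.1 (hS1 i hx)).1
  have hdom : (Finset.univ.filter fun i => φ i ≠ none).card ≤ 2 ^ (a + 1) * k * X.card := by
    have h1 := hφ.2
    have h2 := hsparse φ hφ Finset.univ hune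
    rw [huniv] at h2
    omega
  have hI : 2 ^ (2 ^ (a + 1) * k) * (N + 1) * (Finset.univ : Finset X).card
      < (Finset.univ.filter fun i => ¬ φ i ≠ none).card := by
    have h1 : (Finset.univ.filter fun i => φ i ≠ none).card
        + (Finset.univ.filter fun i => ¬ φ i ≠ none).card = (Finset.univ : Finset (Fin n)).card :=
      Finset.card_filter_add_card_filter_not _
    rw [Finset.card_univ, Fintype.card_fin] at h1
    rw [huniv]
    rw [add_mul] at hn
    omega
  obtain ⟨T0, g, hg1, hg2⟩ := clique_types (Qt G (NBset X F φ)) (2 ^ (a + 1) * k) (N + 1)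
    (Finset.univ : Finset X) (Finset.univ.filter fun i => ¬ φ i ≠ none)
    (fun i => (S i).subtype (· ∈ X)) (by
      intro W _ hW
      have h1 := hsparse φ hφ W hW
      by_contra hcon
      push Not at hcon
      have h2 : W.card * (2 ^ (a + 1) * k) ≤ sg (Qt G (NBset X F φ)) W := by
        unfold sg
        rw [← smul_eq_mul]
        exact Finset.card_nsmul_le_sum _ _ _ fun x hx => (hcon x hx).le
      rw [mul_comm] at h2
      omega) (by
      intro i hi
      have hi' : φ i = none := by simpa using hi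
      refine ⟨Finset.subset_univ _, ?_, ?_⟩
      · have h1 : 0 < (S i).card := by
          rw [hS2]
          omega
        obtain ⟨x, hx⟩ := Finset.card_pos.1 h1
        exact ⟨⟨x, hSX i hx⟩, Finset.mem_subtype.2 hx⟩
      · intro x hx y hy hxy
        exact hclique i hi' x y (hS1 i (Finset.mem_subtype.1 hx)) (hS1 i (Finset.mem_subtype.1 hy))
          hxy) hI
  refine ⟨S (g 0), hSX _, hS2 _, fun j => g j.castSucc, ?_, ?_⟩
  · intro i j hij
    exact Fin.castSucc_injective _ (hg1 hij)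
  · intro j x hx
    have h1 : (S (g j.castSucc)).subtype (· ∈ X) = (S (g 0)).subtype (· ∈ X) := by
      rw [(hg2 j.castSucc).2, (hg2 0).2]
    have h2 : (⟨x, hSX _ hx⟩ : X) ∈ (S (g 0)).subtype (· ∈ X) := Finset.mem_subtype.2 hx
    rw [← h1] at h2
    exact hS1 _ (Finset.mem_subtype.1 h2)

end TWk
end
end
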