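import Pool.Agent.Lib.MP_cfc9ed_co.R8
import Pool.Agent.Lib.MP_cfc9ed_co.D6

section

/-!
# MP_cfc9ed_co: rooted leaves behind a vertex of a path
-/

set_option autoImplicit false

namespace TWk

open SimpleGraph Relation Pool.Agent.Lib.MP_699f60_co

/-- two disjoint connected sets between `S` and `T` -/
theorem two_sets {V : Type*} [Fintype V] {G : SimpleGraph V} {R S T : Set V} (v0 : V)
    (h : ∀ v : V, ∃ s ∈ S, ∃ t ∈ T, RI G (R \ {v}) s t) :
    ∃ Q1 Q2 : Set V, Q1 ⊆ R ∧ Q2 ⊆ R ∧ (G.induce Q1).Connected ∧ (G.induce Q2).Connected ∧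
      Disjoint Q1 Q2 ∧ (∃ s ∈ Q1, s ∈ S) ∧ (∃ s ∈ Q2, s ∈ S) ∧ (∃ t ∈ Q1, t ∈ T) ∧
      ∃ t ∈ Q2, t ∈ T := by
  classical
  have hl : Linked (Gr G R) (S ∩ R) T 2 := by
    refine linked_of _ _ _ fun Y hY => ?_
    obtain ⟨v, hv⟩ : ∃ v : V, ∀ y ∈ Y, y = v := by
      by_cases hne : Y.Nonempty
      · obtain ⟨v, hv⟩ := hne
        exact ⟨v, fun y hy => Finset.card_le_one.1 (by omega) y hy v hv⟩
      · rw [Finset.not_nonempty_iff_eq_empty] at hne
        exact ⟨v0, fun y hy => by rw [hne] at hy; simp at hy⟩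
    obtain ⟨s, hs, t, ht, hst⟩ := h v
    refine ⟨s, ⟨hs, hst.1.1⟩, t, ht, hst.map (fun w hw hwY => hw.2 (hv w hwY)) ?_⟩
    intro a ha b hb hab
    exact ⟨hab, ha.1, hb.1⟩
  obtain ⟨w, hw, hwd⟩ := hl
  have key : ∀ i, {v | v ∈ w i} ⊆ R ∧ (G.induce {v | v ∈ w i}).Connected ∧
      (∃ s ∈ {v | v ∈ w i}, s ∈ S) ∧ ∃ t ∈ {v | v ∈ w i}, t ∈ T := by
    intro i
    obtain ⟨h1, ⟨s, hs, hs'⟩, ⟨t, ht, ht'⟩⟩ := hw i
    refine ⟨?_, ?_, ⟨s, List.mem_of_head? hs', hs.1⟩, ⟨t, List.mem_of_getLast? ht', ht⟩⟩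
    · intro v hv
      refine list_Gr (w i) h1 (fun b hb => ?_) v hv
      rw [hs'] at hb
      rw [← Option.some.inj hb]
      exact hs.2
    · refine conn_list (w i) ?_ (h1.imp fun u v h => h.1)
      intro h
      rw [h] at hs'
      simp at hs'
  refine ⟨{v | v ∈ w 0}, {v | v ∈ w 1}, (key 0).1, (key 1).1, (key 0).2.1, (key 1).2.1, ?_,
    (key 0).2.2.1, (key 1).2.2.1, (key 0).2.2.2, (key 1).2.2.2⟩
  rw [Set.disjoint_left]
  intro v hv hv'
  exact hwd 0 1 (by decide) hv hv'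

/-- a connected set `R` behind `x` which contains two neighbours of `x` -/
theorem fan_leaf {V : Type*} [Fintype V] {G : SimpleGraph V} (hG : Conn G 3) {A R : Set V}
    {x e a0 : V} (ha0 : a0 ∈ A) (hxA : x ∉ A) (hR : (G.induce R).Connected)
    (he : e ∈ R) (hxR : x ∉ R) (hRA : ∀ v ∈ R, v ∉ A)
    (hcl : ∀ v ∈ R, v ≠ e → ∀ w, G.Adj v w → w ∈ A ∨ w = x ∨ w ∈ R) {y1 y2 : V} (hy1 : y1 ∈ R)
    (hy2 : y2 ∈ R) (hne : y1 ≠ y2) (hxy1 : G.Adj x y1) (hxy2 : G.Adj x y2) :
    ∃ R' C : Set V, R' ⊆ R ∧ C ⊆ R ∧ (G.induce R').Connected ∧ (G.induce C).Connected ∧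
      Disjoint R' C ∧ e ∈ R' ∧ (∃ y ∈ R', G.Adj x y) ∧ (∃ y ∈ C, G.Adj x y) ∧
      ∃ a ∈ A, ∃ y ∈ C, G.Adj a y := by
  classical
  obtain ⟨Q1, Q2, h1, h2, h3, h4, h5, h6, h7, h8, h9⟩ := two_sets (G := G) (R := R)
    (S := {y | y ∈ R ∧ G.Adj x y}) (T := {t | t = e ∨ ∃ a ∈ A, G.Adj a t}) x (by
    intro v
    by_contra hcon
    push Not at hcon
    obtain ⟨y, hyR, hxy, hyv⟩ : ∃ y ∈ R, G.Adj x y ∧ y ≠ v := by
      by_cases h : y1 = v
      · exact ⟨y2, hy2, hxy2, fun h' => hne (h.trans h'.symm)⟩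
      · exact ⟨y1, hy1, hxy1, h⟩
    have hyv' : y ∈ R \ {v} := ⟨hyR, hyv⟩
    have hno : ∀ t, RI G (R \ {v}) y t → t ≠ e ∧ ∀ a ∈ A, ¬ G.Adj a t := by
      intro t ht
      have h1 := fun h => hcon y ⟨hyR, hxy⟩ t h ht
      refine ⟨fun h => h1 (Or.inl h), fun a ha h => h1 (Or.inr ⟨a, ha, h⟩)⟩
    have h1 := sep hG {w | RI G (R \ {v}) y w} {x, v} (d := y) (z := a0) (RI.refl hyv') ?_ ?_ ?_ ?_
    · have := Finset.card_le_two (a := x) (b := v)
      omega
    · rw [Finset.mem_insert, Finset.mem_singleton, not_or]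
      exact ⟨fun h => hxR (h ▸ hyR), hyv⟩
    · intro w hw z hwz
      have h2 := hno w hw
      rcases hcl w hw.2.1.1 h2.1 z hwz with h | h | h
      · exact absurd hwz.symm (h2.2 z h)
      · right; rw [h]; simp
      · by_cases hzv : z = v
        · right; rw [hzv]; simp
        · exact Or.inl (RI.trans hw (RI.adj hw.2.1 ⟨h, hzv⟩ hwz))
    · intro h
      exact hRA a0 h.2.1.1 ha0
    · intro h
      rcases Finset.mem_insert.1 h with h | h
      · exact hxA (by rw [← h]; exact ha0)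
      · have hav : a0 = v := Finset.mem_singleton.1 h
        -- then `v` is not in `R` and `R` is connected
        have hRv : R \ {v} = R := by
          ext w
          constructor
          · exact fun h => h.1
          · intro hw
            exact ⟨hw, fun h' => hRA w hw (by rw [Set.mem_singleton_iff.1 h', ← hav]; exact ha0)⟩
        have h3 := RI_of_conn hR hyR he
        rw [← hRv] at h3
        exact (hno e h3).1 rfl)
  have hS : ∀ {Q : Set V}, (∃ s ∈ Q, s ∈ {y | y ∈ R ∧ G.Adj x y}) → ∃ y ∈ Q, G.Adj x y := by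
    rintro Q ⟨s, hs, hs'⟩
    exact ⟨s, hs, hs'.2⟩
  have hT : ∀ {Q : Set V}, e ∉ Q → (∃ t ∈ Q, t ∈ {t | t = e ∨ ∃ a ∈ A, G.Adj a t}) →
      ∃ a ∈ A, ∃ y ∈ Q, G.Adj a y := by
    rintro Q hQ ⟨t, ht, ht' | ⟨a, ha, hat⟩⟩
    · exact absurd ht (by rw [ht']; exact hQ)
    · exact ⟨a, ha, t, ht, hat⟩
  by_cases he1 : e ∈ Q1
  · exact ⟨Q1, Q2, h1, h2, h3, h4, h5, he1, hS h6, hS h7,
      hT (fun h => Set.disjoint_left.1 h5 he1 h) h9⟩
  by_cases he2 : e ∈ Q2
  · exact ⟨Q2, Q1, h2, h1, h4, h3, h5.symm, he2, hS h7, hS h6, hT he1 h8⟩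
  -- connect `e` to `Q1 ∪ Q2`
  have heY : e ∈ R \ (Q1 ∪ Q2) := ⟨he, by
    rintro (h | h)
    · exact he1 h
    · exact he2 h⟩
  set Z : Set V := {v | RI G (R \ (Q1 ∪ Q2)) e v} with hZ
  have hZR : Z ⊆ R := fun v hv => hv.2.1.1
  have hZc : (G.induce Z).Connected := comp_conn heY
  obtain ⟨z, hz, w, hw, hzw⟩ : ∃ z ∈ Z, ∃ w ∈ Q1 ∪ Q2, G.Adj z w := by
    by_contra hcon
    push Not at hcon
    obtain ⟨s, hs, -⟩ := h6
    have h10 : s ∈ Z := by
      refine RI.closed (RI_of_conn hR he (h1 hs)) (RI.refl heY) ?_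
      intro v hv _ w hw hvw
      have hv' : RI G (R \ (Q1 ∪ Q2)) e v := hv
      by_cases hwQ : w ∈ Q1 ∪ Q2
      · exact absurd hvw (hcon v hv w hwQ)
      · exact RI.trans hv' (RI.adj hv'.2.1 ⟨hw, hwQ⟩ hvw)
    exact h10.2.1.2 (Or.inl hs)
  have hZd : ∀ v ∈ Z, v ∉ Q1 ∧ v ∉ Q2 := fun v hv =>
    ⟨fun h => hv.2.1.2 (Or.inl h), fun h => hv.2.1.2 (Or.inr h)⟩
  rcases hw with hw | hw
  · refine ⟨Z ∪ Q1, Q2, Set.union_subset hZR h1, h2, conn_union hZc h3 hz hw (Or.inr hzw), h4, ?_,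
      Or.inl (RI.refl heY), ?_, hS h7, hT he2 h9⟩
    · rw [Set.disjoint_left]
      rintro v (hv | hv) hv'
      · exact (hZd v hv).2 hv'
      · exact Set.disjoint_left.1 h5 hv hv'
    · obtain ⟨y, hy, hxy⟩ := hS h6
      exact ⟨y, Or.inr hy, hxy⟩
  · refine ⟨Z ∪ Q2, Q1, Set.union_subset hZR h2, h1, conn_union hZc h4 hz hw (Or.inr hzw), h3, ?_,
      Or.inl (RI.refl heY), ?_, hS h6, hT he1 h8⟩
    · rw [Set.disjoint_left]
      rintro v (hv | hv) hv'
      · exact (hZd v hv).1 hv'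
      · exact Set.disjoint_left.1 h5 hv' hv
    · obtain ⟨y, hy, hxy⟩ := hS h7
      exact ⟨y, Or.inr hy, hxy⟩

/-- **the rooted local lemma** -/
theorem local_root {V : Type*} {G : SimpleGraph V} [Fintype V] (hG : Conn G 3) {A : Set V} {r : V}
    {L : ℕ} {u : ℕ → V} (P : PD G Aᶜ r L u) {l c m : ℕ} (h1 : l < c) (h2 : c < m) (h3 : m ≤ L)
    (hcA : ∃ a ∈ A, G.Adj a (u c)) :
    (∃ R C, Leaf G A u l c m R C ∧ (u c ∈ C ∨ ∃ y ∈ C, G.Adj (u c) y)) ∨
      ∃ x y, ∀ w, G.Adj (u c) w → w ∈ A ∨ w = x ∨ w = y := by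
  classical
  obtain ⟨a0, ha0, hac⟩ := hcA
  set Ω : Set V := Aᶜ \ {u l, u m} with hΩ
  set D : Set V := {v | RI G Ω (u c) v} with hD
  set Dp : Set V := {v | v = u l ∨ v = u m ∨ v ∈ D} with hDp
  have hopen : ∀ i, l < i → i < m → u i ∈ D := fun i hi1 hi2 => open_seg P h1 h2 h3 hi1 hi2
  have hinj : ∀ i ≤ L, ∀ j ≤ L, i ≠ j → u i ≠ u j := fun i hi j hj hij h =>
    hij (P.inj i hi j hj h)
  have hcD : u c ∈ D := hopen c h1 h2
  have hDA : ∀ v ∈ D, v ∉ A := fun v hv => hv.2.1.1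
  have hlA : u l ∉ A := P.mem l (by omega)
  have hmA : u m ∉ A := P.mem m h3
  have hcAn : u c ∉ A := hDA _ hcD
  have hDpA : ∀ v ∈ Dp, v ∉ A := by
    rintro v (h | h | h)
    · rw [h]; exact hlA
    · rw [h]; exact hmA
    · exact hDA v h
  have hstep : ∀ v ∈ D, ∀ w, G.Adj v w → w ∈ A ∨ w ∈ Dp := by
    intro v hv w hvw
    by_cases hwA : w ∈ A
    · exact Or.inl hwA
    · right
      by_cases hw : w = u l ∨ w = u m
      · rcases hw with hw | hw
        · exact Or.inl hw
        · exact Or.inr (Or.inl hw)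
      · exact Or.inr (Or.inr (RI.trans hv (RI.adj hv.2.1 ⟨hwA, hw⟩ hvw)))
  set X : Set V := Dp \ {u c} with hX
  have hlX : u l ∈ X := ⟨Or.inl rfl, hinj l (by omega) c (by omega) (by omega)⟩
  have hmX : u m ∈ X := ⟨Or.inr (Or.inl rfl), hinj m (by omega) c (by omega) (by omega)⟩
  set Lc : Set V := {v | RI G X (u l) v} with hLc
  set Rc : Set V := {v | RI G X (u m) v} with hRc
  have hsegX : ∀ a b, l ≤ a → b ≤ m → (b < c ∨ c < a) → seg u a b ⊆ X := by
    rintro a b ha hb hab v ⟨i, hi1, hi2, rfl⟩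
    refine ⟨?_, hinj i (by omega) c (by omega) (by omega)⟩
    by_cases h4 : i = l
    · exact Or.inl (by rw [h4])
    · by_cases h5 : i = m
      · exact Or.inr (Or.inl (by rw [h5]))
      · exact Or.inr (Or.inr (hopen i (by omega) (by omega)))
  have hsegL : seg u l (c - 1) ⊆ Lc := fun v hv =>
    (RI_of_conn (seg_conn P (by omega) (by omega)) (mem_seg le_rfl (by omega)) hv).mono
      (hsegX l (c - 1) le_rfl (by omega) (Or.inl (by omega)))
  have hsegR : seg u (c + 1) m ⊆ Rc := fun v hv =>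
    (RI_of_conn (seg_conn P (by omega) (by omega)) (mem_seg (by omega) le_rfl) hv).mono
      (hsegX (c + 1) m (by omega) le_rfl (Or.inr (by omega)))
  have hcL : u (c - 1) ∈ Lc := hsegL (mem_seg (by omega) le_rfl)
  have hcR : u (c + 1) ∈ Rc := hsegR (mem_seg le_rfl (by omega))
  have hadjL : G.Adj (u (c - 1)) (u c) := by
    have := P.adj (c - 1) (by omega)
    rwa [show c - 1 + 1 = c by omega] at this
  have hadjR : G.Adj (u c) (u (c + 1)) := P.adj c (by omega)
  have hLcc : (G.induce Lc).Connected := comp_conn hlX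
  have hRcc : (G.induce Rc).Connected := comp_conn hmX
  have hLX : ∀ v ∈ Lc, v ∈ X := fun v hv => hv.2.1
  have hRX : ∀ v ∈ Rc, v ∈ X := fun v hv => hv.2.1
  have hlLc : u l ∈ Lc := RI.refl hlX
  have hmRc : u m ∈ Rc := RI.refl hmX
  -- case 1
  by_cases hcase : u m ∈ Lc
  · left
    refine ⟨Lc, {u c}, ⟨fun v hv => (hLX v hv).1, hlLc, hcase, hLcc, ?_, conn_singleton _, ?_,
      ⟨_, hcL, _, rfl, hadjL⟩, ⟨a0, ha0, _, rfl, hac⟩⟩, Or.inl rfl⟩
    · intro v hv
      rw [Set.mem_singleton_iff.1 hv]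
      exact hcD
    · rw [Set.disjoint_singleton_right]
      exact fun h => (hLX _ h).2 rfl
  have hLR : ∀ v ∈ Lc, v ∉ Rc := by
    intro v hv hv'
    exact hcase (RI.trans hv hv'.symm)
  -- case 2a: pendant parts
  by_cases hpend : ∃ y, G.Adj (u c) y ∧ y ∉ A ∧ y ∉ Lc ∧ y ∉ Rc
  · obtain ⟨y, hcy, hyA, hyL, hyR⟩ := hpend
    left
    have hyD : y ∈ Dp := (hstep _ hcD y hcy).resolve_left hyA
    have hyX : y ∈ X := ⟨hyD, fun h => G.irrefl (by
      rw [Set.mem_singleton_iff.1 h] at hcy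
      exact hcy)⟩
    set Pn : Set V := {v | RI G X y v} with hPn
    have hPnL : ∀ v ∈ Pn, v ∉ Lc := fun v hv h => hyL (RI.trans h hv.symm)
    have hPnR : ∀ v ∈ Pn, v ∉ Rc := fun v hv h => hyR (RI.trans h hv.symm)
    have hPnD : ∀ v ∈ Pn, v ∈ D := by
      intro v hv
      rcases hv.2.1.1 with h | h | h
      · exact absurd hlLc (by rw [← h]; exact hPnL v hv)
      · exact absurd hmRc (by rw [← h]; exact hPnR v hv)
      · exact h
    have hsegd : ∀ v ∈ seg u l m, v ∉ Pn := by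
      rintro v ⟨i, hi1, hi2, rfl⟩ hv
      rcases lt_trichotomy i c with h | h | h
      · exact hPnL _ hv (hsegL (mem_seg hi1 (by omega)))
      · rw [h] at hv
        exact hv.2.1.2 rfl
      · exact hPnR _ hv (hsegR (mem_seg (by omega) hi2))
    refine ⟨seg u l m, Pn, ⟨?_, mem_seg le_rfl (by omega), mem_seg (by omega) le_rfl,
      seg_conn P (by omega) h3, fun v hv => hPnD v hv, comp_conn hyX, ?_,
      ⟨u c, mem_seg h1.le h2.le, y, RI.refl hyX, hcy⟩, ?_⟩, Or.inr ⟨y, RI.refl hyX, hcy⟩⟩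
    · rintro v ⟨i, hi1, hi2, rfl⟩
      by_cases h4 : i = l
      · exact Or.inl (by rw [h4])
      · by_cases h5 : i = m
        · exact Or.inr (Or.inl (by rw [h5]))
        · exact Or.inr (Or.inr (hopen i (by omega) (by omega)))
    · rw [Set.disjoint_left]
      exact hsegd
    · by_contra hcon
      push Not at hcon
      have h4 := sep hG Pn {u c} (d := y) (z := a0) (RI.refl hyX) ?_ ?_ ?_ ?_
      · rw [Finset.card_singleton] at h4
        omega
      · rw [Finset.mem_singleton]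
        exact hyX.2
      · intro v hv w hvw
        rcases hstep v (hPnD v hv) w hvw with h | h
        · exact absurd hvw.symm (hcon w h v hv)
        · by_cases hwc : w = u c
          · right; rw [hwc]; simp
          · exact Or.inl (RI.trans hv (RI.adj hv.2.1 ⟨h, hwc⟩ hvw))
      · intro h
        exact hDA _ (hPnD _ h) ha0
      · rw [Finset.mem_singleton]
        exact fun h => hcAn (by rw [← h]; exact ha0)
  push Not at hpend
  -- closure of the two sides
  have hclR : ∀ v ∈ Rc, v ≠ u m → ∀ w, G.Adj v w → w ∈ A ∨ w = u c ∨ w ∈ Rc := by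
    intro v hv hvm w hvw
    have hvD : v ∈ D := by
      rcases (hRX v hv).1 with h | h | h
      · exact absurd hv (by rw [h]; exact hLR _ hlLc)
      · exact absurd h hvm
      · exact h
    rcases hstep v hvD w hvw with h | h
    · exact Or.inl h
    · by_cases hwc : w = u c
      · exact Or.inr (Or.inl hwc)
      · exact Or.inr (Or.inr (RI.trans hv (RI.adj hv.2.1 ⟨h, hwc⟩ hvw)))
  have hclL : ∀ v ∈ Lc, v ≠ u l → ∀ w, G.Adj v w → w ∈ A ∨ w = u c ∨ w ∈ Lc := by
    intro v hv hvl w hvw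
    have hvD : v ∈ D := by
      rcases (hLX v hv).1 with h | h | h
      · exact absurd h hvl
      · exact absurd hmRc (by rw [← h]; exact hLR v hv)
      · exact h
    rcases hstep v hvD w hvw with h | h
    · exact Or.inl h
    · by_cases hwc : w = u c
      · exact Or.inr (Or.inl hwc)
      · exact Or.inr (Or.inr (RI.trans hv (RI.adj hv.2.1 ⟨h, hwc⟩ hvw)))
  by_cases hR2 : ∃ y1 ∈ Rc, ∃ y2 ∈ Rc, y1 ≠ y2 ∧ G.Adj (u c) y1 ∧ G.Adj (u c) y2
  · obtain ⟨y1, hy1, y2, hy2, hne, hxy1, hxy2⟩ := hR2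
    left
    obtain ⟨R', C, g1, g2, g3, g4, g5, g6, ⟨y, hy, hxy⟩, g8, g9⟩ := fan_leaf hG ha0 hcAn hRcc hmRc
      (fun h => (hRX _ h).2 rfl) (fun v hv => hDpA v (hRX v hv).1) hclR hy1 hy2 hne hxy1 hxy2
    have hc1 := conn_union hLcc (conn_singleton (G := G) (u c)) hcL rfl (Or.inr hadjL)
    have hc2 := conn_union hc1 g3 (Or.inr rfl) hy (Or.inr hxy)
    refine ⟨Lc ∪ {u c} ∪ R', C, ⟨?_, Or.inl (Or.inl hlLc), Or.inr g6, hc2, ?_, g4, ?_, ?_, g9⟩,
      Or.inr g8⟩
    · rintro v ((hv | hv) | hv)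
      · exact (hLX v hv).1
      · rw [Set.mem_singleton_iff.1 hv]
        exact Or.inr (Or.inr hcD)
      · exact (hRX v (g1 hv)).1
    · intro v hv
      have h4 := hRX v (g2 hv)
      rcases h4.1 with h | h | h
      · exact absurd (g2 hv) (by rw [h]; exact hLR _ hlLc)
      · exact absurd hv (by rw [h]; exact fun h' => Set.disjoint_left.1 g5 g6 h')
      · exact h
    · rw [Set.disjoint_left]
      rintro v ((hv | hv) | hv) hv'
      · exact hLR v hv (g2 hv')
      · rw [Set.mem_singleton_iff.1 hv] at hv'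
        exact (hRX _ (g2 hv')).2 rfl
      · exact Set.disjoint_left.1 g5 hv hv'
    · obtain ⟨z, hz, hxz⟩ := g8
      exact ⟨u c, Or.inl (Or.inr rfl), z, hz, hxz⟩
  by_cases hL2 : ∃ y1 ∈ Lc, ∃ y2 ∈ Lc, y1 ≠ y2 ∧ G.Adj (u c) y1 ∧ G.Adj (u c) y2
  · obtain ⟨y1, hy1, y2, hy2, hne, hxy1, hxy2⟩ := hL2
    left
    obtain ⟨R', C, g1, g2, g3, g4, g5, g6, ⟨y, hy, hxy⟩, g8, g9⟩ := fan_leaf hG ha0 hcAn hLcc hlLc
      (fun h => (hLX _ h).2 rfl) (fun v hv => hDpA v (hLX v hv).1) hclL hy1 hy2 hne hxy1 hxy2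
    have hc1 := conn_union hRcc (conn_singleton (G := G) (u c)) hcR rfl (Or.inr hadjR.symm)
    have hc2 := conn_union hc1 g3 (Or.inr rfl) hy (Or.inr hxy)
    refine ⟨Rc ∪ {u c} ∪ R', C, ⟨?_, Or.inr g6, Or.inl (Or.inl hmRc), hc2, ?_, g4, ?_, ?_, g9⟩,
      Or.inr g8⟩
    · rintro v ((hv | hv) | hv)
      · exact (hRX v hv).1
      · rw [Set.mem_singleton_iff.1 hv]
        exact Or.inr (Or.inr hcD)
      · exact (hLX v (g1 hv)).1
    · intro v hv
      have h4 := hLX v (g2 hv)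
      rcases h4.1 with h | h | h
      · exact absurd hv (by rw [h]; exact fun h' => Set.disjoint_left.1 g5 g6 h')
      · exact absurd hmRc (by rw [← h]; exact hLR v (g2 hv))
      · exact h
    · rw [Set.disjoint_left]
      rintro v ((hv | hv) | hv) hv'
      · exact hLR v (g2 hv') hv
      · rw [Set.mem_singleton_iff.1 hv] at hv'
        exact (hLX _ (g2 hv')).2 rfl
      · exact Set.disjoint_left.1 g5 hv hv'
    · obtain ⟨z, hz, hxz⟩ := g8
      exact ⟨u c, Or.inl (Or.inr rfl), z, hz, hxz⟩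
  right
  push Not at hR2 hL2
  refine ⟨u (c - 1), u (c + 1), fun w hw => ?_⟩
  by_cases hwA : w ∈ A
  · exact Or.inl hwA
  right
  by_cases hwL : w ∈ Lc
  · left
    by_contra hne
    exact hL2 w hwL _ hcL hne hw hadjL.symm
  · right
    have hwR := hpend w hw hwA hwL
    by_contra hne
    exact hR2 w hwR _ hcR hne hw hadjR

end TWk
end

section

/-!
# MP_cfc9ed_co: rooted `K_{2,q}` minors from many cells
-/

set_option autoImplicit false

namespace TWk

open SimpleGraph Relation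

/-- a `K_{2,q}` minor with hubs `A`, `B` and leaves `C j`, each with a vertex of `D` -/
structure K2 {V : Type*} (G : SimpleGraph V) (D : Set V) {q : ℕ} (A B : Set V)
    (C : Fin q → Set V) : Prop where
  connA : (G.induce A).Connected
  connB : (G.induce B).Connected
  disjAB : Disjoint A B
  connC : ∀ j, (G.induce (C j)).Connected
  disjA : ∀ j, Disjoint A (C j)
  disjB : ∀ j, Disjoint B (C j)
  disjC : ∀ i j, i ≠ j → Disjoint (C i) (C j)
  adjA : ∀ j, ∃ x ∈ A, ∃ y ∈ C j, G.Adj x y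
  adjB : ∀ j, ∃ x ∈ B, ∃ y ∈ C j, G.Adj x y
  root : ∀ j, ∃ x ∈ C j, x ∈ D

/-- `G` has a `K_{2,q}` minor rooted in `D` -/
def K2D {V : Type*} (G : SimpleGraph V) (D : Set V) (q : ℕ) : Prop :=
  ∃ (A B : Set V) (C : Fin q → Set V), K2 G D A B C

section

variable {V : Type*} {G : SimpleGraph V}

/-- a rooted star structure outside of a connected set -/
theorem k2_of_RK {D S : Set V} {q : ℕ} {A W B : Set V} {C : Fin q → Set V}
    (hA : (G.induce A).Connected) (hW : ∀ v ∈ W, v ∉ A)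
    (hS : ∀ v ∈ S, v ∈ D ∧ ∃ a ∈ A, G.Adj a v) (h : RK G S W B C) : K2D G D q := by
  refine ⟨A, B, C, hA, h.connB, ?_, h.connC, ?_, h.disj, h.disjC, ?_, h.adj, ?_⟩
  · rw [Set.disjoint_left]
    exact fun v hv hv' => hW v (h.subB hv') hv
  · intro j
    rw [Set.disjoint_left]
    exact fun v hv hv' => hW v (h.subC j hv') hv
  · intro j
    obtain ⟨s, hs, hsS⟩ := h.root j
    obtain ⟨a, ha, has⟩ := (hS s hsS).2
    exact ⟨a, ha, s, hs, has⟩
  · intro j
    obtain ⟨s, hs, hsS⟩ := h.root j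
    exact ⟨s, hs, (hS s hsS).1⟩

/-- many leaves behind disjoint segments -/
theorem leaves_root {D0 A : Set V} (hA : (G.induce A).Connected) {r : V} {L : ℕ} {u : ℕ → V}
    (P : PD G Aᶜ r L u) {q : ℕ} (l c m : Fin q → ℕ)
    (hlcm : ∀ j, l j < c j ∧ c j < m j ∧ m j ≤ L) (hd : ∀ i j, i ≠ j → m i < l j ∨ m j < l i)
    (hno : ∀ j, ∀ o ≤ L, (o < l j ∨ m j < o) →
      ¬ RI G (Aᶜ \ {u (l j), u (m j)}) (u (c j)) (u o))
    (R C : Fin q → Set V) (hL : ∀ j, Leaf G A u (l j) (c j) (m j) (R j) (C j))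
    (hroot : ∀ j, ∃ x ∈ C j, x ∈ D0) : K2D G D0 q := by
  set B : Set V := {v | ∃ i ≤ L, (∀ j, ¬ (l j < i ∧ i < m j)) ∧ v = u i} ∪ {v | ∃ j, v ∈ R j}
    with hB
  have hpos : ∀ j, ∀ i ≤ L, ¬ (l j < i ∧ i < m j) →
      ¬ RI G (Aᶜ \ {u (l j), u (m j)}) (u (c j)) (u i) := by
    intro j i hi hn h
    by_cases h1 : i = l j
    · exact h.2.1.2 (Or.inl (by rw [h1]))
    · by_cases h2 : i = m j
      · exact h.2.1.2 (Or.inr (by rw [h2]; rfl))
      · exact hno j i hi (by omega) h
  have hout : ∀ i j, i ≠ j → ∀ x, (x = l i ∨ x = c i ∨ x = m i) → ¬ (l j < x ∧ x < m j) := by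
    intro i j hij x hx
    have h1 := hlcm i
    have h2 := hlcm j
    rcases hd i j hij with h | h <;> omega
  have hDD : ∀ i j, i ≠ j → ∀ v, RI G (Aᶜ \ {u (l i), u (m i)}) (u (c i)) v →
      ¬ RI G (Aᶜ \ {u (l j), u (m j)}) (u (c j)) v := by
    intro i j hij v hv hv'
    have hi := hlcm i
    have hj := hlcm j
    have hsub : {v | RI G (Aᶜ \ {u (l j), u (m j)}) (u (c j)) v} ⊆
        Aᶜ \ {u (l i), u (m i)} := by
      intro w hw
      refine ⟨hw.2.1.1, ?_⟩
      rintro (h | h)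
      · rw [h] at hw
        exact hpos j (l i) (by omega) (hout i j hij _ (Or.inl rfl)) hw
      · rw [Set.mem_singleton_iff.1 h] at hw
        exact hpos j (m i) (by omega) (hout i j hij _ (Or.inr (Or.inr rfl))) hw
    have h1 : RI G (Aᶜ \ {u (l i), u (m i)}) v (u (c j)) :=
      (RI_of_conn (comp_conn hv'.1) (show v ∈ {v | RI G (Aᶜ \ {u (l j), u (m j)}) (u (c j)) v}
        from hv') (show u (c j) ∈ {v | RI G (Aᶜ \ {u (l j), u (m j)}) (u (c j)) v}
        from RI.refl hv'.1)).mono hsub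
    exact hpos i (c j) (by omega) (hout j i hij.symm _ (Or.inr (Or.inl rfl))) (hv.trans h1)
  have hend : ∀ j, u (l j) ∈ B ∧ u (m j) ∈ B := fun j =>
    ⟨Or.inr ⟨j, (hL j).left⟩, Or.inr ⟨j, (hL j).right⟩⟩
  have hacross : ∀ j, RI G B (u (l j)) (u (m j)) := fun j =>
    (RI_of_conn (hL j).connR (hL j).left (hL j).right).mono fun v hv => Or.inr ⟨j, hv⟩
  have h0B : u 0 ∈ B := Or.inl ⟨0, Nat.zero_le _, fun j h => absurd h.1 (Nat.not_lt_zero _), rfl⟩
  have key : ∀ i, i ≤ L → (∀ j, ¬ (l j < i ∧ i < m j)) → RI G B (u 0) (u i) := by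
    intro i
    induction i using Nat.strong_induction_on with
    | _ i ih =>
      intro hi' hn
      have hiB : u i ∈ B := Or.inl ⟨i, hi', hn, rfl⟩
      rcases i with _ | i
      · exact RI.refl h0B
      · by_cases h1 : ∀ j, ¬ (l j < i ∧ i < m j)
        · exact (ih i (by omega) (by omega) h1).trans
            (RI.adj (Or.inl ⟨i, by omega, h1, rfl⟩) hiB (P.adj i (by omega)))
        · push Not at h1
          obtain ⟨j, h2, h3⟩ := h1
          have h4 : m j = i + 1 := by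
            by_contra h
            exact hn j ⟨by omega, by omega⟩
          rw [← h4]
          refine (ih (l j) (by omega) (by omega) ?_).trans (hacross j)
          intro j'
          by_cases hjj : j' = j
          · subst hjj
            rintro ⟨h5, h6⟩
            omega
          · exact hout j j' (fun h => hjj h.symm) _ (Or.inl rfl)
  have hRA : ∀ j, ∀ v ∈ R j, v ∉ A := by
    intro j v hv
    have h1 := hlcm j
    rcases (hL j).subR v hv with h | h | h
    · rw [h]; exact P.mem _ (by omega)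
    · rw [h]; exact P.mem _ (by omega)
    · exact h.2.1.1
  refine ⟨A, B, C, hA, ?_, ?_, fun j => (hL j).connC, ?_, ?_, ?_, fun j => (hL j).adjA, ?_, hroot⟩
  · refine conn_of_RI (c := u 0) h0B ?_
    rintro v (⟨i, hi1, hi2, rfl⟩ | ⟨j, hv⟩)
    · exact key i hi1 hi2
    · have h1 : RI G B (u 0) (u (l j)) := by
        have h2 := hlcm j
        refine key _ (by omega) ?_
        intro j'
        by_cases hjj : j' = j
        · subst hjj
          rintro ⟨h5, h6⟩
          omega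
        · exact hout j j' (fun h => hjj h.symm) _ (Or.inl rfl)
      exact h1.trans ((RI_of_conn (hL j).connR (hL j).left hv).mono fun v hv => Or.inr ⟨j, hv⟩)
  · rw [Set.disjoint_left]
    rintro v hvA (⟨i, hi1, _, rfl⟩ | ⟨j, hv⟩)
    · exact P.mem i hi1 hvA
    · exact hRA j v hv hvA
  · intro j
    rw [Set.disjoint_left]
    intro v hvA hv
    exact ((hL j).subC v hv).2.1.1 hvA
  · intro j
    rw [Set.disjoint_left]
    rintro v (⟨i, hi1, hi2, rfl⟩ | ⟨i, hv⟩) hv'
    · exact hpos j i hi1 (hi2 j) ((hL j).subC _ hv')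
    · by_cases hij : i = j
      · subst hij
        exact Set.disjoint_left.1 (hL i).disj hv hv'
      · have h1 := hlcm i
        rcases (hL i).subR v hv with h | h | h
        · rw [h] at hv'
          exact hpos j (l i) (by omega) (hout i j hij _ (Or.inl rfl)) ((hL j).subC _ hv')
        · rw [h] at hv'
          exact hpos j (m i) (by omega) (hout i j hij _ (Or.inr (Or.inr rfl)))
            ((hL j).subC _ hv')
        · exact hDD i j hij v h ((hL j).subC _ hv')
  · intro i j hij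
    rw [Set.disjoint_left]
    intro v hv hv'
    exact hDD i j hij v ((hL i).subC _ hv) ((hL j).subC _ hv')
  · intro j
    obtain ⟨x, hx, y, hy, hxy⟩ := (hL j).adjR
    exact ⟨x, Or.inr ⟨j, hx⟩, y, hy, hxy⟩

/-- **one stage**: a minor, or many segments without other neighbours -/
theorem stage_root [Fintype V] (hG : Conn G 3) {D0 A : Set V} (hA : (G.induce A).Connected)
    {r : V} {L : ℕ} {u : ℕ → V} (P : PD G Aᶜ r L u) (q R' M : ℕ)
    (hM : q * (2 * q + 1) + q + R' ≤ M)
    (l c m : Fin M → ℕ) (h : ∀ j, l j < c j ∧ c j < m j ∧ m j ≤ L)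
    (hd : ∀ i j, i ≠ j → m i < l j ∨ m j < l i)
    (hS : ∀ j, (u (l j) ∈ D0 ∧ ∃ a ∈ A, G.Adj a (u (l j))) ∧
      (u (m j) ∈ D0 ∧ ∃ a ∈ A, G.Adj a (u (m j))) ∧ (∃ a ∈ A, G.Adj a (u (c j))) ∧
      u (c j) ∈ D0 ∧ ∀ w, G.Adj (u (c j)) w → w ∈ D0) :
    K2D G D0 q ∨ ∃ g : Fin R' → Fin M, Function.Injective g ∧
      ∀ j, ∃ x y, ∀ w, G.Adj (u (c (g j))) w → w ∈ A ∨ w = x ∨ w = y := by
  classical
  by_contra hcon
  push Not at hcon
  obtain ⟨hK, hpath⟩ := hcon
  set J1 := Finset.univ.filter fun j : Fin M => ∃ o ≤ L, (o < l j ∨ m j < o) ∧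
    RI G (Aᶜ \ {u (l j), u (m j)}) (u (c j)) (u o) with hJ1
  set J2 := Finset.univ.filter fun j : Fin M => (∀ o ≤ L, (o < l j ∨ m j < o) →
    ¬ RI G (Aᶜ \ {u (l j), u (m j)}) (u (c j)) (u o)) ∧
    ∃ R C, Leaf G A u (l j) (c j) (m j) R C ∧
      (u (c j) ∈ C ∨ ∃ y ∈ C, G.Adj (u (c j)) y) with hJ2
  set J3 := Finset.univ.filter fun j : Fin M => ∃ x y, ∀ w, G.Adj (u (c j)) w →
    w ∈ A ∨ w = x ∨ w = y with hJ3
  have hcover : Finset.univ ⊆ (J1 ∪ J2) ∪ J3 := by
    intro j _
    rw [Finset.mem_union, Finset.mem_union]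
    by_cases h1 : ∃ o ≤ L, (o < l j ∨ m j < o) ∧
        RI G (Aᶜ \ {u (l j), u (m j)}) (u (c j)) (u o)
    · exact Or.inl (Or.inl (Finset.mem_filter.2 ⟨Finset.mem_univ _, h1⟩))
    · push Not at h1
      rcases local_root hG P (h j).1 (h j).2.1 (h j).2.2 (hS j).2.2.1 with h2 | h2
      · exact Or.inl (Or.inr (Finset.mem_filter.2 ⟨Finset.mem_univ _, h1, h2⟩))
      · exact Or.inr (Finset.mem_filter.2 ⟨Finset.mem_univ _, h2⟩)
  have hcard : M ≤ J1.card + J2.card + J3.card := by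
    have h1 := Finset.card_le_card hcover
    rw [Finset.card_univ, Fintype.card_fin] at h1
    have h2 := Finset.card_union_le (J1 ∪ J2) J3
    have h3 := Finset.card_union_le J1 J2
    omega
  by_cases h1 : q * (2 * q + 1) ≤ J1.card
  · obtain ⟨g, hg, hgp⟩ := exists_sub h1
    have hj : ∀ j, ∃ (x y : ℕ) (Q : Set V), l (g j) < x ∧ x < m (g j) ∧ y ≤ L ∧
        (y < l (g j) ∨ m (g j) < y) ∧ JP G Aᶜ u L x y Q := by
      intro j
      obtain ⟨o, ho1, ho2, ho3⟩ := hgp j
      have h4 := h (g j)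
      obtain ⟨x, y, Q, h5, h6, h7, h8, h9⟩ := jump P h4.1 h4.2.1 h4.2.2 ho1 ho2 ho3
      exact ⟨x, y, Q, h5, h6, h7, h8, h9⟩
    choose x y Q hx1 hx2 hyL hy hQ using hj
    obtain ⟨B, C, hRK⟩ := many_jumps (S := {v | v ∈ D0 ∧ ∃ a ∈ A, G.Adj a v}) P q
      (q * (2 * q + 1)) le_rfl (fun j => l (g j)) (fun j => m (g j)) x y Q hx1 hx2
      (fun j => (h _).2.2) hyL hy hQ (fun i j hij => hd _ _ (hg.ne hij))
      (fun j => ⟨(hS _).1, (hS _).2.1⟩)
    exact hK (k2_of_RK hA (fun v hv => hv) (fun v hv => hv) hRK)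
  · by_cases h2 : q ≤ J2.card
    · obtain ⟨g, hg, hgp⟩ := exists_sub h2
      have hgL := fun j => (hgp j).2
      choose R C hRC using hgL
      refine hK (leaves_root hA P (fun j => l (g j)) (fun j => c (g j)) (fun j => m (g j))
        (fun j => h _) (fun i j hij => hd _ _ (hg.ne hij)) (fun j => (hgp j).1) R C
        (fun j => (hRC j).1) fun j => ?_)
      rcases (hRC j).2 with h3 | ⟨y, hy, hy'⟩
      · exact ⟨_, h3, (hS (g j)).2.2.2.1⟩
      · exact ⟨y, hy, (hS (g j)).2.2.2.2 y hy'⟩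
    · have h3 : R' ≤ J3.card := by omega
      obtain ⟨g, hg, hgp⟩ := exists_sub h3
      obtain ⟨j, hj⟩ := hpath g hg
      obtain ⟨x, y, hxy⟩ := hgp j
      obtain ⟨w, hw, hw'⟩ := hj x y
      rcases hxy w hw with h8 | h8 | h8
      · exact hw'.1 h8
      · exact hw'.2.1 h8
      · exact hw'.2.2 h8

/-- splitting a path: a minor, or many disjoint hulls -/
theorem split_root {D0 W : Set V} {r : V} {L : ℕ} {p : ℕ → V} (P : PD G W r L p) (q R M : ℕ)
    (h0 : 0 < q) (hM : R * (2 * q) ≤ M) (C : Fin M → Set V) (lo hi : Fin M → ℕ)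
    (hlh : ∀ j, lo j < hi j ∧ hi j ≤ L) (hCc : ∀ j, (G.induce (C j)).Connected)
    (hCd : ∀ i j, i ≠ j → Disjoint (C i) (C j)) (hCp : ∀ j, Disjoint (seg p 0 L) (C j))
    (hadj : ∀ j, (∃ y ∈ C j, G.Adj (p (lo j)) y) ∧ ∃ y ∈ C j, G.Adj (p (hi j)) y)
    (hroot : ∀ j, ∃ x ∈ C j, x ∈ D0) :
    K2D G D0 q ∨ ∃ g : Fin R → Fin M, Function.Injective g ∧
      ∀ i j, i ≠ j → hi (g i) < lo (g j) ∨ hi (g j) < lo (g i) := by
  classical
  rcases intervals lo hi (2 * q) (fun j => (hlh j).1.le) R Finset.univ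
    (by rw [Finset.card_fin]; exact hM) with ⟨A, -, hAc, hA⟩ | ⟨z, A, -, hAc, hA⟩
  · right
    let e := Finset.equivFinOfCardEq hAc
    refine ⟨fun j => (e.symm j : Fin M), fun i j h => e.symm.injective (Subtype.ext h),
      fun i j hij => hA _ (e.symm i).2 _ (e.symm j).2 fun h => hij
        (e.symm.injective (Subtype.ext h))⟩
  · left
    have hfin : ∀ (z' : ℕ) (A' : Finset (Fin M)), q ≤ A'.card →
        (∀ j ∈ A', lo j ≤ z' ∧ z' < hi j) → K2D G D0 q := by
      intro z' A' hA'c hA'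
      obtain ⟨A'', hA'', hA''c⟩ := Finset.exists_subset_card_eq hA'c
      let e := Finset.equivFinOfCardEq hA''c
      let g : Fin q → Fin M := fun j => (e.symm j : Fin M)
      have hg : ∀ i j, i ≠ j → g i ≠ g j := fun i j h h' => h (e.symm.injective (Subtype.ext h'))
      have hgA : ∀ j, lo (g j) ≤ z' ∧ z' < hi (g j) := fun j => hA' _ (hA'' (e.symm j).2)
      have h1 := hgA ⟨0, h0⟩
      have h2 := hlh (g ⟨0, h0⟩)
      have hsub : ∀ a b, b ≤ L → ∀ j, Disjoint (seg p a b) (C (g j)) := by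
        intro a b hb j
        refine Set.disjoint_of_subset_left ?_ (hCp (g j))
        rintro v ⟨i, hi1, hi2, rfl⟩
        exact mem_seg (Nat.zero_le _) (by omega)
      refine ⟨seg p 0 z', seg p (z' + 1) L, fun j => C (g j),
        seg_conn P (Nat.zero_le _) (by omega), seg_conn P (by omega) le_rfl, ?_,
        fun j => hCc _, hsub 0 z' (by omega), hsub _ L le_rfl,
        fun i j hij => hCd _ _ (hg i j hij), ?_, ?_, fun j => hroot _⟩
      · rw [Set.disjoint_left]
        rintro v ⟨i, hi1, hi2, rfl⟩ ⟨j, hj1, hj2, h⟩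
        have := P.inj i (by omega) j hj2 h
        omega
      · intro j
        obtain ⟨y, hy, hxy⟩ := (hadj (g j)).1
        exact ⟨_, mem_seg (Nat.zero_le _) (hgA j).1, y, hy, hxy⟩
      · intro j
        obtain ⟨y, hy, hxy⟩ := (hadj (g j)).2
        exact ⟨_, mem_seg (hgA j).2 (hlh _).2, y, hy, hxy⟩
    have hsub : A ⊆ (A.filter fun j => z < hi j) ∪ (A.filter fun j => hi j = z) := by
      intro j hj
      rw [Finset.mem_union, Finset.mem_filter, Finset.mem_filter]
      rcases (hA j hj).2.lt_or_eq with h | h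
      · exact Or.inl ⟨hj, h⟩
      · exact Or.inr ⟨hj, h.symm⟩
    have h5 := Finset.card_le_card hsub
    have h6 := Finset.card_union_le (A.filter fun j => z < hi j) (A.filter fun j => hi j = z)
    by_cases h7 : q ≤ (A.filter fun j => z < hi j).card
    · refine hfin z _ h7 ?_
      intro j hj
      obtain ⟨hjA, hjz⟩ := Finset.mem_filter.1 hj
      exact ⟨(hA j hjA).1, hjz⟩
    · refine hfin (z - 1) (A.filter fun j => hi j = z) (by omega) ?_
      intro j hj
      obtain ⟨hjA, hjz⟩ := Finset.mem_filter.1 hj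
      have := hlh j
      omega

end

end TWk
end

section

/-!
# MP_cfc9ed_co: crossing edges between two paths, rooted version
-/

set_option autoImplicit false

namespace TWk

open SimpleGraph Relation

section

variable {V : Type*} {G : SimpleGraph V}

/-- crossing cells in order -/
theorem cross_ordered_root {D0 W W' : Set V} {r r' : V} {L L' : ℕ} {p u : ℕ → V} (P : PD G W r L p)
    (U : PD G W' r' L' u) (hdis : ∀ i ≤ L, ∀ j ≤ L', p i ≠ u j) (q : ℕ) (x y β γ : ℕ → ℕ)
    (hx : ∀ j < q, x j < y j ∧ y j ≤ L) (hβ : ∀ j < q, β j + 2 ≤ γ j ∧ γ j ≤ L')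
    (hxo : ∀ j, j + 1 < q → y j < x (j + 1)) (hβo : ∀ j, j + 1 < q → γ j < β (j + 1))
    (h1 : ∀ j < q, G.Adj (u (β j)) (p (y j))) (h2 : ∀ j < q, G.Adj (p (x j)) (u (γ j)))
    (hroot : ∀ j < q, u (β j + 1) ∈ D0) : K2D G D0 q := by
  set sP : ℕ → ℕ := fun j => if j = 0 then 0 else y (j - 1) with hsP
  set eP : ℕ → ℕ := fun j => if j < q then x j else L with heP
  set sU : ℕ → ℕ := fun j => if j = 0 then 0 else γ (j - 1) with hsU
  set eU : ℕ → ℕ := fun j => if j < q then β j else L' with heU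
  have hP1 : ∀ j ≤ q, sP j ≤ eP j ∧ eP j ≤ L := by
    intro j hj
    show (if j = 0 then 0 else y (j - 1)) ≤ (if j < q then x j else L) ∧
      (if j < q then x j else L) ≤ L
    rcases j with _ | j
    · rw [if_pos rfl]
      split_ifs with h
      · have := hx 0 h
        omega
      · omega
    · rw [if_neg (by omega)]
      have e1 : j + 1 - 1 = j := rfl
      rw [e1]
      split_ifs with h
      · have := hxo j h
        have := hx (j + 1) h
        omega
      · have := hx j (by omega)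
        omega
  have hU1 : ∀ j ≤ q, sU j ≤ eU j ∧ eU j ≤ L' := by
    intro j hj
    show (if j = 0 then 0 else γ (j - 1)) ≤ (if j < q then β j else L') ∧
      (if j < q then β j else L') ≤ L'
    rcases j with _ | j
    · rw [if_pos rfl]
      split_ifs with h
      · have := hβ 0 h
        omega
      · omega
    · rw [if_neg (by omega)]
      have e1 : j + 1 - 1 = j := rfl
      rw [e1]
      split_ifs with h
      · have := hβo j h
        have := hβ (j + 1) h
        omega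
      · have := hβ j (by omega)
        omega
  have hP2 : ∀ j < q, eP j = x j ∧ sP (j + 1) = y j := fun j hj =>
    ⟨if_pos hj, if_neg (Nat.succ_ne_zero j)⟩
  have hU2 : ∀ j < q, eU j = β j ∧ sU (j + 1) = γ j := fun j hj =>
    ⟨if_pos hj, if_neg (Nat.succ_ne_zero j)⟩
  have hP3 : ∀ j, ∀ j', j < j' → j' ≤ q → eP j < sP j' := by
    intro j j' hjj
    induction j', hjj using Nat.le_induction with
    | base =>
      intro hj
      show eP j < sP (j + 1)
      have := hP2 j hj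
      have := hx j hj
      omega
    | succ i hi ih =>
      intro hi'
      have := ih (by omega)
      have := hP1 i (by omega)
      have := hP2 i hi'
      have := hx i hi'
      omega
  have hU3 : ∀ j, ∀ j', j < j' → j' ≤ q → eU j + 2 ≤ sU j' := by
    intro j j' hjj
    induction j', hjj using Nat.le_induction with
    | base =>
      intro hj
      show eU j + 2 ≤ sU (j + 1)
      have := hU2 j hj
      have := hβ j hj
      omega
    | succ i hi ih =>
      intro hi'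
      have := ih (by omega)
      have := hU1 i (by omega)
      have := hU2 i hi'
      have := hβ i hi'
      omega
  have hsegP : ∀ j ≤ q, (G.induce (seg p (sP j) (eP j))).Connected := fun j hj =>
    seg_conn P (hP1 j hj).1 (hP1 j hj).2
  have hsegU : ∀ j ≤ q, (G.induce (seg u (sU j) (eU j))).Connected := fun j hj =>
    seg_conn U (hU1 j hj).1 (hU1 j hj).2
  set S : ℕ → Set V := fun ε => {v | ∃ j ≤ q, v ∈ Sg p u sP eP sU eU ε j} with hS
  have hconn : ∀ ε, (G.induce (S ε)).Connected := by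
    intro ε
    have key : ∀ n ≤ q, (G.induce {v | ∃ j ≤ n, v ∈ Sg p u sP eP sU eU ε j}).Connected := by
      intro n
      induction n with
      | zero =>
        intro _
        have : {v | ∃ j ≤ 0, v ∈ Sg p u sP eP sU eU ε j} = Sg p u sP eP sU eU ε 0 := by
          ext v
          constructor
          · rintro ⟨j, hj, hv⟩
            rwa [show j = 0 by omega] at hv
          · intro hv
            exact ⟨0, le_rfl, hv⟩
        rw [this]
        by_cases hpar : (0 + ε) % 2 = 0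
        · rw [show Sg p u sP eP sU eU ε 0 = seg u (sU 0) (eU 0) from if_pos hpar]
          exact hsegU 0 (Nat.zero_le _)
        · rw [show Sg p u sP eP sU eU ε 0 = seg p (sP 0) (eP 0) from if_neg hpar]
          exact hsegP 0 (Nat.zero_le _)
      | succ n ih =>
        intro hn
        have : {v | ∃ j ≤ n + 1, v ∈ Sg p u sP eP sU eU ε j} =
            {v | ∃ j ≤ n, v ∈ Sg p u sP eP sU eU ε j} ∪ Sg p u sP eP sU eU ε (n + 1) := by
          ext v
          constructor
          · rintro ⟨j, hj, hv⟩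
            by_cases h : j ≤ n
            · exact Or.inl ⟨j, h, hv⟩
            · rw [show j = n + 1 by omega] at hv
              exact Or.inr hv
          · rintro (⟨j, hj, hv⟩ | hv)
            · exact ⟨j, by omega, hv⟩
            · exact ⟨n + 1, le_rfl, hv⟩
        rw [this]
        by_cases hpar : (n + ε) % 2 = 0
        · have e1 : Sg p u sP eP sU eU ε n = seg u (sU n) (eU n) := if_pos hpar
          have e2 : Sg p u sP eP sU eU ε (n + 1) = seg p (sP (n + 1)) (eP (n + 1)) :=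
            if_neg (by omega)
          refine conn_union (ih (by omega)) (by rw [e2]; exact hsegP _ hn) (u := u (β n))
            (v := p (y n)) ⟨n, le_rfl, ?_⟩ ?_ (Or.inr (h1 n (by omega)))
          · rw [e1, ← (hU2 n (by omega)).1]
            exact mem_seg (hU1 n (by omega)).1 le_rfl
          · rw [e2, ← (hP2 n (by omega)).2]
            exact mem_seg le_rfl (hP1 (n + 1) hn).1
        · have e1 : Sg p u sP eP sU eU ε n = seg p (sP n) (eP n) := if_neg hpar
          have e2 : Sg p u sP eP sU eU ε (n + 1) = seg u (sU (n + 1)) (eU (n + 1)) :=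
            if_pos (by omega)
          refine conn_union (ih (by omega)) (by rw [e2]; exact hsegU _ hn) (u := p (x n))
            (v := u (γ n)) ⟨n, le_rfl, ?_⟩ ?_ (Or.inr (h2 n (by omega)))
          · rw [e1, ← (hP2 n (by omega)).1]
            exact mem_seg (hP1 n (by omega)).1 le_rfl
          · rw [e2, ← (hU2 n (by omega)).2]
            exact mem_seg le_rfl (hU1 (n + 1) hn).1
    exact key q le_rfl
  have hmix : ∀ j ≤ q, ∀ j' ≤ q, ∀ v, v ∈ seg p (sP j) (eP j) → v ∉ seg u (sU j') (eU j') := by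
    rintro j hj j' hj' v ⟨i, _, hi, rfl⟩ ⟨i', _, hi', h⟩
    exact hdis i (hi.trans (hP1 j hj).2) i' (hi'.trans (hU1 j' hj').2) h
  have hPP : ∀ j ≤ q, ∀ j' ≤ q, j ≠ j' → ∀ v, v ∈ seg p (sP j) (eP j) →
      v ∉ seg p (sP j') (eP j') := by
    rintro j hj j' hj' hne v ⟨i, hi, hi', rfl⟩ ⟨k, hk, hk', h⟩
    have e1 := P.inj i (hi'.trans (hP1 j hj).2) k (hk'.trans (hP1 j' hj').2) h
    rcases lt_or_gt_of_ne hne with h' | h'
    · have := hP3 j j' h' hj'
      omega
    · have := hP3 j' j h' hj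
      omega
  have hUU : ∀ j ≤ q, ∀ j' ≤ q, j ≠ j' → ∀ v, v ∈ seg u (sU j) (eU j) →
      v ∉ seg u (sU j') (eU j') := by
    rintro j hj j' hj' hne v ⟨i, hi, hi', rfl⟩ ⟨k, hk, hk', h⟩
    have e1 := U.inj i (hi'.trans (hU1 j hj).2) k (hk'.trans (hU1 j' hj').2) h
    rcases lt_or_gt_of_ne hne with h' | h'
    · have := hU3 j j' h' hj'
      omega
    · have := hU3 j' j h' hj
      omega
  -- the leaves
  have hleafU : ∀ j < q, ∀ j' ≤ q, ∀ v, v ∈ seg u (β j + 1) (γ j - 1) →
      v ∉ seg u (sU j') (eU j') := by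
    rintro j hj j' hj' v ⟨i, hi, hi', rfl⟩ ⟨k, hk, hk', h⟩
    have e0 := hβ j hj
    have e1 := U.inj i (by omega) k (hk'.trans (hU1 j' hj').2) h
    have e2 := hU2 j hj
    rcases lt_trichotomy j' j with h' | h' | h'
    · have := hU3 j' j h' (by omega)
      have := hU1 j (by omega)
      omega
    · subst h'
      omega
    · by_cases h'' : j' = j + 1
      · subst h''
        omega
      · have := hU3 (j + 1) j' (by omega) hj'
        have := hU1 (j + 1) (by omega)
        omega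
  have hleafP : ∀ j < q, ∀ j' ≤ q, ∀ v, v ∈ seg u (β j + 1) (γ j - 1) →
      v ∉ seg p (sP j') (eP j') := by
    rintro j hj j' hj' v ⟨i, hi, hi', rfl⟩ ⟨k, hk, hk', h⟩
    have e0 := hβ j hj
    exact hdis k (hk'.trans (hP1 j' hj').2) i (by omega) h.symm
  have hleafS : ∀ ε, ∀ j < q, Disjoint (S ε) (seg u (β j + 1) (γ j - 1)) := by
    intro ε j hj
    rw [Set.disjoint_left]
    rintro v ⟨j', hj', hv⟩ hv'
    unfold Sg at hv
    split_ifs at hv
    · exact hleafU j hj j' hj' v hv' hv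
    · exact hleafP j hj j' hj' v hv' hv
  have hleafadj : ∀ ε, ∀ j < q, ∃ a ∈ S ε, ∃ b ∈ seg u (β j + 1) (γ j - 1), G.Adj a b := by
    intro ε j hj
    have e0 := hβ j hj
    by_cases hpar : (j + ε) % 2 = 0
    · refine ⟨u (β j), ⟨j, hj.le, ?_⟩, u (β j + 1), mem_seg le_rfl (by omega),
        U.adj _ (by omega)⟩
      have e1 : Sg p u sP eP sU eU ε j = seg u (sU j) (eU j) := if_pos hpar
      rw [e1, ← (hU2 j hj).1]
      exact mem_seg (hU1 j hj.le).1 le_rfl
    · refine ⟨u (γ j), ⟨j + 1, hj, ?_⟩, u (γ j - 1), mem_seg (by omega) le_rfl, ?_⟩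
      · have e1 : Sg p u sP eP sU eU ε (j + 1) = seg u (sU (j + 1)) (eU (j + 1)) :=
          if_pos (by omega)
        rw [e1, ← (hU2 j hj).2]
        exact mem_seg le_rfl (hU1 (j + 1) hj).1
      · have e2 := U.adj (γ j - 1) (by omega)
        rw [show γ j - 1 + 1 = γ j by omega] at e2
        exact e2.symm
  refine ⟨S 0, S 1, fun j : Fin q => seg u (β j + 1) (γ j - 1), hconn 0, hconn 1, ?_,
    fun j => seg_conn U ?_ ?_, fun j => hleafS 0 j j.2, fun j => hleafS 1 j j.2, ?_,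
    fun j => hleafadj 0 j j.2, fun j => hleafadj 1 j j.2,
    fun j => ⟨_, mem_seg le_rfl ?_, hroot j j.2⟩⟩
  · rw [Set.disjoint_left]
    rintro v ⟨j, hj, hv⟩ ⟨j', hj', hv'⟩
    unfold Sg at hv hv'
    split_ifs at hv hv'
    · exact hUU j hj j' hj' (by omega) v hv hv'
    · exact hmix j' hj' j hj v hv' hv
    · exact hmix j hj j' hj' v hv hv'
    · exact hPP j hj j' hj' (by omega) v hv hv'
  · have := hβ j j.2; omega
  · have := hβ j j.2; omega
  · intro i j hij
    rw [Set.disjoint_left]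
    rintro v ⟨k, hk, hk', rfl⟩ ⟨k', hk1, hk1', h⟩
    have e1 := hβ i i.2
    have e2 := hβ j j.2
    have e3 := U.inj k (by omega) k' (by omega) h
    have hU4 : ∀ i j : Fin q, i.1 < j.1 → γ i < β j := by
      intro i j h'
      have e4 := hU2 i i.2
      have e5 := hU2 j j.2
      by_cases h'' : j.1 = i.1 + 1
      · rw [h'']
        exact hβo i.1 (by omega)
      · have := hU3 (i.1 + 1) j.1 (by omega) j.2.le
        have := hU1 (i.1 + 1) (by omega)
        have := hU1 j.1 (by omega)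
        omega
    rcases lt_or_gt_of_ne (fun h => hij (Fin.ext h) : i.1 ≠ j.1) with h' | h'
    · have := hU4 i j h'
      omega
    · have := hU4 j i h'
      omega
  · have := hβ j j.2; omega

/-- raw cells in order -/
theorem raw_ordered_root {D0 W W' : Set V} {r r' : V} {L L' : ℕ} {p u : ℕ → V} (P : PD G W r L p)
    (U : PD G W' r' L' u) (hdis : ∀ i ≤ L, ∀ j ≤ L', p i ≠ u j) (q : ℕ) (a1 a2 a3 b c : ℕ → ℕ)
    (hc : ∀ j < q, Raw G p u L L' (a1 j) (a2 j) (a3 j) (b j) (c j))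
    (hPo : ∀ j, j + 1 < q → a3 j < a1 (j + 1))
    (hUo : ∀ j, j + 1 < q → max (b j) (c j) < min (b (j + 1)) (c (j + 1)))
    (hroot : ∀ j < q, u (min (b j) (c j) + 1) ∈ D0) : K2D G D0 q := by
  refine cross_ordered_root P U hdis q (fun j => if c j < b j then a2 j else a1 j)
    (fun j => if c j < b j then a3 j else a2 j) (fun j => min (b j) (c j))
    (fun j => max (b j) (c j)) ?_ ?_ ?_ hUo ?_ ?_ hroot
  · intro j hj
    have := hc j hj
    have := this.h1
    have := (hc j hj).h2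
    have := (hc j hj).h3
    show (if c j < b j then a2 j else a1 j) < (if c j < b j then a3 j else a2 j) ∧
      (if c j < b j then a3 j else a2 j) ≤ L
    split_ifs <;> omega
  · intro j hj
    have := (hc j hj).h4
    have := (hc j hj).h5
    have := (hc j hj).h6
    omega
  · intro j hj
    have := hPo j hj
    have := (hc j (by omega)).h1
    have := (hc j (by omega)).h2
    have := (hc (j + 1) hj).h1
    show (if c j < b j then a3 j else a2 j) < (if c (j + 1) < b (j + 1) then a2 (j + 1)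
      else a1 (j + 1))
    split_ifs <;> omega
  · intro j hj
    show G.Adj (u (min (b j) (c j))) (p (if c j < b j then a3 j else a2 j))
    have h6 := (hc j hj).h6
    split_ifs with h
    · rw [min_eq_right (by omega)]
      exact (hc j hj).h8
    · rw [min_eq_left (by omega)]
      exact (hc j hj).h9.symm
  · intro j hj
    show G.Adj (p (if c j < b j then a2 j else a1 j)) (u (max (b j) (c j)))
    have h6 := (hc j hj).h6
    split_ifs with h
    · rw [max_eq_left (by omega)]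
      exact (hc j hj).h9
    · rw [max_eq_right (by omega)]
      exact (hc j hj).h7.symm

/-- **crossing cells give a `K_{2,q}` minor** -/
theorem cross_root {D0 W W' : Set V} {r r' : V} {L L' : ℕ} {p u : ℕ → V} (P : PD G W r L p)
    (U : PD G W' r' L' u) (hdis : ∀ i ≤ L, ∀ j ≤ L', p i ≠ u j) (q M : ℕ)
    (hM : 2 ^ (q + q) ≤ M) (a1 a2 a3 b c : Fin M → ℕ)
    (hc : ∀ j, Raw G p u L L' (a1 j) (a2 j) (a3 j) (b j) (c j))
    (hP : ∀ i j, i ≠ j → a3 i < a1 j ∨ a3 j < a1 i)
    (hU : ∀ i j, i ≠ j → max (b i) (c i) < min (b j) (c j) ∨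
      max (b j) (c j) < min (b i) (c i))
    (hroot : ∀ j, u (min (b j) (c j) + 1) ∈ D0 ∧ u (max (b j) (c j) - 1) ∈ D0) :
    K2D G D0 q := by
  classical
  rcases es a1 (fun j => min (b j) (c j)) (q + q) q q rfl Finset.univ (by
    intro i _ j _ hij
    have h1 := hc i
    have h2 := hc j
    have := h1.h1
    have := h1.h2
    have := h2.h1
    have := h2.h2
    refine ⟨?_, ?_⟩
    · rcases hP i j hij with h | h <;> omega
    · show min (b i) (c i) ≠ min (b j) (c j)
      rcases hU i j hij with h | h <;> omega) (by rw [Finset.card_fin]; exact hM) with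
    ⟨g, -, hg⟩ | ⟨g, -, hg⟩
  · refine raw_ordered_root P U hdis q (fun j => a1 (g j)) (fun j => a2 (g j))
      (fun j => a3 (g j)) (fun j => b (g j)) (fun j => c (g j)) (fun j _ => hc _) ?_ ?_
      (fun j _ => (hroot _).1)
    · intro j hj
      have h1 := hg j (j + 1) (by omega) hj
      have h2 := (hc (g j)).h1
      have h3 := (hc (g j)).h2
      have h4 := (hc (g (j + 1))).h1
      have h5 := (hc (g (j + 1))).h2
      rcases hP (g j) (g (j + 1)) (fun h => by rw [h] at h1; omega) with h | h <;> omega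
    · intro j hj
      have h1 := hg j (j + 1) (by omega) hj
      show max (b (g j)) (c (g j)) < min (b (g (j + 1))) (c (g (j + 1)))
      have h1' : min (b (g j)) (c (g j)) < min (b (g (j + 1))) (c (g (j + 1))) := h1.2
      rcases hU (g j) (g (j + 1)) (fun h => by rw [h] at h1; omega) with h | h <;> omega
  · refine raw_ordered_root P U.rev (fun i hi j _ => hdis i hi _ (by omega)) q
      (fun j => a1 (g j)) (fun j => a2 (g j)) (fun j => a3 (g j)) (fun j => L' - b (g j))
      (fun j => L' - c (g j)) (fun j _ => ?_) ?_ ?_ (fun j _ => by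
        have h := hc (g j)
        have h4 := h.h4
        have h5 := h.h5
        have h6 := h.h6
        have h7 := (hroot (g j)).2
        show u (L' - (min (L' - b (g j)) (L' - c (g j)) + 1)) ∈ D0
        rw [show L' - (min (L' - b (g j)) (L' - c (g j)) + 1) = max (b (g j)) (c (g j)) - 1 by
          omega]
        exact h7)
    · have h := hc (g j)
      have h4 := h.h4
      have h5 := h.h5
      have h6 := h.h6
      refine ⟨h.h1, h.h2, h.h3, Nat.sub_le _ _, Nat.sub_le _ _, by omega, ?_, ?_, ?_⟩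
      · show G.Adj (u (L' - (L' - c (g j)))) _
        rw [show L' - (L' - c (g j)) = c (g j) by omega]
        exact h.h7
      · show G.Adj (u (L' - (L' - c (g j)))) _
        rw [show L' - (L' - c (g j)) = c (g j) by omega]
        exact h.h8
      · show G.Adj _ (u (L' - (L' - b (g j))))
        rw [show L' - (L' - b (g j)) = b (g j) by omega]
        exact h.h9
    · intro j hj
      have h1 := hg j (j + 1) (by omega) hj
      have h2 := (hc (g j)).h1
      have h3 := (hc (g j)).h2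
      have h4 := (hc (g (j + 1))).h1
      have h5 := (hc (g (j + 1))).h2
      rcases hP (g j) (g (j + 1)) (fun h => by rw [h] at h1; omega) with h | h <;> omega
    · intro j hj
      have h1 := hg j (j + 1) (by omega) hj
      have h2 := (hc (g j)).h4
      have h3 := (hc (g j)).h5
      have h4 := (hc (g (j + 1))).h4
      have h5 := (hc (g (j + 1))).h5
      show max (L' - b (g j)) (L' - c (g j)) < min (L' - b (g (j + 1))) (L' - c (g (j + 1)))
      have h1' : min (b (g (j + 1))) (c (g (j + 1))) < min (b (g j)) (c (g j)) := h1.2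
      rcases hU (g j) (g (j + 1)) (fun h => by rw [h] at h1; omega) with h | h <;> omega

end

end TWk
end
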