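import Pool.Agent.Lib.MP_cfc9ed_co.NE
import Pool.Agent.Lib.MP_cfc9ed_co.NB

section

/-!
# MP_cfc9ed_co: rooted `K_{2,q}` minors along two paths
-/

set_option autoImplicit false

namespace TWk

open SimpleGraph Relation

/-- all walks with at most `n` steps from `v` stay in `D` -/
def Nr {V : Type*} (G : SimpleGraph V) (D : Set V) : ℕ → V → Prop
  | 0, v => v ∈ D
  | n + 1, v => v ∈ D ∧ ∀ w, G.Adj v w → Nr G D n w

theorem Nr.mem {V : Type*} {G : SimpleGraph V} {D : Set V} {n : ℕ} {v : V} (h : Nr G D n v) :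
    v ∈ D := by
  cases n with
  | zero => exact h
  | succ n => exact h.1

theorem Nr.mono {V : Type*} {G : SimpleGraph V} {D : Set V} : ∀ {n m : ℕ} {v : V},
    Nr G D n v → m ≤ n → Nr G D m v := by
  intro n
  induction n with
  | zero => intro m v h hm; rw [Nat.le_zero.1 hm]; exact h
  | succ n ih =>
    intro m v h hm
    cases m with
    | zero => exact h.1
    | succ m => exact ⟨h.1, fun w hw => ih (h.2 w hw) (by omega)⟩

theorem Nr.adj {V : Type*} {G : SimpleGraph V} {D : Set V} {n : ℕ} {v w : V}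
    (h : Nr G D (n + 1) v) (hvw : G.Adj v w) : Nr G D n w := h.2 w hvw

section

variable {V : Type*} {G : SimpleGraph V}

/-- two paths with many neighbours -/
theorem two_paths_root [Fintype V] (hG : Conn G 6) {D0 S : Set V} {s r : V} {L L' : ℕ}
    {p u : ℕ → V} {W : Set V} (P : PD G W s L p) (U : PD G (seg p 0 L)ᶜ r L' u) (q : ℕ)
    (hq : 0 < q) (hSD : ∀ v ∈ S, Nr G D0 4 v ∧ ∃ a ∈ seg p 0 L, G.Adj a v)
    (hS : 3 * M1 q ≤ cS S u L') : K2D G D0 q := by
  classical
  by_contra hK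
  have hG3 : Conn G 3 := ⟨by have := hG.1; omega, fun X hX => hG.2 X (by omega)⟩
  obtain ⟨l, c, m, h1, h2, h3⟩ := exists_triples (M1 q) hS
  have hd : ∀ i j : Fin (M1 q), i ≠ j → m i < l j ∨ m j < l i := by
    intro i j hij
    rcases lt_or_gt_of_ne (fun h => hij (Fin.ext h) : i.1 ≠ j.1) with h | h
    · exact Or.inl (h3 i j h)
    · exact Or.inr (h3 j i h)
  have hA1 : (G.induce (seg p 0 L)).Connected := seg_conn P (Nat.zero_le _) le_rfl
  rcases stage_root (D0 := D0) hG3 hA1 U q (M2 q) (M1 q) le_rfl l c m h1 hd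
    (fun j => ⟨⟨(hSD _ (h2 j).1).1.mem, (hSD _ (h2 j).1).2⟩,
      ⟨(hSD _ (h2 j).2.2).1.mem, (hSD _ (h2 j).2.2).2⟩, (hSD _ (h2 j).2.1).2,
      (hSD _ (h2 j).2.1).1.mem, fun w hw => ((hSD _ (h2 j).2.1).1.adj hw).mem⟩) with
    h | ⟨g, hg, hgp⟩
  · exact hK h
  -- neighbours of `u (c (g j))` on `p`
  have hex : ∀ j : Fin (M2 q), ∃ a1 a2 a3, a1 < a2 ∧ a2 < a3 ∧ a3 ≤ L ∧
      G.Adj (u (c (g j))) (p a1) ∧ G.Adj (u (c (g j))) (p a2) ∧ G.Adj (u (c (g j))) (p a3) := by
    intro j
    obtain ⟨x, y, hxy⟩ := hgp j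
    obtain ⟨T, hT, hT'⟩ := nbrs_on (n := 3) hG (A := seg p 0 L) (p := p) (L := L)
      (fun v hv => by
        obtain ⟨i, _, hi, rfl⟩ := hv
        exact ⟨i, hi, rfl⟩) hxy (by omega)
    obtain ⟨a1, a2, a3, e1, e2, e3, e4, e5⟩ := pick3 hT
    exact ⟨a1, a2, a3, e4, e5, (hT' a3 e3).1, (hT' a1 e1).2, (hT' a2 e2).2, (hT' a3 e3).2⟩
  choose a1 a2 a3 ha1 ha2 ha3 hb1 hb2 hb3 using hex
  have hNc : ∀ j, Nr G D0 4 (u (c j)) := fun j => (hSD _ (h2 j).2.1).1
  have hN1 : ∀ j, Nr G D0 3 (p (a1 j)) := fun j => (hNc _).adj (hb1 j)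
  have hN2 : ∀ j, Nr G D0 3 (p (a2 j)) := fun j => (hNc _).adj (hb2 j)
  have hN3 : ∀ j, Nr G D0 3 (p (a3 j)) := fun j => (hNc _).adj (hb3 j)
  have hcne : ∀ i j : Fin (M2 q), i ≠ j → c (g i) ≠ c (g j) := by
    intro i j hij h
    have e1 := h1 (g i)
    have e2 := h1 (g j)
    rcases hd _ _ (hg.ne hij) with h' | h' <;> omega
  rcases split_root (D0 := D0) P q (M3 q) (M2 q) hq le_rfl (fun j => {u (c (g j))}) a1 a3
    (fun j => ⟨(ha1 j).trans (ha2 j), ha3 j⟩) (fun j => conn_singleton _) (by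
      intro i j hij
      rw [Set.disjoint_singleton]
      intro h
      exact hcne i j hij (U.inj _ (by have := h1 (g i); omega) _ (by have := h1 (g j); omega) h))
    (by
      intro j
      rw [Set.disjoint_singleton_right]
      exact U.mem _ (by have := h1 (g j); omega)) (fun j => ⟨⟨_, rfl, (hb1 j).symm⟩,
        ⟨_, rfl, (hb3 j).symm⟩⟩) (fun j => ⟨_, rfl, (hNc _).mem⟩) with h | ⟨g2, hg2, hg2p⟩
  · exact hK h
  -- second stage
  have hdis : ∀ i ≤ L, ∀ j ≤ L', p i ≠ u j := by
    intro i hi j hj h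
    exact U.mem j hj (by rw [← h]; exact mem_seg (Nat.zero_le _) hi)
  have hA2 : (G.induce (seg u 0 L')).Connected := seg_conn U (Nat.zero_le _) le_rfl
  have hP2 : PD G (seg u 0 L')ᶜ s L p := ⟨P.zero, by
    rintro i hi ⟨j, _, hj, h⟩
    exact hdis i hi j hj h, P.adj, P.inj⟩
  have hcm : ∀ j, u (c j) ∈ seg u 0 L' := fun j =>
    mem_seg (Nat.zero_le _) (by have := h1 j; omega)
  rcases stage_root (D0 := D0) hG3 hA2 hP2 q (M4 q) (M3 q) le_rfl (fun j => a1 (g2 j))
    (fun j => a2 (g2 j)) (fun j => a3 (g2 j)) (fun j => ⟨ha1 _, ha2 _, ha3 _⟩) hg2p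
    (fun j => ⟨⟨(hN1 _).mem, _, hcm _, hb1 _⟩, ⟨(hN3 _).mem, _, hcm _, hb3 _⟩,
      ⟨_, hcm _, hb2 _⟩, (hN2 _).mem, fun w hw => ((hN2 _).adj hw).mem⟩) with h | ⟨g3, hg3, hg3p⟩
  · exact hK h
  -- the index maps
  have hexb : ∀ j : Fin (M4 q), ∃ b, b ≤ L' ∧ (b + 2 ≤ c (g (g2 (g3 j))) ∨
      c (g (g2 (g3 j))) + 2 ≤ b) ∧ G.Adj (p (a2 (g2 (g3 j)))) (u b) := by
    intro j
    obtain ⟨x, y, hxy⟩ := hg3p j
    obtain ⟨T, hT, hT'⟩ := nbrs_on (n := 4) hG (A := seg u 0 L') (p := u) (L := L')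
      (fun v hv => by
        obtain ⟨i, _, hi, rfl⟩ := hv
        exact ⟨i, hi, rfl⟩) hxy (by omega)
    by_contra hcon
    push Not at hcon
    have hsub : T ⊆ {c (g (g2 (g3 j))) - 1, c (g (g2 (g3 j))), c (g (g2 (g3 j))) + 1} := by
      intro b hb
      have e1 := hT' b hb
      have e2 := hcon b e1.1
      by_cases e3 : b + 2 ≤ c (g (g2 (g3 j))) ∨ c (g (g2 (g3 j))) + 2 ≤ b
      · exact absurd e1.2 (e2 e3)
      · rw [Finset.mem_insert, Finset.mem_insert, Finset.mem_singleton]
        omega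
    have e4 := Finset.card_le_card hsub
    have e5 := Finset.card_le_three (a := c (g (g2 (g3 j))) - 1) (b := c (g (g2 (g3 j))))
      (c := c (g (g2 (g3 j))) + 1)
    omega
  choose b hbL hbc hbadj using hexb
  have hinj : ∀ i j : Fin (M4 q), i ≠ j → g2 (g3 i) ≠ g2 (g3 j) := fun i j hij =>
    hg2.ne (hg3.ne hij)
  have hcL : ∀ j, c j ≤ L' := fun j => by have := h1 j; omega
  rcases split_root (D0 := D0) U q (M5 q) (M4 q) hq le_rfl (fun j => {p (a2 (g2 (g3 j)))})
    (fun j => min (b j) (c (g (g2 (g3 j))))) (fun j => max (b j) (c (g (g2 (g3 j)))))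
    (by
      intro j
      have e1 := hbc j
      have e2 := hbL j
      have e3 := hcL (g (g2 (g3 j)))
      show min (b j) (c (g (g2 (g3 j)))) < max (b j) (c (g (g2 (g3 j)))) ∧
        max (b j) (c (g (g2 (g3 j)))) ≤ L'
      omega) (fun j => conn_singleton _) (by
      intro i j hij
      rw [Set.disjoint_singleton]
      intro h
      have e1 := ha1 (g2 (g3 i))
      have e2 := ha2 (g2 (g3 i))
      have e3 := ha3 (g2 (g3 i))
      have e4 := ha1 (g2 (g3 j))
      have e5 := ha2 (g2 (g3 j))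
      have e6 := ha3 (g2 (g3 j))
      have e7 := P.inj _ (by omega) _ (by omega) h
      rcases hg2p _ _ (hg3.ne hij) with h' | h' <;> omega)
    (by
      intro j
      rw [Set.disjoint_singleton_right]
      exact hP2.mem _ (by have := ha2 (g2 (g3 j)); have := ha3 (g2 (g3 j)); omega))
    (by
      intro j
      refine ⟨⟨_, rfl, ?_⟩, ⟨_, rfl, ?_⟩⟩
      · show G.Adj (u (min (b j) (c (g (g2 (g3 j)))))) _
        rcases le_total (b j) (c (g (g2 (g3 j)))) with h | h
        · rw [min_eq_left h]; exact (hbadj j).symm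
        · rw [min_eq_right h]; exact hb2 _
      · show G.Adj (u (max (b j) (c (g (g2 (g3 j)))))) _
        rcases le_total (b j) (c (g (g2 (g3 j)))) with h | h
        · rw [max_eq_right h]; exact hb2 _
        · rw [max_eq_left h]; exact (hbadj j).symm) (fun j => ⟨_, rfl, (hN2 _).mem⟩) with
    h | ⟨g4, hg4, hg4p⟩
  · exact hK h
  -- crossing cells
  apply hK
  refine cross_root P U hdis q (M5 q) le_rfl (fun j => a1 (g2 (g3 (g4 j)))) (fun j => a2 (g2 (g3 (g4 j))))
    (fun j => a3 (g2 (g3 (g4 j)))) (fun j => b (g4 j)) (fun j => c (g (g2 (g3 (g4 j)))))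
    (fun j => ⟨ha1 _, ha2 _, ha3 _, hbL _, hcL _, hbc _, hb1 _, hb3 _, hbadj _⟩) ?_ hg4p ?_
  · intro i j hij
    exact hg2p _ _ (hg3.ne (hg4.ne hij))
  · intro j
    have e1 := hbc (g4 j)
    have e2 := hbL (g4 j)
    have e3 := hcL (g (g2 (g3 (g4 j))))
    have e4 : Nr G D0 2 (u (b (g4 j))) := (hN2 _).adj (hbadj _)
    have e5 : Nr G D0 2 (u (c (g (g2 (g3 (g4 j)))))) := (hNc _).mono (by omega)
    refine ⟨?_, ?_⟩
    · rcases e1 with e1 | e1
      · rw [min_eq_left (by omega)]
        exact (e4.adj (U.adj _ (by omega))).mem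
      · rw [min_eq_right (by omega)]
        exact (e5.adj (U.adj _ (by omega))).mem
    · have e6 : ∀ i, i ≤ L' → 1 ≤ i → Nr G D0 2 (u i) → u (i - 1) ∈ D0 := by
        intro i hi hi1 hN
        have e7 := U.adj (i - 1) (by omega)
        rw [show i - 1 + 1 = i by omega] at e7
        exact (hN.adj e7.symm).mem
      rcases e1 with e1 | e1
      · rw [max_eq_right (by omega)]
        exact e6 _ e3 (by omega) e5
      · rw [max_eq_left (by omega)]
        exact e6 _ e2 (by omega) e4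

end

end TWk
end

section

/-!
# MP_cfc9ed_co: large balls in 6-connected graphs contain the leaves of a `K_{2,q}` minor
-/

set_option autoImplicit false

namespace TWk

open SimpleGraph Relation

/-- balls -/
theorem exists_far_root {V : Type} [Fintype V] (G : SimpleGraph V) (Δ L0 ρ : ℕ) {D : Set V}
    (hΔ : ∀ v, (G.neighborSet v ∩ D).ncard ≤ Δ) (hV : (Δ + 1) ^ L0 < Fintype.card V) {s : V}
    (hs : Nr G D ρ s) (hρ : L0 ≤ ρ) :
    ∃ t, t ≠ s ∧ ∀ (W : Set V) (L : ℕ) (p : ℕ → V), PD G W s L p → p L = t → L0 < L := by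
  classical
  have hball : ∀ n : ℕ, n ≤ ρ → ∃ B : Finset V, B.card ≤ (Δ + 1) ^ n ∧ s ∈ B ∧
      (∀ v ∈ B, Nr G D (ρ - n) v) ∧
      ∀ (p : ℕ → V) (L : ℕ), L ≤ n → p 0 = s → (∀ i < L, G.Adj (p i) (p (i + 1))) → p L ∈ B := by
    intro n
    induction n with
    | zero =>
      intro _
      refine ⟨{s}, by simp, Finset.mem_singleton_self _, ?_, ?_⟩
      · intro v hv
        rw [Finset.mem_singleton.1 hv]
        exact hs
      · intro p L hL h0 _
        rw [show L = 0 by omega, h0]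
        exact Finset.mem_singleton_self _
    | succ n ih =>
      intro hn
      obtain ⟨B, hB, hsB, hBN, hB'⟩ := ih (by omega)
      have hBN' : ∀ v ∈ B, Nr G D (ρ - (n + 1) + 1) v := by
        intro v hv
        have := hBN v hv
        rwa [show ρ - n = ρ - (n + 1) + 1 by omega] at this
      refine ⟨B ∪ B.biUnion fun v => (Set.toFinite (G.neighborSet v)).toFinset, ?_,
        Finset.mem_union_left _ hsB, ?_, ?_⟩
      · have h1 := Finset.card_union_le B
          (B.biUnion fun v => (Set.toFinite (G.neighborSet v)).toFinset)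
        have h2 : (B.biUnion fun v => (Set.toFinite (G.neighborSet v)).toFinset).card ≤
            B.card * Δ := by
          refine Finset.card_biUnion_le_card_mul _ _ _ fun v hv => ?_
          rw [← Set.ncard_eq_toFinset_card _ (Set.toFinite _)]
          refine le_trans (Set.ncard_le_ncard ?_ (Set.toFinite _)) (hΔ v)
          intro w hw
          exact ⟨hw, ((hBN' v hv).adj hw).mem⟩
        have h3 : B.card + B.card * Δ = B.card * (Δ + 1) := by ring
        rw [pow_succ]
        calc _ ≤ B.card + B.card * Δ := by omega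
          _ = B.card * (Δ + 1) := h3
          _ ≤ (Δ + 1) ^ n * (Δ + 1) := Nat.mul_le_mul_right _ hB
      · intro v hv
        rcases Finset.mem_union.1 hv with h | h
        · exact (hBN' v h).mono (by omega)
        · obtain ⟨w, hw, hwv⟩ := Finset.mem_biUnion.1 h
          rw [Set.Finite.mem_toFinset, mem_neighborSet] at hwv
          exact (hBN' w hw).adj hwv
      · intro p L hL h0 hadj
        rw [Finset.mem_union, Finset.mem_biUnion]
        by_cases h : L ≤ n
        · exact Or.inl (hB' p L h h0 hadj)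
        · right
          refine ⟨p n, hB' p n le_rfl h0 fun i hi => hadj i (by omega), ?_⟩
          rw [Set.Finite.mem_toFinset, mem_neighborSet, show L = n + 1 by omega]
          exact hadj n (by omega)
  obtain ⟨B, hB, hsB, -, hB'⟩ := hball L0 hρ
  obtain ⟨t, ht⟩ : ∃ t, t ∉ B := by
    by_contra h
    push Not at h
    have h1 := Finset.card_le_card (fun x _ => h x : Finset.univ ⊆ B)
    rw [Finset.card_univ] at h1
    omega
  refine ⟨t, fun h => ht (by rw [h]; exact hsB), ?_⟩
  intro W L p P hpt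
  by_contra hcon
  apply ht
  rw [← hpt]
  exact hB' p L (by omega) P.zero P.adj

/-- walks from a deep vertex -/
theorem Nr.walk {V : Type*} {G : SimpleGraph V} {D : Set V} {ρ : ℕ} {s : V} (hs : Nr G D ρ s)
    {p : ℕ → V} {L : ℕ} (h0 : p 0 = s) (hadj : ∀ i < L, G.Adj (p i) (p (i + 1))) :
    ∀ i ≤ L, i ≤ ρ → Nr G D (ρ - i) (p i) := by
  intro i
  induction i with
  | zero => intro _ _; rw [h0]; exact hs
  | succ i ih =>
    intro hi hρ
    have h1 := ih (by omega) (by omega)
    rw [show ρ - i = ρ - (i + 1) + 1 by omega] at h1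
    exact h1.adj (hadj i (by omega))

/-- **rooted `K_{2,q}` minors in 6-connected graphs** -/
theorem six_two_root (q N1 : ℕ) (hq : 0 < q) : ∃ ρ, ∀ (V : Type) [Fintype V]
    (G : SimpleGraph V), Conn G 6 → ∀ (D : Set V) (s : V),
    (∀ v, (G.neighborSet v ∩ D).ncard ≤ N1) → Nr G D ρ s → (N1 + 1) ^ ρ < Fintype.card V →
    K2D G D q := by
  obtain ⟨N2, hN2⟩ := greedy (3 * M1 q) q
  refine ⟨N1 * N2 + 10, ?_⟩
  intro V _ G hG D s hΔ hs hV
  classical
  by_contra hK
  obtain ⟨L0, hL0⟩ : ∃ L0, L0 = N1 * N2 + 3 := ⟨_, rfl⟩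
  obtain ⟨t, hts, hfar⟩ := exists_far_root G N1 L0 (N1 * N2 + 10) hΔ
    (lt_of_le_of_lt (Nat.pow_le_pow_right (by omega) (by omega)) hV) hs (by omega)
  obtain ⟨z, hz⟩ : ∃ z, z ∉ ({s, t} : Finset V) := by
    by_contra h
    push Not at h
    have h1 := Finset.card_le_card (fun x _ => h x : Finset.univ ⊆ ({s, t} : Finset V))
    rw [Finset.card_univ] at h1
    have := Finset.card_le_two (a := s) (b := t)
    have := hG.1
    omega
  rw [Finset.mem_insert, Finset.mem_singleton, not_or] at hz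
  have hG3 : Conn G 3 := ⟨by have := hG.1; omega, fun X hX => hG.2 X (by omega)⟩
  obtain ⟨L, p, P, hpt, hch, hW⟩ := nonsep hG3 (s := s) (t := t) (z := z) (Ne.symm hz.1)
    (Ne.symm hz.2)
  have hL := hfar _ L p P hpt
  have hA : (G.induce (seg p 0 L)).Connected := seg_conn P (Nat.zero_le _) le_rfl
  have hnear : ∀ i ≤ L0, Nr G D (N1 * N2 + 10 - i) (p i) := fun i hi =>
    hs.walk P.zero P.adj i (by omega) (by omega)
  -- neighbours outside of the path
  have hout : ∀ i : ℕ, 0 < i → i < L → ∃ w, G.Adj (p i) w ∧ w ∉ seg p 0 L := by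
    intro i hi hiL
    by_contra hcon
    push Not at hcon
    have h1 : G.neighborSet (p i) ⊆ ↑({p (i - 1), p (i + 1)} : Finset V) := by
      intro w hw
      obtain ⟨j, _, hj, rfl⟩ := hcon w hw
      have hij : i ≠ j := fun h => G.irrefl (by
        rw [← h] at hw
        exact hw)
      rw [Finset.mem_coe, Finset.mem_insert, Finset.mem_singleton]
      by_cases h2 : j + 2 ≤ i
      · exact absurd hw.symm (hch j i h2 (by omega))
      · by_cases h3 : i + 2 ≤ j
        · exact absurd hw (hch i j h3 hj)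
        · by_cases h4 : j < i
          · exact Or.inl (by rw [show j = i - 1 by omega])
          · exact Or.inr (by rw [show j = i + 1 by omega])
    have h2 := Set.ncard_le_ncard h1 (Set.toFinite _)
    rw [Set.ncard_coe_finset] at h2
    have h3 := Finset.card_le_two (a := p (i - 1)) (b := p (i + 1))
    have h4 := deg_ge hG (p i)
    omega
  have hex : ∀ i : ℕ, ∃ w, 0 < i → i < L → G.Adj (p i) w ∧ w ∉ seg p 0 L := by
    intro i
    by_cases h : 0 < i ∧ i < L
    · obtain ⟨w, hw⟩ := hout i h.1 h.2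
      exact ⟨w, fun _ _ => hw⟩
    · exact ⟨s, fun h1 h2 => absurd ⟨h1, h2⟩ h⟩
  choose w hw using hex
  set S : Set V := {v | ∃ i ≤ L0, G.Adj (p i) v} with hS
  have hSD : ∀ v ∈ S, Nr G D 4 v ∧ ∃ a ∈ seg p 0 L, G.Adj a v := by
    rintro v ⟨i, hi, hiv⟩
    refine ⟨?_, p i, mem_seg (Nat.zero_le _) (by omega), hiv⟩
    have h1 := hnear i hi
    rw [show N1 * N2 + 10 - i = N1 * N2 + 9 - i + 1 by omega] at h1
    exact (h1.adj hiv).mono (by omega)
  have hcard : N2 ≤ (S ∩ (seg p 0 L)ᶜ).ncard := by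
    have h1 := Finset.card_le_mul_card_image (f := w) (Finset.Ico 1 L0) N1 (by
      intro v _
      have h2 : ((Finset.Ico 1 L0).filter fun i => w i = v).image p ⊆
          (Set.toFinite (G.neighborSet v ∩ D)).toFinset := by
        intro x hx
        obtain ⟨i, hi, rfl⟩ := Finset.mem_image.1 hx
        obtain ⟨hi1, hi2⟩ := Finset.mem_filter.1 hi
        have hi3 := Finset.mem_Ico.1 hi1
        rw [Set.Finite.mem_toFinset, Set.mem_inter_iff, mem_neighborSet, ← hi2]
        exact ⟨(hw i (by omega) (by omega)).1.symm, (hnear i (by omega)).mem⟩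
      have h3 := Finset.card_le_card h2
      rw [← Set.ncard_eq_toFinset_card _ (Set.toFinite _)] at h3
      rw [Finset.card_image_of_injOn] at h3
      · exact h3.trans (hΔ v)
      · intro i hi j hj hij
        have hi' := Finset.mem_Ico.1 (Finset.mem_filter.1 (Finset.mem_coe.1 hi)).1
        have hj' := Finset.mem_Ico.1 (Finset.mem_filter.1 (Finset.mem_coe.1 hj)).1
        exact P.inj i (by omega) j (by omega) hij)
    rw [Nat.card_Ico] at h1
    have h2 : N2 ≤ ((Finset.Ico 1 L0).image w).card := by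
      by_contra h
      push Not at h
      have h3 : N1 * ((Finset.Ico 1 L0).image w).card ≤ N1 * N2 := Nat.mul_le_mul_left _ h.le
      omega
    refine h2.trans ?_
    rw [← Set.ncard_coe_finset]
    refine Set.ncard_le_ncard ?_ (Set.toFinite _)
    intro v hv
    obtain ⟨i, hi, rfl⟩ := Finset.mem_image.1 (Finset.mem_coe.1 hv)
    have hi' := Finset.mem_Ico.1 hi
    have h3 := hw i (by omega) (by omega)
    exact ⟨⟨i, by omega, h3.1⟩, h3.2⟩
  obtain ⟨⟨r, hr⟩⟩ := hW.nonempty
  rcases hN2 V G S _ r hW hr hcard with ⟨L', u, U, hu⟩ | ⟨B, C, -, h⟩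
  · exact hK (two_paths_root hG P U q hq hSD hu)
  · exact hK (k2_of_RK hA (fun v hv => hv) (fun v hv => ⟨(hSD v hv).1.mem, (hSD v hv).2⟩) h)

end TWk
end

section

/-!
# MP_cfc9ed_co: graphs without `K_{b+2,k}` minor, few connected sets with many neighbours in a small set
-/

set_option autoImplicit false

namespace TWk

open SimpleGraph Relation

/-- few small connected sets with `b + 1` neighbours in `X` -/
theorem few_teeth (s b k : ℕ) (hs : 1 ≤ s) (hk : 1 ≤ k) : ∃ C, ∀ (V : Type) [Fintype V]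
    (G : SimpleGraph V), Conn G (b + 2 * s + 2) → ¬ HasK G (b + 2) k → ∀ (X : Finset V) (n : ℕ)
    (F : Fin n → Finset V), (∀ i, (∀ x ∈ F i, x ∉ X) ∧ (F i).card ≤ s ∧
      (G.induce (↑(F i) : Set V)).Connected) → (∀ i j, i ≠ j → Disjoint (F i) (F j)) →
    (∀ i, b + 1 ≤ (nS G X ↑(F i)).card) → n ≤ C * X.card := by
  obtain ⟨N, hN⟩ := upgrade_over s k (b + 1) hs
  obtain ⟨C, hC⟩ := many_types (b + 2) k (b + 1) N hk (by omega)
  refine ⟨C, ?_⟩
  intro V _ G hG hK X n F hF hd hX
  classical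
  by_contra hcon
  push Not at hcon
  obtain ⟨T, hTX, hTc, g, hg, hgT⟩ := hC V G hK X n (fun i => ↑(F i)) (fun i => (hF i).2.2)
    (fun i j hij => Finset.disjoint_coe.2 (hd i j hij)) (fun i => (hF i).1) hX hcon
  apply hK
  refine hN b V G hG T hTc.le N (fun j => F (g j)) le_rfl (fun j => ⟨fun x hx hxT =>
    (hF _).1 x hx (hTX hxT), (hF _).2⟩) (fun i j hij => hd _ _ (hg.ne hij)) fun j =>
    ⟨T, subset_rfl, hTc, fun x hx => (mem_nS.1 (hgT j hx)).2⟩

/-- few connected sets with `b + 2` neighbours in `X` -/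
theorem few_sets (b k : ℕ) (hk : 1 ≤ k) : ∃ C, ∀ (V : Type) [Fintype V]
    (G : SimpleGraph V), ¬ HasK G (b + 2) k → ∀ (X : Finset V) (n : ℕ)
    (F : Fin n → Set V), (∀ i, (G.induce (F i)).Connected) →
    (∀ i j, i ≠ j → Disjoint (F i) (F j)) → (∀ i, ∀ x ∈ F i, x ∉ X) →
    (∀ i, b + 2 ≤ (nS G X (F i)).card) → n ≤ C * X.card := by
  obtain ⟨C, hC⟩ := many_types (b + 2) k (b + 2) k hk (by omega)
  refine ⟨C, ?_⟩
  intro V _ G hK X n F hF hd hFX hX
  classical
  by_contra hcon
  push Not at hcon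
  obtain ⟨T, hTX, hTc, g, hg, hgT⟩ := hC V G hK X n F hF hd hFX hX hcon
  apply hK
  let e := Finset.equivFinOfCardEq hTc
  refine hasK_of (fun i => {((e.symm i : T) : V)}) (fun j => F (g j))
    (fun i => conn_singleton _) (fun j => hF _) ?_ (fun i j hij => hd _ _ (hg.ne hij)) ?_ ?_
  · intro i j hij
    rw [Set.disjoint_singleton]
    exact fun h => hij (e.symm.injective (Subtype.ext h))
  · intro i j
    rw [Set.disjoint_singleton_left]
    exact fun h => hFX _ _ h (hTX (e.symm i).2)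
  · intro i j
    obtain ⟨y, hy, hxy⟩ := (mem_nS.1 (hgT j (e.symm i).2)).2
    exact ⟨_, rfl, y, hy, hxy⟩

/-- vertices outside of `T0` have few neighbours in `K` -/
theorem high_deg (b k : ℕ) : ∃ N1, ∀ (V : Type) [Fintype V] (G : SimpleGraph V),
    Conn G (b + 4) → ¬ HasK G (b + 2) k → ∀ (K : Set V) (T0 : Finset V), T0.card = b →
    (∀ v ∈ K, ∀ x ∈ T0, G.Adj x v) → ∀ x, x ∉ T0 → (G.neighborSet x ∩ K).ncard ≤ N1 := by
  obtain ⟨N, hN⟩ := upgrade_over 1 k (b + 1) le_rfl
  refine ⟨N, ?_⟩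
  intro V _ G hG hK K T0 hT0 hadj x hx
  classical
  by_contra hcon
  push Not at hcon
  apply hK
  set Y : Finset V := (Set.toFinite (G.neighborSet x ∩ K)).toFinset with hY
  have hYc : N < Y.card := by
    rw [hY, ← Set.ncard_eq_toFinset_card _ (Set.toFinite _)]
    exact hcon
  have hYm : ∀ v ∈ Y, G.Adj x v ∧ v ∈ K := fun v hv => by
    rw [hY, Set.Finite.mem_toFinset] at hv
    exact hv
  let e := Y.equivFin
  have hTc : (insert x T0).card = b + 1 := by
    rw [Finset.card_insert_of_notMem hx, hT0]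
  refine hN b V G (hG.mono (by omega)) (insert x T0) hTc.le Y.card
    (fun i => {((e.symm i : Y) : V)}) hYc.le (fun i => ⟨?_, by rw [Finset.card_singleton], ?_⟩)
    ?_ ?_
  · intro y hy hyT
    have h1 := hYm _ (e.symm i).2
    rw [Finset.mem_singleton.1 hy] at hyT
    rcases Finset.mem_insert.1 hyT with h | h
    · rw [h] at h1
      exact G.irrefl h1.1
    · exact G.irrefl (hadj _ h1.2 _ h)
  · rw [Finset.coe_singleton]
    exact conn_singleton _
  · intro i j hij
    rw [Finset.disjoint_singleton]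
    exact fun h => hij (e.symm.injective (Subtype.ext h))
  · intro i
    have h1 := hYm _ (e.symm i).2
    refine ⟨insert x T0, subset_rfl, hTc, fun y hy => ⟨_, Finset.mem_singleton_self _, ?_⟩⟩
    rcases Finset.mem_insert.1 hy with h | h
    · rw [h]; exact h1.1
    · exact hadj _ h1.2 _ h

/-- images of connected sets -/
theorem conn_image {V W : Type*} {G : SimpleGraph V} {H : SimpleGraph W} (f : W → V)
    (hf : ∀ x y, H.Adj x y → G.Adj (f x) (f y)) {A : Set W} (hA : (H.induce A).Connected) :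
    (G.induce (f '' A)).Connected := by
  obtain ⟨⟨c, hc⟩⟩ := hA.nonempty
  refine conn_of_RI (c := f c) ⟨c, hc, rfl⟩ ?_
  rintro _ ⟨y, hy, rfl⟩
  have key : y ∈ {w | RI G (f '' A) (f c) (f w)} := by
    refine RI.closed (RI_of_conn hA hc hy) (RI.refl ⟨c, hc, rfl⟩) ?_
    intro v hv hvs w hws hvw
    exact RI.trans hv (RI.adj ⟨v, hvs, rfl⟩ ⟨w, hws, rfl⟩ (hf _ _ hvw))
  exact key

/-- **a large connected part with small boundary in which all vertices are adjacent to `T0`** -/
theorem endgame (b k : ℕ) (hk : 1 ≤ k) : ∃ M, 1 ≤ M ∧ ∀ (V : Type) [Fintype V]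
    (G : SimpleGraph V), Conn G (b + 6) → ¬ HasK G (b + 2) k → ∀ (K : Set V) (T0 Z : Finset V),
    T0.card = b → (∀ v ∈ K, ∀ x ∈ T0, G.Adj x v) → (∀ v ∈ K, v ∉ Z) →
    (∀ v ∈ K, ∀ w, G.Adj v w → w ∈ K ∨ w ∈ Z) → K.ncard ≤ M * ((nS G Z K).card + 1) := by
  obtain ⟨N1, hN1⟩ := high_deg b k
  obtain ⟨ρ, hρ⟩ := six_two_root k N1 (by omega)
  refine ⟨(N1 + 1) ^ ρ * N1 + (N1 + 1) ^ ρ + 7, by omega, ?_⟩
  intro V _ G hG hK K T0 Z hT0 hadj hKZ hcl
  classical
  by_contra hcon
  push Not at hcon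
  have hpow : 1 ≤ (N1 + 1) ^ ρ := Nat.one_le_pow _ _ (by omega)
  have hcon' : (N1 + 1) ^ ρ * N1 * (nS G Z K).card + ((N1 + 1) ^ ρ + 7) < K.ncard := by
    refine lt_of_le_of_lt ?_ hcon
    have h1 : ((N1 + 1) ^ ρ * N1 + (N1 + 1) ^ ρ + 7) * ((nS G Z K).card + 1) =
        (N1 + 1) ^ ρ * N1 * (nS G Z K).card + ((N1 + 1) ^ ρ + 7) +
        (((N1 + 1) ^ ρ + 7) * (nS G Z K).card + (N1 + 1) ^ ρ * N1) := by ring
    rw [h1]
    exact Nat.le_add_right _ _
  have hT0K : ∀ v ∈ K, v ∉ T0 := fun v hv h => G.irrefl (hadj v hv v h)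
  have hdeg := hN1 V G (hG.mono (by omega)) hK K T0 hT0 hadj
  -- the graph without `T0`
  set Kc : Set V := {v | v ∉ T0} with hKc
  let H := Tor G Kc (∅ : Finset V)
  have hmemH : ∀ v : {v : V // v ∈ Kc ∨ v ∈ (∅ : Finset V)}, v.1 ∉ T0 := fun v =>
    v.2.elim (fun h => h) fun h => absurd h (Finset.notMem_empty _)
  have hHadj : ∀ x y, H.Adj x y ↔ G.Adj x.1 y.1 := by
    intro x y
    constructor
    · rintro ⟨_, h | h⟩
      · exact h
      · exact absurd h.1 (Finset.notMem_empty _)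
    · intro h
      exact ⟨fun h' => G.irrefl (by rw [h'] at h; exact h), Or.inl h⟩
  have hcardH : (N1 + 1) ^ ρ + 7 < Fintype.card {v : V // v ∈ Kc ∨ v ∈ (∅ : Finset V)} := by
    rw [← Nat.card_eq_fintype_card]
    have h1 : K.ncard ≤ {v : V | v ∈ Kc ∨ v ∈ (∅ : Finset V)}.ncard :=
      Set.ncard_le_ncard (fun v hv => Or.inl (hT0K v hv)) (Set.toFinite _)
    have h2 : Nat.card {v : V // v ∈ Kc ∨ v ∈ (∅ : Finset V)} =
        {v : V | v ∈ Kc ∨ v ∈ (∅ : Finset V)}.ncard := rfl
    rw [h2]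
    omega
  have hHc : Conn H 6 := Tor_conn (b := b) (κ := 6) hG T0 hT0.le
    (fun v hv => ⟨fun h => h hv, Finset.notMem_empty _⟩) (fun v _ w _ => by
      by_cases h : w ∈ T0
      · exact Or.inr (Or.inr h)
      · exact Or.inl h) (by omega)
  set D : Set {v : V // v ∈ Kc ∨ v ∈ (∅ : Finset V)} := {v | v.1 ∈ K} with hD
  -- bad vertices
  set bad : ℕ → Finset V := fun n => Finset.univ.filter fun y => y ∈ K ∧
    ∀ h : y ∈ Kc ∨ y ∈ (∅ : Finset V), ¬ Nr H D n ⟨y, h⟩ with hbad
  set bd : Finset V := (nS G Z K).biUnion fun x => if x ∈ T0 then ∅ else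
    (Set.toFinite (G.neighborSet x ∩ K)).toFinset with hbd
  have hbdc : bd.card ≤ (nS G Z K).card * N1 := by
    refine Finset.card_biUnion_le_card_mul _ _ _ fun x _ => ?_
    split_ifs with h
    · simp
    · rw [← Set.ncard_eq_toFinset_card _ (Set.toFinite _)]
      exact hdeg x h
  have hbadc : ∀ n, (bad n).card ≤ bd.card * (N1 + 1) ^ n := by
    intro n
    induction n with
    | zero =>
      have : bad 0 = ∅ := by
        rw [Finset.eq_empty_iff_forall_notMem]
        intro y hy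
        obtain ⟨-, hyK, hyn⟩ := Finset.mem_filter.1 hy
        exact hyn (Or.inl (hT0K y hyK)) hyK
      rw [this, Finset.card_empty]
      exact Nat.zero_le _
    | succ n ih =>
      have hsub : bad (n + 1) ⊆ bd ∪ (bad n).biUnion fun x =>
          (Set.toFinite (G.neighborSet x ∩ K)).toFinset := by
        intro y hy
        obtain ⟨-, hyK, hyn⟩ := Finset.mem_filter.1 hy
        have h1 := hyn (Or.inl (hT0K y hyK))
        have h2 : ¬ ∀ w, H.Adj ⟨y, Or.inl (hT0K y hyK)⟩ w → Nr H D n w := fun h => h1 ⟨hyK, h⟩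
        push Not at h2
        obtain ⟨w, hyw, hw⟩ := h2
        rw [hHadj] at hyw
        rw [Finset.mem_union]
        rcases hcl y hyK w.1 hyw with hwK | hwZ
        · right
          refine Finset.mem_biUnion.2 ⟨w.1, Finset.mem_filter.2 ⟨Finset.mem_univ _, hwK,
            fun _ => hw⟩, ?_⟩
          rw [Set.Finite.mem_toFinset]
          exact ⟨hyw.symm, hyK⟩
        · left
          refine Finset.mem_biUnion.2 ⟨w.1, mem_nS.2 ⟨hwZ, y, hyK, hyw.symm⟩, ?_⟩
          rw [if_neg (hmemH w), Set.Finite.mem_toFinset]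
          exact ⟨hyw.symm, hyK⟩
      have h1 := (Finset.card_le_card hsub).trans (Finset.card_union_le _ _)
      have h2 : ((bad n).biUnion fun x => (Set.toFinite (G.neighborSet x ∩ K)).toFinset).card ≤
          (bad n).card * N1 := by
        refine Finset.card_biUnion_le_card_mul _ _ _ fun x hx => ?_
        rw [← Set.ncard_eq_toFinset_card _ (Set.toFinite _)]
        exact hdeg x (hT0K x (Finset.mem_filter.1 hx).2.1)
      have h3 : (bad n).card * N1 ≤ bd.card * (N1 + 1) ^ n * N1 := Nat.mul_le_mul_right _ ih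
      have h4 : bd.card * (N1 + 1) ^ (n + 1) = bd.card * (N1 + 1) ^ n * N1 +
          bd.card * (N1 + 1) ^ n := by rw [pow_succ]; ring
      have h5 : bd.card ≤ bd.card * (N1 + 1) ^ n :=
        Nat.le_mul_of_pos_right _ (Nat.pow_pos (by omega))
      omega
  -- a deep vertex
  obtain ⟨s, hsK, hsb⟩ : ∃ s ∈ K, s ∉ bad ρ := by
    by_contra h
    push Not at h
    have h1 : K.ncard ≤ (bad ρ).card := by
      rw [← Set.ncard_coe_finset]
      exact Set.ncard_le_ncard (fun v hv => h v hv) (Set.toFinite _)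
    have h2 := hbadc ρ
    have h3 : bd.card * (N1 + 1) ^ ρ ≤ (nS G Z K).card * N1 * (N1 + 1) ^ ρ :=
      Nat.mul_le_mul_right _ hbdc
    have h4 : (nS G Z K).card * N1 * (N1 + 1) ^ ρ = (N1 + 1) ^ ρ * N1 * (nS G Z K).card := by
      ring
    omega
  have hs : Nr H D ρ ⟨s, Or.inl (hT0K s hsK)⟩ := by
    by_contra h
    exact hsb (Finset.mem_filter.2 ⟨Finset.mem_univ _, hsK, fun _ => h⟩)
  obtain ⟨A, B, C, h⟩ := hρ _ H hHc D _ (by
    intro v
    refine le_trans ?_ (hdeg v.1 (hmemH v))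
    have h1 : (H.neighborSet v ∩ D).ncard = (Subtype.val '' (H.neighborSet v ∩ D)).ncard :=
      (Set.ncard_image_of_injective _ Subtype.val_injective).symm
    rw [h1]
    refine Set.ncard_le_ncard ?_ (Set.toFinite _)
    rintro _ ⟨w, hw, rfl⟩
    exact ⟨(hHadj v w).1 hw.1, hw.2⟩) hs (by omega)
  -- the minor
  apply hK
  set im : Set {v : V // v ∈ Kc ∨ v ∈ (∅ : Finset V)} → Set V := fun S => Subtype.val '' S with him
  have himd : ∀ S S' : Set {v : V // v ∈ Kc ∨ v ∈ (∅ : Finset V)}, Disjoint S S' →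
      Disjoint (im S) (im S') := by
    intro S S' hd
    rw [Set.disjoint_left]
    rintro _ ⟨x, hx, rfl⟩ ⟨y, hy, hxy⟩
    rw [Subtype.ext hxy] at hy
    exact Set.disjoint_left.1 hd hx hy
  have himc : ∀ S, (H.induce S).Connected → (G.induce (im S)).Connected := fun S hS =>
    conn_image _ (fun x y hxy => (hHadj x y).1 hxy) hS
  have hima : ∀ S S' : Set {v : V // v ∈ Kc ∨ v ∈ (∅ : Finset V)},
      (∃ x ∈ S, ∃ y ∈ S', H.Adj x y) → ∃ x ∈ im S, ∃ y ∈ im S', G.Adj x y := by
    rintro S S' ⟨x, hx, y, hy, hxy⟩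
    exact ⟨x.1, ⟨x, hx, rfl⟩, y.1, ⟨y, hy, rfl⟩, (hHadj x y).1 hxy⟩
  let e := Finset.equivFinOfCardEq hT0
  have hAT : ∀ (S : Set {v : V // v ∈ Kc ∨ v ∈ (∅ : Finset V)}) (i : Fin b),
      Disjoint (im S) {((e.symm i : T0) : V)} := by
    intro S i
    rw [Set.disjoint_singleton_right]
    rintro ⟨x, _, hx⟩
    exact hmemH x (by rw [hx]; exact (e.symm i).2)
  refine hasK_of (Fin.cons (im A) (Fin.cons (im B) fun i => {((e.symm i : T0) : V)}))
    (fun j => im (C j)) ?_ (fun j => himc _ (h.connC j)) ?_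
    (fun i j hij => himd _ _ (h.disjC i j hij)) ?_ ?_
  · intro i
    induction i using Fin.cases with
    | zero => exact himc _ h.connA
    | succ i =>
      induction i using Fin.cases with
      | zero => exact himc _ h.connB
      | succ i => exact conn_singleton _
  · intro i j
    induction i using Fin.cases with
    | zero =>
      induction j using Fin.cases with
      | zero => exact fun h => absurd rfl h
      | succ j =>
        induction j using Fin.cases with
        | zero => exact fun _ => himd _ _ h.disjAB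
        | succ j => exact fun _ => hAT A j
    | succ i =>
      induction i using Fin.cases with
      | zero =>
        induction j using Fin.cases with
        | zero => exact fun _ => (himd _ _ h.disjAB).symm
        | succ j =>
          induction j using Fin.cases with
          | zero => exact fun h => absurd rfl h
          | succ j => exact fun _ => hAT B j
      | succ i =>
        induction j using Fin.cases with
        | zero => exact fun _ => (hAT A i).symm
        | succ j =>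
          induction j using Fin.cases with
          | zero => exact fun _ => (hAT B i).symm
          | succ j =>
            intro h
            show Disjoint ({((e.symm i : T0) : V)} : Set V) {((e.symm j : T0) : V)}
            rw [Set.disjoint_singleton]
            exact fun h' => h (by rw [e.symm.injective (Subtype.ext h')])
  · intro i j
    induction i using Fin.cases with
    | zero => exact himd _ _ (h.disjA j)
    | succ i =>
      induction i using Fin.cases with
      | zero => exact himd _ _ (h.disjB j)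
      | succ i => exact (hAT (C j) i).symm
  · intro i j
    induction i using Fin.cases with
    | zero => exact hima _ _ (h.adjA j)
    | succ i =>
      induction i using Fin.cases with
      | zero => exact hima _ _ (h.adjB j)
      | succ i =>
        obtain ⟨y, hy, hyD⟩ := h.root j
        exact ⟨_, rfl, y.1, ⟨y, hy, rfl⟩, hadj y.1 hyD _ (e.symm i).2⟩

end TWk
end

section

/-!
# MP_cfc9ed_co: sets with small boundary which send many edges to their boundary
-/

set_option autoImplicit false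

namespace TWk

open SimpleGraph Relation

theorem sum_fin {V : Type} (S : Finset V) (f : V → ℕ) :
    ∑ i : Fin S.card, f (S.equivFin.symm i) = ∑ v ∈ S, f v := by
  rw [← Finset.sum_coe_sort S f]
  exact Equiv.sum_comp S.equivFin.symm (fun v : S => f v.1)

/-- **core** -/
theorem core (b k : ℕ) (hk : 1 ≤ k) : ∃ m, 1 ≤ m ∧ ∀ (V : Type) [Fintype V]
    (G : SimpleGraph V), Conn G (b + 6) → ∀ (W X : Finset V), Disjoint W X →
    (∀ v ∈ W, ∀ w, G.Adj v w → w ∈ W ∨ w ∈ X) → m ≤ W.card → m * X.card ≤ W.card →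
    m * (b * W.card) ≤ m * ∑ w ∈ W, (nS G X {w}).card + W.card → HasK G (b + 2) k := by
  obtain ⟨C1, hC1⟩ := few_teeth 1 b k le_rfl hk
  obtain ⟨C2, hC2⟩ := few_teeth 2 b k (by norm_num) hk
  obtain ⟨C3, hC3⟩ := few_sets b k hk
  obtain ⟨M, hM1, hM⟩ := endgame b k hk
  obtain ⟨C0, hC0⟩ : ∃ C0, C0 = 2 ^ (b + 2 + 1) * k := ⟨_, rfl⟩
  obtain ⟨C5, hC5⟩ : ∃ C5, C5 = 1 + C1 + 2 * C2 + (C0 * (1 + C1) + 1) := ⟨_, rfl⟩
  obtain ⟨C7, hC7⟩ : ∃ C7, C7 = M * C0 + M := ⟨_, rfl⟩
  obtain ⟨C6, hC6⟩ : ∃ C6, C6 = M * C0 + 1 + C7 * C3 := ⟨_, rfl⟩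
  refine ⟨C6 * C5 + C7 + 1, by omega, ?_⟩
  intro V _ G hG W X hWX hcl hW hX he
  obtain ⟨m, hm⟩ : ∃ m, m = C6 * C5 + C7 + 1 := ⟨_, rfl⟩
  rw [← hm] at hW hX he
  classical
  by_contra hK
  set t : V → Finset V := fun w => nS G X {w} with ht
  have htm : ∀ w x, x ∈ t w ↔ x ∈ X ∧ G.Adj x w := by
    intro w x
    rw [ht]
    show x ∈ nS G X {w} ↔ _
    rw [mem_nS]
    constructor
    · rintro ⟨h1, y, hy, h2⟩
      rw [Set.mem_singleton_iff.1 hy] at h2
      exact ⟨h1, h2⟩
    · rintro ⟨h1, h2⟩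
      exact ⟨h1, w, rfl, h2⟩
  have hWX' : ∀ v ∈ W, v ∉ X := fun v hv hv' => Finset.disjoint_left.1 hWX hv hv'
  -- exceptional vertices
  set E3 : Finset V := W.filter fun w => b + 1 ≤ (t w).card with hE3
  set E4 : Finset V := W.filter fun w => (t w).card < b with hE4
  have hE3c : E3.card ≤ C1 * X.card := by
    refine hC1 V G (hG.mono (by omega)) hK X E3.card (fun i => {((E3.equivFin.symm i : E3) : V)})
      (fun i => ⟨?_, by rw [Finset.card_singleton], ?_⟩) ?_ ?_
    · intro x hx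
      rw [Finset.mem_singleton.1 hx]
      exact hWX' _ (Finset.mem_filter.1 (E3.equivFin.symm i).2).1
    · rw [Finset.coe_singleton]
      exact conn_singleton _
    · intro i j hij
      rw [Finset.disjoint_singleton]
      exact fun h => hij (E3.equivFin.symm.injective (Subtype.ext h))
    · intro i
      rw [Finset.coe_singleton]
      exact (Finset.mem_filter.1 (E3.equivFin.symm i).2).2
  have hE3s : ∑ w ∈ E3, (t w).card ≤ C0 * (X.card + E3.card) := by
    have h1 := pairs_sparse hk hK X (fun i : Fin E3.card => {((E3.equivFin.symm i : E3) : V)})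
      (fun i => conn_singleton _) (fun i j hij => by
        rw [Set.disjoint_singleton]
        exact fun h => hij (E3.equivFin.symm.injective (Subtype.ext h))) (fun i x hx => by
        rw [Set.mem_singleton_iff.1 hx]
        exact hWX' _ (Finset.mem_filter.1 (E3.equivFin.symm i).2).1)
    have h2 := sum_fin E3 (fun w => (t w).card)
    rw [← h2, hC0]
    exact h1
  have hsum : ∑ w ∈ W, (t w).card + E4.card ≤ C0 * (X.card + E3.card) + b * W.card := by
    have h1 : ∑ w ∈ W, (t w).card + E4.card ≤ ∑ w ∈ E3, (t w).card + b * W.card := by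
      have h2 : ∀ w ∈ W, (t w).card + (if w ∈ E4 then 1 else 0) ≤
          (if w ∈ E3 then (t w).card else 0) + b := by
        intro w hw
        by_cases h3 : w ∈ E3
        · have h4 : w ∉ E4 := by
            intro h4
            have h5 := (Finset.mem_filter.1 h3).2
            have h6 := (Finset.mem_filter.1 h4).2
            omega
          rw [if_pos h3, if_neg h4]
          omega
        · have h5 : (t w).card ≤ b := by
            by_contra h
            exact h3 (Finset.mem_filter.2 ⟨hw, by omega⟩)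
          rw [if_neg h3]
          by_cases h4 : w ∈ E4
          · rw [if_pos h4]
            have := (Finset.mem_filter.1 h4).2
            omega
          · rw [if_neg h4]
            omega
      have h3 := Finset.sum_le_sum h2
      rw [Finset.sum_add_distrib, Finset.sum_add_distrib, Finset.sum_const, smul_eq_mul] at h3
      have h4 : ∑ w ∈ W, (if w ∈ E4 then 1 else 0) = E4.card := by
        rw [Finset.sum_boole]
        simp only [Nat.cast_id]
        congr 1
        ext w
        rw [Finset.mem_filter]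
        exact ⟨fun h => h.2, fun h => ⟨(Finset.mem_filter.1 h).1, h⟩⟩
      have h5 : ∑ w ∈ W, (if w ∈ E3 then (t w).card else 0) = ∑ w ∈ E3, (t w).card := by
        rw [← Finset.sum_filter]
        congr 1
        ext w
        rw [Finset.mem_filter]
        exact ⟨fun h => h.2, fun h => ⟨(Finset.mem_filter.1 h).1, h⟩⟩
      rw [h4, h5, Nat.mul_comm W.card b] at h3
      exact h3
    omega
  -- a maximal matching of mixed edges
  set Wr : Finset V := (W \ E3) \ E4 with hWr
  have hWrm : ∀ v, v ∈ Wr ↔ v ∈ W ∧ v ∉ E3 ∧ v ∉ E4 := by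
    intro v
    rw [hWr, Finset.mem_sdiff, Finset.mem_sdiff, and_assoc]
  have htb : ∀ v ∈ Wr, (t v).card = b := by
    intro v hv
    obtain ⟨h1, h2, h3⟩ := (hWrm v).1 hv
    have h4 : ¬ b + 1 ≤ (t v).card := fun h => h2 (Finset.mem_filter.2 ⟨h1, h⟩)
    have h5 : ¬ (t v).card < b := fun h => h3 (Finset.mem_filter.2 ⟨h1, h⟩)
    omega
  set MP : Finset (V × V) := Finset.univ.filter fun p => p.1 ∈ Wr ∧ p.2 ∈ Wr ∧
    G.Adj p.1 p.2 ∧ t p.1 ≠ t p.2 with hMP
  have hMPm : ∀ p, p ∈ MP ↔ p.1 ∈ Wr ∧ p.2 ∈ Wr ∧ G.Adj p.1 p.2 ∧ t p.1 ≠ t p.2 := fun p => by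
    simp [hMP]
  obtain ⟨Mt, hMt, hmax⟩ := Finset.exists_max_image (MP.powerset.filter fun Mt =>
    ∀ p ∈ Mt, ∀ q ∈ Mt, p ≠ q → Disjoint ({p.1, p.2} : Finset V) {q.1, q.2}) Finset.card
    ⟨∅, by simp⟩
  rw [Finset.mem_filter, Finset.mem_powerset] at hMt
  have hWrX : ∀ v ∈ Wr, v ∉ X := fun v hv => hWX' v ((hWrm v).1 hv).1
  have hMtc : Mt.card ≤ C2 * X.card := by
    have hem : ∀ i, ((Mt.equivFin.symm i : Mt) : V × V) ∈ MP := fun i =>
      hMt.1 (Mt.equivFin.symm i).2
    refine hC2 V G (hG.mono (by omega)) hK X Mt.card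
      (fun i => {((Mt.equivFin.symm i : Mt) : V × V).1, ((Mt.equivFin.symm i : Mt) : V × V).2})
      (fun i => ⟨?_, Finset.card_le_two, ?_⟩) ?_ ?_
    · intro x hx
      have h1 := (hMPm _).1 (hem i)
      rcases Finset.mem_insert.1 hx with h | h
      · rw [h]; exact hWrX _ h1.1
      · rw [Finset.mem_singleton.1 h]; exact hWrX _ h1.2.1
    · have h1 := (hMPm _).1 (hem i)
      rw [Finset.coe_insert, Finset.coe_singleton, Set.insert_eq]
      exact conn_union (conn_singleton _) (conn_singleton _) rfl rfl (Or.inr h1.2.2.1)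
    · intro i j hij
      exact hMt.2 _ (Mt.equivFin.symm i).2 _ (Mt.equivFin.symm j).2 fun h =>
        hij (Mt.equivFin.symm.injective (Subtype.ext h))
    · intro i
      have h1 := (hMPm _).1 (hem i)
      have h2 := htb _ h1.1
      have h3 := htb _ h1.2.1
      have h4 : b + 1 ≤ (t ((Mt.equivFin.symm i : Mt) : V × V).1 ∪
          t ((Mt.equivFin.symm i : Mt) : V × V).2).card := by
        by_contra hcon2
        push Not at hcon2
        apply h1.2.2.2
        have h5 := Finset.eq_of_subset_of_card_le (Finset.subset_union_left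
          (s₁ := t ((Mt.equivFin.symm i : Mt) : V × V).1)
          (s₂ := t ((Mt.equivFin.symm i : Mt) : V × V).2)) (by omega)
        have h6 := Finset.eq_of_subset_of_card_le (Finset.subset_union_right
          (s₁ := t ((Mt.equivFin.symm i : Mt) : V × V).1)
          (s₂ := t ((Mt.equivFin.symm i : Mt) : V × V).2)) (by omega)
        exact h5.trans h6.symm
      refine h4.trans (Finset.card_le_card ?_)
      intro x hx
      rw [mem_nS]
      rcases Finset.mem_union.1 hx with h | h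
      · exact ⟨((htm _ _).1 h).1, _, Finset.mem_coe.2 (Finset.mem_insert_self _ _),
          ((htm _ _).1 h).2⟩
      · exact ⟨((htm _ _).1 h).1, _, Finset.mem_coe.2 (Finset.mem_insert_of_mem
          (Finset.mem_singleton_self _)), ((htm _ _).1 h).2⟩
  set E2 : Finset V := Mt.biUnion fun p => {p.1, p.2} with hE2
  have hE2c : E2.card ≤ 2 * (C2 * X.card) := by
    have h1 : E2.card ≤ Mt.card * 2 := Finset.card_biUnion_le_card_mul _ _ _ fun p _ =>
      Finset.card_le_two
    omega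
  have hcover : ∀ p ∈ MP, p.1 ∈ E2 ∨ p.2 ∈ E2 := by
    intro p hp
    by_contra hcon
    push Not at hcon
    have hpn : p ∉ Mt := fun h => hcon.1 (Finset.mem_biUnion.2 ⟨p, h, Finset.mem_insert_self _ _⟩)
    have hdisj : ∀ q ∈ Mt, Disjoint ({p.1, p.2} : Finset V) {q.1, q.2} := by
      intro q hq
      rw [Finset.disjoint_left]
      intro x hx hx'
      have hxE : x ∈ E2 := Finset.mem_biUnion.2 ⟨q, hq, hx'⟩
      rcases Finset.mem_insert.1 hx with h | h
      · exact hcon.1 (by rw [← h]; exact hxE)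
      · exact hcon.2 (by rw [← Finset.mem_singleton.1 h]; exact hxE)
    have h1 := hmax (insert p Mt) (by
      rw [Finset.mem_filter, Finset.mem_powerset]
      refine ⟨Finset.insert_subset hp hMt.1, ?_⟩
      intro q hq q' hq' hne
      rcases Finset.mem_insert.1 hq with h | h
      · rcases Finset.mem_insert.1 hq' with h' | h'
        · exact absurd (h.trans h'.symm) hne
        · rw [h]; exact hdisj q' h'
      · rcases Finset.mem_insert.1 hq' with h' | h'
        · rw [h']; exact (hdisj q h).symm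
        · exact hMt.2 q h q' h' hne)
    rw [Finset.card_insert_of_notMem hpn] at h1
    omega
  -- the set `Z`
  set Z : Finset V := X ∪ E3 ∪ E4 ∪ E2 with hZ
  have hZc : Z.card ≤ X.card + E3.card + E4.card + E2.card := by
    have h1 := Finset.card_union_le (X ∪ E3 ∪ E4) E2
    have h2 := Finset.card_union_le (X ∪ E3) E4
    have h3 := Finset.card_union_le X E3
    rw [hZ]
    omega
  have hZm : ∀ v, v ∉ Z → v ∉ X ∧ v ∉ E3 ∧ v ∉ E4 ∧ v ∉ E2 := by
    intro v hv
    rw [hZ, Finset.mem_union, Finset.mem_union, Finset.mem_union] at hv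
    tauto
  set R : Finset V := W \ Z with hR
  have hRm : ∀ v, v ∈ R ↔ v ∈ W ∧ v ∉ Z := fun v => Finset.mem_sdiff
  have hRW : ∀ v ∈ R, v ∈ Wr := fun v hv => (hWrm v).2 ⟨((hRm v).1 hv).1,
    (hZm v ((hRm v).1 hv).2).2.1, (hZm v ((hRm v).1 hv).2).2.2.1⟩
  have hmono : ∀ u ∈ R, ∀ v ∈ R, G.Adj u v → t u = t v := by
    intro u hu v hv huv
    by_contra hne
    rcases hcover (u, v) ((hMPm _).2 ⟨hRW u hu, hRW v hv, huv, hne⟩) with h | h
    · exact (hZm u ((hRm u).1 hu).2).2.2.2 h
    · exact (hZm v ((hRm v).1 hv).2).2.2.2 h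
  -- the components
  set comp : V → Set V := fun v => {y | RI G (↑R : Set V) v y} with hcomp
  set I : Finset (Set V) := R.image comp with hI
  have hIv : ∀ i : Fin I.card, ∃ v ∈ R, comp v = (I.equivFin.symm i : Set V) := fun i =>
    Finset.mem_image.1 (I.equivFin.symm i).2
  set F : Fin I.card → Set V := fun i => (I.equivFin.symm i : Set V) with hF
  have hFR : ∀ i, ∀ v ∈ F i, v ∈ R := by
    intro i v hv
    obtain ⟨u, hu, hui⟩ := hIv i
    have : v ∈ comp u := by rw [hui]; exact hv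
    exact Finset.mem_coe.1 this.2.1
  have hFc : ∀ i, (G.induce (F i)).Connected := by
    intro i
    obtain ⟨u, hu, hui⟩ := hIv i
    rw [show F i = comp u from hui.symm]
    exact comp_conn (Finset.mem_coe.2 hu)
  have hFd : ∀ i j, i ≠ j → Disjoint (F i) (F j) := by
    intro i j hij
    rw [Set.disjoint_left]
    intro v hv hv'
    obtain ⟨u, hu, hui⟩ := hIv i
    obtain ⟨u', hu', hui'⟩ := hIv j
    have h1 : v ∈ comp u := by rw [hui]; exact hv
    have h2 : v ∈ comp u' := by rw [hui']; exact hv'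
    apply hij
    apply I.equivFin.symm.injective
    apply Subtype.ext
    rw [← hui, ← hui']
    ext y
    exact ⟨fun hy => RI.trans h2 (RI.trans h1.symm hy), fun hy =>
      RI.trans h1 (RI.trans h2.symm hy)⟩
  have hFZ : ∀ i, ∀ v ∈ F i, v ∉ Z := fun i v hv => ((hRm v).1 (hFR i v hv)).2
  have hFcl : ∀ i, ∀ v ∈ F i, ∀ w, G.Adj v w → w ∈ F i ∨ w ∈ Z := by
    intro i v hv w hvw
    by_cases hwZ : w ∈ Z
    · exact Or.inr hwZ
    · left
      have hvR := hFR i v hv
      have hwW : w ∈ W := by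
        rcases hcl v ((hRm v).1 hvR).1 w hvw with h | h
        · exact h
        · exact absurd h (hZm w hwZ).1
      obtain ⟨u, hu, hui⟩ := hIv i
      have h1 : v ∈ comp u := by rw [hui]; exact hv
      have h2 : w ∈ comp u := RI.trans h1 (RI.adj (Finset.mem_coe.2 hvR)
        (Finset.mem_coe.2 ((hRm w).2 ⟨hwW, hwZ⟩)) hvw)
      rw [hui] at h2
      exact h2
  have hn : I.card ≤ C3 * Z.card + 1 := by
    by_cases hn2 : I.card ≤ 1
    · omega
    · have h1 : I.card ≤ C3 * Z.card := by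
        refine hC3 V G hK Z I.card F hFc hFd hFZ ?_
        intro i
        obtain ⟨j, hj⟩ : ∃ j : Fin I.card, j ≠ i := by
          by_cases h : i.1 = 0
          · exact ⟨⟨1, by omega⟩, fun h' => by rw [← h'] at h; simp at h⟩
          · exact ⟨⟨0, by omega⟩, fun h' => h (by rw [← h'])⟩
        obtain ⟨⟨d, hd⟩⟩ := (hFc i).nonempty
        obtain ⟨⟨z, hz⟩⟩ := (hFc j).nonempty
        have h2 := sep hG (F i) (nS G Z (F i)) (d := d) (z := z) hd
          (fun h => hFZ i d hd (mem_nS.1 h).1) (fun x hx y hxy => by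
            rcases hFcl i x hx y hxy with h | h
            · exact Or.inl h
            · exact Or.inr (mem_nS.2 ⟨h, x, hx, hxy.symm⟩))
          (fun h => Set.disjoint_left.1 (hFd i j hj.symm) h hz)
          (fun h => hFZ j z hz (mem_nS.1 h).1)
        omega
      omega
  have hpairs := pairs_sparse hk hK Z F hFc hFd hFZ
  rw [← hC0] at hpairs
  have hFi : ∀ i, (F i).ncard ≤ M * ((nS G Z (F i)).card + 1) := by
    intro i
    obtain ⟨v0, hv0, hv0i⟩ := hIv i
    have hv0F : v0 ∈ F i := by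
      show v0 ∈ (I.equivFin.symm i : Set V)
      rw [← hv0i]
      exact RI.refl (Finset.mem_coe.2 hv0)
    have htc : ∀ v ∈ F i, t v = t v0 := by
      intro v hv
      have h1 : v ∈ {w | w ∈ R ∧ t w = t v0} := by
        refine RI.closed (RI_of_conn (hFc i) hv0F hv) ⟨hv0, rfl⟩ ?_
        intro x hx _ y hyF hxy
        have hyR := hFR i y hyF
        exact ⟨hyR, (hmono x hx.1 y hyR hxy).symm.trans hx.2⟩
      exact h1.2
    refine hM V G hG hK (F i) (t v0) Z (htb v0 (hRW v0 hv0)) ?_ (hFZ i) (hFcl i)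
    intro v hv x hx
    rw [← htc v hv] at hx
    exact ((htm _ _).1 hx).2
  have hRc : R.card ≤ M * (C0 * (Z.card + I.card)) + M * I.card := by
    have h1 : R.card ≤ ∑ i, (F i).ncard := by
      rw [Finset.card_eq_sum_card_fiberwise (f := comp) (t := I)
        (fun v hv => Finset.mem_image_of_mem _ hv)]
      have h2 : ∑ S ∈ I, (R.filter fun v => comp v = S).card ≤ ∑ S ∈ I, S.ncard := by
        refine Finset.sum_le_sum fun S hS => ?_
        rw [← Set.ncard_coe_finset]
        refine Set.ncard_le_ncard ?_ (Set.toFinite _)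
        intro v hv
        obtain ⟨h3, h4⟩ := Finset.mem_filter.1 (Finset.mem_coe.1 hv)
        rw [← h4]
        exact RI.refl (Finset.mem_coe.2 h3)
      refine h2.trans (le_of_eq ?_)
      rw [← Finset.sum_coe_sort I (fun S => S.ncard)]
      exact (Equiv.sum_comp I.equivFin.symm (fun S : I => (S : Set V).ncard)).symm
    have h2 : ∑ i, (F i).ncard ≤ ∑ i, M * ((nS G Z (F i)).card + 1) :=
      Finset.sum_le_sum fun i _ => hFi i
    have h3 : ∑ i, M * ((nS G Z (F i)).card + 1) =
        M * ∑ i, (nS G Z (F i)).card + M * I.card := by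
      rw [← Finset.mul_sum, Finset.sum_add_distrib, Finset.sum_const, Finset.card_univ,
        Fintype.card_fin, smul_eq_mul, mul_one, mul_add]
    have h4 : M * ∑ i, (nS G Z (F i)).card ≤ M * (C0 * (Z.card + I.card)) :=
      Nat.mul_le_mul_left _ hpairs
    omega
  have hWR : W.card ≤ R.card + Z.card := by
    have h1 := Finset.card_le_card (show W ⊆ R ∪ Z from fun v hv => by
      rw [Finset.mem_union]
      by_cases h : v ∈ Z
      · exact Or.inr h
      · exact Or.inl ((hRm v).2 ⟨hv, h⟩))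
    exact h1.trans (Finset.card_union_le _ _)
  -- arithmetic
  obtain ⟨x, hx⟩ : ∃ x, x = X.card := ⟨_, rfl⟩
  obtain ⟨w, hw⟩ : ∃ w, w = W.card := ⟨_, rfl⟩
  obtain ⟨z, hz⟩ : ∃ z, z = Z.card := ⟨_, rfl⟩
  obtain ⟨n, hnn⟩ : ∃ n, n = I.card := ⟨_, rfl⟩
  obtain ⟨e3, he3⟩ : ∃ e3, e3 = E3.card := ⟨_, rfl⟩
  obtain ⟨e4, he4⟩ : ∃ e4, e4 = E4.card := ⟨_, rfl⟩
  obtain ⟨e2, he2⟩ : ∃ e2, e2 = E2.card := ⟨_, rfl⟩
  obtain ⟨s, hs⟩ : ∃ s, s = ∑ w ∈ W, (t w).card := ⟨_, rfl⟩
  have he' : m * (b * w) ≤ m * s + w := by rw [hw, hs]; exact he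
  rw [← hx, ← he3] at hE3c
  rw [← hs, ← he4, ← hx, ← he3, ← hw] at hsum
  rw [← he2, ← hx] at hE2c
  rw [← hz, ← hx, ← he3, ← he4, ← he2] at hZc
  rw [← hnn, ← hz] at hn
  rw [← hz, ← hnn] at hRc
  rw [← hw, ← hz] at hWR
  rw [← hw] at hW
  rw [← hx, ← hw] at hX
  have f1 : m * e4 ≤ C0 * (1 + C1) * w + w := by
    have g1 : m * (s + e4) ≤ m * (C0 * (x + e3) + b * w) := Nat.mul_le_mul_left _ hsum
    have g2 : m * (C0 * (x + e3)) ≤ m * (C0 * (x + C1 * x)) :=
      Nat.mul_le_mul_left _ (Nat.mul_le_mul_left _ (by omega))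
    have g3 : m * (C0 * (x + C1 * x)) = C0 * (1 + C1) * (m * x) := by ring
    have g4 : C0 * (1 + C1) * (m * x) ≤ C0 * (1 + C1) * w := Nat.mul_le_mul_left _ hX
    have g5 : m * (s + e4) = m * s + m * e4 := by ring
    have g6 : m * (C0 * (x + e3) + b * w) = m * (C0 * (x + e3)) + m * (b * w) := by ring
    omega
  have f2 : m * z ≤ C5 * w := by
    have g1 : m * z ≤ m * (x + e3 + e4 + e2) := Nat.mul_le_mul_left _ hZc
    have g2 : m * (x + e3 + e4 + e2) ≤ m * (x + C1 * x + e4 + 2 * (C2 * x)) :=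
      Nat.mul_le_mul_left _ (by omega)
    have g3 : m * (x + C1 * x + e4 + 2 * (C2 * x)) = (1 + C1 + 2 * C2) * (m * x) + m * e4 := by
      ring
    have g4 : (1 + C1 + 2 * C2) * (m * x) ≤ (1 + C1 + 2 * C2) * w := Nat.mul_le_mul_left _ hX
    have g5 : C5 * w = (1 + C1 + 2 * C2) * w + (C0 * (1 + C1) * w + w) := by
      rw [hC5]; ring
    omega
  have f3 : w ≤ C6 * z + C7 := by
    have g1 : M * (C0 * (z + n)) + M * n = M * C0 * z + C7 * n := by rw [hC7]; ring
    have g2 : C7 * n ≤ C7 * (C3 * z + 1) := Nat.mul_le_mul_left _ hn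
    have g3 : C6 * z + C7 = M * C0 * z + z + C7 * (C3 * z + 1) := by rw [hC6]; ring
    omega
  have f4 : m * w ≤ C6 * C5 * w + C7 * w := by
    have g1 : m * w ≤ m * (C6 * z + C7) := Nat.mul_le_mul_left _ f3
    have g2 : m * (C6 * z + C7) = C6 * (m * z) + C7 * m := by ring
    have g3 : C6 * (m * z) ≤ C6 * (C5 * w) := Nat.mul_le_mul_left _ f2
    have g4 : C7 * m ≤ C7 * w := Nat.mul_le_mul_left _ hW
    have g5 : C6 * (C5 * w) = C6 * C5 * w := by ring
    omega
  have f5 : m * w = C6 * C5 * w + C7 * w + w := by rw [hm]; ring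
  omega

end TWk
end

section

/-!
# MP_cfc9ed_co: sparse parts with small boundary
-/

set_option autoImplicit false

namespace TWk

open SimpleGraph Relation

open Classical in
/-- the outer neighbours of `W` -/
noncomputable def oN {V : Type} [Fintype V] (G : SimpleGraph V) (W : Finset V) : Finset V :=
  Finset.univ.filter fun v => v ∉ W ∧ ∃ w ∈ W, G.Adj w v

theorem mem_oN {V : Type} [Fintype V] {G : SimpleGraph V} {W : Finset V} {v : V} :
    v ∈ oN G W ↔ v ∉ W ∧ ∃ w ∈ W, G.Adj w v := by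
  simp [oN]

theorem oN_card {V : Type} [Fintype V] {G : SimpleGraph V} {W : Finset V} :
    {v | v ∉ W ∧ ∃ w ∈ W, G.Adj w v}.ncard = (oN G W).card := by
  rw [← Set.ncard_coe_finset]
  congr 1
  ext v
  rw [Finset.mem_coe, mem_oN]
  exact Iff.rfl

/-- edges leaving `W` -/
theorem leaving {V : Type} [Fintype V] {G : SimpleGraph V} {W : Finset V} :
    {p : V × V | p.1 ∈ W ∧ p.2 ∉ W ∧ G.Adj p.1 p.2}.ncard =
      ∑ w ∈ W, (nS G (oN G W) {w}).card := by
  classical
  set P : Finset (V × V) := Finset.univ.filter fun p => p.1 ∈ W ∧ p.2 ∉ W ∧ G.Adj p.1 p.2 with hP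
  have h1 : {p : V × V | p.1 ∈ W ∧ p.2 ∉ W ∧ G.Adj p.1 p.2}.ncard = P.card := by
    rw [← Set.ncard_coe_finset]
    congr 1
    ext p
    simp [hP]
  rw [h1, Finset.card_eq_sum_card_fiberwise (f := Prod.fst) (t := W)
    (fun p hp => (Finset.mem_filter.1 (Finset.mem_coe.1 hp)).2.1)]
  refine Finset.sum_congr rfl fun w hw => ?_
  refine Finset.card_bij (fun p _ => p.2) ?_ ?_ ?_
  · intro p hp
    obtain ⟨h2, h3⟩ := Finset.mem_filter.1 hp
    obtain ⟨-, h4, h5, h6⟩ := Finset.mem_filter.1 h2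
    rw [mem_nS, mem_oN]
    exact ⟨⟨h5, p.1, h4, h6⟩, w, rfl, by rw [← h3]; exact h6.symm⟩
  · intro p hp q hq hpq
    exact Prod.ext ((Finset.mem_filter.1 hp).2.trans (Finset.mem_filter.1 hq).2.symm) hpq
  · intro x hx
    rw [mem_nS, mem_oN] at hx
    obtain ⟨⟨h2, -⟩, y, hy, hxy⟩ := hx
    rw [Set.mem_singleton_iff.1 hy] at hxy
    exact ⟨(w, x), Finset.mem_filter.2 ⟨Finset.mem_filter.2 ⟨Finset.mem_univ _, hw, h2,
      hxy.symm⟩, rfl⟩, rfl⟩

/-- degrees and edges inside `W` -/
theorem inside {V : Type} [Fintype V] {G : SimpleGraph V} {κ : ℕ} (hG : Conn G κ)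
    {W : Finset V} : κ * W.card ≤ 2 * (G.induce (↑W : Set V)).edgeSet.ncard +
      ∑ w ∈ W, (nS G (oN G W) {w}).card := by
  classical
  set H := G.induce (↑W : Set V) with hH
  have hdeg : ∀ v : (↑W : Set V), κ ≤ H.degree v + (nS G (oN G W) {v.1}).card := by
    intro v
    refine (deg_ge hG v.1).trans ?_
    have h1 : G.neighborSet v.1 ⊆
        ↑((H.neighborFinset v).map (Function.Embedding.subtype _) ∪ nS G (oN G W) {v.1}) := by
      intro w hw
      rw [Finset.mem_coe, Finset.mem_union]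
      by_cases hwW : w ∈ W
      · left
        rw [Finset.mem_map]
        refine ⟨⟨w, hwW⟩, ?_, rfl⟩
        rw [mem_neighborFinset]
        exact hw
      · right
        rw [mem_nS, mem_oN]
        have hw2 : G.Adj v.1 w := hw
        exact ⟨⟨hwW, v.1, v.2, hw2⟩, v.1, rfl, hw2.symm⟩
    have h2 := Set.ncard_le_ncard h1 (Set.toFinite _)
    rw [Set.ncard_coe_finset] at h2
    refine h2.trans ((Finset.card_union_le _ _).trans ?_)
    rw [Finset.card_map]
    rfl
  have hsum : ∑ v : (↑W : Set V), H.degree v = 2 * H.edgeSet.ncard := by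
    rw [H.sum_degrees_eq_twice_card_edges, ← coe_edgeFinset, Set.ncard_coe_finset]
  have h1 := Finset.sum_le_sum (fun v (_ : v ∈ (Finset.univ : Finset (↑W : Set V))) => hdeg v)
  rw [Finset.sum_const, Finset.card_univ, Finset.sum_add_distrib, hsum, smul_eq_mul] at h1
  have h2 : Fintype.card (↑W : Set V) = W.card := by
    rw [← Nat.card_eq_fintype_card]
    show (↑W : Set V).ncard = _
    rw [Set.ncard_coe_finset]
  have h3 : ∑ v : (↑W : Set V), (nS G (oN G W) {v.1}).card =
      ∑ w ∈ W, (nS G (oN G W) {w}).card := by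
    rw [← Finset.sum_coe_sort W]
    rfl
  rw [h2, h3, Nat.mul_comm] at h1
  exact h1

/-- **sparse parts with small boundary** -/
theorem sparse_parts (b κ k : ℕ) (hκ : b + 6 ≤ κ) : ∃ m : ℕ, 1 ≤ m ∧ ∀ (V : Type) [Fintype V]
    (G : SimpleGraph V), Conn G κ → ∀ W : Finset V, m ≤ W.card →
    m * {v | v ∉ W ∧ ∃ w ∈ W, G.Adj w v}.ncard ≤ W.card →
    (2 * m * (G.induce (↑W : Set V)).edgeSet.ncard ≤ (m * (κ - b) + 1) * W.card ∨
      m * b * W.card ≤ m * {p : V × V | p.1 ∈ W ∧ p.2 ∉ W ∧ G.Adj p.1 p.2}.ncard + W.card) →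
    HasK G (b + 2) k := by
  rcases Nat.eq_zero_or_pos k with hk | hk
  · subst hk
    refine ⟨1, le_rfl, fun V _ G hG W _ _ _ => ?_⟩
    classical
    obtain ⟨S, hS⟩ := Finset.exists_subset_card_eq (s := (Finset.univ : Finset V)) (n := b + 2)
      (by rw [Finset.card_univ]; have := hG.1; omega)
    let e := Finset.equivFinOfCardEq hS.2
    exact hasK_of (fun i => {((e.symm i : S) : V)}) (fun j => j.elim0)
      (fun i => conn_singleton _) (fun j => j.elim0) (by
        intro i j hij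
        rw [Set.disjoint_singleton]
        exact fun h => hij (e.symm.injective (Subtype.ext h))) (fun j => j.elim0)
      (fun i j => j.elim0) (fun i j => j.elim0)
  · obtain ⟨m, hm1, hm⟩ := core b k hk
    refine ⟨m, hm1, fun V _ G hG W hW hX he => ?_⟩
    rw [oN_card] at hX
    rw [leaving] at he
    refine hm V G (hG.mono hκ) W (oN G W) ?_ ?_ hW hX ?_
    · rw [Finset.disjoint_left]
      exact fun v hv hv' => (mem_oN.1 hv').1 hv
    · intro v hv w hvw
      by_cases hw : w ∈ W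
      · exact Or.inl hw
      · exact Or.inr (mem_oN.2 ⟨hw, v, hv, hvw⟩)
    · rcases he with he | he
      · have h1 := inside hG (W := W)
        obtain ⟨s, hs⟩ : ∃ s, s = ∑ w ∈ W, (nS G (oN G W) {w}).card := ⟨_, rfl⟩
        obtain ⟨e, hee⟩ : ∃ e, e = (G.induce (↑W : Set V)).edgeSet.ncard := ⟨_, rfl⟩
        obtain ⟨w, hw⟩ : ∃ w, w = W.card := ⟨_, rfl⟩
        obtain ⟨c, rfl⟩ : ∃ c, κ = b + c := ⟨κ - b, by omega⟩
        rw [← hs, ← hee, ← hw] at h1
        rw [← hee, ← hw, show b + c - b = c by omega] at he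
        rw [← hs, ← hw]
        have h2 : m * ((b + c) * w) ≤ m * (2 * e + s) := Nat.mul_le_mul_left _ h1
        have h3 : m * ((b + c) * w) = m * (b * w) + m * c * w := by ring
        have h4 : m * (2 * e + s) = 2 * m * e + m * s := by ring
        have h5 : (m * c + 1) * w = m * c * w + w := by ring
        omega
      · rw [mul_assoc] at he
        exact he

end TWk
end
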