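import Pool.Agent.Lib.MP_cfc9ed_co.R11

/-!
# MP_cfc9ed_co: graphs in which almost all vertices have `b` neighbours in a bounded set
-/

set_option autoImplicit false

namespace TWk

open SimpleGraph Relation

open Classical in
/-- neighbours in `X` -/
noncomputable def tp {V : Type} (G : SimpleGraph V) (X : Finset V) (v : V) : Finset V :=
  X.filter fun x => G.Adj v x

theorem mem_tp {V : Type} {G : SimpleGraph V} {X : Finset V} {v x : V} :
    x ∈ tp G X v ↔ x ∈ X ∧ G.Adj v x := by
  simp [tp]

/-- many components outside of a bounded set -/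
theorem many_comps {V : Type} [Fintype V] {G : SimpleGraph V} {a k n : ℕ}
    (hG : Conn G a) (Z : Finset V) (hn : 2 ^ Z.card * k < n) (hn2 : 2 ≤ n) (x : ℕ → V)
    (hx : ∀ t < n, x t ∉ Z)
    (hne : ∀ t < n, ∀ t' < n, t ≠ t' → ¬ RI G ((↑Z : Set V)ᶜ) (x t) (x t')) : HasK G a k := by
  classical
  have hxm : ∀ t < n, x t ∈ (↑Z : Set V)ᶜ := fun t ht => by simpa using hx t ht
  refine ties_Z Z (fun t => {y | RI G ((↑Z : Set V)ᶜ) (x t) y}) hn
    (fun t ht => comp_conn (hxm t ht)) ?_ ?_ ?_
  · intro t ht t' ht' hne'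
    rw [Set.disjoint_left]
    intro y hy hy'
    exact hne t ht t' ht' hne' (RI.trans hy hy'.symm)
  · intro t _ z hz h
    exact h.2.1 (Finset.mem_coe.2 hz)
  · intro t ht
    obtain ⟨t', ht', hne'⟩ : ∃ t', t' < n ∧ t' ≠ t := by
      by_cases h : t = 0
      · exact ⟨1, by omega, by omega⟩
      · exact ⟨0, by omega, by omega⟩
    have h1 := sep hG {y | RI G ((↑Z : Set V)ᶜ) (x t) y}
      (Z.filter fun z => ∃ v, RI G ((↑Z : Set V)ᶜ) (x t) v ∧ G.Adj z v) (d := x t) (z := x t')
      (RI.refl (hxm t ht)) (fun h => hx t ht (Finset.mem_filter.1 h).1) ?_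
      (hne t ht t' ht' (Ne.symm hne')) (fun h => hx t' ht' (Finset.mem_filter.1 h).1)
    · obtain ⟨A, hA, hAc⟩ := Finset.exists_subset_card_eq h1
      refine ⟨A, fun z hz => (Finset.mem_filter.1 (hA hz)).1, hAc, fun z hz => ?_⟩
      exact (Finset.mem_filter.1 (hA hz)).2
    · intro v hv w hvw
      by_cases hw : w ∈ Z
      · exact Or.inr (Finset.mem_filter.2 ⟨hw, v, hv, hvw.symm⟩)
      · exact Or.inl (RI.trans hv (RI.adj hv.2.1 (by simpa using hw) hvw))

/-- **almost all vertices have `b` neighbours in a bounded set** -/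
theorem main_U (b k c : ℕ) : ∃ N, ∀ (V : Type) [Fintype V] (G : SimpleGraph V), Conn G (b + 6) →
    ∀ X : Finset V, X.card ≤ c → {v | v ∉ X ∧ (tp G X v).card < b}.ncard ≤ c →
    N ≤ Fintype.card V → HasK G (b + 2) k := by
  classical
  rcases Nat.eq_zero_or_pos k with hk | hk
  · -- `k = 0`
    subst hk
    refine ⟨0, fun V _ G hG X _ _ _ => ?_⟩
    obtain ⟨S, hS⟩ := Finset.exists_subset_card_eq (s := (Finset.univ : Finset V)) (n := b + 2)
      (by rw [Finset.card_univ]; have := hG.1; omega)
    let e := Finset.equivFinOfCardEq hS.2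
    exact hasK_of (fun i => {((e.symm i : S) : V)}) (fun j => j.elim0)
      (fun i => conn_singleton _) (fun j => j.elim0) (by
        intro i j hij
        rw [Set.disjoint_singleton]
        exact fun h => hij (e.symm.injective (Subtype.ext h))) (fun j => j.elim0)
      (fun i j => j.elim0) (fun i j => j.elim0)
  obtain ⟨N1, hN1⟩ := upgrade_over 1 k c le_rfl
  obtain ⟨N2, hN2⟩ := upgrade_over 2 k c (by norm_num)
  obtain ⟨c2, hc2⟩ : ∃ c2, c2 = c + (c + N1) + 2 * N2 := ⟨_, rfl⟩
  obtain ⟨N3, hN3⟩ : ∃ N3, N3 = 2 ^ c2 * k + 2 := ⟨_, rfl⟩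
  obtain ⟨N4, hN4⟩ := six_two (c2 + (c2 + 1) ^ 2 * k) (by positivity)
  refine ⟨c2 + N3 * (N4 + 7), ?_⟩
  intro V _ G hG X hX hbad hV
  by_contra hK
  -- exceptional vertices
  set E1 : Finset V := Finset.univ.filter fun v => v ∉ X ∧ (tp G X v).card ≠ b with hE1
  have hE1c : E1.card ≤ c + N1 := by
    set E3 : Finset V := Finset.univ.filter fun v => v ∉ X ∧ b + 1 ≤ (tp G X v).card with hE3
    have h1 : E3.card ≤ N1 := by
      by_contra hcon
      push Not at hcon
      let e := E3.equivFin
      apply hK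
      refine hN1 b V G (hG.mono (by omega)) X hX E3.card (fun i => {((e.symm i : E3) : V)})
        hcon.le (fun i => ⟨?_, by rw [Finset.card_singleton], ?_⟩) ?_ ?_
      · intro x hx
        rw [Finset.mem_singleton.1 hx]
        exact (Finset.mem_filter.1 (e.symm i).2).2.1
      · rw [Finset.coe_singleton]
        exact conn_singleton _
      · intro i j hij
        rw [Finset.disjoint_singleton]
        exact fun h => hij (e.symm.injective (Subtype.ext h))
      · intro i
        obtain ⟨A, hA, hAc⟩ := Finset.exists_subset_card_eq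
          (Finset.mem_filter.1 (e.symm i).2).2.2
        refine ⟨A, fun x hx => (mem_tp.1 (hA hx)).1, hAc, fun x hx => ?_⟩
        exact ⟨_, Finset.mem_singleton_self _, (mem_tp.1 (hA hx)).2.symm⟩
    have h2 : E1 ⊆ (Finset.univ.filter fun v => v ∉ X ∧ (tp G X v).card < b) ∪ E3 := by
      intro v hv
      have h3 := (Finset.mem_filter.1 hv).2
      rw [Finset.mem_union, Finset.mem_filter, Finset.mem_filter]
      rcases lt_or_gt_of_ne h3.2 with h | h
      · exact Or.inl ⟨Finset.mem_univ _, h3.1, h⟩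
      · exact Or.inr ⟨Finset.mem_univ _, h3.1, h⟩
    have h3 := Finset.card_le_card h2
    have h4 := Finset.card_union_le (Finset.univ.filter fun v => v ∉ X ∧ (tp G X v).card < b) E3
    have h5 : (Finset.univ.filter fun v => v ∉ X ∧ (tp G X v).card < b).card ≤ c := by
      rw [← Set.ncard_coe_finset]
      refine le_trans (le_of_eq ?_) hbad
      congr 1
      ext v
      simp
    omega
  -- a maximal matching of mixed edges
  set MP : Finset (V × V) := Finset.univ.filter fun p => (p.1 ∉ X ∧ p.1 ∉ E1) ∧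
    (p.2 ∉ X ∧ p.2 ∉ E1) ∧ G.Adj p.1 p.2 ∧ tp G X p.1 ≠ tp G X p.2 with hMP
  have hMPm : ∀ p, p ∈ MP ↔ (p.1 ∉ X ∧ p.1 ∉ E1) ∧ (p.2 ∉ X ∧ p.2 ∉ E1) ∧ G.Adj p.1 p.2 ∧
      tp G X p.1 ≠ tp G X p.2 := fun p => by simp [hMP]
  have htpb : ∀ v, v ∉ X → v ∉ E1 → (tp G X v).card = b := by
    intro v h1 h2
    by_contra h3
    exact h2 (Finset.mem_filter.2 ⟨Finset.mem_univ _, h1, h3⟩)
  obtain ⟨Mt, hMt, hmax⟩ := Finset.exists_max_image (MP.powerset.filter fun Mt =>
    ∀ p ∈ Mt, ∀ q ∈ Mt, p ≠ q → Disjoint ({p.1, p.2} : Finset V) {q.1, q.2}) Finset.card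
    ⟨∅, by simp⟩
  rw [Finset.mem_filter, Finset.mem_powerset] at hMt
  have hMtc : Mt.card ≤ N2 := by
    by_contra hcon
    push Not at hcon
    let e := Mt.equivFin
    have hem : ∀ i, ((e.symm i : Mt) : V × V) ∈ MP := fun i => hMt.1 (e.symm i).2
    apply hK
    refine hN2 b V G (hG.mono (by omega)) X hX Mt.card
      (fun i => {((e.symm i : Mt) : V × V).1, ((e.symm i : Mt) : V × V).2})
      hcon.le (fun i => ⟨?_, Finset.card_le_two, ?_⟩) ?_ ?_
    · intro x hx
      have h1 := (hMPm _).1 (hem i)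
      rcases Finset.mem_insert.1 hx with h | h
      · rw [h]; exact h1.1.1
      · rw [Finset.mem_singleton.1 h]; exact h1.2.1.1
    · have h1 := (hMPm _).1 (hem i)
      rw [Finset.coe_insert, Finset.coe_singleton, Set.insert_eq]
      exact conn_union (conn_singleton _) (conn_singleton _) rfl rfl (Or.inr h1.2.2.1)
    · intro i j hij
      exact hMt.2 _ (e.symm i).2 _ (e.symm j).2 fun h => hij (e.symm.injective (Subtype.ext h))
    · intro i
      have h1 := (hMPm _).1 (hem i)
      have h2 := htpb _ h1.1.1 h1.1.2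
      have h3 := htpb _ h1.2.1.1 h1.2.1.2
      have h4 : b + 1 ≤ (tp G X ((e.symm i : Mt) : V × V).1 ∪
          tp G X ((e.symm i : Mt) : V × V).2).card := by
        by_contra hcon2
        push Not at hcon2
        apply h1.2.2.2
        have h5 := Finset.eq_of_subset_of_card_le (Finset.subset_union_left
          (s₁ := tp G X ((e.symm i : Mt) : V × V).1) (s₂ := tp G X ((e.symm i : Mt) : V × V).2))
          (by omega)
        have h6 := Finset.eq_of_subset_of_card_le (Finset.subset_union_right
          (s₁ := tp G X ((e.symm i : Mt) : V × V).1) (s₂ := tp G X ((e.symm i : Mt) : V × V).2))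
          (by omega)
        exact h5.trans h6.symm
      obtain ⟨A, hA, hAc⟩ := Finset.exists_subset_card_eq h4
      refine ⟨A, fun x hx => ?_, hAc, fun x hx => ?_⟩
      · rcases Finset.mem_union.1 (hA hx) with h | h
        · exact (mem_tp.1 h).1
        · exact (mem_tp.1 h).1
      · rcases Finset.mem_union.1 (hA hx) with h | h
        · exact ⟨_, Finset.mem_insert_self _ _, (mem_tp.1 h).2.symm⟩
        · exact ⟨_, Finset.mem_insert_of_mem (Finset.mem_singleton_self _), (mem_tp.1 h).2.symm⟩
  set E2 : Finset V := Mt.biUnion fun p => {p.1, p.2} with hE2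
  have hE2c : E2.card ≤ 2 * N2 := by
    have h1 : E2.card ≤ Mt.card * 2 := Finset.card_biUnion_le_card_mul _ _ _ fun p _ =>
      Finset.card_le_two
    omega
  have hcover : ∀ p ∈ MP, p.1 ∈ E2 ∨ p.2 ∈ E2 := by
    intro p hp
    by_contra hcon
    push Not at hcon
    have hpn : p ∉ Mt := fun h => hcon.1 (Finset.mem_biUnion.2 ⟨p, h, Finset.mem_insert_self _ _⟩)
    have hdisj : ∀ q ∈ Mt, Disjoint ({p.1, p.2} : Finset V) {q.1, q.2} := by
      intro q hq
      rw [Finset.disjoint_left]
      intro x hx hx'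
      have hxE : x ∈ E2 := Finset.mem_biUnion.2 ⟨q, hq, hx'⟩
      rcases Finset.mem_insert.1 hx with h | h
      · exact hcon.1 (by rw [← h]; exact hxE)
      · exact hcon.2 (by rw [← Finset.mem_singleton.1 h]; exact hxE)
    have h1 := hmax (insert p Mt) (by
      rw [Finset.mem_filter, Finset.mem_powerset]
      refine ⟨Finset.insert_subset hp hMt.1, ?_⟩
      intro q hq q' hq' hne
      rcases Finset.mem_insert.1 hq with h | h
      · rcases Finset.mem_insert.1 hq' with h' | h'
        · exact absurd (h.trans h'.symm) hne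
        · rw [h]; exact hdisj q' h'
      · rcases Finset.mem_insert.1 hq' with h' | h'
        · rw [h']; exact (hdisj q h).symm
        · exact hMt.2 q h q' h' hne)
    rw [Finset.card_insert_of_notMem hpn] at h1
    omega
  -- the bounded set `Z0`
  set Z0 : Finset V := X ∪ E1 ∪ E2 with hZ0
  have hZ0c : Z0.card ≤ c2 := by
    have h1 : Z0.card ≤ (X ∪ E1).card + E2.card := Finset.card_union_le (X ∪ E1) E2
    have h2 := Finset.card_union_le X E1
    omega
  have hZ0m : ∀ v, v ∉ Z0 → v ∉ X ∧ v ∉ E1 ∧ v ∉ E2 := by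
    intro v hv
    refine ⟨fun h => hv ?_, fun h => hv ?_, fun h => hv ?_⟩
    · exact Finset.mem_union_left _ (Finset.mem_union_left _ h)
    · exact Finset.mem_union_left _ (Finset.mem_union_right _ h)
    · exact Finset.mem_union_right _ h
  have hmono : ∀ u v, u ∉ Z0 → v ∉ Z0 → G.Adj u v → tp G X u = tp G X v := by
    intro u v hu hv huv
    by_contra hne
    have h1 := hZ0m u hu
    have h2 := hZ0m v hv
    rcases hcover (u, v) ((hMPm _).2 ⟨⟨h1.1, h1.2.1⟩, ⟨h2.1, h2.2.1⟩, huv, hne⟩) with h | h
    · exact h1.2.2 h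
    · exact h2.2.2 h
  -- a large component
  set comp : V → Set V := fun v => {y | RI G ((↑Z0 : Set V)ᶜ) v y} with hcomp
  set R : Finset V := Finset.univ \ Z0 with hR
  have hRm : ∀ v, v ∈ R ↔ v ∉ Z0 := fun v => by simp [hR]
  have hRc : N3 * (N4 + 7) ≤ R.card := by
    have h1 : R.card + (Finset.univ ∩ Z0).card = (Finset.univ : Finset V).card :=
      Finset.card_sdiff_add_card_inter (Finset.univ : Finset V) Z0
    rw [Finset.univ_inter, Finset.card_univ] at h1
    omega
  have himc : (R.image comp).card ≤ N3 := by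
    by_contra hcon
    push Not at hcon
    obtain ⟨T, hT, hTc⟩ := Finset.exists_subset_card_eq hcon.le
    let e := Finset.equivFinOfCardEq hTc
    have h1 : ∀ i : Fin N3, ∃ v ∈ R, comp v = (e.symm i : Set V) := fun i =>
      Finset.mem_image.1 (hT (e.symm i).2)
    choose v hvR hvc using h1
    have hN30 : 0 < N3 := by omega
    apply hK
    refine many_comps (n := N3) (hG.mono (by omega)) Z0 ?_ (by omega)
      (fun t => if h : t < N3 then v ⟨t, h⟩ else v ⟨0, hN30⟩) ?_ ?_
    · have h2 : 2 ^ Z0.card * k ≤ 2 ^ c2 * k :=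
        Nat.mul_le_mul_right _ (Nat.pow_le_pow_right (by norm_num) hZ0c)
      omega
    · intro t ht
      simp only [ht, dif_pos]
      exact (hRm _).1 (hvR _)
    · intro t ht t' ht' hne
      simp only [ht, ht', dif_pos]
      intro h
      have h3 : comp (v ⟨t, ht⟩) = comp (v ⟨t', ht'⟩) := by
        ext y
        exact ⟨fun hy => RI.trans h.symm hy, fun hy => RI.trans h hy⟩
      rw [hvc, hvc] at h3
      have h4 := e.symm.injective (Subtype.ext h3)
      exact hne (congrArg Fin.val h4)
  have hRne : (R.image comp).Nonempty := by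
    rw [Finset.image_nonempty, ← Finset.card_pos]
    have h1 : 0 < N3 * (N4 + 7) := Nat.mul_pos (by omega) (by omega)
    omega
  obtain ⟨K, hKi, hKc⟩ := Finset.exists_le_card_fiber_of_mul_le_card_of_maps_to (s := R)
    (t := R.image comp) (f := comp) (n := N4 + 7) (fun v hv => Finset.mem_image_of_mem _ hv) hRne
    ((Nat.mul_le_mul_right _ himc).trans hRc)
  obtain ⟨v0, hv0, rfl⟩ := Finset.mem_image.1 hKi
  have hv0Z : v0 ∉ Z0 := (hRm _).1 hv0
  have hv0m : v0 ∈ (↑Z0 : Set V)ᶜ := by simpa using hv0Z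
  have hKcard : N4 + 7 ≤ (comp v0).ncard := by
    refine hKc.trans ?_
    rw [← Set.ncard_coe_finset]
    refine Set.ncard_le_ncard ?_ (Set.toFinite _)
    intro v hv
    obtain ⟨h1, h2⟩ := Finset.mem_filter.1 (Finset.mem_coe.1 hv)
    rw [← h2]
    exact RI.refl (by simpa using (hRm _).1 h1)
  have hKZ : ∀ v ∈ comp v0, v ∉ Z0 := fun v hv h => hv.2.1 (Finset.mem_coe.2 h)
  have hKt : ∀ v ∈ comp v0, tp G X v = tp G X v0 := by
    intro v hv
    have : v ∈ {w | w ∉ Z0 ∧ tp G X w = tp G X v0} := by
      refine RI.closed hv ⟨hv0Z, rfl⟩ ?_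
      intro x hx _ y hy hxy
      have hyZ : y ∉ Z0 := fun h => hy (Finset.mem_coe.2 h)
      exact ⟨hyZ, (hmono x y hx.1 hyZ hxy).symm.trans hx.2⟩
    exact this.2
  set T0 : Finset V := tp G X v0 with hT0
  have hT0c : T0.card = b := htpb v0 (hZ0m v0 hv0Z).1 (hZ0m v0 hv0Z).2.1
  have hT0Z : ∀ x ∈ T0, x ∈ Z0 := fun x hx =>
    Finset.mem_union_left _ (Finset.mem_union_left _ (mem_tp.1 hx).1)
  have hT0adj : ∀ v ∈ comp v0, ∀ x ∈ T0, G.Adj x v := by
    intro v hv x hx
    rw [← hKt v hv] at hx
    exact (mem_tp.1 hx).2.symm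
  set Z1 : Finset V := Z0 \ T0 with hZ1
  have hZ1m : ∀ v, v ∈ Z1 ↔ v ∈ Z0 ∧ v ∉ T0 := fun v => Finset.mem_sdiff
  have hKZ1 : ∀ v ∈ comp v0, v ∉ Z1 := fun v hv h => hKZ v hv ((hZ1m v).1 h).1
  have hcardTor : N4 + 7 ≤ Fintype.card {v : V // v ∈ comp v0 ∨ v ∈ Z1} := by
    refine hKcard.trans ?_
    rw [← Nat.card_eq_fintype_card]
    have h1 : (comp v0).ncard ≤ {v : V | v ∈ comp v0 ∨ v ∈ Z1}.ncard :=
      Set.ncard_le_ncard (fun v hv => Or.inl hv) (Set.toFinite _)
    exact h1
  have hTor := Tor_conn (K := comp v0) (Z := Z1) (b := b) (κ := 6) hG T0 hT0c.le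
    (fun v hv => ⟨fun h => hKZ v h (hT0Z v hv), fun h => ((hZ1m v).1 h).2 hv⟩) (by
      intro v hv w hvw
      by_cases hw : w ∈ Z0
      · by_cases hw' : w ∈ T0
        · exact Or.inr (Or.inr hw')
        · exact Or.inr (Or.inl ((hZ1m w).2 ⟨hw, hw'⟩))
      · exact Or.inl (RI.trans hv (RI.adj hv.2.1 (by simpa using hw) hvw))) (by omega)
  have hM := hN4 _ (Tor G (comp v0) Z1) hTor (by omega)
  obtain ⟨A, B, C, h1, h2, h3, h4, h5, h6, h7, h8, h9, h10, h11, h12⟩ := Tor_extract hk hKZ1
    (by
      have h1 : Z1.card ≤ c2 := (Finset.card_le_card Finset.sdiff_subset).trans hZ0c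
      have h2 : (Z1.card + 1) ^ 2 * k ≤ (c2 + 1) ^ 2 * k :=
        Nat.mul_le_mul_right _ (Nat.pow_le_pow_left (by omega) 2)
      omega) hM
  -- the minor
  apply hK
  let e := Finset.equivFinOfCardEq hT0c
  have hAT : ∀ D : Set V, (∀ v ∈ D, v ∈ comp v0 ∨ v ∈ Z1) → ∀ i,
      Disjoint D {((e.symm i : T0) : V)} := by
    intro D hD i
    rw [Set.disjoint_singleton_right]
    intro h
    rcases hD _ h with h' | h'
    · exact hKZ _ h' (hT0Z _ (e.symm i).2)
    · exact ((hZ1m _).1 h').2 (e.symm i).2
  refine hasK_of (Fin.cons A (Fin.cons B fun i => {((e.symm i : T0) : V)})) C ?_ h7 ?_ h10 ?_ ?_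
  · intro i
    induction i using Fin.cases with
    | zero => exact h3
    | succ i =>
      induction i using Fin.cases with
      | zero => exact h4
      | succ i => exact conn_singleton _
  · intro i j
    induction i using Fin.cases with
    | zero =>
      induction j using Fin.cases with
      | zero => exact fun h => absurd rfl h
      | succ j =>
        induction j using Fin.cases with
        | zero => exact fun _ => h5
        | succ j => exact fun _ => hAT A h1 j
    | succ i =>
      induction i using Fin.cases with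
      | zero =>
        induction j using Fin.cases with
        | zero => exact fun _ => h5.symm
        | succ j =>
          induction j using Fin.cases with
          | zero => exact fun h => absurd rfl h
          | succ j => exact fun _ => hAT B h2 j
      | succ i =>
        induction j using Fin.cases with
        | zero => exact fun _ => (hAT A h1 i).symm
        | succ j =>
          induction j using Fin.cases with
          | zero => exact fun _ => (hAT B h2 i).symm
          | succ j =>
            intro h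
            show Disjoint ({((e.symm i : T0) : V)} : Set V) {((e.symm j : T0) : V)}
            rw [Set.disjoint_singleton]
            exact fun h' => h (by rw [e.symm.injective (Subtype.ext h')])
  · intro i j
    induction i using Fin.cases with
    | zero => exact h8 j
    | succ i =>
      induction i using Fin.cases with
      | zero => exact h9 j
      | succ i => exact (hAT (C j) (fun v hv => Or.inl (h6 j hv)) i).symm
  · intro i j
    induction i using Fin.cases with
    | zero => exact h11 j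
    | succ i =>
      induction i using Fin.cases with
      | zero => exact h12 j
      | succ i =>
        obtain ⟨⟨y, hy⟩⟩ := (h7 j).nonempty
        exact ⟨_, rfl, y, hy, hT0adj y (h6 j hy) _ (e.symm i).2⟩

end TWk
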