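import Pool.Agent.Lib.MP_cfc9ed_co.R12

/-!
# MP_cfc9ed_co: graphs which are sparse outside of a bounded set
-/

set_option autoImplicit false

namespace TWk

open SimpleGraph Relation

/-- **graphs which are sparse outside of a bounded set** -/
theorem sparse (b κ k c : ℕ) (hκ : b + 6 ≤ κ) : ∃ N, ∀ (V : Type) [Fintype V]
    (G : SimpleGraph V), Conn G κ → ∀ X : Finset V, X.card ≤ c →
    2 * (G.induce ((↑X : Set V)ᶜ)).edgeSet.ncard ≤
      (κ - b) * (Fintype.card V - X.card) + c →
    N ≤ Fintype.card V → HasK G (b + 2) k := by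
  classical
  obtain ⟨N1, hN1⟩ := upgrade_over 1 k c le_rfl
  obtain ⟨N2, hN2⟩ := main_U b k (c + κ * N1)
  refine ⟨N2, ?_⟩
  intro V _ G hG X hX he hV
  by_contra hK
  set E3 : Finset V := Finset.univ.filter fun v => v ∉ X ∧ b + 1 ≤ (tp G X v).card with hE3
  have hE3c : E3.card ≤ N1 := by
    by_contra hcon
    push Not at hcon
    let e := E3.equivFin
    apply hK
    refine hN1 b V G (hG.mono (by omega)) X hX E3.card (fun i => {((e.symm i : E3) : V)})
      hcon.le (fun i => ⟨?_, by rw [Finset.card_singleton], ?_⟩) ?_ ?_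
    · intro x hx
      rw [Finset.mem_singleton.1 hx]
      exact (Finset.mem_filter.1 (e.symm i).2).2.1
    · rw [Finset.coe_singleton]
      exact conn_singleton _
    · intro i j hij
      rw [Finset.disjoint_singleton]
      exact fun h => hij (e.symm.injective (Subtype.ext h))
    · intro i
      obtain ⟨A, hA, hAc⟩ := Finset.exists_subset_card_eq
        (Finset.mem_filter.1 (e.symm i).2).2.2
      refine ⟨A, fun x hx => (mem_tp.1 (hA hx)).1, hAc, fun x hx => ?_⟩
      exact ⟨_, Finset.mem_singleton_self _, (mem_tp.1 (hA hx)).2.symm⟩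
  set H := G.induce ((↑X : Set V)ᶜ) with hH
  set E4 : Finset V := Finset.univ.filter fun v => v ∉ X ∧ (tp G X v).card < b with hE4
  -- degrees in `G - X`
  have hdeg : ∀ v : ((↑X : Set V)ᶜ : Set V), κ ≤ H.degree v + (tp G X v.1).card := by
    intro v
    refine (deg_ge hG v.1).trans ?_
    have h1 : G.neighborSet v.1 ⊆
        ↑((H.neighborFinset v).map (Function.Embedding.subtype _) ∪ tp G X v.1) := by
      intro w hw
      rw [Finset.mem_coe, Finset.mem_union]
      by_cases hwX : w ∈ X
      · exact Or.inr (mem_tp.2 ⟨hwX, hw⟩)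
      · left
        rw [Finset.mem_map]
        refine ⟨⟨w, by simpa using hwX⟩, ?_, rfl⟩
        rw [mem_neighborFinset]
        exact hw
    have h2 := Set.ncard_le_ncard h1 (Set.toFinite _)
    rw [Set.ncard_coe_finset] at h2
    refine h2.trans ((Finset.card_union_le _ _).trans ?_)
    rw [Finset.card_map]
    rfl
  have hsum : ∑ v : ((↑X : Set V)ᶜ : Set V), H.degree v = 2 * H.edgeSet.ncard := by
    rw [H.sum_degrees_eq_twice_card_edges, ← coe_edgeFinset, Set.ncard_coe_finset]
  have hpt : ∀ v : ((↑X : Set V)ᶜ : Set V), (κ - b) + (if v.1 ∈ E4 then 1 else 0) ≤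
      H.degree v + (κ - b) * (if v.1 ∈ E3 then 1 else 0) := by
    intro v
    have h1 := hdeg v
    have hvX : v.1 ∉ X := fun h => v.2 (Finset.mem_coe.2 h)
    by_cases h3 : v.1 ∈ E3
    · have h4 : v.1 ∉ E4 := by
        intro h4
        have := (Finset.mem_filter.1 h3).2.2
        have := (Finset.mem_filter.1 h4).2.2
        omega
      rw [if_pos h3, if_neg h4]
      omega
    · have h5 : (tp G X v.1).card ≤ b := by
        by_contra h
        exact h3 (Finset.mem_filter.2 ⟨Finset.mem_univ _, hvX, by omega⟩)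
      rw [if_neg h3]
      by_cases h4 : v.1 ∈ E4
      · rw [if_pos h4]
        have := (Finset.mem_filter.1 h4).2.2
        omega
      · rw [if_neg h4]
        omega
  have hcount : ∀ E : Finset V, (∀ v ∈ E, v ∉ X) →
      ∑ v : ((↑X : Set V)ᶜ : Set V), (if v.1 ∈ E then 1 else 0) = E.card := by
    intro E hE
    rw [Finset.sum_boole]
    simp only [Nat.cast_id]
    rw [← Finset.card_map (Function.Embedding.subtype _)]
    congr 1
    ext v
    rw [Finset.mem_map]
    constructor
    · rintro ⟨w, hw, rfl⟩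
      exact (Finset.mem_filter.1 hw).2
    · intro hv
      exact ⟨⟨v, by simpa using hE v hv⟩, Finset.mem_filter.2 ⟨Finset.mem_univ _, hv⟩, rfl⟩
  have hcardX : Fintype.card ((↑X : Set V)ᶜ : Set V) = Fintype.card V - X.card := by
    rw [← Nat.card_eq_fintype_card]
    show ((↑X : Set V)ᶜ).ncard = _
    rw [← Finset.coe_compl, Set.ncard_coe_finset, Finset.card_compl]
  have htot := Finset.sum_le_sum (fun v (_ : v ∈ (Finset.univ : Finset ((↑X : Set V)ᶜ : Set V))) =>
    hpt v)
  rw [Finset.sum_add_distrib, Finset.sum_add_distrib, ← Finset.mul_sum,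
    hcount E3 (fun v hv => (Finset.mem_filter.1 hv).2.1),
    hcount E4 (fun v hv => (Finset.mem_filter.1 hv).2.1), hsum, Finset.sum_const,
    Finset.card_univ, hcardX, smul_eq_mul] at htot
  have h1 : (κ - b) * E3.card ≤ κ * N1 := Nat.mul_le_mul (Nat.sub_le _ _) hE3c
  have h2 : (Fintype.card V - X.card) * (κ - b) = (κ - b) * (Fintype.card V - X.card) :=
    Nat.mul_comm _ _
  apply hK
  refine hN2 V G (hG.mono hκ) X (by omega) ?_ hV
  have h3 : {v | v ∉ X ∧ (tp G X v).card < b}.ncard = E4.card := by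
    rw [← Set.ncard_coe_finset]
    congr 1
    ext v
    simp [hE4]
  rw [h3]
  omega

end TWk
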