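import Pool.Agent.Lib.MP_cfc9ed_co.R13

/-!
# MP_cfc9ed_co: bounded sets which send out many edges
-/

set_option autoImplicit false

namespace TWk

open SimpleGraph Relation

/-- **a bounded set which sends out many edges** -/
theorem edges_between (b k c : ℕ) : ∃ N, ∀ (V : Type) [Fintype V]
    (G : SimpleGraph V), Conn G (b + 6) → ∀ X : Finset V, X.card ≤ c →
    b * (Fintype.card V - X.card) ≤
      {p : V × V | p.1 ∈ X ∧ p.2 ∉ X ∧ G.Adj p.1 p.2}.ncard + c →
    N ≤ Fintype.card V → HasK G (b + 2) k := by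
  classical
  obtain ⟨N1, hN1⟩ := upgrade_over 1 k c le_rfl
  obtain ⟨N2, hN2⟩ := main_U b k (c + c * N1)
  refine ⟨N2, ?_⟩
  intro V _ G hG X hX he hV
  by_contra hK
  set E3 : Finset V := Finset.univ.filter fun v => v ∉ X ∧ b + 1 ≤ (tp G X v).card with hE3
  have hE3c : E3.card ≤ N1 := by
    by_contra hcon
    push Not at hcon
    let e := E3.equivFin
    apply hK
    refine hN1 b V G (hG.mono (by omega)) X hX E3.card (fun i => {((e.symm i : E3) : V)})
      hcon.le (fun i => ⟨?_, by rw [Finset.card_singleton], ?_⟩) ?_ ?_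
    · intro x hx
      rw [Finset.mem_singleton.1 hx]
      exact (Finset.mem_filter.1 (e.symm i).2).2.1
    · rw [Finset.coe_singleton]
      exact conn_singleton _
    · intro i j hij
      rw [Finset.disjoint_singleton]
      exact fun h => hij (e.symm.injective (Subtype.ext h))
    · intro i
      obtain ⟨A, hA, hAc⟩ := Finset.exists_subset_card_eq
        (Finset.mem_filter.1 (e.symm i).2).2.2
      refine ⟨A, fun x hx => (mem_tp.1 (hA hx)).1, hAc, fun x hx => ?_⟩
      exact ⟨_, Finset.mem_singleton_self _, (mem_tp.1 (hA hx)).2.symm⟩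
  set E4 : Finset V := Finset.univ.filter fun v => v ∉ X ∧ (tp G X v).card < b with hE4
  -- counting the edges between `X` and its complement
  set P : Finset (V × V) := Finset.univ.filter fun p => p.1 ∈ X ∧ p.2 ∉ X ∧ G.Adj p.1 p.2 with hP
  have hPc : {p : V × V | p.1 ∈ X ∧ p.2 ∉ X ∧ G.Adj p.1 p.2}.ncard = P.card := by
    rw [← Set.ncard_coe_finset]
    congr 1
    ext p
    simp [hP]
  have hPs : P.card ≤ ∑ v ∈ Finset.univ \ X, (tp G X v).card := by
    rw [Finset.card_eq_sum_card_fiberwise (f := Prod.snd) (t := Finset.univ \ X)]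
    · refine Finset.sum_le_sum fun v _ => ?_
      refine Finset.card_le_card_of_injOn Prod.fst ?_ ?_
      · intro p hp
        obtain ⟨h1, h2⟩ := Finset.mem_filter.1 (Finset.mem_coe.1 hp)
        have h3 := (Finset.mem_filter.1 h1).2
        rw [Finset.mem_coe, mem_tp]
        exact ⟨h3.1, by rw [← h2]; exact h3.2.2.symm⟩
      · intro p hp q hq hpq
        obtain ⟨_, h2⟩ := Finset.mem_filter.1 (Finset.mem_coe.1 hp)
        obtain ⟨_, h4⟩ := Finset.mem_filter.1 (Finset.mem_coe.1 hq)
        exact Prod.ext hpq (h2.trans h4.symm)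
    · intro p hp
      have h1 := (Finset.mem_filter.1 (Finset.mem_coe.1 hp)).2
      rw [Finset.mem_coe, Finset.mem_sdiff]
      exact ⟨Finset.mem_univ _, h1.2.1⟩
  have hpt : ∀ v ∈ Finset.univ \ X, (tp G X v).card + (if v ∈ E4 then 1 else 0) ≤
      b + c * (if v ∈ E3 then 1 else 0) := by
    intro v hv
    have hvX : v ∉ X := (Finset.mem_sdiff.1 hv).2
    have h1 : (tp G X v).card ≤ c := (Finset.card_le_card (Finset.filter_subset _ _)).trans hX
    by_cases h3 : v ∈ E3
    · have h4 : v ∉ E4 := by
        intro h4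
        have := (Finset.mem_filter.1 h3).2.2
        have := (Finset.mem_filter.1 h4).2.2
        omega
      rw [if_pos h3, if_neg h4]
      omega
    · have h5 : (tp G X v).card ≤ b := by
        by_contra h
        exact h3 (Finset.mem_filter.2 ⟨Finset.mem_univ _, hvX, by omega⟩)
      rw [if_neg h3]
      by_cases h4 : v ∈ E4
      · rw [if_pos h4]
        have := (Finset.mem_filter.1 h4).2.2
        omega
      · rw [if_neg h4]
        omega
  have hcount : ∀ E : Finset V, (∀ v ∈ E, v ∉ X) →
      ∑ v ∈ Finset.univ \ X, (if v ∈ E then 1 else 0) = E.card := by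
    intro E hE
    rw [Finset.sum_boole]
    simp only [Nat.cast_id]
    congr 1
    ext v
    rw [Finset.mem_filter, Finset.mem_sdiff]
    exact ⟨fun h => h.2, fun h => ⟨⟨Finset.mem_univ _, hE v h⟩, h⟩⟩
  have hcardX : (Finset.univ \ X).card = Fintype.card V - X.card := by
    rw [Finset.card_sdiff_of_subset (Finset.subset_univ _), Finset.card_univ]
  have htot := Finset.sum_le_sum hpt
  rw [Finset.sum_add_distrib, Finset.sum_add_distrib, ← Finset.mul_sum,
    hcount E3 (fun v hv => (Finset.mem_filter.1 hv).2.1),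
    hcount E4 (fun v hv => (Finset.mem_filter.1 hv).2.1), Finset.sum_const, hcardX,
    smul_eq_mul] at htot
  have h1 : c * E3.card ≤ c * N1 := Nat.mul_le_mul_left _ hE3c
  have h2 : (Fintype.card V - X.card) * b = b * (Fintype.card V - X.card) := Nat.mul_comm _ _
  apply hK
  refine hN2 V G hG X (by omega) ?_ hV
  have h3 : {v | v ∉ X ∧ (tp G X v).card < b}.ncard = E4.card := by
    rw [← Set.ncard_coe_finset]
    congr 1
    ext v
    simp [hE4]
  rw [h3]
  omega

end TWk
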