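import Pool.Agent.Lib.MP_cfc9ed_co.D1

section

/-!
# MP_cfc9ed_co: rooted `K_{1,k}` minors, first part: paths through many roots
-/

set_option autoImplicit false

namespace TWk

open SimpleGraph Relation

/-- many intervals: `k` of them are pairwise disjoint or `M` of them have a common point -/
theorem intervals {ι : Type*} (lo hi : ι → ℕ) (M : ℕ) (hlo : ∀ j, lo j ≤ hi j) :
    ∀ (k : ℕ) (F : Finset ι), k * M ≤ F.card →
    (∃ A ⊆ F, A.card = k ∧ ∀ i ∈ A, ∀ j ∈ A, i ≠ j → hi i < lo j ∨ hi j < lo i) ∨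
    ∃ z, ∃ A ⊆ F, M ≤ A.card ∧ ∀ j ∈ A, lo j ≤ z ∧ z ≤ hi j := by
  classical
  intro k
  induction k with
  | zero =>
    intro F _
    exact Or.inl ⟨∅, Finset.empty_subset _, rfl, by simp⟩
  | succ k ih =>
    intro F hF
    rcases F.eq_empty_or_nonempty with h0 | h0
    · right
      refine ⟨0, ∅, Finset.empty_subset _, ?_, by simp⟩
      rw [h0] at hF
      simp only [Finset.card_empty, nonpos_iff_eq_zero, mul_eq_zero] at hF ⊢
      omega
    · obtain ⟨j0, hj0, hmin⟩ := F.exists_min_image hi h0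
      by_cases hM : M ≤ (F.filter fun j => lo j ≤ hi j0 ∧ hi j0 ≤ hi j).card
      · exact Or.inr ⟨hi j0, _, Finset.filter_subset _ _, hM, fun j hj =>
          (Finset.mem_filter.1 hj).2⟩
      · push Not at hM
        have h1 := Finset.card_filter_add_card_filter_not (s := F)
          (fun j => lo j ≤ hi j0 ∧ hi j0 ≤ hi j)
        have h2 : k * M ≤ (F.filter fun j => ¬ (lo j ≤ hi j0 ∧ hi j0 ≤ hi j)).card := by
          have : (k + 1) * M = k * M + M := by ring
          omega
        rcases ih _ h2 with ⟨A, hA, hA1, hA2⟩ | ⟨z, A, hA, hA1, hA2⟩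
        · left
          have hn : j0 ∉ A := fun h => (Finset.mem_filter.1 (hA h)).2 ⟨hlo j0, le_rfl⟩
          have hlt : ∀ i ∈ A, hi j0 < lo i := by
            intro i hi'
            have h3 := Finset.mem_filter.1 (hA hi')
            by_contra h4
            push Not at h4
            exact h3.2 ⟨h4, hmin i h3.1⟩
          refine ⟨insert j0 A, ?_, ?_, ?_⟩
          · intro i hi'
            rcases Finset.mem_insert.1 hi' with h | h
            · rw [h]; exact hj0
            · exact (Finset.mem_filter.1 (hA h)).1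
          · rw [Finset.card_insert_of_notMem hn, hA1]
          · intro i hi' j hj hne
            rcases Finset.mem_insert.1 hi' with h | h
            · rcases Finset.mem_insert.1 hj with h' | h'
              · exact absurd (h.trans h'.symm) hne
              · rw [h]; exact Or.inl (hlt j h')
            · rcases Finset.mem_insert.1 hj with h' | h'
              · rw [h']; exact Or.inr (hlt i h)
              · exact hA2 i h j h' hne
        · exact Or.inr ⟨z, A, hA.trans (Finset.filter_subset _ _), hA1, hA2⟩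

/-- a star structure in `D`: a connected set `B` and disjoint connected sets `C j` adjacent to `B`, each
with a vertex of `S` -/
structure RK {V : Type*} (G : SimpleGraph V) (S D : Set V) {q : ℕ} (B : Set V)
    (C : Fin q → Set V) : Prop where
  subB : B ⊆ D
  connB : (G.induce B).Connected
  subC : ∀ j, C j ⊆ D
  connC : ∀ j, (G.induce (C j)).Connected
  disj : ∀ j, Disjoint B (C j)
  root : ∀ j, ∃ s ∈ C j, s ∈ S
  adj : ∀ j, ∃ u ∈ B, ∃ v ∈ C j, G.Adj u v
  disjC : ∀ i j, i ≠ j → Disjoint (C i) (C j)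

/-- a path `p 0, …, p L` in `D` starting at `r` -/
structure PD {V : Type*} (G : SimpleGraph V) (D : Set V) (r : V) (L : ℕ) (p : ℕ → V) : Prop where
  zero : p 0 = r
  mem : ∀ i ≤ L, p i ∈ D
  adj : ∀ i < L, G.Adj (p i) (p (i + 1))
  inj : ∀ i ≤ L, ∀ j ≤ L, p i = p j → i = j

open Classical in
/-- number of vertices of `S` on the path -/
noncomputable def cS {V : Type*} (S : Set V) (p : ℕ → V) (L : ℕ) : ℕ :=
  ((Finset.range (L + 1)).filter fun i => p i ∈ S).card

/-- prepend a vertex -/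
def pre {V : Type*} (r : V) (p : ℕ → V) (i : ℕ) : V := Nat.casesOn i r p

theorem pre_zero {V : Type*} (r : V) (p : ℕ → V) : pre r p 0 = r := rfl

theorem pre_succ {V : Type*} (r : V) (p : ℕ → V) (i : ℕ) : pre r p (i + 1) = p i := rfl

variable {V : Type*} {G : SimpleGraph V} {S : Set V}

theorem PD.pre {D D' : Set V} {r r' : V} {L : ℕ} {p : ℕ → V} (h : PD G D' r' L p)
    (hD : D' ⊆ D) (hr : r ∈ D) (hr' : r ∉ D') (hadj : G.Adj r r') : PD G D r (L + 1) (pre r p) := by
  refine ⟨rfl, ?_, ?_, ?_⟩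
  · intro i hi
    rcases i with _ | i
    · exact hr
    · rw [pre_succ]; exact hD (h.mem i (by omega))
  · intro i hi
    rcases i with _ | i
    · rw [pre_succ, h.zero]; exact hadj
    · rw [pre_succ, pre_succ]; exact h.adj i (by omega)
  · intro i hi j hj hij
    rcases i with _ | i <;> rcases j with _ | j
    · rfl
    · rw [pre_succ] at hij
      exact absurd (h.mem j (by omega)) (fun h' => hr' (by rw [show r = p j from hij]; exact h'))
    · rw [pre_succ] at hij
      exact absurd (h.mem i (by omega)) (fun h' => hr' (by rw [show r = p i from hij.symm]; exact h'))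
    · rw [pre_succ, pre_succ] at hij
      rw [h.inj i (by omega) j (by omega) hij]

theorem cS_pre (r : V) (p : ℕ → V) (L : ℕ) : cS S p L ≤ cS S (pre r p) (L + 1) ∧
    (r ∈ S → cS S p L + 1 ≤ cS S (pre r p) (L + 1)) := by
  classical
  have h1 : ((Finset.range (L + 1)).filter fun i => p i ∈ S).map ⟨Nat.succ, Nat.succ_injective⟩ ⊆
      (Finset.range (L + 1 + 1)).filter fun i => pre r p i ∈ S := by
    intro i hi
    rw [Finset.mem_map] at hi
    obtain ⟨j, hj, rfl⟩ := hi
    rw [Finset.mem_filter, Finset.mem_range] at hj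
    rw [Finset.mem_filter, Finset.mem_range]
    exact ⟨by simpa using hj.1, hj.2⟩
  have h2 := Finset.card_le_card h1
  rw [Finset.card_map] at h2
  refine ⟨?_, fun hr => ?_⟩
  · unfold cS
    convert h2
  · have h3 : (0 : ℕ) ∉ ((Finset.range (L + 1)).filter fun i => p i ∈ S).map
        ⟨Nat.succ, Nat.succ_injective⟩ := by
      rw [Finset.mem_map]
      rintro ⟨j, _, hj⟩
      exact absurd hj (Nat.succ_ne_zero j)
    have h4 : insert 0 (((Finset.range (L + 1)).filter fun i => p i ∈ S).map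
        ⟨Nat.succ, Nat.succ_injective⟩) ⊆
      (Finset.range (L + 1 + 1)).filter fun i => pre r p i ∈ S := by
      intro i hi
      rcases Finset.mem_insert.1 hi with h | h
      · rw [h, Finset.mem_filter, Finset.mem_range]
        exact ⟨by omega, hr⟩
      · exact h1 h
    have h5 := Finset.card_le_card h4
    rw [Finset.card_insert_of_notMem h3, Finset.card_map] at h5
    unfold cS
    convert h5

/-- enlarge the centre of a star structure -/
theorem RK.grow {D D' : Set V} {q : ℕ} {B : Set V} {C : Fin q → Set V} (h : RK G S D' B C)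
    (hD : D' ⊆ D) {r r' : V} (hr : r ∈ D) (hr' : r ∉ D') (hrB : r' ∈ B) (hadj : G.Adj r r') :
    RK G S D ({r} ∪ B) C := by
  refine ⟨?_, ?_, fun j => (h.subC j).trans hD, h.connC, ?_, h.root, ?_, h.disjC⟩
  · rintro x (hx | hx)
    · rw [Set.mem_singleton_iff.1 hx]; exact hr
    · exact hD (h.subB hx)
  · exact conn_union (conn_singleton r) h.connB (u := r) (v := r') rfl hrB (Or.inr hadj)
  · intro j
    rw [Set.disjoint_left]
    rintro x (hx | hx) hx'
    · rw [Set.mem_singleton_iff.1 hx] at hx'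
      exact hr' (h.subC j hx')
    · exact Set.disjoint_left.1 (h.disj j) hx hx'
  · intro j
    obtain ⟨u, hu, v, hv, huv⟩ := h.adj j
    exact ⟨u, Or.inr hu, v, hv, huv⟩

/-- one more leaf -/
theorem RK.add {D : Set V} {q : ℕ} {B : Set V} {C : Fin q → Set V} (h : RK G S D B C)
    {C0 : Set V} (h1 : C0 ⊆ D) (h2 : (G.induce C0).Connected) (h3 : Disjoint B C0)
    (h4 : ∃ s ∈ C0, s ∈ S) (h5 : ∃ u ∈ B, ∃ v ∈ C0, G.Adj u v) (h6 : ∀ j, Disjoint (C j) C0) :
    RK G S D B (Fin.cons C0 C : Fin (q + 1) → Set V) := by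
  refine ⟨h.subB, h.connB, ?_, ?_, ?_, ?_, ?_, ?_⟩
  · intro j
    refine Fin.cases ?_ (fun j => ?_) j
    · exact h1
    · exact h.subC j
  · intro j
    refine Fin.cases ?_ (fun j => ?_) j
    · exact h2
    · exact h.connC j
  · intro j
    refine Fin.cases ?_ (fun j => ?_) j
    · exact h3
    · exact h.disj j
  · intro j
    refine Fin.cases ?_ (fun j => ?_) j
    · exact h4
    · exact h.root j
  · intro j
    refine Fin.cases ?_ (fun j => ?_) j
    · exact h5
    · exact h.adj j
  · intro i j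
    refine Fin.cases ?_ (fun i => ?_) i
    · refine Fin.cases (fun h => absurd rfl h) (fun j _ => ?_) j
      exact (h6 j).symm
    · refine Fin.cases (fun _ => ?_) (fun j hne => ?_) j
      · exact h6 i
      · exact h.disjC i j fun h => hne (by rw [h])

/-- components -/
theorem comp_conn {s : Set V} {x : V} (hx : x ∈ s) : (G.induce {y | RI G s x y}).Connected := by
  refine conn_of_RI (c := x) (RI.refl hx) ?_
  intro y hy
  refine RI.closed (C := {z | RI G {y | RI G s x y} x z}) (show RI G s x y from hy)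
    (RI.refl (RI.refl hx)) ?_
  intro v hv hvs w hw hvw
  have h1 : RI G s x v := hv.2.1
  exact hv.trans (RI.adj h1 (h1.trans (RI.adj hvs hw hvw)) hvw)

/-- every component of `D - r` has a neighbour of `r` -/
theorem comp_adj {D : Set V} (hD : (G.induce D).Connected) {r v : V} (hr : r ∈ D) (hv : v ∈ D)
    (hne : v ≠ r) : ∃ w, RI G (D \ {r}) v w ∧ G.Adj r w := by
  by_contra hcon
  push Not at hcon
  have h1 : r ∈ {y | RI G (D \ {r}) v y} := by
    refine RI.closed (RI_of_conn hD hv hr) (RI.refl ⟨hv, hne⟩) ?_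
    intro x hx _ w hw hxw
    by_cases hwr : w = r
    · subst hwr
      exact absurd hxw.symm (hcon x hx)
    · exact RI.trans hx (RI.adj hx.2.1 ⟨hw, hwr⟩ hxw)
  exact h1.2.1.2 rfl

/-- a connected set with many roots has a path through many roots or a star structure -/
theorem greedy : ∀ m q : ℕ, ∃ N, ∀ (V : Type) [Fintype V] (G : SimpleGraph V) (S D : Set V) (r : V),
    (G.induce D).Connected → r ∈ D → N ≤ (S ∩ D).ncard →
    (∃ L p, PD G D r L p ∧ m ≤ cS S p L) ∨
      ∃ (B : Set V) (C : Fin q → Set V), r ∈ B ∧ RK G S D B C := by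
  intro m
  induction m with
  | zero =>
    intro q
    refine ⟨0, fun V _ G S D r _ hr _ => Or.inl ⟨0, fun _ => r, ⟨rfl, fun _ _ => hr,
      fun i hi => absurd hi (by omega), fun i hi j hj _ => by omega⟩, Nat.zero_le _⟩⟩
  | succ m ihm =>
    intro q
    induction q with
    | zero =>
      refine ⟨0, fun V _ G S D r _ hr _ => Or.inr ⟨{r}, fun j => j.elim0, rfl, ?_⟩⟩
      exact ⟨Set.singleton_subset_iff.2 hr, conn_singleton r, fun j => j.elim0, fun j => j.elim0,
        fun j => j.elim0, fun j => j.elim0, fun j => j.elim0, fun j => j.elim0⟩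
    | succ q ihq =>
      obtain ⟨N1, h1⟩ := ihm (q + 1)
      obtain ⟨N2, h2⟩ := ihq
      refine ⟨q * max N1 N2 + max N1 N2 + 2, ?_⟩
      intro V _ G S D r hD hr hN
      classical
      obtain ⟨n, hn⟩ : ∃ n, D.ncard = n := ⟨_, rfl⟩
      induction n using Nat.strong_induction_on generalizing D r with
      | _ n ih =>
        set S' : Finset V := (Set.toFinite (S ∩ D)).toFinset.erase r with hS'
        have hS'm : ∀ x, x ∈ S' ↔ x ≠ r ∧ x ∈ S ∧ x ∈ D := by
          intro x
          rw [hS', Finset.mem_erase, Set.Finite.mem_toFinset]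
          exact Iff.rfl
        have hS'c : q * max N1 N2 + max N1 N2 + 1 ≤ S'.card := by
          have h3 := Finset.pred_card_le_card_erase (s := (Set.toFinite (S ∩ D)).toFinset) (a := r)
          rw [← Set.ncard_eq_toFinset_card _ (Set.toFinite _)] at h3
          rw [hS']
          omega
        set comp : V → Set V := fun v => {y | RI G (D \ {r}) v y} with hcomp
        have hself : ∀ v ∈ S', v ∈ comp v := fun v hv =>
          RI.refl ⟨((hS'm v).1 hv).2.2, ((hS'm v).1 hv).1⟩
        have hsubD : ∀ v, comp v ⊆ D := fun v x hx => hx.2.1.1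
        have hnr : ∀ v, r ∉ comp v := fun v hx => hx.2.1.2 rfl
        have hdisj : ∀ v v', comp v ≠ comp v' → Disjoint (comp v) (comp v') := by
          intro v v' hne
          rw [Set.disjoint_left]
          intro x hx hx'
          apply hne
          ext y
          exact ⟨fun hy => RI.trans hx' (RI.trans hx.symm hy), fun hy =>
            RI.trans hx (RI.trans hx'.symm hy)⟩
        have hadj : ∀ v ∈ S', ∃ w ∈ comp v, G.Adj r w := fun v hv => by
          obtain ⟨w, hw, hrw⟩ := comp_adj hD hr ((hS'm v).1 hv).2.2 ((hS'm v).1 hv).1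
          exact ⟨w, hw, hrw⟩
        have hconn : ∀ v ∈ S', (G.induce (comp v)).Connected := fun v hv =>
          comp_conn ⟨((hS'm v).1 hv).2.2, ((hS'm v).1 hv).1⟩
        by_cases ht : q + 1 ≤ (S'.image comp).card
        · right
          obtain ⟨t', ht', htc⟩ := Finset.exists_subset_card_eq ht
          let e := Finset.equivFinOfCardEq htc
          have hv : ∀ j : Fin (q + 1), ∃ v ∈ S', comp v = (e.symm j : Set V) := fun j =>
            Finset.mem_image.1 (ht' (e.symm j).2)
          choose v hvS hvc using hv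
          refine ⟨{r}, fun j => comp (v j), rfl, ?_, conn_singleton r, fun j => hsubD _,
            fun j => hconn _ (hvS j), ?_, fun j => ⟨v j, hself _ (hvS j),
              ((hS'm _).1 (hvS j)).2.1⟩, ?_, ?_⟩
          · exact Set.singleton_subset_iff.2 hr
          · intro j
            rw [Set.disjoint_singleton_left]
            exact hnr _
          · intro j
            obtain ⟨w, hw, hrw⟩ := hadj _ (hvS j)
            exact ⟨r, rfl, w, hw, hrw⟩
          · intro i j hij
            apply hdisj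
            rw [hvc, hvc]
            intro h
            exact hij (e.symm.injective (Subtype.ext h))
        · push Not at ht
          have hne : (S'.image comp).Nonempty := by
            rw [Finset.image_nonempty, ← Finset.card_pos]
            omega
          obtain ⟨y, hy, hfib⟩ := Finset.exists_le_card_fiber_of_mul_le_card_of_maps_to
            (s := S') (t := S'.image comp) (f := comp) (n := max N1 N2)
            (fun a ha => Finset.mem_image_of_mem _ ha) hne (by
              have := Nat.mul_le_mul_right (max N1 N2) (Nat.lt_succ_iff.1 ht)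
              omega)
          obtain ⟨v, hvS, rfl⟩ := Finset.mem_image.1 hy
          have hcard : max N1 N2 ≤ (S ∩ comp v).ncard := by
            refine hfib.trans ?_
            rw [← Set.ncard_coe_finset]
            refine Set.ncard_le_ncard ?_ (Set.toFinite _)
            intro x hx
            have hx' := Finset.mem_filter.1 (Finset.mem_coe.1 hx)
            refine ⟨((hS'm _).1 hx'.1).2.1, ?_⟩
            rw [← hx'.2]
            exact hself _ hx'.1
          obtain ⟨r', hr', hrr'⟩ := hadj v hvS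
          have hDc := hconn v hvS
          by_cases hrS : r ∈ S
          · rcases h1 V G S (comp v) r' hDc hr' ((le_max_left _ _).trans hcard) with
              ⟨L, p, hp, hpS⟩ | ⟨B, C, hB, hRK⟩
            · exact Or.inl ⟨L + 1, pre r p, hp.pre (hsubD v) hr (hnr v) hrr',
                (Nat.succ_le_succ hpS).trans ((cS_pre r p L).2 hrS)⟩
            · exact Or.inr ⟨{r} ∪ B, C, Or.inl rfl, hRK.grow (hsubD v) hr (hnr v) hB hrr'⟩
          · by_cases hex : ∃ v' ∈ S', v' ∉ comp v
            · obtain ⟨v', hv'S, hv'⟩ := hex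
              rcases h2 V G S (comp v) r' hDc hr' ((le_max_right _ _).trans hcard) with
                ⟨L, p, hp, hpS⟩ | ⟨B, C, hB, hRK⟩
              · exact Or.inl ⟨L + 1, pre r p, hp.pre (hsubD v) hr (hnr v) hrr',
                  hpS.trans (cS_pre r p L).1⟩
              · right
                have hd : Disjoint (comp v) (comp v') := by
                  apply hdisj
                  intro h
                  exact hv' (by rw [h]; exact hself _ hv'S)
                have hRK' := hRK.grow (hsubD v) hr (hnr v) hB hrr'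
                refine ⟨{r} ∪ B, _, Or.inl rfl, hRK'.add (C0 := comp v') (hsubD v')
                  (hconn _ hv'S) ?_ ⟨v', hself _ hv'S, ((hS'm _).1 hv'S).2.1⟩ ?_ ?_⟩
                · rw [Set.disjoint_left]
                  rintro x (hx | hx) hx'
                  · rw [Set.mem_singleton_iff.1 hx] at hx'
                    exact hnr _ hx'
                  · exact Set.disjoint_left.1 hd (hRK.subB hx) hx'
                · obtain ⟨w, hw, hrw⟩ := hadj _ hv'S
                  exact ⟨r, Or.inl rfl, w, hw, hrw⟩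
                · intro j
                  exact Set.disjoint_of_subset_left (hRK.subC j) hd
            · push Not at hex
              have hsub : S ∩ D ⊆ S ∩ comp v := by
                rintro x ⟨hx1, hx2⟩
                refine ⟨hx1, hex x ((hS'm x).2 ⟨?_, hx1, hx2⟩)⟩
                rintro rfl
                exact hrS hx1
              have hlt : (comp v).ncard < n := by
                rw [← hn]
                exact Set.ncard_lt_ncard ⟨hsubD v, fun h => hnr v (h hr)⟩ (Set.toFinite _)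
              rcases ih _ hlt (comp v) r' hDc hr'
                (hN.trans (Set.ncard_le_ncard hsub (Set.toFinite _))) rfl with
                ⟨L, p, hp, hpS⟩ | ⟨B, C, hB, hRK⟩
              · exact Or.inl ⟨L + 1, pre r p, hp.pre (hsubD v) hr (hnr v) hrr',
                  hpS.trans (cS_pre r p L).1⟩
              · exact Or.inr ⟨{r} ∪ B, C, Or.inl rfl, hRK.grow (hsubD v) hr (hnr v) hB hrr'⟩

end TWk
end

section

/-!
# MP_cfc9ed_co: rooted `K_{1,k}` minors in 3-connected graphs
-/

set_option autoImplicit false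

namespace TWk

open SimpleGraph Relation

variable {V : Type*} {G : SimpleGraph V} {S W : Set V} {r : V} {L : ℕ} {p : ℕ → V}

/-- segments of the path -/
def seg (p : ℕ → V) (a b : ℕ) : Set V := {v | ∃ i, a ≤ i ∧ i ≤ b ∧ v = p i}

theorem seg_conn (P : PD G W r L p) {a b : ℕ} (hab : a ≤ b) (hb : b ≤ L) :
    (G.induce (seg p a b)).Connected := by
  have ha : p a ∈ seg p a b := ⟨a, le_rfl, hab, rfl⟩
  refine conn_of_RI (c := p a) ha ?_
  have key : ∀ i, a ≤ i → i ≤ b → RI G (seg p a b) (p a) (p i) := by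
    intro i hi
    induction i, hi using Nat.le_induction with
    | base => intro _; exact RI.refl ha
    | succ i hi ih =>
      intro hib
      exact (ih (by omega)).trans (RI.adj ⟨i, hi, by omega, rfl⟩ ⟨i + 1, by omega, hib, rfl⟩
        (P.adj i (by omega)))
  rintro x ⟨i, hi1, hi2, rfl⟩
  exact key i hi1 hi2

theorem seg_sub (P : PD G W r L p) {a b : ℕ} (hb : b ≤ L) : seg p a b ⊆ W := by
  rintro x ⟨i, _, hi2, rfl⟩
  exact P.mem i (hi2.trans hb)

/-- jumps over the ends of a segment -/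
theorem jump (P : PD G W r L p) {l c m o : ℕ} (h1 : l < c) (h2 : c < m) (h3 : m ≤ L)
    (ho : o ≤ L) (ho' : o < l ∨ m < o) (hre : RI G (W \ {p l, p m}) (p c) (p o)) :
    ∃ (x y : ℕ) (Q : Set V), l < x ∧ x < m ∧ y ≤ L ∧ (y < l ∨ m < y) ∧
      (G.induce Q).Connected ∧ Q ⊆ W ∧ p y ∈ Q ∧ (∀ i ≤ L, p i ∈ Q → i = y) ∧
      ∃ u ∈ Q, G.Adj (p x) u := by
  set Pth : Set V := seg p 0 L with hPth
  set A : Set V := {v | ∃ i, l < i ∧ i < m ∧ v = p i} with hA
  set U : Set V := {v | ∃ a ∈ A, RI G ((W \ Pth) ∪ A) a v} with hU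
  have hAP : ∀ v ∈ A, v ∈ Pth := by
    rintro v ⟨i, hi1, hi2, rfl⟩
    exact ⟨i, Nat.zero_le _, by omega, rfl⟩
  have hcA : p c ∈ A := ⟨c, h1, h2, rfl⟩
  have hcU : p c ∈ U := ⟨p c, hcA, RI.refl (Or.inr hcA)⟩
  have hoU : p o ∉ U := by
    rintro ⟨a, _, h⟩
    rcases h.2.1 with h' | ⟨i, hi1, hi2, hi3⟩
    · exact h'.2 ⟨o, Nat.zero_le _, ho, rfl⟩
    · have := P.inj o ho i (by omega) hi3
      omega
  obtain ⟨v, hvU, w, hw, hvw, hwU⟩ : ∃ v ∈ U, ∃ w ∈ W \ {p l, p m}, G.Adj v w ∧ w ∉ U := by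
    by_contra hcon
    push Not at hcon
    exact hoU (RI.closed hre hcU fun v hv _ w hw hvw => hcon v hv w hw hvw)
  obtain ⟨a, haA, hav⟩ := hvU
  have hvm := hav.2.1
  have hwn : w ∉ (W \ Pth) ∪ A := fun h => hwU ⟨a, haA, hav.trans (RI.adj hvm h hvw)⟩
  have hwP : w ∈ Pth := by
    by_contra h
    exact hwn (Or.inl ⟨hw.1, h⟩)
  obtain ⟨y, _, hyL, rfl⟩ := hwP
  have hyl : y ≠ l := fun h => hw.2 (Or.inl (by rw [h]))
  have hym : y ≠ m := fun h => hw.2 (Or.inr (by rw [h]; rfl))
  have hyo : y < l ∨ m < y := by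
    by_contra h
    push Not at h
    exact hwn (Or.inr ⟨y, by omega, by omega, rfl⟩)
  by_cases hvA : v ∈ A
  · obtain ⟨x, hx1, hx2, rfl⟩ := hvA
    refine ⟨x, y, {p y}, hx1, hx2, hyL, hyo, conn_singleton _,
      Set.singleton_subset_iff.2 (P.mem y hyL), rfl, ?_, p y, rfl, hvw⟩
    intro i hi h
    exact P.inj i hi y hyL h
  · have hvW : v ∈ W \ Pth := hvm.resolve_right hvA
    obtain ⟨z, hz, x, hx1, hx2, hxz⟩ : ∃ z, RI G (W \ Pth) v z ∧ ∃ x, l < x ∧ x < m ∧
        G.Adj (p x) z := by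
      by_contra hcon
      push Not at hcon
      have h4 : a ∈ {z | RI G (W \ Pth) v z} := by
        refine RI.closed hav.symm (RI.refl hvW) ?_
        intro s hs _ t ht hst
        rcases ht with ht | ⟨i, hi1, hi2, rfl⟩
        · exact RI.trans hs (RI.adj hs.2.1 ht hst)
        · exact absurd hst.symm (hcon s hs i hi1 hi2)
      exact h4.2.1.2 (hAP a haA)
    refine ⟨x, y, {z | RI G (W \ Pth) v z} ∪ {p y}, hx1, hx2, hyL, hyo, ?_, ?_, Or.inr rfl, ?_,
      z, Or.inl hz, hxz⟩
    · exact conn_union (comp_conn hvW) (conn_singleton _) (u := v) (v := p y) (RI.refl hvW) rfl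
        (Or.inr hvw)
    · rintro s (hs | hs)
      · exact hs.2.1.1
      · rw [Set.mem_singleton_iff.1 hs]; exact P.mem y hyL
    · rintro i hi (h | h)
      · exact absurd ⟨i, Nat.zero_le _, hi, rfl⟩ h.2.1.2
      · exact P.inj i hi y hyL h

/-- the properties of a jump -/
def JP (G : SimpleGraph V) (W : Set V) (p : ℕ → V) (L x y : ℕ) (Q : Set V) : Prop :=
  (G.induce Q).Connected ∧ Q ⊆ W ∧ p y ∈ Q ∧ (∀ i ≤ L, p i ∈ Q → i = y) ∧ ∃ u ∈ Q, G.Adj (p x) u

/-- all jumps lead to the segment `[a, b]` -/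
theorem star_base (P : PD G W r L p) {q a b : ℕ} (hab : a ≤ b) (hb : b ≤ L)
    (l m x y : Fin q → ℕ) (Q : Fin q → Set V) (hl : ∀ j, l j < x j) (hm : ∀ j, x j < m j)
    (hmL : ∀ j, m j ≤ L) (hy : ∀ j, a ≤ y j ∧ y j ≤ b) (hout : ∀ j, m j < a ∨ b < l j)
    (hQ : ∀ j, JP G W p L (x j) (y j) (Q j)) (hd : ∀ i j, i ≠ j → m i < l j ∨ m j < l i)
    (hS : ∀ j, p (l j) ∈ S) : ∃ (B : Set V) (C : Fin q → Set V), RK G S W B C := by
  refine ⟨seg p a b ∪ {v | ∃ j, v ∈ Q j}, fun j => seg p (l j) (m j), ?_, ?_, fun j =>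
    seg_sub P (hmL j), fun j => seg_conn P ((hl j).trans (hm j)).le (hmL j), ?_, fun j =>
    ⟨p (l j), ⟨l j, le_rfl, ((hl j).trans (hm j)).le, rfl⟩, hS j⟩, ?_, ?_⟩
  · rintro v (hv | ⟨j, hv⟩)
    · exact seg_sub P hb hv
    · exact (hQ j).2.1 hv
  · have ha : p a ∈ seg p a b := ⟨a, le_rfl, hab, rfl⟩
    refine conn_of_RI (c := p a) (Or.inl ha) ?_
    have h1 : ∀ v ∈ seg p a b, RI G (seg p a b ∪ {v | ∃ j, v ∈ Q j}) (p a) v := fun v hv =>
      (RI_of_conn (seg_conn P hab hb) ha hv).mono Set.subset_union_left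
    rintro v (hv | ⟨j, hv⟩)
    · exact h1 v hv
    · refine (h1 (p (y j)) ⟨y j, (hy j).1, (hy j).2, rfl⟩).trans ?_
      exact (RI_of_conn (hQ j).1 (hQ j).2.2.1 hv).mono fun v hv => Or.inr ⟨j, hv⟩
  · intro j
    rw [Set.disjoint_left]
    rintro v (⟨i, hi1, hi2, rfl⟩ | ⟨j', hv⟩) ⟨i', hi1', hi2', hi3'⟩
    · have h1 := P.inj i (hi2.trans hb) i' (hi2'.trans (hmL j)) hi3'
      rcases hout j with h | h <;> omega
    · rw [hi3'] at hv
      have h1 := (hQ j').2.2.2.1 i' (hi2'.trans (hmL j)) hv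
      have h2 := hy j'
      rcases hout j with h | h <;> omega
  · intro j
    obtain ⟨u, hu, hxu⟩ := (hQ j).2.2.2.2
    exact ⟨u, Or.inr ⟨j, hu⟩, p (x j), ⟨x j, (hl j).le, (hm j).le, rfl⟩, hxu.symm⟩
  · intro i j hij
    rw [Set.disjoint_left]
    rintro v ⟨i1, h1, h2, rfl⟩ ⟨i2, h3, h4, h5⟩
    have h6 := P.inj i1 (h2.trans (hmL i)) i2 (h4.trans (hmL j)) h5
    rcases hd i j hij with h | h <;> omega

/-- disjoint jumps -/
theorem star_bypass (P : PD G W r L p) {q : ℕ} (x y s lo hi : Fin q → ℕ) (Q : Fin q → Set V)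
    (hlh : ∀ j, (lo j = x j ∧ hi j = y j) ∨ (lo j = y j ∧ hi j = x j))
    (hs : ∀ j, lo j < s j ∧ s j < hi j) (hL : ∀ j, hi j ≤ L)
    (hQ : ∀ j, JP G W p L (x j) (y j) (Q j)) (hd : ∀ i j, i ≠ j → hi i < lo j ∨ hi j < lo i)
    (hS : ∀ j, p (s j) ∈ S) : ∃ (B : Set V) (C : Fin q → Set V), RK G S W B C := by
  set B : Set V := {v | ∃ i ≤ L, (∀ j, ¬ (lo j < i ∧ i < hi j)) ∧ v = p i} ∪ {v | ∃ j, v ∈ Q j}
    with hB
  have hend : ∀ j, p (lo j) ∈ B ∧ p (hi j) ∈ B := by
    intro j
    have h1 := hs j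
    have h2 := hL j
    refine ⟨Or.inl ⟨lo j, by omega, ?_, rfl⟩, Or.inl ⟨hi j, h2, ?_, rfl⟩⟩
    · rintro j' ⟨h3, h4⟩
      by_cases hjj : j' = j
      · subst hjj; omega
      · have h5 := hs j'
        rcases hd j' j hjj with h | h <;> omega
    · rintro j' ⟨h3, h4⟩
      by_cases hjj : j' = j
      · subst hjj; omega
      · have h5 := hs j'
        rcases hd j' j hjj with h | h <;> omega
  have hacross : ∀ j, RI G B (p (lo j)) (p (hi j)) := by
    intro j
    obtain ⟨u, hu, hxu⟩ := (hQ j).2.2.2.2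
    have h1 : RI G B u (p (y j)) :=
      (RI_of_conn (hQ j).1 hu (hQ j).2.2.1).mono fun v hv => Or.inr ⟨j, hv⟩
    have h2 := hend j
    rcases hlh j with ⟨h3, h4⟩ | ⟨h3, h4⟩
    · rw [h3, h4] at h2 ⊢
      exact (RI.adj h2.1 (Or.inr ⟨j, hu⟩) hxu).trans h1
    · rw [h3, h4] at h2 ⊢
      exact h1.symm.trans (RI.adj (Or.inr ⟨j, hu⟩) h2.2 hxu.symm)
  have h0B : p 0 ∈ B := Or.inl ⟨0, Nat.zero_le _, fun j h => absurd h.1 (Nat.not_lt_zero _), rfl⟩
  have key : ∀ i, i ≤ L → (∀ j, ¬ (lo j < i ∧ i < hi j)) → RI G B (p 0) (p i) := by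
    intro i
    induction i using Nat.strong_induction_on with
    | _ i ih =>
      intro hi' hn
      have hiB : p i ∈ B := Or.inl ⟨i, hi', hn, rfl⟩
      rcases i with _ | i
      · exact RI.refl h0B
      · by_cases h1 : ∀ j, ¬ (lo j < i ∧ i < hi j)
        · exact (ih i (by omega) (by omega) h1).trans
            (RI.adj (Or.inl ⟨i, by omega, h1, rfl⟩) hiB (P.adj i (by omega)))
        · push Not at h1
          obtain ⟨j, h2, h3⟩ := h1
          have h4 : hi j = i + 1 := by
            by_contra h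
            exact hn j ⟨by omega, by omega⟩
          rw [← h4]
          refine (ih (lo j) (by omega) (by omega) ?_).trans (hacross j)
          rintro j' ⟨h5, h6⟩
          by_cases hjj : j' = j
          · subst hjj; omega
          · have h7 := hs j'
            have h8 := hs j
            rcases hd j' j hjj with h | h <;> omega
  refine ⟨B, fun j => seg p (lo j + 1) (hi j - 1), ?_, ?_, fun j => seg_sub P ?_, fun j =>
    seg_conn P ?_ ?_, ?_, fun j => ⟨p (s j), ⟨s j, ?_, ?_, rfl⟩, hS j⟩, ?_, ?_⟩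
  · rintro v (⟨i, hi1, _, rfl⟩ | ⟨j, hv⟩)
    · exact P.mem i hi1
    · exact (hQ j).2.1 hv
  · refine conn_of_RI (c := p 0) h0B ?_
    rintro v (⟨i, hi1, hi2, rfl⟩ | ⟨j, hv⟩)
    · exact key i hi1 hi2
    · have h1 : RI G B (p 0) (p (y j)) := by
        have h2 := hs j
        have h3 := hL j
        have h4 : ∀ i, (i = lo j ∨ i = hi j) → RI G B (p 0) (p i) := by
          intro i hi'
          refine key i (by omega) ?_
          rintro j' ⟨h5, h6⟩
          by_cases hjj : j' = j
          · subst hjj; omega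
          · have h7 := hs j'
            rcases hd j' j hjj with h | h <;> omega
        refine h4 _ ?_
        rcases hlh j with ⟨_, h⟩ | ⟨h, _⟩
        · exact Or.inr h.symm
        · exact Or.inl h.symm
      exact h1.trans ((RI_of_conn (hQ j).1 (hQ j).2.2.1 hv).mono fun v hv => Or.inr ⟨j, hv⟩)
  · have := hL j; omega
  · have := hs j; omega
  · have := hL j; omega
  · intro j
    rw [Set.disjoint_left]
    have h1 := hs j
    have h2 := hL j
    rintro v (⟨i, hi1, hi2, rfl⟩ | ⟨j', hv⟩) ⟨i', hi1', hi2', hi3'⟩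
    · have h3 := P.inj i hi1 i' (by omega) hi3'
      exact hi2 j ⟨by omega, by omega⟩
    · rw [hi3'] at hv
      have h3 := (hQ j').2.2.2.1 i' (by omega) hv
      by_cases hjj : j' = j
      · subst hjj
        rcases hlh j' with ⟨h4, h5⟩ | ⟨h4, h5⟩ <;> omega
      · have h6 := hs j'
        rcases hlh j' with ⟨h4, h5⟩ | ⟨h4, h5⟩ <;> rcases hd j' j hjj with h | h <;> omega
  · have := hs j; omega
  · have := hs j; omega
  · intro j
    have h1 := hs j
    have h2 := hL j
    exact ⟨p (lo j), (hend j).1, p (lo j + 1), ⟨lo j + 1, le_rfl, by omega, rfl⟩,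
      P.adj _ (by omega)⟩
  · intro i j hij
    rw [Set.disjoint_left]
    have h1 := hs i
    have h2 := hL i
    have h3 := hs j
    have h4 := hL j
    rintro v ⟨i1, h5, h6, rfl⟩ ⟨i2, h7, h8, h9⟩
    have h10 := P.inj i1 (by omega) i2 (by omega) h9
    rcases hd i j hij with h | h <;> omega

end TWk
end

section

/-!
# MP_cfc9ed_co: a large set of roots in a 3-connected graph gives a rooted `K_{1,k}` minor
-/

set_option autoImplicit false

namespace TWk

open SimpleGraph Relation

/-- many jumps over disjoint segments of a path -/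
theorem many_jumps {V : Type*} {G : SimpleGraph V} {S W : Set V} {r : V} {L : ℕ} {p : ℕ → V}
    (P : PD G W r L p) (q R : ℕ) (hR : q * (2 * q + 1) ≤ R) (l m x y : Fin R → ℕ)
    (Q : Fin R → Set V) (hx1 : ∀ j, l j < x j) (hx2 : ∀ j, x j < m j) (hmL : ∀ j, m j ≤ L)
    (hyL : ∀ j, y j ≤ L) (hy : ∀ j, y j < l j ∨ m j < y j) (hQ : ∀ j, JP G W p L (x j) (y j) (Q j))
    (hd : ∀ i j, i ≠ j → m i < l j ∨ m j < l i) (hS : ∀ j, p (l j) ∈ S ∧ p (m j) ∈ S) :
    ∃ (B : Set V) (C : Fin q → Set V), RK G S W B C := by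
  classical
  rcases intervals (fun j => min (x j) (y j)) (fun j => max (x j) (y j)) (2 * q + 1)
    (fun j => min_le_max) q Finset.univ (by rw [Finset.card_fin]; omega) with
    ⟨A, -, hAc, hA⟩ | ⟨z, A, -, hAc, hA⟩
  · let e := Finset.equivFinOfCardEq hAc
    let g : Fin q → Fin R := fun j => (e.symm j : Fin R)
    have hg : ∀ i j, i ≠ j → g i ≠ g j := fun i j h h' => h (e.symm.injective (Subtype.ext h'))
    refine star_bypass P (fun j => x (g j)) (fun j => y (g j))
      (fun j => if y (g j) < x (g j) then l (g j) else m (g j))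
      (fun j => min (x (g j)) (y (g j))) (fun j => max (x (g j)) (y (g j))) (fun j => Q (g j))
      ?_ ?_ ?_ (fun j => hQ _) ?_ ?_
    · intro j
      rcases le_total (x (g j)) (y (g j)) with h | h
      · exact Or.inl ⟨min_eq_left h, max_eq_right h⟩
      · exact Or.inr ⟨min_eq_right h, max_eq_left h⟩
    · intro j
      have h1 := hx1 (g j)
      have h2 := hx2 (g j)
      rcases hy (g j) with h | h
      · rw [if_pos (by omega), min_eq_right (by omega), max_eq_left (by omega)]
        exact ⟨h, h1⟩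
      · rw [if_neg (by omega), min_eq_left (by omega), max_eq_right (by omega)]
        exact ⟨h2, h⟩
    · intro j
      exact max_le ((hx2 _).le.trans (hmL _)) (hyL _)
    · intro i j hij
      exact hA _ (e.symm i).2 _ (e.symm j).2 (hg i j hij)
    · intro j
      split_ifs
      · exact (hS _).1
      · exact (hS _).2
  · -- many jumps over the point `z`
    have hzL : z ≤ L := by
      obtain ⟨j, hj⟩ : A.Nonempty := by
        rw [← Finset.card_pos]; omega
      exact (hA j hj).2.trans (max_le ((hx2 _).le.trans (hmL _)) (hyL _))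
    have hsub : A ⊆ (A.filter fun j => m j < z) ∪ (A.filter fun j => z < l j) ∪
        (A.filter fun j => l j ≤ z ∧ z ≤ m j) := by
      intro j hj
      rw [Finset.mem_union, Finset.mem_union, Finset.mem_filter, Finset.mem_filter,
        Finset.mem_filter]
      by_cases h1 : m j < z
      · exact Or.inl (Or.inl ⟨hj, h1⟩)
      · by_cases h2 : z < l j
        · exact Or.inl (Or.inr ⟨hj, h2⟩)
        · exact Or.inr ⟨hj, by omega, by omega⟩
    have h3 : (A.filter fun j => l j ≤ z ∧ z ≤ m j).card ≤ 1 := by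
      rw [Finset.card_le_one]
      intro i hi j hj
      have h4 := (Finset.mem_filter.1 hi).2
      have h5 := (Finset.mem_filter.1 hj).2
      by_contra hij
      rcases hd i j hij with h | h <;> omega
    have h4 : q ≤ (A.filter fun j => m j < z).card ∨ q ≤ (A.filter fun j => z < l j).card := by
      have h5 := Finset.card_le_card hsub
      have h6 := Finset.card_union_le ((A.filter fun j => m j < z) ∪
        (A.filter fun j => z < l j)) (A.filter fun j => l j ≤ z ∧ z ≤ m j)
      have h7 := Finset.card_union_le (A.filter fun j => m j < z) (A.filter fun j => z < l j)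
      omega
    have hfin : ∀ (lo hi : ℕ), lo ≤ hi → hi ≤ L → ∀ A' : Finset (Fin R), q ≤ A'.card →
        (∀ j ∈ A', (lo ≤ y j ∧ y j ≤ hi) ∧ (m j < lo ∨ hi < l j)) →
        ∃ (B : Set V) (C : Fin q → Set V), RK G S W B C := by
      intro lo hi hlh hhL A' hA'c hA'
      obtain ⟨A'', hA'', hA''c⟩ := Finset.exists_subset_card_eq hA'c
      let e := Finset.equivFinOfCardEq hA''c
      let g : Fin q → Fin R := fun j => (e.symm j : Fin R)
      have hg : ∀ i j, i ≠ j → g i ≠ g j := fun i j h h' => h (e.symm.injective (Subtype.ext h'))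
      have hgA : ∀ j, g j ∈ A' := fun j => hA'' (e.symm j).2
      exact star_base P hlh hhL (fun j => l (g j)) (fun j => m (g j)) (fun j => x (g j))
        (fun j => y (g j)) (fun j => Q (g j)) (fun j => hx1 _) (fun j => hx2 _)
        (fun j => hmL _) (fun j => (hA' _ (hgA j)).1) (fun j => (hA' _ (hgA j)).2)
        (fun j => hQ _) (fun i j hij => hd _ _ (hg i j hij)) (fun j => (hS _).1)
    rcases h4 with h4 | h4
    · refine hfin z L hzL le_rfl _ h4 ?_
      intro j hj
      obtain ⟨hjA, hjz⟩ := Finset.mem_filter.1 hj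
      have h5 := (hA j hjA).2
      have h6 := hx2 j
      refine ⟨⟨?_, hyL j⟩, Or.inl hjz⟩
      rcases le_max_iff.1 h5 with h | h <;> omega
    · refine hfin 0 z (Nat.zero_le _) hzL _ h4 ?_
      intro j hj
      obtain ⟨hjA, hjz⟩ := Finset.mem_filter.1 hj
      have h5 := (hA j hjA).1
      have h6 := hx1 j
      refine ⟨⟨Nat.zero_le _, ?_⟩, Or.inr hjz⟩
      rcases min_le_iff.1 h5 with h | h <;> omega

/-- triples of roots on a path with many roots -/
theorem exists_triples {V : Type*} {S : Set V} {L : ℕ} {p : ℕ → V} (R : ℕ)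
    (hS : 3 * R ≤ cS S p L) :
    ∃ l c m : Fin R → ℕ, (∀ j, l j < c j ∧ c j < m j ∧ m j ≤ L) ∧
      (∀ j, p (l j) ∈ S ∧ p (c j) ∈ S ∧ p (m j) ∈ S) ∧
      ∀ i j, i.1 < j.1 → m i < l j := by
  classical
  unfold cS at hS
  obtain ⟨F, hF, hFc⟩ := Finset.exists_subset_card_eq hS
  let σ : Fin (3 * R) ↪o ℕ := F.orderEmbOfFin hFc
  have hσ : ∀ i, σ i ≤ L ∧ p (σ i) ∈ S := by
    intro i
    have h1 := Finset.mem_filter.1 (hF (Finset.orderEmbOfFin_mem F hFc i))
    exact ⟨Nat.lt_succ_iff.1 (Finset.mem_range.1 h1.1), h1.2⟩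
  have hσlt : ∀ i j : Fin (3 * R), i.1 < j.1 → σ i < σ j := fun i j h =>
    σ.strictMono (Fin.lt_def.2 h)
  let a : Fin R → Fin (3 * R) := fun j => ⟨3 * j.1, by have := j.2; omega⟩
  let b : Fin R → Fin (3 * R) := fun j => ⟨3 * j.1 + 1, by have := j.2; omega⟩
  let c : Fin R → Fin (3 * R) := fun j => ⟨3 * j.1 + 2, by have := j.2; omega⟩
  refine ⟨fun j => σ (a j), fun j => σ (b j), fun j => σ (c j), fun j => ⟨hσlt _ _ ?_,
    hσlt _ _ ?_, (hσ _).1⟩, fun j => ⟨(hσ _).2, (hσ _).2, (hσ _).2⟩, fun i j h => hσlt _ _ ?_⟩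
  · show 3 * j.1 < 3 * j.1 + 1
    omega
  · show 3 * j.1 + 1 < 3 * j.1 + 2
    omega
  · show 3 * i.1 + 2 < 3 * j.1
    omega

/-- a path with many roots -/
theorem rooted_path {V : Type*} {G : SimpleGraph V} {S W : Set V} {r : V} {L : ℕ} {p : ℕ → V}
    (P : PD G W r L p) (q R : ℕ) (hR : q * (2 * q + 1) + 2 ≤ R) (hS : 3 * R ≤ cS S p L)
    (hW : ∀ u v : V, (G.induce (W \ {u, v})).Connected) :
    ∃ (B : Set V) (C : Fin q → Set V), RK G S W B C := by
  classical
  obtain ⟨l, c, m, h1, h2, h3⟩ := exists_triples R hS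
  have hj : ∀ j : Fin R, ∃ (x y : ℕ) (Q : Set V), l j < x ∧ x < m j ∧ y ≤ L ∧
      (y < l j ∨ m j < y) ∧ JP G W p L x y Q := by
    intro j
    have ho : ∃ o ≤ L, o < l j ∨ m j < o := by
      by_cases h : j.1 = 0
      · have h4 := h1 ⟨1, by omega⟩
        refine ⟨l ⟨1, by omega⟩, by omega, Or.inr (h3 _ _ ?_)⟩
        show j.1 < 1
        omega
      · have h4 := h1 ⟨0, by omega⟩
        refine ⟨m ⟨0, by omega⟩, by omega, Or.inl (h3 _ _ ?_)⟩
        show 0 < j.1
        omega
    obtain ⟨o, ho1, ho2⟩ := ho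
    have h4 := h1 j
    have hmemW : ∀ i ≤ L, i ≠ l j → i ≠ m j → p i ∈ W \ {p (l j), p (m j)} := by
      intro i hi hil him
      refine ⟨P.mem i hi, ?_⟩
      rintro (h | h)
      · exact hil (P.inj i hi (l j) (by omega) h)
      · exact him (P.inj i hi (m j) (by omega) h)
    obtain ⟨x, y, Q, h5, h6, h7, h8, h9⟩ := jump P h4.1 h4.2.1 h4.2.2 ho1 ho2
      (RI_of_conn (hW _ _) (hmemW (c j) (by omega) (by omega) (by omega))
        (hmemW o ho1 (by omega) (by omega)))
    exact ⟨x, y, Q, h5, h6, h7, h8, h9⟩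
  choose x y Q hx1 hx2 hyL hy hQ using hj
  refine many_jumps P q R (by omega) l m x y Q hx1 hx2 (fun j => (h1 j).2.2) hyL hy hQ ?_
    (fun j => ⟨(h2 j).1, (h2 j).2.2⟩)
  intro i j hij
  rcases lt_or_gt_of_ne (fun h => hij (Fin.ext h) : i.1 ≠ j.1) with h | h
  · exact Or.inl (h3 i j h)
  · exact Or.inr (h3 j i h)

/-- **rooted `K_{1,q}` minors**: `W` stays connected after deleting two vertices and contains many vertices
of `S` -/
theorem rooted (q : ℕ) : ∃ N, ∀ (V : Type) [Fintype V] (G : SimpleGraph V) (S W : Set V),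
    (∀ u v : V, (G.induce (W \ {u, v})).Connected) → N ≤ (S ∩ W).ncard →
    ∃ (B : Set V) (C : Fin q → Set V), RK G S W B C := by
  obtain ⟨N, hN⟩ := greedy (3 * (q * (2 * q + 1) + 2)) q
  refine ⟨N + 3, ?_⟩
  intro V _ G S W hW hS
  classical
  -- `W` is connected
  have h3 : 2 < W.ncard := by
    have := Set.ncard_le_ncard (Set.inter_subset_right : S ∩ W ⊆ W) (Set.toFinite _)
    omega
  obtain ⟨r, hr⟩ : W.Nonempty := by
    rw [← Set.ncard_pos]; omega
  have hWc : (G.induce W).Connected := by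
    refine conn_of_RI (c := r) hr ?_
    intro x hx
    obtain ⟨z, hz⟩ : ∃ z, z ∈ W \ {r, x} := by
      by_contra hcon
      push Not at hcon
      have h4 : W ⊆ {r, x} := fun z hz => by
        by_contra h
        exact hcon z ⟨hz, h⟩
      have h5 := Set.ncard_le_ncard h4 (Set.toFinite _)
      have h6 : ({r, x} : Set V).ncard ≤ 2 := (Set.ncard_insert_le r {x}).trans (by
        rw [Set.ncard_singleton])
      omega
    have h4 := hW z z
    refine (RI_of_conn h4 ⟨hr, ?_⟩ ⟨hx, ?_⟩).mono Set.sdiff_subset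
    · rintro (h | h)
      · exact hz.2 (Or.inl h.symm)
      · exact hz.2 (Or.inl (Set.mem_singleton_iff.1 h).symm)
    · rintro (h | h)
      · exact hz.2 (Or.inr h.symm)
      · exact hz.2 (Or.inr (Set.mem_singleton_iff.1 h).symm)
  rcases hN V G S W r hWc hr (by omega) with ⟨L, p, P, hp⟩ | ⟨B, C, -, h⟩
  · exact rooted_path P q _ le_rfl hp hW
  · exact ⟨B, C, h⟩

end TWk
end

section

/-!
# MP_cfc9ed_co: rooted `K_{1,k}` minors, the roots are small connected sets
-/

set_option autoImplicit false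

namespace TWk

open SimpleGraph Relation

section

variable {V : Type*} (G : SimpleGraph V) (W : Set V) (ρ : V → V)

/-- the graph obtained by contracting the fibres of `ρ` in `W` -/
def Cg : SimpleGraph V where
  Adj u v := u ≠ v ∧ ∃ u' ∈ W, ∃ v' ∈ W, ρ u' = u ∧ ρ v' = v ∧ G.Adj u' v'
  symm := ⟨fun _ _ ⟨h, u', hu, v', hv, h1, h2, h3⟩ => ⟨h.symm, v', hv, u', hu, h2, h1, h3.symm⟩⟩
  loopless := ⟨fun _ h => h.1 rfl⟩

variable {G W ρ}

theorem Cg_map {Y : Set V} {P : Set V} (hP : ∀ x ∈ W \ Y, ρ x ∈ P) {x y : V}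
    (h : RI G (W \ Y) x y) : RI (Cg G W ρ) P (ρ x) (ρ y) := by
  have hx := h.1
  refine RI.closed (C := {z | RI (Cg G W ρ) P (ρ x) (ρ z)}) h (RI.refl (hP x hx)) ?_
  intro v hv hvs w hw hvw
  by_cases heq : ρ v = ρ w
  · show RI (Cg G W ρ) P (ρ x) (ρ w)
    rw [← heq]
    exact hv
  · exact RI.trans hv (RI.adj (hP v hvs) (hP w hw) ⟨heq, v, hvs.1, w, hw.1, rfl, rfl, hvw⟩)

/-- preimages of connected sets are connected -/
theorem Cg_pull (hf : ∀ x ∈ W, ∀ y ∈ W, ρ x = ρ y → RI G {z | z ∈ W ∧ ρ z = ρ x} x y)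
    {B : Set V} (hB : ((Cg G W ρ).induce B).Connected) (hBW : ∀ b ∈ B, ∃ x ∈ W, ρ x = b) :
    (G.induce {x | x ∈ W ∧ ρ x ∈ B}).Connected := by
  obtain ⟨⟨b, hb⟩⟩ := hB.nonempty
  obtain ⟨x, hx, rfl⟩ := hBW b hb
  have hfib : ∀ u ∈ W, ∀ v ∈ W, ρ u ∈ B → ρ u = ρ v → RI G {x | x ∈ W ∧ ρ x ∈ B} u v := by
    intro u hu v hv huB huv
    refine (hf u hu v hv huv).mono ?_
    rintro z ⟨hz, hz'⟩
    exact ⟨hz, by rw [hz']; exact huB⟩
  refine conn_of_RI (c := x) ⟨hx, hb⟩ ?_
  rintro y ⟨hy, hyB⟩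
  have key : ρ y ∈ {c | ∀ z ∈ W, ρ z = c → RI G {x | x ∈ W ∧ ρ x ∈ B} x z} := by
    refine RI.closed (RI_of_conn hB hb hyB) ?_ ?_
    · intro z hz hzx
      exact hfib x hx z hz hb hzx.symm
    · rintro c hc hcB d hd ⟨_, u', hu, v', hv, rfl, rfl, huv⟩ z hz hzd
      have e1 : u' ∈ {x | x ∈ W ∧ ρ x ∈ B} := ⟨hu, hcB⟩
      have e2 : v' ∈ {x | x ∈ W ∧ ρ x ∈ B} := ⟨hv, hd⟩
      refine (hc u' hu rfl).trans ((RI.adj e1 e2 huv).trans ?_)
      exact hfib v' hv z hz hd hzd.symm
  exact key y hy rfl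

end

/-- **rooted `K_{1,q}` minors**, the roots are connected sets of at most `s` vertices -/
theorem rooted_sets (s q : ℕ) (hs : 1 ≤ s) : ∃ N, ∀ (V : Type) [Fintype V] (G : SimpleGraph V)
    (W : Set V) (n : ℕ) (F : Fin n → Finset V), N ≤ n →
    (∀ Y : Finset V, Y.card ≤ 2 * s → (G.induce (W \ ↑Y)).Connected) →
    (∀ i, (∀ x ∈ F i, x ∈ W) ∧ (F i).card ≤ s ∧ (G.induce (↑(F i) : Set V)).Connected) →
    (∀ i j, i ≠ j → Disjoint (F i) (F j)) →
    ∃ (B : Set V) (C : Fin q → Set V), B ⊆ W ∧ (G.induce B).Connected ∧ (∀ j, C j ⊆ W) ∧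
      (∀ j, (G.induce (C j)).Connected) ∧ (∀ j, Disjoint B (C j)) ∧
      (∀ j, ∃ i, (↑(F i) : Set V) ⊆ C j) ∧ (∀ j, ∃ u ∈ B, ∃ v ∈ C j, G.Adj u v) ∧
      ∀ i j, i ≠ j → Disjoint (C i) (C j) := by
  obtain ⟨N, hN⟩ := rooted q
  refine ⟨N, ?_⟩
  intro V _ G W n F hn hW hF hd
  classical
  have hne : ∀ i, ∃ x, x ∈ F i := by
    intro i
    obtain ⟨⟨x, hx⟩⟩ := (hF i).2.2.nonempty
    exact ⟨x, hx⟩
  choose rep hrep using hne
  have huniq : ∀ i j x, x ∈ F i → x ∈ F j → i = j := by
    intro i j x hi hj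
    by_contra hij
    exact Finset.disjoint_left.1 (hd i j hij) hi hj
  let ρ : V → V := fun x => if h : ∃ i, x ∈ F i then rep h.choose else x
  have hρ1 : ∀ i x, x ∈ F i → ρ x = rep i := by
    intro i x hx
    have h : ∃ i, x ∈ F i := ⟨i, hx⟩
    show (if h : ∃ i, x ∈ F i then rep h.choose else x) = rep i
    rw [dif_pos h, huniq _ _ x h.choose_spec hx]
  have hρ2 : ∀ x, (¬ ∃ i, x ∈ F i) → ρ x = x := fun x h => dif_neg h
  have hρW : ∀ x ∈ W, ρ x ∈ W := by
    intro x hx
    by_cases h : ∃ i, x ∈ F i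
    · obtain ⟨i, hi⟩ := h
      rw [hρ1 i x hi]
      exact (hF i).1 _ (hrep i)
    · rw [hρ2 x h]; exact hx
  have hrepinj : ∀ i j, rep i = rep j → i = j := fun i j h =>
    huniq i j (rep i) (hrep i) (by rw [h]; exact hrep j)
  have hfib : ∀ x ∈ W, ∀ y ∈ W, ρ x = ρ y → RI G {z | z ∈ W ∧ ρ z = ρ x} x y := by
    intro x hx y hy hxy
    by_cases h : ∃ i, x ∈ F i
    · obtain ⟨i, hi⟩ := h
      have hyi : y ∈ F i := by
        by_cases h' : ∃ j, y ∈ F j
        · obtain ⟨j, hj⟩ := h'
          rw [hρ1 i x hi, hρ1 j y hj] at hxy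
          rw [hrepinj i j hxy]
          exact hj
        · rw [hρ1 i x hi, hρ2 y h'] at hxy
          rw [← hxy]
          exact hrep i
      refine (RI_of_conn (hF i).2.2 (Finset.mem_coe.2 hi) (Finset.mem_coe.2 hyi)).mono ?_
      intro z hz
      exact ⟨(hF i).1 z hz, by rw [hρ1 i z hz, hρ1 i x hi]⟩
    · have hxy' : x = y := by
        by_cases h' : ∃ j, y ∈ F j
        · obtain ⟨j, hj⟩ := h'
          rw [hρ2 x h, hρ1 j y hj] at hxy
          exact absurd ⟨j, by rw [hxy]; exact hrep j⟩ h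
        · rw [hρ2 x h, hρ2 y h'] at hxy
          exact hxy
      subst hxy'
      exact RI.refl ⟨hx, rfl⟩
  have hfc : ∀ u : V, (Finset.univ.filter fun x => ρ x = u).card ≤ s := by
    intro u
    by_cases h : ∃ i, rep i = u
    · obtain ⟨i, rfl⟩ := h
      refine (Finset.card_le_card ?_).trans (hF i).2.1
      intro x hx
      have hx' := (Finset.mem_filter.1 hx).2
      by_cases h' : ∃ j, x ∈ F j
      · obtain ⟨j, hj⟩ := h'
        rw [hρ1 j x hj] at hx'
        rw [← hrepinj j i hx']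
        exact hj
      · rw [hρ2 x h'] at hx'
        rw [hx']
        exact hrep i
    · refine (Finset.card_le_card (t := {u}) ?_).trans (by rw [Finset.card_singleton]; exact hs)
      intro x hx
      have hx' := (Finset.mem_filter.1 hx).2
      by_cases h' : ∃ j, x ∈ F j
      · obtain ⟨j, hj⟩ := h'
        rw [hρ1 j x hj] at hx'
        exact absurd ⟨j, hx'⟩ h
      · rw [hρ2 x h'] at hx'
        rw [hx']
        exact Finset.mem_singleton_self _
  obtain ⟨B, C, hRK⟩ := hN V (Cg G W ρ) (Set.range rep) (ρ '' W) (by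
    intro u v
    have h1 := hW ((Finset.univ.filter fun x => ρ x = u) ∪ (Finset.univ.filter fun x => ρ x = v))
      ((Finset.card_union_le _ _).trans (by
        have := hfc u
        have := hfc v
        omega))
    have hmem : ∀ x, x ∈ W \ ↑((Finset.univ.filter fun x => ρ x = u) ∪
        (Finset.univ.filter fun x => ρ x = v)) ↔ x ∈ W ∧ ρ x ≠ u ∧ ρ x ≠ v := by
      intro x
      simp only [Finset.coe_union, Set.mem_sdiff, Set.mem_union, Finset.mem_coe, Finset.mem_filter,
        Finset.mem_univ, true_and, not_or]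
    obtain ⟨⟨x, hx⟩⟩ := h1.nonempty
    have hx' := (hmem x).1 hx
    have hP : ∀ z ∈ W \ ↑((Finset.univ.filter fun x => ρ x = u) ∪
        (Finset.univ.filter fun x => ρ x = v)), ρ z ∈ ρ '' W \ {u, v} := by
      intro z hz
      have hz' := (hmem z).1 hz
      refine ⟨⟨z, hz'.1, rfl⟩, ?_⟩
      rintro (h | h)
      · exact hz'.2.1 h
      · exact hz'.2.2 h
    refine conn_of_RI (c := ρ x) (hP x hx) ?_
    rintro y ⟨⟨z, hz, rfl⟩, hzn⟩
    have hz' : z ∈ W \ ↑((Finset.univ.filter fun x => ρ x = u) ∪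
        (Finset.univ.filter fun x => ρ x = v)) :=
      (hmem z).2 ⟨hz, fun h => hzn (Or.inl h), fun h => hzn (Or.inr h)⟩
    exact Cg_map hP (RI_of_conn h1 hx hz')) (by
    have h1 : (Set.range rep ∩ ρ '' W) = Set.range rep := by
      apply Set.inter_eq_left.2
      rintro _ ⟨i, rfl⟩
      exact ⟨rep i, (hF i).1 _ (hrep i), hρ1 i _ (hrep i)⟩
    have h2 : (Set.range rep).ncard = n := by
      rw [← Set.image_univ, Set.ncard_image_of_injective _ (fun i j h => hrepinj i j h),
        Set.ncard_univ, Nat.card_eq_fintype_card, Fintype.card_fin]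
    rw [h1, h2]
    exact hn)
  have hsubW : ∀ D : Set V, D ⊆ ρ '' W → ∀ b ∈ D, ∃ x ∈ W, ρ x = b := fun D hD b hb => hD hb
  refine ⟨{x | x ∈ W ∧ ρ x ∈ B}, fun j => {x | x ∈ W ∧ ρ x ∈ C j}, fun x hx => hx.1,
    Cg_pull hfib hRK.connB (hsubW B hRK.subB), fun j x hx => hx.1,
    fun j => Cg_pull hfib (hRK.connC j) (hsubW _ (hRK.subC j)), ?_, ?_, ?_, ?_⟩
  · intro j
    rw [Set.disjoint_left]
    intro x hx hx'
    exact Set.disjoint_left.1 (hRK.disj j) hx.2 hx'.2
  · intro j
    obtain ⟨_, hz, ⟨i, rfl⟩⟩ := hRK.root j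
    refine ⟨i, ?_⟩
    intro x hx
    exact ⟨(hF i).1 x hx, by rw [hρ1 i x hx]; exact hz⟩
  · intro j
    obtain ⟨u, hu, v, hv, _, u', hu', v', hv', h1, h2, h3⟩ := hRK.adj j
    exact ⟨u', ⟨hu', by rw [h1]; exact hu⟩, v', ⟨hv', by rw [h2]; exact hv⟩, h3⟩
  · intro i j hij
    rw [Set.disjoint_left]
    intro x hx hx'
    exact Set.disjoint_left.1 (hRK.disjC i j hij) hx.2 hx'.2

/-- **small models can be upgraded**: a `(t+2s+1)`-connected graph with a `K_{b,n}` model, `n` large,
whose first `b` branch sets are contained in a set `X` of `t` vertices and whose other branch sets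
have at most `s` vertices outside of `X`, has a `K_{b+1,k}` minor. -/
theorem upgrade (s k : ℕ) (hs : 1 ≤ s) : ∃ N, ∀ (b t : ℕ) (V : Type) [Fintype V]
    (G : SimpleGraph V), Conn G (t + 2 * s + 1) → ∀ (X : Finset V), X.card ≤ t →
    ∀ (A : Fin b → Set V), (∀ i, A i ⊆ ↑X ∧ (G.induce (A i)).Connected) →
    (∀ i j, i ≠ j → Disjoint (A i) (A j)) →
    ∀ (n : ℕ) (F : Fin n → Finset V), N ≤ n →
    (∀ i, (∀ x ∈ F i, x ∉ X) ∧ (F i).card ≤ s ∧ (G.induce (↑(F i) : Set V)).Connected) →
    (∀ i j, i ≠ j → Disjoint (F i) (F j)) →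
    (∀ i j, ∃ x ∈ A i, ∃ y ∈ F j, G.Adj x y) → HasK G (b + 1) k := by
  obtain ⟨N, hN⟩ := rooted_sets s k hs
  refine ⟨N, ?_⟩
  intro b t V _ G hG X hX A hA hAd n F hn hF hFd hadj
  classical
  obtain ⟨B, C, h1, h2, h3, h4, h5, h6, h7, h8⟩ := hN V G ((↑X : Set V)ᶜ) n F hn (by
    intro Y hY
    have h := hG.2 (X ∪ Y) ((Finset.card_union_le _ _).trans_lt (by omega))
    have h' : (↑(X ∪ Y) : Set V)ᶜ = (↑X : Set V)ᶜ \ ↑Y := by
      ext x; simp
    rw [h'] at h
    exact h) hF hFd
  refine hasK_of (Fin.cons B A) C ?_ h4 ?_ h8 ?_ ?_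
  · intro i
    refine Fin.cases ?_ (fun i => ?_) i
    · exact h2
    · exact (hA i).2
  · have hBA : ∀ i, Disjoint B (A i) := fun i => by
      rw [Set.disjoint_left]
      intro x hx hx'
      exact h1 hx ((hA i).1 hx')
    intro i i'
    induction i using Fin.cases with
    | zero =>
      induction i' using Fin.cases with
      | zero => exact fun h => absurd rfl h
      | succ i' => exact fun _ => hBA i'
    | succ i =>
      induction i' using Fin.cases with
      | zero => exact fun _ => (hBA i).symm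
      | succ i' => exact fun h => hAd i i' fun h' => h (by rw [h'])
  · intro i j
    refine Fin.cases ?_ (fun i => ?_) i
    · exact h5 j
    · show Disjoint (A i) (C j)
      rw [Set.disjoint_left]
      intro x hx hx'
      exact h3 j hx' ((hA i).1 hx)
  · intro i j
    refine Fin.cases ?_ (fun i => ?_) i
    · exact h7 j
    · obtain ⟨i', hi'⟩ := h6 j
      obtain ⟨x, hx, y, hy, hxy⟩ := hadj i i'
      exact ⟨x, hx, y, hi' hy, hxy⟩

end TWk
end
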