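import Pool.Agent.Lib.MP_cfc9ed_co.R4

section

/-!
# MP_cfc9ed_co: covered positions, non-separating chordless paths (Tutte)
-/

set_option autoImplicit false

namespace TWk

open SimpleGraph Relation

section

variable {V : Type*} {G : SimpleGraph V}

/-- `a` and `b` are adjacent or joined by a path with all inner vertices in `Y` -/
def Br (G : SimpleGraph V) (Y : Set V) (a b : V) : Prop :=
  G.Adj a b ∨ ∃ d d', G.Adj a d ∧ G.Adj b d' ∧ RI G Y d d'

theorem mem_seg {p : ℕ → V} {a b i : ℕ} (h1 : a ≤ i) (h2 : i ≤ b) : p i ∈ seg p a b :=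
  ⟨i, h1, h2, rfl⟩

/-- in a 3-connected graph no position of a path is covered by bridges that are closed -/
theorem cov [Fintype V] (hG : Conn G 3) {u : ℕ → V} {l m : ℕ} (hlm : l ≤ m)
    (hinj : ∀ i j, l ≤ i → i ≤ m → l ≤ j → j ≤ m → u i = u j → i = j) (Y : Set V)
    (hYu : ∀ i, l ≤ i → i ≤ m → u i ∉ Y)
    (hNY : ∀ d ∈ Y, ∀ w, G.Adj d w → w ∈ Y ∨ w ∈ seg u l m)
    {z0 : V} (hz0 : z0 ∉ Y) (hz0' : z0 ∉ seg u l m)
    (H : ∀ x y, l ≤ x → y ≤ m → Br G Y (u x) (u y) → ∀ i, x < i → i < y →
      ∀ w, G.Adj (u i) w → w ∈ seg u l m ∨ w ∈ Y) :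
    (∀ x y, l ≤ x → x + 2 ≤ y → y ≤ m → ¬ G.Adj (u x) (u y)) ∧ Y = ∅ := by
  classical
  set cv : ℕ → Prop := fun i => ∃ x y, l ≤ x ∧ x < i ∧ i < y ∧ y ≤ m ∧ Br G Y (u x) (u y) with hcv
  have hcl : ¬ cv l := by
    rintro ⟨x, y, h1, h2, _⟩
    omega
  have hcm : ¬ cv m := by
    rintro ⟨x, y, h1, h2, h3, h4, _⟩
    omega
  have hno : ∀ i0, ¬ cv i0 := by
    intro i0 h0
    have hb : l < i0 ∧ i0 < m := by
      obtain ⟨x, y, h1, h2, h3, h4, _⟩ := h0
      omega
    -- the last uncovered position before `i0`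
    have hP : ∃ k ≤ i0, l ≤ k ∧ ¬ cv k := ⟨l, hb.1.le, le_rfl, hcl⟩
    obtain ⟨k, hk1, hk2⟩ := hP
    have hs := Nat.findGreatest_spec (P := fun k => l ≤ k ∧ ¬ cv k) hk1 hk2
    set xs := Nat.findGreatest (fun k => l ≤ k ∧ ¬ cv k) i0 with hxs
    have hxs1 : xs ≤ i0 := Nat.findGreatest_le _
    have hxs2 : xs < i0 := lt_of_le_of_ne hxs1 fun h => hs.2 (by rw [h]; exact h0)
    have hxs3 : ∀ i, xs < i → i ≤ i0 → cv i := by
      intro i hi hi'
      by_contra h
      exact Nat.findGreatest_is_greatest hi hi' ⟨by omega, h⟩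
    -- the first uncovered position after `i0`
    have hQ : ∃ k, i0 < k ∧ ¬ cv k := ⟨m, hb.2, hcm⟩
    have ht := Nat.find_spec hQ
    set ys := Nat.find hQ with hys
    have hys1 : ys ≤ m := Nat.find_min' hQ ⟨hb.2, hcm⟩
    have hys3 : ∀ i, i0 ≤ i → i < ys → cv i := by
      intro i hi hi'
      by_contra h
      have hne : i0 ≠ i := fun h' => h (by rw [← h']; exact h0)
      exact Nat.find_min hQ hi' ⟨lt_of_le_of_ne hi hne, h⟩
    have hall : ∀ i, xs < i → i < ys → cv i := by
      intro i h1 h2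
      rcases le_total i i0 with h | h
      · exact hxs3 i h1 h
      · exact hys3 i h h2
    have hsep := sep hG
      ({v | ∃ i, xs < i ∧ i < ys ∧ v = u i} ∪
        {d | ∃ i, xs < i ∧ i < ys ∧ ∃ d', G.Adj (u i) d' ∧ RI G Y d' d})
      {u xs, u ys} (d := u i0) (z := z0) (Or.inl ⟨i0, hxs2, ht.1, rfl⟩) ?_ ?_ ?_ ?_
    · have := Finset.card_le_two (a := u xs) (b := u ys)
      omega
    · intro h
      rcases Finset.mem_insert.1 h with h | h
      · have := hinj i0 xs (by omega) (by omega) hs.1 (by omega) h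
        omega
      · have := hinj i0 ys (by omega) (by omega) (by omega) hys1 (Finset.mem_singleton.1 h)
        omega
    · -- closedness
      have hpos : ∀ j, l ≤ j → j ≤ m → ¬ (j < xs) → ¬ (ys < j) →
          (u j ∈ ({v | ∃ i, xs < i ∧ i < ys ∧ v = u i} ∪
            {d | ∃ i, xs < i ∧ i < ys ∧ ∃ d', G.Adj (u i) d' ∧ RI G Y d' d} : Set V)) ∨
          u j ∈ ({u xs, u ys} : Finset V) := by
        intro j _ _ h3 h4
        by_cases h5 : j = xs
        · right; rw [h5]; simp
        · by_cases h6 : j = ys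
          · right; rw [h6]; simp
          · left; left
            exact ⟨j, by omega, by omega, rfl⟩
      rintro v (⟨i, hi1, hi2, rfl⟩ | ⟨i, hi1, hi2, d', hd', hdv⟩) w hvw
      · obtain ⟨x, y, h1, h2, h3, h4, h5⟩ := hall i hi1 hi2
        rcases H x y h1 h4 h5 i h2 h3 w hvw with ⟨j, hj1, hj2, rfl⟩ | hwY
        · refine hpos j hj1 hj2 (fun h => ?_) (fun h => ?_)
          · exact hs.2 ⟨j, i, hj1, h, hi1, by omega, Or.inl hvw.symm⟩
          · exact ht.2 ⟨i, j, by omega, hi2, h, hj2, Or.inl hvw⟩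
        · exact Or.inl (Or.inr ⟨i, hi1, hi2, w, hvw, RI.refl hwY⟩)
      · rcases hNY v hdv.2.1 w hvw with hwY | ⟨j, hj1, hj2, rfl⟩
        · exact Or.inl (Or.inr ⟨i, hi1, hi2, d', hd', hdv.trans (RI.adj hdv.2.1 hwY hvw)⟩)
        · refine hpos j hj1 hj2 (fun h => ?_) (fun h => ?_)
          · exact hs.2 ⟨j, i, hj1, h, hi1, by omega, Or.inr ⟨v, d', hvw.symm, hd', hdv.symm⟩⟩
          · exact ht.2 ⟨i, j, by omega, hi2, h, hj2, Or.inr ⟨d', v, hd', hvw.symm, hdv⟩⟩
    · rintro (⟨i, hi1, hi2, h⟩ | ⟨i, _, _, d', _, h⟩)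
      · exact hz0' ⟨i, by omega, by omega, h⟩
      · exact hz0 h.2.1
    · intro h
      rcases Finset.mem_insert.1 h with h | h
      · exact hz0' ⟨xs, hs.1, by omega, h⟩
      · exact hz0' ⟨ys, by omega, hys1, Finset.mem_singleton.1 h⟩
  refine ⟨?_, ?_⟩
  · intro x y h1 h2 h3 h4
    exact hno (x + 1) ⟨x, y, h1, by omega, by omega, h3, Or.inl h4⟩
  · by_contra hne
    obtain ⟨d, hd⟩ := Set.nonempty_iff_ne_empty.2 hne
    have hcl' : ∀ N : Finset V, (∀ i, l ≤ i → i ≤ m → (∃ e, RI G Y d e ∧ G.Adj (u i) e) →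
        u i ∈ N) → (∀ v ∈ N, v ∈ seg u l m) → 3 ≤ N.card := by
      intro N hN hNs
      refine sep hG {e | RI G Y d e} N (d := d) (z := z0) (RI.refl hd) ?_ ?_ ?_ ?_
      · intro h
        obtain ⟨i, hi1, hi2, h'⟩ := hNs d h
        exact hYu i hi1 hi2 (h' ▸ hd)
      · intro e he w hew
        rcases hNY e he.2.1 w hew with hwY | ⟨j, hj1, hj2, rfl⟩
        · exact Or.inl (RI.trans he (RI.adj he.2.1 hwY hew))
        · exact Or.inr (hN j hj1 hj2 ⟨e, he, hew.symm⟩)
      · intro h
        exact hz0 h.2.1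
      · intro h
        exact hz0' (hNs _ h)
    by_cases hat : ∃ i, l ≤ i ∧ i ≤ m ∧ ∃ e, RI G Y d e ∧ G.Adj (u i) e
    · have h1 := Nat.find_spec hat
      set x := Nat.find hat with hx
      obtain ⟨hx1, hx2, e, he, hxe⟩ := h1
      have h2 := hcl' ({u x, u (min (x + 1) m)} : Finset V) ?_ ?_
      · have := Finset.card_le_two (a := u x) (b := u (min (x + 1) m))
        omega
      · rintro i hi1 hi2 ⟨e', he', hie'⟩
        have h3 : x ≤ i := Nat.find_min' hat ⟨hi1, hi2, e', he', hie'⟩
        by_cases h4 : x + 2 ≤ i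
        · exact absurd ⟨x, i, hx1, by omega, by omega, hi2,
            Or.inr ⟨e, e', hxe, hie', he.symm.trans he'⟩⟩ (hno (x + 1))
        · by_cases h5 : i = x
          · rw [h5]; simp
          · have h6 : i = min (x + 1) m := by omega
            rw [← h6]; simp
      · intro v hv
        rcases Finset.mem_insert.1 hv with h | h
        · exact ⟨x, hx1, hx2, h⟩
        · exact ⟨min (x + 1) m, by omega, by omega, Finset.mem_singleton.1 h⟩
    · have h2 := hcl' ∅ (fun i hi1 hi2 h => absurd ⟨i, hi1, hi2, h⟩ hat) (by simp)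
      simp at h2

/-- paths from reachability -/
theorem exists_PD {s : Set V} {a b : V} (h : RI G s a b) : ∃ L p, PD G s a L p ∧ p L = b := by
  classical
  obtain ⟨ha, hb, h⟩ := h
  obtain ⟨w, hw⟩ := h.exists_isPath
  refine ⟨w.length, fun i => (w.getVert i).1, ⟨?_, fun i _ => (w.getVert i).2, ?_, ?_⟩, ?_⟩
  · simp
  · intro i hi
    exact w.adj_getVert_succ hi
  · intro i hi j hj hij
    exact hw.getVert_injOn hi hj (Subtype.ext hij)
  · simp

/-- **Tutte**: chordless non-separating paths in 3-connected graphs -/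
theorem nonsep [Fintype V] (hG : Conn G 3) {s t z : V} (hs : s ≠ z) (ht : t ≠ z) :
    ∃ L p, PD G ({z}ᶜ) s L p ∧ p L = t ∧ (∀ x y, x + 2 ≤ y → y ≤ L → ¬ G.Adj (p x) (p y)) ∧
      (G.induce ((seg p 0 L)ᶜ)).Connected := by
  classical
  set A : Set ℕ := {n | ∃ L p, PD G ({z}ᶜ) s L p ∧ p L = t ∧
    {y | RI G ((seg p 0 L)ᶜ) z y}.ncard = n} with hA
  have hne : A.Nonempty := by
    have h := hG.2 {z} (by simp)
    rw [Finset.coe_singleton] at h
    obtain ⟨L, p, h1, h2⟩ := exists_PD (RI_of_conn h (x := s) (y := t) hs ht)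
    exact ⟨_, L, p, h1, h2, rfl⟩
  have hbd : BddAbove A := by
    refine ⟨Fintype.card V, ?_⟩
    rintro n ⟨L, p, _, _, rfl⟩
    have := Set.ncard_le_ncard (Set.subset_univ {y | RI G ((seg p 0 L)ᶜ) z y}) (Set.toFinite _)
    rwa [Set.ncard_univ, Nat.card_eq_fintype_card] at this
  obtain ⟨L, p, P, hpt, hmax⟩ := Nat.sSup_mem hne hbd
  set K : Set V := {y | RI G ((seg p 0 L)ᶜ) z y} with hK
  have hzs : z ∈ (seg p 0 L)ᶜ := by
    rintro ⟨i, _, hi, h⟩
    exact P.mem i hi h.symm
  have hzK : z ∈ K := RI.refl hzs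
  have hKc : (G.induce K).Connected := comp_conn hzs
  have hKs : ∀ v ∈ K, v ∉ seg p 0 L := fun v hv => hv.2.1
  obtain ⟨h1, h2⟩ := cov hG (u := p) (l := 0) (m := L) (Nat.zero_le _)
    (fun i j _ hi _ hj h => P.inj i hi j hj h) ((seg p 0 L)ᶜ \ K)
    (fun i h1 h2 h => h.1 (mem_seg h1 h2))
    (fun d hd w hdw => by
      by_cases hw : w ∈ seg p 0 L
      · exact Or.inr hw
      · refine Or.inl ⟨hw, fun hwK => hd.2 ?_⟩
        exact RI.trans hwK (RI.adj hw hd.1 hdw.symm))
    (z0 := z) (fun h => h.2 hzK) hzs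
    (by
      intro x y _ hyL hBr i hxi hiy w hiw
      by_contra hcon
      push Not at hcon
      have hwK : w ∈ K := by
        by_contra h
        exact hcon.2 ⟨hcon.1, h⟩
      -- reroute
      obtain ⟨R', hR', hst⟩ : ∃ R' : Set V, (∀ v ∈ R', v ≠ p i ∧ v ∉ K) ∧ RI G R' s t := by
        have hseg : ∀ a b, b ≤ L → (b < i ∨ i < a) → ∀ v ∈ seg p a b, v ≠ p i ∧ v ∉ K := by
          rintro a b hb hab v ⟨j, hj1, hj2, rfl⟩
          refine ⟨fun h => ?_, fun h => hKs _ h (mem_seg (Nat.zero_le _) (by omega))⟩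
          have := P.inj j (by omega) i (by omega) h
          omega
        have e1 : RI G (seg p 0 x) s (p x) := by
          have := RI_of_conn (seg_conn P (Nat.zero_le x) (by omega)) (mem_seg (p := p) le_rfl
            (Nat.zero_le x)) (mem_seg (p := p) (Nat.zero_le x) le_rfl)
          rwa [P.zero] at this
        have e2 : RI G (seg p y L) (p y) t := by
          have := RI_of_conn (seg_conn P hyL le_rfl) (mem_seg (p := p) le_rfl
            hyL) (mem_seg (p := p) hyL le_rfl)
          rwa [hpt] at this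
        rcases hBr with hBr | ⟨d, d', hd, hd', hdd⟩
        · refine ⟨seg p 0 x ∪ seg p y L, ?_, ?_⟩
          · rintro v (hv | hv)
            · exact hseg 0 x (by omega) (Or.inl hxi) v hv
            · exact hseg y L le_rfl (Or.inr hiy) v hv
          · refine (e1.mono Set.subset_union_left).trans (RI.trans ?_
              (e2.mono Set.subset_union_right))
            exact RI.adj (Or.inl e1.2.1) (Or.inr e2.1) hBr
        · refine ⟨(seg p 0 x ∪ seg p y L) ∪ {e | RI G ((seg p 0 L)ᶜ \ K) d e}, ?_, ?_⟩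
          · rintro v ((hv | hv) | hv)
            · exact hseg 0 x (by omega) (Or.inl hxi) v hv
            · exact hseg y L le_rfl (Or.inr hiy) v hv
            · have hv' := hv.2.1
              refine ⟨?_, hv'.2⟩
              rintro rfl
              exact hv'.1 (mem_seg (Nat.zero_le _) (by omega))
          · have hdm : d ∈ {e | RI G ((seg p 0 L)ᶜ \ K) d e} := RI.refl hdd.1
            have hdm' : d' ∈ {e | RI G ((seg p 0 L)ᶜ \ K) d e} := hdd
            have e3 : RI G {e | RI G ((seg p 0 L)ᶜ \ K) d e} d d' :=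
              RI_of_conn (comp_conn hdd.1) hdm hdm'
            refine (e1.mono fun v hv => Or.inl (Or.inl hv)).trans
              (RI.trans (RI.adj (Or.inl (Or.inl e1.2.1)) (Or.inr hdm) hd)
              ((e3.mono fun v hv => Or.inr hv).trans (RI.trans
                (RI.adj (Or.inr hdm') (Or.inl (Or.inr e2.1)) hd'.symm)
                (e2.mono fun v hv => Or.inl (Or.inr hv)))))
      obtain ⟨L', p', P', hp't⟩ := exists_PD hst
      have hP'z : PD G ({z}ᶜ) s L' p' := ⟨P'.zero, fun j hj h => (hR' _ (P'.mem j hj)).2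
        (by rw [Set.mem_singleton_iff.1 h]; exact hzK), P'.adj, P'.inj⟩
      have hsub : ∀ v, v ∈ K ∨ v = p i → v ∈ (seg p' 0 L')ᶜ := by
        rintro v hv ⟨j, _, hj, rfl⟩
        have := hR' _ (P'.mem j hj)
        rcases hv with hv | hv
        · exact this.2 hv
        · exact this.1 hv
      have hK' : insert (p i) K ⊆ {y | RI G ((seg p' 0 L')ᶜ) z y} := by
        have e4 : ∀ v ∈ K, RI G ((seg p' 0 L')ᶜ) z v := fun v hv =>
          (RI_of_conn hKc hzK hv).mono fun v hv => hsub v (Or.inl hv)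
        rintro v (hv | hv)
        · rw [hv]
          exact (e4 w hwK).trans (RI.adj (hsub w (Or.inl hwK)) (hsub _ (Or.inr rfl)) hiw.symm)
        · exact e4 v hv
      have h3 := Set.ncard_le_ncard hK' (Set.toFinite _)
      rw [Set.ncard_insert_of_notMem (fun h => hKs _ h (mem_seg (Nat.zero_le _) (by omega)))
        (Set.toFinite _)] at h3
      have h4 : {y | RI G ((seg p' 0 L')ᶜ) z y}.ncard ≤ sSup A :=
        le_csSup hbd ⟨L', p', hP'z, hp't, rfl⟩
      omega)
  refine ⟨L, p, P, hpt, fun x y h3 h4 => h1 x y (Nat.zero_le _) h3 h4, ?_⟩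
  have h3 : (seg p 0 L)ᶜ = K := by
    ext v
    constructor
    · intro hv
      by_contra h
      have : v ∈ (seg p 0 L)ᶜ \ K := ⟨hv, h⟩
      rw [h2] at this
      exact this
    · exact fun hv => hKs v hv
  rw [h3]
  exact hKc

end

end TWk
end

section

/-!
# MP_cfc9ed_co: components behind a segment of a path
-/

set_option autoImplicit false

namespace TWk

open SimpleGraph Relation

section

variable {V : Type*} {G : SimpleGraph V}

/-- a strand `R` from `u l` to `u m` and a leaf `C` in the component `D` of `u c` -/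
structure Leaf (G : SimpleGraph V) (A : Set V) (u : ℕ → V) (l c m : ℕ) (R C : Set V) : Prop where
  subR : ∀ v ∈ R, v = u l ∨ v = u m ∨ RI G (Aᶜ \ {u l, u m}) (u c) v
  left : u l ∈ R
  right : u m ∈ R
  connR : (G.induce R).Connected
  subC : ∀ v ∈ C, RI G (Aᶜ \ {u l, u m}) (u c) v
  connC : (G.induce C).Connected
  disj : Disjoint R C
  adjR : ∃ x ∈ R, ∃ y ∈ C, G.Adj x y
  adjA : ∃ x ∈ A, ∃ y ∈ C, G.Adj x y

/-- the open segment lies in the component of `u c` -/
theorem open_seg {A : Set V} {r : V} {L : ℕ} {u : ℕ → V} (P : PD G Aᶜ r L u) {l c m : ℕ}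
    (h1 : l < c) (h2 : c < m) (h3 : m ≤ L) {i : ℕ} (hi1 : l < i) (hi2 : i < m) :
    RI G (Aᶜ \ {u l, u m}) (u c) (u i) := by
  have h4 := RI_of_conn (seg_conn P (a := l + 1) (b := m - 1) (by omega) (by omega))
    (mem_seg (p := u) (i := c) (by omega) (by omega))
    (mem_seg (p := u) (i := i) (by omega) (by omega))
  refine h4.mono ?_
  rintro v ⟨j, hj1, hj2, rfl⟩
  refine ⟨P.mem j (by omega), ?_⟩
  rintro (h | h)
  · have := P.inj j (by omega) l (by omega) h
    omega
  · have := P.inj j (by omega) m h3 h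
    omega

/-- **the local lemma** -/
theorem local_lemma [Fintype V] (hG : Conn G 3) {A : Set V} (hA : A.Nonempty) {r : V} {L : ℕ}
    {u : ℕ → V} (P : PD G Aᶜ r L u) {l c m : ℕ} (h1 : l < c) (h2 : c < m) (h3 : m ≤ L) :
    (∃ R C, Leaf G A u l c m R C) ∨
      ∀ i, l < i → i < m → ∀ w, G.Adj (u i) w → w ∈ A ∨ w = u (i - 1) ∨ w = u (i + 1) := by
  classical
  by_cases hleaf : ∃ R C, Leaf G A u l c m R C
  · exact Or.inl hleaf
  right
  set Ω : Set V := Aᶜ \ {u l, u m} with hΩ
  set D : Set V := {v | RI G Ω (u c) v} with hD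
  have hopen : ∀ i, l < i → i < m → u i ∈ D := fun i hi1 hi2 => open_seg P h1 h2 h3 hi1 hi2
  have hDA : ∀ v ∈ D, v ∉ A := fun v hv => hv.2.1.1
  have hstep : ∀ v ∈ D, ∀ w, G.Adj v w → w ∉ A → w ∈ D ∨ w = u l ∨ w = u m := by
    intro v hv w hvw hwA
    by_cases hw : w = u l ∨ w = u m
    · exact Or.inr hw
    · refine Or.inl (RI.trans hv (RI.adj hv.2.1 ⟨hwA, ?_⟩ hvw))
      exact hw
  have hsegD : ∀ j, l ≤ j → j ≤ m → u j = u l ∨ u j = u m ∨ u j ∈ D := by
    intro j hj1 hj2
    by_cases h : j = l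
    · exact Or.inl (by rw [h])
    · by_cases h' : j = m
      · exact Or.inr (Or.inl (by rw [h']))
      · exact Or.inr (Or.inr (hopen j (by omega) (by omega)))
  have hlm : l ≤ m := by omega
  have hsegc : (G.induce (seg u l m)).Connected := seg_conn P hlm h3
  obtain ⟨z0, hz0⟩ := hA
  obtain ⟨hch, hY⟩ := cov hG (u := u) hlm
    (fun i j _ hi _ hj h => P.inj i (by omega) j (by omega) h) (D \ seg u l m)
    (fun i hi1 hi2 h => h.2 (mem_seg hi1 hi2))
    (fun d hd w hdw => by
      by_contra hcon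
      push Not at hcon
      by_cases hwA : w ∈ A
      · -- the component of `d` is a leaf
        apply hleaf
        refine ⟨seg u l m, {e | RI G (D \ seg u l m) d e}, ?_, mem_seg le_rfl hlm,
          mem_seg hlm le_rfl, hsegc, ?_, comp_conn hd, ?_, ?_, ⟨w, hwA, d, RI.refl hd, hdw.symm⟩⟩
        · rintro v ⟨j, hj1, hj2, rfl⟩
          exact hsegD j hj1 hj2
        · intro v hv
          exact hv.2.1.1
        · rw [Set.disjoint_left]
          intro v hv hv'
          exact hv'.2.1.2 hv
        · by_contra hcon2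
          push Not at hcon2
          have h5 : u c ∈ {e | RI G (D \ seg u l m) d e} := by
            refine RI.closed (show RI G Ω d (u c) from RI.symm hd.1) (RI.refl hd) ?_
            intro x hx _ y hy hxy
            have hyD : y ∈ D := RI.trans hx.2.1.1 (RI.adj hx.2.1.1.2.1 hy hxy)
            by_cases hys : y ∈ seg u l m
            · exact absurd hxy.symm (hcon2 y hys x hx)
            · exact RI.trans hx (RI.adj hx.2.1 ⟨hyD, hys⟩ hxy)
          exact h5.2.1.2 (mem_seg h1.le h2.le)
      · rcases hstep d hd.1 w hdw hwA with h | h | h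
        · exact hcon.1 ⟨h, hcon.2⟩
        · exact hcon.2 (by rw [h]; exact mem_seg le_rfl hlm)
        · exact hcon.2 (by rw [h]; exact mem_seg hlm le_rfl))
    (z0 := z0) (fun h => hDA z0 h.1 hz0)
    (by
      rintro ⟨i, _, hi, h⟩
      exact P.mem i (by omega) (by rw [← h]; exact hz0))
    (by
      intro x y hlx hym hBr i hxi hiy w hiw
      by_contra hcon
      push Not at hcon
      have hwA : w ∈ A := by
        by_contra hwA
        rcases hstep (u i) (hopen i (by omega) (by omega)) w hiw hwA with h | h | h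
        · exact hcon.2 ⟨h, hcon.1⟩
        · exact hcon.1 (by rw [h]; exact mem_seg le_rfl hlm)
        · exact hcon.1 (by rw [h]; exact mem_seg hlm le_rfl)
      apply hleaf
      have hc1 : (G.induce (seg u l x)).Connected := seg_conn P hlx (by omega)
      have hc2 : (G.induce (seg u y m)).Connected := seg_conn P hym h3
      have hsegdis : ∀ a b, l ≤ a → b ≤ m → (b ≤ x ∨ y ≤ a) → ∀ v ∈ seg u a b,
          v ∉ seg u (x + 1) (y - 1) := by
        rintro a b ha hb hab v ⟨j, hj1, hj2, rfl⟩ ⟨k, hk1, hk2, hjk⟩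
        have := P.inj j (by omega) k (by omega) hjk
        omega
      have hCc : (G.induce (seg u (x + 1) (y - 1))).Connected :=
        seg_conn P (by omega) (by omega)
      have hCD : ∀ v ∈ seg u (x + 1) (y - 1), RI G Ω (u c) v := by
        rintro v ⟨j, hj1, hj2, rfl⟩
        exact hopen j (by omega) (by omega)
      have hxC : u (x + 1) ∈ seg u (x + 1) (y - 1) := mem_seg le_rfl (by omega)
      have hiC : u i ∈ seg u (x + 1) (y - 1) := mem_seg (by omega) (by omega)
      have hxR : u x ∈ seg u l x := mem_seg hlx le_rfl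
      have hyR : u y ∈ seg u y m := mem_seg le_rfl hym
      have hxadj : G.Adj (u x) (u (x + 1)) := P.adj x (by omega)
      rcases hBr with hBr | ⟨d, d', hd, hd', hdd⟩
      · refine ⟨seg u l x ∪ seg u y m, seg u (x + 1) (y - 1), ?_, Or.inl (mem_seg le_rfl hlx),
          Or.inr (mem_seg hym le_rfl), conn_union hc1 hc2 hxR hyR (Or.inr hBr), hCD, hCc, ?_,
          ⟨u x, Or.inl hxR, _, hxC, hxadj⟩, ⟨w, hwA, u i, hiC, hiw.symm⟩⟩
        · rintro v (⟨j, hj1, hj2, rfl⟩ | ⟨j, hj1, hj2, rfl⟩)
          · exact hsegD j hj1 (by omega)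
          · exact hsegD j (by omega) hj2
        · rw [Set.disjoint_left]
          rintro v (hv | hv)
          · exact hsegdis l x le_rfl (by omega) (Or.inl le_rfl) v hv
          · exact hsegdis y m (by omega) le_rfl (Or.inr le_rfl) v hv
      · have hdm : d ∈ {e | RI G (D \ seg u l m) d e} := RI.refl hdd.1
        have hdm' : d' ∈ {e | RI G (D \ seg u l m) d e} := hdd
        have hcc : (G.induce {e | RI G (D \ seg u l m) d e}).Connected := comp_conn hdd.1
        have hc3 := conn_union hc1 hcc hxR hdm (Or.inr hd)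
        have hc4 := conn_union hc3 hc2 (Or.inr hdm') hyR (Or.inr hd'.symm)
        refine ⟨seg u l x ∪ {e | RI G (D \ seg u l m) d e} ∪ seg u y m, seg u (x + 1) (y - 1), ?_,
          Or.inl (Or.inl (mem_seg le_rfl hlx)), Or.inr (mem_seg hym le_rfl), hc4, hCD, hCc, ?_,
          ⟨u x, Or.inl (Or.inl hxR), _, hxC, hxadj⟩, ⟨w, hwA, u i, hiC, hiw.symm⟩⟩
        · rintro v ((⟨j, hj1, hj2, rfl⟩ | hv) | ⟨j, hj1, hj2, rfl⟩)
          · exact hsegD j hj1 (by omega)
          · exact Or.inr (Or.inr hv.2.1.1)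
          · exact hsegD j (by omega) hj2
        · rw [Set.disjoint_left]
          rintro v ((hv | hv) | hv)
          · exact hsegdis l x le_rfl (by omega) (Or.inl le_rfl) v hv
          · rintro ⟨j, hj1, hj2, h⟩
            exact hv.2.1.2 ⟨j, by omega, by omega, h⟩
          · exact hsegdis y m (by omega) le_rfl (Or.inr le_rfl) v hv)
  intro i hi1 hi2 w hiw
  by_cases hwA : w ∈ A
  · exact Or.inl hwA
  right
  have hws : w ∈ seg u l m := by
    rcases hstep (u i) (hopen i hi1 hi2) w hiw hwA with h | h | h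
    · by_contra hw
      have : w ∈ D \ seg u l m := ⟨h, hw⟩
      rw [hY] at this
      exact this
    · rw [h]; exact mem_seg le_rfl hlm
    · rw [h]; exact mem_seg hlm le_rfl
  obtain ⟨j, hj1, hj2, rfl⟩ := hws
  have hij : i ≠ j := fun h => hiw.ne (by rw [h])
  by_cases h4 : j + 2 ≤ i
  · exact absurd hiw.symm (hch j i hj1 h4 (by omega))
  · by_cases h5 : i + 2 ≤ j
    · exact absurd hiw (hch i j (by omega) h5 hj2)
    · by_cases h6 : j < i
      · exact Or.inl (by rw [show j = i - 1 by omega])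
      · exact Or.inr (by rw [show j = i + 1 by omega])

end

end TWk
end

section

/-!
# MP_cfc9ed_co: `K_{2,q}` minors from many cells
-/

set_option autoImplicit false

namespace TWk

open SimpleGraph Relation

section

variable {V : Type*} {G : SimpleGraph V}

theorem hasK_two {q : ℕ} (A B : Set V) (C : Fin q → Set V) (hA : (G.induce A).Connected)
    (hB : (G.induce B).Connected) (hAB : Disjoint A B) (hC : ∀ j, (G.induce (C j)).Connected)
    (hAC : ∀ j, Disjoint A (C j)) (hBC : ∀ j, Disjoint B (C j))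
    (hCC : ∀ i j, i ≠ j → Disjoint (C i) (C j)) (ha : ∀ j, ∃ x ∈ A, ∃ y ∈ C j, G.Adj x y)
    (hb : ∀ j, ∃ x ∈ B, ∃ y ∈ C j, G.Adj x y) : HasK G 2 q := by
  refine hasK_of ![A, B] C ?_ hC ?_ hCC ?_ ?_
  · intro i
    fin_cases i
    · exact hA
    · exact hB
  · intro i i' hne
    fin_cases i <;> fin_cases i'
    · exact absurd rfl hne
    · exact hAB
    · exact hAB.symm
    · exact absurd rfl hne
  · intro i j
    fin_cases i
    · exact hAC j
    · exact hBC j
  · intro i j
    fin_cases i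
    · exact ha j
    · exact hb j

/-- a star structure outside of a connected set -/
theorem hasK_of_RK {q : ℕ} {A W B : Set V} {C : Fin q → Set V} (hA : (G.induce A).Connected)
    (hW : ∀ v ∈ W, v ∉ A) (h : RK G {v | ∃ a ∈ A, G.Adj a v} W B C) : HasK G 2 q := by
  refine hasK_two A B C hA h.connB ?_ h.connC ?_ h.disj h.disjC ?_ h.adj
  · rw [Set.disjoint_left]
    exact fun v hv hv' => hW v (h.subB hv') hv
  · intro j
    rw [Set.disjoint_left]
    exact fun v hv hv' => hW v (h.subC j hv') hv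
  · intro j
    obtain ⟨s, hs, a, ha, has⟩ := h.root j
    exact ⟨a, ha, s, hs, has⟩

/-- many leaves behind disjoint segments -/
theorem leaves_assemble {A : Set V} (hA : (G.induce A).Connected) {r : V} {L : ℕ} {u : ℕ → V}
    (P : PD G Aᶜ r L u) {q : ℕ} (l c m : Fin q → ℕ)
    (hlcm : ∀ j, l j < c j ∧ c j < m j ∧ m j ≤ L) (hd : ∀ i j, i ≠ j → m i < l j ∨ m j < l i)
    (hno : ∀ j, ∀ o ≤ L, (o < l j ∨ m j < o) →
      ¬ RI G (Aᶜ \ {u (l j), u (m j)}) (u (c j)) (u o))
    (R C : Fin q → Set V) (hL : ∀ j, Leaf G A u (l j) (c j) (m j) (R j) (C j)) : HasK G 2 q := by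
  set B : Set V := {v | ∃ i ≤ L, (∀ j, ¬ (l j < i ∧ i < m j)) ∧ v = u i} ∪ {v | ∃ j, v ∈ R j}
    with hB
  have hpos : ∀ j, ∀ i ≤ L, ¬ (l j < i ∧ i < m j) →
      ¬ RI G (Aᶜ \ {u (l j), u (m j)}) (u (c j)) (u i) := by
    intro j i hi hn h
    by_cases h1 : i = l j
    · exact h.2.1.2 (Or.inl (by rw [h1]))
    · by_cases h2 : i = m j
      · exact h.2.1.2 (Or.inr (by rw [h2]; rfl))
      · exact hno j i hi (by omega) h
  have hout : ∀ i j, i ≠ j → ∀ x, (x = l i ∨ x = c i ∨ x = m i) → ¬ (l j < x ∧ x < m j) := by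
    intro i j hij x hx
    have h1 := hlcm i
    have h2 := hlcm j
    rcases hd i j hij with h | h <;> omega
  have hDD : ∀ i j, i ≠ j → ∀ v, RI G (Aᶜ \ {u (l i), u (m i)}) (u (c i)) v →
      ¬ RI G (Aᶜ \ {u (l j), u (m j)}) (u (c j)) v := by
    intro i j hij v hv hv'
    have hi := hlcm i
    have hj := hlcm j
    have hsub : {v | RI G (Aᶜ \ {u (l j), u (m j)}) (u (c j)) v} ⊆
        Aᶜ \ {u (l i), u (m i)} := by
      intro w hw
      refine ⟨hw.2.1.1, ?_⟩
      rintro (h | h)
      · rw [h] at hw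
        exact hpos j (l i) (by omega) (hout i j hij _ (Or.inl rfl)) hw
      · rw [Set.mem_singleton_iff.1 h] at hw
        exact hpos j (m i) (by omega) (hout i j hij _ (Or.inr (Or.inr rfl))) hw
    have h1 : RI G (Aᶜ \ {u (l i), u (m i)}) v (u (c j)) :=
      (RI_of_conn (comp_conn hv'.1) (show v ∈ {v | RI G (Aᶜ \ {u (l j), u (m j)}) (u (c j)) v}
        from hv') (show u (c j) ∈ {v | RI G (Aᶜ \ {u (l j), u (m j)}) (u (c j)) v}
        from RI.refl hv'.1)).mono hsub
    exact hpos i (c j) (by omega) (hout j i hij.symm _ (Or.inr (Or.inl rfl))) (hv.trans h1)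
  have hend : ∀ j, u (l j) ∈ B ∧ u (m j) ∈ B := fun j =>
    ⟨Or.inr ⟨j, (hL j).left⟩, Or.inr ⟨j, (hL j).right⟩⟩
  have hacross : ∀ j, RI G B (u (l j)) (u (m j)) := fun j =>
    (RI_of_conn (hL j).connR (hL j).left (hL j).right).mono fun v hv => Or.inr ⟨j, hv⟩
  have h0B : u 0 ∈ B := Or.inl ⟨0, Nat.zero_le _, fun j h => absurd h.1 (Nat.not_lt_zero _), rfl⟩
  have key : ∀ i, i ≤ L → (∀ j, ¬ (l j < i ∧ i < m j)) → RI G B (u 0) (u i) := by
    intro i
    induction i using Nat.strong_induction_on with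
    | _ i ih =>
      intro hi' hn
      have hiB : u i ∈ B := Or.inl ⟨i, hi', hn, rfl⟩
      rcases i with _ | i
      · exact RI.refl h0B
      · by_cases h1 : ∀ j, ¬ (l j < i ∧ i < m j)
        · exact (ih i (by omega) (by omega) h1).trans
            (RI.adj (Or.inl ⟨i, by omega, h1, rfl⟩) hiB (P.adj i (by omega)))
        · push Not at h1
          obtain ⟨j, h2, h3⟩ := h1
          have h4 : m j = i + 1 := by
            by_contra h
            exact hn j ⟨by omega, by omega⟩
          rw [← h4]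
          refine (ih (l j) (by omega) (by omega) ?_).trans (hacross j)
          intro j'
          by_cases hjj : j' = j
          · subst hjj
            rintro ⟨h5, h6⟩
            omega
          · exact hout j j' (fun h => hjj h.symm) _ (Or.inl rfl)
  have hRA : ∀ j, ∀ v ∈ R j, v ∉ A := by
    intro j v hv
    have h1 := hlcm j
    rcases (hL j).subR v hv with h | h | h
    · rw [h]; exact P.mem _ (by omega)
    · rw [h]; exact P.mem _ (by omega)
    · exact h.2.1.1
  refine hasK_two A B C hA ?_ ?_ (fun j => (hL j).connC) ?_ ?_ ?_ (fun j => (hL j).adjA) ?_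
  · refine conn_of_RI (c := u 0) h0B ?_
    rintro v (⟨i, hi1, hi2, rfl⟩ | ⟨j, hv⟩)
    · exact key i hi1 hi2
    · have h1 : RI G B (u 0) (u (l j)) := by
        have h2 := hlcm j
        refine key _ (by omega) ?_
        intro j'
        by_cases hjj : j' = j
        · subst hjj
          rintro ⟨h5, h6⟩
          omega
        · exact hout j j' (fun h => hjj h.symm) _ (Or.inl rfl)
      exact h1.trans ((RI_of_conn (hL j).connR (hL j).left hv).mono fun v hv => Or.inr ⟨j, hv⟩)
  · rw [Set.disjoint_left]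
    rintro v hvA (⟨i, hi1, _, rfl⟩ | ⟨j, hv⟩)
    · exact P.mem i hi1 hvA
    · exact hRA j v hv hvA
  · intro j
    rw [Set.disjoint_left]
    intro v hvA hv
    exact ((hL j).subC v hv).2.1.1 hvA
  · intro j
    rw [Set.disjoint_left]
    rintro v (⟨i, hi1, hi2, rfl⟩ | ⟨i, hv⟩) hv'
    · exact hpos j i hi1 (hi2 j) ((hL j).subC _ hv')
    · by_cases hij : i = j
      · subst hij
        exact Set.disjoint_left.1 (hL i).disj hv hv'
      · have h1 := hlcm i
        rcases (hL i).subR v hv with h | h | h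
        · rw [h] at hv'
          exact hpos j (l i) (by omega) (hout i j hij _ (Or.inl rfl)) ((hL j).subC _ hv')
        · rw [h] at hv'
          exact hpos j (m i) (by omega) (hout i j hij _ (Or.inr (Or.inr rfl)))
            ((hL j).subC _ hv')
        · exact hDD i j hij v h ((hL j).subC _ hv')
  · intro i j hij
    rw [Set.disjoint_left]
    intro v hv hv'
    exact hDD i j hij v ((hL i).subC _ hv) ((hL j).subC _ hv')
  · intro j
    obtain ⟨x, hx, y, hy, hxy⟩ := (hL j).adjR
    exact ⟨x, Or.inr ⟨j, hx⟩, y, hy, hxy⟩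

/-- extracting many indices with a property -/
theorem exists_sub {M R : ℕ} {p : Fin M → Prop} [DecidablePred p]
    (h : R ≤ (Finset.univ.filter p).card) : ∃ g : Fin R → Fin M, Function.Injective g ∧
      ∀ j, p (g j) := by
  classical
  obtain ⟨A, hA, hAc⟩ := Finset.exists_subset_card_eq h
  let e := Finset.equivFinOfCardEq hAc
  refine ⟨fun j => (e.symm j : Fin M), fun i j h => e.symm.injective (Subtype.ext h), fun j => ?_⟩
  exact (Finset.mem_filter.1 (hA (e.symm j).2)).2

/-- **one stage**: a minor, or many segments without other neighbours -/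
theorem stage [Fintype V] (hG : Conn G 3) {A : Set V} (hA : (G.induce A).Connected) {r : V}
    {L : ℕ} {u : ℕ → V} (P : PD G Aᶜ r L u) (q R' M : ℕ) (hM : q * (2 * q + 1) + q + R' ≤ M)
    (l c m : Fin M → ℕ) (h : ∀ j, l j < c j ∧ c j < m j ∧ m j ≤ L)
    (hd : ∀ i j, i ≠ j → m i < l j ∨ m j < l i)
    (hS : ∀ j, (∃ a ∈ A, G.Adj a (u (l j))) ∧ ∃ a ∈ A, G.Adj a (u (m j))) :
    HasK G 2 q ∨ ∃ g : Fin R' → Fin M, Function.Injective g ∧
      ∀ j i, l (g j) < i → i < m (g j) → ∀ w, G.Adj (u i) w →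
        w ∈ A ∨ w = u (i - 1) ∨ w = u (i + 1) := by
  classical
  by_contra hcon
  push Not at hcon
  obtain ⟨hK, hpath⟩ := hcon
  set J1 := Finset.univ.filter fun j : Fin M => ∃ o ≤ L, (o < l j ∨ m j < o) ∧
    RI G (Aᶜ \ {u (l j), u (m j)}) (u (c j)) (u o) with hJ1
  set J2 := Finset.univ.filter fun j : Fin M => (∀ o ≤ L, (o < l j ∨ m j < o) →
    ¬ RI G (Aᶜ \ {u (l j), u (m j)}) (u (c j)) (u o)) ∧
    ∃ R C, Leaf G A u (l j) (c j) (m j) R C with hJ2
  set J3 := Finset.univ.filter fun j : Fin M => ∀ i, l j < i → i < m j → ∀ w, G.Adj (u i) w →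
    w ∈ A ∨ w = u (i - 1) ∨ w = u (i + 1) with hJ3
  have hne : A.Nonempty := by
    obtain ⟨⟨a, ha⟩⟩ := hA.nonempty
    exact ⟨a, ha⟩
  have hcover : Finset.univ ⊆ (J1 ∪ J2) ∪ J3 := by
    intro j _
    rw [Finset.mem_union, Finset.mem_union]
    by_cases h1 : ∃ o ≤ L, (o < l j ∨ m j < o) ∧
        RI G (Aᶜ \ {u (l j), u (m j)}) (u (c j)) (u o)
    · exact Or.inl (Or.inl (Finset.mem_filter.2 ⟨Finset.mem_univ _, h1⟩))
    · push Not at h1
      rcases local_lemma hG hne P (h j).1 (h j).2.1 (h j).2.2 with h2 | h2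
      · exact Or.inl (Or.inr (Finset.mem_filter.2 ⟨Finset.mem_univ _, h1, h2⟩))
      · exact Or.inr (Finset.mem_filter.2 ⟨Finset.mem_univ _, h2⟩)
  have hcard : M ≤ J1.card + J2.card + J3.card := by
    have h1 := Finset.card_le_card hcover
    rw [Finset.card_univ, Fintype.card_fin] at h1
    have h2 := Finset.card_union_le (J1 ∪ J2) J3
    have h3 := Finset.card_union_le J1 J2
    omega
  by_cases h1 : q * (2 * q + 1) ≤ J1.card
  · obtain ⟨g, hg, hgp⟩ := exists_sub h1
    have hj : ∀ j, ∃ (x y : ℕ) (Q : Set V), l (g j) < x ∧ x < m (g j) ∧ y ≤ L ∧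
        (y < l (g j) ∨ m (g j) < y) ∧ JP G Aᶜ u L x y Q := by
      intro j
      obtain ⟨o, ho1, ho2, ho3⟩ := hgp j
      have h4 := h (g j)
      obtain ⟨x, y, Q, h5, h6, h7, h8, h9⟩ := jump P h4.1 h4.2.1 h4.2.2 ho1 ho2 ho3
      exact ⟨x, y, Q, h5, h6, h7, h8, h9⟩
    choose x y Q hx1 hx2 hyL hy hQ using hj
    obtain ⟨B, C, hRK⟩ := many_jumps (S := {v | ∃ a ∈ A, G.Adj a v}) P q (q * (2 * q + 1)) le_rfl
      (fun j => l (g j)) (fun j => m (g j)) x y Q hx1 hx2 (fun j => (h _).2.2) hyL hy hQ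
      (fun i j hij => hd _ _ (hg.ne hij)) (fun j => hS _)
    exact hK (hasK_of_RK hA (fun v hv => hv) hRK)
  · by_cases h2 : q ≤ J2.card
    · obtain ⟨g, hg, hgp⟩ := exists_sub h2
      have hgL := fun j => (hgp j).2
      choose R C hRC using hgL
      exact hK (leaves_assemble hA P (fun j => l (g j)) (fun j => c (g j)) (fun j => m (g j))
        (fun j => h _) (fun i j hij => hd _ _ (hg.ne hij)) (fun j => (hgp j).1) R C hRC)
    · have h3 : R' ≤ J3.card := by omega
      obtain ⟨g, hg, hgp⟩ := exists_sub h3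
      obtain ⟨j, i, h4, h5, w, h6, h7⟩ := hpath g hg
      exact absurd (hgp j i h4 h5 w h6) (by
        rintro (h8 | h8 | h8)
        · exact h7.1 h8
        · exact h7.2.1 h8
        · exact h7.2.2 h8)

/-- splitting a path: a minor, or many disjoint hulls -/
theorem split_or {W : Set V} {r : V} {L : ℕ} {p : ℕ → V} (P : PD G W r L p) (q R M : ℕ)
    (h0 : 0 < q) (hM : R * (2 * q) ≤ M) (C : Fin M → Set V) (lo hi : Fin M → ℕ)
    (hlh : ∀ j, lo j < hi j ∧ hi j ≤ L) (hCc : ∀ j, (G.induce (C j)).Connected)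
    (hCd : ∀ i j, i ≠ j → Disjoint (C i) (C j)) (hCp : ∀ j, Disjoint (seg p 0 L) (C j))
    (hadj : ∀ j, (∃ y ∈ C j, G.Adj (p (lo j)) y) ∧ ∃ y ∈ C j, G.Adj (p (hi j)) y) :
    HasK G 2 q ∨ ∃ g : Fin R → Fin M, Function.Injective g ∧
      ∀ i j, i ≠ j → hi (g i) < lo (g j) ∨ hi (g j) < lo (g i) := by
  classical
  rcases intervals lo hi (2 * q) (fun j => (hlh j).1.le) R Finset.univ
    (by rw [Finset.card_fin]; exact hM) with ⟨A, -, hAc, hA⟩ | ⟨z, A, -, hAc, hA⟩
  · right
    let e := Finset.equivFinOfCardEq hAc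
    refine ⟨fun j => (e.symm j : Fin M), fun i j h => e.symm.injective (Subtype.ext h),
      fun i j hij => hA _ (e.symm i).2 _ (e.symm j).2 fun h => hij
        (e.symm.injective (Subtype.ext h))⟩
  · left
    have hfin : ∀ (z' : ℕ) (A' : Finset (Fin M)), q ≤ A'.card →
        (∀ j ∈ A', lo j ≤ z' ∧ z' < hi j) → HasK G 2 q := by
      intro z' A' hA'c hA'
      obtain ⟨A'', hA'', hA''c⟩ := Finset.exists_subset_card_eq hA'c
      let e := Finset.equivFinOfCardEq hA''c
      let g : Fin q → Fin M := fun j => (e.symm j : Fin M)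
      have hg : ∀ i j, i ≠ j → g i ≠ g j := fun i j h h' => h (e.symm.injective (Subtype.ext h'))
      have hgA : ∀ j, lo (g j) ≤ z' ∧ z' < hi (g j) := fun j => hA' _ (hA'' (e.symm j).2)
      have h1 := hgA ⟨0, h0⟩
      have h2 := hlh (g ⟨0, h0⟩)
      have hsub : ∀ a b, b ≤ L → ∀ j, Disjoint (seg p a b) (C (g j)) := by
        intro a b hb j
        refine Set.disjoint_of_subset_left ?_ (hCp (g j))
        rintro v ⟨i, hi1, hi2, rfl⟩
        exact mem_seg (Nat.zero_le _) (by omega)
      refine hasK_two (seg p 0 z') (seg p (z' + 1) L) (fun j => C (g j))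
        (seg_conn P (Nat.zero_le _) (by omega)) (seg_conn P (by omega) le_rfl) ?_
        (fun j => hCc _) (hsub 0 z' (by omega)) (hsub _ L le_rfl)
        (fun i j hij => hCd _ _ (hg i j hij)) ?_ ?_
      · rw [Set.disjoint_left]
        rintro v ⟨i, hi1, hi2, rfl⟩ ⟨j, hj1, hj2, h⟩
        have := P.inj i (by omega) j hj2 h
        omega
      · intro j
        obtain ⟨y, hy, hxy⟩ := (hadj (g j)).1
        exact ⟨_, mem_seg (Nat.zero_le _) (hgA j).1, y, hy, hxy⟩
      · intro j
        obtain ⟨y, hy, hxy⟩ := (hadj (g j)).2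
        exact ⟨_, mem_seg (hgA j).2 (hlh _).2, y, hy, hxy⟩
    have hsub : A ⊆ (A.filter fun j => z < hi j) ∪ (A.filter fun j => hi j = z) := by
      intro j hj
      rw [Finset.mem_union, Finset.mem_filter, Finset.mem_filter]
      rcases (hA j hj).2.lt_or_eq with h | h
      · exact Or.inl ⟨hj, h⟩
      · exact Or.inr ⟨hj, h.symm⟩
    have h5 := Finset.card_le_card hsub
    have h6 := Finset.card_union_le (A.filter fun j => z < hi j) (A.filter fun j => hi j = z)
    by_cases h7 : q ≤ (A.filter fun j => z < hi j).card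
    · refine hfin z _ h7 ?_
      intro j hj
      obtain ⟨hjA, hjz⟩ := Finset.mem_filter.1 hj
      exact ⟨(hA j hjA).1, hjz⟩
    · refine hfin (z - 1) (A.filter fun j => hi j = z) (by omega) ?_
      intro j hj
      obtain ⟨hjA, hjz⟩ := Finset.mem_filter.1 hj
      have := hlh j
      omega

end

end TWk
end

section

/-!
# MP_cfc9ed_co: crossing edges between two paths swap the strands and free a leaf
-/

set_option autoImplicit false

namespace TWk

open SimpleGraph Relation

/-- Erdős–Szekeres -/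
theorem es {ι : Type*} (π υ : ι → ℕ) : ∀ (k m n : ℕ), m + n = k → ∀ F : Finset ι,
    (∀ i ∈ F, ∀ j ∈ F, i ≠ j → π i ≠ π j ∧ υ i ≠ υ j) → 2 ^ (m + n) ≤ F.card →
    (∃ g : ℕ → ι, (∀ i < m, g i ∈ F) ∧
      ∀ i j, i < j → j < m → π (g i) < π (g j) ∧ υ (g i) < υ (g j)) ∨
    ∃ g : ℕ → ι, (∀ i < n, g i ∈ F) ∧
      ∀ i j, i < j → j < n → π (g i) < π (g j) ∧ υ (g j) < υ (g i) := by
  classical
  intro k
  induction k with
  | zero =>
    intro m n hmn F _ hF
    have hm : m = 0 := by omega
    subst hm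
    obtain ⟨e, he⟩ : F.Nonempty := by
      rw [← Finset.card_pos]
      have := Nat.one_le_two_pow (n := 0 + n)
      omega
    exact Or.inl ⟨fun _ => e, fun i hi => absurd hi (Nat.not_lt_zero _), fun i j _ hj =>
      absurd hj (Nat.not_lt_zero _)⟩
  | succ k ih =>
    intro m n hmn F hinj hF
    have hne : F.Nonempty := by
      rw [← Finset.card_pos]
      have := Nat.one_le_two_pow (n := m + n)
      omega
    obtain ⟨e, he, hmin⟩ := F.exists_min_image π hne
    rcases m with _ | m
    · exact Or.inl ⟨fun _ => e, fun i hi => absurd hi (Nat.not_lt_zero _), fun i j _ hj =>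
        absurd hj (Nat.not_lt_zero _)⟩
    rcases n with _ | n
    · exact Or.inr ⟨fun _ => e, fun i hi => absurd hi (Nat.not_lt_zero _), fun i j _ hj =>
        absurd hj (Nat.not_lt_zero _)⟩
    have hπ : ∀ j ∈ F, j ≠ e → π e < π j := fun j hj hje =>
      lt_of_le_of_ne (hmin j hj) (hinj e he j hj (Ne.symm hje)).1
    set F1 := F.filter fun j => υ e < υ j with hF1
    set F2 := F.filter fun j => υ j < υ e with hF2
    have hcard : F.card ≤ F1.card + F2.card + 1 := by
      have hsub : F ⊆ insert e (F1 ∪ F2) := by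
        intro j hj
        rw [Finset.mem_insert, Finset.mem_union, Finset.mem_filter, Finset.mem_filter]
        by_cases h : j = e
        · exact Or.inl h
        · rcases lt_or_gt_of_ne (hinj j hj e he h).2 with h' | h'
          · exact Or.inr (Or.inr ⟨hj, h'⟩)
          · exact Or.inr (Or.inl ⟨hj, h'⟩)
      have h1 := Finset.card_le_card hsub
      have h2 := Finset.card_insert_le e (F1 ∪ F2)
      have h3 := Finset.card_union_le F1 F2
      omega
    have hpow : 2 ^ (m + 1 + (n + 1)) = 2 ^ (m + (n + 1)) + 2 ^ (m + 1 + n) := by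
      rw [show m + 1 + (n + 1) = (m + n + 1) + 1 by ring, show m + (n + 1) = m + n + 1 by ring,
        show m + 1 + n = m + n + 1 by ring, pow_succ]
      ring
    by_cases h1 : 2 ^ (m + (n + 1)) ≤ F1.card
    · rcases ih m (n + 1) (by omega) F1 (fun i hi j hj => hinj i (Finset.mem_filter.1 hi).1 j
        (Finset.mem_filter.1 hj).1) h1 with ⟨g, hg, hg'⟩ | ⟨g, hg, hg'⟩
      · left
        have hge : ∀ i < m, π e < π (g i) ∧ υ e < υ (g i) := by
          intro i hi
          have h2 := Finset.mem_filter.1 (hg i hi)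
          refine ⟨hπ _ h2.1 ?_, h2.2⟩
          intro h3
          rw [h3] at h2
          exact lt_irrefl _ h2.2
        refine ⟨pre e g, ?_, ?_⟩
        · intro i hi
          rcases i with _ | i
          · exact he
          · rw [pre_succ]
            exact (Finset.mem_filter.1 (hg i (by omega))).1
        · intro i j hij hj
          rcases j with _ | j
          · exact absurd hij (Nat.not_lt_zero _)
          · rw [pre_succ]
            rcases i with _ | i
            · exact hge j (by omega)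
            · rw [pre_succ]
              exact hg' i j (by omega) (by omega)
      · exact Or.inr ⟨g, fun i hi => (Finset.mem_filter.1 (hg i hi)).1, hg'⟩
    · have h2 : 2 ^ (m + 1 + n) ≤ F2.card := by omega
      rcases ih (m + 1) n (by omega) F2 (fun i hi j hj => hinj i (Finset.mem_filter.1 hi).1 j
        (Finset.mem_filter.1 hj).1) h2 with ⟨g, hg, hg'⟩ | ⟨g, hg, hg'⟩
      · exact Or.inl ⟨g, fun i hi => (Finset.mem_filter.1 (hg i hi)).1, hg'⟩
      · right
        have hge : ∀ i < n, π e < π (g i) ∧ υ (g i) < υ e := by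
          intro i hi
          have h2 := Finset.mem_filter.1 (hg i hi)
          refine ⟨hπ _ h2.1 ?_, h2.2⟩
          intro h3
          rw [h3] at h2
          exact lt_irrefl _ h2.2
        refine ⟨pre e g, ?_, ?_⟩
        · intro i hi
          rcases i with _ | i
          · exact he
          · rw [pre_succ]
            exact (Finset.mem_filter.1 (hg i (by omega))).1
        · intro i j hij hj
          rcases j with _ | j
          · exact absurd hij (Nat.not_lt_zero _)
          · rw [pre_succ]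
            rcases i with _ | i
            · exact hge j (by omega)
            · rw [pre_succ]
              exact hg' i j (by omega) (by omega)

section

variable {V : Type*} {G : SimpleGraph V}

/-- the segment number `j` of the strand `ε` -/
def Sg (p u : ℕ → V) (sP eP sU eU : ℕ → ℕ) (ε j : ℕ) : Set V :=
  if (j + ε) % 2 = 0 then seg u (sU j) (eU j) else seg p (sP j) (eP j)

/-- crossing cells in order -/
theorem cross_ordered {W W' : Set V} {r r' : V} {L L' : ℕ} {p u : ℕ → V} (P : PD G W r L p)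
    (U : PD G W' r' L' u) (hdis : ∀ i ≤ L, ∀ j ≤ L', p i ≠ u j) (q : ℕ) (x y β γ : ℕ → ℕ)
    (hx : ∀ j < q, x j < y j ∧ y j ≤ L) (hβ : ∀ j < q, β j + 2 ≤ γ j ∧ γ j ≤ L')
    (hxo : ∀ j, j + 1 < q → y j < x (j + 1)) (hβo : ∀ j, j + 1 < q → γ j < β (j + 1))
    (h1 : ∀ j < q, G.Adj (u (β j)) (p (y j))) (h2 : ∀ j < q, G.Adj (p (x j)) (u (γ j))) :
    HasK G 2 q := by
  set sP : ℕ → ℕ := fun j => if j = 0 then 0 else y (j - 1) with hsP
  set eP : ℕ → ℕ := fun j => if j < q then x j else L with heP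
  set sU : ℕ → ℕ := fun j => if j = 0 then 0 else γ (j - 1) with hsU
  set eU : ℕ → ℕ := fun j => if j < q then β j else L' with heU
  have hP1 : ∀ j ≤ q, sP j ≤ eP j ∧ eP j ≤ L := by
    intro j hj
    show (if j = 0 then 0 else y (j - 1)) ≤ (if j < q then x j else L) ∧
      (if j < q then x j else L) ≤ L
    rcases j with _ | j
    · rw [if_pos rfl]
      split_ifs with h
      · have := hx 0 h
        omega
      · omega
    · rw [if_neg (by omega)]
      have e1 : j + 1 - 1 = j := rfl
      rw [e1]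
      split_ifs with h
      · have := hxo j h
        have := hx (j + 1) h
        omega
      · have := hx j (by omega)
        omega
  have hU1 : ∀ j ≤ q, sU j ≤ eU j ∧ eU j ≤ L' := by
    intro j hj
    show (if j = 0 then 0 else γ (j - 1)) ≤ (if j < q then β j else L') ∧
      (if j < q then β j else L') ≤ L'
    rcases j with _ | j
    · rw [if_pos rfl]
      split_ifs with h
      · have := hβ 0 h
        omega
      · omega
    · rw [if_neg (by omega)]
      have e1 : j + 1 - 1 = j := rfl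
      rw [e1]
      split_ifs with h
      · have := hβo j h
        have := hβ (j + 1) h
        omega
      · have := hβ j (by omega)
        omega
  have hP2 : ∀ j < q, eP j = x j ∧ sP (j + 1) = y j := fun j hj =>
    ⟨if_pos hj, if_neg (Nat.succ_ne_zero j)⟩
  have hU2 : ∀ j < q, eU j = β j ∧ sU (j + 1) = γ j := fun j hj =>
    ⟨if_pos hj, if_neg (Nat.succ_ne_zero j)⟩
  have hP3 : ∀ j, ∀ j', j < j' → j' ≤ q → eP j < sP j' := by
    intro j j' hjj
    induction j', hjj using Nat.le_induction with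
    | base =>
      intro hj
      show eP j < sP (j + 1)
      have := hP2 j hj
      have := hx j hj
      omega
    | succ i hi ih =>
      intro hi'
      have := ih (by omega)
      have := hP1 i (by omega)
      have := hP2 i hi'
      have := hx i hi'
      omega
  have hU3 : ∀ j, ∀ j', j < j' → j' ≤ q → eU j + 2 ≤ sU j' := by
    intro j j' hjj
    induction j', hjj using Nat.le_induction with
    | base =>
      intro hj
      show eU j + 2 ≤ sU (j + 1)
      have := hU2 j hj
      have := hβ j hj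
      omega
    | succ i hi ih =>
      intro hi'
      have := ih (by omega)
      have := hU1 i (by omega)
      have := hU2 i hi'
      have := hβ i hi'
      omega
  have hsegP : ∀ j ≤ q, (G.induce (seg p (sP j) (eP j))).Connected := fun j hj =>
    seg_conn P (hP1 j hj).1 (hP1 j hj).2
  have hsegU : ∀ j ≤ q, (G.induce (seg u (sU j) (eU j))).Connected := fun j hj =>
    seg_conn U (hU1 j hj).1 (hU1 j hj).2
  set S : ℕ → Set V := fun ε => {v | ∃ j ≤ q, v ∈ Sg p u sP eP sU eU ε j} with hS
  have hconn : ∀ ε, (G.induce (S ε)).Connected := by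
    intro ε
    have key : ∀ n ≤ q, (G.induce {v | ∃ j ≤ n, v ∈ Sg p u sP eP sU eU ε j}).Connected := by
      intro n
      induction n with
      | zero =>
        intro _
        have : {v | ∃ j ≤ 0, v ∈ Sg p u sP eP sU eU ε j} = Sg p u sP eP sU eU ε 0 := by
          ext v
          constructor
          · rintro ⟨j, hj, hv⟩
            rwa [show j = 0 by omega] at hv
          · intro hv
            exact ⟨0, le_rfl, hv⟩
        rw [this]
        by_cases hpar : (0 + ε) % 2 = 0
        · rw [show Sg p u sP eP sU eU ε 0 = seg u (sU 0) (eU 0) from if_pos hpar]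
          exact hsegU 0 (Nat.zero_le _)
        · rw [show Sg p u sP eP sU eU ε 0 = seg p (sP 0) (eP 0) from if_neg hpar]
          exact hsegP 0 (Nat.zero_le _)
      | succ n ih =>
        intro hn
        have : {v | ∃ j ≤ n + 1, v ∈ Sg p u sP eP sU eU ε j} =
            {v | ∃ j ≤ n, v ∈ Sg p u sP eP sU eU ε j} ∪ Sg p u sP eP sU eU ε (n + 1) := by
          ext v
          constructor
          · rintro ⟨j, hj, hv⟩
            by_cases h : j ≤ n
            · exact Or.inl ⟨j, h, hv⟩
            · rw [show j = n + 1 by omega] at hv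
              exact Or.inr hv
          · rintro (⟨j, hj, hv⟩ | hv)
            · exact ⟨j, by omega, hv⟩
            · exact ⟨n + 1, le_rfl, hv⟩
        rw [this]
        by_cases hpar : (n + ε) % 2 = 0
        · have e1 : Sg p u sP eP sU eU ε n = seg u (sU n) (eU n) := if_pos hpar
          have e2 : Sg p u sP eP sU eU ε (n + 1) = seg p (sP (n + 1)) (eP (n + 1)) :=
            if_neg (by omega)
          refine conn_union (ih (by omega)) (by rw [e2]; exact hsegP _ hn) (u := u (β n))
            (v := p (y n)) ⟨n, le_rfl, ?_⟩ ?_ (Or.inr (h1 n (by omega)))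
          · rw [e1, ← (hU2 n (by omega)).1]
            exact mem_seg (hU1 n (by omega)).1 le_rfl
          · rw [e2, ← (hP2 n (by omega)).2]
            exact mem_seg le_rfl (hP1 (n + 1) hn).1
        · have e1 : Sg p u sP eP sU eU ε n = seg p (sP n) (eP n) := if_neg hpar
          have e2 : Sg p u sP eP sU eU ε (n + 1) = seg u (sU (n + 1)) (eU (n + 1)) :=
            if_pos (by omega)
          refine conn_union (ih (by omega)) (by rw [e2]; exact hsegU _ hn) (u := p (x n))
            (v := u (γ n)) ⟨n, le_rfl, ?_⟩ ?_ (Or.inr (h2 n (by omega)))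
          · rw [e1, ← (hP2 n (by omega)).1]
            exact mem_seg (hP1 n (by omega)).1 le_rfl
          · rw [e2, ← (hU2 n (by omega)).2]
            exact mem_seg le_rfl (hU1 (n + 1) hn).1
    exact key q le_rfl
  have hmix : ∀ j ≤ q, ∀ j' ≤ q, ∀ v, v ∈ seg p (sP j) (eP j) → v ∉ seg u (sU j') (eU j') := by
    rintro j hj j' hj' v ⟨i, _, hi, rfl⟩ ⟨i', _, hi', h⟩
    exact hdis i (hi.trans (hP1 j hj).2) i' (hi'.trans (hU1 j' hj').2) h
  have hPP : ∀ j ≤ q, ∀ j' ≤ q, j ≠ j' → ∀ v, v ∈ seg p (sP j) (eP j) →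
      v ∉ seg p (sP j') (eP j') := by
    rintro j hj j' hj' hne v ⟨i, hi, hi', rfl⟩ ⟨k, hk, hk', h⟩
    have e1 := P.inj i (hi'.trans (hP1 j hj).2) k (hk'.trans (hP1 j' hj').2) h
    rcases lt_or_gt_of_ne hne with h' | h'
    · have := hP3 j j' h' hj'
      omega
    · have := hP3 j' j h' hj
      omega
  have hUU : ∀ j ≤ q, ∀ j' ≤ q, j ≠ j' → ∀ v, v ∈ seg u (sU j) (eU j) →
      v ∉ seg u (sU j') (eU j') := by
    rintro j hj j' hj' hne v ⟨i, hi, hi', rfl⟩ ⟨k, hk, hk', h⟩
    have e1 := U.inj i (hi'.trans (hU1 j hj).2) k (hk'.trans (hU1 j' hj').2) h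
    rcases lt_or_gt_of_ne hne with h' | h'
    · have := hU3 j j' h' hj'
      omega
    · have := hU3 j' j h' hj
      omega
  -- the leaves
  have hleafU : ∀ j < q, ∀ j' ≤ q, ∀ v, v ∈ seg u (β j + 1) (γ j - 1) →
      v ∉ seg u (sU j') (eU j') := by
    rintro j hj j' hj' v ⟨i, hi, hi', rfl⟩ ⟨k, hk, hk', h⟩
    have e0 := hβ j hj
    have e1 := U.inj i (by omega) k (hk'.trans (hU1 j' hj').2) h
    have e2 := hU2 j hj
    rcases lt_trichotomy j' j with h' | h' | h'
    · have := hU3 j' j h' (by omega)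
      have := hU1 j (by omega)
      omega
    · subst h'
      omega
    · by_cases h'' : j' = j + 1
      · subst h''
        omega
      · have := hU3 (j + 1) j' (by omega) hj'
        have := hU1 (j + 1) (by omega)
        omega
  have hleafP : ∀ j < q, ∀ j' ≤ q, ∀ v, v ∈ seg u (β j + 1) (γ j - 1) →
      v ∉ seg p (sP j') (eP j') := by
    rintro j hj j' hj' v ⟨i, hi, hi', rfl⟩ ⟨k, hk, hk', h⟩
    have e0 := hβ j hj
    exact hdis k (hk'.trans (hP1 j' hj').2) i (by omega) h.symm
  have hleafS : ∀ ε, ∀ j < q, Disjoint (S ε) (seg u (β j + 1) (γ j - 1)) := by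
    intro ε j hj
    rw [Set.disjoint_left]
    rintro v ⟨j', hj', hv⟩ hv'
    unfold Sg at hv
    split_ifs at hv
    · exact hleafU j hj j' hj' v hv' hv
    · exact hleafP j hj j' hj' v hv' hv
  have hleafadj : ∀ ε, ∀ j < q, ∃ a ∈ S ε, ∃ b ∈ seg u (β j + 1) (γ j - 1), G.Adj a b := by
    intro ε j hj
    have e0 := hβ j hj
    by_cases hpar : (j + ε) % 2 = 0
    · refine ⟨u (β j), ⟨j, hj.le, ?_⟩, u (β j + 1), mem_seg le_rfl (by omega),
        U.adj _ (by omega)⟩
      have e1 : Sg p u sP eP sU eU ε j = seg u (sU j) (eU j) := if_pos hpar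
      rw [e1, ← (hU2 j hj).1]
      exact mem_seg (hU1 j hj.le).1 le_rfl
    · refine ⟨u (γ j), ⟨j + 1, hj, ?_⟩, u (γ j - 1), mem_seg (by omega) le_rfl, ?_⟩
      · have e1 : Sg p u sP eP sU eU ε (j + 1) = seg u (sU (j + 1)) (eU (j + 1)) :=
          if_pos (by omega)
        rw [e1, ← (hU2 j hj).2]
        exact mem_seg le_rfl (hU1 (j + 1) hj).1
      · have e2 := U.adj (γ j - 1) (by omega)
        rw [show γ j - 1 + 1 = γ j by omega] at e2
        exact e2.symm
  refine hasK_two (S 0) (S 1) (fun j : Fin q => seg u (β j + 1) (γ j - 1)) (hconn 0) (hconn 1) ?_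
    (fun j => seg_conn U ?_ ?_) (fun j => hleafS 0 j j.2) (fun j => hleafS 1 j j.2) ?_
    (fun j => hleafadj 0 j j.2) (fun j => hleafadj 1 j j.2)
  · rw [Set.disjoint_left]
    rintro v ⟨j, hj, hv⟩ ⟨j', hj', hv'⟩
    unfold Sg at hv hv'
    split_ifs at hv hv'
    · exact hUU j hj j' hj' (by omega) v hv hv'
    · exact hmix j' hj' j hj v hv' hv
    · exact hmix j hj j' hj' v hv hv'
    · exact hPP j hj j' hj' (by omega) v hv hv'
  · have := hβ j j.2; omega
  · have := hβ j j.2; omega
  · intro i j hij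
    rw [Set.disjoint_left]
    rintro v ⟨k, hk, hk', rfl⟩ ⟨k', hk1, hk1', h⟩
    have e1 := hβ i i.2
    have e2 := hβ j j.2
    have e3 := U.inj k (by omega) k' (by omega) h
    have hU4 : ∀ i j : Fin q, i.1 < j.1 → γ i < β j := by
      intro i j h'
      have e4 := hU2 i i.2
      have e5 := hU2 j j.2
      by_cases h'' : j.1 = i.1 + 1
      · rw [h'']
        exact hβo i.1 (by omega)
      · have := hU3 (i.1 + 1) j.1 (by omega) j.2.le
        have := hU1 (i.1 + 1) (by omega)
        have := hU1 j.1 (by omega)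
        omega
    rcases lt_or_gt_of_ne (fun h => hij (Fin.ext h) : i.1 ≠ j.1) with h' | h'
    · have := hU4 i j h'
      omega
    · have := hU4 j i h'
      omega

/-- the reverse path -/
theorem PD.rev {W' : Set V} {r' : V} {L' : ℕ} {u : ℕ → V} (U : PD G W' r' L' u) :
    PD G W' (u L') L' (fun i => u (L' - i)) := by
  refine ⟨rfl, fun i _ => U.mem _ (by omega), ?_, ?_⟩
  · intro i hi
    have := U.adj (L' - (i + 1)) (by omega)
    rw [show L' - (i + 1) + 1 = L' - i by omega] at this
    exact this.symm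
  · intro i hi j hj h
    have := U.inj _ (by omega) _ (by omega) h
    omega

/-- a raw cell -/
structure Raw (G : SimpleGraph V) (p u : ℕ → V) (L L' a1 a2 a3 b c : ℕ) : Prop where
  h1 : a1 < a2
  h2 : a2 < a3
  h3 : a3 ≤ L
  h4 : b ≤ L'
  h5 : c ≤ L'
  h6 : b + 2 ≤ c ∨ c + 2 ≤ b
  h7 : G.Adj (u c) (p a1)
  h8 : G.Adj (u c) (p a3)
  h9 : G.Adj (p a2) (u b)

/-- raw cells in order -/
theorem raw_ordered {W W' : Set V} {r r' : V} {L L' : ℕ} {p u : ℕ → V} (P : PD G W r L p)
    (U : PD G W' r' L' u) (hdis : ∀ i ≤ L, ∀ j ≤ L', p i ≠ u j) (q : ℕ) (a1 a2 a3 b c : ℕ → ℕ)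
    (hc : ∀ j < q, Raw G p u L L' (a1 j) (a2 j) (a3 j) (b j) (c j))
    (hPo : ∀ j, j + 1 < q → a3 j < a1 (j + 1))
    (hUo : ∀ j, j + 1 < q → max (b j) (c j) < min (b (j + 1)) (c (j + 1))) : HasK G 2 q := by
  refine cross_ordered P U hdis q (fun j => if c j < b j then a2 j else a1 j)
    (fun j => if c j < b j then a3 j else a2 j) (fun j => min (b j) (c j))
    (fun j => max (b j) (c j)) ?_ ?_ ?_ hUo ?_ ?_
  · intro j hj
    have := hc j hj
    have := this.h1
    have := (hc j hj).h2
    have := (hc j hj).h3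
    show (if c j < b j then a2 j else a1 j) < (if c j < b j then a3 j else a2 j) ∧
      (if c j < b j then a3 j else a2 j) ≤ L
    split_ifs <;> omega
  · intro j hj
    have := (hc j hj).h4
    have := (hc j hj).h5
    have := (hc j hj).h6
    omega
  · intro j hj
    have := hPo j hj
    have := (hc j (by omega)).h1
    have := (hc j (by omega)).h2
    have := (hc (j + 1) hj).h1
    show (if c j < b j then a3 j else a2 j) < (if c (j + 1) < b (j + 1) then a2 (j + 1)
      else a1 (j + 1))
    split_ifs <;> omega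
  · intro j hj
    show G.Adj (u (min (b j) (c j))) (p (if c j < b j then a3 j else a2 j))
    have h6 := (hc j hj).h6
    split_ifs with h
    · rw [min_eq_right (by omega)]
      exact (hc j hj).h8
    · rw [min_eq_left (by omega)]
      exact (hc j hj).h9.symm
  · intro j hj
    show G.Adj (p (if c j < b j then a2 j else a1 j)) (u (max (b j) (c j)))
    have h6 := (hc j hj).h6
    split_ifs with h
    · rw [max_eq_left (by omega)]
      exact (hc j hj).h9
    · rw [max_eq_right (by omega)]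
      exact (hc j hj).h7.symm

/-- **crossing cells give a `K_{2,q}` minor** -/
theorem cross {W W' : Set V} {r r' : V} {L L' : ℕ} {p u : ℕ → V} (P : PD G W r L p)
    (U : PD G W' r' L' u) (hdis : ∀ i ≤ L, ∀ j ≤ L', p i ≠ u j) (q M : ℕ)
    (hM : 2 ^ (q + q) ≤ M) (a1 a2 a3 b c : Fin M → ℕ)
    (hc : ∀ j, Raw G p u L L' (a1 j) (a2 j) (a3 j) (b j) (c j))
    (hP : ∀ i j, i ≠ j → a3 i < a1 j ∨ a3 j < a1 i)
    (hU : ∀ i j, i ≠ j → max (b i) (c i) < min (b j) (c j) ∨
      max (b j) (c j) < min (b i) (c i)) : HasK G 2 q := by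
  classical
  rcases es a1 (fun j => min (b j) (c j)) (q + q) q q rfl Finset.univ (by
    intro i _ j _ hij
    have h1 := hc i
    have h2 := hc j
    have := h1.h1
    have := h1.h2
    have := h2.h1
    have := h2.h2
    refine ⟨?_, ?_⟩
    · rcases hP i j hij with h | h <;> omega
    · show min (b i) (c i) ≠ min (b j) (c j)
      rcases hU i j hij with h | h <;> omega) (by rw [Finset.card_fin]; exact hM) with
    ⟨g, -, hg⟩ | ⟨g, -, hg⟩
  · refine raw_ordered P U hdis q (fun j => a1 (g j)) (fun j => a2 (g j)) (fun j => a3 (g j))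
      (fun j => b (g j)) (fun j => c (g j)) (fun j _ => hc _) ?_ ?_
    · intro j hj
      have h1 := hg j (j + 1) (by omega) hj
      have h2 := (hc (g j)).h1
      have h3 := (hc (g j)).h2
      have h4 := (hc (g (j + 1))).h1
      have h5 := (hc (g (j + 1))).h2
      rcases hP (g j) (g (j + 1)) (fun h => by rw [h] at h1; omega) with h | h <;> omega
    · intro j hj
      have h1 := hg j (j + 1) (by omega) hj
      show max (b (g j)) (c (g j)) < min (b (g (j + 1))) (c (g (j + 1)))
      have h1' : min (b (g j)) (c (g j)) < min (b (g (j + 1))) (c (g (j + 1))) := h1.2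
      rcases hU (g j) (g (j + 1)) (fun h => by rw [h] at h1; omega) with h | h <;> omega
  · refine raw_ordered P U.rev (fun i hi j _ => hdis i hi _ (by omega)) q (fun j => a1 (g j))
      (fun j => a2 (g j)) (fun j => a3 (g j)) (fun j => L' - b (g j)) (fun j => L' - c (g j))
      (fun j _ => ?_) ?_ ?_
    · have h := hc (g j)
      have h4 := h.h4
      have h5 := h.h5
      have h6 := h.h6
      refine ⟨h.h1, h.h2, h.h3, Nat.sub_le _ _, Nat.sub_le _ _, by omega, ?_, ?_, ?_⟩
      · show G.Adj (u (L' - (L' - c (g j)))) _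
        rw [show L' - (L' - c (g j)) = c (g j) by omega]
        exact h.h7
      · show G.Adj (u (L' - (L' - c (g j)))) _
        rw [show L' - (L' - c (g j)) = c (g j) by omega]
        exact h.h8
      · show G.Adj _ (u (L' - (L' - b (g j))))
        rw [show L' - (L' - b (g j)) = b (g j) by omega]
        exact h.h9
    · intro j hj
      have h1 := hg j (j + 1) (by omega) hj
      have h2 := (hc (g j)).h1
      have h3 := (hc (g j)).h2
      have h4 := (hc (g (j + 1))).h1
      have h5 := (hc (g (j + 1))).h2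
      rcases hP (g j) (g (j + 1)) (fun h => by rw [h] at h1; omega) with h | h <;> omega
    · intro j hj
      have h1 := hg j (j + 1) (by omega) hj
      have h2 := (hc (g j)).h4
      have h3 := (hc (g j)).h5
      have h4 := (hc (g (j + 1))).h4
      have h5 := (hc (g (j + 1))).h5
      show max (L' - b (g j)) (L' - c (g j)) < min (L' - b (g (j + 1))) (L' - c (g (j + 1)))
      have h1' : min (b (g (j + 1))) (c (g (j + 1))) < min (b (g j)) (c (g j)) := h1.2
      rcases hU (g j) (g (j + 1)) (fun h => by rw [h] at h1; omega) with h | h <;> omega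

end

end TWk
end
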