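import Mathlib

/-!
# MP_cfc9ed_co: elimination schemes of `κ`-connected graphs of tree-width at most `κ`

`Elim G κ ord K`: `ord` is an injective ordering of the vertices, `K v` is a set of at most `κ` vertices
before `v` which contains all neighbours of `v` before `v`, and `K v` is a clique of the scheme.
-/

set_option autoImplicit false

namespace TWk

open SimpleGraph Relation

variable {V : Type*}

/-- `κ`-connected -/
def Conn [Fintype V] (G : SimpleGraph V) (κ : ℕ) : Prop :=
  κ < Fintype.card V ∧ ∀ X : Finset V, X.card < κ → (G.induce ((↑X : Set V)ᶜ)).Connected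

/-- `G` has a `K_{a,k}` minor, given by branch sets -/
def HasK (G : SimpleGraph V) (a k : ℕ) : Prop :=
  ∃ φ : (Fin a ⊕ Fin k) → Set V,
    (∀ w, (G.induce (φ w)).Connected) ∧
    (∀ w w', w ≠ w' → Disjoint (φ w) (φ w')) ∧
    (∀ w w', (completeBipartiteGraph (Fin a) (Fin k)).Adj w w' →
      ∃ u ∈ φ w, ∃ v ∈ φ w', G.Adj u v)

/-- assemble a minor from rails `R` and ties `T` -/
theorem hasK_of {G : SimpleGraph V} {a k : ℕ} (R : Fin a → Set V) (T : Fin k → Set V)
    (hR : ∀ i, (G.induce (R i)).Connected) (hT : ∀ j, (G.induce (T j)).Connected)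
    (hRR : ∀ i i', i ≠ i' → Disjoint (R i) (R i')) (hTT : ∀ j j', j ≠ j' → Disjoint (T j) (T j'))
    (hRT : ∀ i j, Disjoint (R i) (T j)) (hadj : ∀ i j, ∃ u ∈ R i, ∃ v ∈ T j, G.Adj u v) :
    HasK G a k := by
  refine ⟨Sum.elim R T, ?_, ?_, ?_⟩
  · rintro (i | j)
    · exact hR i
    · exact hT j
  · rintro (i | j) (i' | j') hne
    · exact hRR i i' fun h => hne (by rw [h])
    · exact hRT i j'
    · exact (hRT i' j).symm
    · exact hTT j j' fun h => hne (by rw [h])
  · rintro (i | j) (i' | j') hadj'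
    · simp at hadj'
    · exact hadj i j'
    · obtain ⟨u, hu, v, hv, huv⟩ := hadj i' j
      exact ⟨v, hv, u, hu, huv.symm⟩
    · simp at hadj'

/-- reachability in an induced subgraph from a centre -/
def RI (G : SimpleGraph V) (s : Set V) (c x : V) : Prop :=
  ∃ (hc : c ∈ s) (hx : x ∈ s), (G.induce s).Reachable ⟨c, hc⟩ ⟨x, hx⟩

theorem RI.refl {G : SimpleGraph V} {s : Set V} {c : V} (hc : c ∈ s) : RI G s c c :=
  ⟨hc, hc, Reachable.refl _⟩

theorem RI.symm {G : SimpleGraph V} {s : Set V} {c x : V} (h : RI G s c x) : RI G s x c := by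
  obtain ⟨h1, h2, h3⟩ := h
  exact ⟨h2, h1, h3.symm⟩

theorem RI.trans {G : SimpleGraph V} {s : Set V} {c x y : V} (h : RI G s c x) (h' : RI G s x y) :
    RI G s c y := by
  obtain ⟨h1, h2, h3⟩ := h
  obtain ⟨h1', h2', h3'⟩ := h'
  exact ⟨h1, h2', h3.trans h3'⟩

theorem RI.adj {G : SimpleGraph V} {s : Set V} {x y : V} (hx : x ∈ s) (hy : y ∈ s)
    (h : G.Adj x y) : RI G s x y :=
  ⟨hx, hy, Adj.reachable (G := G.induce s) (u := ⟨x, hx⟩) (v := ⟨y, hy⟩) h⟩

theorem RI.mono {G : SimpleGraph V} {s t : Set V} (hst : s ⊆ t) {x y : V} (h : RI G s x y) :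
    RI G t x y := by
  obtain ⟨h1, h2, h3⟩ := h
  exact ⟨hst h1, hst h2, h3.map (G.induceHomOfLE hst).toHom⟩

theorem conn_of_RI {G : SimpleGraph V} {s : Set V} {c : V} (hc : c ∈ s)
    (h : ∀ x ∈ s, RI G s c x) : (G.induce s).Connected := by
  have : Nonempty s := ⟨⟨c, hc⟩⟩
  refine ⟨fun a b => ?_⟩
  obtain ⟨_, _, h1⟩ := h a.1 a.2
  obtain ⟨_, _, h2⟩ := h b.1 b.2
  exact h1.symm.trans h2

theorem RI_of_conn {G : SimpleGraph V} {s : Set V} (h : (G.induce s).Connected) {x y : V}
    (hx : x ∈ s) (hy : y ∈ s) : RI G s x y := ⟨hx, hy, h.preconnected _ _⟩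

theorem conn_singleton {G : SimpleGraph V} (x : V) :
    (G.induce ({x} : Set V)).Connected := by
  refine conn_of_RI (c := x) rfl ?_
  intro y hy
  have : y = x := hy
  subst this
  exact RI.refl rfl

/-- a set with less than `κ` neighbours contains everything else -/
theorem sep [Fintype V] {G : SimpleGraph V} {κ : ℕ} (hG : Conn G κ) (D : Set V) (N : Finset V)
    {d z : V} (hd : d ∈ D) (hdN : d ∉ N) (hN : ∀ x ∈ D, ∀ y, G.Adj x y → y ∈ D ∨ y ∈ N)
    (hz : z ∉ D) (hzN : z ∉ N) : κ ≤ N.card := by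
  by_contra h
  push Not at h
  have hc := hG.2 N h
  have hr := hc.preconnected ⟨d, by simpa using hdN⟩ ⟨z, by simpa using hzN⟩
  rw [reachable_iff_reflTransGen] at hr
  have key : ∀ x : ((↑N : Set V)ᶜ : Set V),
      ReflTransGen (G.induce ((↑N : Set V)ᶜ)).Adj ⟨d, by simpa using hdN⟩ x → x.1 ∈ D := by
    intro x hx
    induction hx with
    | refl => exact hd
    | @tail b c _ hadj ih =>
      rcases hN _ ih _ hadj with h1 | h1
      · exact h1
      · exact absurd (Finset.mem_coe.2 h1) c.2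
  exact hz (key _ hr)

/-- elimination scheme -/
structure Elim (G : SimpleGraph V) (κ : ℕ) (ord : V → ℕ) (K : V → Finset V) : Prop where
  inj : Function.Injective ord
  lt : ∀ {u v}, u ∈ K v → ord u < ord v
  adj : ∀ {u v}, G.Adj u v → ord u < ord v → u ∈ K v
  cl : ∀ {u u' v}, u ∈ K v → u' ∈ K v → ord u < ord u' → u ∈ K u'
  card : ∀ v, (K v).card ≤ κ

/-- `p` is the parent of `v` -/
def Par (ord : V → ℕ) (K : V → Finset V) (p v : V) : Prop := p ∈ K v ∧ ∀ u ∈ K v, ord u ≤ ord p

/-- the descendants of `v` -/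
def Ds (ord : V → ℕ) (K : V → Finset V) (v : V) : Set V := {w | ReflTransGen (Par ord K) v w}

section

variable {G : SimpleGraph V} {κ : ℕ} {ord : V → ℕ} {K : V → Finset V}

theorem self_mem_Ds (v : V) : v ∈ Ds ord K v := ReflTransGen.refl

theorem Ds_trans {u v w : V} (h : v ∈ Ds ord K u) (h' : w ∈ Ds ord K v) : w ∈ Ds ord K u :=
  ReflTransGen.trans h h'

theorem Ds_subset {u v : V} (h : v ∈ Ds ord K u) : Ds ord K v ⊆ Ds ord K u :=
  fun _ h' => Ds_trans h h'

theorem par_unique (H : Elim G κ ord K) {p p' v : V} (h : Par ord K p v) (h' : Par ord K p' v) :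
    p = p' := H.inj (le_antisymm (h'.2 _ h.1) (h.2 _ h'.1))

theorem exists_par {v : V} (h : (K v).Nonempty) : ∃ p, Par ord K p v := by
  obtain ⟨p, h1, h2⟩ := Finset.exists_max_image (K v) ord h
  exact ⟨p, h1, h2⟩

theorem K_sub_par (H : Elim G κ ord K) {p v x : V} (h : Par ord K p v) (hx : x ∈ K v) :
    x = p ∨ x ∈ K p := by
  rcases eq_or_ne x p with h1 | h1
  · exact Or.inl h1
  · right
    refine H.cl hx h.1 (lt_of_le_of_ne (h.2 x hx) fun h2 => h1 (H.inj h2))

theorem ord_le_of_Ds (H : Elim G κ ord K) {v w : V} (h : w ∈ Ds ord K v) : ord v ≤ ord w := by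
  have h' : ReflTransGen (Par ord K) v w := h
  clear h
  induction h' with
  | refl => exact le_rfl
  | tail _ h2 ih => exact ih.trans (H.lt h2.1).le

theorem mem_K_Ds (H : Elim G κ ord K) {u w : V} (h : u ∈ K w) : w ∈ Ds ord K u := by
  have key : ∀ (n : ℕ) (w : V), ord w = n → u ∈ K w → w ∈ Ds ord K u := by
    intro n
    induction n using Nat.strong_induction_on with
    | _ n ih =>
      intro w hw hu
      obtain ⟨p, hp⟩ := exists_par (ord := ord) ⟨u, hu⟩
      rcases K_sub_par H hp hu with h1 | h1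
      · subst h1
        exact ReflTransGen.single hp
      · exact ReflTransGen.tail (ih (ord p) (hw ▸ H.lt hp.1) p rfl h1) hp
  exact key _ w rfl h

theorem K_Ds (H : Elim G κ ord K) {v w x : V} (h : w ∈ Ds ord K v) (hx : x ∈ K w) :
    x ∈ Ds ord K v ∨ x ∈ K v := by
  have h' : ReflTransGen (Par ord K) v w := h
  clear h
  induction h' with
  | refl => exact Or.inr hx
  | tail h1 h2 ih =>
    rcases K_sub_par H h2 hx with h3 | h3
    · subst h3
      exact Or.inl h1
    · exact ih h3

theorem nbr_Ds (H : Elim G κ ord K) {v w y : V} (h : w ∈ Ds ord K v) (hy : G.Adj w y) :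
    y ∈ Ds ord K v ∨ y ∈ K v := by
  rcases lt_trichotomy (ord y) (ord w) with h1 | h1 | h1
  · exact K_Ds H h (H.adj hy.symm h1)
  · exact absurd (H.inj h1) hy.symm.ne
  · exact Or.inl (Ds_trans h (mem_K_Ds H (H.adj hy h1)))

theorem Ds_total (H : Elim G κ ord K) {u v w : V} (h : w ∈ Ds ord K u) (h' : w ∈ Ds ord K v) :
    v ∈ Ds ord K u ∨ u ∈ Ds ord K v := by
  have hU : Relator.RightUnique (Function.swap (Par ord K)) := fun _ _ _ h1 h2 => par_unique H h1 h2
  have e1 : ReflTransGen (Function.swap (Par ord K)) w u := reflTransGen_swap.2 h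
  have e2 : ReflTransGen (Function.swap (Par ord K)) w v := reflTransGen_swap.2 h'
  rcases ReflTransGen.total_of_right_unique hU e1 e2 with h3 | h3
  · exact Or.inr (reflTransGen_swap.1 h3)
  · exact Or.inl (reflTransGen_swap.1 h3)

/-- proper descendants go through the parent -/
theorem mem_Ds_of_par (H : Elim G κ ord K) {u v p : V} (h : v ∈ Ds ord K u) (hne : v ≠ u)
    (hp : Par ord K p v) : p ∈ Ds ord K u := by
  rcases ReflTransGen.cases_tail h with h1 | ⟨b, h1, h2⟩
  · exact absurd h1.symm hne.symm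
  · rw [par_unique H hp h2]
    exact h1

theorem Ds_disj_of_sib (H : Elim G κ ord K) {p u v : V} (hu : Par ord K p u) (hv : Par ord K p v)
    (hne : u ≠ v) : Disjoint (Ds ord K u) (Ds ord K v) := by
  rw [Set.disjoint_left]
  intro w h1 h2
  have hup := H.lt hu.1
  have hvp := H.lt hv.1
  rcases Ds_total H h1 h2 with h3 | h3
  · have := ord_le_of_Ds H (mem_Ds_of_par H h3 hne.symm hv)
    omega
  · have := ord_le_of_Ds H (mem_Ds_of_par H h3 hne hu)
    omega

/-- more than `κ` vertices before `v` -/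
def Late [Fintype V] (κ : ℕ) (ord : V → ℕ) (v : V) : Prop :=
  κ < (Finset.univ.filter fun u => ord u < ord v).card

variable [Fintype V]

theorem Late.mono {v w : V} (h : Late κ ord v) (hvw : ord v ≤ ord w) : Late κ ord w := by
  refine lt_of_lt_of_le h (Finset.card_le_card fun u hu => ?_)
  simp only [Finset.mem_filter, Finset.mem_univ, true_and] at hu ⊢
  omega

theorem Late.exists_out (H : Elim G κ ord K) {v : V} (h : Late κ ord v) :
    ∃ z, z ∉ Ds ord K v ∧ z ∉ K v := by
  by_contra hcon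
  push Not at hcon
  have h1 : (Finset.univ.filter fun u => ord u < ord v) ⊆ K v := by
    intro u hu
    simp only [Finset.mem_filter, Finset.mem_univ, true_and] at hu
    refine hcon u fun h2 => ?_
    have := ord_le_of_Ds H h2
    omega
  have := Finset.card_le_card h1
  have h2 := H.card v
  unfold Late at h
  omega

theorem Late.card_K (hG : Conn G κ) (H : Elim G κ ord K) {v : V} (h : Late κ ord v) :
    (K v).card = κ := by
  obtain ⟨z, hz1, hz2⟩ := h.exists_out H
  refine le_antisymm (H.card v) ?_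
  exact sep hG (Ds ord K v) (K v) (self_mem_Ds v) (fun h1 => lt_irrefl _ (H.lt h1))
    (fun x hx y hy => nbr_Ds H hx hy) hz1 hz2

theorem Late.nbr (hG : Conn G κ) (H : Elim G κ ord K) {v : V} (h : Late κ ord v) {x : V}
    (hx : x ∈ K v) : ∃ y ∈ Ds ord K v, G.Adj x y := by
  classical
  by_contra hcon
  push Not at hcon
  obtain ⟨z, hz1, hz2⟩ := h.exists_out H
  have h1 : κ ≤ ((K v).erase x).card := by
    refine sep hG (Ds ord K v) ((K v).erase x) (self_mem_Ds v)
      (fun h1 => lt_irrefl _ (H.lt (Finset.mem_of_mem_erase h1))) (fun w hw y hy => ?_) hz1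
      (fun h2 => hz2 (Finset.mem_of_mem_erase h2))
    rcases nbr_Ds H hw hy with h2 | h2
    · exact Or.inl h2
    · rcases eq_or_ne y x with h3 | h3
      · subst h3
        exact absurd hy.symm (hcon w hw)
      · exact Or.inr (Finset.mem_erase.2 ⟨h3, h2⟩)
  have h2 := Finset.card_erase_lt_of_mem hx
  have h3 := H.card v
  omega

theorem Late.conn (hG : Conn G κ) (H : Elim G κ ord K) {v : V} (h : Late κ ord v) :
    (G.induce (Ds ord K v)).Connected := by
  obtain ⟨M, hM⟩ : ∃ M, ∀ w, ord w < M := by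
    obtain ⟨M, hM⟩ := (Finset.univ.image ord).exists_nat_subset_range
    exact ⟨M, fun w => Finset.mem_range.1 (hM (Finset.mem_image_of_mem _ (Finset.mem_univ w)))⟩
  have key : ∀ (n : ℕ) (v : V), M - ord v = n → Late κ ord v →
      ∀ w ∈ Ds ord K v, RI G (Ds ord K v) v w := by
    intro n
    induction n using Nat.strong_induction_on with
    | _ n ih =>
      intro v hv hl w hw
      have hw' : ReflTransGen (Par ord K) v w := hw
      clear hw
      induction hw' with
      | refl => exact RI.refl (self_mem_Ds v)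
      | @tail b c h1 h2 ih2 =>
        have hvb : ord v ≤ ord b := ord_le_of_Ds H h1
        have hbc : ord b < ord c := H.lt h2.1
        have hc : Late κ ord c := hl.mono (by omega)
        obtain ⟨y, hy1, hy2⟩ := hc.nbr hG H h2.1
        have hcv : c ∈ Ds ord K v := ReflTransGen.tail h1 h2
        have h3 := ih (M - ord c) (by have := hM c; omega) c rfl hc y hy1
        exact (ih2.trans (RI.adj h1 (Ds_trans hcv hy1) hy2)).trans ((h3.mono (Ds_subset hcv)).symm)
  exact conn_of_RI (self_mem_Ds v) (key _ v rfl h)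

end

end TWk
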