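import Pool.Agent.Lib.MP_cfc9ed_co.T1

section

/-!
# MP_cfc9ed_co: many children give `K_{κ,k}`; otherwise there is a long chain
-/

set_option autoImplicit false

namespace TWk

open SimpleGraph Relation

variable {V : Type*} [Fintype V] {G : SimpleGraph V} {κ : ℕ} {ord : V → ℕ} {K : V → Finset V}

theorem many_children (hG : Conn G κ) (H : Elim G κ ord K) {a k : ℕ} (ha : a ≤ κ) (v : V)
    (C : Finset V) (hC : ∀ w ∈ C, Late κ ord w ∧ Par ord K v w) (hcard : 2 ^ (κ + 1) * k < C.card) :
    HasK G a k := by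
  classical
  have hmaps : ∀ w ∈ C, K w ∈ (insert v (K v)).powerset := by
    intro w hw
    rw [Finset.mem_powerset]
    intro x hx
    rcases K_sub_par H (hC w hw).2 hx with h | h
    · rw [h]; exact Finset.mem_insert_self _ _
    · exact Finset.mem_insert_of_mem h
  have hpow : (insert v (K v)).powerset.card ≤ 2 ^ (κ + 1) := by
    rw [Finset.card_powerset]
    refine Nat.pow_le_pow_right (by norm_num) ?_
    exact (Finset.card_insert_le _ _).trans (Nat.succ_le_succ (H.card v))
  obtain ⟨S, -, hS⟩ := Finset.exists_lt_card_fiber_of_mul_lt_card_of_maps_to hmaps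
    (n := k) (lt_of_le_of_lt (Nat.mul_le_mul_right k hpow) hcard)
  set F := C.filter fun w => K w = S with hF
  have hmem : ∀ w ∈ F, Late κ ord w ∧ Par ord K v w ∧ K w = S := by
    intro w hw
    rw [hF, Finset.mem_filter] at hw
    exact ⟨(hC w hw.1).1, (hC w hw.1).2, hw.2⟩
  obtain ⟨w₀, hw₀⟩ : F.Nonempty := Finset.card_pos.1 (by omega)
  have hScard : S.card = κ := by
    have := (hmem w₀ hw₀).1.card_K hG H
    rwa [(hmem w₀ hw₀).2.2] at this
  obtain ⟨f, hf⟩ : ∃ f : Fin a → V, Function.Injective f ∧ ∀ i, f i ∈ S := by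
    obtain ⟨S', h1, h2⟩ := Finset.exists_subset_card_eq (s := S) (n := a) (by omega)
    refine ⟨fun i => (S'.equivFinOfCardEq h2).symm i, ?_, fun i => h1 (Finset.coe_mem _)⟩
    intro i j hij
    exact (S'.equivFinOfCardEq h2).symm.injective (Subtype.ext hij)
  obtain ⟨g, hg⟩ : ∃ g : Fin k → V, Function.Injective g ∧ ∀ i, g i ∈ F := by
    obtain ⟨S', h1, h2⟩ := Finset.exists_subset_card_eq (s := F) (n := k) (by omega)
    refine ⟨fun i => (S'.equivFinOfCardEq h2).symm i, ?_, fun i => h1 (Finset.coe_mem _)⟩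
    intro i j hij
    exact (S'.equivFinOfCardEq h2).symm.injective (Subtype.ext hij)
  have hSK : ∀ (i : Fin a) (j : Fin k), f i ∈ K (g j) := by
    intro i j
    rw [(hmem _ (hg.2 j)).2.2]
    exact hf.2 i
  refine hasK_of (fun i => {f i}) (fun j => Ds ord K (g j)) (fun i => conn_singleton _)
    (fun j => (hmem _ (hg.2 j)).1.conn hG H) ?_ ?_ ?_ ?_
  · intro i i' hne
    rw [Set.disjoint_singleton]
    exact fun h => hne (hf.1 h)
  · intro j j' hne
    exact Ds_disj_of_sib H (hmem _ (hg.2 j)).2.1 (hmem _ (hg.2 j')).2.1 fun h => hne (hg.1 h)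
  · intro i j
    rw [Set.disjoint_singleton_left]
    intro h
    have h1 := ord_le_of_Ds H h
    have h2 := H.lt (hSK i j)
    omega
  · intro i j
    obtain ⟨y, hy1, hy2⟩ := (hmem _ (hg.2 j)).1.nbr hG H (hSK i j)
    exact ⟨f i, rfl, y, hy1, hy2⟩

/-- fibres of iterates -/
theorem card_fiber_iterate {c : ℕ} (p : V → V) [DecidableEq V]
    (hp : ∀ x, (Finset.univ.filter fun v => p v = x).card ≤ c) (m : ℕ) (x : V) :
    (Finset.univ.filter fun v => p^[m] v = x).card ≤ c ^ m := by
  induction m with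
  | zero => simp [Finset.filter_eq']
  | succ m ih =>
    have h1 : ∀ v ∈ (Finset.univ.filter fun v => p^[m + 1] v = x),
        p v ∈ (Finset.univ.filter fun v => p^[m] v = x) := by
      intro v hv
      simpa using hv
    have h2 := Finset.card_le_mul_card_image_of_maps_to h1 c (fun b _ => by
      refine (Finset.card_le_card fun v hv => ?_).trans (hp b)
      simp only [Finset.mem_filter, Finset.mem_univ, true_and] at hv ⊢
      exact hv.2)
    calc _ ≤ c * _ := h2
      _ ≤ c * c ^ m := Nat.mul_le_mul_left _ ih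
      _ = c ^ (m + 1) := by rw [pow_succ]; ring

theorem card_not_late (H : Elim G κ ord K) [DecidablePred fun v => ¬ Late κ ord v] :
    (Finset.univ.filter fun v : V => ¬ Late κ ord v).card ≤ κ + 1 := by
  by_contra hcon
  push Not at hcon
  set E := Finset.univ.filter fun v : V => ¬ Late κ ord v with hE
  obtain ⟨v, hv, hmax⟩ := Finset.exists_max_image E ord (Finset.card_pos.1 (by omega))
  classical
  have h1 : E.erase v ⊆ Finset.univ.filter fun u => ord u < ord v := by
    intro u hu
    rw [Finset.mem_erase] at hu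
    simp only [Finset.mem_filter, Finset.mem_univ, true_and]
    exact lt_of_le_of_ne (hmax u hu.2) fun h => hu.1 (H.inj h)
  have h2 := Finset.card_le_card h1
  rw [Finset.card_erase_of_mem hv] at h2
  have h3 : ¬ Late κ ord v := by
    have := hv
    rw [hE, Finset.mem_filter] at this
    exact this.2
  unfold Late at h3
  omega

/-- a long chain of late vertices, each the parent of the next one -/
def Chain (κ : ℕ) (ord : V → ℕ) (K : V → Finset V) (m : ℕ) (w : ℕ → V) : Prop :=
  (∀ i ≤ m, Late κ ord (w i)) ∧ ∀ i < m, Par ord K (w i) (w (i + 1))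

theorem exists_chain (hG : Conn G κ) (H : Elim G κ ord K) {a k m : ℕ} (ha : a ≤ κ) (hκ : 0 < κ)
    (hcard : (κ + 1) * (2 ^ (κ + 1) * k + 1) ^ m < Fintype.card V) :
    HasK G a k ∨ ∃ w, Chain κ ord K m w := by
  classical
  by_contra hcon
  push Not at hcon
  obtain ⟨hcon1, hcon2⟩ := hcon
  have hpar : ∀ v, Late κ ord v → ∃ p, Par ord K p v := fun v hv =>
    exists_par (Finset.card_pos.1 (by rw [hv.card_K hG H]; exact hκ))
  let p : V → V := fun v => if h : Late κ ord v then (hpar v h).choose else v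
  have hp1 : ∀ v, Late κ ord v → Par ord K (p v) v := by
    intro v hv
    simp only [p, dif_pos hv]
    exact (hpar v hv).choose_spec
  have hp2 : ∀ v, ¬ Late κ ord v → p v = v := fun v hv => by simp only [p, dif_neg hv]
  have hfib : ∀ x, (Finset.univ.filter fun v => p v = x).card ≤ 2 ^ (κ + 1) * k + 1 := by
    intro x
    have h1 : (Finset.univ.filter fun v => p v = x) ⊆
        insert x (Finset.univ.filter fun v => Late κ ord v ∧ Par ord K x v) := by
      intro v hv
      simp only [Finset.mem_filter, Finset.mem_univ, true_and, Finset.mem_insert] at hv ⊢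
      by_cases hl : Late κ ord v
      · right
        refine ⟨hl, ?_⟩
        rw [← hv]
        exact hp1 v hl
      · left
        rw [← hv, hp2 v hl]
    have h2 : (Finset.univ.filter fun v => Late κ ord v ∧ Par ord K x v).card ≤ 2 ^ (κ + 1) * k := by
      by_contra h3
      push Not at h3
      exact hcon1 (many_children hG H ha x _ (fun w hw => by simpa using hw) h3)
    exact (Finset.card_le_card h1).trans ((Finset.card_insert_le _ _).trans (by omega))
  have hstay : ∀ (n : ℕ) (v : V), ¬ Late κ ord v → p^[n] v = v := by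
    intro n v hv
    induction n with
    | zero => rfl
    | succ n ih => rw [Function.iterate_succ_apply', ih, hp2 v hv]
  -- some vertex is still late after `m` steps
  obtain ⟨v, hv⟩ : ∃ v, Late κ ord (p^[m] v) := by
    by_contra h
    push Not at h
    have h1 : ∀ v ∈ (Finset.univ : Finset V), p^[m] v ∈
        (Finset.univ.filter fun v : V => ¬ Late κ ord v) := by
      intro v _
      simpa using h v
    have h2 := Finset.card_le_mul_card_image_of_maps_to h1 ((2 ^ (κ + 1) * k + 1) ^ m)
      (fun b _ => card_fiber_iterate p hfib m b)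
    rw [Finset.card_univ] at h2
    have h3 := card_not_late H
    have h4 := h2.trans (Nat.mul_le_mul_left _ h3)
    rw [mul_comm] at h4
    omega
  have hlate : ∀ j ≤ m, Late κ ord (p^[j] v) := by
    intro j hj
    by_contra h
    have h1 : p^[m] v = p^[j] v := by
      have : m = (m - j) + j := by omega
      rw [this, Function.iterate_add_apply, hstay _ _ h]
    rw [h1] at hv
    exact h hv
  refine hcon2 (fun i => p^[m - i] v) ⟨fun i _ => hlate _ (by omega), fun i hi => ?_⟩
  have h1 : m - i = (m - (i + 1)) + 1 := by omega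
  show Par ord K (p^[m - i] v) (p^[m - (i + 1)] v)
  rw [h1, Function.iterate_succ_apply']
  exact hp1 _ (hlate _ (by omega))

end TWk
end

section

/-!
# MP_cfc9ed_co: rails along a chain
-/

set_option autoImplicit false

namespace TWk

open SimpleGraph Relation

variable {V : Type*} [Fintype V] {G : SimpleGraph V} {κ : ℕ} {ord : V → ℕ} {K : V → Finset V}

/-- one step of the chain: exactly one vertex `q` leaves -/
theorem step (hG : Conn G κ) (H : Elim G κ ord K) {v w : V} (hv : Late κ ord v)
    (hw : Late κ ord w) (hp : Par ord K v w) :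
    ∃ q ∈ K v, q ∉ K w ∧ ∀ x ∈ K v, x ≠ q → x ∈ K w := by
  classical
  have h1 := hv.card_K hG H
  have h2 := hw.card_K hG H
  have h3 : (K w).erase v ⊆ K v := by
    intro x hx
    rw [Finset.mem_erase] at hx
    exact (K_sub_par H hp hx.2).resolve_left hx.1
  have h4 : ((K w).erase v).card = κ - 1 := by
    rw [Finset.card_erase_of_mem hp.1, h2]
  have hκ : 0 < κ := by
    rw [← h2]
    exact Finset.card_pos.2 ⟨v, hp.1⟩
  have h5 : (K v \ (K w).erase v).card = 1 := by
    rw [Finset.card_sdiff_of_subset h3, h4, h1]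
    omega
  obtain ⟨q, hq⟩ := Finset.card_eq_one.1 h5
  have hvv : v ∉ K v := fun h => lt_irrefl _ (H.lt h)
  have hq' : q ∈ K v \ (K w).erase v := by rw [hq]; exact Finset.mem_singleton_self _
  rw [Finset.mem_sdiff, Finset.mem_erase] at hq'
  refine ⟨q, hq'.1, fun h => hq'.2 ⟨fun h' => hvv (h' ▸ hq'.1), h⟩, fun x hx hne => ?_⟩
  by_contra hx2
  have : x ∈ K v \ (K w).erase v := by
    rw [Finset.mem_sdiff, Finset.mem_erase]
    exact ⟨hx, fun h => hx2 h.2⟩
  rw [hq, Finset.mem_singleton] at this
  exact hne this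

/-- the connector between `q` and `v` -/
theorem connector (hG : Conn G κ) (H : Elim G κ ord K) {v w q : V} (hv : Late κ ord v)
    (hq : q ∈ K v) (hqw : q ∉ K w) (hp : Par ord K v w) :
    ∃ E : Set V, E ⊆ Ds ord K v \ Ds ord K w ∧ v ∉ E ∧
      (G.induce (insert q (insert v E))).Connected := by
  obtain ⟨y, hy1, hy2⟩ := hv.nbr hG H hq
  by_cases hyv : y = v
  · subst hyv
    refine ⟨∅, Set.empty_subset _, Set.notMem_empty _, conn_of_RI (c := q) (by simp) ?_⟩
    intro x hx
    simp only [Set.mem_insert_iff, Set.mem_empty_iff_false, or_false] at hx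
    rcases hx with rfl | rfl
    · exact RI.refl (by simp)
    · exact RI.adj (by simp) (by simp) hy2
  · rcases ReflTransGen.cases_head (show ReflTransGen (Par ord K) v y from hy1) with h1 | ⟨c, h1, h2⟩
    · exact absurd h1.symm hyv
    · have hvc := H.lt h1.1
      have hc : Late κ ord c := hv.mono hvc.le
      have hqv := H.lt hq
      have hqc : q ∉ Ds ord K c := fun h => by have := ord_le_of_Ds H h; omega
      have hqK : q ∈ K c := (nbr_Ds H (show y ∈ Ds ord K c from h2) hy2.symm).resolve_left hqc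
      have hcw : c ≠ w := fun h => hqw (h ▸ hqK)
      have hvD : v ∉ Ds ord K c := fun h => by have := ord_le_of_Ds H h; omega
      refine ⟨Ds ord K c, fun x hx => ⟨?_, ?_⟩, hvD, ?_⟩
      · exact Ds_trans (ReflTransGen.single h1) hx
      · exact Set.disjoint_left.1 (Ds_disj_of_sib H h1 hp hcw) hx
      · have hsub : Ds ord K c ⊆ insert q (insert v (Ds ord K c)) := fun x hx => by simp [hx]
        have hcc : c ∈ insert q (insert v (Ds ord K c)) := hsub (self_mem_Ds c)
        have hcon := hc.conn hG H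
        refine conn_of_RI hcc ?_
        intro x hx
        simp only [Set.mem_insert_iff] at hx
        rcases hx with rfl | rfl | hx
        · exact ((RI_of_conn hcon (self_mem_Ds c) h2).mono hsub).trans
            (RI.adj (hsub h2) (by simp) hy2.symm)
        · obtain ⟨z, hz1, hz2⟩ := hc.nbr hG H h1.1
          exact ((RI_of_conn hcon (self_mem_Ds c) hz1).mono hsub).trans
            (RI.adj (hsub hz1) (by simp) hz2.symm)
        · exact (RI_of_conn hcon (self_mem_Ds c) hx).mono hsub

/-- the data of a chain -/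
structure CD (G : SimpleGraph V) (κ : ℕ) (ord : V → ℕ) (K : V → Finset V) (m : ℕ) (w q : ℕ → V)
    (E : ℕ → Set V) : Prop where
  late : ∀ i ≤ m, Late κ ord (w i)
  par : ∀ i < m, Par ord K (w i) (w (i + 1))
  qmem : ∀ i < m, q i ∈ K (w i)
  qnot : ∀ i < m, q i ∉ K (w (i + 1))
  stay : ∀ i < m, ∀ x ∈ K (w i), x ≠ q i → x ∈ K (w (i + 1))
  Esub : ∀ i < m, E i ⊆ Ds ord K (w i) \ Ds ord K (w (i + 1))
  Enot : ∀ i < m, w i ∉ E i
  Econn : ∀ i < m, (G.induce (insert (q i) (insert (w i) (E i)))).Connected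

theorem exists_CD (hG : Conn G κ) (H : Elim G κ ord K) {m : ℕ} {w : ℕ → V}
    (hw : Chain κ ord K m w) : ∃ q E, CD G κ ord K m w q E := by
  have h1 : ∀ i, ∃ q, i < m → q ∈ K (w i) ∧ q ∉ K (w (i + 1)) ∧
      ∀ x ∈ K (w i), x ≠ q → x ∈ K (w (i + 1)) := by
    intro i
    by_cases hi : i < m
    · obtain ⟨q, hq1, hq2, hq3⟩ := step hG H (hw.1 i hi.le) (hw.1 (i + 1) (by omega)) (hw.2 i hi)
      exact ⟨q, fun _ => ⟨hq1, hq2, hq3⟩⟩
    · exact ⟨w i, fun h => absurd h hi⟩
  choose q hq using h1
  have h2 : ∀ i, ∃ E : Set V, i < m → E ⊆ Ds ord K (w i) \ Ds ord K (w (i + 1)) ∧ w i ∉ E ∧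
      (G.induce (insert (q i) (insert (w i) E))).Connected := by
    intro i
    by_cases hi : i < m
    · obtain ⟨E, hE⟩ := connector hG H (hw.1 i hi.le) (hq i hi).1 (hq i hi).2.1 (hw.2 i hi)
      exact ⟨E, fun _ => hE⟩
    · exact ⟨∅, fun h => absurd h hi⟩
  choose E hE using h2
  exact ⟨q, E, hw.1, hw.2, fun i hi => (hq i hi).1, fun i hi => (hq i hi).2.1,
    fun i hi => (hq i hi).2.2, fun i hi => (hE i hi).1, fun i hi => (hE i hi).2.1,
    fun i hi => (hE i hi).2.2⟩

open Classical in
/-- the representative of the label `x` at time `i` -/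
noncomputable def rep (w q : ℕ → V) : ℕ → V → V
  | 0, x => x
  | i + 1, x => if rep w q i x = q i then w i else rep w q i x

section

variable {m : ℕ} {w q : ℕ → V} {E : ℕ → Set V}

theorem rep_succ_eq {i : ℕ} {x : V} (h : rep w q i x = q i) : rep w q (i + 1) x = w i := by
  simp [rep, h]

theorem rep_succ_ne {i : ℕ} {x : V} (h : rep w q i x ≠ q i) :
    rep w q (i + 1) x = rep w q i x := by
  simp [rep, h]

theorem rep_mem (C : CD G κ ord K m w q E) {i : ℕ} (hi : i ≤ m) {x : V} (hx : x ∈ K (w 0)) :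
    rep w q i x ∈ K (w i) := by
  induction i with
  | zero => exact hx
  | succ i ih =>
    by_cases h : rep w q i x = q i
    · rw [rep_succ_eq h]
      exact (C.par i (by omega)).1
    · rw [rep_succ_ne h]
      exact C.stay i (by omega) _ (ih (by omega)) h

theorem rep_inj (H : Elim G κ ord K) (C : CD G κ ord K m w q E) {i : ℕ} (hi : i ≤ m) {x y : V}
    (hx : x ∈ K (w 0)) (hy : y ∈ K (w 0)) (hxy : rep w q i x = rep w q i y) : x = y := by
  induction i with
  | zero => exact hxy
  | succ i ih =>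
    have hwi : w i ∉ K (w i) := fun h => lt_irrefl _ (H.lt h)
    have mx := rep_mem C (i := i) (by omega) hx
    have my := rep_mem C (i := i) (by omega) hy
    by_cases h1 : rep w q i x = q i
    · by_cases h2 : rep w q i y = q i
      · exact ih (by omega) (h1.trans h2.symm)
      · rw [rep_succ_eq h1, rep_succ_ne h2] at hxy
        rw [← hxy] at my
        exact absurd my hwi
    · by_cases h2 : rep w q i y = q i
      · rw [rep_succ_ne h1, rep_succ_eq h2] at hxy
        rw [hxy] at mx
        exact absurd mx hwi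
      · rw [rep_succ_ne h1, rep_succ_ne h2] at hxy
        exact ih (by omega) hxy

theorem ord_w_mono (H : Elim G κ ord K) (C : CD G κ ord K m w q E) {i j : ℕ} (hij : i ≤ j)
    (hj : j ≤ m) : ord (w i) ≤ ord (w j) := by
  induction j, hij using Nat.le_induction with
  | base => exact le_rfl
  | succ j hij ih => exact (ih (by omega)).trans (H.lt (C.par j (by omega)).1).le

theorem Ds_w (C : CD G κ ord K m w q E) {i j : ℕ} (hij : i ≤ j)
    (hj : j ≤ m) : w j ∈ Ds ord K (w i) := by
  induction j, hij using Nat.le_induction with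
  | base => exact self_mem_Ds _
  | succ j hij ih => exact ReflTransGen.tail (ih (by omega)) (C.par j (by omega))

/-- representatives at later times are the same or later vertices -/
theorem rep_later (C : CD G κ ord K m w q E) {i j : ℕ} (hij : i ≤ j)
    (hj : j ≤ m) (x : V) : rep w q j x = rep w q i x ∨ rep w q j x ∈ Ds ord K (w i) := by
  induction j, hij using Nat.le_induction with
  | base => exact Or.inl rfl
  | succ j hij ih =>
    by_cases h : rep w q j x = q j
    · rw [rep_succ_eq h]
      exact Or.inr (Ds_w C hij (by omega))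
    · rw [rep_succ_ne h]
      exact ih (by omega)

theorem K_not_Ds (H : Elim G κ ord K) {v x : V} (hx : x ∈ K v) : x ∉ Ds ord K v := fun h => by
  have h1 := ord_le_of_Ds H h
  have h2 := H.lt hx
  omega

/-- a representative in the slice `i` belongs to the label which changes at time `i` -/
theorem rep_slice (H : Elim G κ ord K) (C : CD G κ ord K m w q E) {i j : ℕ} (hi : i < m)
    (hj : j ≤ m) {x : V} (hx : x ∈ K (w 0))
    (h : rep w q j x ∈ Ds ord K (w i) \ Ds ord K (w (i + 1))) : rep w q i x = q i := by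
  by_contra hne
  rcases Nat.lt_or_ge i j with h1 | h1
  · rcases rep_later C (i := i + 1) (j := j) (by omega) hj x with h2 | h2
    · rw [h2, rep_succ_ne hne] at h
      exact K_not_Ds H (rep_mem C hi.le hx) h.1
    · exact h.2 h2
  · have h2 := ord_le_of_Ds H h.1
    have h3 := H.lt (rep_mem C hj hx)
    have h4 := ord_w_mono H C h1 hi.le
    omega

/-- representatives of different labels are different -/
theorem rep_disj (H : Elim G κ ord K) (C : CD G κ ord K m w q E) {i j : ℕ} (hi : i ≤ m)
    (hj : j ≤ m) {x y : V} (hx : x ∈ K (w 0)) (hy : y ∈ K (w 0))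
    (h : rep w q i x = rep w q j y) : x = y := by
  wlog hij : i ≤ j generalizing i j x y
  · exact (this hj hi hy hx h.symm (by omega)).symm
  rcases rep_later C hij hj y with h1 | h1
  · exact rep_inj H C hi hx hy (h.trans h1)
  · rw [← h] at h1
    exact absurd h1 (K_not_Ds H (rep_mem C hi hx))

/-- the rail of the label `x` -/
def Rail (m : ℕ) (w q : ℕ → V) (E : ℕ → Set V) (x : V) : Set V :=
  {z | (∃ i ≤ m, z = rep w q i x) ∨ ∃ i < m, rep w q i x = q i ∧ z ∈ E i}

theorem rail_conn (C : CD G κ ord K m w q E) {x : V} :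
    (G.induce (Rail m w q E x)).Connected := by
  have hr : ∀ i ≤ m, rep w q i x ∈ Rail m w q E x := fun i hi => Or.inl ⟨i, hi, rfl⟩
  have hsub : ∀ i < m, rep w q i x = q i →
      insert (q i) (insert (w i) (E i)) ⊆ Rail m w q E x := by
    intro i hi h z hz
    simp only [Set.mem_insert_iff] at hz
    rcases hz with rfl | rfl | hz
    · rw [← h]
      exact hr i hi.le
    · rw [← rep_succ_eq h]
      exact hr (i + 1) (by omega)
    · exact Or.inr ⟨i, hi, h, hz⟩
  have key : ∀ i ≤ m, RI G (Rail m w q E x) (rep w q 0 x) (rep w q i x) := by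
    intro i
    induction i with
    | zero => intro _; exact RI.refl (hr 0 (by omega))
    | succ i ih =>
      intro hi
      refine (ih (by omega)).trans ?_
      by_cases h : rep w q i x = q i
      · rw [rep_succ_eq h, h]
        exact (RI_of_conn (C.Econn i (by omega)) (by simp) (by simp)).mono (hsub i (by omega) h)
      · rw [rep_succ_ne h]
        exact RI.refl (hr i (by omega))
  refine conn_of_RI (hr 0 (by omega)) ?_
  rintro z (⟨i, hi, rfl⟩ | ⟨i, hi, h, hz⟩)
  · exact key i hi
  · refine (key i hi.le).trans ?_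
    rw [h]
    exact (RI_of_conn (C.Econn i hi) (by simp) (by simp [hz])).mono (hsub i hi h)

theorem slice_disj (C : CD G κ ord K m w q E) {i j : ℕ} (hij : i < j) (hj : j < m) :
    Disjoint (Ds ord K (w i) \ Ds ord K (w (i + 1))) (Ds ord K (w j) \ Ds ord K (w (j + 1))) := by
  rw [Set.disjoint_left]
  intro z h1 h2
  exact h1.2 (Ds_trans (Ds_w C (i := i + 1) (j := j) (by omega) (by omega)) h2.1)

theorem slice_disj' (C : CD G κ ord K m w q E) {i j : ℕ} (hij : i ≠ j) (hi : i < m) (hj : j < m) :
    Disjoint (Ds ord K (w i) \ Ds ord K (w (i + 1))) (Ds ord K (w j) \ Ds ord K (w (j + 1))) := by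
  rcases Nat.lt_or_gt_of_ne hij with h | h
  · exact slice_disj C h hj
  · exact (slice_disj C h hi).symm

theorem rail_disj (H : Elim G κ ord K) (C : CD G κ ord K m w q E) {x y : V} (hx : x ∈ K (w 0))
    (hy : y ∈ K (w 0)) (hne : x ≠ y) : Disjoint (Rail m w q E x) (Rail m w q E y) := by
  rw [Set.disjoint_left]
  rintro z (⟨i, hi, rfl⟩ | ⟨i, hi, h, hz⟩) (⟨j, hj, h'⟩ | ⟨j, hj, h', hz'⟩)
  · exact hne (rep_disj H C hi hj hx hy h')
  · have h2 := rep_slice H C hj hi hx (C.Esub j hj hz')
    exact hne (rep_inj H C hj.le hx hy (h2.trans h'.symm))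
  · rw [h'] at hz
    have h2 := rep_slice H C hi hj hy (C.Esub i hi hz)
    exact hne (rep_inj H C hi.le hx hy (h.trans h2.symm))
  · rcases eq_or_ne i j with rfl | hij
    · exact hne (rep_inj H C hi.le hx hy (h.trans h'.symm))
    · exact Set.disjoint_left.1 (slice_disj' C hij hi hj) (C.Esub i hi hz) (C.Esub j hj hz')

/-- the rail of a label which does not change at time `i` avoids the slice `i` -/
theorem rail_slice (H : Elim G κ ord K) (C : CD G κ ord K m w q E) {x : V} (hx : x ∈ K (w 0))
    {i : ℕ} (hi : i < m) (hne : rep w q i x ≠ q i) :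
    Disjoint (Rail m w q E x) (Ds ord K (w i) \ Ds ord K (w (i + 1))) := by
  rw [Set.disjoint_left]
  rintro z (⟨j, hj, rfl⟩ | ⟨j, hj, h, hz⟩) h2
  · exact hne (rep_slice H C hi hj hx h2)
  · rcases eq_or_ne i j with rfl | hij
    · exact hne h
    · exact Set.disjoint_left.1 (slice_disj' C hij hi hj) h2 (C.Esub j hj hz)

/-- pull back a set of representatives to labels -/
theorem labels (hG : Conn G κ) (H : Elim G κ ord K) (C : CD G κ ord K m w q E) {i : ℕ}
    (hi : i ≤ m) (N : Finset V) (hN : N ⊆ K (w i)) :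
    ∃ A : Finset V, A ⊆ K (w 0) ∧ A.card = N.card ∧ ∀ x ∈ A, rep w q i x ∈ N := by
  classical
  have h1 : (K (w 0)).image (rep w q i) = K (w i) := by
    refine Finset.eq_of_subset_of_card_le ?_ ?_
    · intro z hz
      obtain ⟨x, hx, rfl⟩ := Finset.mem_image.1 hz
      exact rep_mem C hi hx
    · rw [Finset.card_image_of_injOn fun x hx y hy h => rep_inj H C hi hx hy h,
        (C.late 0 (by omega)).card_K hG H, (C.late i hi).card_K hG H]
  refine ⟨(K (w 0)).filter fun x => rep w q i x ∈ N, Finset.filter_subset _ _, ?_,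
    fun x hx => (Finset.mem_filter.1 hx).2⟩
  have h2 : ((K (w 0)).filter fun x => rep w q i x ∈ N).image (rep w q i) = N := by
    ext z
    simp only [Finset.mem_image, Finset.mem_filter]
    constructor
    · rintro ⟨x, ⟨_, h⟩, rfl⟩
      exact h
    · intro hz
      have h3 := hN hz
      rw [← h1] at h3
      obtain ⟨x, hx, rfl⟩ := Finset.mem_image.1 h3
      exact ⟨x, ⟨hx, hz⟩, rfl⟩
  rw [← Finset.card_image_of_injOn (s := (K (w 0)).filter fun x => rep w q i x ∈ N)
    (f := rep w q i), h2]
  intro x hx y hy h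
  exact rep_inj H C hi (Finset.mem_filter.1 hx).1 (Finset.mem_filter.1 hy).1 h

/-- a tie in the slice `i` which is joined to the rails with labels in `A` -/
def Tie (G : SimpleGraph V) (ord : V → ℕ) (K : V → Finset V) (w q : ℕ → V) (i : ℕ)
    (A : Finset V) (T : Set V) : Prop :=
  (G.induce T).Connected ∧ T ⊆ Ds ord K (w i) \ Ds ord K (w (i + 1)) ∧
    ∀ x ∈ A, rep w q i x ≠ q i ∧ ∃ v ∈ T, G.Adj (rep w q i x) v

/-- ties for the same set of labels at `k` times give a minor -/
theorem hasK_of_ties (H : Elim G κ ord K) (C : CD G κ ord K m w q E) {a k : ℕ} (A : Finset V)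
    (hA : A ⊆ K (w 0)) (hcard : A.card = a) (I : Finset ℕ) (hI : ∀ i ∈ I, i < m)
    (hIk : k ≤ I.card) (hT : ∀ i ∈ I, ∃ T, Tie G ord K w q i A T) : HasK G a k := by
  classical
  obtain ⟨f, hf1, hf2⟩ : ∃ f : Fin a → V, Function.Injective f ∧ ∀ i, f i ∈ A := by
    refine ⟨fun i => (A.equivFinOfCardEq hcard).symm i, ?_, fun i => Finset.coe_mem _⟩
    intro i j hij
    exact (A.equivFinOfCardEq hcard).symm.injective (Subtype.ext hij)
  obtain ⟨g, hg1, hg2⟩ : ∃ g : Fin k → ℕ, Function.Injective g ∧ ∀ i, g i ∈ I := by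
    obtain ⟨S', h1, h2⟩ := Finset.exists_subset_card_eq (s := I) (n := k) hIk
    refine ⟨fun i => (S'.equivFinOfCardEq h2).symm i, ?_, fun i => h1 (Finset.coe_mem _)⟩
    intro i j hij
    exact (S'.equivFinOfCardEq h2).symm.injective (Subtype.ext hij)
  choose T hT using fun j => hT (g j) (hg2 j)
  refine hasK_of (fun i => Rail m w q E (f i)) T (fun i => rail_conn C) (fun j => (hT j).1)
    ?_ ?_ ?_ ?_
  · intro i i' hne
    exact rail_disj H C (hA (hf2 i)) (hA (hf2 i')) fun h => hne (hf1 h)
  · intro j j' hne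
    exact (slice_disj' C (fun h => hne (hg1 h)) (hI _ (hg2 j)) (hI _ (hg2 j'))).mono
      (hT j).2.1 (hT j').2.1
  · intro i j
    exact (rail_slice H C (hA (hf2 i)) (hI _ (hg2 j)) ((hT j).2.2 _ (hf2 i)).1).mono_right
      (hT j).2.1
  · intro i j
    obtain ⟨v, hv1, hv2⟩ := ((hT j).2.2 _ (hf2 i)).2
    exact ⟨_, Or.inl ⟨g j, (hI _ (hg2 j)).le, rfl⟩, v, hv1, hv2⟩

end

end TWk
end

section

/-!
# MP_cfc9ed_co: every block of the chain contains a tie
-/

set_option autoImplicit false

namespace TWk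

open SimpleGraph Relation

variable {V : Type*} [Fintype V] {G : SimpleGraph V} {κ : ℕ} {ord : V → ℕ} {K : V → Finset V}
  {m : ℕ} {w q : ℕ → V} {E : ℕ → Set V}

theorem ord_w_lt (H : Elim G κ ord K) (C : CD G κ ord K m w q E) {i j : ℕ} (hij : i < j)
    (hj : j ≤ m) : ord (w i) < ord (w j) :=
  lt_of_lt_of_le (H.lt (C.par i (by omega)).1) (ord_w_mono H C (i := i + 1) (j := j) (by omega) hj)

/-- a branch gives a tie -/
theorem tie_branch (hG : Conn G κ) (H : Elim G κ ord K) (C : CD G κ ord K m w q E) {a i : ℕ}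
    (ha : a ≤ κ - 2) (hi : i < m) {c : V} (hc : Par ord K (w i) c) (hne : c ≠ w (i + 1)) :
    ∃ A : Finset V, A ⊆ K (w 0) ∧ A.card = a ∧ ∃ T, Tie G ord K w q i A T := by
  classical
  have hlc : Late κ ord c := (C.late i hi.le).mono (H.lt hc.1).le
  set N := ((K c).erase (w i)).erase (q i) with hN
  have hNcard : a ≤ N.card := by
    have h1 := Finset.card_erase_of_mem hc.1
    have h2 := Finset.pred_card_le_card_erase (s := (K c).erase (w i)) (a := q i)
    have h3 := hlc.card_K hG H
    rw [← hN] at h2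
    omega
  have hNK : N ⊆ K (w i) := by
    intro x hx
    rw [hN, Finset.mem_erase, Finset.mem_erase] at hx
    exact (K_sub_par H hc hx.2.2).resolve_left hx.2.1
  obtain ⟨N', hN'1, hN'2⟩ := Finset.exists_subset_card_eq hNcard
  obtain ⟨A, hA1, hA2, hA3⟩ := labels hG H C hi.le N' (hN'1.trans hNK)
  refine ⟨A, hA1, hA2.trans hN'2, Ds ord K c, hlc.conn hG H, fun x hx => ⟨?_, ?_⟩, fun x hx => ?_⟩
  · exact Ds_trans (ReflTransGen.single hc) hx
  · exact Set.disjoint_left.1 (Ds_disj_of_sib H hc (C.par i hi) hne) hx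
  · have h1 := hN'1 (hA3 x hx)
    rw [hN, Finset.mem_erase, Finset.mem_erase] at h1
    refine ⟨h1.1, ?_⟩
    exact hlc.nbr hG H h1.2.2

open Classical in
/-- neighbours of `v` before `v` -/
noncomputable def bk (G : SimpleGraph V) (K : V → Finset V) (v : V) : Finset V :=
  (K v).filter fun u => G.Adj u v

/-- a large back degree gives a tie -/
theorem tie_back (hG : Conn G κ) (H : Elim G κ ord K) (C : CD G κ ord K m w q E) {a i : ℕ}
    (hi : i < m) (hb : a + 1 ≤ (bk G K (w i)).card) :
    ∃ A : Finset V, A ⊆ K (w 0) ∧ A.card = a ∧ ∃ T, Tie G ord K w q i A T := by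
  classical
  set N := (bk G K (w i)).erase (q i) with hN
  have hNcard : a ≤ N.card := by
    have h2 := Finset.pred_card_le_card_erase (s := bk G K (w i)) (a := q i)
    rw [← hN] at h2
    omega
  have hmem : ∀ x ∈ N, x ≠ q i ∧ x ∈ K (w i) ∧ G.Adj x (w i) := by
    intro x hx
    rw [hN, Finset.mem_erase, bk, Finset.mem_filter] at hx
    exact hx
  obtain ⟨N', hN'1, hN'2⟩ := Finset.exists_subset_card_eq hNcard
  obtain ⟨A, hA1, hA2, hA3⟩ := labels hG H C hi.le N' fun x hx => (hmem x (hN'1 hx)).2.1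
  refine ⟨A, hA1, hA2.trans hN'2, {w i}, conn_singleton _, ?_, fun x hx => ?_⟩
  · intro x hx
    rw [Set.mem_singleton_iff.1 hx]
    refine ⟨self_mem_Ds _, fun h => ?_⟩
    have h1 := ord_le_of_Ds H h
    have h2 := ord_w_lt H C (i := i) (j := i + 1) (by omega) (by omega)
    omega
  · have h1 := hmem _ (hN'1 (hA3 x hx))
    exact ⟨h1.1, w i, rfl, h1.2.2⟩

theorem tie_block (hG : Conn G κ) (H : Elim G κ ord K) (C : CD G κ ord K m w q E) {a s l : ℕ}
    (ha : 2 * a + 1 ≤ κ) (hl : l = (2 * a + 1) * κ + 1) (hs : s + l ≤ m) :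
    ∃ i, s ≤ i ∧ i < s + l ∧ ∃ A : Finset V, A ⊆ K (w 0) ∧ A.card = a ∧
      ∃ T, Tie G ord K w q i A T := by
  classical
  by_contra hcon
  push Not at hcon
  -- no branches
  have hnb : ∀ i, s ≤ i → i < s + l → ∀ c, Par ord K (w i) c → c = w (i + 1) := by
    intro i h1 h2 c hc
    by_contra hne
    obtain ⟨A, hA1, hA2, T, hT⟩ := tie_branch hG H C (a := a) (by omega) (by omega : i < m) hc hne
    exact hcon i h1 h2 A hA1 hA2 T hT
  have hback : ∀ i, s ≤ i → i < s + l → (bk G K (w i)).card ≤ a := by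
    intro i h1 h2
    by_contra hne
    push Not at hne
    obtain ⟨A, hA1, hA2, T, hT⟩ := tie_back hG H C (a := a) (by omega : i < m) hne
    exact hcon i h1 h2 A hA1 hA2 T hT
  set I := Finset.Ico s (s + l) with hI
  have hmemI : ∀ i, i ∈ I ↔ s ≤ i ∧ i < s + l := fun i => by rw [hI, Finset.mem_Ico]
  set f : ℕ → ℕ := fun i => (I.filter fun j => i < j ∧ G.Adj (w i) (w j)).card with hf
  set Bad := I.filter fun i => w i ∈ K (w (s + l)) with hBad
  have hwinj : ∀ i ≤ m, ∀ j ≤ m, w i = w j → i = j := by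
    intro i hi j hj h
    rcases lt_trichotomy i j with h1 | h1 | h1
    · have := ord_w_lt H C h1 hj
      rw [h] at this
      omega
    · exact h1
    · have := ord_w_lt H C h1 hi
      rw [h] at this
      omega
  have hBadcard : Bad.card ≤ κ := by
    refine le_trans ?_ (H.card (w (s + l)))
    refine Finset.card_le_card_of_injOn w (fun i hi => ?_) fun i hi j hj h => ?_
    · exact (Finset.mem_filter.1 hi).2
    · have h1 := (hmemI i).1 (Finset.mem_filter.1 hi).1
      have h2 := (hmemI j).1 (Finset.mem_filter.1 hj).1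
      exact hwinj i (by omega) j (by omega) h
  have hgood : ∀ i ∈ I \ Bad, κ ≤ (bk G K (w i)).card + f i := by
    intro i hi
    rw [Finset.mem_sdiff] at hi
    have hiI := (hmemI i).1 hi.1
    have him : i ≤ m := by omega
    obtain ⟨z, hz1, hz2⟩ := (C.late i him).exists_out H
    have h1 := sep hG {w i} (bk G K (w i) ∪ (I.filter fun j => i < j ∧ G.Adj (w i) (w j)).image w)
      (d := w i) (z := z) rfl ?_ ?_ ?_ ?_
    · refine h1.trans ((Finset.card_union_le _ _).trans ?_)
      exact Nat.add_le_add_left Finset.card_image_le _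
    · rw [Finset.mem_union, bk, Finset.mem_filter, Finset.mem_image]
      rintro (⟨-, h2⟩ | ⟨j, h2, h3⟩)
      · exact h2.ne rfl
      · rw [Finset.mem_filter] at h2
        rw [h3] at h2
        exact h2.2.2.ne rfl
    · intro x hx y hxy
      rw [Set.mem_singleton_iff.1 hx] at hxy
      right
      rw [Finset.mem_union]
      rcases lt_trichotomy (ord y) (ord (w i)) with h2 | h2 | h2
      · left
        rw [bk, Finset.mem_filter]
        exact ⟨H.adj hxy.symm h2, hxy.symm⟩
      · exact absurd (H.inj h2) hxy.symm.ne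
      · right
        have h3 : w i ∈ K y := H.adj hxy h2
        have h4 : y ∈ Ds ord K (w i) := mem_K_Ds H h3
        have key : ∀ j, i ≤ j → j ≤ s + l → y ∈ Ds ord K (w j) ∨ ∃ j', i ≤ j' ∧ j' < j ∧ y = w j' := by
          intro j hj
          induction j, hj using Nat.le_induction with
          | base => intro _; exact Or.inl h4
          | succ j hj ih =>
            intro hj2
            rcases ih (by omega) with h5 | ⟨j', h5, h6, h7⟩
            · rcases ReflTransGen.cases_head (show ReflTransGen (Par ord K) (w j) y from h5) with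
                h6 | ⟨c, h6, h7⟩
              · exact Or.inr ⟨j, hj, by omega, h6.symm⟩
              · rw [hnb j (by omega) (by omega) c h6] at h7
                exact Or.inl h7
            · exact Or.inr ⟨j', h5, by omega, h7⟩
        rcases key (s + l) (by omega) le_rfl with h5 | ⟨j', h5, h6, h7⟩
        · exfalso
          rcases K_Ds H h5 h3 with h6 | h6
          · have h7 := ord_le_of_Ds H h6
            have h8 := ord_w_lt H C hiI.2 hs
            omega
          · exact hi.2 (Finset.mem_filter.2 ⟨hi.1, h6⟩)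
        · rw [Finset.mem_image]
          refine ⟨j', Finset.mem_filter.2 ⟨(hmemI j').2 ⟨by omega, h6⟩, ?_, h7 ▸ hxy⟩, h7.symm⟩
          rcases Nat.lt_or_ge i j' with h8 | h8
          · exact h8
          · have : j' = i := by omega
            rw [h7, this] at h2
            omega
    · intro h2
      exact hz1 (by rw [Set.mem_singleton_iff.1 h2]; exact self_mem_Ds _)
    · rw [Finset.mem_union, bk, Finset.mem_filter, Finset.mem_image]
      rintro (⟨h2, -⟩ | ⟨j, h2, h3⟩)
      · exact hz2 h2
      · rw [Finset.mem_filter, hmemI] at h2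
        exact hz1 (h3 ▸ Ds_w C h2.2.1.le (by omega))
  have hsum : ∑ i ∈ I, f i ≤ ∑ j ∈ I, (bk G K (w j)).card := by
    have h1 := Finset.sum_card_bipartiteAbove_eq_sum_card_bipartiteBelow
      (s := I) (t := I) fun i j : ℕ => i < j ∧ G.Adj (w i) (w j)
    have h2 : ∑ i ∈ I, f i = ∑ j ∈ I, (I.filter fun i => i < j ∧ G.Adj (w i) (w j)).card := h1
    rw [h2]
    refine Finset.sum_le_sum fun j hj => ?_
    have hjI := (hmemI j).1 hj
    refine Finset.card_le_card_of_injOn w (fun i hi => ?_) fun i hi i' hi' h => ?_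
    · have h3 := Finset.mem_filter.1 hi
      have h4 := ord_w_lt H C h3.2.1 (by omega : j ≤ m)
      exact Finset.mem_filter.2 ⟨H.adj h3.2.2 h4, h3.2.2⟩
    · have h3 := (hmemI i).1 (Finset.mem_filter.1 hi).1
      have h4 := (hmemI i').1 (Finset.mem_filter.1 hi').1
      exact hwinj i (by omega) i' (by omega) h
  have hIcard : I.card = l := by rw [hI, Nat.card_Ico]; omega
  have hb2 : ∑ j ∈ I, (bk G K (w j)).card ≤ l * a := by
    rw [← hIcard, ← smul_eq_mul]
    refine Finset.sum_le_card_nsmul _ _ _ fun j hj => ?_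
    exact hback j ((hmemI j).1 hj).1 ((hmemI j).1 hj).2
  have hlow : (l - κ) * (2 * a + 1) ≤ ∑ i ∈ I \ Bad, ((bk G K (w i)).card + f i) := by
    have h1 : (I \ Bad).card * (2 * a + 1) ≤ ∑ i ∈ I \ Bad, ((bk G K (w i)).card + f i) := by
      rw [← smul_eq_mul]
      exact Finset.card_nsmul_le_sum _ _ _ fun i hi => ha.trans (hgood i hi)
    refine le_trans (Nat.mul_le_mul_right _ ?_) h1
    have h5 := Finset.card_sdiff_of_subset
      (Finset.filter_subset (fun i => w i ∈ K (w (s + l))) I)
    rw [← hBad, hIcard] at h5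
    omega
  have hup : ∑ i ∈ I \ Bad, ((bk G K (w i)).card + f i) ≤ 2 * (l * a) := by
    refine (Finset.sum_le_sum_of_subset Finset.sdiff_subset).trans ?_
    rw [Finset.sum_add_distrib]
    omega
  have hfin := hlow.trans hup
  have hlk : κ ≤ l := by rw [hl]; nlinarith
  obtain ⟨r, hr⟩ := Nat.exists_eq_add_of_le hlk
  have e1 : l - κ = r := by omega
  rw [e1] at hfin
  nlinarith

/-- main theorem for elimination schemes -/
theorem main_elim (a κ k : ℕ) (ha : 2 * a + 1 ≤ κ) :
    ∃ N : ℕ, ∀ (V : Type) [Fintype V] (G : SimpleGraph V) (ord : V → ℕ) (K : V → Finset V),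
      Conn G κ → Elim G κ ord K → N ≤ Fintype.card V → HasK G a k := by
  classical
  set l := (2 * a + 1) * κ + 1 with hl
  set B := 2 ^ κ * k + 1 with hB
  set m := B * l with hm
  refine ⟨(κ + 1) * (2 ^ (κ + 1) * k + 1) ^ m + 1, fun V _ G ord K hG H hN => ?_⟩
  rcases exists_chain hG H (a := a) (k := k) (m := m) (by omega) (by omega) (by omega) with
    h | ⟨w, hw⟩
  · exact h
  obtain ⟨q, E, C⟩ := exists_CD hG H hw
  have hlpos : 0 < l := by omega
  have hblock : ∀ t, ∃ i, ∃ A : Finset V, t < B → t * l ≤ i ∧ i < t * l + l ∧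
      A ⊆ K (w 0) ∧ A.card = a ∧ ∃ T, Tie G ord K w q i A T := by
    intro t
    by_cases ht : t < B
    · have h1 : t * l + l ≤ m := by
        rw [hm]
        calc t * l + l = (t + 1) * l := by ring
          _ ≤ B * l := Nat.mul_le_mul_right _ ht
      obtain ⟨i, h2, h3, A, h4, h5, h6⟩ := tie_block hG H C (a := a) ha hl h1
      exact ⟨i, A, fun _ => ⟨h2, h3, h4, h5, h6⟩⟩
    · exact ⟨0, ∅, fun h => absurd h ht⟩
  choose i A hiA using hblock
  have hmaps : ∀ t ∈ Finset.range B, A t ∈ (K (w 0)).powerset := by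
    intro t ht
    rw [Finset.mem_powerset]
    exact (hiA t (Finset.mem_range.1 ht)).2.2.1
  have hcard : (K (w 0)).powerset.card * k < (Finset.range B).card := by
    rw [Finset.card_powerset, (C.late 0 (by omega)).card_K hG H, Finset.card_range]
    omega
  obtain ⟨S, -, hS⟩ := Finset.exists_lt_card_fiber_of_mul_lt_card_of_maps_to hmaps hcard
  set F := (Finset.range B).filter fun t => A t = S with hF
  have hFm : ∀ t ∈ F, t < B ∧ A t = S := by
    intro t ht
    rw [hF, Finset.mem_filter, Finset.mem_range] at ht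
    exact ht
  have hinj : Set.InjOn i (F : Set ℕ) := by
    intro t ht t' ht' h
    obtain ⟨h1, h2, -⟩ := hiA t (hFm t ht).1
    obtain ⟨h3, h4, -⟩ := hiA t' (hFm t' ht').1
    rw [h] at h1 h2
    rcases lt_trichotomy t t' with h5 | h5 | h5
    · have : (t + 1) * l ≤ t' * l := Nat.mul_le_mul_right _ h5
      rw [add_mul, one_mul] at this
      omega
    · exact h5
    · have : (t' + 1) * l ≤ t * l := Nat.mul_le_mul_right _ h5
      rw [add_mul, one_mul] at this
      omega
  obtain ⟨t₀, ht₀⟩ : F.Nonempty := Finset.card_pos.1 (by omega)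
  have hS1 : S ⊆ K (w 0) := by
    rw [← (hFm t₀ ht₀).2]
    exact (hiA t₀ (hFm t₀ ht₀).1).2.2.1
  have hS2 : S.card = a := by
    rw [← (hFm t₀ ht₀).2]
    exact (hiA t₀ (hFm t₀ ht₀).1).2.2.2.1
  refine hasK_of_ties H C S hS1 hS2 (F.image i) ?_ ?_ ?_
  · intro j hj
    obtain ⟨t, ht, rfl⟩ := Finset.mem_image.1 hj
    have h1 := hiA t (hFm t ht).1
    have h2 : (t + 1) * l ≤ B * l := Nat.mul_le_mul_right _ (hFm t ht).1
    rw [add_mul, one_mul] at h2
    omega
  · rw [Finset.card_image_of_injOn hinj]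
    omega
  · intro j hj
    obtain ⟨t, ht, rfl⟩ := Finset.mem_image.1 hj
    have h1 := (hiA t (hFm t ht).1).2.2.2.2
    rw [(hFm t ht).2] at h1
    exact h1

end TWk
end
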